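import Pool.Agent.Helper32.DZ.Defs

set_option autoImplicit false

/-!
DZ-12 BoxCard. The number of integral symmetric matrices in a box.

PROOF. A symmetric matrix is determined by its entries with `i ≤ j`. The number of integers `x` with `|x| < B` is
at most `1` for `B ≤ 1` and at most `2 B + 1 ≤ 3 B` for `B > 1`, so at most `3 max B 1`.
Second statement: `B i j = c 2^(κ i + κ j)`, `c ≥ 1`: `max (B i j) 1 ≤ c 2^(max (κ i + κ j) 0)`; the product over
`i ≤ j` of `3 c` is at most `(3c)^(N^2)`, and `∏_(i ≤ j) 2^(max (κ i + κ j) 0) = 2^(Xk κ)`.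
-/

namespace Pool.Agent.Helper32.DZ

private noncomputable def bcS {N : ℕ} (B : Fin N → Fin N → ℝ) (i j : Fin N) : Finset ℤ :=
  if i ≤ j then Finset.Ioo (-⌈B i j⌉) ⌈B i j⌉ else {0}

private def bcF {N : ℕ} (A : Matrix (Fin N) (Fin N) ℤ) (i j : Fin N) : ℤ :=
  if i ≤ j then A i j else 0

private noncomputable def bcT {N : ℕ} (B : Fin N → Fin N → ℝ) : Finset (Fin N → Fin N → ℤ) :=
  Fintype.piFinset fun i => Fintype.piFinset fun j => bcS B i j

private theorem bc_maps {N : ℕ} (B : Fin N → Fin N → ℝ) :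
    ∀ A ∈ Box B, bcF A ∈ ((bcT B : Finset (Fin N → Fin N → ℤ)) : Set (Fin N → Fin N → ℤ)) := by
  intro A hA
  rw [Finset.mem_coe, bcT, Fintype.mem_piFinset]
  intro i
  rw [Fintype.mem_piFinset]
  intro j
  unfold bcS bcF
  by_cases h : i ≤ j
  · rw [if_pos h, if_pos h, Finset.mem_Ioo]
    have h1 := abs_lt.1 (hA.2 i j)
    have h2 := Int.le_ceil (B i j)
    constructor
    · have h3 : (-(⌈B i j⌉ : ℤ) : ℝ) < ((A i j : ℤ) : ℝ) := by linarith [h1.1]
      exact_mod_cast h3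
    · have h3 : ((A i j : ℤ) : ℝ) < ((⌈B i j⌉ : ℤ) : ℝ) := by linarith [h1.2]
      exact_mod_cast h3
  · rw [if_neg h, if_neg h, Finset.mem_singleton]

private theorem bc_inj {N : ℕ} (B : Fin N → Fin N → ℝ) :
    Set.InjOn (bcF : Matrix (Fin N) (Fin N) ℤ → Fin N → Fin N → ℤ) (Box B) := by
  intro A hA A' hA' h
  have h1 : ∀ i j, i ≤ j → A i j = A' i j := by
    intro i j hij
    have h2 := congrFun (congrFun h i) j
    unfold bcF at h2
    rwa [if_pos hij, if_pos hij] at h2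
  ext i j
  rcases le_total i j with hij | hij
  · exact h1 i j hij
  · rw [← hA.1.apply i j, ← hA'.1.apply i j]
    exact h1 j i hij

private theorem bc_card {N : ℕ} (B : Fin N → Fin N → ℝ) (i j : Fin N) :
    ((bcS B i j).card : ℝ) ≤ if i ≤ j then 3 * max (B i j) 1 else 1 := by
  unfold bcS
  by_cases h : i ≤ j
  · rw [if_pos h, if_pos h, Int.card_Ioo]
    have h1 := Int.ceil_lt_add_one (B i j)
    have h2 : (((⌈B i j⌉ - -⌈B i j⌉ - 1).toNat : ℤ) : ℝ) =
        ((max (⌈B i j⌉ - -⌈B i j⌉ - 1) 0 : ℤ) : ℝ) := by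
      rw [Int.toNat_eq_max]
    have h3 : (((⌈B i j⌉ - -⌈B i j⌉ - 1).toNat : ℕ) : ℝ) =
        max (2 * ((⌈B i j⌉ : ℤ) : ℝ) - 1) 0 := by
      have h4 : (((⌈B i j⌉ - -⌈B i j⌉ - 1).toNat : ℕ) : ℝ) =
          (((⌈B i j⌉ - -⌈B i j⌉ - 1).toNat : ℤ) : ℝ) := by norm_cast
      rw [h4, h2, Int.cast_max]
      push_cast
      congr 1
      ring
    rw [h3]
    have h5 := le_max_left (B i j) 1
    have h6 := le_max_right (B i j) 1
    apply max_le
    · linarith
    · linarith
  · rw [if_neg h, if_neg h, Finset.card_singleton, Nat.cast_one]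

theorem box_card {N : ℕ} (B : Fin N → Fin N → ℝ) :
    (Box B).Finite ∧
      ((Box B).ncard : ℝ) ≤ ∏ i, ∏ j, if i ≤ j then 3 * max (B i j) 1 else 1 := by
  have hf : ((bcT B : Finset (Fin N → Fin N → ℤ)) : Set (Fin N → Fin N → ℤ)).Finite :=
    (bcT B).finite_toSet
  refine ⟨Set.Finite.of_injOn (fun A hA => bc_maps B A hA) (bc_inj B) hf, ?_⟩
  have h1 := Set.ncard_le_ncard_of_injOn bcF (bc_maps B) (bc_inj B) hf
  rw [Set.ncard_coe_finset] at h1
  have h2 : ((bcT B).card : ℝ) = ∏ i, ∏ j, ((bcS B i j).card : ℝ) := by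
    rw [bcT, Fintype.card_piFinset]
    push_cast
    refine Finset.prod_congr rfl fun i _ => ?_
    rw [Fintype.card_piFinset]
    push_cast
    rfl
  calc ((Box B).ncard : ℝ) ≤ ((bcT B).card : ℝ) := by exact_mod_cast h1
    _ = ∏ i, ∏ j, ((bcS B i j).card : ℝ) := h2
    _ ≤ _ := by
      refine Finset.prod_le_prod (fun i _ => Finset.prod_nonneg fun j _ => Nat.cast_nonneg _)
        fun i _ => ?_
      exact Finset.prod_le_prod (fun j _ => Nat.cast_nonneg _) fun j _ => bc_card B i j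

private theorem bc_zpow {ι : Type*} (s : Finset ι) (e : ι → ℤ) :
    ∏ i ∈ s, (2 : ℝ) ^ (e i) = (2 : ℝ) ^ (∑ i ∈ s, e i) := by
  classical
  induction s using Finset.induction_on with
  | empty => simp
  | insert a s ha ih =>
    rw [Finset.prod_insert ha, Finset.sum_insert ha, ih, zpow_add₀ (two_ne_zero)]

theorem box_card_two {N : ℕ} (κ : Fin N → ℤ) (c : ℝ) (hc : 1 ≤ c) :
    ((Box fun i j => c * (2 : ℝ) ^ (κ i + κ j)).ncard : ℝ) ≤
      (3 * c) ^ (N ^ 2) * (2 : ℝ) ^ (Xk κ) := by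
  refine (box_card _).2.trans ?_
  have key : ∀ i j : Fin N, (if i ≤ j then 3 * max (c * (2 : ℝ) ^ (κ i + κ j)) 1 else 1) ≤
      (3 * c) * (2 : ℝ) ^ (if i ≤ j then max (κ i + κ j) 0 else 0) := by
    intro i j
    by_cases h : i ≤ j
    · rw [if_pos h, if_pos h]
      have h1 : (2 : ℝ) ^ (κ i + κ j) ≤ (2 : ℝ) ^ (max (κ i + κ j) 0) :=
        zpow_le_zpow_right₀ (by norm_num) (le_max_left _ _)
      have h2 : (1 : ℝ) ≤ (2 : ℝ) ^ (max (κ i + κ j) 0) :=
        one_le_zpow₀ (by norm_num) (le_max_right _ _)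
      have h3 : max (c * (2 : ℝ) ^ (κ i + κ j)) 1 ≤ c * (2 : ℝ) ^ (max (κ i + κ j) 0) := by
        apply max_le
        · exact mul_le_mul_of_nonneg_left h1 (by linarith)
        · nlinarith
      linarith
    · rw [if_neg h, if_neg h, zpow_zero, mul_one]
      linarith
  have hnn : ∀ i j : Fin N,
      (0 : ℝ) ≤ if i ≤ j then 3 * max (c * (2 : ℝ) ^ (κ i + κ j)) 1 else 1 := by
    intro i j
    by_cases h : i ≤ j
    · rw [if_pos h]
      have := le_max_right (c * (2 : ℝ) ^ (κ i + κ j)) 1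
      linarith
    · rw [if_neg h]
      exact zero_le_one
  calc ∏ i, ∏ j, (if i ≤ j then 3 * max (c * (2 : ℝ) ^ (κ i + κ j)) 1 else 1)
      ≤ ∏ i : Fin N, ∏ j : Fin N,
        (3 * c) * (2 : ℝ) ^ (if i ≤ j then max (κ i + κ j) 0 else 0) := by
        refine Finset.prod_le_prod (fun i _ => Finset.prod_nonneg fun j _ => hnn i j)
          fun i _ => ?_
        exact Finset.prod_le_prod (fun j _ => hnn i j) fun j _ => key i j
    _ = (3 * c) ^ (N ^ 2) * (2 : ℝ) ^ (Xk κ) := by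
        have h1 : ∀ i : Fin N, ∏ j : Fin N,
            (3 * c) * (2 : ℝ) ^ (if i ≤ j then max (κ i + κ j) 0 else 0) =
            (3 * c) ^ N * (2 : ℝ) ^ (∑ j, if i ≤ j then max (κ i + κ j) 0 else 0) := by
          intro i
          rw [Finset.prod_mul_distrib, Finset.prod_const, Finset.card_univ, Fintype.card_fin,
            bc_zpow]
        rw [Finset.prod_congr rfl fun i _ => h1 i, Finset.prod_mul_distrib, Finset.prod_const,
          Finset.card_univ, Fintype.card_fin, bc_zpow, ← pow_mul, pow_two]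
        rfl

end Pool.Agent.Helper32.DZ
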