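import Mathlib

set_option autoImplicit false

/-!
Project DZ (MP_d88658_nt): definitions. See /team-store/memo_MP_d88658_DENSITY_helper32.md

`pol a = ∑ a_i X^i`, `pen P R = det (X P - R)`, `HasPt a`: `∑ a_i x^i` is a square for some integer `x`.
`Good a`: the leading coefficient is not zero and there are `n` distinct complex roots.
`PG P R`: `P`, `R` symmetric, `det P ≠ 0`, `det (x P - R)` has `N` distinct complex roots.
`Tr κ`: unitriangular integral matrices with `0 ≤ U i j < 2^(κ j - κ i)` for `i < j`.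
`Dk κ = ∑_(i<j) (κ j - κ i)`, `Xk κ = ∑_(i≤j) max (κ i + κ j) 0`.
`toR`: cast to real matrices, `ev M u w = u^t M w`.
`AdjSq ε A`: `adj A = ε u u^t` modulo `det A`. `NegSq a S`: `S = - u u^t` modulo `a`.
-/

open Polynomial Matrix

namespace Pool.Agent.Helper32.DZ

/-- `∑ a_i X^i` -/
noncomputable def pol {n : ℕ} (a : Fin (n + 1) → ℤ) : ℤ[X] := ∑ i, C (a i) * X ^ (i : ℕ)

/-- `det (X P - R)` -/
noncomputable def pen {N : ℕ} (P R : Matrix (Fin N) (Fin N) ℤ) : ℤ[X] :=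
  ((X : ℤ[X]) • P.map (C : ℤ → ℤ[X]) - R.map (C : ℤ → ℤ[X])).det

/-- `y^2 = f(x)` has an integral point -/
def HasPt {n : ℕ} (a : Fin (n + 1) → ℤ) : Prop := ∃ x y : ℤ, y ^ 2 = ∑ i, a i * x ^ (i : ℕ)

/-- degree exactly `n`, distinct roots -/
def Good {n : ℕ} (a : Fin (n + 1) → ℤ) : Prop :=
  a (Fin.last n) ≠ 0 ∧ ∃ e : Fin n → ℂ, Function.Injective e ∧
    ∀ z : ℂ, ∑ i, (a i : ℂ) * z ^ (i : ℕ) = (a (Fin.last n) : ℂ) * ∏ i, (z - e i)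

/-- good pair of symmetric matrices -/
def PG {N : ℕ} (P R : Matrix (Fin N) (Fin N) ℤ) : Prop :=
  P.IsSymm ∧ R.IsSymm ∧ P.det ≠ 0 ∧ ∃ e : Fin N → ℂ, Function.Injective e ∧
    ∀ i, (e i • P.map (Int.cast : ℤ → ℂ) - R.map (Int.cast : ℤ → ℂ)).det = 0

/-- unitriangular -/
def UT {N : ℕ} (U : Matrix (Fin N) (Fin N) ℤ) : Prop :=
  (∀ i, U i i = 1) ∧ ∀ i j, j < i → U i j = 0

/-- the translates attached to a cell -/
def Tr {N : ℕ} (κ : Fin N → ℤ) : Set (Matrix (Fin N) (Fin N) ℤ) :=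
  {U | UT U ∧ ∀ i j, i < j → 0 ≤ U i j ∧ ((U i j : ℤ) : ℝ) < (2 : ℝ) ^ (κ j - κ i)}

/-- sum over `i ≤ j` -/
def SLe {N : ℕ} (f : Fin N → Fin N → ℤ) : ℤ := ∑ i, ∑ j, if i ≤ j then f i j else 0

/-- sum over `i < j` -/
def SLt {N : ℕ} (f : Fin N → Fin N → ℤ) : ℤ := ∑ i, ∑ j, if i < j then f i j else 0

/-- `∑_(i<j) (κ j - κ i)` -/
def Dk {N : ℕ} (κ : Fin N → ℤ) : ℤ := SLt fun i j => κ j - κ i

/-- `∑_(i≤j) max (κ i + κ j) 0` -/
def Xk {N : ℕ} (κ : Fin N → ℤ) : ℤ := SLe fun i j => max (κ i + κ j) 0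

/-- symmetric integral matrices in a box -/
def Box {N : ℕ} (B : Fin N → Fin N → ℝ) : Set (Matrix (Fin N) (Fin N) ℤ) :=
  {A | A.IsSymm ∧ ∀ i j, |((A i j : ℤ) : ℝ)| < B i j}

/-- real matrix of an integral matrix -/
def toR {N : ℕ} (M : Matrix (Fin N) (Fin N) ℤ) : Matrix (Fin N) (Fin N) ℝ :=
  M.map (Int.cast : ℤ → ℝ)

/-- bilinear form `u^t M w` -/
def ev {N : ℕ} (M : Matrix (Fin N) (Fin N) ℝ) (u w : Fin N → ℝ) : ℝ := u ⬝ᵥ M.mulVec w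

/-- the adjugate is `ε` times a rank one square modulo the determinant -/
def AdjSq {N : ℕ} (ε : ℤ) (A : Matrix (Fin N) (Fin N) ℤ) : Prop :=
  ∃ u : Fin N → ℤ, ∀ i j, A.det ∣ A.adjugate i j - ε * (u i * u j)

/-- `S = - u u^t` modulo `a` -/
def NegSq {N : ℕ} (a : ℤ) (S : Matrix (Fin N) (Fin N) ℤ) : Prop :=
  ∃ u : Fin N → ℤ, ∀ i j, a ∣ S i j + u i * u j

end Pool.Agent.Helper32.DZ
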