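import Pool.Agent.Helper32.DZ.Defs

/-!
DZ-11 TrCard. The number of translates.

PROOF. An element of `Tr κ` is determined by its entries `U i j`, `i < j`, which are arbitrary integers in
`[0, 2^(κ j - κ i))`, and `κ j - κ i ≥ 0` is an integer, so this interval contains exactly
`2^((κ j - κ i).toNat)` integers. So the number is `∏_(i<j) 2^(κ j - κ i) = 2^(Dk κ)`.
(Injection from the product of `Finset.range (2^((κ j - κ i).toNat))`, or from functions; only the lower bound
and finiteness are needed.)
-/

set_option autoImplicit false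

namespace Pool.Agent.Helper32.DZ

private theorem trc_zpow_sum {ι : Type*} (s : Finset ι) (f : ι → ℤ) :
    (2 : ℝ) ^ (∑ i ∈ s, f i) = ∏ i ∈ s, (2 : ℝ) ^ (f i) := by
  classical
  induction s using Finset.induction_on with
  | empty => simp
  | insert a s ha ih =>
    rw [Finset.sum_insert ha, Finset.prod_insert ha, zpow_add₀ (by norm_num), ih]

private noncomputable def trcT {N : ℕ} (κ : Fin N → ℤ) (i j : Fin N) : Finset ℤ :=
  if i < j then Finset.Ico (0 : ℤ) (2 ^ ((κ j - κ i).toNat)) else if i = j then {1} else {0}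

private theorem trc_pow {N : ℕ} (κ : Fin N → ℤ) (hκ : Monotone κ) (i j : Fin N) (h : i < j) :
    (2 : ℝ) ^ (κ j - κ i) = (((2 : ℤ) ^ ((κ j - κ i).toNat) : ℤ) : ℝ) := by
  have h0 : 0 ≤ κ j - κ i := sub_nonneg.2 (hκ h.le)
  conv_lhs => rw [← Int.toNat_of_nonneg h0]
  rw [zpow_natCast]
  push_cast
  rfl

theorem tr_card {N : ℕ} (κ : Fin N → ℤ) (hκ : Monotone κ) :
    (Tr κ).Finite ∧ (2 : ℝ) ^ (Dk κ) ≤ ((Tr κ).ncard : ℝ) := by
  classical
  have hset : Tr κ = (Matrix.of : (Fin N → Fin N → ℤ) ≃ Matrix (Fin N) (Fin N) ℤ) ''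
      ((Fintype.piFinset fun i => Fintype.piFinset (trcT κ i) : Finset (Fin N → Fin N → ℤ)) :
        Set (Fin N → Fin N → ℤ)) := by
    ext U
    simp only [Tr, UT, Set.mem_image, Finset.mem_coe, Fintype.mem_piFinset]
    constructor
    · rintro ⟨⟨h1, h2⟩, h3⟩
      refine ⟨fun i j => U i j, fun i j => ?_, rfl⟩
      unfold trcT
      by_cases hij : i < j
      · rw [if_pos hij, Finset.mem_Ico]
        obtain ⟨h4, h5⟩ := h3 i j hij
        refine ⟨h4, ?_⟩
        rw [trc_pow κ hκ i j hij] at h5
        exact_mod_cast h5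
      · rw [if_neg hij]
        by_cases he : i = j
        · rw [if_pos he, Finset.mem_singleton, he]
          exact h1 j
        · rw [if_neg he, Finset.mem_singleton]
          exact h2 i j (lt_of_le_of_ne (not_lt.1 hij) (Ne.symm he))
    · rintro ⟨V, hV, rfl⟩
      have hV' : ∀ i j, V i j ∈ trcT κ i j := hV
      refine ⟨⟨fun i => ?_, fun i j hij => ?_⟩, fun i j hij => ?_⟩
      · have := hV' i i
        unfold trcT at this
        rw [if_neg (lt_irrefl i), if_pos rfl, Finset.mem_singleton] at this
        exact this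
      · have := hV' i j
        unfold trcT at this
        rw [if_neg (not_lt.2 hij.le), if_neg (ne_of_gt hij), Finset.mem_singleton] at this
        exact this
      · have := hV' i j
        unfold trcT at this
        rw [if_pos hij, Finset.mem_Ico] at this
        refine ⟨this.1, ?_⟩
        rw [trc_pow κ hκ i j hij]
        exact_mod_cast this.2
  refine ⟨?_, ?_⟩
  · rw [hset]
    exact (Finset.finite_toSet _).image _
  · rw [hset, Set.ncard_image_of_injective _ (Equiv.injective _), Set.ncard_coe_finset,
      Fintype.card_piFinset]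
    have hD : (2 : ℝ) ^ (Dk κ) = ∏ i, ∏ j, (((trcT κ i j).card : ℕ) : ℝ) := by
      unfold Dk SLt
      rw [trc_zpow_sum]
      refine Finset.prod_congr rfl fun i _ => ?_
      rw [trc_zpow_sum]
      refine Finset.prod_congr rfl fun j _ => ?_
      unfold trcT
      by_cases hij : i < j
      · rw [if_pos hij, if_pos hij, trc_pow κ hκ i j hij, Int.card_Ico, sub_zero]
        push_cast
        have h2 : (((((2 : ℤ) ^ ((κ j - κ i).toNat)).toNat : ℕ) : ℤ) : ℝ) =
            (((2 : ℤ) ^ ((κ j - κ i).toNat) : ℤ) : ℝ) := by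
          rw [Int.toNat_of_nonneg (by positivity)]
        push_cast at h2
        exact h2.symm
      · rw [if_neg hij, if_neg hij]
        by_cases he : i = j
        · rw [if_pos he]; simp
        · rw [if_neg he]; simp
    rw [hD]
    push_cast
    refine le_of_eq (Finset.prod_congr rfl fun i _ => ?_)
    rw [Fintype.card_piFinset]
    push_cast
    rfl

end Pool.Agent.Helper32.DZ
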