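import Pool.Agent.Helper32.DZ.UtInj
import Pool.Agent.Helper32.DZ.TrCard

set_option autoImplicit false

/-!
DZ-13 InjCount. Counting with multiplicity instead of a fundamental domain.

PROOF. The map `(a, U) ↦ (U^t P_a U, U^t R_a U)` from `F ×ˢ Tr κ` to `T` is injective: equal values for
`(a, U)`, `(b, V)` give `a = b` (`hinj`), then `U = V` by `ut_inj` (`Tr κ` consists of `UT` matrices). So
`F.ncard * (Tr κ).ncard ≤ T.ncard` (`Set.ncard_prod`, `Set.ncard_le_ncard_of_injOn`), and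
`2^(Dk κ) ≤ (Tr κ).ncard` by `tr_card`.
-/

open Matrix

namespace Pool.Agent.Helper32.DZ

theorem inj_count {N : ℕ} {α : Type} (F : Set α) (hF : F.Finite) (κ : Fin N → ℤ)
    (hκ : Monotone κ) (P R : α → Matrix (Fin N) (Fin N) ℤ) (hPG : ∀ a ∈ F, PG (P a) (R a))
    (hinj : ∀ a ∈ F, ∀ b ∈ F, ∀ U ∈ Tr κ, ∀ V ∈ Tr κ, Uᵀ * P a * U = Vᵀ * P b * V →
      Uᵀ * R a * U = Vᵀ * R b * V → a = b)
    (T : Set (Matrix (Fin N) (Fin N) ℤ × Matrix (Fin N) (Fin N) ℤ)) (hT : T.Finite)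
    (hmem : ∀ a ∈ F, ∀ U ∈ Tr κ, (Uᵀ * P a * U, Uᵀ * R a * U) ∈ T) :
    (F.ncard : ℝ) * (2 : ℝ) ^ (Dk κ) ≤ (T.ncard : ℝ) := by
  obtain ⟨hTf, hTc⟩ := tr_card κ hκ
  have h1 : (F ×ˢ Tr κ).ncard ≤ T.ncard := by
    refine Set.ncard_le_ncard_of_injOn
      (fun x : α × Matrix (Fin N) (Fin N) ℤ => (x.2ᵀ * P x.1 * x.2, x.2ᵀ * R x.1 * x.2)) ?_ ?_ hT
    · rintro ⟨a, U⟩ ⟨ha, hU⟩
      exact hmem a ha U hU
    · rintro ⟨a, U⟩ ⟨ha, hU⟩ ⟨b, V⟩ ⟨hb, hV⟩ h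
      have h2 : Uᵀ * P a * U = Vᵀ * P b * V := congrArg Prod.fst h
      have h3 : Uᵀ * R a * U = Vᵀ * R b * V := congrArg Prod.snd h
      have h4 : a = b := hinj a ha b hb U hU V hV h2 h3
      subst h4
      have h5 : U = V := ut_inj (P a) (R a) (hPG a ha) U V hU.1 hV.1 h2 h3
      rw [h5]
  rw [Set.ncard_prod] at h1
  calc (F.ncard : ℝ) * (2 : ℝ) ^ (Dk κ) ≤ (F.ncard : ℝ) * ((Tr κ).ncard : ℝ) :=
        mul_le_mul_of_nonneg_left hTc (Nat.cast_nonneg _)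
    _ = ((F.ncard * (Tr κ).ncard : ℕ) : ℝ) := by push_cast; rfl
    _ ≤ (T.ncard : ℝ) := by exact_mod_cast h1

end Pool.Agent.Helper32.DZ
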