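import Pool.Agent.Helper32.DZ.Defs

set_option autoImplicit false

/-!
DZ-04 Eig. Simultaneous diagonalisation of a complex symmetric pencil with distinct eigenvalues.

PROOF. For each `i` choose `v_i ≠ 0` with `(e_i P - R) v_i = 0` (`Matrix.exists_mulVec_eq_zero_iff`);
`V` has columns `v_i`. For `i ≠ j`: `e_i v_j^t P v_i = v_j^t R v_i = v_i^t R v_j = e_j v_i^t P v_j =
e_j v_j^t P v_i`, so `v_j^t P v_i = 0`, and `v_j^t R v_i = e_i v_j^t P v_i`. So with
`α_i = v_i^t P v_i` both `V^t P V` and `V^t R V` are diagonal as claimed.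
The `v_i` are linearly independent: they are eigenvectors of `P⁻¹ R` for the distinct eigenvalues `e_i`
(`Module.End.eigenvectors_linearIndependent'`), so `det V ≠ 0` (`Matrix.linearIndependent_cols_iff_isUnit` or
`Matrix.mulVec_injective...`). Hence `∏ α_i = det (V^t P V) = (det V)^2 det P ≠ 0`, so all `α_i ≠ 0`.
-/

open Matrix

namespace Pool.Agent.Helper32.DZ

private theorem eig_symm {N : ℕ} {P : Matrix (Fin N) (Fin N) ℂ} (hP : P.IsSymm)
    (x y : Fin N → ℂ) : x ⬝ᵥ (P *ᵥ y) = y ⬝ᵥ (P *ᵥ x) := by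
  rw [dotProduct_comm, ← hP.eq, Matrix.mulVec_transpose, ← Matrix.dotProduct_mulVec, hP.eq]

theorem eig {N : ℕ} (P R : Matrix (Fin N) (Fin N) ℂ) (hP : P.IsSymm) (hR : R.IsSymm)
    (hd : P.det ≠ 0) (e : Fin N → ℂ) (he : Function.Injective e)
    (hr : ∀ i, (e i • P - R).det = 0) :
    ∃ (V : Matrix (Fin N) (Fin N) ℂ) (α : Fin N → ℂ), V.det ≠ 0 ∧ (∀ i, α i ≠ 0) ∧
      Vᵀ * P * V = Matrix.diagonal α ∧ Vᵀ * R * V = Matrix.diagonal (fun i => α i * e i) := by
  have hv : ∀ i, ∃ v : Fin N → ℂ, v ≠ 0 ∧ (e i • P - R) *ᵥ v = 0 := fun i =>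
    Matrix.exists_mulVec_eq_zero_iff.2 (hr i)
  choose v hv0 hv using hv
  have hRv : ∀ i, R *ᵥ v i = e i • (P *ᵥ v i) := by
    intro i
    have h1 := hv i
    rw [Matrix.sub_mulVec, Matrix.smul_mulVec] at h1
    exact (sub_eq_zero.1 h1).symm
  have orth : ∀ i j, i ≠ j → v i ⬝ᵥ (P *ᵥ v j) = 0 := by
    intro i j hij
    have h1 : v i ⬝ᵥ (R *ᵥ v j) = e j * (v i ⬝ᵥ (P *ᵥ v j)) := by
      rw [hRv, dotProduct_smul, smul_eq_mul]
    have h2 : v j ⬝ᵥ (R *ᵥ v i) = e i * (v j ⬝ᵥ (P *ᵥ v i)) := by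
      rw [hRv, dotProduct_smul, smul_eq_mul]
    rw [eig_symm hR, h2, eig_symm hP (v j) (v i)] at h1
    have h3 : (e i - e j) * (v i ⬝ᵥ (P *ᵥ v j)) = 0 := by linear_combination h1
    rcases mul_eq_zero.1 h3 with h4 | h4
    · exact absurd (he (sub_eq_zero.1 h4)) hij
    · exact h4
  have hPu : IsUnit P.det := isUnit_iff_ne_zero.2 hd
  have hli : LinearIndependent ℂ v := by
    refine Module.End.eigenvectors_linearIndependent' (Matrix.toLin' (P⁻¹ * R)) e he v ?_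
    intro i
    refine Module.End.hasEigenvector_iff.2 ⟨?_, hv0 i⟩
    rw [Module.End.mem_eigenspace_iff, Matrix.toLin'_apply, ← Matrix.mulVec_mulVec, hRv,
      Matrix.mulVec_smul, Matrix.mulVec_mulVec, Matrix.nonsing_inv_mul P hPu, Matrix.one_mulVec]
  let V : Matrix (Fin N) (Fin N) ℂ := Matrix.of fun r i => v i r
  have hent : ∀ (M : Matrix (Fin N) (Fin N) ℂ) i j, (Vᵀ * M * V) i j = v i ⬝ᵥ (M *ᵥ v j) := by
    intro M i j
    rw [Matrix.mul_assoc]
    rfl
  have hV : V.det ≠ 0 := by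
    have h1 : LinearIndependent ℂ V.col := hli
    have h2 := Matrix.linearIndependent_cols_iff_isUnit.1 h1
    exact (Matrix.isUnit_iff_isUnit_det V).1 h2 |>.ne_zero
  have hPd : Vᵀ * P * V = Matrix.diagonal fun i => v i ⬝ᵥ (P *ᵥ v i) := by
    ext i j
    rw [hent]
    by_cases hij : i = j
    · subst hij
      rw [Matrix.diagonal_apply_eq]
    · rw [Matrix.diagonal_apply_ne _ hij, orth i j hij]
  refine ⟨V, fun i => v i ⬝ᵥ (P *ᵥ v i), hV, ?_, hPd, ?_⟩
  · have h1 := congrArg Matrix.det hPd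
    rw [Matrix.det_mul, Matrix.det_mul, Matrix.det_transpose, Matrix.det_diagonal] at h1
    have h2 : ∏ i, (v i ⬝ᵥ (P *ᵥ v i)) ≠ 0 := by
      rw [← h1]
      exact mul_ne_zero (mul_ne_zero hV hd) hV
    intro i
    exact Finset.prod_ne_zero_iff.1 h2 i (Finset.mem_univ i)
  · ext i j
    rw [hent, hRv, dotProduct_smul, smul_eq_mul]
    by_cases hij : i = j
    · subst hij
      rw [Matrix.diagonal_apply_eq, mul_comm]
    · rw [Matrix.diagonal_apply_ne _ hij, orth i j hij, mul_zero]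

end Pool.Agent.Helper32.DZ
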