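import Pool.Agent.Helper32.DZ.ZeroBlock

set_option autoImplicit false

/-!
DZ-26 Constr. Constraints on cells from zero blocks.

PROOFS. `constr_even`: size `m + 1`. Suppose `i + j + 1 = m` and `κ i + κ j ≤ 0`; by symmetry `i ≤ j`. For `k ≤ i`,
`l ≤ j`: `κ k + κ l ≤ 0` (monotone), so the integers `A k l`, `B k l` have absolute value `< 2^(κ k + κ l) ≤ 1`: zero.
`zero_block` with the block `(i + 1) × (j + 1)`, `(i+1) + (j+1) = m + 1`: contradiction.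
`sum_pos`: the pairs `(i, m - 1 - i)`, `i ≤ m - 1`: `2 ∑_(i<m) κ i = ∑_(i < m) (κ i + κ (m-1-i)) ≥ m > 0`, so the sum over
`i < m` is `≥ 1`, and `κ (last) ≥ κ ((m-1)/2) ≥ 1` (`m` odd, `2 κ ((m-1)/2) ≥ 1`). So `∑ κ ≥ 1`.
`constr_odd`: if `κ i + κ (rev i) ≤ 0` (`rev i = d - 1 - i`) then `G` vanishes on the block `(i+1) × (d - i)`, sum
`d + 1 > d`, so `det G = 0` by `zero_det`. Upper bound: `2 ∑ κ = ∑_i (κ i + κ (rev i)) ≤ 2c` and all terms are `≥ 1 > 0`.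
-/

open Matrix

namespace Pool.Agent.Helper32.DZ

private lemma int_zero {x : ℤ} {e : ℤ} (he : e ≤ 0) (h : |((x : ℤ) : ℝ)| < (2 : ℝ) ^ e) : x = 0 := by
  have h1 : (2 : ℝ) ^ e ≤ 1 := by
    calc (2 : ℝ) ^ e ≤ (2 : ℝ) ^ (0 : ℤ) := zpow_le_zpow_right₀ (by norm_num) he
      _ = 1 := zpow_zero _
  have h2 : |((x : ℤ) : ℝ)| < 1 := lt_of_lt_of_le h h1
  have h3 : |x| < 1 := by exact_mod_cast h2
  exact Int.abs_lt_one_iff.mp h3

private lemma constr_even_aux {m : ℕ} (κ : Fin (m + 1) → ℤ) (hκ : Monotone κ)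
    (A B : Matrix (Fin (m + 1)) (Fin (m + 1)) ℤ) (h : PG A B)
    (hA : ∀ i j, |((A i j : ℤ) : ℝ)| < (2 : ℝ) ^ (κ i + κ j))
    (hB : ∀ i j, |((B i j : ℤ) : ℝ)| < (2 : ℝ) ^ (κ i + κ j))
    (i j : Fin (m + 1)) (hij : (i : ℕ) + (j : ℕ) + 1 = m) (hle : (i : ℕ) ≤ (j : ℕ)) :
    1 ≤ κ i + κ j := by
  by_contra hc
  have hc' : κ i + κ j ≤ 0 := by linarith [not_le.mp hc]
  refine zero_block A B h ((i : ℕ) + 1) ((j : ℕ) + 1) (by omega) (by omega) (by omega) ?_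
  intro k l hk hl
  have hk' : κ k ≤ κ i := hκ (by rw [Fin.le_def]; omega)
  have hl' : κ l ≤ κ j := hκ (by rw [Fin.le_def]; omega)
  exact ⟨int_zero (by linarith) (hA k l), int_zero (by linarith) (hB k l)⟩

theorem constr_even {m : ℕ} (hm : Odd m) (κ : Fin (m + 1) → ℤ) (hκ : Monotone κ)
    (A B : Matrix (Fin (m + 1)) (Fin (m + 1)) ℤ) (h : PG A B)
    (hA : ∀ i j, |((A i j : ℤ) : ℝ)| < (2 : ℝ) ^ (κ i + κ j))
    (hB : ∀ i j, |((B i j : ℤ) : ℝ)| < (2 : ℝ) ^ (κ i + κ j)) :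
    ∀ i j : Fin (m + 1), (i : ℕ) + (j : ℕ) + 1 = m → 1 ≤ κ i + κ j := by
  intro i j hij
  rcases le_total (i : ℕ) (j : ℕ) with hle | hle
  · exact constr_even_aux κ hκ A B h hA hB i j hij hle
  · have := constr_even_aux κ hκ A B h hA hB j i (by omega) hle
    linarith

theorem sum_pos {m : ℕ} (hm : Odd m) (κ : Fin (m + 1) → ℤ) (hκ : Monotone κ)
    (hc : ∀ i j : Fin (m + 1), (i : ℕ) + (j : ℕ) + 1 = m → 1 ≤ κ i + κ j) : 1 ≤ ∑ i, κ i := by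
  obtain ⟨r, hr⟩ := hm
  rw [Fin.sum_univ_castSucc]
  have hmid : 1 ≤ κ ⟨r, by omega⟩ := by
    have := hc ⟨r, by omega⟩ ⟨r, by omega⟩ (by show r + r + 1 = m; omega)
    omega
  have hlast : κ ⟨r, by omega⟩ ≤ κ (Fin.last m) := hκ (Fin.le_last _)
  have hsum : (m : ℤ) ≤ ∑ i : Fin m, (κ i.castSucc + κ (Fin.rev i).castSucc) := by
    have h1 : ∑ _i : Fin m, (1 : ℤ) = m := by simp
    rw [← h1]
    refine Finset.sum_le_sum fun i _ => hc _ _ ?_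
    have hi := i.isLt
    have e1 : ((i.castSucc : Fin (m + 1)) : ℕ) = (i : ℕ) := rfl
    have e2 : (((Fin.rev i).castSucc : Fin (m + 1)) : ℕ) = m - ((i : ℕ) + 1) := by
      rw [Fin.val_castSucc, Fin.val_rev]
    rw [e1, e2]
    omega
  have hrev : ∑ i : Fin m, κ (Fin.rev i).castSucc = ∑ i : Fin m, κ i.castSucc :=
    Fintype.sum_equiv Fin.revPerm _ _ (fun i => rfl)
  rw [Finset.sum_add_distrib, hrev] at hsum
  omega

theorem constr_odd {d : ℕ} (κ : Fin d → ℤ) (hκ : Monotone κ) (G : Matrix (Fin d) (Fin d) ℤ)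
    (hG : G.det ≠ 0) (hb : ∀ i j, |((G i j : ℤ) : ℝ)| < (2 : ℝ) ^ (κ i + κ j)) (c : ℤ)
    (hs : ∑ i, κ i ≤ c) :
    ∀ i : Fin d, 1 ≤ κ i + κ i.rev ∧ κ i + κ i.rev ≤ 2 * c := by
  have hpos : ∀ i : Fin d, 1 ≤ κ i + κ i.rev := by
    intro i
    by_contra hcon
    have hc' : κ i + κ i.rev ≤ 0 := by linarith [not_le.mp hcon]
    apply hG
    have hi := i.isLt
    refine zero_det G ((i : ℕ) + 1) (d - (i : ℕ)) (by omega) (by omega) (by omega) ?_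
    intro k l hk hl
    have hk' : κ k ≤ κ i := hκ (by rw [Fin.le_def]; omega)
    have hl' : κ l ≤ κ i.rev := hκ (by rw [Fin.le_def, Fin.val_rev]; omega)
    exact int_zero (by linarith) (hb k l)
  intro i
  refine ⟨hpos i, ?_⟩
  have h1 : κ i + κ i.rev ≤ ∑ j : Fin d, (κ j + κ j.rev) :=
    Finset.single_le_sum (f := fun j : Fin d => κ j + κ j.rev)
      (fun j _ => le_trans zero_le_one (hpos j)) (Finset.mem_univ i)
  have hrev : ∑ j : Fin d, κ j.rev = ∑ j : Fin d, κ j :=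
    Fintype.sum_equiv Fin.revPerm _ _ (fun j => rfl)
  rw [Finset.sum_add_distrib, hrev] at h1
  linarith

end Pool.Agent.Helper32.DZ
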