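import Mathlib

set_option autoImplicit false

/-!
DZ-21 CrtBox. Integral points of a box avoiding bad residue classes modulo a fixed finite set of primes.

PROOF. `Q = ∏_(p ∈ S) p`, `L i ≥ Q ≥ 1`. The map `x ↦ (x mod p)_(p ∈ S)` sends the set into the product over
`p ∈ S` of the complements of `Ω p`, which has `∏ (p^|I| - |Ω p|) ≤ ∏ p^|I| (1 - ω p) = Q^|I| ∏ (1 - ω p)` elements.
Two points `x, y` with the same image satisfy `Q ∣ x i - y i` for all `i` (pairwise coprime primes,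
`Finset.prod_dvd_of_coprime` / `ZMod.intCast_zmod_eq...`), so a fibre has at most `∏_i (2 L i / Q + 1) ≤ ∏_i 3 L i / Q`
points (integers of `(-L, L)` in one class modulo `Q`: at most `2L/Q + 1`: they are `r + Q t` with `t` in an interval of
length `2L/Q`). Multiply. (`Finset.card_le_mul_card_image` or sum over fibres. If some complement is empty the set is
empty. `1 - ω p ≥ 0` because `ω p p^|I| ≤ |Ω p| ≤ p^|I|`.)
-/

namespace Pool.Agent.Helper32.DZ

private theorem finite_box {I : Type} [Fintype I] [DecidableEq I] (L : I → ℝ) :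
    {x : I → ℤ | ∀ i, |(x i : ℝ)| < L i}.Finite := by
  refine (Fintype.piFinset (fun i => Finset.Icc (-⌈L i⌉) ⌈L i⌉)).finite_toSet.subset ?_
  intro x hx
  rw [Finset.mem_coe, Fintype.mem_piFinset]
  intro i
  rw [Finset.mem_Icc]
  have h := abs_lt.1 (hx i)
  constructor
  · have : (-(⌈L i⌉ : ℝ)) < (x i : ℝ) := by
      have := Int.le_ceil (L i)
      linarith
    have h2 : ((-⌈L i⌉ : ℤ) : ℝ) < (x i : ℝ) := by push_cast; exact this
    exact le_of_lt (Int.cast_lt.1 h2)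
  · have : (x i : ℝ) < (⌈L i⌉ : ℝ) := lt_of_lt_of_le h.2 (Int.le_ceil _)
    exact le_of_lt (Int.cast_lt.1 this)

private theorem card_class (Q : ℕ) (hQ : 0 < Q) (L : ℝ) (hL : (Q : ℝ) ≤ L) (a : ℤ) (T : Finset ℤ)
    (hT : ∀ z ∈ T, |(z : ℝ)| < L ∧ (Q : ℤ) ∣ z - a) : (T.card : ℝ) ≤ 3 * L / Q := by
  have hQ0 : (0 : ℝ) < Q := by exact_mod_cast hQ
  set α : ℝ := (-L - a) / Q with hα
  set β : ℝ := (L - a) / Q with hβ
  have hle : T.card ≤ (Finset.Icc (⌊α⌋ + 1) (⌈β⌉ - 1)).card := by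
    refine Finset.card_le_card_of_injOn (fun z => (z - a) / (Q : ℤ)) ?_ ?_
    · intro z hz
      obtain ⟨h1, h2⟩ := hT z hz
      obtain ⟨t, ht⟩ := h2
      have hz' : z = a + Q * t := by linarith
      have hQz : (Q : ℤ) ≠ 0 := by exact_mod_cast hQ.ne'
      have h3 : (z - a) / (Q : ℤ) = t := by
        rw [ht]; exact Int.mul_ediv_cancel_left _ hQz
      simp only [Finset.coe_Icc, Set.mem_Icc, h3]
      have h4 := abs_lt.1 h1
      rw [hz'] at h4
      push_cast at h4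
      constructor
      · have : α < t := by
          rw [hα, div_lt_iff₀ hQ0]
          nlinarith [h4.1]
        have := Int.floor_lt.2 this
        omega
      · have : (t : ℝ) < β := by
          rw [hβ, lt_div_iff₀ hQ0]
          nlinarith [h4.2]
        have := Int.lt_ceil.2 this
        omega
    · intro z hz w hw hzw
      obtain ⟨_, t, ht⟩ := hT z hz
      obtain ⟨_, s, hs⟩ := hT w hw
      have hQz : (Q : ℤ) ≠ 0 := by exact_mod_cast hQ.ne'
      simp only [ht, hs, Int.mul_ediv_cancel_left _ hQz] at hzw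
      rw [hzw] at ht
      linarith
  have h1 : ((Finset.Icc (⌊α⌋ + 1) (⌈β⌉ - 1)).card : ℝ) ≤ β - α + 1 := by
    rw [Int.card_Icc]
    have hβ1 := Int.ceil_lt_add_one β
    have hα1 := Int.lt_floor_add_one α
    have hαβ : α ≤ β := by
      rw [hα, hβ]
      apply div_le_div_of_nonneg_right _ hQ0.le
      linarith
    rcases le_total 0 (⌈β⌉ - 1 + 1 - (⌊α⌋ + 1)) with h | h
    · have h2 : (((⌈β⌉ - 1 + 1 - (⌊α⌋ + 1)).toNat : ℤ) : ℝ) = ((⌈β⌉ - 1 + 1 - (⌊α⌋ + 1) : ℤ) : ℝ) := by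
        rw [Int.toNat_of_nonneg h]
      have h3 : (((⌈β⌉ - 1 + 1 - (⌊α⌋ + 1)).toNat : ℕ) : ℝ) = ((⌈β⌉ - 1 + 1 - (⌊α⌋ + 1) : ℤ) : ℝ) := by
        rw [← h2]; norm_cast
      rw [h3]
      push_cast
      linarith
    · rw [Int.toNat_of_nonpos h]
      push_cast
      linarith
  have h2 : β - α = 2 * L / Q := by
    rw [hα, hβ, ← sub_div]
    congr 1
    ring
  have h3 : (1 : ℝ) ≤ L / Q := by
    rw [le_div_iff₀ hQ0]
    linarith
  calc (T.card : ℝ) ≤ ((Finset.Icc (⌊α⌋ + 1) (⌈β⌉ - 1)).card : ℝ) := by exact_mod_cast hle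
    _ ≤ β - α + 1 := h1
    _ = 2 * L / Q + 1 := by rw [h2]
    _ ≤ 2 * L / Q + L / Q := by linarith
    _ = 3 * L / Q := by ring

theorem crt_box {I : Type} [Fintype I] [DecidableEq I] (S : Finset ℕ) (hS : ∀ p ∈ S, p.Prime)
    (Ω : (p : ℕ) → Set (I → ZMod p)) (ω : ℕ → ℝ)
    (hω : ∀ p ∈ S, 0 ≤ ω p ∧ ω p * (p : ℝ) ^ (Fintype.card I) ≤ ((Ω p).ncard : ℝ))
    (L : I → ℝ) (hL : ∀ i, ((∏ p ∈ S, p : ℕ) : ℝ) ≤ L i) :
    {x : I → ℤ | (∀ i, |(x i : ℝ)| < L i) ∧
      ∀ p ∈ S, (fun i => ((x i : ℤ) : ZMod p)) ∉ Ω p}.Finite ∧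
    ({x : I → ℤ | (∀ i, |(x i : ℝ)| < L i) ∧
      ∀ p ∈ S, (fun i => ((x i : ℤ) : ZMod p)) ∉ Ω p}.ncard : ℝ) ≤
      (∏ i, 3 * L i) * ∏ p ∈ S, (1 - ω p) := by
  classical
  have hfin : {x : I → ℤ | (∀ i, |(x i : ℝ)| < L i) ∧
      ∀ p ∈ S, (fun i => ((x i : ℤ) : ZMod p)) ∉ Ω p}.Finite :=
    (finite_box L).subset (fun x hx => hx.1)
  refine ⟨hfin, ?_⟩
  set A : Finset (I → ℤ) := hfin.toFinset with hA
  have hmem : ∀ x, x ∈ A ↔ (∀ i, |(x i : ℝ)| < L i) ∧
      ∀ p ∈ S, (fun i => ((x i : ℤ) : ZMod p)) ∉ Ω p := by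
    intro x
    rw [hA, Set.Finite.mem_toFinset]
    rfl
  have hcard : ({x : I → ℤ | (∀ i, |(x i : ℝ)| < L i) ∧
      ∀ p ∈ S, (fun i => ((x i : ℤ) : ZMod p)) ∉ Ω p}.ncard : ℝ) = (A.card : ℝ) := by
    rw [Set.ncard_eq_toFinset_card _ hfin]
  rw [hcard]
  have hne : ∀ p : S, NeZero (p : ℕ) := fun p => ⟨(hS p p.2).ne_zero⟩
  set Q : ℕ := ∏ p ∈ S, p with hQdef
  have hQ : 0 < Q := Finset.prod_pos (fun p hp => (hS p hp).pos)
  have hQ0 : (0 : ℝ) < Q := by exact_mod_cast hQ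
  set f : (I → ℤ) → ((p : S) → (I → ZMod (p : ℕ))) := fun x p i => ((x i : ℤ) : ZMod (p : ℕ)) with hf
  -- the fibres
  have hfib : ∀ b ∈ A.image f, ((A.filter (fun x => f x = b)).card : ℝ) ≤ ∏ i, 3 * L i / Q := by
    intro b hb
    obtain ⟨x0, hx0, rfl⟩ := Finset.mem_image.1 hb
    have hdvd : ∀ x, f x = f x0 → ∀ i, (Q : ℤ) ∣ x i - x0 i := by
      intro x hx i
      rw [hQdef, Nat.cast_prod]
      refine Finset.prod_dvd_of_coprime ?_ ?_
      · intro p hp q hq hpq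
        exact Nat.isCoprime_iff_coprime.2 ((Nat.coprime_primes (hS p hp) (hS q hq)).2 hpq)
      · intro p hp
        have h1 : f x ⟨p, hp⟩ i = f x0 ⟨p, hp⟩ i := by rw [hx]
        simp only [hf] at h1
        exact (ZMod.intCast_eq_intCast_iff_dvd_sub _ _ _).1 h1.symm
    set T : I → Finset ℤ := fun i => (A.filter (fun x => f x = f x0)).image (fun x => x i) with hT
    have hsub : A.filter (fun x => f x = f x0) ⊆ Fintype.piFinset T := by
      intro x hx
      rw [Fintype.mem_piFinset]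
      intro i
      exact Finset.mem_image_of_mem _ hx
    have hTc : ∀ i, ((T i).card : ℝ) ≤ 3 * L i / Q := by
      intro i
      refine card_class Q hQ (L i) (hL i) (x0 i) (T i) ?_
      intro z hz
      obtain ⟨x, hx, rfl⟩ := Finset.mem_image.1 hz
      rw [Finset.mem_filter] at hx
      exact ⟨((hmem x).1 hx.1).1 i, hdvd x hx.2 i⟩
    calc ((A.filter (fun x => f x = f x0)).card : ℝ) ≤ ((Fintype.piFinset T).card : ℝ) := by
          exact_mod_cast Finset.card_le_card hsub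
      _ = ∏ i, ((T i).card : ℝ) := by rw [Fintype.card_piFinset]; push_cast; rfl
      _ ≤ ∏ i, 3 * L i / Q := Finset.prod_le_prod (fun i _ => by positivity) (fun i _ => hTc i)
  -- the image
  have himg : ((A.image f).card : ℝ) ≤ ∏ p ∈ S, ((p : ℝ) ^ (Fintype.card I) * (1 - ω p)) := by
    have hsub : A.image f ⊆ Fintype.piFinset (fun p : S => ((Ω (p : ℕ))ᶜ).toFinset) := by
      intro b hb
      obtain ⟨x, hx, rfl⟩ := Finset.mem_image.1 hb
      rw [Fintype.mem_piFinset]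
      intro p
      rw [Set.mem_toFinset]
      exact ((hmem x).1 hx).2 p p.2
    have hc : ∀ p : S, ((((Ω (p : ℕ))ᶜ).toFinset.card : ℕ) : ℝ) ≤
        ((p : ℕ) : ℝ) ^ (Fintype.card I) * (1 - ω p) := by
      intro p
      have h1 : (Ω (p : ℕ)).ncard + ((Ω (p : ℕ))ᶜ).ncard = (p : ℕ) ^ (Fintype.card I) := by
        rw [Set.ncard_add_ncard_compl, Nat.card_eq_fintype_card, Fintype.card_fun, ZMod.card]
      have h2 : (((Ω (p : ℕ))ᶜ).toFinset.card : ℕ) = ((Ω (p : ℕ))ᶜ).ncard := by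
        rw [Set.ncard_eq_toFinset_card']
      have h3 := (hω p p.2).2
      rw [h2]
      have h4 : ((Ω (p : ℕ)).ncard : ℝ) + (((Ω (p : ℕ))ᶜ).ncard : ℝ) = ((p : ℕ) : ℝ) ^ (Fintype.card I) := by
        exact_mod_cast h1
      nlinarith
    calc ((A.image f).card : ℝ) ≤ ((Fintype.piFinset (fun p : S => ((Ω (p : ℕ))ᶜ).toFinset)).card : ℝ) := by
          exact_mod_cast Finset.card_le_card hsub
      _ = ∏ p : S, ((((Ω (p : ℕ))ᶜ).toFinset.card : ℕ) : ℝ) := by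
          rw [Fintype.card_piFinset]; push_cast; rfl
      _ ≤ ∏ p : S, (((p : ℕ) : ℝ) ^ (Fintype.card I) * (1 - ω p)) :=
          Finset.prod_le_prod (fun p _ => by positivity) (fun p _ => hc p)
      _ = ∏ p ∈ S, ((p : ℝ) ^ (Fintype.card I) * (1 - ω p)) :=
          Finset.prod_coe_sort S (fun p => ((p : ℝ) ^ (Fintype.card I) * (1 - ω p)))
  have hLpos : ∀ i, 0 < L i := fun i => lt_of_lt_of_le hQ0 (hL i)
  have hC0 : 0 ≤ ∏ i, 3 * L i / Q :=
    Finset.prod_nonneg (fun i _ => by have := hLpos i; positivity)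
  calc (A.card : ℝ) = ∑ b ∈ A.image f, ((A.filter (fun x => f x = b)).card : ℝ) := by
        rw [Finset.card_eq_sum_card_image f A]; push_cast; rfl
    _ ≤ ∑ b ∈ A.image f, ∏ i, 3 * L i / Q := Finset.sum_le_sum hfib
    _ = ((A.image f).card : ℝ) * ∏ i, 3 * L i / Q := by rw [Finset.sum_const, nsmul_eq_mul]
    _ ≤ (∏ p ∈ S, ((p : ℝ) ^ (Fintype.card I) * (1 - ω p))) * ∏ i, 3 * L i / Q :=
        mul_le_mul_of_nonneg_right himg hC0
    _ = (∏ i, 3 * L i) * ∏ p ∈ S, (1 - ω p) := by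
        rw [Finset.prod_mul_distrib, Finset.prod_pow, Finset.prod_div_distrib, Finset.prod_const,
          Finset.card_univ]
        have h5 : (∏ p ∈ S, (p : ℝ)) = (Q : ℝ) := by rw [hQdef]; push_cast; rfl
        rw [h5]
        have h6 : ((Q : ℝ) ^ (Fintype.card I)) ≠ 0 := by positivity
        field_simp

end Pool.Agent.Helper32.DZ
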