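import Mathlib

set_option autoImplicit false

/-!
DZ-22 PrimeProd. The product of `1 - c/p` over primes becomes small.

PROOF. `1 - x ≤ exp (-x)`; the sum of `1/p` over the primes `p ≥ P` diverges
(`Nat.Primes.not_summable_one_div` or `not_summable_one_div_on_primes`), so there is a finite set `S` of primes `≥ P`
with `c ∑_(p ∈ S) 1/p ≥ log (1/δ)`; for `p ≥ 2`, `c ≤ 1` every factor is in `[0, 1]`... then
`∏ (1 - c/p) ≤ exp (- c ∑ 1/p) ≤ δ` (`0 ≤ 1 - c/p` since `c ≤ 1`).
-/

namespace Pool.Agent.Helper32.DZ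

theorem prime_prod (c : ℝ) (hc : 0 < c) (hc1 : c ≤ 1) (P : ℕ) (δ : ℝ) (hδ : 0 < δ) :
    ∃ S : Finset ℕ, (∀ p ∈ S, p.Prime ∧ P ≤ p) ∧ ∏ p ∈ S, (1 - c / (p : ℝ)) ≤ δ := by
  classical
  set f : ℕ → ℝ := Set.indicator {p : ℕ | p.Prime} (fun n : ℕ => (1 : ℝ) / n) with hf
  have hf0 : ∀ n, 0 ≤ f n := fun n => Set.indicator_nonneg (fun n _ => by positivity) n
  have hns : ¬ Summable f := not_summable_one_div_on_primes
  have ht := (not_summable_iff_tendsto_nat_atTop_of_nonneg hf0).1 hns
  obtain ⟨n, hn1, hn2⟩ := ((ht.eventually_ge_atTop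
    ((-Real.log δ) / c + ∑ i ∈ Finset.range P, f i)).and (Filter.eventually_ge_atTop P)).exists
  have hfe : ∀ p : ℕ, f p = if p.Prime then (1 : ℝ) / p else 0 := by
    intro p
    rw [hf, Set.indicator_apply]
    rfl
  refine ⟨(Finset.Ico P n).filter (fun p => p.Prime), ?_, ?_⟩
  · intro p hp
    rw [Finset.mem_filter, Finset.mem_Ico] at hp
    exact ⟨hp.2, hp.1.1⟩
  · have hsum : ∑ p ∈ (Finset.Ico P n).filter (fun p => p.Prime), (1 : ℝ) / p =
        ∑ i ∈ Finset.Ico P n, f i := by
      rw [Finset.sum_filter]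
      exact Finset.sum_congr rfl fun p _ => (hfe p).symm
    have h2 : ∑ i ∈ Finset.Ico P n, f i =
        ∑ i ∈ Finset.range n, f i - ∑ i ∈ Finset.range P, f i := Finset.sum_Ico_eq_sub _ hn2
    have h3 : (-Real.log δ) / c ≤
        ∑ p ∈ (Finset.Ico P n).filter (fun p => p.Prime), (1 : ℝ) / p := by
      rw [hsum, h2]
      linarith
    calc ∏ p ∈ (Finset.Ico P n).filter (fun p => p.Prime), (1 - c / (p : ℝ))
        ≤ ∏ p ∈ (Finset.Ico P n).filter (fun p => p.Prime), Real.exp (-(c * (1 / (p : ℝ)))) := by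
          refine Finset.prod_le_prod (fun p hp => ?_) (fun p hp => ?_)
          · have hp1 : (1 : ℝ) ≤ p := by
              exact_mod_cast (Finset.mem_filter.1 hp).2.one_lt.le
            have : c / (p : ℝ) ≤ 1 := by
              rw [div_le_one (by linarith)]
              linarith
            linarith
          · have h4 := Real.add_one_le_exp (-(c * (1 / (p : ℝ))))
            have h5 : c / (p : ℝ) = c * (1 / p) := by ring
            rw [h5]
            linarith
      _ = Real.exp (-(c * ∑ p ∈ (Finset.Ico P n).filter (fun p => p.Prime), (1 : ℝ) / p)) := by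
          rw [← Real.exp_sum, Finset.sum_neg_distrib, Finset.mul_sum]
      _ ≤ Real.exp (Real.log δ) := by
          apply Real.exp_le_exp.2
          have h6 : c * (-Real.log δ / c) ≤
              c * ∑ p ∈ (Finset.Ico P n).filter (fun p => p.Prime), (1 : ℝ) / p :=
            mul_le_mul_of_nonneg_left h3 hc.le
          rw [mul_div_cancel₀ _ hc.ne'] at h6
          linarith
      _ = δ := Real.exp_log hδ

end Pool.Agent.Helper32.DZ
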