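import Pool.Agent.Helper32.DZ.Defs
import Pool.Agent.Helper32.DZ.SymDens
import Pool.Agent.Helper32.DZ.CrtBox
import Pool.Agent.Helper32.DZ.PrimeProd

set_option autoImplicit false

/-!
DZ-24 AdjDens. In large boxes the matrices with `AdjSq` have small density.

PROOF. Given `δ`, put `c = 1/4`; `S` from `prime_prod` with `P = 2 m + 3` and
`δ' = δ / 3^(card (UpIdx (m+1)))`; `Q = ∏_(p ∈ S) p`. A symmetric integral matrix `A` is `toSym x` with `x` its upper part.
If `AdjSq ε A` with `u` and `p ∈ S` divides `det A`, then modulo `p`: `adj A 0 0 = ε u_0^2`, and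
`adj A 0 0 = det (A.submatrix succ succ)` (`Matrix.adjugate_fin_succ_eq_det_submatrix`), so
`ε det (A.submatrix succ succ) = u_0^2` modulo `p` is a square (`ε^2 = 1`). So the reduction of `x` modulo `p` is not in
`Ω p` = the set of `sym_dens`, for every `p ∈ S` (if `p ∤ det A`, because `det ≠ 0` modulo `p`;
`toSym` and `det` commute with the cast, `RingHom.map_det`). `crt_box` with `ω p = 1/(4p)`, `L (i,j) = B i j`
gives at most `∏_(i≤j) 3 B i j * ∏ (1 - 1/(4p)) ≤ 3^card δ' ∏_(i≤j) B i j = δ ∏_(i≤j) B i j`.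
(`∏` over `UpIdx` against `∏_i ∏_j if i ≤ j ...`: `Finset.prod_subtype`, `Fintype.prod_prod_type`,
`Finset.prod_ite`.)
-/

open Matrix

namespace Pool.Agent.Helper32.DZ

/-- the upper part of a matrix -/
private def upp {n : ℕ} (A : Matrix (Fin n) (Fin n) ℤ) : UpIdx n → ℤ := fun q => A q.1.1 q.1.2

private theorem upp_inj {n : ℕ} {A B : Matrix (Fin n) (Fin n) ℤ} (hA : A.IsSymm) (hB : B.IsSymm)
    (h : upp A = upp B) : A = B := by
  ext i j
  rcases le_total i j with hij | hij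
  · exact congrFun h ⟨(i, j), hij⟩
  · rw [← hA.apply i j, ← hB.apply i j]
    exact congrFun h ⟨(j, i), hij⟩

private theorem toSym_upp {n : ℕ} {A : Matrix (Fin n) (Fin n) ℤ} (hA : A.IsSymm) (p : ℕ) :
    toSym (fun q => ((upp A q : ℤ) : ZMod p)) = A.map (Int.cast : ℤ → ZMod p) := by
  ext i j
  change ((A (min i j) (max i j) : ℤ) : ZMod p) = ((A i j : ℤ) : ZMod p)
  rcases le_total i j with hij | hij
  · rw [min_eq_left hij, max_eq_right hij]
  · rw [min_eq_right hij, max_eq_left hij, hA.apply i j]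

private theorem det_cast {n : ℕ} (A : Matrix (Fin n) (Fin n) ℤ) (p : ℕ) :
    (A.map (Int.cast : ℤ → ZMod p)).det = ((A.det : ℤ) : ZMod p) := by
  have h := RingHom.map_det (Int.castRingHom (ZMod p)) A
  rw [eq_intCast] at h
  rw [h]
  rfl

private theorem prod_up {n : ℕ} (B : Fin n → Fin n → ℝ) :
    (∏ i, ∏ j, if i ≤ j then B i j else 1) = ∏ q : UpIdx n, B q.1.1 q.1.2 := by
  rw [← Fintype.prod_prod_type' (fun i j => if i ≤ j then B i j else 1)]
  rw [← Finset.prod_filter (fun q : Fin n × Fin n => q.1 ≤ q.2) (fun q => B q.1 q.2)]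
  exact Finset.prod_subtype _ (fun q => by simp) _

theorem adj_dens (m : ℕ) (hm : 1 ≤ m) (ε : ℤ) (hε : ε = 1 ∨ ε = -1) (δ : ℝ) (hδ : 0 < δ) :
    ∃ Q : ℕ, ∀ B : Fin (m + 1) → Fin (m + 1) → ℝ, (∀ i j, (Q : ℝ) ≤ B i j) →
      (({A : Matrix (Fin (m + 1)) (Fin (m + 1)) ℤ | A ∈ Box B ∧ AdjSq ε A}.ncard : ℕ) : ℝ) ≤
        δ * ∏ i, ∏ j, if i ≤ j then B i j else 1 := by
  set N := Fintype.card (UpIdx (m + 1)) with hN
  obtain ⟨S, hS, hprod⟩ := prime_prod (1 / 4) (by norm_num) (by norm_num) (2 * m + 3)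
    (δ / 3 ^ N) (by positivity)
  refine ⟨∏ p ∈ S, p, fun B hB => ?_⟩
  let Ω : (p : ℕ) → Set (UpIdx (m + 1) → ZMod p) := fun p =>
    {x | (toSym x).det = 0 ∧
        ¬ IsSquare ((ε : ZMod p) * ((toSym x).submatrix Fin.succ Fin.succ).det)}
  obtain ⟨hfin, hle⟩ := crt_box S (fun p hp => (hS p hp).1) Ω (fun p => 1 / (4 * (p : ℝ)))
    (fun p hp => ⟨by positivity, sym_dens m hm ε hε p (hS p hp).1 (by have := (hS p hp).2; omega)
      (by have := (hS p hp).2; omega)⟩)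
    (fun q => B q.1.1 q.1.2) (fun q => hB _ _)
  have hBnn : ∀ i j, 0 ≤ B i j := fun i j => (Nat.cast_nonneg _).trans (hB i j)
  have h1 : {A : Matrix (Fin (m + 1)) (Fin (m + 1)) ℤ | A ∈ Box B ∧ AdjSq ε A}.ncard ≤
      {x : UpIdx (m + 1) → ℤ | (∀ i, |(x i : ℝ)| < B i.1.1 i.1.2) ∧
        ∀ p ∈ S, (fun i => ((x i : ℤ) : ZMod p)) ∉ Ω p}.ncard := by
    refine Set.ncard_le_ncard_of_injOn upp ?_ ?_ hfin
    · rintro A ⟨⟨hsym, hbox⟩, u, hu⟩
      refine ⟨fun q => hbox _ _, fun p hp hmem => ?_⟩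
      obtain ⟨hdet, hns⟩ := hmem
      rw [toSym_upp hsym] at hdet hns
      rw [det_cast] at hdet
      apply hns
      have h2 := hu 0 0
      have h3 : ((A.adjugate 0 0 - ε * (u 0 * u 0) : ℤ) : ZMod p) = 0 := by
        obtain ⟨c, hc⟩ := h2
        rw [hc, Int.cast_mul, hdet, zero_mul]
      have h4 : A.adjugate 0 0 = (A.submatrix Fin.succ Fin.succ).det := by
        rw [Matrix.adjugate_fin_succ_eq_det_submatrix]
        simp
      rw [h4] at h3
      have h5 : ((A.map (Int.cast : ℤ → ZMod p)).submatrix Fin.succ Fin.succ).det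
          = (((A.submatrix Fin.succ Fin.succ).det : ℤ) : ZMod p) := by
        rw [← det_cast]
        rfl
      rw [h5]
      refine ⟨((u 0 : ℤ) : ZMod p), ?_⟩
      rw [Int.cast_sub, Int.cast_mul, Int.cast_mul] at h3
      have h6 : ((ε : ℤ) : ZMod p) * ((ε : ℤ) : ZMod p) = 1 := by
        rcases hε with h | h <;> rw [h] <;> simp
      have h7 : (((A.submatrix Fin.succ Fin.succ).det : ℤ) : ZMod p)
          = (ε : ZMod p) * ((u 0 : ZMod p) * (u 0 : ZMod p)) := sub_eq_zero.1 h3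
      rw [h7, ← mul_assoc, h6, one_mul]
    · intro A hA A' hA' h
      exact upp_inj hA.1.1 hA'.1.1 h
  calc (({A : Matrix (Fin (m + 1)) (Fin (m + 1)) ℤ | A ∈ Box B ∧ AdjSq ε A}.ncard : ℕ) : ℝ)
      ≤ _ := Nat.cast_le.2 h1
    _ ≤ _ := hle
    _ = 3 ^ N * (∏ q : UpIdx (m + 1), B q.1.1 q.1.2) * ∏ p ∈ S, (1 - 1 / 4 / (p : ℝ)) := by
        rw [Finset.prod_mul_distrib, Finset.prod_const, Finset.card_univ]
        congr 1
        refine Finset.prod_congr rfl fun p _ => ?_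
        rw [div_div]
    _ ≤ 3 ^ N * (∏ q : UpIdx (m + 1), B q.1.1 q.1.2) * (δ / 3 ^ N) :=
        mul_le_mul_of_nonneg_left hprod
          (mul_nonneg (by positivity) (Finset.prod_nonneg fun q _ => hBnn _ _))
    _ = δ * ∏ q : UpIdx (m + 1), B q.1.1 q.1.2 := by
        field_simp
    _ = _ := by rw [prod_up]

end Pool.Agent.Helper32.DZ
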