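import Pool.Agent.Helper32.DZ.Defs

set_option autoImplicit false

/-!
Project DZ, part 3: predicates for rational points. Size `n = m + 1`, `m` odd (even degree), or degree `d` odd.

`HasE m τ a`: `f(r/s)` is a rational square for some coprime `r`, `s ≠ 0` with `s = τ w^2` (even degree `m + 1`).
`HasO a`: `f(r/s)` is a rational square with `s` coprime to the leading coefficient (odd degree `d`; then `s` and
`s^d f(r/s)` are squares up to a common sign, see part 3).
`PropA τ ε A`: for every prime `p`, `p ∤ τ`, dividing `det A` exactly once, `ε τ` times the determinant of `A` without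
the first row and column is a square modulo `p`.
-/

open Matrix

namespace Pool.Agent.Helper32.DZ

/-- even degree `n`: coprime `r`, `s = τ w^2 ≠ 0`, `∑ a_i r^i s^(n-i)` a square -/
def HasE {n : ℕ} (τ : ℤ) (a : Fin (n + 1) → ℤ) : Prop :=
  ∃ r s w c : ℤ, IsCoprime r s ∧ s ≠ 0 ∧ s = τ * w ^ 2 ∧
    c ^ 2 = ∑ i : Fin (n + 1), a i * r ^ (i : ℕ) * s ^ (n - (i : ℕ))

/-- odd degree `d`: coprime `r`, `s = w^2 ≠ 0`, `s` coprime to the leading coefficient, `∑ a_i r^i s^(d-i) = v^2` -/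
def HasO {d : ℕ} (a : Fin (d + 1) → ℤ) : Prop :=
  ∃ r s w v : ℤ, IsCoprime r s ∧ s ≠ 0 ∧ IsCoprime s (a (Fin.last d)) ∧ s = w ^ 2 ∧
    v ^ 2 = ∑ i : Fin (d + 1), a i * r ^ (i : ℕ) * s ^ (d - (i : ℕ))

/-- the local condition at the primes dividing `det A` exactly once -/
def PropA {m : ℕ} (τ ε : ℤ) (A : Matrix (Fin (m + 1)) (Fin (m + 1)) ℤ) : Prop :=
  ∀ p : ℕ, p.Prime → (p : ℤ) ∣ A.det → ¬ ((p : ℤ) ^ 2 ∣ A.det) → ¬ ((p : ℤ) ∣ τ) →
    IsSquare (((ε * τ * (A.submatrix Fin.succ Fin.succ).det : ℤ)) : ZMod p)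

end Pool.Agent.Helper32.DZ
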