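import Pool.Agent.Helper32.DZ.SymDens

set_option autoImplicit false

/-!
EVS-2 SymDensSq (MP_d88658_nt, weight 10, project DZ, block EVEN-S). Bad symmetric matrices modulo `p^2`.

`π = ZMod.castHom : ZMod (p^2) → ZMod p`. The statement is `sym_dens` one level up: `p` divides `det` exactly once.

PROOF. Copy the file SymDens.lean (its lemmas are private: copy `glue`, `gE`, `sym_ss`, `det_glue`, `cnt`, `count_glue` with
`F = ZMod (p^2)`; all of them hold for any finite commutative ring). `card_affine` holds for a commutative ring with `d`, `e` UNITS: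
`t ↦ e (t d + h)` is a bijection of `R = ZMod (p^2)`. `v : R` is a unit iff `π v ≠ 0`. The fibres of `π` have `p` elements
(`π` surjective, additive; or `ZMod.castHom` and counting), so in `R`:
number of `v` with `π v ≠ 0`: `p (p-1)`; with `e π v` not a square: `p (p-1)/2` (`p` does not divide `e`: `a ↦ e a` permutes
`ZMod p`); with `π v = 0`, `v ≠ 0`: `p - 1`.
(1) symmetric `r × r` matrices over `R` with `π det ≠ 0`: at least `(1 - 1/p)^r (p^2)^(card (UpIdx r))` (induction as `nonsing`: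
`det A = t det A'' + h`, `det A''` a unit, `p (p-1) = p^2 (1 - 1/p)` values of `t`).
(2) `m = r + 1`: symmetric `m × m` matrices `A'` with `e π det A'` not a square: for `A''` of size `r` with `π det A'' ≠ 0` and any
row: `p (p-1)/2` values of `t`: at least `(1/2) (1 - 1/p)^m (p^2)^(card (UpIdx m)) ≥ (1/4) (p^2)^(card (UpIdx m))` (`2 m ≤ p`).
(3) size `m + 1`: for `A'` as in (2) (`π det A' ≠ 0`, `det A'` a unit) and any row there are `p - 1` values of `t` with
`π det A = 0`, `det A ≠ 0`: at least `(p-1) (p^2)^m (1/4) (p^2)^(card (UpIdx m)) = ((p-1)/(4 p^2)) (p^2)^(card (UpIdx (m+1)))`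
and `(p-1)/(4p^2) ≥ 1/(8p)` (`p ≥ 2`).
-/

open Matrix

namespace Pool.Agent.Helper32.DZ

section aux

variable {F : Type}

/-- glue the first row to the rest -/
private def glue {r : ℕ} (t : F) (c : Fin r → F) (y : UpIdx r → F) : UpIdx (r + 1) → F :=
  fun q => if hi : q.1.1 = 0 then (if hj : q.1.2 = 0 then t else c (q.1.2.pred hj))
    else y ⟨(q.1.1.pred hi, q.1.2.pred (by
      intro h
      apply hi
      have h1 := q.2
      rw [h] at h1
      exact Fin.le_zero_iff.1 h1)), by
        simpa using q.2⟩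

private theorem glue_zz {r : ℕ} (t : F) (c : Fin r → F) (y : UpIdx r → F)
    (h : (0 : Fin (r + 1)) ≤ 0) : glue t c y ⟨(0, 0), h⟩ = t := by
  simp [glue]

private theorem glue_zs {r : ℕ} (t : F) (c : Fin r → F) (y : UpIdx r → F) (j : Fin r)
    (h : (0 : Fin (r + 1)) ≤ j.succ) : glue t c y ⟨(0, j.succ), h⟩ = c j := by
  simp [glue]

private theorem glue_ss {r : ℕ} (t : F) (c : Fin r → F) (y : UpIdx r → F) (i j : Fin r)
    (h : i.succ ≤ j.succ) : glue t c y ⟨(i.succ, j.succ), h⟩ =
      y ⟨(i, j), Fin.succ_le_succ_iff.1 h⟩ := by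
  simp [glue]

/-- the equivalence -/
private def gE (r : ℕ) : F × ((Fin r → F) × (UpIdx r → F)) ≃ (UpIdx (r + 1) → F) where
  toFun z := glue z.1 z.2.1 z.2.2
  invFun x := (x ⟨(0, 0), le_rfl⟩, (fun j => x ⟨(0, j.succ), Fin.zero_le _⟩),
    fun q => x ⟨(q.1.1.succ, q.1.2.succ), Fin.succ_le_succ_iff.2 q.2⟩)
  left_inv := by
    rintro ⟨t, c, y⟩
    simp only [glue_zz, glue_zs, glue_ss]
  right_inv := by
    intro x
    funext q
    obtain ⟨⟨i, j⟩, hij⟩ := q
    induction i using Fin.cases with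
    | zero =>
      induction j using Fin.cases with
      | zero => exact glue_zz _ _ _ _
      | succ j => exact glue_zs _ _ _ _ _
    | succ i =>
      induction j using Fin.cases with
      | zero =>
        exact absurd (Fin.le_zero_iff.1 hij) (Fin.succ_ne_zero i)
      | succ j => exact glue_ss _ _ _ _ _ _

private theorem sym_ss {r : ℕ} (t : F) (c : Fin r → F) (y : UpIdx r → F) :
    (toSym (glue t c y)).submatrix Fin.succ Fin.succ = toSym y := by
  ext i j
  simp only [toSym, Matrix.submatrix_apply, Matrix.of_apply]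
  have h1 : min i.succ j.succ = (min i j).succ := (Fin.strictMono_succ.monotone.map_min).symm
  have h2 : max i.succ j.succ = (max i j).succ := (Fin.strictMono_succ.monotone.map_max).symm
  have h3 : (⟨(min i.succ j.succ, max i.succ j.succ), min_le_max⟩ : UpIdx (r + 1)) =
      ⟨((min i j).succ, (max i j).succ), Fin.succ_le_succ_iff.2 min_le_max⟩ := by
    apply Subtype.ext
    exact Prod.ext h1 h2
  rw [h3, glue_ss]

private theorem sym_row {r : ℕ} (t t' : F) (c : Fin r → F) (y : UpIdx r → F) (i : Fin r)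
    (j : Fin (r + 1)) : toSym (glue t c y) i.succ j = toSym (glue t' c y) i.succ j := by
  simp only [toSym, Matrix.of_apply]
  generalize hq : (⟨(min i.succ j, max i.succ j), min_le_max⟩ : UpIdx (r + 1)) = q
  have hq2 : q.1.2 ≠ 0 := by
    rw [← hq]
    intro h
    have h1 : i.succ ≤ max i.succ j := le_max_left _ _
    have h2 : max i.succ j = 0 := h
    rw [h2] at h1
    exact Fin.succ_ne_zero i (Fin.le_zero_iff.1 h1)
  simp only [glue, hq2, dite_false]

private theorem sym_row0 {r : ℕ} (t t' : F) (c : Fin r → F) (y : UpIdx r → F) (j : Fin r) :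
    toSym (glue t c y) 0 j.succ = toSym (glue t' c y) 0 j.succ := by
  simp only [toSym, Matrix.of_apply]
  generalize hq : (⟨(min 0 j.succ, max 0 j.succ), min_le_max⟩ : UpIdx (r + 1)) = q
  have hq2 : q.1.2 ≠ 0 := by
    rw [← hq]
    intro h
    have h1 : j.succ ≤ max 0 j.succ := le_max_right _ _
    have h2 : max 0 j.succ = 0 := h
    rw [h2] at h1
    exact Fin.succ_ne_zero j (Fin.le_zero_iff.1 h1)
  simp only [glue, hq2, dite_false]

private theorem sym_00 {r : ℕ} (t : F) (c : Fin r → F) (y : UpIdx r → F) :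
    toSym (glue t c y) 0 0 = t := by
  simp only [toSym, Matrix.of_apply]
  have h3 : (⟨(min 0 0, max 0 0), min_le_max⟩ : UpIdx (r + 1)) = ⟨(0, 0), le_rfl⟩ := by
    apply Subtype.ext
    simp
  rw [h3, glue_zz]

private theorem det_glue [CommRing F] {r : ℕ} (t : F) (c : Fin r → F) (y : UpIdx r → F) :
    (toSym (glue t c y)).det = t * (toSym y).det + (toSym (glue 0 c y)).det := by
  rw [Matrix.det_succ_row_zero, Matrix.det_succ_row_zero (toSym (glue 0 c y)),
    Fin.sum_univ_succ, Fin.sum_univ_succ]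
  rw [sym_00, sym_00]
  simp only [Fin.val_zero, pow_zero, one_mul, Fin.succAbove_zero, zero_mul, zero_add]
  rw [sym_ss]
  congr 1
  refine Finset.sum_congr rfl fun j _ => ?_
  rw [sym_row0 t 0 c y j]
  congr 2
  ext a b
  simp only [Matrix.submatrix_apply]
  exact sym_row t 0 c y a _

end aux

open scoped Classical in
/-- number of elements with a property -/
private noncomputable def cnt {α : Type} [Fintype α] (P : α → Prop) : ℕ :=
  (Finset.univ.filter P).card

private theorem cnt_congr {α : Type} [Fintype α] {P Q : α → Prop} (h : ∀ a, P a ↔ Q a) :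
    cnt P = cnt Q := by
  have : P = Q := funext fun a => propext (h a)
  rw [this]

private theorem cnt_all {α : Type} [Fintype α] {P : α → Prop} (h : ∀ a, P a) :
    cnt P = Fintype.card α := by
  classical
  unfold cnt
  rw [← Finset.card_univ]
  congr 1
  ext a
  simp [h a]

private theorem count_glue {F : Type} [Fintype F] {r : ℕ} (k : ℕ) (Q : (UpIdx r → F) → Prop)
    (R : (UpIdx (r + 1) → F) → Prop)
    (h : ∀ c y, Q y → k ≤ cnt fun t : F => R (glue t c y)) :
    k * (Fintype.card F ^ r * cnt Q) ≤ cnt R := by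
  classical
  have h1 : cnt R =
      ∑ z : F × ((Fin r → F) × (UpIdx r → F)), if R (glue z.1 z.2.1 z.2.2) then 1 else 0 := by
    unfold cnt
    rw [Finset.card_filter]
    exact ((gE r).sum_comp (fun x => if R x then 1 else 0)).symm
  rw [h1, Fintype.sum_prod_type, Finset.sum_comm, Fintype.sum_prod_type]
  have h2 : k * (Fintype.card F ^ r * cnt Q) =
      ∑ _c : Fin r → F, ∑ y : UpIdx r → F, if Q y then k else 0 := by
    unfold cnt
    rw [Finset.sum_const, Finset.card_univ, Fintype.card_fun, Fintype.card_fin, smul_eq_mul,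
      ← Finset.sum_filter, Finset.sum_const, smul_eq_mul]
    ring
  rw [h2]
  refine Finset.sum_le_sum fun c _ => Finset.sum_le_sum fun y _ => ?_
  by_cases hQ : Q y
  · rw [if_pos hQ]
    refine (h c y hQ).trans (le_of_eq ?_)
    unfold cnt
    rw [Finset.card_filter]
  · rw [if_neg hQ]
    exact Nat.zero_le _

private theorem card_nonsq (p : ℕ) [Fact p.Prime] (hp : p ≠ 2) :
    1 + 2 * (cnt fun a : ZMod p => ¬ IsSquare a) = p := by
  classical
  have h0 : ringChar (ZMod p) ≠ 2 := by
    rw [ZMod.ringChar_zmod_n]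
    exact hp
  have h1 := quadraticChar_sum_zero h0
  have h2 : ∀ a : ZMod p, (1 : ℤ) - quadraticChar (ZMod p) a =
      (if a = 0 then 1 else 0) + 2 * (if ¬ IsSquare a then 1 else 0) := by
    intro a
    by_cases ha : a = 0
    · subst ha
      simp
    · by_cases hs : IsSquare a
      · rw [(quadraticChar_one_iff_isSquare ha).2 hs]
        simp [ha, hs]
      · rw [quadraticChar_neg_one_iff_not_isSquare.2 hs]
        simp [ha, hs]
  have h3 : (∑ a : ZMod p, ((1 : ℤ) - quadraticChar (ZMod p) a)) = (p : ℤ) := by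
    rw [Finset.sum_sub_distrib, h1, sub_zero, Finset.sum_const, Finset.card_univ, ZMod.card]
    simp
  rw [Finset.sum_congr rfl (fun a _ => h2 a), Finset.sum_add_distrib, ← Finset.mul_sum,
    Finset.sum_ite_eq' Finset.univ (0 : ZMod p) (fun _ => (1 : ℤ))] at h3
  rw [if_pos (Finset.mem_univ _)] at h3
  have h4 : (∑ a : ZMod p, if ¬ IsSquare a then (1 : ℤ) else 0) =
      ((cnt fun a : ZMod p => ¬ IsSquare a : ℕ) : ℤ) := by
    unfold cnt
    rw [Finset.card_filter]
    push_cast
    rfl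
  rw [h4] at h3
  exact_mod_cast h3

private theorem card_affineR {R : Type} [CommRing R] [Fintype R] (d h e : R) (hd : IsUnit d)
    (he : IsUnit e) (S : R → Prop) : (cnt fun t : R => S (e * (t * d + h))) = cnt S := by
  obtain ⟨d, rfl⟩ := hd
  obtain ⟨e, rfl⟩ := he
  unfold cnt
  refine Finset.card_bij (fun t _ => (e : R) * (t * d + h)) ?_ ?_ ?_
  · intro t ht
    simpa using ht
  · intro a _ b _ hab
    have h1 : a * (d : R) + h = b * d + h := (Units.mul_right_inj e).1 hab
    have h2 : a * (d : R) = b * d := add_right_cancel h1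
    exact (Units.mul_left_inj d).1 h2
  · intro b hb
    have h1 : (e : R) * (((e⁻¹ : Rˣ) * b - h) * (d⁻¹ : Rˣ) * d + h) = b := by
      rw [Units.inv_mul_cancel_right, sub_add_cancel, Units.mul_inv_cancel_left]
    refine ⟨((e⁻¹ : Rˣ) * b - h) * (d⁻¹ : Rˣ), ?_, h1⟩
    simp only [Finset.mem_filter, Finset.mem_univ, true_and, h1]
    simpa using hb

/-- reduction modulo `p` -/
private def red (p : ℕ) : ZMod (p ^ 2) →+* ZMod p :=
  ZMod.castHom (dvd_pow_self p two_ne_zero) (ZMod p)

private theorem red_unit (p : ℕ) [Fact p.Prime] (a : ZMod (p ^ 2)) (h : red p a ≠ 0) :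
    IsUnit a := by
  have hp : p.Prime := Fact.out
  have : NeZero (p ^ 2) := ⟨pow_ne_zero _ hp.ne_zero⟩
  have h1 : ((a.val : ℕ) : ZMod (p ^ 2)) = a := ZMod.natCast_zmod_val a
  rw [← h1] at h ⊢
  rw [map_natCast] at h
  rw [ZMod.isUnit_iff_coprime]
  refine Nat.Coprime.pow_right 2 ?_
  have h2 : ¬ p ∣ a.val := fun h3 => h ((ZMod.natCast_eq_zero_iff _ _).2 h3)
  exact ((Nat.Prime.coprime_iff_not_dvd hp).2 h2).symm

private theorem cnt_ker (p : ℕ) [Fact p.Prime] [Fintype (ZMod (p ^ 2))] (b : ZMod p) :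
    (cnt fun a : ZMod (p ^ 2) => red p a = b) = p := by
  classical
  have hp : p.Prime := Fact.out
  have : NeZero (p ^ 2) := ⟨pow_ne_zero _ hp.ne_zero⟩
  have hs : Function.Surjective (red p) := ZMod.castHom_surjective _
  have h1 : ∀ c : ZMod p, (cnt fun a : ZMod (p ^ 2) => red p a = c) =
      cnt fun a : ZMod (p ^ 2) => red p a = b := by
    intro c
    unfold cnt
    have h2 := AddMonoidHom.card_fiber_eq_of_mem_range (red p : ZMod (p ^ 2) →+ ZMod p)
      (Set.mem_range.2 (hs c)) (Set.mem_range.2 (hs b))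
    refine (Eq.trans ?_ h2).trans ?_
    · congr 1
      ext a
      simp
    · congr 1
      ext a
      simp
  have h3 : (Finset.univ : Finset (ZMod (p ^ 2))).card =
      ∑ c : ZMod p, (Finset.univ.filter fun a : ZMod (p ^ 2) => red p a = c).card :=
    Finset.card_eq_sum_card_fiberwise (fun a _ => Finset.mem_coe.2 (Finset.mem_univ _))
  have h4 : ∑ c : ZMod p, (Finset.univ.filter fun a : ZMod (p ^ 2) => red p a = c).card =
      ∑ _c : ZMod p, cnt fun a : ZMod (p ^ 2) => red p a = b := by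
    refine Finset.sum_congr rfl fun c _ => ?_
    rw [← h1 c]
    unfold cnt
    congr 1
    ext a
    simp
  have h5 : Fintype.card (ZMod (p ^ 2)) = p ^ 2 := ZMod.card (p ^ 2)
  have h6 : Fintype.card (ZMod p) = p := ZMod.card p
  rw [h4, Finset.card_univ, Finset.sum_const, Finset.card_univ, h5, h6, smul_eq_mul] at h3
  have h7 : p * p = p * cnt fun a : ZMod (p ^ 2) => red p a = b := by
    rw [← h3]
    ring
  exact (Nat.eq_of_mul_eq_mul_left hp.pos h7).symm

private theorem cnt_red (p : ℕ) [Fact p.Prime] [Fintype (ZMod (p ^ 2))] (S : ZMod p → Prop) :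
    (cnt fun a : ZMod (p ^ 2) => S (red p a)) = p * cnt S := by
  classical
  have h1 : (cnt fun a : ZMod (p ^ 2) => S (red p a)) =
      ∑ c ∈ Finset.univ.filter S, (cnt fun a : ZMod (p ^ 2) => red p a = c) := by
    unfold cnt
    have h2 := Finset.card_eq_sum_card_fiberwise (f := red p)
      (s := Finset.univ.filter fun a : ZMod (p ^ 2) => S (red p a))
      (t := Finset.univ.filter S) (fun a ha => by
        rw [Finset.mem_coe, Finset.mem_filter] at ha ⊢
        exact ⟨Finset.mem_univ _, ha.2⟩)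
    refine (Eq.trans ?_ h2).trans ?_
    · congr 1
    · refine Finset.sum_congr rfl fun c hc => ?_
      rw [Finset.mem_filter] at hc
      congr 1
      ext a
      simp only [Finset.mem_filter, Finset.mem_univ, true_and]
      constructor
      · exact fun h => h.2
      · intro h
        rw [h]
        exact ⟨hc.2, rfl⟩
  rw [h1, Finset.sum_congr rfl fun c _ => cnt_ker p c, Finset.sum_const, smul_eq_mul, mul_comm]
  unfold cnt
  congr 2

private theorem card_upN (r : ℕ) :
    Fintype.card (UpIdx (r + 1)) = 1 + (r + Fintype.card (UpIdx r)) := by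
  have h1 := Fintype.card_congr (gE (F := Fin 2) r)
  rw [Fintype.card_prod, Fintype.card_prod, Fintype.card_fun, Fintype.card_fun,
    Fintype.card_fun, Fintype.card_fin, Fintype.card_fin, ← pow_add, ← pow_succ'] at h1
  have h2 := Nat.pow_right_injective (le_refl 2) h1
  omega

private theorem nonsingR (p : ℕ) [Fact p.Prime] [Fintype (ZMod (p ^ 2))] (r : ℕ) :
    (1 - 1 / (p : ℝ)) ^ r * ((p : ℝ) ^ 2) ^ (Fintype.card (UpIdx r)) ≤
      ((cnt fun y : UpIdx r → ZMod (p ^ 2) => red p (toSym y).det ≠ 0 : ℕ) : ℝ) := by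
  have hp : (0 : ℝ) < p := by exact_mod_cast (Fact.out : p.Prime).pos
  have hp1 : (1 : ℝ) ≤ p := by exact_mod_cast (Fact.out : p.Prime).one_lt.le
  induction r with
  | zero =>
    classical
    have h1 : Fintype.card (UpIdx 0) = 0 := by
      rw [Fintype.card_eq_zero_iff]
      exact ⟨fun q => q.1.1.elim0⟩
    rw [h1, pow_zero, pow_zero, one_mul]
    rw [cnt_all, Fintype.card_fun, h1, pow_zero]
    · simp
    · intro y
      rw [Matrix.det_isEmpty, map_one]
      exact one_ne_zero
  | succ r ih =>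
    have h0 : (cnt fun a : ZMod (p ^ 2) => red p a ≠ 0) = p * (p - 1) := by
      rw [cnt_red p (fun b => b ≠ 0)]
      classical
      have h1 : (cnt fun a : ZMod p => a ≠ 0) = (Finset.univ.erase (0 : ZMod p)).card := by
        unfold cnt
        congr 1
        ext a
        simp
      rw [h1, Finset.card_erase_of_mem (Finset.mem_univ _), Finset.card_univ, ZMod.card]
    have h1 := count_glue (F := ZMod (p ^ 2)) (r := r) (p * (p - 1))
      (fun y => red p (toSym y).det ≠ 0) (fun x => red p (toSym x).det ≠ 0) (by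
        intro c y hy
        have h2 := card_affineR (R := ZMod (p ^ 2)) (toSym y).det (toSym (glue 0 c y)).det 1
          (red_unit p _ hy) isUnit_one (fun a => red p a ≠ 0)
        have h3 : (cnt fun t : ZMod (p ^ 2) => red p (toSym (glue t c y)).det ≠ 0) =
            (cnt fun t : ZMod (p ^ 2) => red p ((1 : ZMod (p ^ 2)) *
              (t * (toSym y).det + (toSym (glue 0 c y)).det)) ≠ 0) := by
          refine cnt_congr fun t => ?_
          rw [det_glue, one_mul]
        rw [h3, h2, h0])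
    have h5 : Fintype.card (ZMod (p ^ 2)) = p ^ 2 := ZMod.card (p ^ 2)
    rw [h5] at h1
    have h2 : ((p : ℝ) * ((p - 1 : ℕ) : ℝ)) * (((p : ℝ) ^ 2) ^ r *
        ((cnt fun y : UpIdx r → ZMod (p ^ 2) => red p (toSym y).det ≠ 0 : ℕ) : ℝ)) ≤
        ((cnt fun x : UpIdx (r + 1) → ZMod (p ^ 2) => red p (toSym x).det ≠ 0 : ℕ) : ℝ) := by
      exact_mod_cast h1
    refine le_trans ?_ h2
    rw [Nat.cast_sub (Fact.out : p.Prime).one_lt.le, Nat.cast_one, card_upN]
    have h3 : (1 - 1 / (p : ℝ)) ^ (r + 1) *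
        ((p : ℝ) ^ 2) ^ (1 + (r + Fintype.card (UpIdx r))) =
        (p : ℝ) * ((p : ℝ) - 1) * (((p : ℝ) ^ 2) ^ r *
          ((1 - 1 / (p : ℝ)) ^ r * ((p : ℝ) ^ 2) ^ (Fintype.card (UpIdx r)))) := by
      rw [pow_succ, pow_add, pow_add, pow_one]
      field_simp
    rw [h3]
    refine mul_le_mul_of_nonneg_left ?_ (mul_nonneg hp.le (by linarith))
    exact mul_le_mul_of_nonneg_left ih (by positivity)

theorem sym_dens_sq (m : ℕ) (hm : 1 ≤ m) (e : ℤ) (p : ℕ) (hp : p.Prime) (he : ¬ (p : ℤ) ∣ e)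
    (hp2 : 2 * m ≤ p) (hp3 : 3 ≤ p) :
    (1 / (8 * (p : ℝ))) * ((p : ℝ) ^ 2) ^ (Fintype.card (UpIdx (m + 1))) ≤
      (({x : UpIdx (m + 1) → ZMod (p ^ 2) |
        ZMod.castHom (dvd_pow_self p two_ne_zero) (ZMod p) (toSym x).det = 0 ∧ (toSym x).det ≠ 0 ∧
        ¬ IsSquare ((e : ZMod p) * ZMod.castHom (dvd_pow_self p two_ne_zero) (ZMod p)
          ((toSym x).submatrix Fin.succ Fin.succ).det)}.ncard : ℕ) : ℝ) := by
  classical
  have : Fact p.Prime := ⟨hp⟩
  have : NeZero (p ^ 2) := ⟨pow_ne_zero _ hp.ne_zero⟩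
  have hp0 : (0 : ℝ) < p := by exact_mod_cast hp.pos
  have hp1 : (1 : ℝ) ≤ p := by exact_mod_cast hp.one_lt.le
  have key : ∀ z : ZMod (p ^ 2), (e : ZMod p) * ZMod.castHom (dvd_pow_self p two_ne_zero) (ZMod p) z
      = red p ((e : ZMod (p ^ 2)) * z) := by
    intro z
    rw [map_mul, map_intCast]
    rfl
  simp only [key]
  have he' : IsUnit (e : ZMod (p ^ 2)) := by
    apply red_unit
    rw [map_intCast, Ne, ZMod.intCast_zmod_eq_zero_iff_dvd]
    exact he
  clear key
  revert he'
  generalize (e : ZMod (p ^ 2)) = E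
  intro he'
  obtain ⟨r, rfl⟩ : ∃ r, m = r + 1 := ⟨m - 1, by omega⟩
  -- step 2
  have hns := card_nonsq p (by omega)
  have h1 := count_glue (F := ZMod (p ^ 2)) (r := r)
    (p * cnt fun a : ZMod p => ¬ IsSquare a) (fun y => red p (toSym y).det ≠ 0)
    (fun x => ¬ IsSquare (red p (E * (toSym x).det))) (by
      intro c y hy
      have h2 := card_affineR (R := ZMod (p ^ 2)) (toSym y).det (toSym (glue 0 c y)).det E
        (red_unit p _ hy) he' (fun a => ¬ IsSquare (red p a))
      rw [← cnt_red p (fun a => ¬ IsSquare a), ← h2]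
      refine le_of_eq (cnt_congr fun t => ?_)
      rw [det_glue t])
  -- step 3
  have h2 := count_glue (F := ZMod (p ^ 2)) (r := r + 1) (p - 1)
    (fun x => ¬ IsSquare (red p (E * (toSym x).det)))
    (fun x => red p (toSym x).det = 0 ∧ (toSym x).det ≠ 0 ∧
      ¬ IsSquare (red p (E * ((toSym x).submatrix Fin.succ Fin.succ).det))) (by
      intro c y hy
      have hy0 : red p (toSym y).det ≠ 0 := by
        intro h
        apply hy
        rw [map_mul, h, mul_zero]
        exact IsSquare.zero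
      have h3 := card_affineR (R := ZMod (p ^ 2)) (toSym y).det (toSym (glue 0 c y)).det 1
        (red_unit p _ hy0) isUnit_one (fun a => red p a = 0 ∧ a ≠ 0)
      have h4 : (cnt fun t : ZMod (p ^ 2) => red p (toSym (glue t c y)).det = 0 ∧
          (toSym (glue t c y)).det ≠ 0 ∧
          ¬ IsSquare (red p (E *
            ((toSym (glue t c y)).submatrix Fin.succ Fin.succ).det))) =
          (cnt fun t : ZMod (p ^ 2) =>
            red p ((1 : ZMod (p ^ 2)) * (t * (toSym y).det + (toSym (glue 0 c y)).det)) = 0 ∧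
            (1 : ZMod (p ^ 2)) * (t * (toSym y).det + (toSym (glue 0 c y)).det) ≠ 0) := by
        refine cnt_congr fun t => ?_
        rw [sym_ss, det_glue, one_mul]
        exact ⟨fun h => ⟨h.1, h.2.1⟩, fun h => ⟨h.1, h.2, hy⟩⟩
      rw [h4, h3]
      have h5 := cnt_ker p 0
      have h6 : (cnt fun a : ZMod (p ^ 2) => red p a = 0 ∧ a ≠ 0) =
          ((Finset.univ.filter fun a : ZMod (p ^ 2) => red p a = 0).erase 0).card := by
        unfold cnt
        congr 1
        ext a
        simp [and_comm]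
      have h7 : (Finset.univ.filter fun a : ZMod (p ^ 2) => red p a = 0).card = p := by
        refine Eq.trans ?_ h5
        unfold cnt
        congr 1
        ext a
        simp
      rw [h6, Finset.card_erase_of_mem (by simp), h7])
  have hcR : Fintype.card (ZMod (p ^ 2)) = p ^ 2 := ZMod.card (p ^ 2)
  rw [hcR] at h1 h2
  have h3 : (({x : UpIdx (r + 1 + 1) → ZMod (p ^ 2) |
        ZMod.castHom (dvd_pow_self p two_ne_zero) (ZMod p) (toSym x).det = 0 ∧
        (toSym x).det ≠ 0 ∧
        ¬ IsSquare (ZMod.castHom (dvd_pow_self p two_ne_zero) (ZMod p)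
          (E * ((toSym x).submatrix Fin.succ Fin.succ).det))}.ncard : ℕ) : ℝ) =
      ((cnt fun x : UpIdx (r + 1 + 1) → ZMod (p ^ 2) => red p (toSym x).det = 0 ∧
        (toSym x).det ≠ 0 ∧ ¬ IsSquare (red p (E *
          ((toSym x).submatrix Fin.succ Fin.succ).det)) : ℕ) : ℝ) := by
    unfold cnt
    rw [Set.ncard_eq_toFinset_card']
    congr 2
    ext x
    simp [red]
  change _ ≤ (({x : UpIdx (r + 1 + 1) → ZMod (p ^ 2) |
        ZMod.castHom (dvd_pow_self p two_ne_zero) (ZMod p) (toSym x).det = 0 ∧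
        (toSym x).det ≠ 0 ∧
        ¬ IsSquare (ZMod.castHom (dvd_pow_self p two_ne_zero) (ZMod p)
          (E * ((toSym x).submatrix Fin.succ Fin.succ).det))}.ncard : ℕ) : ℝ)
  rw [h3]
  have g3 := nonsingR p r
  set n1 := (cnt fun a : ZMod p => ¬ IsSquare a) with hn1
  set n2 := (cnt fun y : UpIdx r → ZMod (p ^ 2) => red p (toSym y).det ≠ 0) with hn2
  set n3 := (cnt fun x : UpIdx (r + 1) → ZMod (p ^ 2) =>
    ¬ IsSquare (red p (E * (toSym x).det))) with hn3
  set n4 := (cnt fun x : UpIdx (r + 1 + 1) → ZMod (p ^ 2) => red p (toSym x).det = 0 ∧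
        (toSym x).det ≠ 0 ∧ ¬ IsSquare (red p (E *
          ((toSym x).submatrix Fin.succ Fin.succ).det))) with hn4
  have g1 : (p : ℝ) * (n1 : ℝ) * (((p : ℝ) ^ 2) ^ r * n2) ≤ n3 := by exact_mod_cast h1
  have g2 : ((p : ℝ) - 1) * (((p : ℝ) ^ 2) ^ (r + 1) * n3) ≤ n4 := by
    have h5 : (((p - 1 : ℕ) : ℝ)) * (((p : ℝ) ^ 2) ^ (r + 1) * n3) ≤ n4 := by exact_mod_cast h2
    rwa [Nat.cast_sub hp.one_lt.le, Nat.cast_one] at h5
  have g4 : (n1 : ℝ) = ((p : ℝ) - 1) / 2 := by
    have : (1 : ℝ) + 2 * n1 = p := by exact_mod_cast hns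
    linarith
  have g5 : (1 : ℝ) / 2 ≤ (1 - 1 / (p : ℝ)) ^ (r + 1) := by
    have b1 := one_add_mul_le_pow (a := -(1 / (p : ℝ))) (by
      have : 1 / (p : ℝ) ≤ 1 := by
        rw [div_le_one hp0]
        exact hp1
      linarith) (r + 1)
    have b2 : ((r + 1 : ℕ) : ℝ) * (1 / (p : ℝ)) ≤ 1 / 2 := by
      rw [mul_one_div, div_le_div_iff₀ hp0 (by norm_num)]
      have : ((2 * (r + 1) : ℕ) : ℝ) ≤ p := by exact_mod_cast hp2
      push_cast at this ⊢
      linarith
    have b3 : (1 - 1 / (p : ℝ)) = 1 + -(1 / (p : ℝ)) := by ring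
    rw [b3]
    refine le_trans ?_ b1
    linarith
  have g6 : (p : ℝ) * (((p : ℝ) - 1) / 2) * (((p : ℝ) ^ 2) ^ r * ((1 - 1 / (p : ℝ)) ^ r *
      ((p : ℝ) ^ 2) ^ (Fintype.card (UpIdx r)))) ≤ n3 := by
    refine le_trans ?_ g1
    rw [g4]
    refine mul_le_mul_of_nonneg_left ?_ (mul_nonneg hp0.le (by linarith))
    exact mul_le_mul_of_nonneg_left g3 (by positivity)
  have g7 : (p : ℝ) * (((p : ℝ) - 1) / 2) * (((p : ℝ) ^ 2) ^ r * ((1 - 1 / (p : ℝ)) ^ r *
      ((p : ℝ) ^ 2) ^ (Fintype.card (UpIdx r)))) = (1 / 2) * (1 - 1 / (p : ℝ)) ^ (r + 1) *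
        ((p : ℝ) ^ 2) ^ (Fintype.card (UpIdx (r + 1))) := by
    rw [card_upN, pow_succ (1 - 1 / (p : ℝ)) r, pow_add, pow_add, pow_one]
    field_simp
  rw [g7] at g6
  have g8 : (1 / 4 : ℝ) * ((p : ℝ) ^ 2) ^ (Fintype.card (UpIdx (r + 1))) ≤ n3 := by
    refine le_trans ?_ g6
    refine mul_le_mul_of_nonneg_right ?_ (by positivity)
    linarith
  refine le_trans ?_ g2
  rw [card_upN (r + 1), pow_add, pow_add, pow_one]
  set Y := ((p : ℝ) ^ 2) ^ (Fintype.card (UpIdx (r + 1))) with hY
  set Z := ((p : ℝ) ^ 2) ^ (r + 1) with hZ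
  have hZ0 : 0 < Z := by positivity
  have hY0 : 0 < Y := by positivity
  have g9 : 1 / (8 * (p : ℝ)) * ((p : ℝ) ^ 2 * (Z * Y)) = ((p : ℝ) / 2) * (Z * ((1 / 4 : ℝ) * Y)) := by
    field_simp
    ring
  rw [g9]
  have hp3' : (3 : ℝ) ≤ p := by exact_mod_cast hp3
  refine mul_le_mul (by linarith) (mul_le_mul_of_nonneg_left g8 hZ0.le) (by positivity)
    (by linarith)

end Pool.Agent.Helper32.DZ
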