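import Pool.Agent.Helper32.DZ.Defs
import Pool.Agent.Helper32.DZ.Props
import Pool.Agent.Helper32.DZ.SymDensSq
import Pool.Agent.Helper32.DZ.CrtBoxSq
import Pool.Agent.Helper32.DZ.PrimeProd

set_option autoImplicit false

/-!
EVS-3 AdjDensS. In large boxes the matrices with `PropA` have small density.

PROOF: as `adj_dens`, with `crt_box_sq` and `sym_dens_sq` (`e = ε τ`, primes `p > |τ|`, `ω p = 1/(8p)`): if `PropA τ ε A`, the
reduction of `A` modulo `p^2` is not in the set of `sym_dens_sq`.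
-/

open Matrix

namespace Pool.Agent.Helper32.DZ

/-- the upper part of a matrix -/
private def upp {n : ℕ} (A : Matrix (Fin n) (Fin n) ℤ) : UpIdx n → ℤ := fun q => A q.1.1 q.1.2

private theorem upp_inj {n : ℕ} {A B : Matrix (Fin n) (Fin n) ℤ} (hA : A.IsSymm) (hB : B.IsSymm)
    (h : upp A = upp B) : A = B := by
  ext i j
  rcases le_total i j with hij | hij
  · exact congrFun h ⟨(i, j), hij⟩
  · rw [← hA.apply i j, ← hB.apply i j]
    exact congrFun h ⟨(j, i), hij⟩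

private theorem toSym_upp {n : ℕ} {A : Matrix (Fin n) (Fin n) ℤ} (hA : A.IsSymm) (p : ℕ) :
    toSym (fun q => ((upp A q : ℤ) : ZMod p)) = A.map (Int.cast : ℤ → ZMod p) := by
  ext i j
  change ((A (min i j) (max i j) : ℤ) : ZMod p) = ((A i j : ℤ) : ZMod p)
  rcases le_total i j with hij | hij
  · rw [min_eq_left hij, max_eq_right hij]
  · rw [min_eq_right hij, max_eq_left hij, hA.apply i j]

private theorem det_cast {n : ℕ} (A : Matrix (Fin n) (Fin n) ℤ) (p : ℕ) :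
    (A.map (Int.cast : ℤ → ZMod p)).det = ((A.det : ℤ) : ZMod p) := by
  have h := RingHom.map_det (Int.castRingHom (ZMod p)) A
  rw [eq_intCast] at h
  rw [h]
  rfl

private theorem prod_up {n : ℕ} (B : Fin n → Fin n → ℝ) :
    (∏ i, ∏ j, if i ≤ j then B i j else 1) = ∏ q : UpIdx n, B q.1.1 q.1.2 := by
  rw [← Fintype.prod_prod_type' (fun i j => if i ≤ j then B i j else 1)]
  rw [← Finset.prod_filter (fun q : Fin n × Fin n => q.1 ≤ q.2) (fun q => B q.1 q.2)]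
  exact Finset.prod_subtype _ (fun q => by simp) _

theorem prop_dens (m : ℕ) (hm : 1 ≤ m) (ε : ℤ) (hε : ε = 1 ∨ ε = -1) (τ : ℤ) (hτ : τ ≠ 0)
    (δ : ℝ) (hδ : 0 < δ) :
    ∃ Q : ℕ, ∀ B : Fin (m + 1) → Fin (m + 1) → ℝ, (∀ i j, (Q : ℝ) ≤ B i j) →
      (({A : Matrix (Fin (m + 1)) (Fin (m + 1)) ℤ | A ∈ Box B ∧ PropA τ ε A}.ncard : ℕ) : ℝ) ≤
        δ * ∏ i, ∏ j, if i ≤ j then B i j else 1 := by
  set N := Fintype.card (UpIdx (m + 1)) with hN
  obtain ⟨S, hS, hprod⟩ := prime_prod (1 / 8) (by norm_num) (by norm_num) (2 * m + 3 + τ.natAbs)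
    (δ / 3 ^ N) (by positivity)
  refine ⟨∏ p ∈ S, p ^ 2, fun B hB => ?_⟩
  have hnd : ∀ p ∈ S, ¬ ((p : ℤ) ∣ τ) := by
    intro p hp hd
    have h1 := (hS p hp).2
    have h2 : (p : ℤ).natAbs ∣ τ.natAbs := Int.natAbs_dvd_natAbs.2 hd
    have h3 : p ≤ τ.natAbs := by
      have := Nat.le_of_dvd (Int.natAbs_pos.2 hτ) h2
      simpa using this
    omega
  have hnd2 : ∀ p ∈ S, ¬ ((p : ℤ) ∣ ε * τ) := by
    intro p hp hd
    rcases hε with h | h
    · rw [h, one_mul] at hd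
      exact hnd p hp hd
    · rw [h, neg_one_mul, dvd_neg] at hd
      exact hnd p hp hd
  let Ω : (p : ℕ) → Set (UpIdx (m + 1) → ZMod (p ^ 2)) := fun p =>
    {x | ZMod.castHom (dvd_pow_self p two_ne_zero) (ZMod p) (toSym x).det = 0 ∧ (toSym x).det ≠ 0 ∧
        ¬ IsSquare (((ε * τ : ℤ) : ZMod p) * ZMod.castHom (dvd_pow_self p two_ne_zero) (ZMod p)
          ((toSym x).submatrix Fin.succ Fin.succ).det)}
  obtain ⟨hfin, hle⟩ := crt_box_sq S (fun p hp => (hS p hp).1) Ω (fun p => 1 / (8 * (p : ℝ)))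
    (fun p hp => ⟨by positivity, sym_dens_sq m hm (ε * τ) p (hS p hp).1 (hnd2 p hp)
      (by have := (hS p hp).2; omega) (by have := (hS p hp).2; omega)⟩)
    (fun q => B q.1.1 q.1.2) (fun q => hB _ _)
  have hBnn : ∀ i j, 0 ≤ B i j := fun i j => (Nat.cast_nonneg _).trans (hB i j)
  have h1 : {A : Matrix (Fin (m + 1)) (Fin (m + 1)) ℤ | A ∈ Box B ∧ PropA τ ε A}.ncard ≤
      {x : UpIdx (m + 1) → ℤ | (∀ i, |(x i : ℝ)| < B i.1.1 i.1.2) ∧
        ∀ p ∈ S, (fun i => ((x i : ℤ) : ZMod (p ^ 2))) ∉ Ω p}.ncard := by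
    refine Set.ncard_le_ncard_of_injOn upp ?_ ?_ hfin
    · rintro A ⟨⟨hsym, hbox⟩, hu⟩
      refine ⟨fun q => hbox _ _, fun p hp hmem => ?_⟩
      obtain ⟨hdet, hdet2, hns⟩ := hmem
      rw [toSym_upp hsym] at hdet hdet2 hns
      rw [det_cast] at hdet hdet2
      apply hns
      have h5 : ((A.map (Int.cast : ℤ → ZMod (p ^ 2))).submatrix Fin.succ Fin.succ).det
          = (((A.submatrix Fin.succ Fin.succ).det : ℤ) : ZMod (p ^ 2)) := by
        rw [← det_cast]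
        rfl
      rw [h5, map_intCast, ← Int.cast_mul]
      rw [map_intCast] at hdet
      refine hu p (hS p hp).1 ((ZMod.intCast_zmod_eq_zero_iff_dvd _ _).1 hdet) ?_ (hnd p hp)
      intro hd
      apply hdet2
      rw [ZMod.intCast_zmod_eq_zero_iff_dvd]
      push_cast
      exact hd
    · intro A hA A' hA' h
      exact upp_inj hA.1.1 hA'.1.1 h
  calc (({A : Matrix (Fin (m + 1)) (Fin (m + 1)) ℤ | A ∈ Box B ∧ PropA τ ε A}.ncard : ℕ) : ℝ)
      ≤ _ := Nat.cast_le.2 h1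
    _ ≤ _ := hle
    _ = 3 ^ N * (∏ q : UpIdx (m + 1), B q.1.1 q.1.2) * ∏ p ∈ S, (1 - 1 / 8 / (p : ℝ)) := by
        rw [Finset.prod_mul_distrib, Finset.prod_const, Finset.card_univ]
        congr 1
        refine Finset.prod_congr rfl fun p _ => ?_
        rw [div_div]
    _ ≤ 3 ^ N * (∏ q : UpIdx (m + 1), B q.1.1 q.1.2) * (δ / 3 ^ N) :=
        mul_le_mul_of_nonneg_left hprod
          (mul_nonneg (by positivity) (Finset.prod_nonneg fun q _ => hBnn _ _))
    _ = δ * ∏ q : UpIdx (m + 1), B q.1.1 q.1.2 := by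
        field_simp
    _ = _ := by rw [prod_up]

end Pool.Agent.Helper32.DZ
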