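import Pool.Agent.Helper32.DZ.ExpSums

set_option autoImplicit false

/-!
DZ-35 Bracket. The exponent inequality for odd size.

Let `d` be odd, `κ` monotone, `1 ≤ κ i + κ (rev i) ≤ 2c` for all `i`. Claim: `2 Xk κ - Dk κ ≤ (d-1) κ (last) + 8 c d^2`.

PROOF. Write `i* = rev i`. `κ i ≤ 2c - κ i*`, so for `i ≤ j`: `max (κ i + κ j) 0 ≤ max (κ j - κ i* + 2c) 0 ≤
max (κ j - κ i*) 0 + 2c`. For `i ≤ j`, put `p = i*`, `q = j`: `i ≤ j` means `p + q ≥ d - 1` (0-based values:
`d - 1 - p ≤ q`); the term is `κ q - κ p` if `p < q` and `0` otherwise (monotone). So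
`Xk ≤ ∑_(p<q, p+q ≥ d-1) (κ q - κ p) + 2c d(d+1)/2`.
`Dk = Σ_> + Σ_= + Σ_<` according to `p + q` compared with `d - 1`. The bijection `(p,q) ↦ (q*, p*)` maps `{p<q, p+q < d-1}`
to `{p<q, p+q > d-1}`, and `κ q* ... `: for `p < q` with `p + q > d-1`: `κ p* - κ q* ≥ (1 - κ p) - (2c - κ q) =
κ q - κ p + 1 - 2c`. So `Σ_< ≥ Σ_> - 2c d^2`, and
`2 Xk - Dk ≤ 2 Σ_> + 2 Σ_= + 2c d(d+1) - (2 Σ_> + Σ_= - 2c d^2) ≤ Σ_= + 6 c d^2` (`d + 1 ≤ 2d`).
`Σ_= = ∑_(p < (d-1)/2) (κ p* - κ p) ≤ ∑_(p < (d-1)/2) (2 κ p* - 1) ≤ ((d-1)/2) 2 κ last = (d-1) κ last`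
(`-κ p ≤ κ p* - 1`, monotone; `κ last ≥ 1`; `c ≥ 1` follows from `1 ≤ 2c`).
Total `≤ (d-1) κ last + 6 c d^2`. Checked by computer for `d = 3, 5, 7`.
-/

namespace Pool.Agent.Helper32.DZ

private theorem h45_cnt (p : ℕ) (x : ℤ) :
    (∑ a : Fin (p + p + 1), if a < a.rev then x else 0) = (p : ℤ) * x := by
  have h1 : ∀ a : Fin (p + p + 1), (if a < a.rev then x else 0) =
      (fun i : ℕ => if i < p then x else 0) (a : ℕ) := by
    intro a
    have ha := a.isLt
    show (if a < a.rev then x else 0) = if (a : ℕ) < p then x else 0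
    have h2 : a < a.rev ↔ (a : ℕ) < p := by
      rw [Fin.lt_def, Fin.val_rev]
      omega
    by_cases h3 : (a : ℕ) < p
    · rw [if_pos (h2.2 h3), if_pos h3]
    · rw [if_neg (fun h => h3 (h2.1 h)), if_neg h3]
  rw [Finset.sum_congr rfl fun a _ => h1 a,
    Fin.sum_univ_eq_sum_range (fun i : ℕ => if i < p then x else 0) (p + p + 1),
    ← Finset.sum_filter, Finset.sum_const, nsmul_eq_mul]
  congr 2
  have h4 : (Finset.range (p + p + 1)).filter (fun i => i < p) = Finset.range p := by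
    ext i
    simp only [Finset.mem_filter, Finset.mem_range]
    omega
  rw [h4, Finset.card_range]

theorem bracket {m : ℕ} (hm : Even m) (κ : Fin (m + 1) → ℤ) (hκ : Monotone κ) (c : ℤ)
    (hc : ∀ i : Fin (m + 1), 1 ≤ κ i + κ i.rev ∧ κ i + κ i.rev ≤ 2 * c) :
    2 * Xk κ - Dk κ ≤ (m : ℤ) * κ (Fin.last m) + 8 * c * ((m : ℤ) + 1) ^ 2 := by
  obtain ⟨p, rfl⟩ := hm
  have hc1 : 1 ≤ c := by
    have h1 := hc 0
    omega
  have hX : Xk κ ≤ (∑ i, ∑ j, if i.rev ≤ j ∧ i < j then κ j - κ i else 0) +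
      ((p + p : ℕ) + 1 : ℤ) ^ 2 * (2 * c) := by
    have h1 : Xk κ = ∑ i : Fin (p + p + 1), ∑ j, if i.rev ≤ j then max (κ i.rev + κ j) 0 else 0 := by
      unfold Xk SLe
      exact (Equiv.sum_comp Fin.revPerm
        (fun i : Fin (p + p + 1) => ∑ j, if i ≤ j then max (κ i + κ j) 0 else 0)).symm
    have h2 : ((p + p : ℕ) + 1 : ℤ) ^ 2 * (2 * c) =
        ∑ _i : Fin (p + p + 1), ∑ _j : Fin (p + p + 1), 2 * c := by
      simp only [Finset.sum_const, Finset.card_univ, Fintype.card_fin, nsmul_eq_mul]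
      push_cast
      ring
    rw [h1, h2, ← Finset.sum_add_distrib]
    refine Finset.sum_le_sum fun i _ => ?_
    rw [← Finset.sum_add_distrib]
    refine Finset.sum_le_sum fun j _ => ?_
    have h3 := hc i
    by_cases h4 : i.rev ≤ j
    · by_cases h5 : i < j
      · rw [if_pos h4, if_pos ⟨h4, h5⟩]
        have h6 := hκ h5.le
        refine max_le ?_ ?_ <;> omega
      · rw [if_pos h4, if_neg (fun h => h5 h.2)]
        have h6 := hκ (not_lt.1 h5)
        refine max_le ?_ ?_ <;> omega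
    · rw [if_neg h4, if_neg (fun h => h4 h.1)]
      omega
  have hD : Dk κ = (∑ i, ∑ j, if i.rev ≤ j ∧ i < j then κ j - κ i else 0) +
      ∑ i, ∑ j, if j < i.rev ∧ i < j then κ j - κ i else 0 := by
    unfold Dk SLt
    rw [← Finset.sum_add_distrib]
    refine Finset.sum_congr rfl fun i _ => ?_
    rw [← Finset.sum_add_distrib]
    refine Finset.sum_congr rfl fun j _ => ?_
    by_cases h5 : i < j
    · by_cases h4 : i.rev ≤ j
      · rw [if_pos h5, if_pos ⟨h4, h5⟩, if_neg (fun h => absurd h.1 (not_lt.2 h4)), add_zero]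
      · rw [if_pos h5, if_neg (fun h => h4 h.1), if_pos ⟨not_le.1 h4, h5⟩, zero_add]
    · rw [if_neg h5, if_neg (fun h => h5 h.2), if_neg (fun h => h5 h.2), add_zero]
  have hB : (∑ i, ∑ j, if i.rev < j ∧ i < j then κ j - κ i else 0) -
      ((p + p : ℕ) + 1 : ℤ) ^ 2 * (2 * c) ≤
      ∑ i, ∑ j, if j < i.rev ∧ i < j then κ j - κ i else 0 := by
    have h1 : (∑ i, ∑ j, if j < i.rev ∧ i < j then κ j - κ i else 0) =
        ∑ i : Fin (p + p + 1), ∑ j : Fin (p + p + 1),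
          if i.rev < j ∧ j.rev < i.rev then κ i.rev - κ j.rev else 0 := by
      rw [Finset.sum_comm]
      refine (Equiv.sum_comp Fin.revPerm (fun j : Fin (p + p + 1) =>
        ∑ i : Fin (p + p + 1), if j < i.rev ∧ i < j then κ j - κ i else 0)).symm.trans ?_
      refine Finset.sum_congr rfl fun j _ => ?_
      refine (Equiv.sum_comp Fin.revPerm (fun i : Fin (p + p + 1) =>
        if j.rev < i.rev ∧ i < j.rev then κ j.rev - κ i else 0)).symm.trans ?_
      refine Finset.sum_congr rfl fun i _ => ?_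
      simp only [Fin.revPerm_apply, Fin.rev_rev]
    have h2 : ((p + p : ℕ) + 1 : ℤ) ^ 2 * (2 * c) =
        ∑ _i : Fin (p + p + 1), ∑ _j : Fin (p + p + 1), 2 * c := by
      simp only [Finset.sum_const, Finset.card_univ, Fintype.card_fin, nsmul_eq_mul]
      push_cast
      ring
    rw [h1, h2, ← Finset.sum_sub_distrib]
    refine Finset.sum_le_sum fun i _ => ?_
    rw [← Finset.sum_sub_distrib]
    refine Finset.sum_le_sum fun j _ => ?_
    have h3 := hc i
    have h4 := hc j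
    by_cases h5 : i.rev < j ∧ i < j
    · rw [if_pos h5, if_pos ⟨h5.1, Fin.rev_lt_rev.2 h5.2⟩]
      omega
    · rw [if_neg h5, if_neg (fun h => h5 ⟨h.1, Fin.rev_lt_rev.1 h.2⟩)]
      omega
  have hA : (∑ i, ∑ j, if i.rev ≤ j ∧ i < j then κ j - κ i else 0) =
      (∑ i, ∑ j, if i.rev < j ∧ i < j then κ j - κ i else 0) +
      ∑ i : Fin (p + p + 1), if i < i.rev then κ i.rev - κ i else 0 := by
    rw [← Finset.sum_add_distrib]
    refine Finset.sum_congr rfl fun i _ => ?_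
    have h1 : (if i < i.rev then κ i.rev - κ i else 0) =
        ∑ j, if i.rev = j then (if i < j then κ j - κ i else 0) else 0 := by
      rw [Finset.sum_ite_eq, if_pos (Finset.mem_univ _)]
    rw [h1, ← Finset.sum_add_distrib]
    refine Finset.sum_congr rfl fun j _ => ?_
    by_cases h5 : i < j
    · rcases lt_trichotomy i.rev j with h4 | h4 | h4
      · rw [if_pos ⟨h4.le, h5⟩, if_pos ⟨h4, h5⟩, if_neg h4.ne, add_zero]
      · rw [if_pos ⟨h4.le, h5⟩, if_neg (fun h => absurd h.1 (not_lt.2 h4.ge)), if_pos h4, if_pos h5,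
          zero_add]
      · rw [if_neg (fun h => absurd h.1 (not_le.2 h4)), if_neg (fun h => absurd h.1 (not_lt.2 h4.le)),
          if_neg h4.ne', add_zero]
    · rw [if_neg (fun h => h5 h.2), if_neg (fun h => h5 h.2), if_neg h5, ite_self, add_zero]
  have hE : (∑ i : Fin (p + p + 1), if i < i.rev then κ i.rev - κ i else 0) ≤
      ((p + p : ℕ) : ℤ) * κ (Fin.last (p + p)) := by
    have h1 : (∑ i : Fin (p + p + 1), if i < i.rev then κ i.rev - κ i else 0) ≤
        ∑ i : Fin (p + p + 1), if i < i.rev then 2 * κ (Fin.last (p + p)) else 0 := by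
      refine Finset.sum_le_sum fun i _ => ?_
      by_cases h2 : i < i.rev
      · rw [if_pos h2, if_pos h2]
        have h3 := hc i
        have h4 := hκ (Fin.le_last i.rev)
        omega
      · rw [if_neg h2, if_neg h2]
    refine h1.trans (le_of_eq ?_)
    rw [h45_cnt p (2 * κ (Fin.last (p + p)))]
    push_cast
    ring
  have hfin : 0 ≤ ((p + p : ℕ) + 1 : ℤ) ^ 2 * (2 * c) := by positivity
  have e1 : 8 * c * (((p + p : ℕ) : ℤ) + 1) ^ 2 = 4 * (((p + p : ℕ) + 1 : ℤ) ^ 2 * (2 * c)) := by ring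
  rw [e1]
  linarith

end Pool.Agent.Helper32.DZ
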