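import Pool.Agent.Helper32.DZ.Defs

set_option autoImplicit false

/-!
DZ-14 CellGen. The cell of a reduced pair, and the box containing all translates.

PROOF. `N = 0`: `κ` is the empty function, `2^0 = 1 ≤ 0^0 * 1` (`(4*0)^0 = 1`). Let `N ≥ 1`, `r_i = √(Φ i i) > 0`
(`Φ i i = ev Φ e_i e_i > 0`), `κ i = Int.log 2 (2 N r_i) + 1`: `2^(κ i - 1) ≤ 2 N r_i < 2^(κ i)`
(`Int.zpow_log_le_self`, `Int.lt_zpow_succ_log_self`). Monotone: `Int.log_mono_right`.
`2^(2 ∑ κ) = ∏ (2^(κ i))^2 ≤ ∏ (4 N r_i)^2 = (4N)^(2N) ∏ Φ i i`.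
`U ∈ Tr κ`, `u_j` = column `j` of `U` as a real vector: `√(ev Φ u_j u_j) ≤ ∑_(i ≤ j) |U i j| r_i`
(triangle inequality for the norm of `Φ`; it follows from `ev Φ e_i e_k ≤ r_i r_k`, the Cauchy-Schwarz inequality
for `Φ`, e.g. from the discriminant of `t ↦ ev Φ (e_i + t e_k) (e_i + t e_k) ≥ 0`). For `i < j`:
`|U i j| r_i ≤ 2^(κ j - κ i) r_i ≤ 2^(κ j) / (2N) ≤ 2 r_j` (as `2 N r_i < 2^(κ i)`, `2^(κ j) ≤ 4 N r_j`), `U j j = 1`.
So `√(ev Φ u_j u_j) ≤ r_j + 2 (N - 1) r_j ≤ 2 N r_j < 2^(κ j)` (`(2N-1) r_j < 2 N r_j`).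
`(U^t P U) i j = ev (toR P) u_i u_j`, so `|.| ≤ √(ev Φ u_i u_i) √(ev Φ u_j u_j) < 2^(κ i) 2^(κ j)` by `hP`;
the same with `ρ` for `R` (`ρ > 0` keeps the inequality strict).
-/

open Matrix

namespace Pool.Agent.Helper32.DZ

private theorem ev_eq {N : ℕ} (M : Matrix (Fin N) (Fin N) ℝ) (u w : Fin N → ℝ) :
    ev M u w = ∑ i, ∑ k, u i * M i k * w k := by
  unfold ev
  simp only [dotProduct, Matrix.mulVec, Finset.mul_sum]
  refine Finset.sum_congr rfl fun i _ => Finset.sum_congr rfl fun k _ => by ring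

private theorem entry_sq {N : ℕ} (Φ : Matrix (Fin N) (Fin N) ℝ) (hΦ : Φ.PosDef) (i k : Fin N) :
    (Φ i k) ^ 2 ≤ Φ i i * Φ k k := by
  have h := (hΦ.posSemidef.submatrix ![i, k]).det_nonneg
  have hs : Φ k i = Φ i k := by
    have := hΦ.isHermitian.apply i k
    simpa using this
  rw [Matrix.det_fin_two] at h
  simp [hs] at h
  nlinarith [h]

private theorem ev_le {N : ℕ} (Φ : Matrix (Fin N) (Fin N) ℝ) (hΦ : Φ.PosDef) (u : Fin N → ℝ) :
    ev Φ u u ≤ (∑ i, |u i| * √(Φ i i)) ^ 2 := by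
  rw [ev_eq, sq, Finset.sum_mul_sum]
  refine Finset.sum_le_sum fun i _ => Finset.sum_le_sum fun k _ => ?_
  have h1 : |Φ i k| ≤ √(Φ i i) * √(Φ k k) := by
    rw [← Real.sqrt_mul (hΦ.diag_pos).le]
    exact Real.abs_le_sqrt (entry_sq Φ hΦ i k)
  calc u i * Φ i k * u k ≤ |u i * Φ i k * u k| := le_abs_self _
    _ = |u i| * |Φ i k| * |u k| := by rw [abs_mul, abs_mul]
    _ ≤ |u i| * (√(Φ i i) * √(Φ k k)) * |u k| := by gcongr
    _ = _ := by ring

private theorem conj_ev {N : ℕ} (P U : Matrix (Fin N) (Fin N) ℤ) (i j : Fin N) :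
    (((Uᵀ * P * U) i j : ℤ) : ℝ) =
      ev (toR P) (fun k => ((U k i : ℤ) : ℝ)) (fun k => ((U k j : ℤ) : ℝ)) := by
  rw [ev_eq]
  simp only [Matrix.mul_apply, Matrix.transpose_apply, toR, Matrix.map_apply, Finset.sum_mul]
  rw [Finset.sum_comm]
  push_cast
  rfl

theorem cell_gen {N : ℕ} (P R : Matrix (Fin N) (Fin N) ℤ) (Φ : Matrix (Fin N) (Fin N) ℝ)
    (hΦ : Φ.PosDef) (ρ : ℝ) (hρ : 0 < ρ)
    (hP : ∀ u w, (ev (toR P) u w) ^ 2 ≤ ev Φ u u * ev Φ w w)
    (hR : ∀ u w, (ev (toR R) u w) ^ 2 ≤ ρ ^ 2 * (ev Φ u u * ev Φ w w))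
    (hmono : Monotone fun i => Φ i i) :
    ∃ κ : Fin N → ℤ, Monotone κ ∧
      (2 : ℝ) ^ (2 * ∑ i, κ i) ≤ (4 * (N : ℝ)) ^ (2 * N) * ∏ i, Φ i i ∧
      ∀ U ∈ Tr κ, ∀ i j, |(((Uᵀ * P * U) i j : ℤ) : ℝ)| < (2 : ℝ) ^ (κ i + κ j) ∧
        |(((Uᵀ * R * U) i j : ℤ) : ℝ)| < ρ * (2 : ℝ) ^ (κ i + κ j) := by
  classical
  have hpos : ∀ i, 0 < Φ i i := fun i => hΦ.diag_pos
  have hr : ∀ i, 0 < √(Φ i i) := fun i => Real.sqrt_pos.2 (hpos i)
  have hN : ∀ i : Fin N, (0 : ℝ) < N := fun i => by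
    have : 0 < N := i.pos
    exact_mod_cast this
  set κ : Fin N → ℤ := fun i => Int.log 2 (2 * (N : ℝ) * √(Φ i i)) + 1 with hκ
  have hlt : ∀ i, 2 * (N : ℝ) * √(Φ i i) < (2 : ℝ) ^ (κ i) := fun i => by
    have := Int.lt_zpow_succ_log_self (R := ℝ) (b := 2) one_lt_two (2 * (N : ℝ) * √(Φ i i))
    simpa [hκ] using this
  have hle : ∀ i, (2 : ℝ) ^ (κ i) ≤ 4 * (N : ℝ) * √(Φ i i) := fun i => by
    have h1 := hN i
    have h2 := hr i
    have := Int.zpow_log_le_self (R := ℝ) (b := 2) one_lt_two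
      (r := 2 * (N : ℝ) * √(Φ i i)) (by positivity)
    have h3 : (2 : ℝ) ^ (κ i) = 2 * (2 : ℝ) ^ (Int.log 2 (2 * (N : ℝ) * √(Φ i i))) := by
      simp only [hκ]
      rw [zpow_add₀ (by norm_num), zpow_one]
      ring
    rw [h3]
    push_cast at this
    linarith
  have hmk : Monotone κ := by
    intro i j hij
    have h1 := hN i
    have h2 := hr i
    have h3 : √(Φ i i) ≤ √(Φ j j) := Real.sqrt_le_sqrt (hmono hij)
    simp only [hκ]
    have := Int.log_mono_right (b := 2) (r₁ := 2 * (N : ℝ) * √(Φ i i))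
      (r₂ := 2 * (N : ℝ) * √(Φ j j)) (by positivity) (by gcongr)
    linarith
  refine ⟨κ, hmk, ?_, ?_⟩
  · have e1 : (2 : ℝ) ^ (2 * ∑ i, κ i) = ∏ i, ((2 : ℝ) ^ (κ i)) ^ 2 := by
      rw [Finset.prod_pow, mul_comm, _root_.zpow_mul]
      rw [← zpow_natCast]
      congr 1
      induction (Finset.univ : Finset (Fin N)) using Finset.induction_on with
      | empty => simp
      | insert a s ha ih => rw [Finset.sum_insert ha, Finset.prod_insert ha,
          zpow_add₀ (by norm_num), ih]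
    have e2 : (4 * (N : ℝ)) ^ (2 * N) * ∏ i, Φ i i = ∏ i, (4 * (N : ℝ) * √(Φ i i)) ^ 2 := by
      have : ∀ i : Fin N, (4 * (N : ℝ) * √(Φ i i)) ^ 2 = (4 * (N : ℝ)) ^ 2 * Φ i i := fun i => by
        rw [mul_pow, Real.sq_sqrt (hpos i).le]
      rw [Finset.prod_congr rfl fun i _ => this i, Finset.prod_mul_distrib, Finset.prod_const,
        Finset.card_univ, Fintype.card_fin, ← pow_mul]
    rw [e1, e2]
    refine Finset.prod_le_prod (fun i _ => by positivity) fun i _ => ?_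
    have := hle i
    have h0 : (0 : ℝ) ≤ (2 : ℝ) ^ (κ i) := by positivity
    exact pow_le_pow_left₀ h0 this 2
  · intro U hU
    obtain ⟨⟨hU1, hU0⟩, hUt⟩ := hU
    have key : ∀ j, ev Φ (fun k => ((U k j : ℤ) : ℝ)) (fun k => ((U k j : ℤ) : ℝ)) <
        ((2 : ℝ) ^ (κ j)) ^ 2 := by
      intro j
      refine lt_of_le_of_lt (ev_le Φ hΦ _) ?_
      have hNj := hN j
      have hrj := hr j
      have hterm : ∀ k, |((U k j : ℤ) : ℝ)| * √(Φ k k) ≤
          2 * √(Φ j j) - if k = j then √(Φ j j) else 0 := by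
        intro k
        rcases lt_trichotomy k j with h | h | h
        · rw [if_neg h.ne, sub_zero]
          obtain ⟨h0, h1⟩ := hUt k j h
          have h0' : (0 : ℝ) ≤ ((U k j : ℤ) : ℝ) := by exact_mod_cast h0
          rw [abs_of_nonneg h0']
          have h2 := hr k
          have h3 := hlt k
          have h4 := hle j
          have h5 : (0 : ℝ) < (2 : ℝ) ^ (κ k) := by positivity
          have h6 : (0 : ℝ) < (2 : ℝ) ^ (κ j) := by positivity
          rw [zpow_sub₀ (by norm_num)] at h1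
          have h7 : ((U k j : ℤ) : ℝ) * √(Φ k k) ≤ (2 : ℝ) ^ (κ j) / (2 : ℝ) ^ (κ k) * √(Φ k k) :=
            mul_le_mul_of_nonneg_right h1.le h2.le
          have h8 : (2 : ℝ) ^ (κ j) / (2 : ℝ) ^ (κ k) * √(Φ k k) ≤ (2 : ℝ) ^ (κ j) / (2 * (N : ℝ)) := by
            rw [div_mul_eq_mul_div, div_le_div_iff₀ h5 (by positivity)]
            nlinarith [mul_le_mul_of_nonneg_left h3.le h6.le]
          have h9 : (2 : ℝ) ^ (κ j) / (2 * (N : ℝ)) ≤ 2 * √(Φ j j) := by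
            rw [div_le_iff₀ (by positivity)]
            linarith
          linarith
        · subst h
          simp [hU1]
          linarith
        · rw [if_neg h.ne', hU0 k j h]
          simp
      have hsum : ∑ k, |((U k j : ℤ) : ℝ)| * √(Φ k k) ≤ 2 * (N : ℝ) * √(Φ j j) - √(Φ j j) := by
        refine (Finset.sum_le_sum fun k _ => hterm k).trans ?_
        rw [Finset.sum_sub_distrib, Finset.sum_const, Finset.card_univ, Fintype.card_fin,
          Finset.sum_ite_eq' Finset.univ j, if_pos (Finset.mem_univ _), nsmul_eq_mul]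
        linarith
      have hnn : 0 ≤ ∑ k, |((U k j : ℤ) : ℝ)| * √(Φ k k) :=
        Finset.sum_nonneg fun k _ => mul_nonneg (abs_nonneg _) (Real.sqrt_nonneg _)
      have := hlt j
      exact pow_lt_pow_left₀ (by linarith) hnn (by norm_num)
    have evnn : ∀ u, 0 ≤ ev Φ u u := by
      intro u
      have := hΦ.posSemidef.dotProduct_mulVec_nonneg u
      simpa [ev] using this
    intro i j
    rw [conj_ev, conj_ev]
    have hi := key i
    have hj := key j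
    set ui : Fin N → ℝ := fun k => ((U k i : ℤ) : ℝ)
    set uj : Fin N → ℝ := fun k => ((U k j : ℤ) : ℝ)
    have hprod : ev Φ ui ui * ev Φ uj uj < ((2 : ℝ) ^ (κ i + κ j)) ^ 2 := by
      rw [zpow_add₀ (by norm_num), mul_pow]
      exact mul_lt_mul'' hi hj (evnn _) (evnn _)
    have hz : (0 : ℝ) < (2 : ℝ) ^ (κ i + κ j) := by positivity
    constructor
    · refine abs_lt_of_sq_lt_sq ?_ hz.le
      exact lt_of_le_of_lt (hP ui uj) hprod
    · refine abs_lt_of_sq_lt_sq ?_ (by positivity)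
      refine lt_of_le_of_lt (hR ui uj) ?_
      rw [mul_pow]
      exact mul_lt_mul_of_pos_left hprod (by positivity)

end Pool.Agent.Helper32.DZ
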