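import Pool.Agent.Helper32.DZ.Herm

set_option autoImplicit false

/-!
DZ-08 HermSort. The reduced basis sorted by length.

PROOF. `g` from `herm`; `f i = ((toR g)^t Φ (toR g)) i i`, `σ = Tuple.sort f`, so `f ∘ σ` is monotone
(`Tuple.monotone_sort`). Take `g' = g.submatrix id σ` (columns permuted): `det g' = sign σ * det g`
(`Matrix.det_permute'`), `((toR g')^t Φ (toR g')) i i = f (σ i)`, the product is unchanged
(`Equiv.prod_comp`).
-/

open Matrix

namespace Pool.Agent.Helper32.DZ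

theorem herm_sort (N : ℕ) : ∃ C : ℝ, 1 ≤ C ∧ ∀ Φ : Matrix (Fin N) (Fin N) ℝ, Φ.PosDef →
    ∃ g : Matrix (Fin N) (Fin N) ℤ, (g.det = 1 ∨ g.det = -1) ∧
      ∏ i, ((toR g)ᵀ * Φ * toR g) i i ≤ C * Φ.det ∧
      Monotone fun i => ((toR g)ᵀ * Φ * toR g) i i := by
  obtain ⟨C, hC, h⟩ := herm N
  refine ⟨C, hC, fun Φ hΦ => ?_⟩
  obtain ⟨g, hg, hp⟩ := h Φ hΦ
  set f : Fin N → ℝ := fun i => ((toR g)ᵀ * Φ * toR g) i i with hf
  set σ : Equiv.Perm (Fin N) := Tuple.sort f with hσ
  have hmono : Monotone (f ∘ σ) := Tuple.monotone_sort f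
  have key : ∀ i, ((toR (g.submatrix id σ))ᵀ * Φ * toR (g.submatrix id σ)) i i = f (σ i) := by
    intro i
    simp only [hf, toR, Matrix.mul_apply, Matrix.transpose_apply, Matrix.map_apply,
      Matrix.submatrix_apply, id]
  refine ⟨g.submatrix id σ, ?_, ?_, ?_⟩
  · rw [Matrix.det_permute']
    rcases Int.units_eq_one_or (Equiv.Perm.sign σ) with h1 | h1
    · rw [h1]
      simpa using hg
    · rw [h1]
      rcases hg with h2 | h2
      · right
        rw [h2]
        simp
      · left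
        rw [h2]
        simp
  · calc ∏ i, ((toR (g.submatrix id σ))ᵀ * Φ * toR (g.submatrix id σ)) i i
        = ∏ i, f (σ i) := Finset.prod_congr rfl fun i _ => key i
      _ = ∏ i, f i := Equiv.prod_comp σ f
      _ ≤ C * Φ.det := hp
  · intro i j hij
    simp only [key]
    exact hmono hij

end Pool.Agent.Helper32.DZ
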