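import Pool.Agent.Helper32.DZ.EigConj

set_option autoImplicit false

/-!
DZ-06 RealForm. The real majorant of a pencil.

PROOF. `V`, `α` from `eig` (for `P.map cast`, `R.map cast`). Put `L = V^t P` (complex matrix),
`l_i(u) = (L u)_i`. From `V^t P V = diagonal α`: `P = L^t diagonal(1/α) L`, `R = L^t diagonal(e/α) L`
(multiply by `V⁻¹`). So for real `u, w`: `P[u,w] = ∑ l_i(u) l_i(w)/α_i`, `R[u,w] = ∑ e_i l_i(u) l_i(w)/α_i`.
Let `ΦC = L^H diagonal(D(e_i)/‖α_i‖) L`, i.e. `ΦC k l = ∑_i D(e_i)/‖α_i‖ * conj(L i k) * L i l`.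
REAL: choose for each `i` the index `σ i` with `e (σ i) = conj (e i)` (`hc`; `σ` is an involution because
`e` is injective, so it is a permutation). By `eig_conj` `V k (σ i) = γ conj (V k i)`, so
`L (σ i) k = γ conj (L i k)` (`P` real) and `α (σ i) = γ^2 conj (α i)`; hence
`conj(L (σ i) k) L (σ i) l / ‖α (σ i)‖ = L i k conj(L i l)/‖α i‖`, the conjugate of the term of `i`;
`D(e (σ i)) = D (e i)`. So `conj (ΦC k l) = ΦC k l`. Put `Φ k l = re (ΦC k l)`, so `Φ.map ofReal = ΦC`.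
POSITIVE: symmetric since `ΦC` is hermitian and real; for real `u`: `ev Φ u u = ∑ D(e_i)/‖α_i‖ ‖l_i(u)‖^2`,
which is `> 0` for `u ≠ 0` (`L` invertible, `D ≥ 1`).
DETERMINANT: `det ΦC = ‖det L‖^2 ∏ D(e_i)/‖α_i‖`, `det L = det V det P`, `∏ α_i = (det V)^2 det P`:
`‖det L‖^2 = ‖det V‖^2 |det P|^2 = ∏ ‖α_i‖ |det P|`. So `det Φ = |det P| ∏ D(e_i)`.
BOUNDS: `|P[u,w]| ≤ ∑ ‖l_i(u)‖ ‖l_i(w)‖/‖α_i‖ ≤ ∑ D(e_i) ...`, Cauchy-Schwarz
(`Finset.sum_mul_sq_le_sq_mul_sq` / `inner_mul_le_norm_mul_norm`); `|R[u,w]| ≤ ∑ ‖e_i‖ ... ≤ ρ ∑ D(e_i) ...`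
(`ρ ≥ 0` if `N > 0`, since `‖e_i‖ ≤ ρ D(e_i)`; for `N = 0` both sides vanish).
-/

open Matrix

namespace Pool.Agent.Helper32.DZ

/-- the vector as a complex vector -/
private def cv {N : ℕ} (u : Fin N → ℝ) : Fin N → ℂ := fun k => (u k : ℂ)

private theorem ev_cast {N : ℕ} (M : Matrix (Fin N) (Fin N) ℤ) (u w : Fin N → ℝ) :
    ((ev (toR M) u w : ℝ) : ℂ) = cv u ⬝ᵥ (M.map (Int.cast : ℤ → ℂ) *ᵥ cv w) := by
  simp only [ev, toR, cv, dotProduct, Matrix.mulVec, Matrix.map_apply, Complex.ofReal_sum,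
    Complex.ofReal_mul, Complex.ofReal_intCast]

private theorem form_eq {N : ℕ} (L : Matrix (Fin N) (Fin N) ℂ) (f : Fin N → ℂ) (x y : Fin N → ℂ) :
    x ⬝ᵥ ((Lᵀ * Matrix.diagonal f * L) *ᵥ y) = ∑ i, (L *ᵥ x) i * (f i * (L *ᵥ y) i) := by
  rw [← Matrix.mulVec_mulVec, ← Matrix.mulVec_mulVec, Matrix.dotProduct_mulVec,
    Matrix.vecMul_transpose]
  simp only [dotProduct, Matrix.mulVec_diagonal]

private theorem hform_eq {N : ℕ} (L : Matrix (Fin N) (Fin N) ℂ) (f : Fin N → ℂ) (u w : Fin N → ℝ) :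
    cv u ⬝ᵥ ((Lᴴ * Matrix.diagonal f * L) *ᵥ cv w) =
      ∑ i, (starRingEnd ℂ) ((L *ᵥ cv u) i) * (f i * (L *ᵥ cv w) i) := by
  have hs : star (cv u) = cv u := by
    funext k
    exact Complex.conj_ofReal (u k)
  rw [← Matrix.mulVec_mulVec, ← Matrix.mulVec_mulVec, Matrix.dotProduct_mulVec,
    Matrix.vecMul_conjTranspose, hs]
  simp only [dotProduct, Matrix.mulVec_diagonal]
  rfl

private theorem ev_re {N : ℕ} (Q : Matrix (Fin N) (Fin N) ℂ) (u w : Fin N → ℝ) :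
    ev (Q.map Complex.re) u w = (cv u ⬝ᵥ (Q *ᵥ cv w)).re := by
  simp only [ev, cv, dotProduct, Matrix.mulVec, Matrix.map_apply, Complex.re_sum,
    Complex.re_ofReal_mul, Complex.re_mul_ofReal]

/-- Cauchy-Schwarz with weights -/
private theorem cs_w {N : ℕ} (c x y : Fin N → ℝ) (hc : ∀ i, 0 ≤ c i) :
    (∑ i, c i * (x i * y i)) ^ 2 ≤ (∑ i, c i * x i ^ 2) * ∑ i, c i * y i ^ 2 := by
  have h := Finset.sum_mul_sq_le_sq_mul_sq Finset.univ (fun i => Real.sqrt (c i) * x i)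
    (fun i => Real.sqrt (c i) * y i)
  have hs : ∀ i, Real.sqrt (c i) * Real.sqrt (c i) = c i := fun i => Real.mul_self_sqrt (hc i)
  have e1 : ∀ i, Real.sqrt (c i) * x i * (Real.sqrt (c i) * y i) = c i * (x i * y i) := by
    intro i
    calc Real.sqrt (c i) * x i * (Real.sqrt (c i) * y i) =
        (Real.sqrt (c i) * Real.sqrt (c i)) * (x i * y i) := by ring
      _ = _ := by rw [hs]
  have e2 : ∀ z : Fin N → ℝ, ∀ i, (Real.sqrt (c i) * z i) ^ 2 = c i * z i ^ 2 := by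
    intro z i
    calc (Real.sqrt (c i) * z i) ^ 2 = (Real.sqrt (c i) * Real.sqrt (c i)) * z i ^ 2 := by ring
      _ = _ := by rw [hs]
  simp only [e1, e2] at h
  exact h

theorem real_form {N : ℕ} (P R : Matrix (Fin N) (Fin N) ℤ) (hP : P.IsSymm) (hR : R.IsSymm)
    (hd : P.det ≠ 0) (e : Fin N → ℂ) (he : Function.Injective e)
    (hr : ∀ i, (e i • P.map (Int.cast : ℤ → ℂ) - R.map (Int.cast : ℤ → ℂ)).det = 0)
    (hc : ∀ i, ∃ j, e j = (starRingEnd ℂ) (e i)) (D : ℂ → ℝ) (hD : ∀ z, 1 ≤ D z)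
    (hDc : ∀ z, D ((starRingEnd ℂ) z) = D z) (ρ : ℝ) (hρ : ∀ i, ‖e i‖ ≤ ρ * D (e i)) :
    ∃ Φ : Matrix (Fin N) (Fin N) ℝ, Φ.PosDef ∧ Φ.det = |(P.det : ℝ)| * ∏ i, D (e i) ∧
      (∀ u w, (ev (toR P) u w) ^ 2 ≤ ev Φ u u * ev Φ w w) ∧
      ∀ u w, (ev (toR R) u w) ^ 2 ≤ ρ ^ 2 * (ev Φ u u * ev Φ w w) := by
  classical
  set PC : Matrix (Fin N) (Fin N) ℂ := P.map (Int.cast : ℤ → ℂ) with hPC
  set RC : Matrix (Fin N) (Fin N) ℂ := R.map (Int.cast : ℤ → ℂ) with hRC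
  have hPs : PC.IsSymm := by
    rw [Matrix.IsSymm, hPC, ← Matrix.transpose_map, hP.eq]
  have hRs : RC.IsSymm := by
    rw [Matrix.IsSymm, hRC, ← Matrix.transpose_map, hR.eq]
  have hdet : PC.det = (P.det : ℂ) := ((Int.castRingHom ℂ).map_det P).symm
  have hPd : PC.det ≠ 0 := by
    rw [hdet]
    exact_mod_cast hd
  obtain ⟨V, α, hV, hα, h1, h2⟩ := eig PC RC hPs hRs hPd e he hr
  have hVu : IsUnit V.det := isUnit_iff_ne_zero.2 hV
  have hVV : V * V⁻¹ = 1 := Matrix.mul_nonsing_inv _ hVu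
  obtain ⟨L, hL⟩ : ∃ L : Matrix (Fin N) (Fin N) ℂ, L = Vᵀ * PC := ⟨_, rfl⟩
  have hLV : L * V = Matrix.diagonal α := by rw [hL]; exact h1
  have hLe : Matrix.diagonal α * V⁻¹ = L := by
    rw [← hLV, Matrix.mul_assoc, hVV, Matrix.mul_one]
  have hLt : Lᵀ = PC * V := by
    rw [hL, Matrix.transpose_mul, Matrix.transpose_transpose, hPs.eq]
  have hgen : ∀ f : Fin N → ℂ, Lᵀ * Matrix.diagonal f * V⁻¹ =
      Lᵀ * Matrix.diagonal (fun i => f i * (α i)⁻¹) * L := by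
    intro f
    have e1 : Matrix.diagonal f = Matrix.diagonal (fun i => f i * (α i)⁻¹) * Matrix.diagonal α := by
      rw [Matrix.diagonal_mul_diagonal]
      congr 1
      funext i
      rw [mul_assoc, inv_mul_cancel₀ (hα i), mul_one]
    conv_lhs => rw [e1]
    rw [← hLe]
    simp only [Matrix.mul_assoc]
  have hPL : PC = Lᵀ * Matrix.diagonal (fun i => (1 : ℂ) * (α i)⁻¹) * L := by
    rw [← hgen (fun _ => 1)]
    rw [Matrix.diagonal_one, Matrix.mul_one, hLt, Matrix.mul_assoc, hVV, Matrix.mul_one]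
  have hRV : RC * V = Lᵀ * Matrix.diagonal e := by
    have hTu : IsUnit (Vᵀ).det := by rw [Matrix.det_transpose]; exact hVu
    have e1 : Vᵀ * (RC * V) = Vᵀ * (Lᵀ * Matrix.diagonal e) := by
      rw [← Matrix.mul_assoc, h2, ← Matrix.mul_assoc, ← Matrix.transpose_mul, hLV,
        Matrix.diagonal_transpose, Matrix.diagonal_mul_diagonal]
    have e2 := congrArg (fun Z => (Vᵀ)⁻¹ * Z) e1
    simpa only [← Matrix.mul_assoc, Matrix.nonsing_inv_mul _ hTu, Matrix.one_mul] using e2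
  have hRL : RC = Lᵀ * Matrix.diagonal (fun i => e i * (α i)⁻¹) * L := by
    rw [← hgen e, ← hRV, Matrix.mul_assoc, hVV, Matrix.mul_one]
  obtain ⟨c, hc'⟩ : ∃ c : Fin N → ℝ, c = fun i => D (e i) / ‖α i‖ := ⟨_, rfl⟩
  have hαn : ∀ i, 0 < ‖α i‖ := fun i => norm_pos_iff.2 (hα i)
  have hD0 : ∀ z, 0 < D z := fun z => lt_of_lt_of_le one_pos (hD z)
  have hc0 : ∀ i, 0 < c i := by
    intro i
    rw [hc']
    exact div_pos (hD0 _) (hαn i)
  obtain ⟨ΦC, hΦC⟩ : ∃ ΦC : Matrix (Fin N) (Fin N) ℂ,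
    ΦC = Lᴴ * Matrix.diagonal (fun i => (c i : ℂ)) * L := ⟨_, rfl⟩
  have hent : ∀ k l, ΦC k l = ∑ i, (starRingEnd ℂ) (L i k) * (c i : ℂ) * L i l := by
    intro k l
    rw [hΦC, Matrix.mul_apply]
    refine Finset.sum_congr rfl fun i _ => ?_
    rw [Matrix.mul_diagonal, Matrix.conjTranspose_apply]
    rfl
  obtain ⟨l, hl⟩ : ∃ l : (Fin N → ℝ) → Fin N → ℂ, l = fun u => L *ᵥ cv u := ⟨_, rfl⟩
  have hev : ∀ u, ev (ΦC.map Complex.re) u u = ∑ i, c i * ‖l u i‖ ^ 2 := by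
    intro u
    rw [ev_re, hΦC, hform_eq, Complex.re_sum]
    refine Finset.sum_congr rfl fun i _ => ?_
    have e1 : (starRingEnd ℂ) ((L *ᵥ cv u) i) * ((c i : ℂ) * (L *ᵥ cv u) i) =
        (c i : ℂ) * ((starRingEnd ℂ) ((L *ᵥ cv u) i) * (L *ᵥ cv u) i) := by ring
    rw [e1, Complex.re_ofReal_mul, Complex.conj_mul', hl]
    have e2 : ((‖(L *ᵥ cv u) i‖ : ℂ) ^ 2).re = ‖(L *ᵥ cv u) i‖ ^ 2 := by
      rw [← Complex.ofReal_pow, Complex.ofReal_re]
    rw [e2]
  -- conjugation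
  choose σ hσ using hc
  have hinv : Function.Involutive σ := by
    intro i
    apply he
    rw [hσ, hσ, Complex.conj_conj]
  have hterm : ∀ i k m, (starRingEnd ℂ) (L (σ i) k) * (c (σ i) : ℂ) * L (σ i) m =
      L i k * (c i : ℂ) * (starRingEnd ℂ) (L i m) := by
    intro i
    obtain ⟨γ, hγ, hVγ⟩ := eig_conj P R e he V α hV hα h1 h2 i (σ i) (hσ i)
    have hLγ : ∀ k, L (σ i) k = γ * (starRingEnd ℂ) (L i k) := by
      intro k
      rw [hL, Matrix.mul_apply, Matrix.mul_apply, map_sum, Finset.mul_sum]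
      refine Finset.sum_congr rfl fun j _ => ?_
      rw [Matrix.transpose_apply, Matrix.transpose_apply, hVγ, map_mul, hPC, Matrix.map_apply]
      have : (starRingEnd ℂ) ((P j k : ℤ) : ℂ) = ((P j k : ℤ) : ℂ) := map_intCast _ _
      rw [this]
      ring
    have hαγ : α (σ i) = γ ^ 2 * (starRingEnd ℂ) (α i) := by
      have e1 : ∀ j, α j = ∑ k, L j k * V k j := by
        intro j
        have e2 := congrFun (congrFun hLV j) j
        rw [Matrix.diagonal_apply_eq, Matrix.mul_apply] at e2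
        exact e2.symm
      rw [e1 (σ i), e1 i, map_sum, Finset.mul_sum]
      refine Finset.sum_congr rfl fun k _ => ?_
      rw [hLγ, hVγ, map_mul]
      ring
    have hγn : 0 < ‖γ‖ := norm_pos_iff.2 hγ
    have hcγ : c (σ i) * ‖γ‖ ^ 2 = c i := by
      rw [hc']
      beta_reduce
      rw [hσ, hDc, hαγ, norm_mul, norm_pow, RCLike.norm_conj]
      have := (hαn i).ne'
      field_simp
    intro k m
    rw [hLγ, hLγ, map_mul, Complex.conj_conj, ← hcγ]
    have e3 : (starRingEnd ℂ) γ * γ = ((‖γ‖ ^ 2 : ℝ) : ℂ) := by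
      rw [Complex.conj_mul', Complex.ofReal_pow]
    rw [Complex.ofReal_mul, ← e3]
    ring
  have hreal : ∀ k m, (starRingEnd ℂ) (ΦC k m) = ΦC k m := by
    intro k m
    rw [hent, map_sum, ← Equiv.sum_comp hinv.toPerm
      (fun i => (starRingEnd ℂ) (L i k) * (c i : ℂ) * L i m)]
    refine Finset.sum_congr rfl fun i _ => ?_
    rw [map_mul, map_mul, Complex.conj_conj, Complex.conj_ofReal]
    exact (hterm i k m).symm
  have hmap : (ΦC.map Complex.re).map (fun x : ℝ => (x : ℂ)) = ΦC := by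
    ext k m
    rw [Matrix.map_apply, Matrix.map_apply]
    exact Complex.conj_eq_iff_re.1 (hreal k m)
  have hherm : ΦC.IsHermitian := by
    rw [hΦC, Matrix.IsHermitian, Matrix.conjTranspose_mul, Matrix.conjTranspose_mul,
      Matrix.conjTranspose_conjTranspose, Matrix.diagonal_conjTranspose, Matrix.mul_assoc]
    congr 3
    funext i
    exact Complex.conj_ofReal (c i)
  have hPw : ∀ u w, ((ev (toR P) u w : ℝ) : ℂ) = ∑ i, l u i * ((1 * (α i)⁻¹) * l w i) := by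
    intro u w
    rw [ev_cast, ← hPC, hPL, form_eq, hl]
  have hRw : ∀ u w, ((ev (toR R) u w : ℝ) : ℂ) = ∑ i, l u i * ((e i * (α i)⁻¹) * l w i) := by
    intro u w
    rw [ev_cast, ← hRC, hRL, form_eq, hl]
  have hsq : ∀ u w, (∑ i, c i * (‖l u i‖ * ‖l w i‖)) ^ 2 ≤
      ev (ΦC.map Complex.re) u u * ev (ΦC.map Complex.re) w w := by
    intro u w
    rw [hev, hev]
    exact cs_w c _ _ fun i => (hc0 i).le
  refine ⟨ΦC.map Complex.re, ?_, ?_, ?_, ?_⟩
  · refine Matrix.PosDef.of_dotProduct_mulVec_pos ?_ ?_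
    · refine Matrix.IsHermitian.ext fun i j => ?_
      rw [Matrix.map_apply, Matrix.map_apply, star_trivial, ← hherm.apply i j]
      exact (Complex.conj_re _).symm
    · intro u hu
      have e1 : star u ⬝ᵥ (ΦC.map Complex.re *ᵥ u) = ev (ΦC.map Complex.re) u u := by
        rw [ev, star_trivial]
      rw [e1, hev]
      have hlu : ∃ i, l u i ≠ 0 := by
        by_contra hcon
        push Not at hcon
        apply hu
        have e2 : L *ᵥ cv u = 0 := by
          funext i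
          have := hcon i
          rw [hl] at this
          exact this
        have hLd : IsUnit L.det := by
          rw [hL, Matrix.det_mul, Matrix.det_transpose]
          exact isUnit_iff_ne_zero.2 (mul_ne_zero hV hPd)
        have e3 : cv u = 0 := by
          have h := congrArg (fun y => L⁻¹ *ᵥ y) e2
          simpa [Matrix.mulVec_mulVec, Matrix.nonsing_inv_mul _ hLd] using h
        funext k
        have e4 := congrFun e3 k
        exact Complex.ofReal_eq_zero.1 e4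
      obtain ⟨i, hi⟩ := hlu
      refine Finset.sum_pos' (fun j _ => mul_nonneg (hc0 j).le (sq_nonneg _)) ⟨i, Finset.mem_univ i, ?_⟩
      exact mul_pos (hc0 i) (pow_pos (norm_pos_iff.2 hi) 2)
  · have e1 : (((ΦC.map Complex.re).det : ℝ) : ℂ) = ΦC.det := by
      have e2 := Complex.ofRealHom.map_det (ΦC.map Complex.re)
      have e3 : Complex.ofRealHom.mapMatrix (ΦC.map Complex.re) = ΦC := hmap
      rw [e3] at e2
      exact e2
    have e4 : ΦC.det = (‖L.det‖ ^ 2 : ℝ) * ∏ i, (c i : ℂ) := by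
      rw [hΦC, Matrix.det_mul, Matrix.det_mul, Matrix.det_conjTranspose, Matrix.det_diagonal]
      have e5 : star L.det * L.det = ((‖L.det‖ ^ 2 : ℝ) : ℂ) := by
        have := Complex.conj_mul' L.det
        rw [Complex.ofReal_pow]
        exact this
      rw [← e5]
      ring
    have e6 : ‖L.det‖ ^ 2 = (∏ i, ‖α i‖) * ‖PC.det‖ := by
      have e7 := congrArg Matrix.det h1
      rw [Matrix.det_mul, Matrix.det_mul, Matrix.det_transpose, Matrix.det_diagonal] at e7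
      have e8 : ∏ i, ‖α i‖ = ‖V.det‖ * ‖PC.det‖ * ‖V.det‖ := by
        rw [← norm_prod, ← e7, norm_mul, norm_mul]
      rw [e8, hL, Matrix.det_mul, Matrix.det_transpose, norm_mul]
      ring
    have e9 : ‖PC.det‖ = |(P.det : ℝ)| := by
      rw [hdet]
      have : ((P.det : ℤ) : ℂ) = (((P.det : ℤ) : ℝ) : ℂ) := (Complex.ofReal_intCast _).symm
      rw [this, Complex.norm_real, Real.norm_eq_abs]
    have e10 : (∏ i, ‖α i‖) * ∏ i, c i = ∏ i, D (e i) := by
      rw [← Finset.prod_mul_distrib]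
      refine Finset.prod_congr rfl fun i _ => ?_
      rw [hc']
      exact mul_div_cancel₀ _ (hαn i).ne'
    have e11 : (((ΦC.map Complex.re).det : ℝ) : ℂ) =
        ((‖L.det‖ ^ 2 * ∏ i, c i : ℝ) : ℂ) := by
      rw [e1, e4, Complex.ofReal_mul, Complex.ofReal_prod]
    have e12 := Complex.ofReal_injective e11
    rw [e12, e6, e9, mul_right_comm, e10]
    ring
  · intro u w
    refine le_trans ?_ (hsq u w)
    rw [← sq_abs]
    refine pow_le_pow_left₀ (abs_nonneg _) ?_ 2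
    have e1 : |ev (toR P) u w| = ‖((ev (toR P) u w : ℝ) : ℂ)‖ := by
      rw [Complex.norm_real, Real.norm_eq_abs]
    rw [e1, hPw]
    refine (norm_sum_le _ _).trans (Finset.sum_le_sum fun i _ => ?_)
    rw [norm_mul, norm_mul, one_mul, norm_inv]
    have e2 : ‖α i‖⁻¹ ≤ c i := by
      rw [hc']
      beta_reduce
      rw [div_eq_mul_inv]
      exact le_mul_of_one_le_left (inv_nonneg.2 (hαn i).le) (hD _)
    calc ‖l u i‖ * (‖α i‖⁻¹ * ‖l w i‖) = ‖α i‖⁻¹ * (‖l u i‖ * ‖l w i‖) := by ring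
      _ ≤ c i * (‖l u i‖ * ‖l w i‖) := mul_le_mul_of_nonneg_right e2 (by positivity)
  · intro u w
    refine le_trans ?_ (mul_le_mul_of_nonneg_left (hsq u w) (sq_nonneg ρ))
    rw [← mul_pow, ← sq_abs]
    rcases isEmpty_or_nonempty (Fin N) with hN | ⟨⟨i₀⟩⟩
    · have e1 : ev (toR R) u w = 0 := by
        simp [ev, dotProduct]
      rw [e1, abs_zero]
      have := sq_nonneg (ρ * ∑ i, c i * (‖l u i‖ * ‖l w i‖))
      simpa using this
    have hρ0 : 0 ≤ ρ := by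
      by_contra hcon
      push Not at hcon
      have h3 := hρ i₀
      have h4 := norm_nonneg (e i₀)
      nlinarith [hD0 (e i₀)]
    refine pow_le_pow_left₀ (abs_nonneg _) ?_ 2
    have e1 : |ev (toR R) u w| = ‖((ev (toR R) u w : ℝ) : ℂ)‖ := by
      rw [Complex.norm_real, Real.norm_eq_abs]
    rw [e1, hRw, Finset.mul_sum]
    refine (norm_sum_le _ _).trans (Finset.sum_le_sum fun i _ => ?_)
    rw [norm_mul, norm_mul, norm_mul, norm_inv]
    have e2 : ‖e i‖ * ‖α i‖⁻¹ ≤ ρ * c i := by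
      rw [hc']
      beta_reduce
      rw [div_eq_mul_inv, ← mul_assoc]
      exact mul_le_mul_of_nonneg_right (hρ i) (inv_nonneg.2 (hαn i).le)
    calc ‖l u i‖ * (‖e i‖ * ‖α i‖⁻¹ * ‖l w i‖) = (‖e i‖ * ‖α i‖⁻¹) * (‖l u i‖ * ‖l w i‖) := by ring
      _ ≤ (ρ * c i) * (‖l u i‖ * ‖l w i‖) := mul_le_mul_of_nonneg_right e2 (by positivity)
      _ = ρ * (c i * (‖l u i‖ * ‖l w i‖)) := by ring

end Pool.Agent.Helper32.DZ
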