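import Pool.Agent.Helper32.DZ.PenLem

set_option autoImplicit false

/-!
DZ-02 Roots. Complex roots of a good polynomial, and good pairs from pencils.

PROOFS. `roots_conj`: evaluate `he` at `conj (e i)`: the left side is the conjugate of its value at `e i`,
which is `0`; `a last ≠ 0`, so a factor vanishes.
`roots_mahler`: the polynomial `p = ∑ C (a i) X^i : ℂ[X]` equals `C (a last) * ∏ (X - C (e i))` (equal
values everywhere, `Polynomial.funext`); Mathlib: `Polynomial.mahlerMeasure_eq_leadingCoeff_mul_prod_roots`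
and `Polynomial.mahlerMeasure_le_sum_norm_coeff`. (`n ≥ 0` arbitrary.)
`roots_bound`: `z = e i` is a root. If `‖z‖ ≤ 1` then `‖a_n z‖ ≤ H`. If `‖z‖ > 1`:
`|a_n| ‖z‖^n ≤ H ∑_(i<n) ‖z‖^i = H (‖z‖^n - 1)/(‖z‖ - 1)`, so `|a_n| (‖z‖ - 1) ≤ H`, `|a_n| ‖z‖ ≤ 2 H`.
`pg_of_pen`: roots `e` from `Good`: `aeval (e i) (pol a) = 0` by `pol_eval` and `Good`, so
`aeval (e i) (pen P R) = 0`, `pen_eval`. `pg_of_pen_scale`: the numbers `a_last * e i`:
`(a_last e_i) • G - S = e_i • (a_last • G) - S`.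
-/

open Polynomial Matrix

namespace Pool.Agent.Helper32.DZ

theorem roots_zero {n : ℕ} (a : Fin (n + 1) → ℤ) (e : Fin n → ℂ)
    (he : ∀ z : ℂ, ∑ i, (a i : ℂ) * z ^ (i : ℕ) = (a (Fin.last n) : ℂ) * ∏ i, (z - e i))
    (i : Fin n) : ∑ j, (a j : ℂ) * (e i) ^ (j : ℕ) = 0 := by
  rw [he, Finset.prod_eq_zero (Finset.mem_univ i) (sub_self _), mul_zero]

theorem roots_conj {n : ℕ} (a : Fin (n + 1) → ℤ) (hl : a (Fin.last n) ≠ 0) (e : Fin n → ℂ)
    (he : ∀ z : ℂ, ∑ i, (a i : ℂ) * z ^ (i : ℕ) = (a (Fin.last n) : ℂ) * ∏ i, (z - e i))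
    (i : Fin n) : ∃ j, e j = (starRingEnd ℂ) (e i) := by
  have h1 : ∑ j, (a j : ℂ) * ((starRingEnd ℂ) (e i)) ^ (j : ℕ) = 0 := by
    have h2 := congrArg (starRingEnd ℂ) (roots_zero a e he i)
    rw [map_sum, map_zero] at h2
    rw [← h2]
    refine Finset.sum_congr rfl fun j _ => ?_
    rw [map_mul, map_pow, map_intCast]
  rw [he] at h1
  have h3 : ((a (Fin.last n) : ℤ) : ℂ) ≠ 0 := Int.cast_ne_zero.2 hl
  rcases mul_eq_zero.1 h1 with h | h
  · exact absurd h h3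
  · obtain ⟨j, _, hj⟩ := Finset.prod_eq_zero_iff.1 h
    exact ⟨j, (sub_eq_zero.1 hj).symm⟩

theorem roots_mahler {n : ℕ} (a : Fin (n + 1) → ℤ) (hl : a (Fin.last n) ≠ 0) (e : Fin n → ℂ)
    (he : ∀ z : ℂ, ∑ i, (a i : ℂ) * z ^ (i : ℕ) = (a (Fin.last n) : ℂ) * ∏ i, (z - e i)) :
    |(a (Fin.last n) : ℝ)| * ∏ i, max 1 ‖e i‖ ≤ ∑ i, |(a i : ℝ)| := by
  set p : ℂ[X] := ∑ i : Fin (n + 1), C ((a i : ℤ) : ℂ) * X ^ (i : ℕ) with hp
  have h0 : ((a (Fin.last n) : ℤ) : ℂ) ≠ 0 := Int.cast_ne_zero.2 hl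
  have h1 : p = C ((a (Fin.last n) : ℤ) : ℂ) *
      ((Finset.univ.val.map e).map fun b => X - C b).prod := by
    apply Polynomial.funext
    intro z
    rw [Multiset.map_map]
    change _ = eval z (C ((a (Fin.last n) : ℤ) : ℂ) * ∏ i, (X - C (e i)))
    rw [eval_mul, eval_C, eval_prod, hp, eval_finsetSum]
    simp only [eval_mul, eval_C, eval_pow, eval_X, eval_sub]
    exact he z
  have h2 : p.leadingCoeff = ((a (Fin.last n) : ℤ) : ℂ) := by
    rw [h1, leadingCoeff_mul, leadingCoeff_C, (monic_multiset_prod_of_monic _ _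
      (fun b _ => monic_X_sub_C b)).leadingCoeff, mul_one]
  have h3 : p.roots = Finset.univ.val.map e := by
    rw [h1, roots_C_mul _ h0, roots_multiset_prod_X_sub_C]
  have h4 : p.mahlerMeasure = |(a (Fin.last n) : ℝ)| * ∏ i, max 1 ‖e i‖ := by
    rw [mahlerMeasure_eq_leadingCoeff_mul_prod_roots, h2, h3, Multiset.map_map, Complex.norm_intCast]
    rfl
  have h5 : p.natDegree < n + 1 := by
    refine Nat.lt_succ_of_le (natDegree_sum_le_of_forall_le _ _ fun i _ => ?_)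
    exact (natDegree_C_mul_X_pow_le _ _).trans (Nat.lt_succ_iff.1 i.2)
  have h6 : (p.sum fun _ b => ‖b‖) = ∑ i, |(a i : ℝ)| := by
    rw [sum_over_range' p (fun _ => norm_zero) _ h5, Finset.sum_range]
    refine Finset.sum_congr rfl fun i _ => ?_
    have h7 : p.coeff (i : ℕ) = ((a i : ℤ) : ℂ) := by
      rw [hp, finsetSum_coeff, Finset.sum_eq_single i]
      · rw [coeff_C_mul_X_pow, if_pos rfl]
      · intro j _ hj
        rw [coeff_C_mul_X_pow, if_neg]
        intro hc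
        exact hj (Fin.ext hc.symm)
      · intro h
        exact absurd (Finset.mem_univ i) h
    rw [h7, Complex.norm_intCast]
  rw [← h4, ← h6]
  exact mahlerMeasure_le_sum_norm_coeff p

theorem roots_bound {n : ℕ} (a : Fin (n + 1) → ℤ) (hl : a (Fin.last n) ≠ 0) (e : Fin n → ℂ)
    (he : ∀ z : ℂ, ∑ i, (a i : ℂ) * z ^ (i : ℕ) = (a (Fin.last n) : ℂ) * ∏ i, (z - e i))
    (H : ℝ) (hH : ∀ i, |(a i : ℝ)| ≤ H) (i : Fin n) :
    ‖(a (Fin.last n) : ℂ) * e i‖ ≤ 2 * H := by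
  have h0 := roots_zero a e he i
  have hH0 : 0 ≤ H := (abs_nonneg _).trans (hH (Fin.last n))
  rw [norm_mul, Complex.norm_intCast]
  rcases le_or_gt ‖e i‖ 1 with h1 | h1
  · have h2 : |(a (Fin.last n) : ℝ)| * ‖e i‖ ≤ |(a (Fin.last n) : ℝ)| * 1 :=
      mul_le_mul_of_nonneg_left h1 (abs_nonneg _)
    have h3 := hH (Fin.last n)
    linarith
  · rw [Fin.sum_univ_castSucc] at h0
    have h2 : ‖(a (Fin.last n) : ℂ) * e i ^ n‖ ≤ ∑ j : Fin n, H * ‖e i‖ ^ (j : ℕ) := by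
      have h3 : (a (Fin.last n) : ℂ) * e i ^ n =
          -∑ j : Fin n, (a (Fin.castSucc j) : ℂ) * e i ^ (j : ℕ) := by
        have h4 : (a (Fin.last n) : ℂ) * e i ^ ((Fin.last n : Fin (n + 1)) : ℕ) =
            (a (Fin.last n) : ℂ) * e i ^ n := by rw [Fin.val_last]
        rw [← h4]
        exact eq_neg_of_add_eq_zero_right h0
      rw [h3, norm_neg]
      refine (norm_sum_le _ _).trans (Finset.sum_le_sum fun j _ => ?_)
      rw [norm_mul, norm_pow, Complex.norm_intCast]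
      exact mul_le_mul_of_nonneg_right (hH _) (pow_nonneg (norm_nonneg _) _)
    rw [norm_mul, norm_pow, Complex.norm_intCast, ← Finset.mul_sum,
      ← Finset.sum_range (fun j => ‖e i‖ ^ j)] at h2
    have h3 := mul_geom_sum ‖e i‖ n
    set r := ‖e i‖ with hr
    set A := |(a (Fin.last n) : ℝ)| with hA
    set s := ∑ j ∈ Finset.range n, r ^ j with hs
    have hr0 : 0 < r ^ n := pow_pos (by linarith) n
    have h4 : A * r ^ n * (r - 1) ≤ H * r ^ n := by
      calc A * r ^ n * (r - 1) ≤ H * s * (r - 1) :=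
            mul_le_mul_of_nonneg_right h2 (by linarith)
        _ = H * ((r - 1) * s) := by ring
        _ = H * (r ^ n - 1) := by rw [h3]
        _ ≤ H * r ^ n := mul_le_mul_of_nonneg_left (by linarith) hH0
    have h5 : A * (r - 1) ≤ H := by
      have h6 : A * (r - 1) * r ^ n ≤ H * r ^ n := by linarith
      exact le_of_mul_le_mul_right h6 hr0
    have h6 := hH (Fin.last n)
    rw [← hA] at h6
    linarith

theorem pg_of_pen {n : ℕ} (a : Fin (n + 1) → ℤ) (ha : Good a) (P R : Matrix (Fin n) (Fin n) ℤ)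
    (hP : P.IsSymm) (hR : R.IsSymm) (hd : P.det ≠ 0) (c : ℤ) (h : pen P R = C c * pol a) :
    PG P R := by
  obtain ⟨_, e, he1, he2⟩ := ha
  refine ⟨hP, hR, hd, e, he1, fun i => ?_⟩
  rw [← pen_eval, h, map_mul, pol_eval, roots_zero a e he2 i, mul_zero]

theorem pg_of_pen_scale {n : ℕ} (a : Fin (n + 1) → ℤ) (ha : Good a)
    (G S : Matrix (Fin n) (Fin n) ℤ) (hG : G.IsSymm) (hS : S.IsSymm) (hd : G.det ≠ 0) (c : ℤ)
    (h : pen (a (Fin.last n) • G) S = C c * pol a) : PG G S := by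
  obtain ⟨hl, e, he1, he2⟩ := ha
  have hl' : ((a (Fin.last n) : ℤ) : ℂ) ≠ 0 := Int.cast_ne_zero.2 hl
  refine ⟨hG, hS, hd, fun i => (a (Fin.last n) : ℂ) * e i,
    fun i j hij => he1 (mul_left_cancel₀ hl' hij), fun i => ?_⟩
  have h1 : ((a (Fin.last n) : ℂ) * e i) • G.map (Int.cast : ℤ → ℂ) =
      e i • (a (Fin.last n) • G).map (Int.cast : ℤ → ℂ) := by
    ext u v
    simp only [Matrix.smul_apply, Matrix.map_apply, smul_eq_mul, Int.cast_mul]
    ring
  change (((a (Fin.last n) : ℂ) * e i) • G.map (Int.cast : ℤ → ℂ) -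
    S.map (Int.cast : ℤ → ℂ)).det = 0
  rw [h1, ← pen_eval, h, map_mul, pol_eval, roots_zero a e he2 i, mul_zero]

end Pool.Agent.Helper32.DZ
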