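import Pool.Agent.Helper32.DZ.PencilEven
import Pool.Agent.Helper32.DZ.Roots
import Pool.Agent.Helper32.DZ.RealForm
import Pool.Agent.Helper32.DZ.HermSort
import Pool.Agent.Helper32.DZ.CellGen

set_option autoImplicit false

/-!
DZ-27 CellEven. Every `f` of even degree `m + 1` with an integral point has a reduced pair in some cell.

PROOF. `pencil_even` (`n = m + 1`) gives `A0`, `B0`; `PG A0 B0` by `pg_of_pen` (`c = ± 1`, `det A0 = ± a_last ≠ 0`).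
`Good a` gives `e` with `∑ a_i z^i = a_last ∏ (z - e i)`; `det (e_i A0 - B0) = 0` by `pen_eval`, `pol_eval`;
conjugates by `roots_conj`. `real_form` with `D z = max 1 ‖z‖`, `ρ = 1`: `Φ0` with
`det Φ0 = |a_last| ∏ max 1 ‖e i‖ ≤ ∑ |a_i| ≤ (m + 2) H` (`roots_mahler`). `herm_sort` (constant `C1`): `g`,
`Φ = (toR g)^t Φ0 (toR g)` positive definite, diagonal monotone with product `≤ C1 (m+2) H`.
`P = g^t A0 g`, `R = g^t B0 g`: `pg_conj`, `pen_conj` (`det g ^ 2 = 1`), `adjSq_conj`;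
`ev (toR P) u w = ev (toR A0) (g u) (g w)` and the same for `Φ`, so the inequalities transfer. `cell_gen` with `ρ = 1`.
`K = (4 (m+1))^(2(m+1)) C1 (m+2)`.
-/

open Polynomial Matrix

namespace Pool.Agent.Helper32.DZ

private theorem ce_ev {N : ℕ} (G M : Matrix (Fin N) (Fin N) ℝ) (u w : Fin N → ℝ) :
    ev (Gᵀ * M * G) u w = ev M (G.mulVec u) (G.mulVec w) := by
  unfold ev
  rw [← Matrix.mulVec_mulVec, ← Matrix.mulVec_mulVec, Matrix.dotProduct_mulVec,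
    Matrix.vecMul_transpose]

private theorem ce_toR {N : ℕ} (g A : Matrix (Fin N) (Fin N) ℤ) :
    toR (gᵀ * A * g) = (toR g)ᵀ * toR A * toR g := by
  have hmul : ∀ A B : Matrix (Fin N) (Fin N) ℤ, toR (A * B) = toR A * toR B := by
    intro A B
    exact Matrix.map_mul (f := Int.castRingHom ℝ)
  rw [hmul, hmul]
  rfl

private theorem ce_det {N : ℕ} (g : Matrix (Fin N) (Fin N) ℤ) :
    (toR g).det = ((g.det : ℤ) : ℝ) :=
  (RingHom.map_det (Int.castRingHom ℝ) g).symm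

private theorem ce_pos {N : ℕ} (g : Matrix (Fin N) (Fin N) ℤ) (hg : g.det = 1 ∨ g.det = -1)
    (Φ : Matrix (Fin N) (Fin N) ℝ) (hΦ : Φ.PosDef) : ((toR g)ᵀ * Φ * toR g).PosDef := by
  have hinj : Function.Injective (toR g).mulVec := by
    refine Matrix.mulVec_injective_iff_isUnit.2 ?_
    rw [Matrix.isUnit_iff_isUnit_det, ce_det, isUnit_iff_ne_zero]
    rcases hg with h | h
    · rw [h]
      simp
    · rw [h]
      simp
  have h := hΦ.conjTranspose_mul_mul_same hinj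
  rwa [Matrix.conjTranspose_eq_transpose_of_trivial] at h

theorem cell_even (m : ℕ) (hm : Odd m) : ∃ K : ℝ, 1 ≤ K ∧ ∀ H : ℕ, 1 ≤ H →
    ∀ a : Fin (m + 1 + 1) → ℤ, (∀ i, |a i| ≤ (H : ℤ)) → Good a → HasPt a →
    ∃ (A B : Matrix (Fin (m + 1)) (Fin (m + 1)) ℤ) (κ : Fin (m + 1) → ℤ),
      PG A B ∧ pen A B = C ((-1) ^ ((m + 1) / 2)) * pol a ∧ AdjSq ((-1) ^ ((m + 1) / 2 - 1)) A ∧
      Monotone κ ∧ (2 : ℝ) ^ (2 * ∑ i, κ i) ≤ K * H ∧
      ∀ U ∈ Tr κ, ∀ i j, |(((Uᵀ * A * U) i j : ℤ) : ℝ)| < (2 : ℝ) ^ (κ i + κ j) ∧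
        |(((Uᵀ * B * U) i j : ℤ) : ℝ)| < (2 : ℝ) ^ (κ i + κ j) := by
  obtain ⟨C1, hC1, hs⟩ := herm_sort (m + 1)
  have hb1 : (1 : ℝ) ≤ 4 * ((m + 1 : ℕ) : ℝ) := by
    push_cast
    have : (0 : ℝ) ≤ (m : ℝ) := Nat.cast_nonneg m
    linarith
  have hb2 : (1 : ℝ) ≤ (4 * ((m + 1 : ℕ) : ℝ)) ^ (2 * (m + 1)) := one_le_pow₀ hb1
  have hb3 : (1 : ℝ) ≤ (m : ℝ) + 2 := by
    have : (0 : ℝ) ≤ (m : ℝ) := Nat.cast_nonneg m
    linarith
  refine ⟨(4 * ((m + 1 : ℕ) : ℝ)) ^ (2 * (m + 1)) * (C1 * ((m : ℝ) + 2)), ?_, ?_⟩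
  · have h1 : (1 : ℝ) ≤ C1 * ((m : ℝ) + 2) := by nlinarith
    nlinarith
  intro H hH a haH hgood hpt
  obtain ⟨A0, B0, hA0, hB0, hpen, hdet, hadj⟩ :=
    pencil_even (m + 1) hm.add_one (Nat.succ_pos m) a hgood.1 hpt
  have hd0 : A0.det ≠ 0 := by
    rw [hdet]
    exact mul_ne_zero (pow_ne_zero _ (by norm_num)) hgood.1
  have hPG0 : PG A0 B0 := pg_of_pen a hgood A0 B0 hA0 hB0 hd0 _ hpen
  obtain ⟨hl, e, he, hev⟩ := hgood
  have hr : ∀ i, (e i • A0.map (Int.cast : ℤ → ℂ) - B0.map (Int.cast : ℤ → ℂ)).det = 0 := by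
    intro i
    rw [← pen_eval, hpen, map_mul, pol_eval, hev (e i),
      Finset.prod_eq_zero (Finset.mem_univ i) (sub_self _), mul_zero, mul_zero]
  obtain ⟨Φ0, hΦ0, hΦd, hΦP, hΦR⟩ := real_form A0 B0 hA0 hB0 hd0 e he hr
    (roots_conj a hl e hev) (fun z => max 1 ‖z‖) (fun z => le_max_left _ _)
    (fun z => by simp) 1 (fun i => by
      rw [one_mul]
      exact le_max_right _ _)
  obtain ⟨g, hgd, hgp, hgm⟩ := hs Φ0 hΦ0
  have hP' : ∀ u w, (ev (toR (gᵀ * A0 * g)) u w) ^ 2 ≤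
      ev ((toR g)ᵀ * Φ0 * toR g) u u * ev ((toR g)ᵀ * Φ0 * toR g) w w := by
    intro u w
    rw [ce_toR, ce_ev, ce_ev, ce_ev]
    exact hΦP _ _
  have hR' : ∀ u w, (ev (toR (gᵀ * B0 * g)) u w) ^ 2 ≤ (1 : ℝ) ^ 2 *
      (ev ((toR g)ᵀ * Φ0 * toR g) u u * ev ((toR g)ᵀ * Φ0 * toR g) w w) := by
    intro u w
    rw [ce_toR, ce_ev, ce_ev, ce_ev]
    exact hΦR _ _
  obtain ⟨κ, hκm, hκs, hκU⟩ := cell_gen (gᵀ * A0 * g) (gᵀ * B0 * g)
    ((toR g)ᵀ * Φ0 * toR g) (ce_pos g hgd Φ0 hΦ0) 1 one_pos hP' hR' hgm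
  have hg2 : g.det ^ 2 = 1 := by
    rcases hgd with h | h
    · rw [h]
      norm_num
    · rw [h]
      norm_num
  refine ⟨gᵀ * A0 * g, gᵀ * B0 * g, κ, pg_conj A0 B0 g hPG0 hgd, ?_,
    adjSq_conj _ A0 g hadj hgd, hκm, ?_, ?_⟩
  · rw [pen_conj, hg2, hpen, map_one, one_mul]
  · refine hκs.trans ?_
    rw [mul_assoc _ (C1 * ((m : ℝ) + 2)) (H : ℝ)]
    refine mul_le_mul_of_nonneg_left ?_ (zero_le_one.trans hb2)
    refine hgp.trans ?_
    rw [mul_assoc C1 ((m : ℝ) + 2) (H : ℝ)]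
    refine mul_le_mul_of_nonneg_left ?_ (zero_le_one.trans hC1)
    have h1 : |((A0.det : ℤ) : ℝ)| = |((a (Fin.last (m + 1)) : ℤ) : ℝ)| := by
      rw [hdet]
      push_cast
      rw [abs_mul, abs_pow, abs_neg, abs_one, one_pow, one_mul]
    rw [hΦd, h1]
    refine (roots_mahler a hl e hev).trans ?_
    calc ∑ i, |((a i : ℤ) : ℝ)| ≤ ∑ _i : Fin (m + 1 + 1), (H : ℝ) := by
          refine Finset.sum_le_sum fun i _ => ?_
          have h2 := haH i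
          have h3 : ((|a i| : ℤ) : ℝ) ≤ ((H : ℤ) : ℝ) := by exact_mod_cast h2
          rw [Int.cast_abs] at h3
          exact_mod_cast h3
      _ = ((m : ℝ) + 2) * H := by
          rw [Finset.sum_const, Finset.card_univ, Fintype.card_fin, nsmul_eq_mul]
          push_cast
          ring
  · intro U hU i j
    have h1 := hκU U hU i j
    rwa [one_mul] at h1

end Pool.Agent.Helper32.DZ
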