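import Pool.Agent.Helper32.DZ.Jac
import Pool.Agent.Helper32.DZ.Props

set_option autoImplicit false

/-!
DZ-54 PropOf. The local condition `PropA` for all translates of the pencil of a point with denominator `τ w^2`.

PROOF. Let `p` be a prime with `p ∣ det (g^t A g) = det A = ± a_n` exactly once, `p ∤ τ`.
STEP 1: `p ∤ s`. Otherwise `p ∣ w` (`s = τ w^2`), `p^2 ∣ s`, `p ∤ r`, and
`c^2 = ∑ a_i r^i s^(n-i) = a_n r^n` modulo `p^2` (all other terms are divisible by `s`), so `p ∣ c`, `p^2 ∣ a_n r^n`, `p^2 ∣ a_n`: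
contradiction.
STEP 2: `A' = g^t A g`, `adj A' = adj g * adj A * (adj g)^t` (`Matrix.adjugate_mul_distrib`, `adjugate_transpose`). With
`y` = row `0` of `adj g`, `l = Fin.last k`: `adj A' 0 0 = ∑ y_i y_j adj A i j`, and by `jac` (and the symmetry of `adj A`)
`adj A' 0 0 * adj A l l = ∑ y_i y_j adj A i l adj A l j = t^2` modulo `det A`, `t = ∑ y_i adj A i l`. So modulo `p`:
`ε s^k adj A' 0 0 = t^2`, `s^k = τ^k w^(2k) = τ (τ^((k-1)/2) w^k)^2`, `τ`, `w` invertible modulo `p`, `ε^2 = 1`: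
`ε τ adj A' 0 0 = (t / (τ^((k-1)/2) w^k))^2`, and `adj A' 0 0 = det (A'.submatrix succ succ)`
(`Matrix.adjugate_fin_succ_eq_det_submatrix`). For `p = 2` every element of `ZMod 2` is a square (or the same argument).
-/

open Matrix

namespace Pool.Agent.Helper32.DZ

private theorem po_step1 (k : ℕ) (a : Fin (k + 1 + 1) → ℤ) (r s w c τ : ℤ) (h : IsCoprime r s)
    (hs : s = τ * w ^ 2)
    (hc : c ^ 2 = ∑ i : Fin (k + 1 + 1), a i * r ^ (i : ℕ) * s ^ (k + 1 - (i : ℕ)))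
    (p : ℕ) (hp : p.Prime) (h1 : (p : ℤ) ∣ a (Fin.last (k + 1)))
    (h2 : ¬ ((p : ℤ) ^ 2 ∣ a (Fin.last (k + 1)))) (h3 : ¬ ((p : ℤ) ∣ τ)) : ¬ ((p : ℤ) ∣ s) := by
  intro hps
  have hpp : Prime (p : ℤ) := Nat.prime_iff_prime_int.1 hp
  have hw : (p : ℤ) ∣ w := by
    rw [hs] at hps
    rcases hpp.dvd_or_dvd hps with h4 | h4
    · exact absurd h4 h3
    · exact hpp.dvd_of_dvd_pow h4
  have hs2 : (p : ℤ) ^ 2 ∣ s := by
    rw [hs]
    exact Dvd.dvd.mul_left (pow_dvd_pow_of_dvd hw 2) _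
  have hpr : IsCoprime ((p : ℤ) ^ 2) (r ^ (k + 1)) := by
    have h5 : IsCoprime r (p : ℤ) := h.of_isCoprime_of_dvd_right hps
    exact (h5.symm.pow (m := 2) (n := k + 1))
  rw [Fin.sum_univ_castSucc] at hc
  have h6 : s ∣ ∑ i : Fin (k + 1), a i.castSucc * r ^ ((i.castSucc : Fin (k + 1 + 1)) : ℕ) *
      s ^ (k + 1 - ((i.castSucc : Fin (k + 1 + 1)) : ℕ)) := by
    refine Finset.dvd_sum fun i _ => ?_
    refine Dvd.dvd.mul_left (dvd_pow_self s ?_) _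
    have := i.isLt
    rw [Fin.val_castSucc]
    omega
  have h7 : s ^ (k + 1 - ((Fin.last (k + 1) : Fin (k + 1 + 1)) : ℕ)) = 1 := by
    rw [Fin.val_last, Nat.sub_self, pow_zero]
  rw [h7, mul_one, Fin.val_last] at hc
  have h8 : (p : ℤ) ∣ c := by
    refine hpp.dvd_of_dvd_pow (n := 2) ?_
    rw [hc]
    exact dvd_add (hps.trans h6) (Dvd.dvd.mul_right h1 _)
  have h9 : (p : ℤ) ^ 2 ∣ a (Fin.last (k + 1)) * r ^ (k + 1) := by
    have h10 : (p : ℤ) ^ 2 ∣ c ^ 2 := pow_dvd_pow_of_dvd h8 2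
    rw [hc] at h10
    exact (dvd_add_right (hs2.trans h6)).1 h10
  exact h2 (hpr.dvd_of_dvd_mul_right h9)

private theorem po_adj (k : ℕ) (A g : Matrix (Fin (k + 1)) (Fin (k + 1)) ℤ) (hA : A.IsSymm) :
    ∃ t : ℤ, A.det ∣ ((gᵀ * A * g).submatrix Fin.succ Fin.succ).det *
      A.adjugate (Fin.last k) (Fin.last k) - t ^ 2 := by
  set l : Fin (k + 1) := Fin.last k with hl
  set B := A.adjugate with hB
  have hBs : ∀ i j, B i j = B j i := by
    intro i j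
    have h1 : Bᵀ = B := by
      rw [hB, Matrix.adjugate_transpose, hA.eq]
    calc B i j = Bᵀ j i := rfl
      _ = B j i := by rw [h1]
  set y : Fin (k + 1) → ℤ := fun i => g.adjugate 0 i with hy
  refine ⟨∑ i, y i * B i l, ?_⟩
  have h1 : ((gᵀ * A * g).submatrix Fin.succ Fin.succ).det = (gᵀ * A * g).adjugate 0 0 := by
    rw [Matrix.adjugate_fin_succ_eq_det_submatrix]
    simp
  have h2 : (gᵀ * A * g).adjugate 0 0 = ∑ i, ∑ j, y i * y j * B i j := by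
    rw [Matrix.adjugate_mul_distrib, Matrix.adjugate_mul_distrib, ← Matrix.adjugate_transpose,
      ← hB, Matrix.mul_apply]
    refine Finset.sum_congr rfl fun i _ => ?_
    rw [Matrix.mul_apply, Finset.mul_sum]
    refine Finset.sum_congr rfl fun j _ => ?_
    rw [Matrix.transpose_apply]
    simp only [hy]
    ring
  have h3 : (∑ i, ∑ j, y i * y j * B i j) * B l l - (∑ i, y i * B i l) ^ 2 =
      ∑ i, ∑ j, y i * y j * (B i j * B l l - B i l * B l j) := by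
    rw [sq, Finset.sum_mul_sum, Finset.sum_mul, ← Finset.sum_sub_distrib]
    refine Finset.sum_congr rfl fun i _ => ?_
    rw [Finset.sum_mul, ← Finset.sum_sub_distrib]
    refine Finset.sum_congr rfl fun j _ => ?_
    rw [hBs l j]
    ring
  rw [h1, h2, h3]
  exact Finset.dvd_sum fun i _ => Finset.dvd_sum fun j _ => Dvd.dvd.mul_left (jac A i j l) _

theorem propA_of (k : ℕ) (hk : Odd k) (a : Fin (k + 1 + 1) → ℤ) (r s w c τ ε : ℤ)
    (hε : ε = 1 ∨ ε = -1) (h : IsCoprime r s) (hs : s = τ * w ^ 2) (hs0 : s ≠ 0)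
    (hc : c ^ 2 = ∑ i : Fin (k + 1 + 1), a i * r ^ (i : ℕ) * s ^ (k + 1 - (i : ℕ)))
    (A : Matrix (Fin (k + 1)) (Fin (k + 1)) ℤ) (hA : A.IsSymm)
    (hdet : A.det = a (Fin.last (k + 1)) ∨ A.det = -a (Fin.last (k + 1)))
    (hadj : A.adjugate (Fin.last k) (Fin.last k) = ε * s ^ k)
    (g : Matrix (Fin (k + 1)) (Fin (k + 1)) ℤ) (hg : g.det = 1 ∨ g.det = -1) :
    PropA τ ε (gᵀ * A * g) := by
  intro p hp h1 h2 h3
  have hgg : g.det * g.det = 1 := by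
    rcases hg with h | h <;> rw [h] <;> norm_num
  have hdd : (gᵀ * A * g).det = A.det := by
    rw [Matrix.det_mul, Matrix.det_mul, Matrix.det_transpose]
    calc g.det * A.det * g.det = (g.det * g.det) * A.det := by ring
      _ = A.det := by rw [hgg, one_mul]
  rw [hdd] at h1 h2
  have h4 : (p : ℤ) ∣ a (Fin.last (k + 1)) := by
    rcases hdet with h | h
    · rw [← h]; exact h1
    · rw [h] at h1; exact (dvd_neg).1 h1
  have h5 : ¬ ((p : ℤ) ^ 2 ∣ a (Fin.last (k + 1))) := by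
    rcases hdet with h | h
    · rw [← h]; exact h2
    · rw [h] at h2; exact fun h6 => h2 ((dvd_neg).2 h6)
  have h6 := po_step1 k a r s w c τ h hs hc p hp h4 h5 h3
  obtain ⟨t, ht⟩ := po_adj k A g hA
  haveI : Fact p.Prime := ⟨hp⟩
  have hs' : ((s : ℤ) : ZMod p) ≠ 0 := fun h7 => h6 ((ZMod.intCast_zmod_eq_zero_iff_dvd s p).1 h7)
  have hτ' : ((τ : ℤ) : ZMod p) ≠ 0 := fun h7 => h3 ((ZMod.intCast_zmod_eq_zero_iff_dvd τ p).1 h7)
  have hsw : ((s : ℤ) : ZMod p) = (τ : ZMod p) * (w : ZMod p) ^ 2 := by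
    rw [hs]; push_cast; ring
  have hw' : ((w : ℤ) : ZMod p) ≠ 0 := by
    intro h7
    rw [hsw, h7] at hs'
    apply hs'
    ring
  rw [hadj] at ht
  set D : ℤ := ((gᵀ * A * g).submatrix Fin.succ Fin.succ).det with hD
  have h8 : (((D * (ε * s ^ k) - t ^ 2 : ℤ)) : ZMod p) = 0 :=
    (ZMod.intCast_zmod_eq_zero_iff_dvd _ p).2 (h1.trans ht)
  push_cast at h8
  rw [hsw] at h8
  obtain ⟨j, hj⟩ := hk
  have hu : ((τ : ZMod p) ^ j * (w : ZMod p) ^ k) ≠ 0 :=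
    mul_ne_zero (pow_ne_zero _ hτ') (pow_ne_zero _ hw')
  have h9 : ((τ : ZMod p) * (w : ZMod p) ^ 2) ^ k =
      (τ : ZMod p) * ((τ : ZMod p) ^ j * (w : ZMod p) ^ k) ^ 2 := by
    rw [mul_pow, mul_pow, ← pow_mul, ← pow_mul, ← pow_mul]
    have e1 : (τ : ZMod p) ^ k = (τ : ZMod p) * (τ : ZMod p) ^ (j * 2) := by
      rw [hj, pow_succ, mul_comm 2 j, mul_comm]
    rw [e1, mul_comm 2 k]
    ring
  rw [h9] at h8
  refine ⟨(t : ZMod p) * ((τ : ZMod p) ^ j * (w : ZMod p) ^ k)⁻¹, ?_⟩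
  push_cast
  have h10 : (D : ZMod p) * ((ε : ZMod p) * ((τ : ZMod p) *
      ((τ : ZMod p) ^ j * (w : ZMod p) ^ k) ^ 2)) = (t : ZMod p) ^ 2 := sub_eq_zero.1 h8
  generalize (τ : ZMod p) ^ j * (w : ZMod p) ^ k = u at hu h10 ⊢
  have h11 : (t : ZMod p) * u⁻¹ * ((t : ZMod p) * u⁻¹) = (t : ZMod p) ^ 2 * (u⁻¹ ^ 2) := by ring
  rw [h11, ← h10]
  have h12 : u ^ 2 * u⁻¹ ^ 2 = 1 := by
    rw [← mul_pow, mul_inv_cancel₀ hu, one_pow]
  calc (ε : ZMod p) * (τ : ZMod p) * (D : ZMod p)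
      = (ε : ZMod p) * (τ : ZMod p) * (D : ZMod p) * (u ^ 2 * u⁻¹ ^ 2) := by rw [h12, mul_one]
    _ = _ := by ring

end Pool.Agent.Helper32.DZ
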