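import Pool.Agent.Helper32.DZ.PencilOddS
import Pool.Agent.Helper32.DZ.Roots
import Pool.Agent.Helper32.DZ.RealForm
import Pool.Agent.Helper32.DZ.HermSort
import Pool.Agent.Helper32.DZ.CellGen

set_option autoImplicit false

/-!
DZ-58 CellOddS. As DZ-28 (CellOdd.lean, copy the proof) with `HasO a` and `pencil_odd_s` instead of `HasPt a` and `pencil_odd`.
-/

open Polynomial Matrix

namespace Pool.Agent.Helper32.DZ

private theorem cos_toR {N : ℕ} (M g : Matrix (Fin N) (Fin N) ℤ) :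
    toR (gᵀ * M * g) = (toR g)ᵀ * toR M * toR g := by
  have h : (gᵀ * M * g).map (Int.castRingHom ℝ) = (g.map (Int.castRingHom ℝ))ᵀ *
      M.map (Int.castRingHom ℝ) * g.map (Int.castRingHom ℝ) := by
    rw [Matrix.map_mul, Matrix.map_mul, Matrix.transpose_map]
  exact h

private theorem cos_ev {N : ℕ} (A g : Matrix (Fin N) (Fin N) ℝ) (u w : Fin N → ℝ) :
    ev (gᵀ * A * g) u w = ev A (g *ᵥ u) (g *ᵥ w) := by
  unfold ev
  rw [← Matrix.mulVec_mulVec, ← Matrix.mulVec_mulVec, Matrix.dotProduct_mulVec u gᵀ,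
    Matrix.vecMul_transpose]

private theorem cos_det {N : ℕ} (g : Matrix (Fin N) (Fin N) ℤ) (hg : g.det = 1 ∨ g.det = -1) :
    (toR g).det ≠ 0 := by
  have h : (toR g).det = ((g.det : ℤ) : ℝ) := (Int.cast_det g).symm
  rw [h]
  rcases hg with h1 | h1 <;> rw [h1] <;> norm_num

theorem cell_odd_s (d : ℕ) (hd : Odd d) (h3 : 3 ≤ d) : ∃ c : ℕ, ∀ H : ℕ, 1 ≤ H →
    ∀ a : Fin (d + 1) → ℤ, (∀ i, |a i| ≤ (H : ℤ)) → Good a → HasO a →
    ∃ (G S : Matrix (Fin d) (Fin d) ℤ) (κ : Fin d → ℤ),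
      PG G S ∧ NegSq (a (Fin.last d)) S ∧
      pen (a (Fin.last d) • G) S =
        C (-(-1) ^ ((d + 1) / 2) * (a (Fin.last d)) ^ (d - 1)) * pol a ∧
      Monotone κ ∧ ∑ i, κ i ≤ (c : ℤ) ∧
      ∀ U ∈ Tr κ, ∀ i j, |(((Uᵀ * G * U) i j : ℤ) : ℝ)| < (2 : ℝ) ^ (κ i + κ j) ∧
        |(((Uᵀ * S * U) i j : ℤ) : ℝ)| < 2 * (H : ℝ) * (2 : ℝ) ^ (κ i + κ j) := by
  obtain ⟨C1, hC1, hherm⟩ := herm_sort d
  obtain ⟨c, hc⟩ : ∃ c : ℕ, (4 * (d : ℝ)) ^ (2 * d) * C1 ≤ (2 : ℝ) ^ (2 * (c : ℤ)) := by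
    obtain ⟨c, hc⟩ := pow_unbounded_of_one_lt ((4 * (d : ℝ)) ^ (2 * d) * C1)
      (one_lt_two : (1 : ℝ) < 2)
    refine ⟨c, hc.le.trans ?_⟩
    rw [← zpow_natCast]
    exact zpow_le_zpow_right₀ one_le_two (by omega)
  refine ⟨c, fun H hH a ha hgood hpt => ?_⟩
  have hl := hgood.1
  obtain ⟨G0, S0, hG, hS, hdet, hneg, hpen⟩ := pencil_odd_s d hd a hl hpt
  have hdet1 : G0.det = 1 ∨ G0.det = -1 := by
    rw [hdet]
    exact neg_one_pow_eq_or ℤ _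
  have hdet0 : G0.det ≠ 0 := by
    rcases hdet1 with h | h <;> rw [h] <;> norm_num
  have hPG := pg_of_pen_scale a hgood G0 S0 hG hS hdet0 _ hpen
  obtain ⟨e, he, hfac⟩ := hgood.2
  have hlC : ((a (Fin.last d) : ℤ) : ℂ) ≠ 0 := Int.cast_ne_zero.2 hl
  have hr : ∀ i, ((((a (Fin.last d) : ℤ) : ℂ) * e i) • G0.map (Int.cast : ℤ → ℂ) -
      S0.map (Int.cast : ℤ → ℂ)).det = 0 := by
    intro i
    have h1 := pen_eval (a (Fin.last d) • G0) S0 (e i)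
    rw [hpen, map_mul, pol_eval, hfac (e i), Finset.prod_eq_zero (Finset.mem_univ i)
      (sub_self (e i)), mul_zero, mul_zero] at h1
    rw [h1]
    congr 1
    ext k l
    simp only [Matrix.sub_apply, Matrix.smul_apply, Matrix.map_apply, smul_eq_mul]
    push_cast
    ring
  have hconj : ∀ i, ∃ j, ((a (Fin.last d) : ℤ) : ℂ) * e j =
      (starRingEnd ℂ) (((a (Fin.last d) : ℤ) : ℂ) * e i) := by
    intro i
    obtain ⟨j, hj⟩ := roots_conj a hl e hfac i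
    refine ⟨j, ?_⟩
    rw [hj, map_mul, map_intCast]
  have hHr : ∀ i, |(a i : ℝ)| ≤ (H : ℝ) := by
    intro i
    have h1 : ((|a i| : ℤ) : ℝ) ≤ ((H : ℤ) : ℝ) := Int.cast_le.2 (ha i)
    push_cast at h1
    exact h1
  have hH0 : (0 : ℝ) < H := by exact_mod_cast hH
  obtain ⟨Φ0, hΦ0, hΦdet, hΦP, hΦR⟩ := real_form G0 S0 hG hS hdet0
    (fun i => ((a (Fin.last d) : ℤ) : ℂ) * e i)
    (fun i j hij => he (mul_left_cancel₀ hlC hij)) hr hconj (fun _ => 1) (fun _ => le_rfl)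
    (fun _ => rfl) (2 * (H : ℝ)) (fun i => by
      rw [mul_one]
      exact roots_bound a hl e hfac H hHr i)
  have hΦd1 : Φ0.det = 1 := by
    rw [hΦdet]
    rcases hdet1 with h | h <;> rw [h] <;> simp
  obtain ⟨g, hg, hprod, hmono⟩ := hherm Φ0 hΦ0
  rw [hΦd1, mul_one] at hprod
  have hgd := cos_det g hg
  have hΦ : ((toR g)ᵀ * Φ0 * toR g).PosDef := by
    have h1 := hΦ0.conjTranspose_mul_mul_same (B := toR g)
      (Matrix.mulVec_injective_of_det_ne_zero hgd)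
    rwa [Matrix.conjTranspose_eq_transpose_of_trivial] at h1
  obtain ⟨κ, hκm, hκs, hκU⟩ := cell_gen (gᵀ * G0 * g) (gᵀ * S0 * g) ((toR g)ᵀ * Φ0 * toR g) hΦ
    (2 * (H : ℝ)) (by positivity)
    (fun u w => by
      rw [cos_toR, cos_ev, cos_ev, cos_ev]
      exact hΦP _ _)
    (fun u w => by
      rw [cos_toR, cos_ev, cos_ev, cos_ev]
      exact hΦR _ _) hmono
  refine ⟨gᵀ * G0 * g, gᵀ * S0 * g, κ, pg_conj G0 S0 g hPG hg, negSq_conj _ S0 g hneg, ?_, hκm, ?_,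
    hκU⟩
  · have h1 : a (Fin.last d) • (gᵀ * G0 * g) = gᵀ * (a (Fin.last d) • G0) * g := by
      rw [Matrix.mul_smul, Matrix.smul_mul]
    have h2 : g.det ^ 2 = 1 := by
      rcases hg with h | h <;> rw [h] <;> norm_num
    rw [h1, pen_conj, h2, hpen, C_1, one_mul]
  · have h1 : (2 : ℝ) ^ (2 * ∑ i, κ i) ≤ (2 : ℝ) ^ (2 * (c : ℤ)) := by
      refine hκs.trans (le_trans ?_ hc)
      exact mul_le_mul_of_nonneg_left hprod (by positivity)
    have h2 := (zpow_le_zpow_iff_right₀ (one_lt_two : (1 : ℝ) < 2)).1 h1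
    omega

end Pool.Agent.Helper32.DZ
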