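import Pool.Agent.Helper32.DZ.Eig

set_option autoImplicit false

/-!
DZ-05 EigConj. For an integral (real) pencil the eigenvectors for conjugate eigenvalues are proportional to
conjugates.

PROOF. `P`, `R` have real entries. Let `v_i` be column `i` of `V`, `w` its conjugate: `(conj (e_i) P - R) w = 0`
because `(e_i P - R) v_i = 0` (from `V^t (e_i P - R) V = diagonal (α_k (e_i - e_k))`, column `i` is zero and
`V^t` is invertible). Write `w = V c` (`det V ≠ 0`). Then
`0 = V^t (e_j P - R) V c = diagonal (α_k (e_j - e_k)) c`, so `c_k = 0` for `k ≠ j`: `w = c_j v_j`, and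
`c_j ≠ 0` because `v_i ≠ 0`. So with `γ = 1/c_j`: `v_j = γ w`, i.e. `V k j = γ * conj (V k i)`, `γ ≠ 0`.
-/

open Matrix

namespace Pool.Agent.Helper32.DZ

theorem eig_conj {N : ℕ} (P R : Matrix (Fin N) (Fin N) ℤ) (e : Fin N → ℂ)
    (he : Function.Injective e) (V : Matrix (Fin N) (Fin N) ℂ) (α : Fin N → ℂ) (hV : V.det ≠ 0)
    (hα : ∀ i, α i ≠ 0)
    (h1 : Vᵀ * P.map (Int.cast : ℤ → ℂ) * V = Matrix.diagonal α)
    (h2 : Vᵀ * R.map (Int.cast : ℤ → ℂ) * V = Matrix.diagonal (fun i => α i * e i))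
    (i j : Fin N) (hij : e j = (starRingEnd ℂ) (e i)) :
    ∃ γ : ℂ, γ ≠ 0 ∧ ∀ k, V k j = γ * (starRingEnd ℂ) (V k i) := by
  have hVu : IsUnit V.det := isUnit_iff_ne_zero.2 hV
  have hTu : IsUnit (Vᵀ).det := by rw [Matrix.det_transpose]; exact hVu
  have key : ∀ l : Fin N, Vᵀ * (e l • P.map (Int.cast : ℤ → ℂ) - R.map (Int.cast : ℤ → ℂ)) * V =
      Matrix.diagonal (fun k => α k * (e l - e k)) := by
    intro l
    rw [Matrix.mul_sub, Matrix.sub_mul, Matrix.mul_smul, Matrix.smul_mul, h1, h2]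
    ext a b
    by_cases hab : a = b
    · subst hab
      simp only [Matrix.sub_apply, Matrix.smul_apply, Matrix.diagonal_apply_eq, smul_eq_mul]
      ring
    · simp [Matrix.diagonal_apply_ne _ hab]
  have hinj : ∀ x : Fin N → ℂ, Vᵀ *ᵥ x = 0 → x = 0 := by
    intro x hx
    have h := congrArg (fun y => (Vᵀ)⁻¹ *ᵥ y) hx
    simpa [Matrix.mulVec_mulVec, Matrix.nonsing_inv_mul _ hTu] using h
  have hvi : (e i • P.map (Int.cast : ℤ → ℂ) - R.map (Int.cast : ℤ → ℂ)) *ᵥ (fun k => V k i) = 0 := by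
    apply hinj
    have hcol : (fun k => V k i) = V *ᵥ (Pi.single i 1) := by
      ext k; simp
    rw [hcol, Matrix.mulVec_mulVec, Matrix.mulVec_mulVec, key i]
    ext k
    rw [Matrix.mulVec_diagonal]
    by_cases hk : k = i
    · subst hk; simp
    · simp [hk]
  have hw : (e j • P.map (Int.cast : ℤ → ℂ) - R.map (Int.cast : ℤ → ℂ)) *ᵥ
      (fun k => (starRingEnd ℂ) (V k i)) = 0 := by
    ext k
    have h := congrFun hvi k
    simp only [Matrix.mulVec, dotProduct, Matrix.sub_apply, Matrix.smul_apply, Matrix.map_apply,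
      smul_eq_mul, Pi.zero_apply] at h ⊢
    have h' := congrArg (starRingEnd ℂ) h
    rw [map_sum, map_zero] at h'
    rw [← h']
    refine Finset.sum_congr rfl (fun l _ => ?_)
    rw [map_mul, map_sub, map_mul, hij]
    simp
  obtain ⟨c, hc⟩ : ∃ c : Fin N → ℂ, c = V⁻¹ *ᵥ (fun k => (starRingEnd ℂ) (V k i)) := ⟨_, rfl⟩
  have hVc : V *ᵥ c = (fun k => (starRingEnd ℂ) (V k i)) := by
    rw [hc, Matrix.mulVec_mulVec, Matrix.mul_nonsing_inv _ hVu, Matrix.one_mulVec]
  have hck : ∀ k, k ≠ j → c k = 0 := by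
    intro k hk
    have h3 : (Matrix.diagonal (fun k => α k * (e j - e k))) *ᵥ c = 0 := by
      rw [← key j, ← Matrix.mulVec_mulVec, ← Matrix.mulVec_mulVec, hVc, hw, Matrix.mulVec_zero]
    have h4 := congrFun h3 k
    rw [Matrix.mulVec_diagonal] at h4
    have h5 : e j - e k ≠ 0 := sub_ne_zero.2 (fun h => hk (he h.symm))
    rcases mul_eq_zero.1 h4 with h6 | h6
    · exact absurd h6 (mul_ne_zero (hα k) h5)
    · exact h6
  have hprop : ∀ k, (starRingEnd ℂ) (V k i) = c j * V k j := by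
    intro k
    have h := congrFun hVc k
    rw [← h]
    simp only [Matrix.mulVec, dotProduct]
    rw [Finset.sum_eq_single j]
    · ring
    · intro b _ hb
      rw [hck b hb, mul_zero]
    · intro h; exact absurd (Finset.mem_univ j) h
  have hcj : c j ≠ 0 := by
    intro h0
    apply hV
    refine Matrix.det_eq_zero_of_column_eq_zero i (fun k => ?_)
    have h := hprop k
    rw [h0, zero_mul] at h
    exact (map_eq_zero _).1 h
  refine ⟨(c j)⁻¹, inv_ne_zero hcj, fun k => ?_⟩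
  rw [hprop k, ← mul_assoc, inv_mul_cancel₀ hcj, one_mul]

end Pool.Agent.Helper32.DZ
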