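import Pool.Agent.Helper32.DZ.ExpSums

set_option autoImplicit false

/-!
DZ-19 ExpEven. The inequality between the exponents in the cusp (even size).

In 1-based notation `k_1 ≤ ... ≤ k_n`, `k_i + k_(n-i) ≥ 1` for `1 ≤ i ≤ n-1` (0-based: `i + j + 2 = n`). Claim:
`4 ∑_(i≤j) (k_i + k_j)^- + (k_n - k_1) ≤ 2 ∑_(i<j) (k_j - k_i)`, `x^- = max (-x) 0`.

PROOF. `n = 2`: no negative sums (`2 k_1 ≥ 1`), trivial. `n ≥ 4`. For `i ≤ j` with `i + j ≥ n` we have
`k_i + k_j ≥ k_i + k_(n-i) ≥ 1` if `i ≤ n - 1` (as `j ≥ n - i`), and `i = j = n`: `2 k_n ≥ 1` as well: so only pairs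
`i ≤ j`, `i + j ≤ n - 1` have negative sums. Put `w(a,b) = k_b - k_a ≥ 0` for `a < b`. For a pair `i ≤ j`, `i+j ≤ n-1`,
`k_i + k_j < 0`: `-k_j ≤ k_(n-j)`, `-k_i ≤ k_(n-i)` give
`2 (k_i+k_j)^- = (-k_j - k_i) + (-k_i - k_j) ≤ w(i, n-j) + w(j, n-i)`            (*)
with `i < n - j`, `j < n - i`; all indices `≤ n - 1`. Sum over `i ≤ j`. For ordered `(i,j)`, `i ≠ j`, the map
`(i,j) ↦ (i, n-j)` is a bijection from ordered pairs with `i + j ≤ n-1`, `i ≠ j` onto pairs `a < b ≤ n-1`, `a + b ≠ n`;
the diagonal `i = j`, `2i ≤ n-1`, gives `2 w(i, n-i)`. So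
`2 ∑_(i≤j) (k_i+k_j)^- ≤ ∑_(a<b≤n-1) w(a,b) + ∑_(a<n/2) w(a,n-a) - slack`,
where slack = (right side of (*) minus left side) for the pair `{1, n/2}` (if its sum is `≥ 0` its left side is `0`):
`slack = w(1,n/2) + w(n/2,n-1) - 2 (k_1 + k_(n/2))^-`. Hence, as `w(a,n-a) ≤ w(a,n)`:
`∑_(a<b≤n) w(a,b) - 2 ∑_(i≤j) (k_i+k_j)^- ≥ ∑_(a<n) w(a,n) - ∑_(a<n/2) w(a,n-a) + slack ≥ w(n/2, n) + slack`.
If `k_1 + k_(n/2) ≥ 0`: `slack = k_(n-1) - k_1`, the total is `≥ k_n - k_(n/2) + k_(n-1) - k_1 ≥ k_n - k_1`.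
If `< 0`: `slack = k_(n-1) + k_1 + 2 k_(n/2) ≥ 2 k_(n/2)` (as `k_1 + k_(n-1) ≥ 1`), total `≥ k_n + k_(n/2) ≥ k_n`
(`2 k_(n/2) ≥ 1`), and `k_n ≥ k_(n-1) ≥ -k_1`, so `2 k_n ≥ k_n - k_1`. In both cases twice the total is
`≥ k_n - k_1`. Checked by computer for `n = 2, 4, 6, 8`.
(Formalisation: sums of `if ... then ... else 0` over `Fin n × Fin n`, bijections `i ↦ n - 2 - i` (0-based) on
indices `≤ n - 2`.)
-/

namespace Pool.Agent.Helper32.DZ

private theorem sum_le_sym (s : Finset ℕ) (f : ℕ → ℕ → ℤ) (hf : ∀ i j, f i j = f j i) :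
    2 * (∑ i ∈ s, ∑ j ∈ s, if i ≤ j then f i j else 0) =
      (∑ i ∈ s, ∑ j ∈ s, f i j) + ∑ i ∈ s, f i i := by
  have h1 : (∑ i ∈ s, ∑ j ∈ s, if i ≤ j then f i j else 0) =
      ∑ i ∈ s, ∑ j ∈ s, if j ≤ i then f i j else 0 := by
    rw [Finset.sum_comm]
    refine Finset.sum_congr rfl fun i _ => Finset.sum_congr rfl fun j _ => ?_
    rw [hf j i]
  have h2 : ∀ i ∈ s, ((∑ j ∈ s, if i ≤ j then f i j else 0) +
      ∑ j ∈ s, if j ≤ i then f i j else 0) = (∑ j ∈ s, f i j) + f i i := by
    intro i hi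
    rw [← Finset.sum_add_distrib]
    have h3 : ∀ j ∈ s, ((if i ≤ j then f i j else 0) + if j ≤ i then f i j else 0) =
        f i j + if i = j then f i j else 0 := by
      intro j _
      rcases lt_trichotomy i j with h | h | h
      · rw [if_pos h.le, if_neg (not_le.mpr h), if_neg h.ne]
      · subst h
        simp
      · rw [if_neg (not_le.mpr h), if_pos h.le, if_neg h.ne']
        ring
    rw [Finset.sum_congr rfl h3, Finset.sum_add_distrib, Finset.sum_ite_eq, if_pos hi]
  rw [two_mul]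
  nth_rewrite 2 [h1]
  rw [← Finset.sum_add_distrib, Finset.sum_congr rfl h2, Finset.sum_add_distrib]

private theorem refl_row (R i : ℕ) (k : ℕ → ℤ) :
    (∑ j ∈ Finset.range (R + 2), if i + j < R then k (R - j) - k i else 0) =
      ∑ b ∈ Finset.range (R + 1), if i < b then k b - k i else 0 := by
  rw [Finset.sum_range_succ, if_neg (by omega), add_zero,
    ← Finset.sum_range_reflect (fun b => if i < b then k b - k i else 0) (R + 1)]
  refine Finset.sum_congr rfl fun j hj => ?_
  have hj' : j < R + 1 := Finset.mem_range.mp hj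
  have e : R + 1 - 1 - j = R - j := by omega
  simp only [e]
  by_cases h : i + j < R
  · rw [if_pos h, if_pos (by omega)]
  · rw [if_neg h, if_neg (by omega)]

private theorem core (p : ℕ) (k : ℕ → ℤ) (hk : Monotone k)
    (hc : ∀ i j, i + j = 2 * p → 1 ≤ k i + k j) :
    4 * (∑ i ∈ Finset.range (2 * p + 2), ∑ j ∈ Finset.range (2 * p + 2),
        if i ≤ j then max (-(k i + k j)) 0 else 0) + (k (2 * p + 1) - k 0) ≤
      2 * ∑ i ∈ Finset.range (2 * p + 2), ∑ j ∈ Finset.range (2 * p + 2),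
        if i < j then k j - k i else 0 := by
  obtain ⟨R, hR⟩ : ∃ R, R = 2 * p := ⟨_, rfl⟩
  rw [← hR] at hc ⊢
  obtain ⟨f, hf⟩ : ∃ f : ℕ → ℕ → ℤ, f = fun i j => max (-(k i + k j)) 0 := ⟨_, rfl⟩
  have hfe : ∀ i j, f i j = max (-(k i + k j)) 0 := fun i j => by rw [hf]
  have hfs : ∀ i j, f i j = f j i := fun i j => by rw [hfe, hfe, add_comm]
  have hA := sum_le_sym (Finset.range (R + 2)) f hfs
  simp only [← hfe]
  -- row differences
  obtain ⟨F, hF⟩ : ∃ F : ℕ → ℕ → ℤ, F = fun i j =>
      (if i + j < R then k (R - j) - k i else 0) + (if j + i < R then k (R - i) - k j else 0) :=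
    ⟨_, rfl⟩
  have hFe : ∀ i j, F i j =
      (if i + j < R then k (R - j) - k i else 0) + (if j + i < R then k (R - i) - k j else 0) :=
    fun i j => by rw [hF]
  have hp1 : 1 ≤ k p + k p := hc p p (by omega)
  have hbig : ∀ i j, R ≤ i + j → 0 ≤ k i + k j := by
    intro i j hij
    rcases le_total i R with hi | hi
    · have h1 := hc i (R - i) (by omega)
      have h2 : k (R - i) ≤ k j := hk (by omega)
      linarith
    · have h1 := hc R 0 (by omega)
      have h2 : k R ≤ k i := hk hi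
      have h3 : k 0 ≤ k j := hk (Nat.zero_le _)
      linarith
  have hG : ∀ i j, 0 ≤ F i j - 2 * f i j := by
    intro i j
    rw [hFe, hfe]
    by_cases h : i + j < R
    · rw [if_pos h, if_pos (by omega)]
      have h1 := hc i (R - i) (by omega)
      have h2 := hc j (R - j) (by omega)
      have h3 : k i ≤ k (R - j) := hk (by omega)
      have h4 : k j ≤ k (R - i) := hk (by omega)
      rcases le_total (-(k i + k j)) 0 with h5 | h5
      · rw [max_eq_right h5]; linarith
      · rw [max_eq_left h5]; linarith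
    · rw [if_neg h, if_neg (by omega), max_eq_right (by
        have := hbig i j (by omega)
        linarith)]
      norm_num
  -- the sum of F
  have hFsum : (∑ i ∈ Finset.range (R + 2), ∑ j ∈ Finset.range (R + 2), F i j) =
      2 * ∑ i ∈ Finset.range (R + 2), ∑ b ∈ Finset.range (R + 1),
        if i < b then k b - k i else 0 := by
    have h1 : (∑ i ∈ Finset.range (R + 2), ∑ j ∈ Finset.range (R + 2), F i j) =
        (∑ i ∈ Finset.range (R + 2), ∑ j ∈ Finset.range (R + 2),
          if i + j < R then k (R - j) - k i else 0) +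
        ∑ i ∈ Finset.range (R + 2), ∑ j ∈ Finset.range (R + 2),
          if j + i < R then k (R - i) - k j else 0 := by
      rw [← Finset.sum_add_distrib]
      refine Finset.sum_congr rfl fun i _ => ?_
      rw [← Finset.sum_add_distrib]
      exact Finset.sum_congr rfl fun j _ => hFe i j
    have h2 : (∑ i ∈ Finset.range (R + 2), ∑ j ∈ Finset.range (R + 2),
          if j + i < R then k (R - i) - k j else 0) =
        ∑ i ∈ Finset.range (R + 2), ∑ j ∈ Finset.range (R + 2),
          if i + j < R then k (R - j) - k i else 0 := Finset.sum_comm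
    rw [h1, h2, ← two_mul, Finset.sum_congr rfl fun i _ => refl_row R i k]
  -- the total of the differences
  have hDt : (∑ i ∈ Finset.range (R + 2), ∑ j ∈ Finset.range (R + 2),
        if i < j then k j - k i else 0) =
      (∑ i ∈ Finset.range (R + 2), ∑ b ∈ Finset.range (R + 1),
        if i < b then k b - k i else 0) +
      ∑ i ∈ Finset.range (R + 1), (k (R + 1) - k i) := by
    have h1 : ∀ i ∈ Finset.range (R + 2), (∑ j ∈ Finset.range (R + 2),
        if i < j then k j - k i else 0) =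
        (∑ b ∈ Finset.range (R + 1), if i < b then k b - k i else 0) +
          if i < R + 1 then k (R + 1) - k i else 0 := by
      intro i _
      rw [Finset.sum_range_succ]
    rw [Finset.sum_congr rfl h1, Finset.sum_add_distrib]
    congr 1
    rw [Finset.sum_range_succ, if_neg (lt_irrefl _), add_zero]
    refine Finset.sum_congr rfl fun i hi => ?_
    rw [if_pos (Finset.mem_range.mp hi)]
  -- the diagonal
  have hdiag : (∑ i ∈ Finset.range (R + 2), f i i) ≤
      ∑ i ∈ Finset.range p, (k (R + 1) - k i) := by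
    have h1 : (∑ i ∈ Finset.range (R + 2), f i i) ≤
        ∑ i ∈ Finset.range (R + 2), if i < p then k (R + 1) - k i else 0 := by
      refine Finset.sum_le_sum fun i _ => ?_
      have h2 := hG i i
      rw [hFe] at h2
      by_cases h : i < p
      · rw [if_pos (by omega)] at h2
        rw [if_pos h]
        have h3 : k (R - i) ≤ k (R + 1) := hk (by omega)
        linarith
      · rw [if_neg (by omega)] at h2
        rw [if_neg h]
        linarith
    refine h1.trans (le_of_eq ?_)
    rw [← Finset.sum_filter]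
    refine Finset.sum_congr ?_ fun _ _ => rfl
    ext i
    simp only [Finset.mem_filter, Finset.mem_range]
    omega
  have hlast : (∑ i ∈ Finset.range p, (k (R + 1) - k i)) + (k (R + 1) - k p) ≤
      ∑ i ∈ Finset.range (R + 1), (k (R + 1) - k i) := by
    rw [← Finset.sum_range_succ]
    refine Finset.sum_le_sum_of_subset_of_nonneg (Finset.range_subset_range.mpr (by omega)) ?_
    intro i hi _
    have h1 : k i ≤ k (R + 1) := hk (by have := Finset.mem_range.mp hi; omega)
    linarith
  have hGsum : (∑ i ∈ Finset.range (R + 2), ∑ j ∈ Finset.range (R + 2), (F i j - 2 * f i j)) =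
      (∑ i ∈ Finset.range (R + 2), ∑ j ∈ Finset.range (R + 2), F i j) -
        2 * ∑ i ∈ Finset.range (R + 2), ∑ j ∈ Finset.range (R + 2), f i j := by
    rw [Finset.mul_sum, ← Finset.sum_sub_distrib]
    refine Finset.sum_congr rfl fun i _ => ?_
    rw [Finset.mul_sum, ← Finset.sum_sub_distrib]
  have hrow : ∀ i, 0 ≤ ∑ j ∈ Finset.range (R + 2), (F i j - 2 * f i j) :=
    fun i => Finset.sum_nonneg fun j _ => hG i j
  have hm1 : k p ≤ k (R + 1) := hk (by omega)
  have hm2 : k p ≤ k R := hk (by omega)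
  have hm3 : k 0 ≤ k p := hk (Nat.zero_le _)
  have hm4 : k R ≤ k (R + 1) := hk (by omega)
  rcases Nat.eq_zero_or_pos p with hp | hp
  · have h1 : 0 ≤ ∑ i ∈ Finset.range (R + 2), ∑ j ∈ Finset.range (R + 2),
        (F i j - 2 * f i j) := Finset.sum_nonneg fun i _ => hrow i
    rw [hp] at hm1 hlast hdiag
    linarith
  · have hne : (0 : ℕ) ≠ p := by omega
    have h1 : (F 0 p - 2 * f 0 p) + (F p 0 - 2 * f p 0) ≤
        ∑ i ∈ Finset.range (R + 2), ∑ j ∈ Finset.range (R + 2), (F i j - 2 * f i j) := by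
      have h2 : (∑ i ∈ ({0, p} : Finset ℕ), ∑ j ∈ Finset.range (R + 2), (F i j - 2 * f i j)) ≤
          ∑ i ∈ Finset.range (R + 2), ∑ j ∈ Finset.range (R + 2), (F i j - 2 * f i j) := by
        refine Finset.sum_le_sum_of_subset_of_nonneg ?_ fun i _ _ => hrow i
        intro i hi
        simp only [Finset.mem_insert, Finset.mem_singleton] at hi
        rw [Finset.mem_range]
        omega
      rw [Finset.sum_pair hne] at h2
      have h3 : F 0 p - 2 * f 0 p ≤ ∑ j ∈ Finset.range (R + 2), (F 0 j - 2 * f 0 j) :=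
        Finset.single_le_sum (f := fun j => F 0 j - 2 * f 0 j) (fun j _ => hG 0 j)
          (Finset.mem_range.mpr (by omega))
      have h4 : F p 0 - 2 * f p 0 ≤ ∑ j ∈ Finset.range (R + 2), (F p j - 2 * f p j) :=
        Finset.single_le_sum (f := fun j => F p j - 2 * f p j) (fun j _ => hG p j)
          (Finset.mem_range.mpr (by omega))
      linarith
    have h5 : F 0 p = k R - k 0 := by
      rw [hFe, if_pos (by omega), if_pos (by omega)]
      have e1 : R - p = p := by omega
      have e2 : R - 0 = R := by omega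
      rw [e1, e2]
      ring
    have h6 : F p 0 = k R - k 0 := by
      rw [hFe, if_pos (by omega), if_pos (by omega)]
      have e1 : R - p = p := by omega
      have e2 : R - 0 = R := by omega
      rw [e1, e2]
      ring
    have h7 : f p 0 = f 0 p := hfs p 0
    have h8 := hc 0 R (by omega)
    rw [h5, h6, h7] at h1
    have h9 := hfe 0 p
    rcases le_total (-(k 0 + k p)) 0 with h10 | h10
    · rw [max_eq_right h10] at h9
      linarith
    · rw [max_eq_left h10] at h9
      linarith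

/-- size `n = m + 1`, `m` odd; last index `Fin.last m` -/
theorem exp_even {m : ℕ} (hm : Odd m) (κ : Fin (m + 1) → ℤ) (hκ : Monotone κ)
    (hc : ∀ i j : Fin (m + 1), (i : ℕ) + (j : ℕ) + 1 = m → 1 ≤ κ i + κ j) :
    4 * SLe (fun i j => max (-(κ i + κ j)) 0) + (κ (Fin.last m) - κ 0) ≤ 2 * Dk κ := by
  obtain ⟨p, rfl⟩ := hm
  obtain ⟨k, hk⟩ : ∃ k : ℕ → ℤ, k = fun i => κ ⟨min i (2 * p + 1), by omega⟩ := ⟨_, rfl⟩
  have hke : ∀ i, k i = κ ⟨min i (2 * p + 1), by omega⟩ := fun i => by rw [hk]
  have hkf : ∀ i : Fin (2 * p + 1 + 1), κ i = k (i : ℕ) := by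
    intro i
    rw [hke]
    congr 1
    ext
    have := i.2
    simp only
    omega
  have hmono : Monotone k := by
    intro a b hab
    rw [hke, hke]
    refine hκ ?_
    rw [Fin.le_def]
    simp only
    omega
  have hcc : ∀ i j, i + j = 2 * p → 1 ≤ k i + k j := by
    intro i j hij
    have h1 := hc ⟨i, by omega⟩ ⟨j, by omega⟩ (by simp only; omega)
    rw [hkf, hkf] at h1
    exact h1
  have hcore := core p k hmono hcc
  have e1 : SLe (fun i j => max (-(κ i + κ j)) 0) =
      ∑ i ∈ Finset.range (2 * p + 2), ∑ j ∈ Finset.range (2 * p + 2),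
        if i ≤ j then max (-(k i + k j)) 0 else 0 := by
    unfold SLe
    rw [← Fin.sum_univ_eq_sum_range (fun i => ∑ j ∈ Finset.range (2 * p + 2),
        if i ≤ j then max (-(k i + k j)) 0 else 0) (2 * p + 2)]
    refine Finset.sum_congr rfl fun i _ => ?_
    rw [← Fin.sum_univ_eq_sum_range (fun j => if (i : ℕ) ≤ j then max (-(k i + k j)) 0 else 0)
      (2 * p + 2)]
    refine Finset.sum_congr rfl fun j _ => ?_
    simp only [hkf, Fin.le_def]
  have e2 : Dk κ = ∑ i ∈ Finset.range (2 * p + 2), ∑ j ∈ Finset.range (2 * p + 2),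
        if i < j then k j - k i else 0 := by
    unfold Dk SLt
    rw [← Fin.sum_univ_eq_sum_range (fun i => ∑ j ∈ Finset.range (2 * p + 2),
        if i < j then k j - k i else 0) (2 * p + 2)]
    refine Finset.sum_congr rfl fun i _ => ?_
    rw [← Fin.sum_univ_eq_sum_range (fun j => if (i : ℕ) < j then k j - k i else 0)
      (2 * p + 2)]
    refine Finset.sum_congr rfl fun j _ => ?_
    simp only [hkf, Fin.lt_def]
  have e3 : κ (Fin.last (2 * p + 1)) = k (2 * p + 1) := hkf _
  have e4 : κ 0 = k 0 := hkf _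
  rw [e1, e2, e3, e4]
  exact hcore

end Pool.Agent.Helper32.DZ
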