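import Pool.Agent.Helper32.DZ.EvenCountS
import Pool.Agent.Helper32.DZ.Constr
import Pool.Agent.Helper32.DZ.ExpEven

set_option autoImplicit false

/-!
EVS-5 EvenBoundS. The number of `f` of even degree in one cell (points with denominator `τ w^2`). As `even_bound`.
-/

open Polynomial Matrix

namespace Pool.Agent.Helper32.DZ

private lemma eb_one_mem {N : ℕ} (κ : Fin N → ℤ) : (1 : Matrix (Fin N) (Fin N) ℤ) ∈ Tr κ := by
  refine ⟨⟨fun i => Matrix.one_apply_eq i, fun i j hij => Matrix.one_apply_ne hij.ne'⟩, ?_⟩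
  intro i j hij
  rw [Matrix.one_apply_ne hij.ne]
  refine ⟨le_refl _, ?_⟩
  rw [Int.cast_zero]
  exact zpow_pos (by norm_num) _

private lemma eb_decay (x l : ℤ) (hl : 0 ≤ l) (h : l ≤ 2 * x) :
    (2 : ℝ) ^ (-x) ≤ (3 / 4 : ℝ) ^ l := by
  obtain ⟨k, rfl⟩ := Int.eq_ofNat_of_zero_le hl
  have h1 : ((2 : ℝ) ^ (-x)) ^ 2 ≤ ((3 / 4 : ℝ) ^ ((k : ℕ) : ℤ)) ^ 2 := by
    calc ((2 : ℝ) ^ (-x)) ^ 2 = (2 : ℝ) ^ (-(2 * x)) := by
          rw [← zpow_natCast, ← _root_.zpow_mul]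
          congr 1
          push_cast
          ring
      _ ≤ (2 : ℝ) ^ (-((k : ℕ) : ℤ)) := zpow_le_zpow_right₀ (by norm_num) (by linarith)
      _ = (1 / 2 : ℝ) ^ k := by
          rw [_root_.zpow_neg, zpow_natCast, one_div, inv_pow]
      _ ≤ (9 / 16 : ℝ) ^ k := pow_le_pow_left₀ (by norm_num) (by norm_num) k
      _ = ((3 / 4 : ℝ) ^ ((k : ℕ) : ℤ)) ^ 2 := by
          rw [zpow_natCast, ← pow_mul, mul_comm k 2, pow_mul]
          norm_num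
  exact (pow_le_pow_iff_left₀ (zpow_pos (by norm_num) _).le (zpow_pos (by norm_num) _).le
    (by norm_num)).1 h1

theorem even_bound_s (m : ℕ) (hm : Odd m) (τ : ℤ) : ∃ K : ℝ, 1 ≤ K ∧
    ∀ (κ : Fin (m + 1) → ℤ) (F : Set (Fin (m + 1 + 1) → ℤ)) (_ : F.Finite) (_ : F.Nonempty)
      (A B : (Fin (m + 1 + 1) → ℤ) → Matrix (Fin (m + 1)) (Fin (m + 1)) ℤ),
      CellES m τ κ F A B → 1 ≤ ∑ i, κ i ∧
        (F.ncard : ℝ) ≤ K * ((2 : ℝ) ^ (2 * ∑ i, κ i)) ^ (m + 2) *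
          (3 / 4 : ℝ) ^ (κ (Fin.last m) - κ 0) := by
  refine ⟨((3 : ℝ) ^ ((m + 1) ^ 2)) ^ 2, one_le_pow₀ (one_le_pow₀ (by norm_num)), ?_⟩
  intro κ F hF hne A B h
  obtain ⟨a, ha⟩ := hne
  have hκ := h.1
  have hb := ((h.2 a ha).2.2 1 (eb_one_mem κ)).2
  rw [Matrix.transpose_one, Matrix.one_mul, Matrix.mul_one, Matrix.one_mul, Matrix.mul_one] at hb
  have hc := constr_even hm κ hκ (A a) (B a) (h.2 a ha).1 (fun i j => (hb i j).1)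
    (fun i j => (hb i j).2)
  refine ⟨sum_pos hm κ hκ hc, ?_⟩
  have hexp := exp_even hm κ hκ hc
  have hx := xk_eq κ
  set σ : ℤ := ∑ i, κ i with hσ
  set Y : ℤ := SLe (fun i j => max (-(κ i + κ j)) 0) with hY
  set l : ℤ := κ (Fin.last m) - κ 0 with hl
  have hl0 : 0 ≤ l := by
    have := hκ (Fin.zero_le (Fin.last m))
    rw [hl]
    linarith
  have hbox : (((Box fun i j : Fin (m + 1) => (2 : ℝ) ^ (κ i + κ j)).ncard : ℕ) : ℝ) ≤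
      (3 : ℝ) ^ ((m + 1) ^ 2) * (2 : ℝ) ^ (Xk κ) := by
    have h1 := box_card_two κ 1 (le_refl _)
    simp only [one_mul, mul_one] at h1
    exact h1
  have hfin : (Box fun i j : Fin (m + 1) => (2 : ℝ) ^ (κ i + κ j)).Finite := (box_card _).1
  have hadj : (({M : Matrix (Fin (m + 1)) (Fin (m + 1)) ℤ |
      M ∈ Box (fun i j => (2 : ℝ) ^ (κ i + κ j)) ∧
        PropA τ ((-1) ^ ((m + 1) / 2 - 1)) M}.ncard : ℕ) : ℝ) ≤
      (3 : ℝ) ^ ((m + 1) ^ 2) * (2 : ℝ) ^ (Xk κ) := by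
    refine le_trans ?_ hbox
    have h1 : {M : Matrix (Fin (m + 1)) (Fin (m + 1)) ℤ |
      M ∈ Box (fun i j => (2 : ℝ) ^ (κ i + κ j)) ∧
        PropA τ ((-1) ^ ((m + 1) / 2 - 1)) M} ⊆ Box (fun i j => (2 : ℝ) ^ (κ i + κ j)) :=
      fun M hM => hM.1
    exact_mod_cast Set.ncard_le_ncard h1 hfin
  have hcount := even_count_s m τ κ F hF A B h
  have hD : (0 : ℝ) < (2 : ℝ) ^ (Dk κ) := zpow_pos (by norm_num) _
  have hprod : (F.ncard : ℝ) * (2 : ℝ) ^ (Dk κ) ≤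
      ((3 : ℝ) ^ ((m + 1) ^ 2) * (2 : ℝ) ^ (Xk κ)) * ((3 : ℝ) ^ ((m + 1) ^ 2) * (2 : ℝ) ^ (Xk κ)) :=
    hcount.trans (mul_le_mul hadj hbox (Nat.cast_nonneg _) (by positivity))
  have hfin2 : (F.ncard : ℝ) ≤ ((3 : ℝ) ^ ((m + 1) ^ 2)) ^ 2 *
      (2 : ℝ) ^ (2 * Xk κ - Dk κ) := by
    rw [zpow_sub₀ (by norm_num), mul_div_assoc', le_div_iff₀ hD]
    refine hprod.trans (le_of_eq ?_)
    rw [two_mul, zpow_add₀ (by norm_num)]
    ring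
  refine hfin2.trans ?_
  have hsplit : (2 : ℝ) ^ (2 * Xk κ - Dk κ) =
      ((2 : ℝ) ^ (2 * σ)) ^ (m + 2) * (2 : ℝ) ^ (-(Dk κ - 2 * Y)) := by
    rw [← zpow_natCast ((2 : ℝ) ^ (2 * σ)), ← _root_.zpow_mul, ← zpow_add₀ (by norm_num)]
    congr 1
    rw [hx]
    push_cast
    ring
  rw [hsplit, mul_assoc]
  apply mul_le_mul_of_nonneg_left _ (by positivity)
  apply mul_le_mul_of_nonneg_left _ (by positivity)
  exact eb_decay _ _ hl0 (by linarith)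

end Pool.Agent.Helper32.DZ
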