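import Pool.Agent.Helper32.DZ.Defs

set_option autoImplicit false

/-!
DZ-01 PenLem. Formal properties of `pen`, `pol`, `UT`, `AdjSq`, `NegSq`, `PG` under `M ↦ g^t M g`.

PROOFS. `ut_det`: upper triangular, `Matrix.det_of_upperTriangular`. `ut_mul`: entries.
`pen_conj`: `X • (g^t P g).map C - (g^t R g).map C = (g.map C)^t * (X • P.map C - R.map C) * g.map C`
(`Matrix.map_mul`), determinants, `RingHom.map_det`.
`pen_eval`, `pol_eval`: apply the ring hom `aeval z` to the determinant (`RingHom.map_det`), entrywise.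
`pol_inj`: coefficients (`Polynomial.finsetSum_coeff`, `coeff_C_mul_X_pow`).
`adjSq_conj`: `adj (g^t A g) = adj g * adj A * (adj g)^t` (`Matrix.adjugate_mul_distrib`,
`Matrix.adjugate_transpose`), `det (g^t A g) = det A`; new vector `adj g *ᵥ u`.
`negSq_conj`: new vector `g^t *ᵥ u`. `pg_conj`: the same `e`, the determinant is multiplied by `det g ^ 2`.
-/

open Polynomial Matrix

namespace Pool.Agent.Helper32.DZ

theorem ut_det {N : ℕ} (U : Matrix (Fin N) (Fin N) ℤ) (hU : UT U) : U.det = 1 := by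
  rw [Matrix.det_of_upperTriangular (fun i j h => hU.2 i j h)]
  exact Finset.prod_eq_one fun i _ => hU.1 i

theorem ut_mul {N : ℕ} (U V : Matrix (Fin N) (Fin N) ℤ) (hU : UT U) (hV : UT V) : UT (U * V) := by
  constructor
  · intro i
    rw [Matrix.mul_apply, Finset.sum_eq_single i]
    · rw [hU.1, hV.1, mul_one]
    · intro k _ hk
      rcases lt_or_gt_of_ne hk with h | h
      · rw [hU.2 i k h, zero_mul]
      · rw [hV.2 k i h, mul_zero]
    · intro h
      exact absurd (Finset.mem_univ i) h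
  · intro i j hij
    rw [Matrix.mul_apply]
    refine Finset.sum_eq_zero fun k _ => ?_
    rcases lt_or_ge k i with h | h
    · rw [hU.2 i k h, zero_mul]
    · rw [hV.2 k j (lt_of_lt_of_le hij h), mul_zero]

private theorem pl_map {N : ℕ} {S : Type} [CommRing S] (f : ℤ →+* S) (x : S)
    (P R g : Matrix (Fin N) (Fin N) ℤ) :
    x • (gᵀ * P * g).map f - (gᵀ * R * g).map f =
      (g.map f)ᵀ * (x • P.map f - R.map f) * g.map f := by
  rw [Matrix.map_mul, Matrix.map_mul, Matrix.map_mul, Matrix.map_mul, Matrix.transpose_map,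
    Matrix.mul_sub, Matrix.sub_mul, Matrix.mul_smul, Matrix.smul_mul]

private theorem pl_det {N : ℕ} {S : Type} [CommRing S] (f : ℤ →+* S) (x : S)
    (P R g : Matrix (Fin N) (Fin N) ℤ) :
    (x • (gᵀ * P * g).map f - (gᵀ * R * g).map f).det =
      f (g.det ^ 2) * (x • P.map f - R.map f).det := by
  rw [pl_map, Matrix.det_mul, Matrix.det_mul, Matrix.det_transpose]
  have h1 : (g.map f).det = f g.det := (RingHom.map_det f g).symm
  rw [h1, map_pow]
  ring

theorem pen_conj {N : ℕ} (P R g : Matrix (Fin N) (Fin N) ℤ) :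
    pen (gᵀ * P * g) (gᵀ * R * g) = C (g.det ^ 2) * pen P R :=
  pl_det (C : ℤ →+* ℤ[X]) X P R g

theorem pen_eval {N : ℕ} (P R : Matrix (Fin N) (Fin N) ℤ) (z : ℂ) :
    aeval z (pen P R) =
      (z • P.map (Int.cast : ℤ → ℂ) - R.map (Int.cast : ℤ → ℂ)).det := by
  unfold pen
  rw [AlgHom.map_det]
  congr 1
  ext i j
  simp [Matrix.map_apply, aeval_C]

theorem pol_eval {n : ℕ} (a : Fin (n + 1) → ℤ) (z : ℂ) :
    aeval z (pol a) = ∑ i, (a i : ℂ) * z ^ (i : ℕ) := by
  unfold pol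
  rw [map_sum]
  refine Finset.sum_congr rfl fun i _ => ?_
  rw [map_mul, aeval_C, map_pow, aeval_X]
  rfl

private theorem pl_coeff {n : ℕ} (a : Fin (n + 1) → ℤ) (i : Fin (n + 1)) :
    (pol a).coeff i = a i := by
  unfold pol
  rw [Polynomial.finsetSum_coeff, Finset.sum_eq_single i]
  · rw [coeff_C_mul_X_pow, if_pos rfl]
  · intro k _ hk
    rw [coeff_C_mul_X_pow, if_neg]
    exact fun h => hk (Fin.ext h.symm)
  · intro h
    exact absurd (Finset.mem_univ i) h

theorem pol_inj {n : ℕ} (a b : Fin (n + 1) → ℤ) (h : pol a = pol b) : a = b := by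
  funext i
  rw [← pl_coeff a i, ← pl_coeff b i, h]

private theorem pl_dvd {N : ℕ} (d : ℤ) (B E G : Matrix (Fin N) (Fin N) ℤ)
    (h : ∀ k l, d ∣ E k l) (i j : Fin N) : d ∣ (B * E * G) i j := by
  rw [Matrix.mul_apply]
  refine Finset.dvd_sum fun k _ => Dvd.dvd.mul_right ?_ _
  rw [Matrix.mul_apply]
  exact Finset.dvd_sum fun l _ => Dvd.dvd.mul_left (h l k) _

private theorem pl_key {N : ℕ} (d c : ℤ) (B E : Matrix (Fin N) (Fin N) ℤ) (u : Fin N → ℤ)
    (h : ∀ k l, d ∣ E k l - c * (u k * u l)) (i j : Fin N) :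
    d ∣ (B * E * Bᵀ) i j - c * ((B *ᵥ u) i * (B *ᵥ u) j) := by
  have h1 := pl_dvd d B (E - c • Matrix.vecMulVec u u) Bᵀ (fun k l => by
    rw [Matrix.sub_apply, Matrix.smul_apply, Matrix.vecMulVec_apply, smul_eq_mul]
    exact h k l) i j
  rw [Matrix.mul_sub, Matrix.sub_mul, Matrix.mul_smul, Matrix.smul_mul, Matrix.mul_vecMulVec,
    Matrix.vecMulVec_mul, Matrix.vecMul_transpose, Matrix.sub_apply, Matrix.smul_apply,
    Matrix.vecMulVec_apply, smul_eq_mul] at h1
  exact h1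

private theorem pl_sq {N : ℕ} {g : Matrix (Fin N) (Fin N) ℤ} (hg : g.det = 1 ∨ g.det = -1) :
    g.det ^ 2 = 1 := by
  rcases hg with h | h <;> rw [h] <;> norm_num

private theorem pl_detc {N : ℕ} (A g : Matrix (Fin N) (Fin N) ℤ)
    (hg : g.det = 1 ∨ g.det = -1) : (gᵀ * A * g).det = A.det := by
  rw [Matrix.det_mul, Matrix.det_mul, Matrix.det_transpose]
  have h1 := pl_sq hg
  calc g.det * A.det * g.det = g.det ^ 2 * A.det := by ring
    _ = A.det := by rw [h1, one_mul]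

theorem adjSq_conj {N : ℕ} (ε : ℤ) (A g : Matrix (Fin N) (Fin N) ℤ) (h : AdjSq ε A)
    (hg : g.det = 1 ∨ g.det = -1) : AdjSq ε (gᵀ * A * g) := by
  obtain ⟨u, hu⟩ := h
  refine ⟨g.adjugate *ᵥ u, fun i j => ?_⟩
  have h1 : (gᵀ * A * g).adjugate = g.adjugate * A.adjugate * (g.adjugate)ᵀ := by
    rw [Matrix.adjugate_mul_distrib, Matrix.adjugate_mul_distrib, Matrix.adjugate_transpose,
      Matrix.mul_assoc]
  rw [pl_detc A g hg, h1]
  exact pl_key A.det ε g.adjugate A.adjugate u hu i j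

theorem negSq_conj {N : ℕ} (a : ℤ) (S g : Matrix (Fin N) (Fin N) ℤ) (h : NegSq a S) :
    NegSq a (gᵀ * S * g) := by
  obtain ⟨u, hu⟩ := h
  refine ⟨gᵀ *ᵥ u, fun i j => ?_⟩
  have h1 := pl_key a (-1) gᵀ S u (fun k l => by
    have h2 := hu k l
    rwa [neg_one_mul, sub_neg_eq_add]) i j
  rwa [Matrix.transpose_transpose, neg_one_mul, sub_neg_eq_add] at h1

theorem pg_conj {N : ℕ} (P R g : Matrix (Fin N) (Fin N) ℤ) (h : PG P R)
    (hg : g.det = 1 ∨ g.det = -1) : PG (gᵀ * P * g) (gᵀ * R * g) := by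
  obtain ⟨h1, h2, h3, e, he, h4⟩ := h
  have hs : ∀ M : Matrix (Fin N) (Fin N) ℤ, M.IsSymm → (gᵀ * M * g).IsSymm := by
    intro M hM
    unfold Matrix.IsSymm
    rw [Matrix.transpose_mul, Matrix.transpose_mul, Matrix.transpose_transpose, hM.eq,
      Matrix.mul_assoc]
  refine ⟨hs P h1, hs R h2, by rw [pl_detc P g hg]; exact h3, e, he, fun i => ?_⟩
  have h5 := pl_det (Int.castRingHom ℂ) (e i) P R g
  have h6 : (e i • P.map (Int.castRingHom ℂ) - R.map (Int.castRingHom ℂ)).det = 0 := h4 i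
  rw [h6, mul_zero] at h5
  exact h5

end Pool.Agent.Helper32.DZ
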