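import Pool.Agent.Helper32.DZ.InjCount
import Pool.Agent.Helper32.DZ.BoxCard
import Pool.Agent.Helper32.DZ.PenLem

set_option autoImplicit false

/-!
DZ-29 EvenCount. The `f` of even degree in one cell, counted with multiplicity.

`CellE m κ F A B`: every `a ∈ F` has the reduced pair `(A a, B a)` in the cell `κ`.

PROOF: `inj_count` with `P = A`, `R = B` and
`T = {M ∈ Box (2^(κ i + κ j)) | AdjSq ε' M} ×ˢ Box (2^(κ i + κ j))` (finite by `box_card`). `hinj`: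
`pen (U^t A_a U) (U^t B_a U) = pen A_a B_a = ± pol a` (`pen_conj`, `ut_det`), so equal pairs give `pol a = pol b`
(the sign `C ((-1)^k)` is the same and not zero), `a = b` (`pol_inj`). Membership: `U^t A U` is symmetric, the bounds
from `CellE`, `adjSq_conj` (`det U = 1`). `Set.ncard_prod`.
-/

open Polynomial Matrix

namespace Pool.Agent.Helper32.DZ

/-- all `a ∈ F` have the reduced pair `(A a, B a)` in the cell `κ` -/
def CellE (m : ℕ) (κ : Fin (m + 1) → ℤ) (F : Set (Fin (m + 1 + 1) → ℤ))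
    (A B : (Fin (m + 1 + 1) → ℤ) → Matrix (Fin (m + 1)) (Fin (m + 1)) ℤ) : Prop :=
  Monotone κ ∧ ∀ a ∈ F, PG (A a) (B a) ∧ pen (A a) (B a) = C ((-1) ^ ((m + 1) / 2)) * pol a ∧
    AdjSq ((-1) ^ ((m + 1) / 2 - 1)) (A a) ∧
    ∀ U ∈ Tr κ, ∀ i j, |(((Uᵀ * A a * U) i j : ℤ) : ℝ)| < (2 : ℝ) ^ (κ i + κ j) ∧
      |(((Uᵀ * B a * U) i j : ℤ) : ℝ)| < (2 : ℝ) ^ (κ i + κ j)

theorem even_count (m : ℕ) (κ : Fin (m + 1) → ℤ) (F : Set (Fin (m + 1 + 1) → ℤ)) (hF : F.Finite)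
    (A B : (Fin (m + 1 + 1) → ℤ) → Matrix (Fin (m + 1)) (Fin (m + 1)) ℤ)
    (h : CellE m κ F A B) :
    (F.ncard : ℝ) * (2 : ℝ) ^ (Dk κ) ≤
      (({M : Matrix (Fin (m + 1)) (Fin (m + 1)) ℤ | M ∈ Box (fun i j => (2 : ℝ) ^ (κ i + κ j)) ∧
        AdjSq ((-1) ^ ((m + 1) / 2 - 1)) M}.ncard : ℕ) : ℝ) *
      (((Box fun i j : Fin (m + 1) => (2 : ℝ) ^ (κ i + κ j)).ncard : ℕ) : ℝ) := by
  obtain ⟨hκ, h2⟩ := h
  have hBf : (Box fun i j : Fin (m + 1) => (2 : ℝ) ^ (κ i + κ j)).Finite := (box_card _).1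
  have hSf : {M : Matrix (Fin (m + 1)) (Fin (m + 1)) ℤ |
      M ∈ Box (fun i j => (2 : ℝ) ^ (κ i + κ j)) ∧
        AdjSq ((-1) ^ ((m + 1) / 2 - 1)) M}.Finite := hBf.subset fun M hM => hM.1
  have hC : (C ((-1) ^ ((m + 1) / 2)) : ℤ[X]) ≠ 0 := by
    rw [Ne, C_eq_zero]
    exact pow_ne_zero _ (by norm_num)
  have hpen : ∀ a, ∀ U ∈ Tr κ, pen (Uᵀ * A a * U) (Uᵀ * B a * U) = pen (A a) (B a) := by
    intro a U hU
    rw [pen_conj, ut_det U hU.1, one_pow, C_1, one_mul]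
  have h3 := inj_count F hF κ hκ A B (fun a ha => (h2 a ha).1)
    (fun a ha b hb U hU V hV e1 e2 => by
      have h4 := hpen a U hU
      rw [e1, e2, hpen b V hV, (h2 a ha).2.1, (h2 b hb).2.1] at h4
      exact (pol_inj _ _ (mul_left_cancel₀ hC h4)).symm)
    ({M : Matrix (Fin (m + 1)) (Fin (m + 1)) ℤ |
      M ∈ Box (fun i j => (2 : ℝ) ^ (κ i + κ j)) ∧ AdjSq ((-1) ^ ((m + 1) / 2 - 1)) M} ×ˢ
      (Box fun i j : Fin (m + 1) => (2 : ℝ) ^ (κ i + κ j)))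
    (hSf.prod hBf)
    (fun a ha U hU => by
      have h4 := pg_conj (A a) (B a) U (h2 a ha).1 (Or.inl (ut_det U hU.1))
      have h5 := (h2 a ha).2.2.2 U hU
      exact ⟨⟨⟨h4.1, fun i j => (h5 i j).1⟩,
        adjSq_conj _ _ _ (h2 a ha).2.2.1 (Or.inl (ut_det U hU.1))⟩,
        ⟨h4.2.1, fun i j => (h5 i j).2⟩⟩)
  rw [Set.ncard_prod] at h3
  push_cast at h3
  exact h3

end Pool.Agent.Helper32.DZ
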