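import Pool.Agent.Helper32.DZ.Defs

set_option autoImplicit false

/-!
DZ-18 ExpSums. Double sums over `i ≤ j`.

PROOFS. `sle_add`: each index occurs `N + 1` times: `∑_(i≤j) (κ i + κ j) = ∑_i κ i (N - i) + ∑_j κ j (j + 1)`
(number of `j ≥ i` is `N - i`, number of `i ≤ j` is `j + 1`), total `(N + 1) κ i`.
`xk_eq`: `max x 0 = x + max (-x) 0`, linearity of `SLe`. `dk_nonneg`: monotone.
`prod_two`: `∏_i ∏_j (if i ≤ j then 2^(f i j) else 1) = 2^(SLe f)` (`zpow` of a sum, `Finset.prod_zpow`...).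
-/

namespace Pool.Agent.Helper32.DZ

theorem sle_add {N : ℕ} (κ : Fin N → ℤ) :
    SLe (fun i j => κ i + κ j) = ((N : ℤ) + 1) * ∑ i, κ i := by
  unfold SLe
  have h1 : (∑ i, ∑ j, if i ≤ j then κ i + κ j else 0) =
      (∑ i, ∑ j, if i ≤ j then κ i else 0) + ∑ i, ∑ j, if i ≤ j then κ j else 0 := by
    rw [← Finset.sum_add_distrib]
    refine Finset.sum_congr rfl fun i _ => ?_
    rw [← Finset.sum_add_distrib]
    refine Finset.sum_congr rfl fun j _ => ?_
    split_ifs <;> simp
  have h2 : (∑ i, ∑ j, if i ≤ j then κ j else 0) = ∑ i, ∑ j, if j ≤ i then κ i else 0 :=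
    Finset.sum_comm
  rw [h1, h2, ← Finset.sum_add_distrib, Finset.mul_sum]
  refine Finset.sum_congr rfl fun i _ => ?_
  rw [← Finset.sum_add_distrib]
  have h3 : ∀ j : Fin N, ((if i ≤ j then κ i else 0) + if j ≤ i then κ i else 0) =
      κ i + if i = j then κ i else 0 := by
    intro j
    rcases lt_trichotomy i j with h | h | h
    · rw [if_pos h.le, if_neg (not_le.mpr h), if_neg h.ne]
    · subst h; simp
    · rw [if_neg (not_le.mpr h), if_pos h.le, if_neg h.ne']; ring
  rw [Finset.sum_congr rfl fun j _ => h3 j, Finset.sum_add_distrib, Finset.sum_const,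
    Finset.sum_ite_eq, if_pos (Finset.mem_univ i), Finset.card_univ, Fintype.card_fin,
    nsmul_eq_mul]
  ring

theorem xk_eq {N : ℕ} (κ : Fin N → ℤ) :
    Xk κ = ((N : ℤ) + 1) * ∑ i, κ i + SLe (fun i j => max (-(κ i + κ j)) 0) := by
  rw [← sle_add]
  unfold Xk SLe
  rw [← Finset.sum_add_distrib]
  refine Finset.sum_congr rfl fun i _ => ?_
  rw [← Finset.sum_add_distrib]
  refine Finset.sum_congr rfl fun j _ => ?_
  split_ifs
  · show max (κ i + κ j) 0 = (κ i + κ j) + max (-(κ i + κ j)) 0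
    rcases le_total 0 (κ i + κ j) with h | h
    · rw [max_eq_left h, max_eq_right (by linarith)]; ring
    · rw [max_eq_right h, max_eq_left (by linarith)]; ring
  · simp

theorem dk_nonneg {N : ℕ} (κ : Fin N → ℤ) (hκ : Monotone κ) : 0 ≤ Dk κ := by
  unfold Dk SLt
  refine Finset.sum_nonneg fun i _ => Finset.sum_nonneg fun j _ => ?_
  split_ifs with h
  · have := hκ h.le
    linarith
  · exact le_refl _

private theorem prod_zpow_sum {ι : Type} (s : Finset ι) (g : ι → ℤ) :
    ∏ i ∈ s, (2 : ℝ) ^ (g i) = (2 : ℝ) ^ (∑ i ∈ s, g i) := by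
  classical
  induction s using Finset.induction_on with
  | empty => simp
  | insert a s ha ih =>
    rw [Finset.prod_insert ha, Finset.sum_insert ha, ih, zpow_add₀ (by norm_num)]

theorem prod_two {N : ℕ} (f : Fin N → Fin N → ℤ) :
    (∏ i, ∏ j, if i ≤ j then (2 : ℝ) ^ (f i j) else 1) = (2 : ℝ) ^ (SLe f) := by
  unfold SLe
  rw [← prod_zpow_sum]
  refine Finset.prod_congr rfl fun i _ => ?_
  rw [← prod_zpow_sum]
  refine Finset.prod_congr rfl fun j _ => ?_
  split_ifs <;> simp

end Pool.Agent.Helper32.DZ
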