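import Pool.Agent.Helper32.DZ.EvenCount
import Pool.Agent.Helper32.DZ.ExpSums
import Pool.Agent.Helper32.DZ.AdjDens

set_option autoImplicit false

/-!
DZ-31
-/

open Polynomial Matrix

namespace Pool.Agent.Helper32.DZ

theorem even_dens (m : ℕ) (hm : Odd m) (δ : ℝ) (hδ : 0 < δ) : ∃ Q : ℕ,
    ∀ (κ : Fin (m + 1) → ℤ) (F : Set (Fin (m + 1 + 1) → ℤ)) (_ : F.Finite)
      (A B : (Fin (m + 1 + 1) → ℤ) → Matrix (Fin (m + 1)) (Fin (m + 1)) ℤ),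
      CellE m κ F A B → (Q : ℝ) ≤ (2 : ℝ) ^ (2 * κ 0) →
        (F.ncard : ℝ) ≤ δ * ((2 : ℝ) ^ (2 * ∑ i, κ i)) ^ (m + 2) := by
  have hm1 : 1 ≤ m := hm.pos
  have hε : ((-1 : ℤ) ^ ((m + 1) / 2 - 1) = 1) ∨ ((-1 : ℤ) ^ ((m + 1) / 2 - 1) = -1) :=
    neg_one_pow_eq_or ℤ _
  have hKpos : (0 : ℝ) < 3 ^ ((m + 1) ^ 2) := by positivity
  obtain ⟨Q0, hQ0⟩ := adj_dens m hm1 ((-1 : ℤ) ^ ((m + 1) / 2 - 1)) hε
    (δ / 3 ^ ((m + 1) ^ 2)) (div_pos hδ hKpos)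
  refine ⟨Q0 + 1, fun κ F hF A B hC hQ => ?_⟩
  have hmono : Monotone κ := hC.1
  push_cast at hQ
  have hQ0nn : (0 : ℝ) ≤ (Q0 : ℝ) := Nat.cast_nonneg _
  have h2κ : 0 ≤ 2 * κ 0 := by
    by_contra hneg
    push Not at hneg
    have h1 : (2 : ℝ) ^ (2 * κ 0) < 1 := zpow_lt_one_of_neg₀ (by norm_num) hneg
    linarith
  have hge : ∀ i j, 2 * κ 0 ≤ κ i + κ j := by
    intro i j
    have h1 := hmono (Fin.zero_le i)
    have h2 := hmono (Fin.zero_le j)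
    linarith
  have hB : ∀ i j, (Q0 : ℝ) ≤ (2 : ℝ) ^ (κ i + κ j) := by
    intro i j
    have h1 : (2 : ℝ) ^ (2 * κ 0) ≤ (2 : ℝ) ^ (κ i + κ j) :=
      zpow_le_zpow_right₀ (by norm_num) (hge i j)
    linarith
  have h1 := hQ0 (fun i j => (2 : ℝ) ^ (κ i + κ j)) hB
  have h2 := prod_two (fun i j => κ i + κ j)
  have h3 := box_card_two κ 1 le_rfl
  have h4 := even_count m κ F hF A B hC
  have hX : Xk κ = SLe (fun i j => κ i + κ j) := by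
    unfold Xk
    congr 1
    funext i j
    exact max_eq_left (h2κ.trans (hge i j))
  rw [h2] at h1
  rw [hX] at h3
  have h3' : (((Box fun i j : Fin (m + 1) => (2 : ℝ) ^ (κ i + κ j)).ncard : ℕ) : ℝ) ≤
      3 ^ ((m + 1) ^ 2) * (2 : ℝ) ^ (SLe fun i j => κ i + κ j) := by
    have e : (fun i j : Fin (m + 1) => (1 : ℝ) * (2 : ℝ) ^ (κ i + κ j)) =
        fun i j : Fin (m + 1) => (2 : ℝ) ^ (κ i + κ j) := by
      funext i j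
      rw [one_mul]
    rw [e, mul_one] at h3
    exact h3
  have hS := sle_add κ
  have hDk : (1 : ℝ) ≤ (2 : ℝ) ^ (Dk κ) := one_le_zpow₀ (by norm_num) (dk_nonneg κ hmono)
  have hpow : (2 : ℝ) ^ (SLe fun i j => κ i + κ j) * (2 : ℝ) ^ (SLe fun i j => κ i + κ j) =
      ((2 : ℝ) ^ (2 * ∑ i, κ i)) ^ (m + 2) := by
    rw [hS, ← zpow_add₀ (by norm_num : (2 : ℝ) ≠ 0), ← zpow_natCast, ← _root_.zpow_mul]
    congr 1
    push_cast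
    ring
  have hF0 : (0 : ℝ) ≤ (F.ncard : ℝ) := Nat.cast_nonneg _
  have hz : (0 : ℝ) < (2 : ℝ) ^ (SLe fun i j => κ i + κ j) := by positivity
  calc (F.ncard : ℝ) ≤ (F.ncard : ℝ) * (2 : ℝ) ^ (Dk κ) := le_mul_of_one_le_right hF0 hDk
    _ ≤ _ := h4
    _ ≤ (δ / 3 ^ ((m + 1) ^ 2) * (2 : ℝ) ^ (SLe fun i j => κ i + κ j)) *
        (3 ^ ((m + 1) ^ 2) * (2 : ℝ) ^ (SLe fun i j => κ i + κ j)) :=
      mul_le_mul h1 h3' (Nat.cast_nonneg _) (by positivity)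
    _ = δ * ((2 : ℝ) ^ (SLe fun i j => κ i + κ j) * (2 : ℝ) ^ (SLe fun i j => κ i + κ j)) := by
      field_simp
    _ = _ := by rw [hpow]

end Pool.Agent.Helper32.DZ
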