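import Pool.Agent.Helper32.DZ.Defs

set_option autoImplicit false

/-!
DZ-20 SumCells. Sums over cells with a given total `∑ κ = σ`.

PROOF. Size `m + 1`, `l(κ) = κ (last) - κ 0 ≥ 0`. For a given `σ` the map `κ ↦ (κ i - κ 0)_i` is injective on
`{∑ κ = σ}` (the differences and `σ` determine `(m+1) κ 0`) and for `l(κ) = l` takes values in `[0, l]^(m+1)`
(monotone): at most `(l + 1)^(m+1)` cells with `l(κ) = l`. So the sum over the cells with `l(κ) ≥ M` is at most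
`T(M) = ∑_(l ≥ M) (l+1)^(m+1) (3/4)^l`, a tail of a convergent series (`summable_pow_mul_geometric_of_norm_lt_one` and
`tendsto_sum_nat_add` or similar); `C = T(0)`, and for `η > 0` choose `M` with `T(M) ≤ η`.
`geom`: `t = max s` (if `s` is empty: `Y ≥ 0`? if `s` is empty the left side is `0`; the hypothesis `0 ≤ Y` is given):
`∑_(σ ∈ s) (2^(2σ))^k ≤ (2^(2t))^k ∑_(j ≥ 0) 4^(-kj) ≤ 2 (2^(2t))^k ≤ 2 Y^k` (`k ≥ 1`, injectivity of
`σ ↦ t - σ ∈ ℕ`; or induction on the finset by removing the maximum: `Finset.induction_on_max`, with the stronger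
claim `∑ ≤ 2 (2^(2t))^k`, `2 * 4^(-1) + 1 ≤ 2`).
-/

namespace Pool.Agent.Helper32.DZ

private theorem summable_cells (m : ℕ) :
    Summable fun l : ℕ => ((l : ℝ) + 1) ^ (m + 1) * (3 / 4 : ℝ) ^ l := by
  have h1 : Summable fun l : ℕ => ((l : ℝ)) ^ (m + 1) * (3 / 4 : ℝ) ^ l :=
    summable_pow_mul_geometric_of_norm_lt_one (m + 1) (by rw [Real.norm_eq_abs, abs_of_pos] <;> norm_num)
  have h2 := ((summable_nat_add_iff 1).mpr h1).mul_left (4 / 3 : ℝ)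
  refine h2.congr fun l => ?_
  rw [pow_succ (3 / 4 : ℝ) l]
  push_cast
  ring

private theorem card_fib (m : ℕ) (K : Finset (Fin (m + 1) → ℤ)) (σ : ℤ)
    (hK : ∀ κ ∈ K, Monotone κ ∧ ∑ i, κ i = σ) (l : ℕ)
    (hl : ∀ κ ∈ K, (κ (Fin.last m) - κ 0).toNat = l) : K.card ≤ (l + 1) ^ (m + 1) := by
  have h1 : (Fintype.piFinset fun _ : Fin (m + 1) => Finset.range (l + 1)).card = (l + 1) ^ (m + 1) := by
    rw [Fintype.card_piFinset]
    simp
  rw [← h1]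
  refine Finset.card_le_card_of_injOn (fun κ i => (κ i - κ 0).toNat) ?_ ?_
  · intro κ hκ
    rw [Finset.mem_coe, Fintype.mem_piFinset]
    intro i
    rw [Finset.mem_range]
    have hm := (hK κ hκ).1
    have h2 : κ i ≤ κ (Fin.last m) := hm (Fin.le_last i)
    have h3 := hl κ hκ
    show (κ i - κ 0).toNat < l + 1
    omega
  · intro κ hκ κ' hκ' he
    have hm := (hK κ hκ).1
    have hm' := (hK κ' hκ').1
    have hs := (hK κ hκ).2
    have hs' := (hK κ' hκ').2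
    have hd : ∀ i, κ i - κ 0 = κ' i - κ' 0 := by
      intro i
      have h2 : κ 0 ≤ κ i := hm (Fin.zero_le i)
      have h3 : κ' 0 ≤ κ' i := hm' (Fin.zero_le i)
      have h4 : (κ i - κ 0).toNat = (κ' i - κ' 0).toNat := congrFun he i
      omega
    have h5 : ∑ i, (κ i - κ 0) = ∑ i, (κ' i - κ' 0) := Finset.sum_congr rfl fun i _ => hd i
    rw [Finset.sum_sub_distrib, Finset.sum_sub_distrib, hs, hs', Finset.sum_const, Finset.sum_const,
      Finset.card_univ, Fintype.card_fin, nsmul_eq_mul, nsmul_eq_mul] at h5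
    have h6 : ((m + 1 : ℕ) : ℤ) * κ 0 = ((m + 1 : ℕ) : ℤ) * κ' 0 := by linarith
    have h7 : κ 0 = κ' 0 := mul_left_cancel₀ (by positivity) h6
    funext i
    have := hd i
    omega

private theorem cells_le (m M : ℕ) (K : Finset (Fin (m + 1) → ℤ)) (σ : ℤ)
    (hK : ∀ κ ∈ K, Monotone κ ∧ ∑ i, κ i = σ ∧ (M : ℤ) ≤ κ (Fin.last m) - κ 0) :
    ∑ κ ∈ K, (3 / 4 : ℝ) ^ (κ (Fin.last m) - κ 0) ≤
      ∑' k : ℕ, (((k + M : ℕ) : ℝ) + 1) ^ (m + 1) * (3 / 4 : ℝ) ^ (k + M) := by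
  classical
  obtain ⟨l, hl⟩ : ∃ l : (Fin (m + 1) → ℤ) → ℕ, l = fun κ => (κ (Fin.last m) - κ 0).toNat := ⟨_, rfl⟩
  have hle : ∀ κ, l κ = (κ (Fin.last m) - κ 0).toNat := fun κ => by rw [hl]
  have hlM : ∀ κ ∈ K, M ≤ l κ := by
    intro κ hκ
    have := (hK κ hκ).2.2
    rw [hle]
    omega
  have h1 : ∑ κ ∈ K, (3 / 4 : ℝ) ^ (κ (Fin.last m) - κ 0) = ∑ κ ∈ K, (3 / 4 : ℝ) ^ (l κ) := by
    refine Finset.sum_congr rfl fun κ hκ => ?_
    have h2 : κ (Fin.last m) - κ 0 = ((l κ : ℕ) : ℤ) := by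
      have := (hK κ hκ).2.2
      rw [hle]
      omega
    rw [h2, zpow_natCast]
  rw [h1, ← Finset.sum_fiberwise_of_maps_to (s := K) (t := K.image l) (g := l)
    (fun κ hκ => Finset.mem_image_of_mem l hκ)]
  have h3 : ∀ j ∈ K.image l, (∑ κ ∈ K with l κ = j, (3 / 4 : ℝ) ^ (l κ)) ≤
      ((j : ℝ) + 1) ^ (m + 1) * (3 / 4 : ℝ) ^ j := by
    intro j _
    have h4 : (∑ κ ∈ K with l κ = j, (3 / 4 : ℝ) ^ (l κ)) =
        ((K.filter fun κ => l κ = j).card : ℝ) * (3 / 4 : ℝ) ^ j := by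
      rw [← nsmul_eq_mul, ← Finset.sum_const]
      refine Finset.sum_congr rfl fun κ hκ => ?_
      rw [(Finset.mem_filter.mp hκ).2]
    rw [h4]
    have h5 := card_fib m (K.filter fun κ => l κ = j) σ
      (fun κ hκ => ⟨(hK κ (Finset.mem_filter.mp hκ).1).1, (hK κ (Finset.mem_filter.mp hκ).1).2.1⟩) j
      (fun κ hκ => by rw [← hle]; exact (Finset.mem_filter.mp hκ).2)
    refine mul_le_mul_of_nonneg_right ?_ (by positivity)
    exact_mod_cast h5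
  refine (Finset.sum_le_sum h3).trans ?_
  have h6 : ∑ j ∈ K.image l, ((j : ℝ) + 1) ^ (m + 1) * (3 / 4 : ℝ) ^ j =
      ∑ k ∈ (K.image l).image (fun j => j - M),
        (((k + M : ℕ) : ℝ) + 1) ^ (m + 1) * (3 / 4 : ℝ) ^ (k + M) := by
    have hM : ∀ j ∈ K.image l, M ≤ j := by
      intro j hj
      obtain ⟨κ, hκ, rfl⟩ := Finset.mem_image.mp hj
      exact hlM κ hκ
    have h10 := Finset.sum_image (s := K.image l) (g := fun j => j - M)
      (f := fun k => (((k + M : ℕ) : ℝ) + 1) ^ (m + 1) * (3 / 4 : ℝ) ^ (k + M)) (by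
        intro a ha b hb hab
        have h7 := hM a ha
        have h8 := hM b hb
        have h9 : a - M = b - M := hab
        omega)
    rw [h10]
    refine Finset.sum_congr rfl fun j hj => ?_
    have : j - M + M = j := Nat.sub_add_cancel (hM j hj)
    rw [this]
  rw [h6]
  exact ((summable_nat_add_iff M).mpr (summable_cells m)).sum_le_tsum _ fun k _ => by positivity

theorem sum_cells (m : ℕ) : ∃ C : ℝ, 0 < C ∧ ∀ (K : Finset (Fin (m + 1) → ℤ)) (σ : ℤ),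
    (∀ κ ∈ K, Monotone κ ∧ ∑ i, κ i = σ) →
    ∑ κ ∈ K, (3 / 4 : ℝ) ^ (κ (Fin.last m) - κ 0) ≤ C := by
  refine ⟨(∑' k : ℕ, (((k + 0 : ℕ) : ℝ) + 1) ^ (m + 1) * (3 / 4 : ℝ) ^ (k + 0)) + 1, ?_, ?_⟩
  · have : 0 ≤ ∑' k : ℕ, (((k + 0 : ℕ) : ℝ) + 1) ^ (m + 1) * (3 / 4 : ℝ) ^ (k + 0) :=
      tsum_nonneg fun k => by positivity
    linarith
  · intro K σ hK
    have h := cells_le m 0 K σ fun κ hκ => ⟨(hK κ hκ).1, (hK κ hκ).2, by
      have := (hK κ hκ).1 (Fin.zero_le (Fin.last m))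
      push_cast
      linarith⟩
    linarith

theorem sum_cells_tail (m : ℕ) (η : ℝ) (hη : 0 < η) : ∃ M : ℕ,
    ∀ (K : Finset (Fin (m + 1) → ℤ)) (σ : ℤ),
    (∀ κ ∈ K, Monotone κ ∧ ∑ i, κ i = σ ∧ (M : ℤ) ≤ κ (Fin.last m) - κ 0) →
    ∑ κ ∈ K, (3 / 4 : ℝ) ^ (κ (Fin.last m) - κ 0) ≤ η := by
  have h1 := tendsto_sum_nat_add fun l : ℕ => ((l : ℝ) + 1) ^ (m + 1) * (3 / 4 : ℝ) ^ l
  obtain ⟨M, hM⟩ := (h1.eventually (gt_mem_nhds hη)).exists
  exact ⟨M, fun K σ hK => (cells_le m M K σ hK).trans hM.le⟩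

private theorem geom_aux (k : ℕ) (hk : 1 ≤ k) (s : Finset ℤ) :
    ∀ t : ℤ, (∀ σ ∈ s, σ ≤ t) → ∑ σ ∈ s, ((2 : ℝ) ^ (2 * σ)) ^ k ≤ 2 * ((2 : ℝ) ^ (2 * t)) ^ k := by
  induction s using Finset.induction_on_max with
  | empty =>
    intro t _
    rw [Finset.sum_empty]
    positivity
  | insert a s ha ih =>
    intro t ht
    have h1 := ih (a - 1) fun σ hσ => by
      have := ha σ hσ
      omega
    have hna : a ∉ s := fun h => lt_irrefl _ (ha a h)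
    rw [Finset.sum_insert hna]
    have h2 : (2 : ℝ) ^ (2 * (a - 1)) = (2 : ℝ) ^ (2 * a) * (1 / 4) := by
      rw [show 2 * (a - 1) = 2 * a + (-2) by ring, zpow_add₀ (by norm_num)]
      norm_num
    have h3 : ((1 : ℝ) / 4) ^ k ≤ 1 / 4 := by
      calc ((1 : ℝ) / 4) ^ k ≤ (1 / 4) ^ 1 := pow_le_pow_of_le_one (by norm_num) (by norm_num) hk
        _ = 1 / 4 := pow_one _
    have h4 : 0 < ((2 : ℝ) ^ (2 * a)) ^ k := by positivity
    have h5 : ((2 : ℝ) ^ (2 * a)) ^ k ≤ ((2 : ℝ) ^ (2 * t)) ^ k := by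
      refine pow_le_pow_left₀ (by positivity) (zpow_le_zpow_right₀ (by norm_num) ?_) k
      have := ht a (Finset.mem_insert_self a s)
      omega
    rw [h2, mul_pow] at h1
    have h6 : ((2 : ℝ) ^ (2 * a)) ^ k * (1 / 4) ^ k ≤ ((2 : ℝ) ^ (2 * a)) ^ k * (1 / 4) :=
      mul_le_mul_of_nonneg_left h3 h4.le
    linarith

theorem geom (k : ℕ) (hk : 1 ≤ k) (Y : ℝ) (hY : 0 ≤ Y) (s : Finset ℤ) (h : ∀ σ ∈ s, (2 : ℝ) ^ (2 * σ) ≤ Y) :
    ∑ σ ∈ s, ((2 : ℝ) ^ (2 * σ)) ^ k ≤ 2 * Y ^ k := by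
  rcases s.eq_empty_or_nonempty with rfl | hs
  · rw [Finset.sum_empty]
    positivity
  · refine (geom_aux k hk s (s.max' hs) fun σ hσ => s.le_max' σ hσ).trans ?_
    have := pow_le_pow_left₀ (by positivity) (h _ (s.max'_mem hs)) k
    linarith

end Pool.Agent.Helper32.DZ
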