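import Pool.Agent.Helper32.DZ.CellEvenS
import Pool.Agent.Helper32.DZ.EvenBoundS
import Pool.Agent.Helper32.DZ.EvenDensS
import Pool.Agent.Helper32.DZ.SumCells

set_option autoImplicit false

/-!
EVS-7 EvenMainS. Density zero in even degree, points with denominator `τ w^2`. As `even_main`.
-/

open Polynomial Matrix

namespace Pool.Agent.Helper32.DZ

private theorem em_group (m : ℕ) (K2 B Y : ℝ) (hK2 : 0 ≤ K2) (hB : 0 ≤ B) (hY : 0 ≤ Y)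
    (T : Finset (Fin (m + 1) → ℤ)) (c : (Fin (m + 1) → ℤ) → ℝ)
    (hc : ∀ κ ∈ T, c κ ≤ K2 * ((2 : ℝ) ^ (2 * ∑ i, κ i)) ^ (m + 2) *
      (3 / 4 : ℝ) ^ (κ (Fin.last m) - κ 0))
    (hT : ∀ σ : ℤ, ∑ κ ∈ T with ∑ i, κ i = σ, (3 / 4 : ℝ) ^ (κ (Fin.last m) - κ 0) ≤ B)
    (hs : ∀ κ ∈ T, (2 : ℝ) ^ (2 * ∑ i, κ i) ≤ Y) :
    ∑ κ ∈ T, c κ ≤ K2 * B * (2 * Y ^ (m + 2)) := by
  classical
  refine (Finset.sum_le_sum hc).trans ?_
  rw [← Finset.sum_fiberwise_of_maps_to (s := T) (t := T.image fun κ => ∑ i, κ i)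
    (g := fun κ => ∑ i, κ i) (fun κ hκ => Finset.mem_image_of_mem _ hκ)]
  have h1 : ∀ σ ∈ T.image (fun κ => ∑ i, κ i),
      (∑ κ ∈ T with ∑ i, κ i = σ, K2 * ((2 : ℝ) ^ (2 * ∑ i, κ i)) ^ (m + 2) *
        (3 / 4 : ℝ) ^ (κ (Fin.last m) - κ 0)) ≤ (K2 * B) * ((2 : ℝ) ^ (2 * σ)) ^ (m + 2) := by
    intro σ _
    have h2 : (∑ κ ∈ T with ∑ i, κ i = σ, K2 * ((2 : ℝ) ^ (2 * ∑ i, κ i)) ^ (m + 2) *
        (3 / 4 : ℝ) ^ (κ (Fin.last m) - κ 0)) =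
        K2 * ((2 : ℝ) ^ (2 * σ)) ^ (m + 2) *
          ∑ κ ∈ T with ∑ i, κ i = σ, (3 / 4 : ℝ) ^ (κ (Fin.last m) - κ 0) := by
      rw [Finset.mul_sum]
      refine Finset.sum_congr rfl fun κ hκ => ?_
      rw [(Finset.mem_filter.1 hκ).2]
    rw [h2]
    have h3 : 0 ≤ K2 * ((2 : ℝ) ^ (2 * σ)) ^ (m + 2) := by positivity
    refine (mul_le_mul_of_nonneg_left (hT σ) h3).trans (le_of_eq ?_)
    ring
  refine (Finset.sum_le_sum h1).trans ?_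
  rw [← Finset.mul_sum]
  refine mul_le_mul_of_nonneg_left ?_ (mul_nonneg hK2 hB)
  refine geom (m + 2) (by omega) Y hY _ ?_
  intro σ hσ
  obtain ⟨κ, hκ, rfl⟩ := Finset.mem_image.1 hσ
  exact hs κ hκ

private theorem em_card (m M L : ℕ) (T : Finset (Fin (m + 1) → ℤ)) (Y : ℝ)
    (hm : ∀ κ ∈ T, Monotone κ) (hM : ∀ κ ∈ T, κ (Fin.last m) - κ 0 < (M : ℤ))
    (h1 : ∀ κ ∈ T, (2 : ℝ) ^ (2 * ∑ i, κ i) ≤ Y)
    (h2 : ∀ κ ∈ T, Y / 4 ^ L < (2 : ℝ) ^ (2 * ∑ i, κ i)) :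
    T.card ≤ (L + 1) * (M + 1) ^ (m + 1) := by
  classical
  rcases T.eq_empty_or_nonempty with rfl | hne
  · simp
  obtain ⟨κm, hκm, hmax⟩ := T.exists_max_image (fun κ => ∑ i, κ i) hne
  obtain ⟨t, ht⟩ : ∃ t : ℤ, t = ∑ i, κm i := ⟨_, rfl⟩
  have hlow : ∀ κ ∈ T, t - L < ∑ i, κ i := by
    intro κ hκ
    have h3 : (2 : ℝ) ^ (2 * (t - L)) < (2 : ℝ) ^ (2 * ∑ i, κ i) := by
      refine lt_of_le_of_lt ?_ (h2 κ hκ)
      have h4 := h1 κm hκm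
      rw [← ht] at h4
      have h5 : (2 : ℝ) ^ (2 * (t - L)) = (2 : ℝ) ^ (2 * t) / 4 ^ L := by
        rw [show 2 * (t - (L : ℤ)) = 2 * t - 2 * (L : ℤ) by ring, zpow_sub₀ (by norm_num),
          _root_.zpow_mul (2 : ℝ) 2 (L : ℤ), zpow_natCast]
        norm_num
      rw [h5]
      exact div_le_div_of_nonneg_right h4 (by positivity)
    have h6 := (zpow_lt_zpow_iff_right₀ (by norm_num : (1 : ℝ) < 2)).1 h3
    linarith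
  have hcard : (Finset.range (L + 1) ×ˢ
      (Fintype.piFinset fun _ : Fin (m + 1) => Finset.range (M + 1))).card =
      (L + 1) * (M + 1) ^ (m + 1) := by
    rw [Finset.card_product, Fintype.card_piFinset]
    simp
  rw [← hcard]
  refine Finset.card_le_card_of_injOn
    (fun κ => ((t - ∑ i, κ i).toNat, fun i => (κ i - κ 0).toNat)) ?_ ?_
  · intro κ hκ
    rw [Finset.mem_coe] at hκ
    rw [Finset.mem_coe, Finset.mem_product, Fintype.mem_piFinset]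
    refine ⟨?_, fun i => ?_⟩
    · rw [Finset.mem_range]
      have h3 := hlow κ hκ
      show (t - ∑ i, κ i).toNat < L + 1
      omega
    · rw [Finset.mem_range]
      have h3 : κ i ≤ κ (Fin.last m) := hm κ hκ (Fin.le_last i)
      have h4 := hM κ hκ
      show (κ i - κ 0).toNat < M + 1
      omega
  · intro κ hκ κ' hκ' he
    rw [Finset.mem_coe] at hκ hκ'
    have he1 : (t - ∑ i, κ i).toNat = (t - ∑ i, κ' i).toNat := (Prod.ext_iff.1 he).1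
    have he2 : ∀ i, (κ i - κ 0).toNat = (κ' i - κ' 0).toNat := fun i =>
      congrFun (Prod.ext_iff.1 he).2 i
    have hσ : ∑ i, κ i = ∑ i, κ' i := by
      have h3 := hmax κ hκ
      have h4 := hmax κ' hκ'
      simp only [← ht] at h3 h4
      omega
    have hd : ∀ i, κ i - κ 0 = κ' i - κ' 0 := by
      intro i
      have h3 : κ 0 ≤ κ i := hm κ hκ (Fin.zero_le i)
      have h4 : κ' 0 ≤ κ' i := hm κ' hκ' (Fin.zero_le i)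
      have h5 := he2 i
      omega
    have h5 : ∑ i, (κ i - κ 0) = ∑ i, (κ' i - κ' 0) := Finset.sum_congr rfl fun i _ => hd i
    rw [Finset.sum_sub_distrib, Finset.sum_sub_distrib, hσ, Finset.sum_const, Finset.sum_const,
      Finset.card_univ, Fintype.card_fin, nsmul_eq_mul, nsmul_eq_mul] at h5
    have h6 : ((m + 1 : ℕ) : ℤ) * κ 0 = ((m + 1 : ℕ) : ℤ) * κ' 0 := by linarith
    have h7 : κ 0 = κ' 0 := mul_left_cancel₀ (by positivity) h6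
    funext i
    have := hd i
    omega

private theorem em_zero (m M L : ℕ) (Q : ℕ) (Y : ℝ)
    (hY : (Q : ℝ) ^ (m + 1) * (4 ^ L * (4 ^ M) ^ (m + 1)) ≤ Y)
    (κ : Fin (m + 1) → ℤ) (hm : Monotone κ) (hM : κ (Fin.last m) - κ 0 < (M : ℤ))
    (h2 : Y / 4 ^ L < (2 : ℝ) ^ (2 * ∑ i, κ i)) : (Q : ℝ) ≤ (2 : ℝ) ^ (2 * κ 0) := by
  have h4 : ∑ i, κ i ≤ ((m + 1 : ℕ) : ℤ) * (κ 0 + M) := by
    have h5 : ∀ i ∈ (Finset.univ : Finset (Fin (m + 1))), κ i ≤ κ 0 + M := by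
      intro i _
      have h6 : κ i ≤ κ (Fin.last m) := hm (Fin.le_last i)
      linarith
    have h7 := Finset.sum_le_card_nsmul Finset.univ κ (κ 0 + M) h5
    rwa [Finset.card_univ, Fintype.card_fin, nsmul_eq_mul] at h7
  have h5 : (2 : ℝ) ^ (2 * ∑ i, κ i) ≤ ((2 : ℝ) ^ (2 * κ 0)) ^ (m + 1) * (4 ^ M) ^ (m + 1) := by
    have h6 : (2 : ℝ) ^ (2 * ∑ i, κ i) ≤ (2 : ℝ) ^ (2 * (((m + 1 : ℕ) : ℤ) * (κ 0 + M))) :=
      zpow_le_zpow_right₀ (by norm_num) (by linarith)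
    refine h6.trans (le_of_eq ?_)
    have h7 : (4 : ℝ) ^ M = (2 : ℝ) ^ (2 * (M : ℤ)) := by
      rw [_root_.zpow_mul, zpow_natCast]
      norm_num
    rw [h7, ← mul_pow, ← zpow_add₀ (by norm_num : (2 : ℝ) ≠ 0), ← zpow_natCast,
      ← _root_.zpow_mul]
    congr 1
    ring
  have h6 : (Q : ℝ) ^ (m + 1) * (4 ^ M) ^ (m + 1) <
      ((2 : ℝ) ^ (2 * κ 0)) ^ (m + 1) * (4 ^ M) ^ (m + 1) := by
    refine lt_of_le_of_lt ?_ (lt_of_lt_of_le h2 h5)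
    rw [le_div_iff₀ (by positivity)]
    refine le_trans (le_of_eq ?_) hY
    ring
  have h7 : (Q : ℝ) ^ (m + 1) < ((2 : ℝ) ^ (2 * κ 0)) ^ (m + 1) :=
    lt_of_mul_lt_mul_right h6 (by positivity)
  exact (lt_of_pow_lt_pow_left₀ (m + 1) (by positivity) h7).le

private theorem em_total (m : ℕ) (K2 ε1 : ℝ) (hK2 : 1 ≤ K2) (hε1 : 0 < ε1) :
    ∃ δ : ℝ, 0 < δ ∧ ∀ Q : ℕ, ∃ Y0 : ℝ, ∀ Y : ℝ, Y0 ≤ Y → 0 ≤ Y →
      ∀ (S : Finset (Fin (m + 1) → ℤ)) (c : (Fin (m + 1) → ℤ) → ℝ),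
      (∀ κ ∈ S, Monotone κ) → (∀ κ ∈ S, (2 : ℝ) ^ (2 * ∑ i, κ i) ≤ Y) →
      (∀ κ ∈ S, c κ ≤ K2 * ((2 : ℝ) ^ (2 * ∑ i, κ i)) ^ (m + 2) *
        (3 / 4 : ℝ) ^ (κ (Fin.last m) - κ 0)) →
      (∀ κ ∈ S, (Q : ℝ) ≤ (2 : ℝ) ^ (2 * κ 0) →
        c κ ≤ δ * ((2 : ℝ) ^ (2 * ∑ i, κ i)) ^ (m + 2)) →
      ∑ κ ∈ S, c κ ≤ 3 * ε1 * Y ^ (m + 2) := by
  classical
  have hK20 : 0 < K2 := by linarith
  obtain ⟨C3, hC3, hC⟩ := sum_cells m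
  obtain ⟨M, hM⟩ := sum_cells_tail m (ε1 / (2 * K2)) (by positivity)
  obtain ⟨L, hL⟩ : ∃ L : ℕ, (1 / 4 : ℝ) ^ L * (2 * K2 * C3) ≤ ε1 := by
    obtain ⟨L, hL⟩ := exists_pow_lt_of_lt_one (show 0 < ε1 / (2 * K2 * C3) by positivity)
      (show (1 / 4 : ℝ) < 1 by norm_num)
    exact ⟨L, ((lt_div_iff₀ (by positivity)).1 hL).le⟩
  obtain ⟨N, hN⟩ : ∃ N : ℕ, N = (L + 1) * (M + 1) ^ (m + 1) := ⟨_, rfl⟩
  have hN0 : 0 < N := by rw [hN]; positivity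
  have hNr : (0 : ℝ) < N := by exact_mod_cast hN0
  refine ⟨ε1 / N, by positivity, fun Q => ⟨(Q : ℝ) ^ (m + 1) * (4 ^ L * (4 ^ M) ^ (m + 1)), ?_⟩⟩
  intro Y hY0 hY S c hmono hle hbd hdens
  have hsplit1 := Finset.sum_filter_add_sum_filter_not S
    (fun κ : Fin (m + 1) → ℤ => (M : ℤ) ≤ κ (Fin.last m) - κ 0) c
  have hsplit2 := Finset.sum_filter_add_sum_filter_not
    (S.filter fun κ : Fin (m + 1) → ℤ => ¬ (M : ℤ) ≤ κ (Fin.last m) - κ 0)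
    (fun κ : Fin (m + 1) → ℤ => (2 : ℝ) ^ (2 * ∑ i, κ i) ≤ Y / 4 ^ L) c
  have hYp : 0 ≤ Y ^ (m + 2) := by positivity
  -- tail
  have e1 : ∑ κ ∈ S.filter (fun κ : Fin (m + 1) → ℤ => (M : ℤ) ≤ κ (Fin.last m) - κ 0), c κ ≤
      ε1 * Y ^ (m + 2) := by
    refine (em_group m K2 (ε1 / (2 * K2)) Y hK20.le (by positivity) hY _ c
      (fun κ hκ => hbd κ (Finset.mem_filter.1 hκ).1) (fun σ => ?_)
      (fun κ hκ => hle κ (Finset.mem_filter.1 hκ).1)).trans (le_of_eq ?_)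
    · refine hM _ σ fun κ hκ => ?_
      obtain ⟨h1, h2⟩ := Finset.mem_filter.1 hκ
      obtain ⟨h3, h4⟩ := Finset.mem_filter.1 h1
      exact ⟨hmono κ h3, h2, h4⟩
    · field_simp
  -- small total
  have e2 : ∑ κ ∈ (S.filter fun κ : Fin (m + 1) → ℤ => ¬ (M : ℤ) ≤ κ (Fin.last m) - κ 0).filter
      (fun κ : Fin (m + 1) → ℤ => (2 : ℝ) ^ (2 * ∑ i, κ i) ≤ Y / 4 ^ L), c κ ≤
      ε1 * Y ^ (m + 2) := by
    refine (em_group m K2 C3 (Y / 4 ^ L) hK20.le hC3.le (by positivity) _ c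
      (fun κ hκ => hbd κ (Finset.mem_filter.1 (Finset.mem_filter.1 hκ).1).1) (fun σ => ?_)
      (fun κ hκ => (Finset.mem_filter.1 hκ).2)).trans ?_
    · refine hC _ σ fun κ hκ => ?_
      obtain ⟨h1, h2⟩ := Finset.mem_filter.1 hκ
      exact ⟨hmono κ (Finset.mem_filter.1 (Finset.mem_filter.1 h1).1).1, h2⟩
    · have h1 : (Y / 4 ^ L) ^ (m + 2) ≤ Y ^ (m + 2) * (1 / 4) ^ L := by
        rw [div_pow, div_eq_mul_inv]
        refine mul_le_mul_of_nonneg_left ?_ hYp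
        rw [← pow_mul, one_div, inv_pow]
        refine inv_anti₀ (by positivity) ?_
        refine pow_le_pow_right₀ (by norm_num) ?_
        exact Nat.le_mul_of_pos_right L (by omega)
      have h2 : K2 * C3 * (2 * (Y / 4 ^ L) ^ (m + 2)) ≤
          K2 * C3 * (2 * (Y ^ (m + 2) * (1 / 4) ^ L)) :=
        mul_le_mul_of_nonneg_left (mul_le_mul_of_nonneg_left h1 (by norm_num)) (by positivity)
      refine h2.trans ?_
      have h3 := mul_le_mul_of_nonneg_right hL hYp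
      refine le_trans (le_of_eq ?_) h3
      ring
  -- rest
  have e3 : ∑ κ ∈ (S.filter fun κ : Fin (m + 1) → ℤ => ¬ (M : ℤ) ≤ κ (Fin.last m) - κ 0).filter
      (fun κ : Fin (m + 1) → ℤ => ¬ (2 : ℝ) ^ (2 * ∑ i, κ i) ≤ Y / 4 ^ L), c κ ≤
      ε1 * Y ^ (m + 2) := by
    obtain ⟨T, hT⟩ : ∃ T : Finset (Fin (m + 1) → ℤ),
        T = (S.filter fun κ : Fin (m + 1) → ℤ => ¬ (M : ℤ) ≤ κ (Fin.last m) - κ 0).filter
      (fun κ : Fin (m + 1) → ℤ => ¬ (2 : ℝ) ^ (2 * ∑ i, κ i) ≤ Y / 4 ^ L) := ⟨_, rfl⟩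
    rw [← hT]
    have hTm : ∀ κ ∈ T, κ ∈ S ∧ κ (Fin.last m) - κ 0 < (M : ℤ) ∧
        Y / 4 ^ L < (2 : ℝ) ^ (2 * ∑ i, κ i) := by
      intro κ hκ
      rw [hT] at hκ
      obtain ⟨h1, h2⟩ := Finset.mem_filter.1 hκ
      obtain ⟨h3, h4⟩ := Finset.mem_filter.1 h1
      exact ⟨h3, not_le.1 h4, not_le.1 h2⟩
    have hcard := em_card m M L T Y (fun κ hκ => hmono κ (hTm κ hκ).1)
      (fun κ hκ => (hTm κ hκ).2.1) (fun κ hκ => hle κ (hTm κ hκ).1) (fun κ hκ => (hTm κ hκ).2.2)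
    rw [← hN] at hcard
    have h1 : ∀ κ ∈ T, c κ ≤ ε1 / N * Y ^ (m + 2) := by
      intro κ hκ
      obtain ⟨g1, g2, g3⟩ := hTm κ hκ
      refine (hdens κ g1 (em_zero m M L Q Y hY0 κ (hmono κ g1) g2 g3)).trans ?_
      refine mul_le_mul_of_nonneg_left ?_ (by positivity)
      exact pow_le_pow_left₀ (by positivity) (hle κ g1) _
    have h2 := Finset.sum_le_card_nsmul T c _ h1
    rw [nsmul_eq_mul] at h2
    refine h2.trans ?_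
    have h3 : (T.card : ℝ) ≤ N := by exact_mod_cast hcard
    have h4 : 0 ≤ ε1 / N * Y ^ (m + 2) := by positivity
    refine (mul_le_mul_of_nonneg_right h3 h4).trans (le_of_eq ?_)
    field_simp
  linarith

theorem even_main_s (m : ℕ) (hm : Odd m) (τ : ℤ) (ε : ℝ) (hε : 0 < ε) : ∃ H₀ : ℕ, ∀ H : ℕ, H₀ ≤ H →
    {a : Fin (m + 1 + 1) → ℤ | (∀ i, |a i| ≤ (H : ℤ)) ∧ Good a ∧ HasE τ a}.Finite ∧
    (({a : Fin (m + 1 + 1) → ℤ | (∀ i, |a i| ≤ (H : ℤ)) ∧ Good a ∧ HasE τ a}.ncard : ℕ) : ℝ) ≤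
      ε * (H : ℝ) ^ (m + 2) := by
  classical
  rcases eq_or_ne τ 0 with rfl | hτ
  · have h0 : ∀ a : Fin (m + 1 + 1) → ℤ, ¬ HasE 0 a := by
      rintro a ⟨r, s, w, c, -, hs, hs2, -⟩
      rw [zero_mul] at hs2
      exact hs hs2
    refine ⟨0, fun H _ => ?_⟩
    have h1 : {a : Fin (m + 1 + 1) → ℤ | (∀ i, |a i| ≤ (H : ℤ)) ∧ Good a ∧ HasE 0 a} = ∅ := by
      ext a
      simp only [Set.mem_setOf_eq, Set.mem_empty_iff_false, iff_false]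
      exact fun h => h0 a h.2.2
    rw [h1]
    refine ⟨Set.finite_empty, ?_⟩
    rw [Set.ncard_empty, Nat.cast_zero]
    positivity
  obtain ⟨K1, hK1, hcell⟩ := cell_even_s m hm τ
  obtain ⟨K2, hK2, hbd⟩ := even_bound_s m hm τ
  have hK1p : 0 < K1 := by linarith
  obtain ⟨δ, hδ, htot⟩ := em_total m K2 (ε / (3 * K1 ^ (m + 2))) hK2 (by positivity)
  obtain ⟨Q, hQ⟩ := even_dens_s m hm τ hτ δ hδ
  obtain ⟨Y0, hY0⟩ := htot Q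
  refine ⟨⌈Y0⌉₊ + 1, fun H hH => ?_⟩
  have hH1 : 1 ≤ H := by omega
  have hHY : Y0 ≤ K1 * H := by
    have h1 : Y0 ≤ (⌈Y0⌉₊ : ℝ) := Nat.le_ceil Y0
    have h2 : ((⌈Y0⌉₊ + 1 : ℕ) : ℝ) ≤ (H : ℝ) := by exact_mod_cast hH
    push_cast at h2
    have h3 : (0 : ℝ) ≤ (H : ℝ) := Nat.cast_nonneg H
    nlinarith
  have hfin : {a : Fin (m + 1 + 1) → ℤ | (∀ i, |a i| ≤ (H : ℤ)) ∧ Good a ∧ HasE τ a}.Finite := by
    refine (Set.finite_Icc (fun _ : Fin (m + 1 + 1) => -(H : ℤ)) (fun _ => (H : ℤ))).subset ?_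
    rintro a ⟨ha, -, -⟩
    exact ⟨fun i => (abs_le.1 (ha i)).1, fun i => (abs_le.1 (ha i)).2⟩
  refine ⟨hfin, ?_⟩
  obtain ⟨Fs, hFs⟩ : ∃ Fs : Finset (Fin (m + 1 + 1) → ℤ), Fs = hfin.toFinset := ⟨_, rfl⟩
  have hmem : ∀ a, a ∈ Fs ↔ ((∀ i, |a i| ≤ (H : ℤ)) ∧ Good a ∧ HasE τ a) := by
    intro a
    rw [hFs, Set.Finite.mem_toFinset]
    exact Iff.rfl
  have hncard : {a : Fin (m + 1 + 1) → ℤ | (∀ i, |a i| ≤ (H : ℤ)) ∧ Good a ∧ HasE τ a}.ncard =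
      Fs.card := by
    rw [hFs, Set.ncard_eq_toFinset_card _ hfin]
  have hch : ∀ a : Fin (m + 1 + 1) → ℤ, ∃ (A B : Matrix (Fin (m + 1)) (Fin (m + 1)) ℤ)
      (κ : Fin (m + 1) → ℤ), a ∈ Fs → PG A B ∧ pen A B = C ((-1) ^ ((m + 1) / 2)) * pol a ∧
      Monotone κ ∧ (2 : ℝ) ^ (2 * ∑ i, κ i) ≤ K1 * H ∧
      ∀ U ∈ Tr κ, PropA τ ((-1) ^ ((m + 1) / 2 - 1)) (Uᵀ * A * U) ∧
        ∀ i j, |(((Uᵀ * A * U) i j : ℤ) : ℝ)| < (2 : ℝ) ^ (κ i + κ j) ∧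
        |(((Uᵀ * B * U) i j : ℤ) : ℝ)| < (2 : ℝ) ^ (κ i + κ j) := by
    intro a
    by_cases ha : a ∈ Fs
    · obtain ⟨h1, h2, h3⟩ := (hmem a).1 ha
      obtain ⟨A, B, κ, h⟩ := hcell H hH1 a h1 h2 h3
      exact ⟨A, B, κ, fun _ => h⟩
    · exact ⟨0, 0, 0, fun h => absurd h ha⟩
  choose A B κ hAB using hch
  obtain ⟨c, hc⟩ : ∃ c : (Fin (m + 1) → ℤ) → ℝ,
      c = fun κ0 => ((Fs.filter fun a => κ a = κ0).card : ℝ) := ⟨_, rfl⟩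
  have hcell2 : ∀ κ0 ∈ Fs.image κ, CellES m τ κ0 (↑(Fs.filter fun a => κ a = κ0)) A B ∧
      (2 : ℝ) ^ (2 * ∑ i, κ0 i) ≤ K1 * H ∧ (Fs.filter fun a => κ a = κ0).Nonempty := by
    intro κ0 hκ0
    obtain ⟨a0, ha0, rfl⟩ := Finset.mem_image.1 hκ0
    obtain ⟨-, -, g4, g5, -⟩ := hAB a0 ha0
    refine ⟨⟨g4, ?_⟩, g5, ⟨a0, Finset.mem_filter.2 ⟨ha0, rfl⟩⟩⟩
    intro a ha
    rw [Finset.mem_coe, Finset.mem_filter] at ha
    obtain ⟨f1, f2, -, -, f6⟩ := hAB a ha.1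
    refine ⟨f1, f2, ?_⟩
    rw [ha.2] at f6
    exact f6
  have hsum : (Fs.card : ℝ) = ∑ κ0 ∈ Fs.image κ, c κ0 := by
    rw [Finset.card_eq_sum_card_image κ Fs, hc]
    push_cast
    rfl
  have hmain := hY0 (K1 * H) hHY (by positivity) (Fs.image κ) c
    (fun κ0 h0 => (hcell2 κ0 h0).1.1) (fun κ0 h0 => (hcell2 κ0 h0).2.1)
    (fun κ0 h0 => by
      obtain ⟨g1, g2, g3⟩ := hcell2 κ0 h0
      have h := (hbd κ0 _ (Finset.finite_toSet _) (Finset.coe_nonempty.2 g3) A B g1).2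
      rw [Set.ncard_coe_finset] at h
      rw [hc]
      exact h)
    (fun κ0 h0 hq => by
      obtain ⟨g1, g2, g3⟩ := hcell2 κ0 h0
      have h := hQ κ0 _ (Finset.finite_toSet _) A B g1 hq
      rw [Set.ncard_coe_finset] at h
      rw [hc]
      exact h)
  rw [hncard, hsum]
  refine hmain.trans (le_of_eq ?_)
  rw [mul_pow]
  field_simp

end Pool.Agent.Helper32.DZ
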