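import Pool.Agent.Helper32.DZ.Defs

set_option autoImplicit false

/-!
DZ-03 NonGood. Few tuples in the box are not good.

PROOF. If `a_n = 0`: `(2H+1)^n` tuples. If `a_n ≠ 0` and `a` is not good then the complex polynomial
`p = ∑ a_i X^i` of degree `n` has a double root (its `n` roots are not distinct; if they are distinct they
give `e`), so `p(ρ) = p'(ρ) = 0` for some `ρ` (`Polynomial.nodup_roots`, `Polynomial.Separable`, or: a root
of multiplicity `≥ 2` is a root of the derivative). `p'` does not depend on `a_0` and is not zero with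
degree `n - 1`, so given `(a_1, ..., a_n)` there are at most `n - 1` possible `ρ`, and
`a_0 = - ∑_(i ≥ 1) a_i ρ^i` has at most `n - 1` values: at most `(n-1)(2H+1)^n` tuples. Total `n (2H+1)^n`.
(Write `Fin (n+1) → ℤ` as `a_0` and a tail by `Fin.consEquiv` / `Fin.cons`; a set of tuples whose tail lies in a
set with `(2H+1)^n` elements and with at most `n` values of `a_0` for each tail: put the case `a_n = 0` in as
well, where all `2H + 1` values of `a_0` occur for the `(2H+1)^(n-1)` tails with last entry `0`.)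
-/

namespace Pool.Agent.Helper32.DZ

open Polynomial Finset

/-- the part of the polynomial without the constant term -/
private noncomputable def ngQ {n : ℕ} (t : Fin n → ℤ) : ℂ[X] :=
  ∑ i : Fin n, C (t i : ℂ) * X ^ ((i : ℕ) + 1)

private lemma ngQ_natDegree {n : ℕ} (t : Fin n → ℤ) : (ngQ t).natDegree ≤ n := by
  unfold ngQ
  apply natDegree_sum_le_of_forall_le
  intro i _
  refine (natDegree_C_mul_X_pow_le _ _).trans ?_
  exact i.2

private lemma ngQ_coeff {n : ℕ} (t : Fin n → ℤ) (i : Fin n) :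
    (ngQ t).coeff ((i : ℕ) + 1) = t i := by
  unfold ngQ
  rw [finsetSum_coeff, Finset.sum_eq_single i]
  · rw [coeff_C_mul_X_pow, if_pos rfl]
  · intro j _ hj
    rw [coeff_C_mul_X_pow, if_neg]
    intro h
    apply hj
    apply Fin.ext
    omega
  · intro h
    exact absurd (Finset.mem_univ i) h

private lemma ngQ_eval {n : ℕ} (a : Fin (n + 1) → ℤ) (z : ℂ) :
    (C (a 0 : ℂ) + ngQ (Fin.tail a)).eval z = ∑ i, (a i : ℂ) * z ^ (i : ℕ) := by
  unfold ngQ
  rw [Fin.sum_univ_succ, eval_add, eval_C, eval_finsetSum]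
  congr 1
  · simp
  · apply Finset.sum_congr rfl
    intro i _
    rw [eval_mul, eval_C, eval_pow, eval_X]
    rfl

private lemma ng_double {n : ℕ} (hn : 1 ≤ n) (a : Fin (n + 1) → ℤ) (h0 : a (Fin.last n) ≠ 0)
    (hb : ¬ Good a) :
    ∃ ρ : ℂ, ρ ∈ (derivative (ngQ (Fin.tail a))).roots ∧ (a 0 : ℂ) = -(ngQ (Fin.tail a)).eval ρ := by
  obtain ⟨m, rfl⟩ : ∃ m, n = m + 1 := ⟨n - 1, by omega⟩
  set p : ℂ[X] := C (a 0 : ℂ) + ngQ (Fin.tail a) with hp
  have hlc : p.coeff (m + 1) = (a (Fin.last (m + 1)) : ℂ) := by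
    rw [hp, coeff_add, coeff_C, if_neg (Nat.succ_ne_zero m), zero_add]
    have := ngQ_coeff (Fin.tail a) (Fin.last m)
    rw [Fin.val_last] at this
    rw [this]
    rfl
  have hlc0 : p.coeff (m + 1) ≠ 0 := by
    rw [hlc]
    exact_mod_cast h0
  have hdeg : p.natDegree = m + 1 := by
    apply le_antisymm
    · rw [hp]
      refine (natDegree_add_le _ _).trans (max_le ?_ (ngQ_natDegree _))
      rw [natDegree_C]
      exact Nat.zero_le _
    · exact le_natDegree_of_ne_zero hlc0
  have hp0 : p ≠ 0 := by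
    intro h
    rw [h, coeff_zero] at hlc0
    exact hlc0 rfl
  have hlead : p.leadingCoeff = (a (Fin.last (m + 1)) : ℂ) := by
    rw [leadingCoeff, hdeg, hlc]
  have hsp : p.Splits := IsAlgClosed.splits p
  have hder : derivative p = derivative (ngQ (Fin.tail a)) := by
    rw [hp, derivative_add, derivative_C, zero_add]
  have hder0 : derivative p ≠ 0 := by
    intro h
    have h1 : (derivative p).coeff m = 0 := by rw [h, coeff_zero]
    rw [coeff_derivative] at h1
    rcases mul_eq_zero.1 h1 with h2 | h2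
    · exact hlc0 h2
    · exact Nat.cast_add_one_ne_zero m h2
  by_cases hnd : p.roots.Nodup
  · exfalso
    apply hb
    refine ⟨h0, ?_⟩
    have hcard : p.roots.toFinset.card = m + 1 := by
      rw [Multiset.toFinset_card_of_nodup hnd, ← hsp.natDegree_eq_card_roots, hdeg]
    let e := (Finset.equivFinOfCardEq hcard).symm
    refine ⟨fun i => (e i : ℂ), fun i j hij => e.injective (Subtype.ext hij), ?_⟩
    intro z
    rw [← ngQ_eval a z, ← hp, hsp.eval_eq_prod_roots, hlead]
    congr 1
    have h1 : ∏ i, (z - (e i : ℂ)) = ∏ r : p.roots.toFinset, (z - (r : ℂ)) :=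
      Equiv.prod_comp e (fun r : p.roots.toFinset => z - (r : ℂ))
    rw [h1, Finset.prod_coe_sort p.roots.toFinset (fun r => z - r)]
    rw [Finset.prod, Multiset.toFinset_val, Multiset.dedup_eq_self.2 hnd]
  · rw [Multiset.nodup_iff_count_le_one] at hnd
    push Not at hnd
    obtain ⟨ρ, hρ⟩ := hnd
    rw [count_roots] at hρ
    have h2 := (one_lt_rootMultiplicity_iff_isRoot hp0).1 hρ
    obtain ⟨h3, h4⟩ := h2
    refine ⟨ρ, ?_, ?_⟩
    · rw [← hder, mem_roots hder0]
      exact h4
    · have h5 : p.eval ρ = 0 := by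
        exact h3
      rw [hp, eval_add, eval_C] at h5
      linear_combination h5

theorem nongood_card (n H : ℕ) (hn : 1 ≤ n) :
    {a : Fin (n + 1) → ℤ | (∀ i, |a i| ≤ (H : ℤ)) ∧ ¬ Good a}.Finite ∧
    {a : Fin (n + 1) → ℤ | (∀ i, |a i| ≤ (H : ℤ)) ∧ ¬ Good a}.ncard ≤ n * (2 * H + 1) ^ n := by
  classical
  set F : Finset (Fin n → ℤ) := Fintype.piFinset (fun _ => Finset.Icc (-(H : ℤ)) H) with hF
  have hFc : F.card = (2 * H + 1) ^ n := by
    rw [hF, Fintype.card_piFinset, prod_const, card_univ, Fintype.card_fin, Int.card_Icc]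
    congr 1
    omega
  set A : Finset (Fin (n + 1) → ℤ) := F.image (fun t => Fin.snoc (α := fun _ => ℤ) t 0) with hA
  have hAc : A.card ≤ (2 * H + 1) ^ n := by
    rw [← hFc]
    exact card_image_le
  let g : (Fin n → ℤ) → ℂ → ℤ := fun t ρ =>
    if h : ∃ m : ℤ, (m : ℂ) = -(ngQ t).eval ρ then h.choose else 0
  have hg : ∀ (t : Fin n → ℤ) (ρ : ℂ) (m : ℤ), (m : ℂ) = -(ngQ t).eval ρ → g t ρ = m := by
    intro t ρ m hm
    have h : ∃ m : ℤ, (m : ℂ) = -(ngQ t).eval ρ := ⟨m, hm⟩
    have h1 : g t ρ = h.choose := dif_pos h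
    have h2 := h.choose_spec
    rw [h1]
    have h3 : ((h.choose : ℤ) : ℂ) = (m : ℂ) := h2.trans hm.symm
    exact_mod_cast h3
  set B : Finset (Fin (n + 1) → ℤ) := F.biUnion (fun t =>
    (derivative (ngQ t)).roots.toFinset.image (fun ρ => Fin.cons (α := fun _ => ℤ) (g t ρ) t)) with hB
  have hBc : B.card ≤ (2 * H + 1) ^ n * (n - 1) := by
    rw [← hFc]
    apply card_biUnion_le_card_mul
    intro t _
    refine card_image_le.trans ((Multiset.toFinset_card_le _).trans ((card_roots' _).trans ?_))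
    refine (natDegree_derivative_le _).trans ?_
    have := ngQ_natDegree t
    omega
  have hsub : {a : Fin (n + 1) → ℤ | (∀ i, |a i| ≤ (H : ℤ)) ∧ ¬ Good a} ⊆ ((A ∪ B : Finset _) : Set _) := by
    rintro a ⟨ha, hb⟩
    rw [Finset.mem_coe, Finset.mem_union]
    by_cases h0 : a (Fin.last n) = 0
    · left
      rw [hA, Finset.mem_image]
      refine ⟨Fin.init a, ?_, ?_⟩
      · rw [hF, Fintype.mem_piFinset]
        intro i
        rw [Finset.mem_Icc]
        exact abs_le.1 (ha _)
      · have := Fin.snoc_init_self a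
        rw [h0] at this
        exact this
    · right
      obtain ⟨ρ, h1, h2⟩ := ng_double hn a h0 hb
      rw [hB, Finset.mem_biUnion]
      refine ⟨Fin.tail a, ?_, ?_⟩
      · rw [hF, Fintype.mem_piFinset]
        intro i
        rw [Finset.mem_Icc]
        exact abs_le.1 (ha _)
      · rw [Finset.mem_image]
        refine ⟨ρ, Multiset.mem_toFinset.2 h1, ?_⟩
        rw [hg _ _ _ h2]
        exact Fin.cons_self_tail a
  refine ⟨(Finset.finite_toSet _).subset hsub, ?_⟩
  have h3 := Set.ncard_le_ncard hsub (Finset.finite_toSet _)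
  rw [Set.ncard_coe_finset] at h3
  refine h3.trans ((card_union_le _ _).trans ?_)
  have h4 : n * (2 * H + 1) ^ n = (2 * H + 1) ^ n + (2 * H + 1) ^ n * (n - 1) := by
    obtain ⟨m, rfl⟩ : ∃ m, n = m + 1 := ⟨n - 1, by omega⟩
    rw [Nat.add_sub_cancel]
    ring
  rw [h4]
  exact add_le_add hAc hBc

end Pool.Agent.Helper32.DZ
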