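import Pool.Agent.Helper32.DZ.PivotConstr
import Pool.Agent.Helper32.DZ.Bracket

set_option autoImplicit false

/-!
DZ-38 OddPos. The pairs with `S 0 0 = 0`: saving of `√H`. Size `d = m + 1`, `m = 2 g`, `g ≥ 1`.

PROOF. `w = 2c + t + 1`, `R = 2^t`, `b = 8 c d^2`; `bracket`: `2 Xk ≤ Dk + m κ_last + b`; `κ_last ≤ 2c - κ 0`.
The set is the union of `T_k = {(∀ i < k, S i i = 0) ∧ S k k ≠ 0}`, `1 ≤ k ≤ m`, and `T' = {all S i i = 0}`.
SIZE of `T_k`: sum over `s = S k k`, a nonzero integer with `|s| < 2 H 2^(2 κ k)`: at most `4 H 2^(2 κ k)` values (none if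
`2 H 2^(2 κ k) ≤ 1`), each with `odd_fixed` (constant `K1`): `#T_k ≤ 4 K1 R^(d^2) H^(d-k) 2^e`,
`e = (d-k) κ k + ∑_(j ≥ k) κ j + 2 Xk`. Let `T_k` be nonempty (else trivial). `pivot_constr` for one of its elements:
CASE `1 ≤ k < g`: `κ k ≤ κ 0 + k w`. So `∑_(j<k) κ j ≥ k κ 0 ≥ k κ k - k^2 w`, `∑_(j≥k) κ j ≤ c - k κ k + k^2 w`,
`m κ_last ≤ 2 c m - m κ 0 ≤ 2 c m - m κ k + m k w`. `e ≤ Dk + (d - k - k - m) κ k + C0 = Dk + (1 - 2k) κ k + C0`,
`C0 = c + d^2 w + 2cm + m d w + b`. As `2^(-2 κ k) < 2H`: `(2^((1-2k) κ k))^2 = (2^(-2 κ k))^(2k-1) ≤ (2H)^(2k-1)`, so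
`#T_k^2 ≤ C 2^(2 Dk) H^(2(d-k)) (2H)^(2k-1) ≤ C' 2^(2 Dk) H^(2d-1)`, `2d - 1 = 2m + 1`.
CASE `k ≥ g`: `κ g ≤ κ 0 + g w`, `κ g ≥ 1` (`2 κ g ≥ 1`), so `- g w ≤ κ 0` and `κ_last ≤ 2c + g w`: all `κ j` are bounded by
`W = 2c + g w` in absolute value, `e ≤ Dk + 2 d W + m W + b`, `#T_k ≤ C H^(d-k) 2^(Dk) ≤ C H^(d-1) 2^(Dk)` (`k ≥ g ≥ 1`), the square is
`≤ C^2 2^(2 Dk) H^(2d-2)`.
`T'`: as in the case `k ≥ g` (`pivot_constr` with `k = d`), `odd_inf`: `#T' ≤ C 2^(Dk)`.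
The number of sets is `m + 1`, and `(∑ x_k)^2 ≤ (m+1) ∑ x_k^2`.
-/

open Matrix

namespace Pool.Agent.Helper32.DZ

private lemma steps {m g : ℕ} (κ : Fin (m + 1) → ℤ) (w : ℤ) (k : ℕ)
    (h : ∀ i j : Fin (m + 1), (i : ℕ) < k → (i : ℕ) < g → (j : ℕ) = i + 1 → κ j < κ i + w) :
    ∀ (j : ℕ) (hj : j < m + 1), j ≤ k → j ≤ g → κ ⟨j, hj⟩ ≤ κ 0 + j * w := by
  intro j
  induction j with
  | zero =>
    intro hj _ _
    have : (⟨0, hj⟩ : Fin (m + 1)) = 0 := rfl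
    rw [this]
    simp
  | succ j ih =>
    intro hj h1 h2
    have h3 := ih (by omega) (by omega) (by omega)
    have h4 := h ⟨j, by omega⟩ ⟨j + 1, hj⟩ (by show j < k; omega) (by show j < g; omega) rfl
    push_cast
    linarith

private lemma sum_gt_le {m : ℕ} (κ : Fin (m + 1) → ℤ) (hκ : Monotone κ) (k : Fin (m + 1)) :
    (∑ j, if k < j then κ j else 0) + κ k + ((k : ℕ) : ℤ) * κ 0 ≤ ∑ j, κ j := by
  have h1 : ∑ j, κ j = (∑ j, if k < j then κ j else 0) + (∑ j, if j = k then κ j else 0) +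
      ∑ j, if j < k then κ j else 0 := by
    rw [← Finset.sum_add_distrib, ← Finset.sum_add_distrib]
    apply Finset.sum_congr rfl
    intro j _
    rcases lt_trichotomy j k with h | h | h
    · rw [if_neg (not_lt.mpr h.le), if_neg h.ne, if_pos h]; ring
    · subst h; simp
    · rw [if_pos h, if_neg h.ne', if_neg (not_lt.mpr h.le)]; ring
  have h2 : (∑ j, if j = k then κ j else 0) = κ k := by simp
  have h3 : ((k : ℕ) : ℤ) * κ 0 ≤ ∑ j, if j < k then κ j else 0 := by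
    have h4 : ((k : ℕ) : ℤ) * κ 0 = ∑ j : Fin (m + 1), if j < k then κ 0 else 0 := by
      rw [← Finset.sum_filter, Finset.sum_const]
      have : (Finset.univ.filter (fun j : Fin (m + 1) => j < k)) = Finset.Iio k := by
        ext j; simp
      rw [this, Fin.card_Iio, nsmul_eq_mul]
    rw [h4]
    apply Finset.sum_le_sum
    intro j _
    split_ifs
    · exact hκ (Fin.zero_le j)
    · exact le_refl _
  rw [h1, h2]
  linarith

private lemma sum_gt_le' {m : ℕ} (κ : Fin (m + 1) → ℤ) (W : ℤ) (hW : 0 ≤ W) (h : ∀ j, κ j ≤ W)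
    (k : Fin (m + 1)) : (∑ j, if k < j then κ j else 0) ≤ ((m : ℤ) + 1) * W := by
  calc (∑ j, if k < j then κ j else 0) ≤ ∑ _j : Fin (m + 1), W := by
        apply Finset.sum_le_sum
        intro j _
        split_ifs
        · exact h j
        · exact hW
    _ = ((m : ℤ) + 1) * W := by
        rw [Finset.sum_const, Finset.card_univ, Fintype.card_fin, nsmul_eq_mul]
        push_cast
        ring

private lemma count_nonzero {α : Type} (T : Set α) (hT : T.Finite) (f : α → ℤ) (X B : ℝ) (hX : 0 ≤ X)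
    (h0 : ∀ M ∈ T, f M ≠ 0 ∧ |((f M : ℤ) : ℝ)| < X)
    (hB : ∀ s : ℤ, s ≠ 0 → (({M ∈ T | f M = s}.ncard : ℕ) : ℝ) ≤ B) :
    ((T.ncard : ℕ) : ℝ) ≤ 2 * X * B := by
  classical
  set n : ℕ := ⌊X⌋₊ with hn
  set I : Finset ℤ := (Finset.Icc (-(n : ℤ)) n).erase 0 with hI
  have hIc : (I.card : ℝ) ≤ 2 * X := by
    have h1 : I.card = 2 * n := by
      rw [hI, Finset.card_erase_of_mem (by simp), Int.card_Icc]
      omega
    rw [h1]
    push_cast
    have := Nat.floor_le hX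
    linarith
  have hB0 : 0 ≤ B := le_trans (Nat.cast_nonneg _) (hB 1 one_ne_zero)
  have hsub : T ⊆ ⋃ s ∈ I, {M ∈ T | f M = s} := by
    intro M hM
    obtain ⟨h1, h2⟩ := h0 M hM
    simp only [Set.mem_iUnion]
    refine ⟨f M, ?_, hM, rfl⟩
    rw [hI, Finset.mem_erase, Finset.mem_Icc]
    refine ⟨h1, ?_⟩
    have h3 : ((|f M| : ℤ) : ℝ) < X := by rw [Int.cast_abs]; exact h2
    have h4 : (|f M|).toNat ≤ n := by
      apply Nat.le_floor
      have : ((|f M|.toNat : ℕ) : ℝ) = ((|f M| : ℤ) : ℝ) := by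
        have h5 : (((|f M|).toNat : ℕ) : ℤ) = |f M| := Int.toNat_of_nonneg (abs_nonneg _)
        exact_mod_cast h5
      rw [this]
      exact h3.le
    have h5 : |f M| ≤ (n : ℤ) := by
      have := Int.self_le_toNat (|f M|)
      omega
    exact abs_le.mp h5
  have h1 : T.ncard ≤ ∑ s ∈ I, {M ∈ T | f M = s}.ncard := by
    refine le_trans (Set.ncard_le_ncard hsub ?_) (Finset.set_ncard_biUnion_le _ _)
    apply Set.Finite.subset hT
    intro M hM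
    simp only [Set.mem_iUnion] at hM
    obtain ⟨s, _, h, _⟩ := hM
    exact h
  calc ((T.ncard : ℕ) : ℝ) ≤ ((∑ s ∈ I, {M ∈ T | f M = s}.ncard : ℕ) : ℝ) := by exact_mod_cast h1
    _ = ∑ s ∈ I, (({M ∈ T | f M = s}.ncard : ℕ) : ℝ) := by push_cast; rfl
    _ ≤ ∑ _s ∈ I, B := by
        apply Finset.sum_le_sum
        intro s hs
        apply hB
        exact (Finset.mem_erase.mp hs).1
    _ = (I.card : ℝ) * B := by rw [Finset.sum_const, nsmul_eq_mul]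
    _ ≤ 2 * X * B := mul_le_mul_of_nonneg_right hIc hB0

/-- final step for one piece -/
private lemma piece (x A E F Y Z : ℝ) (hx : 0 ≤ x) (h : x ≤ A * E * F * Y)
    (hY : Y ^ 2 ≤ Z) : x ^ 2 ≤ A ^ 2 * F ^ 2 * Z * E ^ 2 := by
  have h1 : x ^ 2 ≤ (A * E * F * Y) ^ 2 := pow_le_pow_left₀ hx h 2
  calc x ^ 2 ≤ (A * E * F * Y) ^ 2 := h1
    _ = (A * E * F) ^ 2 * Y ^ 2 := by ring
    _ ≤ (A * E * F) ^ 2 * Z := mul_le_mul_of_nonneg_left hY (sq_nonneg _)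
    _ = A ^ 2 * F ^ 2 * Z * E ^ 2 := by ring

theorem odd_pos (m : ℕ) (hm : Even m) (h2 : 2 ≤ m) (c t : ℕ) : ∃ K : ℝ, 1 ≤ K ∧
    ∀ H : ℕ, 1 ≤ H → ∀ (q : ℕ) (a : ℤ), Squarefree q → (q : ℤ) ∣ a → (H : ℝ) ≤ 2 ^ t * q →
    ∀ κ : Fin (m + 1) → ℤ, Monotone κ →
    (∀ i : Fin (m + 1), 1 ≤ κ i + κ i.rev ∧ κ i + κ i.rev ≤ 2 * (c : ℤ)) → ∑ i, κ i ≤ (c : ℤ) →
    (({M ∈ OT (m + 1) H κ a | M.2 0 0 = 0}.ncard : ℕ) : ℝ) ^ 2 ≤
      K * ((2 : ℝ) ^ (Dk κ)) ^ 2 * (H : ℝ) ^ (2 * m + 1) := by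
  classical
  obtain ⟨g, hg⟩ := hm
  obtain ⟨K1, hK1, hf1⟩ := odd_fixed (m + 1)
  obtain ⟨K2, hK2, hf2⟩ := odd_inf (m + 1)
  set w : ℤ := 2 * (c : ℤ) + t + 1 with hw
  set W : ℤ := 2 * (c : ℤ) + m * w with hW
  set CC : ℤ := c + ((m : ℤ) + 1) ^ 2 * w + 2 * c * m + m * (m + 1) * w + 8 * c * ((m : ℤ) + 1) ^ 2 +
    3 * (m + 1) * W + m * W with hCC
  set A : ℝ := 4 * (K1 + K2) * ((2 : ℝ) ^ t) ^ ((m + 1) ^ 2) with hA
  have hw0 : 0 ≤ w := by positivity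
  have hW0 : 0 ≤ W := by positivity
  have hCC0 : 0 ≤ CC := by positivity
  have hR1 : (1 : ℝ) ≤ 2 ^ t := one_le_pow₀ (by norm_num)
  have hR2 : (1 : ℝ) ≤ ((2 : ℝ) ^ t) ^ ((m + 1) ^ 2) := one_le_pow₀ hR1
  have hA1 : 1 ≤ A := by
    rw [hA]
    nlinarith
  have hCC1 : (1 : ℝ) ≤ (2 : ℝ) ^ CC := one_le_zpow₀ (by norm_num) hCC0
  refine ⟨((m : ℝ) + 2) ^ 2 * (A ^ 2 * ((2 : ℝ) ^ CC) ^ 2 * 2 ^ (2 * m + 1)), ?_, ?_⟩
  · have e1 : (1 : ℝ) ≤ ((m : ℝ) + 2) ^ 2 := one_le_pow₀ (by have := Nat.cast_nonneg (α := ℝ) m; linarith)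
    have e2 : (1 : ℝ) ≤ A ^ 2 := one_le_pow₀ hA1
    have e3 : (1 : ℝ) ≤ ((2 : ℝ) ^ CC) ^ 2 := one_le_pow₀ hCC1
    have e4 : (1 : ℝ) ≤ 2 ^ (2 * m + 1) := one_le_pow₀ (by norm_num)
    exact one_le_mul_of_one_le_of_one_le e1
      (one_le_mul_of_one_le_of_one_le (one_le_mul_of_one_le_of_one_le e2 e3) e4)
  intro H hH q a hq hqa hHq κ hκ hc hsum
  have hH1 : (1 : ℝ) ≤ H := by exact_mod_cast hH
  have hOT := ot_finite (m + 1) H κ a
  have hbr := bracket (m := m) ⟨g, hg⟩ κ hκ (c : ℤ) hc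
  have h0last := hc 0
  rw [Fin.rev_zero] at h0last
  have hgr : κ ⟨g, by omega⟩ + κ ⟨g, by omega⟩ ≥ 1 := by
    have := (hc ⟨g, by omega⟩).1
    have e : (⟨g, by omega⟩ : Fin (m + 1)).rev = ⟨g, by omega⟩ := by
      apply Fin.ext
      rw [Fin.val_rev]
      show m + 1 - (g + 1) = g
      omega
    rw [e] at this
    exact this
  set Z : ℝ := 2 ^ (2 * m + 1) * (H : ℝ) ^ (2 * m + 1) with hZ
  -- bounded case
  have hbd : ∀ k : ℕ, g ≤ k → (∀ j : ℕ, ∀ hj : j < m + 1, j ≤ k → j ≤ g → κ ⟨j, hj⟩ ≤ κ 0 + j * w) →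
      ∀ j, κ j ≤ W := by
    intro k hk hs j
    have h3 := hs g (by omega) hk le_rfl
    have h4 : κ j ≤ κ (Fin.last m) := hκ (Fin.le_last j)
    have h5 : (g : ℤ) * w ≤ m * w := by
      apply mul_le_mul_of_nonneg_right _ hw0
      have : g ≤ m := by omega
      exact_mod_cast this
    rw [hW]
    linarith [h0last.2, hgr]
  -- the pieces
  have hT : ∀ k : Fin (m + 1), 1 ≤ (k : ℕ) →
      ((({M ∈ OT (m + 1) H κ a | (∀ i, i < k → M.2 i i = 0) ∧ M.2 k k ≠ 0}.ncard : ℕ) : ℝ)) ^ 2 ≤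
      A ^ 2 * ((2 : ℝ) ^ CC) ^ 2 * Z * ((2 : ℝ) ^ (Dk κ)) ^ 2 := by
    intro k hk1
    set T := {M ∈ OT (m + 1) H κ a | (∀ i, i < k → M.2 i i = 0) ∧ M.2 k k ≠ 0} with hTdef
    have hTf : T.Finite := hOT.subset (fun M hM => hM.1)
    have hkm : (k : ℕ) ≤ m := by have := k.2; omega
    rcases T.eq_empty_or_nonempty with hemp | ⟨M, hM⟩
    · rw [hemp, Set.ncard_empty]
      simp only [Nat.cast_zero, ne_eq, OfNat.ofNat_ne_zero, not_false_eq_true, zero_pow]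
      positivity
    have hpc := pivot_constr (d := m + 1) (g := g) (by omega) κ hκ (c : ℤ) hc H q t a hq hqa hHq M hM.1
      (k : ℕ) (fun i hi => hM.2.1 i (Fin.lt_def.mpr hi))
    have hst := steps (g := g) κ w (k : ℕ) (fun i j h1 h3 h4 => by
      have := hpc i j h1 h3 h4
      rw [hw]; linarith)
    set X : ℝ := 2 * (H : ℝ) * (2 : ℝ) ^ (κ k + κ k) with hX
    have hX0 : 0 < X := by positivity
    have hX1 : 1 < X := by
      have h3 := hM.1.2.1.2 k k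
      have h4 : (1 : ℝ) ≤ |((M.2 k k : ℤ) : ℝ)| := by
        have : (1 : ℤ) ≤ |M.2 k k| := Int.one_le_abs hM.2.2
        exact_mod_cast this
      exact lt_of_le_of_lt h4 h3
    set E0 : ℤ := (((m + 1 - 1 - (k : ℕ) : ℕ) : ℤ) * κ k + (∑ j, if k < j then κ j else 0) +
          2 * Xk κ) with hE0
    have hcount : ((T.ncard : ℕ) : ℝ) ≤ 2 * X * (K1 * ((2 : ℝ) ^ t) ^ ((m + 1) ^ 2) *
        (H : ℝ) ^ (m + 1 - 1 - (k : ℕ)) * (2 : ℝ) ^ E0) := by
      apply count_nonzero T hTf (fun M => M.2 k k) X _ hX0.le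
      · intro M hM
        exact ⟨hM.2.2, hM.1.2.1.2 k k⟩
      · intro s hs
        refine le_trans ?_ (hf1 ((2 : ℝ) ^ t) hR1 H hH q a hq hqa hHq κ hκ k s hs)
        have : {M ∈ T | M.2 k k = s}.ncard ≤
            {M ∈ OT (m + 1) H κ a | (∀ i, i < k → M.2 i i = 0) ∧ M.2 k k = s}.ncard := by
          apply Set.ncard_le_ncard
          · intro M hM
            exact ⟨hM.1.1, hM.1.2.1, hM.2⟩
          · exact hOT.subset (fun M hM => hM.1)
        exact_mod_cast this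
    -- exponent
    have hE : (2 : ℝ) ^ (κ k + κ k) * (2 : ℝ) ^ E0 = (2 : ℝ) ^ (κ k + κ k + E0) := by
      rw [zpow_add₀ (by norm_num : (2 : ℝ) ≠ 0) (κ k + κ k) E0]
    have hmk : ((m + 1 - 1 - (k : ℕ) : ℕ) : ℤ) = (m : ℤ) - (k : ℕ) := by
      have : m + 1 - 1 - (k : ℕ) = m - (k : ℕ) := by omega
      rw [this, Nat.cast_sub hkm]
    have hcount2 : ((T.ncard : ℕ) : ℝ) ≤ 4 * K1 * ((2 : ℝ) ^ t) ^ ((m + 1) ^ 2) *
        ((H : ℝ) ^ (m + 1 - (k : ℕ)) * (2 : ℝ) ^ (κ k + κ k + E0)) := by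
      refine hcount.trans (le_of_eq ?_)
      have e1 : m + 1 - (k : ℕ) = (m + 1 - 1 - (k : ℕ)) + 1 := by omega
      rw [hX, e1, pow_succ, ← hE]
      ring
    have hK1A : 4 * K1 * ((2 : ℝ) ^ t) ^ ((m + 1) ^ 2) ≤ A := by
      rw [hA]
      apply mul_le_mul_of_nonneg_right _ (by positivity)
      linarith
    have hkc0 : (0 : ℤ) ≤ ((k : ℕ) : ℤ) := Nat.cast_nonneg _
    have hkm' : ((k : ℕ) : ℤ) ≤ m := by exact_mod_cast hkm
    have hlast : κ k ≤ κ (Fin.last m) := hκ (Fin.le_last k)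
    rcases lt_or_ge (k : ℕ) g with hkg | hkg
    · -- case A
      have h3 : κ k ≤ κ 0 + ((k : ℕ) : ℤ) * w := hst (k : ℕ) k.2 le_rfl hkg.le
      have h4 := sum_gt_le κ hκ k
      have hexp : κ k + κ k + E0 ≤ Dk κ + CC + (1 - 2 * ((k : ℕ) : ℤ)) * κ k := by
        rw [hE0, hmk, hCC]
        have h5 : ((k : ℕ) : ℤ) * (κ k - κ 0) ≤ ((m : ℤ) + 1) ^ 2 * w := by
          calc ((k : ℕ) : ℤ) * (κ k - κ 0) ≤ ((k : ℕ) : ℤ) * (((k : ℕ) : ℤ) * w) :=
                mul_le_mul_of_nonneg_left (by linarith) hkc0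
            _ = (((k : ℕ) : ℤ) * ((k : ℕ) : ℤ)) * w := by ring
            _ ≤ ((m : ℤ) + 1) ^ 2 * w := by
                apply mul_le_mul_of_nonneg_right _ hw0
                nlinarith
        have h6 : (m : ℤ) * (κ (Fin.last m) - 2 * c + κ k) ≤ m * (m + 1) * w := by
          calc (m : ℤ) * (κ (Fin.last m) - 2 * c + κ k) ≤ (m : ℤ) * (((k : ℕ) : ℤ) * w) := by
                apply mul_le_mul_of_nonneg_left _ (Nat.cast_nonneg _)
                linarith [h0last.2]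
            _ ≤ (m : ℤ) * ((m + 1) * w) := by
                apply mul_le_mul_of_nonneg_left _ (Nat.cast_nonneg _)
                apply mul_le_mul_of_nonneg_right _ hw0
                linarith
            _ = m * (m + 1) * w := by ring
        have h7 : 0 ≤ 3 * ((m : ℤ) + 1) * W + m * W := by positivity
        nlinarith [hbr, h4, h5, h6, h7, hsum]
      have hYsq : ((H : ℝ) ^ (m + 1 - (k : ℕ)) * (2 : ℝ) ^ ((1 - 2 * ((k : ℕ) : ℤ)) * κ k)) ^ 2 ≤ Z := by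
        have h5 : ((2 : ℝ) ^ ((1 - 2 * ((k : ℕ) : ℤ)) * κ k)) ^ 2 ≤
            (2 * (H : ℝ)) ^ (2 * (k : ℕ) - 1) := by
          have e1 : ((2 : ℝ) ^ ((1 - 2 * ((k : ℕ) : ℤ)) * κ k)) ^ 2 =
              ((2 : ℝ) ^ (-(κ k + κ k))) ^ (2 * (k : ℕ) - 1) := by
            rw [← zpow_natCast, ← zpow_natCast, ← _root_.zpow_mul, ← _root_.zpow_mul]
            congr 1
            rw [Nat.cast_sub (by omega)]
            push_cast
            ring
          rw [e1]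
          apply pow_le_pow_left₀ (by positivity)
          rw [_root_.zpow_neg, inv_le_comm₀ (by positivity) (by positivity)]
          have h6 : 0 < (2 : ℝ) * H := by positivity
          rw [inv_eq_one_div, div_le_iff₀ h6]
          rw [hX] at hX1
          linarith
        rw [mul_pow]
        calc ((H : ℝ) ^ (m + 1 - (k : ℕ))) ^ 2 * ((2 : ℝ) ^ ((1 - 2 * ((k : ℕ) : ℤ)) * κ k)) ^ 2
            ≤ ((H : ℝ) ^ (m + 1 - (k : ℕ))) ^ 2 * (2 * (H : ℝ)) ^ (2 * (k : ℕ) - 1) :=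
              mul_le_mul_of_nonneg_left h5 (by positivity)
          _ = 2 ^ (2 * (k : ℕ) - 1) * (H : ℝ) ^ (2 * m + 1) := by
              rw [mul_pow, ← pow_mul]
              have e2 : 2 * m + 1 = (m + 1 - (k : ℕ)) * 2 + (2 * (k : ℕ) - 1) := by omega
              rw [e2, pow_add]
              ring
          _ ≤ Z := by
              rw [hZ]
              apply mul_le_mul_of_nonneg_right _ (by positivity)
              exact pow_le_pow_right₀ (by norm_num) (by omega)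
      apply piece _ A ((2 : ℝ) ^ (Dk κ)) ((2 : ℝ) ^ CC)
        ((H : ℝ) ^ (m + 1 - (k : ℕ)) * (2 : ℝ) ^ ((1 - 2 * ((k : ℕ) : ℤ)) * κ k)) Z
        (Nat.cast_nonneg _) _ hYsq
      calc ((T.ncard : ℕ) : ℝ) ≤ 4 * K1 * ((2 : ℝ) ^ t) ^ ((m + 1) ^ 2) *
            ((H : ℝ) ^ (m + 1 - (k : ℕ)) * (2 : ℝ) ^ (κ k + κ k + E0)) := hcount2
        _ ≤ A * ((H : ℝ) ^ (m + 1 - (k : ℕ)) *
            (2 : ℝ) ^ (Dk κ + CC + (1 - 2 * ((k : ℕ) : ℤ)) * κ k)) := by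
            apply mul_le_mul hK1A _ (by positivity) (by linarith)
            apply mul_le_mul_of_nonneg_left _ (by positivity)
            exact zpow_le_zpow_right₀ (by norm_num) hexp
        _ = _ := by
            rw [zpow_add₀ (by norm_num : (2 : ℝ) ≠ 0), zpow_add₀ (by norm_num : (2 : ℝ) ≠ 0)]
            ring
    · -- case B
      have hle := hbd (k : ℕ) hkg hst
      have h4 := sum_gt_le' κ W hW0 hle k
      have hexp : κ k + κ k + E0 ≤ Dk κ + CC := by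
        rw [hE0, hmk, hCC]
        have h5 : ((m : ℤ) + 1 - ((k : ℕ) : ℤ)) * κ k ≤ ((m : ℤ) + 1) * W := by
          calc ((m : ℤ) + 1 - ((k : ℕ) : ℤ)) * κ k ≤ ((m : ℤ) + 1 - ((k : ℕ) : ℤ)) * W :=
                mul_le_mul_of_nonneg_left (hle k) (by linarith)
            _ ≤ ((m : ℤ) + 1) * W := mul_le_mul_of_nonneg_right (by linarith) hW0
        have h6 : (m : ℤ) * κ (Fin.last m) ≤ m * W :=
          mul_le_mul_of_nonneg_left (hle _) (Nat.cast_nonneg _)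
        have h7 := hle k
        have h8 : 0 ≤ (c : ℤ) + ((m : ℤ) + 1) ^ 2 * w + 2 * c * m + m * (m + 1) * w := by positivity
        have h9 : 0 ≤ (m : ℤ) * W := by positivity
        linarith
      have hYsq : ((H : ℝ) ^ (m + 1 - (k : ℕ))) ^ 2 ≤ Z := by
        rw [← pow_mul, hZ]
        calc (H : ℝ) ^ ((m + 1 - (k : ℕ)) * 2) ≤ (H : ℝ) ^ (2 * m + 1) :=
              pow_le_pow_right₀ hH1 (by omega)
          _ ≤ 2 ^ (2 * m + 1) * (H : ℝ) ^ (2 * m + 1) := by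
              apply le_mul_of_one_le_left (by positivity)
              exact one_le_pow₀ (by norm_num)
      apply piece _ A ((2 : ℝ) ^ (Dk κ)) ((2 : ℝ) ^ CC)
        ((H : ℝ) ^ (m + 1 - (k : ℕ))) Z (Nat.cast_nonneg _) _ hYsq
      calc ((T.ncard : ℕ) : ℝ) ≤ 4 * K1 * ((2 : ℝ) ^ t) ^ ((m + 1) ^ 2) *
            ((H : ℝ) ^ (m + 1 - (k : ℕ)) * (2 : ℝ) ^ (κ k + κ k + E0)) := hcount2
        _ ≤ A * ((H : ℝ) ^ (m + 1 - (k : ℕ)) * (2 : ℝ) ^ (Dk κ + CC)) := by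
            apply mul_le_mul hK1A _ (by positivity) (by linarith)
            apply mul_le_mul_of_nonneg_left _ (by positivity)
            exact zpow_le_zpow_right₀ (by norm_num) hexp
        _ = _ := by
            rw [zpow_add₀ (by norm_num : (2 : ℝ) ≠ 0)]
            ring
  -- the last set
  have hT' : ((({M ∈ OT (m + 1) H κ a | ∀ i, M.2 i i = 0}.ncard : ℕ) : ℝ)) ^ 2 ≤
      A ^ 2 * ((2 : ℝ) ^ CC) ^ 2 * Z * ((2 : ℝ) ^ (Dk κ)) ^ 2 := by
    set T := {M ∈ OT (m + 1) H κ a | ∀ i, M.2 i i = 0} with hTdef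
    rcases T.eq_empty_or_nonempty with hemp | ⟨M, hM⟩
    · rw [hemp, Set.ncard_empty]
      simp only [Nat.cast_zero, ne_eq, OfNat.ofNat_ne_zero, not_false_eq_true, zero_pow]
      positivity
    have hpc := pivot_constr (d := m + 1) (g := g) (by omega) κ hκ (c : ℤ) hc H q t a hq hqa hHq M hM.1
      (m + 1) (fun i _ => hM.2 i)
    have hst := steps (g := g) κ w (m + 1) (fun i j h1 h3 h4 => by
      have := hpc i j h1 h3 h4
      rw [hw]; linarith)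
    have hle := hbd (m + 1) (by omega) hst
    have hcount := hf2 ((2 : ℝ) ^ t) hR1 H hH q a hq hqa hHq κ hκ
    have h6 : (m : ℤ) * κ (Fin.last m) ≤ m * W :=
      mul_le_mul_of_nonneg_left (hle _) (Nat.cast_nonneg _)
    have hexp : 2 * Xk κ ≤ Dk κ + CC := by
      have e1 : 0 ≤ (c : ℤ) + ((m : ℤ) + 1) ^ 2 * w + 2 * c * m + m * (m + 1) * w +
        3 * (m + 1) * W := by positivity
      rw [hCC]
      linarith
    have hYsq : (1 : ℝ) ^ 2 ≤ Z := by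
      rw [one_pow, hZ]
      exact one_le_mul_of_one_le_of_one_le (one_le_pow₀ (by norm_num)) (one_le_pow₀ hH1)
    have hK2A : K2 * ((2 : ℝ) ^ t) ^ ((m + 1) ^ 2) ≤ A := by
      rw [hA]
      apply mul_le_mul_of_nonneg_right _ (by positivity)
      linarith
    apply piece _ A ((2 : ℝ) ^ (Dk κ)) ((2 : ℝ) ^ CC) 1 Z (Nat.cast_nonneg _) _ hYsq
    calc ((T.ncard : ℕ) : ℝ) ≤ K2 * ((2 : ℝ) ^ t) ^ ((m + 1) ^ 2) * (2 : ℝ) ^ (2 * Xk κ) := hcount
      _ ≤ A * (2 : ℝ) ^ (Dk κ + CC) := by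
          apply mul_le_mul hK2A _ (by positivity) (by linarith)
          exact zpow_le_zpow_right₀ (by norm_num) hexp
      _ = _ := by
          rw [zpow_add₀ (by norm_num : (2 : ℝ) ≠ 0)]
          ring
  -- union
  set P : ℝ := A ^ 2 * ((2 : ℝ) ^ CC) ^ 2 * Z * ((2 : ℝ) ^ (Dk κ)) ^ 2 with hP
  have hP0 : 0 ≤ P := by positivity
  set S := {M ∈ OT (m + 1) H κ a | M.2 0 0 = 0} with hS
  set T0 := {M ∈ OT (m + 1) H κ a | ∀ i, M.2 i i = 0} with hT0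
  set I : Finset (Fin (m + 1)) := Finset.univ.filter (fun k => 1 ≤ (k : ℕ)) with hI
  have hsub : S ⊆ (⋃ k ∈ I, {M ∈ OT (m + 1) H κ a | (∀ i, i < k → M.2 i i = 0) ∧ M.2 k k ≠ 0}) ∪
      T0 := by
    intro M hM
    by_cases hall : ∀ i, M.2 i i = 0
    · right; exact ⟨hM.1, hall⟩
    · left
      push Not at hall
      have hex : ∃ n : ℕ, ∃ hn : n < m + 1, M.2 ⟨n, hn⟩ ⟨n, hn⟩ ≠ 0 := by
        obtain ⟨i, hi⟩ := hall
        exact ⟨i, i.2, hi⟩
      obtain ⟨hn, hne⟩ := Nat.find_spec hex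
      have hmin := fun n => Nat.find_min hex (m := n)
      set n := Nat.find hex with hnd
      simp only [Set.mem_iUnion]
      refine ⟨⟨n, hn⟩, ?_, hM.1, ?_, hne⟩
      · rw [hI, Finset.mem_filter]
        refine ⟨Finset.mem_univ _, ?_⟩
        show 1 ≤ n
        rcases Nat.eq_zero_or_pos n with h0 | h0
        · exfalso
          apply hne
          have : (⟨n, hn⟩ : Fin (m + 1)) = 0 := Fin.ext h0
          rw [this]
          exact hM.2
        · exact h0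
      · intro i hi
        by_contra hne'
        exact hmin (i : ℕ) hi ⟨i.2, hne'⟩
  have hcard : S.ncard ≤ ∑ k ∈ I, {M ∈ OT (m + 1) H κ a | (∀ i, i < k → M.2 i i = 0) ∧
      M.2 k k ≠ 0}.ncard + T0.ncard := by
    refine le_trans (Set.ncard_le_ncard hsub ?_) ?_
    · apply hOT.subset
      rintro M (hM | hM)
      · simp only [Set.mem_iUnion] at hM
        obtain ⟨_, _, h, _⟩ := hM
        exact h
      · exact hM.1
    · refine le_trans (Set.ncard_union_le _ _) ?_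
      exact Nat.add_le_add_right (Finset.set_ncard_biUnion_le _ _) _
  have hsq : ∀ x : ℝ, x ^ 2 ≤ P → x ≤ Real.sqrt P := fun x hx => Real.le_sqrt_of_sq_le hx
  have hfin : ((S.ncard : ℕ) : ℝ) ≤ ((m : ℝ) + 2) * Real.sqrt P := by
    calc ((S.ncard : ℕ) : ℝ) ≤ ((∑ k ∈ I, {M ∈ OT (m + 1) H κ a | (∀ i, i < k → M.2 i i = 0) ∧
          M.2 k k ≠ 0}.ncard + T0.ncard : ℕ) : ℝ) := by exact_mod_cast hcard
      _ = ∑ k ∈ I, (({M ∈ OT (m + 1) H κ a | (∀ i, i < k → M.2 i i = 0) ∧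
          M.2 k k ≠ 0}.ncard : ℕ) : ℝ) + ((T0.ncard : ℕ) : ℝ) := by push_cast; rfl
      _ ≤ ∑ _k ∈ I, Real.sqrt P + Real.sqrt P := by
          apply add_le_add
          · apply Finset.sum_le_sum
            intro k hk
            exact hsq _ (hT k (Finset.mem_filter.mp hk).2)
          · exact hsq _ hT'
      _ = ((I.card : ℝ) + 1) * Real.sqrt P := by rw [Finset.sum_const, nsmul_eq_mul]; ring
      _ ≤ ((m : ℝ) + 2) * Real.sqrt P := by
          apply mul_le_mul_of_nonneg_right _ (Real.sqrt_nonneg _)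
          have h5 : I.card ≤ m + 1 := by
            have := Finset.card_le_univ I
            rwa [Fintype.card_fin] at this
          have h6 : (I.card : ℝ) ≤ (m : ℝ) + 1 := by exact_mod_cast h5
          linarith
  calc ((S.ncard : ℕ) : ℝ) ^ 2 ≤ (((m : ℝ) + 2) * Real.sqrt P) ^ 2 :=
        pow_le_pow_left₀ (Nat.cast_nonneg _) hfin 2
    _ = ((m : ℝ) + 2) ^ 2 * P := by rw [mul_pow, Real.sq_sqrt hP0]
    _ = _ := by rw [hP, hZ]; ring

end Pool.Agent.Helper32.DZ
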