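import Pool.Agent.Helper32.DZ.OddSets
import Pool.Agent.Helper32.DZ.Bracket

set_option autoImplicit false

/-!
DZ-39 OddZero. The pairs with given `S 0 0 = s ≠ 0`. Size `d = m + 1`.

PROOF. `odd_fixed` with `k = 0`, `R = 2^t` (constant `K1`): at most
`K1 R^(d^2) H^m 2^(m κ 0 + ∑_(j>0) κ j + 2 Xk)`. `∑_(j>0) κ j = ∑ κ - κ 0 ≤ c - κ 0`; `bracket`:
`2 Xk ≤ Dk + m κ_last + b`, `b = 8 c d^2`; `κ 0 + κ_last ≤ 2c` (`hc 0`). Exponent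
`≤ (m-1) κ 0 + c + Dk + m κ_last + b ≤ Dk + κ_last + C0`, `C0 = c + 2c m + b` (`(m-1)(κ 0 + κ_last) ≤ 2c m`; for `m = 0`
everything is `κ 0 = κ_last`, handle separately or use `2 ≤ m`). With `l = κ_last - κ 0 ≥ 0`:
`2 (κ_last + 2 κ 0) = 2 (κ 0 + κ_last) + 2 κ 0 ≤ 4c + (2c - l) = 6c - l`, so `2^(κ_last + 2 κ 0) ≤ 2^(3c) (3/4)^l`:
square both sides, `(2^x)^2 ≤ 2^(6c) 2^(-l) ≤ 2^(6c) ((3/4)^l)^2`, as `1/2 ≤ (3/4)^2`. So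
`2^(κ_last) ≤ 2^(3c) 2^(-2 κ 0) (3/4)^l`. `K = K1 2^(t d^2) 2^(C0 + 3c)`.
-/

open Matrix

namespace Pool.Agent.Helper32.DZ

/-- the exponent inequality behind `odd_zero` -/
private theorem oz_exp (m c : ℕ) (hm : Even m) (h2 : 2 ≤ m) (κ : Fin (m + 1) → ℤ)
    (hκ : Monotone κ)
    (hc : ∀ i : Fin (m + 1), 1 ≤ κ i + κ i.rev ∧ κ i + κ i.rev ≤ 2 * (c : ℤ))
    (hs : ∑ i, κ i ≤ (c : ℤ)) :
    (m : ℤ) * κ 0 + (∑ j, if (0 : Fin (m + 1)) < j then κ j else 0) + 2 * Xk κ ≤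
      Dk κ + κ (Fin.last m) + ((c + 2 * c * m + 8 * c * (m + 1) ^ 2 : ℕ) : ℤ) := by
  have hb := bracket hm κ hκ c hc
  have h0 := (hc 0).2
  rw [Fin.rev_zero] at h0
  have hsum : (∑ j, if (0 : Fin (m + 1)) < j then κ j else 0) = ∑ j, κ j - κ 0 := by
    rw [Fin.sum_univ_succ, Fin.sum_univ_succ (f := κ)]
    simp [Fin.succ_pos]
  rw [hsum]
  have hm1 : (0 : ℤ) ≤ (m : ℤ) - 1 := by
    have : (2 : ℤ) ≤ m := by exact_mod_cast h2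
    linarith
  have h3 : ((m : ℤ) - 1) * (κ 0 + κ (Fin.last m)) ≤ ((m : ℤ) - 1) * (2 * c) :=
    mul_le_mul_of_nonneg_left h0 hm1
  have hc0 : (0 : ℤ) ≤ c := Int.natCast_nonneg c
  push_cast
  nlinarith

/-- `2^(κ_last) ≤ 2^(3c) 2^(-2 κ 0) (3/4)^(κ_last - κ 0)` -/
private theorem oz_pow (m c : ℕ) (κ : Fin (m + 1) → ℤ) (hκ : Monotone κ)
    (hc : ∀ i : Fin (m + 1), 1 ≤ κ i + κ i.rev ∧ κ i + κ i.rev ≤ 2 * (c : ℤ)) :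
    (2 : ℝ) ^ (κ (Fin.last m)) ≤ (2 : ℝ) ^ (3 * c) * (2 : ℝ) ^ (-(2 * κ 0)) *
      (3 / 4 : ℝ) ^ (κ (Fin.last m) - κ 0) := by
  have h0 := (hc 0).2
  rw [Fin.rev_zero] at h0
  have hl : 0 ≤ κ (Fin.last m) - κ 0 := by
    have := hκ (Fin.zero_le (Fin.last m))
    linarith
  obtain ⟨l, hl⟩ := Int.eq_ofNat_of_zero_le hl
  rw [hl]
  have hx : (2 : ℝ) ^ (κ (Fin.last m) + 2 * κ 0) ≤ (2 : ℝ) ^ (3 * c) * (3 / 4 : ℝ) ^ l := by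
    have h4 : ((2 : ℝ) ^ (κ (Fin.last m) + 2 * κ 0)) ^ 2 ≤
        ((2 : ℝ) ^ (3 * c) * (3 / 4 : ℝ) ^ l) ^ 2 := by
      have e1 : ((2 : ℝ) ^ (κ (Fin.last m) + 2 * κ 0)) ^ 2 =
          (2 : ℝ) ^ (2 * (κ (Fin.last m) + 2 * κ 0)) := by
        rw [← zpow_natCast, ← _root_.zpow_mul]
        congr 1
        push_cast
        ring
      have e2 : (2 : ℝ) ^ (2 * (κ (Fin.last m) + 2 * κ 0)) ≤
          (2 : ℝ) ^ ((6 * c : ℕ) : ℤ) * (2 : ℝ) ^ (-(l : ℤ)) := by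
        rw [← zpow_add₀ (by norm_num : (2 : ℝ) ≠ 0)]
        apply zpow_le_zpow_right₀ (by norm_num)
        push_cast
        have : κ (Fin.last m) - κ 0 = (l : ℤ) := hl
        linarith
      have e3 : (2 : ℝ) ^ (-(l : ℤ)) ≤ ((3 / 4 : ℝ) ^ l) ^ 2 := by
        rw [_root_.zpow_neg, zpow_natCast, ← inv_pow, ← pow_mul, mul_comm l 2, pow_mul]
        apply pow_le_pow_left₀ (by norm_num)
        norm_num
      rw [e1, mul_pow]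
      refine e2.trans ?_
      have e4 : (2 : ℝ) ^ ((6 * c : ℕ) : ℤ) = ((2 : ℝ) ^ (3 * c)) ^ 2 := by
        rw [zpow_natCast, ← pow_mul]
        congr 1
        ring
      rw [e4]
      exact mul_le_mul_of_nonneg_left e3 (by positivity)
    exact le_of_sq_le_sq h4 (by positivity)
  have e5 : (2 : ℝ) ^ (κ (Fin.last m)) = (2 : ℝ) ^ (κ (Fin.last m) + 2 * κ 0) *
      (2 : ℝ) ^ (-(2 * κ 0)) := by
    rw [← zpow_add₀ (by norm_num : (2 : ℝ) ≠ 0)]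
    congr 1
    ring
  rw [e5]
  have h6 := mul_le_mul_of_nonneg_right hx (by positivity : (0 : ℝ) ≤ (2 : ℝ) ^ (-(2 * κ 0)))
  refine h6.trans (le_of_eq ?_)
  rw [zpow_natCast]
  ring

theorem odd_zero (m : ℕ) (hm : Even m) (h2 : 2 ≤ m) (c t : ℕ) : ∃ K : ℝ, 1 ≤ K ∧
    ∀ H : ℕ, 1 ≤ H → ∀ (q : ℕ) (a : ℤ), Squarefree q → (q : ℤ) ∣ a → (H : ℝ) ≤ 2 ^ t * q →
    ∀ κ : Fin (m + 1) → ℤ, Monotone κ →
    (∀ i : Fin (m + 1), 1 ≤ κ i + κ i.rev ∧ κ i + κ i.rev ≤ 2 * (c : ℤ)) → ∑ i, κ i ≤ (c : ℤ) →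
    ∀ s : ℤ, s ≠ 0 →
    (({M ∈ OT (m + 1) H κ a | M.2 0 0 = s}.ncard : ℕ) : ℝ) ≤
      K * (H : ℝ) ^ m * (2 : ℝ) ^ (Dk κ) * (2 : ℝ) ^ (-(2 * κ 0)) *
        (3 / 4 : ℝ) ^ (κ (Fin.last m) - κ 0) := by
  obtain ⟨K1, hK1, h1⟩ := odd_fixed (m + 1)
  have hK0 : (0 : ℝ) ≤ K1 := le_trans zero_le_one hK1
  refine ⟨K1 * ((2 : ℝ) ^ t) ^ ((m + 1) ^ 2) *
    ((2 : ℝ) ^ (c + 2 * c * m + 8 * c * (m + 1) ^ 2) * (2 : ℝ) ^ (3 * c)), ?_, ?_⟩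
  · have a1 : (1 : ℝ) ≤ ((2 : ℝ) ^ t) ^ ((m + 1) ^ 2) :=
      one_le_pow₀ (one_le_pow₀ (by norm_num))
    have a2 : (1 : ℝ) ≤ (2 : ℝ) ^ (c + 2 * c * m + 8 * c * (m + 1) ^ 2) :=
      one_le_pow₀ (by norm_num)
    have a3 : (1 : ℝ) ≤ (2 : ℝ) ^ (3 * c) := one_le_pow₀ (by norm_num)
    exact one_le_mul_of_one_le_of_one_le (one_le_mul_of_one_le_of_one_le hK1 a1)
      (one_le_mul_of_one_le_of_one_le a2 a3)
  · intro H hH q a hq hqa hHq κ hκ hc hs s hs0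
    have h3 := h1 ((2 : ℝ) ^ t) (one_le_pow₀ (by norm_num)) H hH q a hq hqa hHq κ hκ 0 s hs0
    have hset : {M ∈ OT (m + 1) H κ a | (∀ i, i < (0 : Fin (m + 1)) → M.2 i i = 0) ∧ M.2 0 0 = s} =
        {M ∈ OT (m + 1) H κ a | M.2 0 0 = s} := by
      ext M
      simp only [Set.mem_ofPred_eq]
      constructor
      · rintro ⟨h, -, h'⟩
        exact ⟨h, h'⟩
      · rintro ⟨h, h'⟩
        exact ⟨h, fun i hi => absurd hi (Fin.not_lt_zero i), h'⟩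
    rw [hset] at h3
    have e0 : (m + 1 - 1 - ((0 : Fin (m + 1)) : ℕ)) = m := by simp
    rw [e0] at h3
    refine h3.trans ?_
    have h4 := oz_exp m c hm h2 κ hκ hc hs
    have h5 := oz_pow m c κ hκ hc
    have h6 : (2 : ℝ) ^ ((m : ℤ) * κ 0 + (∑ j, if (0 : Fin (m + 1)) < j then κ j else 0) + 2 * Xk κ) ≤
        (2 : ℝ) ^ (Dk κ) * (2 : ℝ) ^ (κ (Fin.last m)) *
          (2 : ℝ) ^ (c + 2 * c * m + 8 * c * (m + 1) ^ 2) := by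
      rw [← zpow_add₀ (by norm_num : (2 : ℝ) ≠ 0), ← zpow_natCast,
        ← zpow_add₀ (by norm_num : (2 : ℝ) ≠ 0)]
      exact zpow_le_zpow_right₀ (by norm_num) h4
    have hA : (0 : ℝ) ≤ K1 * ((2 : ℝ) ^ t) ^ ((m + 1) ^ 2) * (H : ℝ) ^ m := by positivity
    calc K1 * ((2 : ℝ) ^ t) ^ ((m + 1) ^ 2) * (H : ℝ) ^ m *
          (2 : ℝ) ^ ((m : ℤ) * κ 0 + (∑ j, if (0 : Fin (m + 1)) < j then κ j else 0) + 2 * Xk κ)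
        ≤ K1 * ((2 : ℝ) ^ t) ^ ((m + 1) ^ 2) * (H : ℝ) ^ m *
          ((2 : ℝ) ^ (Dk κ) * (2 : ℝ) ^ (κ (Fin.last m)) *
            (2 : ℝ) ^ (c + 2 * c * m + 8 * c * (m + 1) ^ 2)) :=
          mul_le_mul_of_nonneg_left h6 hA
      _ ≤ K1 * ((2 : ℝ) ^ t) ^ ((m + 1) ^ 2) * (H : ℝ) ^ m *
          ((2 : ℝ) ^ (Dk κ) * ((2 : ℝ) ^ (3 * c) * (2 : ℝ) ^ (-(2 * κ 0)) *
            (3 / 4 : ℝ) ^ (κ (Fin.last m) - κ 0)) *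
            (2 : ℝ) ^ (c + 2 * c * m + 8 * c * (m + 1) ^ 2)) := by
          apply mul_le_mul_of_nonneg_left _ hA
          apply mul_le_mul_of_nonneg_right _ (by positivity)
          exact mul_le_mul_of_nonneg_left h5 (by positivity)
      _ = _ := by ring

end Pool.Agent.Helper32.DZ
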