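import Pool.Agent.Helper32.DZ.OddCount
import Pool.Agent.Helper32.DZ.OddPos
import Pool.Agent.Helper32.DZ.OddZero

set_option autoImplicit false

/-!
DZ-41 OddCell. The number of `f` of odd degree in one cell with given leading coefficient. Size `d = m + 1`.

PROOF. `odd_count`: `#F 2^(Dk) ≤ #OT`. `OT` is the union of `{S 0 0 = 0}` and of the sets `{S 0 0 = s}`, `s ≠ 0`,
`|s| < 2 H 2^(2 κ 0)` (box). If `M ∈ OT` has `M.2 0 0 = s` then `α ∣ s + u_0^2` (`NegSq`), so for a prime `p ∣ α`: `-s = u_0^2`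
modulo `p`. So `s` runs in the set `Ps` of the statement (finite: bounded integers). `odd_pos` (constant `K1`) and square roots:
`#{S 0 0 = 0} ≤ √K1 2^(Dk) √(H^(2m+1))`; `odd_zero` (constant `K2`) for each `s ∈ Ps`. Divide by `2^(Dk)`. `K = max K1 K2`
(`√K1 ≤ K1`).
-/

open Polynomial Matrix

namespace Pool.Agent.Helper32.DZ

/-- admissible values of `S 0 0` -/
def Ps (α : ℤ) (L : ℝ) : Set ℤ :=
  {s | s ≠ 0 ∧ |(s : ℝ)| < L ∧ ∀ p : ℕ, p.Prime → (p : ℤ) ∣ α → IsSquare (((-s : ℤ)) : ZMod p)}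

private theorem h86ps_finite (α : ℤ) (L : ℝ) : (Ps α L).Finite := by
  refine (Set.finite_Icc (-⌈L⌉) ⌈L⌉).subset ?_
  rintro s ⟨_, h, _⟩
  have h1 := abs_lt.mp h
  have h2 : (s : ℝ) < (⌈L⌉ : ℤ) := h1.2.trans_le (Int.le_ceil L)
  have h3 : ((-⌈L⌉ : ℤ) : ℝ) < (s : ℝ) := by
    push_cast
    linarith [Int.le_ceil L, h1.1]
  exact ⟨by exact_mod_cast h3.le, by exact_mod_cast h2.le⟩

private theorem h86mem (m H : ℕ) (κ : Fin (m + 1) → ℤ) (α : ℤ)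
    {M : Matrix (Fin (m + 1)) (Fin (m + 1)) ℤ × Matrix (Fin (m + 1)) (Fin (m + 1)) ℤ}
    (hM : M ∈ OT (m + 1) H κ α) (h0 : M.2 0 0 ≠ 0) :
    M.2 0 0 ∈ Ps α (2 * (H : ℝ) * (2 : ℝ) ^ (2 * κ 0)) := by
  refine ⟨h0, ?_, ?_⟩
  · have h1 := hM.2.1.2 0 0
    have h2 : 2 * κ 0 = κ 0 + κ 0 := two_mul _
    rw [h2]
    exact h1
  · intro p hp hpα
    obtain ⟨u, hu⟩ := hM.2.2.1
    have h1 : (p : ℤ) ∣ M.2 0 0 + u 0 * u 0 := hpα.trans (hu 0 0)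
    rw [← ZMod.intCast_zmod_eq_zero_iff_dvd] at h1
    refine ⟨((u 0 : ℤ) : ZMod p), ?_⟩
    push_cast at h1 ⊢
    linear_combination -h1

private theorem h86split (m H : ℕ) (κ : Fin (m + 1) → ℤ) (α : ℤ) :
    ((OT (m + 1) H κ α).ncard : ℝ) ≤ ((({M ∈ OT (m + 1) H κ α | M.2 0 0 = 0}.ncard : ℕ) : ℝ)) +
      ∑ s ∈ (h86ps_finite α (2 * (H : ℝ) * (2 : ℝ) ^ (2 * κ 0))).toFinset,
        ((({M ∈ OT (m + 1) H κ α | M.2 0 0 = s}.ncard : ℕ) : ℝ)) := by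
  classical
  set T := (ot_finite (m + 1) H κ α).toFinset with hT
  set P := (h86ps_finite α (2 * (H : ℝ) * (2 : ℝ) ^ (2 * κ 0))).toFinset with hP
  have h0 : (0 : ℤ) ∉ P := by
    rw [hP, Set.Finite.mem_toFinset]
    exact fun h => h.1 rfl
  have hmap : ∀ M ∈ T, M.2 0 0 ∈ insert (0 : ℤ) P := by
    intro M hM
    rw [hT, Set.Finite.mem_toFinset] at hM
    rw [Finset.mem_insert]
    by_cases h : M.2 0 0 = 0
    · exact Or.inl h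
    · right
      rw [hP, Set.Finite.mem_toFinset]
      exact h86mem m H κ α hM h
  have hcard := Finset.card_eq_sum_card_fiberwise (f := fun M : Matrix (Fin (m + 1)) (Fin (m + 1)) ℤ ×
    Matrix (Fin (m + 1)) (Fin (m + 1)) ℤ => M.2 0 0) (s := T) (t := insert (0 : ℤ) P) hmap
  have hfib : ∀ s : ℤ, (T.filter fun M => M.2 0 0 = s).card =
      ({M ∈ OT (m + 1) H κ α | M.2 0 0 = s} : Set _).ncard := by
    intro s
    rw [← Set.ncard_coe_finset]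
    congr 1
    ext M
    simp [hT]
  rw [Finset.sum_insert h0, hfib] at hcard
  have hT' : (OT (m + 1) H κ α).ncard = T.card := by
    rw [← Set.ncard_coe_finset]
    congr 1
    ext M
    simp [hT]
  rw [hT', hcard]
  push_cast
  refine add_le_add le_rfl (le_of_eq ?_)
  refine Finset.sum_congr rfl fun s _ => ?_
  rw [hfib]

theorem odd_cell (m : ℕ) (hm : Even m) (h2 : 2 ≤ m) (c t : ℕ) : ∃ K : ℝ, 1 ≤ K ∧
    ∀ H : ℕ, 1 ≤ H → ∀ (q : ℕ) (α : ℤ), α ≠ 0 → Squarefree q → (q : ℤ) ∣ α →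
    (H : ℝ) ≤ 2 ^ t * q → ∀ κ : Fin (m + 1) → ℤ,
    (∀ i : Fin (m + 1), 1 ≤ κ i + κ i.rev ∧ κ i + κ i.rev ≤ 2 * (c : ℤ)) → ∑ i, κ i ≤ (c : ℤ) →
    ∀ (F : Set (Fin (m + 1 + 1) → ℤ)) (_ : F.Finite)
      (G S : (Fin (m + 1 + 1) → ℤ) → Matrix (Fin (m + 1)) (Fin (m + 1)) ℤ),
      CellO (m + 1) H κ α F G S →
      (F.ncard : ℝ) ≤ K * √((H : ℝ) ^ (2 * m + 1)) +
        K * (H : ℝ) ^ m * (2 : ℝ) ^ (-(2 * κ 0)) * (3 / 4 : ℝ) ^ (κ (Fin.last m) - κ 0) *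
          (((Ps α (2 * (H : ℝ) * (2 : ℝ) ^ (2 * κ 0))).ncard : ℕ) : ℝ) := by
  obtain ⟨K1, hK1, hpos⟩ := odd_pos m hm h2 c t
  obtain ⟨K2, hK2, hzero⟩ := odd_zero m hm h2 c t
  refine ⟨max K1 K2, hK1.trans (le_max_left _ _), ?_⟩
  intro H hH q α hα hsq hdvd hHq κ hκ1 hκ2 F hF G S hcell
  have hmono : Monotone κ := hcell.1
  have hcount := odd_count (m + 1) H κ α hα F hF G S hcell
  have hA := hpos H hH q α hsq hdvd hHq κ hmono hκ1 hκ2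
  have hB := hzero H hH q α hsq hdvd hHq κ hmono hκ1 hκ2
  set K := max K1 K2 with hK
  have hK0 : 1 ≤ K := hK1.trans (le_max_left _ _)
  have hD : (0 : ℝ) < (2 : ℝ) ^ (Dk κ) := zpow_pos (by norm_num) _
  have hE : (0 : ℝ) < (2 : ℝ) ^ (-(2 * κ 0)) := zpow_pos (by norm_num) _
  have hQ : (0 : ℝ) < (3 / 4 : ℝ) ^ (κ (Fin.last m) - κ 0) := zpow_pos (by norm_num) _
  have hHm : (0 : ℝ) ≤ (H : ℝ) ^ m := by positivity
  have hX : (0 : ℝ) ≤ (H : ℝ) ^ (2 * m + 1) := by positivity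
  have hsplit := h86split m H κ α
  -- the part with zero entry
  have h1 : ((({M ∈ OT (m + 1) H κ α | M.2 0 0 = 0}.ncard : ℕ) : ℝ)) ≤
      K * (2 : ℝ) ^ (Dk κ) * √((H : ℝ) ^ (2 * m + 1)) := by
    refine (sq_le_sq₀ (Nat.cast_nonneg _) (by positivity)).mp ?_
    refine hA.trans ?_
    rw [mul_pow, mul_pow, Real.sq_sqrt hX]
    have h3 : K1 ≤ K ^ 2 := by
      have h4 : K1 ≤ K := le_max_left _ _
      nlinarith
    have h5 : 0 ≤ ((2 : ℝ) ^ (Dk κ)) ^ 2 * (H : ℝ) ^ (2 * m + 1) := by positivity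
    calc K1 * ((2 : ℝ) ^ (Dk κ)) ^ 2 * (H : ℝ) ^ (2 * m + 1)
        = K1 * (((2 : ℝ) ^ (Dk κ)) ^ 2 * (H : ℝ) ^ (2 * m + 1)) := by ring
      _ ≤ K ^ 2 * (((2 : ℝ) ^ (Dk κ)) ^ 2 * (H : ℝ) ^ (2 * m + 1)) :=
          mul_le_mul_of_nonneg_right h3 h5
      _ = K ^ 2 * ((2 : ℝ) ^ (Dk κ)) ^ 2 * (H : ℝ) ^ (2 * m + 1) := by ring
  -- the other part
  have h3 : ∑ s ∈ (h86ps_finite α (2 * (H : ℝ) * (2 : ℝ) ^ (2 * κ 0))).toFinset,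
      ((({M ∈ OT (m + 1) H κ α | M.2 0 0 = s}.ncard : ℕ) : ℝ)) ≤
      (((Ps α (2 * (H : ℝ) * (2 : ℝ) ^ (2 * κ 0))).ncard : ℕ) : ℝ) *
        (K * (H : ℝ) ^ m * (2 : ℝ) ^ (Dk κ) * (2 : ℝ) ^ (-(2 * κ 0)) *
        (3 / 4 : ℝ) ^ (κ (Fin.last m) - κ 0)) := by
    have h4 : ((Ps α (2 * (H : ℝ) * (2 : ℝ) ^ (2 * κ 0))).ncard : ℕ) =
        (h86ps_finite α (2 * (H : ℝ) * (2 : ℝ) ^ (2 * κ 0))).toFinset.card :=
      Set.ncard_eq_toFinset_card _ _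
    rw [h4, ← nsmul_eq_mul]
    refine Finset.sum_le_card_nsmul _ _ _ fun s hs => ?_
    rw [Set.Finite.mem_toFinset] at hs
    refine (hB s hs.1).trans ?_
    have h6 : K2 ≤ K := le_max_right _ _
    have h7 : 0 ≤ (H : ℝ) ^ m * (2 : ℝ) ^ (Dk κ) * (2 : ℝ) ^ (-(2 * κ 0)) *
        (3 / 4 : ℝ) ^ (κ (Fin.last m) - κ 0) := by positivity
    calc K2 * (H : ℝ) ^ m * (2 : ℝ) ^ (Dk κ) * (2 : ℝ) ^ (-(2 * κ 0)) *
          (3 / 4 : ℝ) ^ (κ (Fin.last m) - κ 0)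
        = K2 * ((H : ℝ) ^ m * (2 : ℝ) ^ (Dk κ) * (2 : ℝ) ^ (-(2 * κ 0)) *
          (3 / 4 : ℝ) ^ (κ (Fin.last m) - κ 0)) := by ring
      _ ≤ K * ((H : ℝ) ^ m * (2 : ℝ) ^ (Dk κ) * (2 : ℝ) ^ (-(2 * κ 0)) *
          (3 / 4 : ℝ) ^ (κ (Fin.last m) - κ 0)) := mul_le_mul_of_nonneg_right h6 h7
      _ = _ := by ring
  have h5 : (F.ncard : ℝ) * (2 : ℝ) ^ (Dk κ) ≤
      (K * √((H : ℝ) ^ (2 * m + 1)) +
        K * (H : ℝ) ^ m * (2 : ℝ) ^ (-(2 * κ 0)) * (3 / 4 : ℝ) ^ (κ (Fin.last m) - κ 0) *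
          (((Ps α (2 * (H : ℝ) * (2 : ℝ) ^ (2 * κ 0))).ncard : ℕ) : ℝ)) * (2 : ℝ) ^ (Dk κ) := by
    refine hcount.trans (hsplit.trans ((add_le_add h1 h3).trans (le_of_eq ?_)))
    ring
  exact le_of_mul_le_mul_right h5 hD

end Pool.Agent.Helper32.DZ
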