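import Pool.Agent.Helper32.DZ.CrtBox
import Pool.Agent.Helper32.DZ.PrimeProd

set_option autoImplicit false

/-!
DZ-25 PairDens. Pairs `(a, s)` such that `-s` is a square modulo every prime factor of `a` have density zero.

PROOF. Given `δ`: `S` from `prime_prod` with `c = 1/4`, `P = 3`, `δ' = δ/9`, `Q = ∏_(p ∈ S) p`. Bad classes modulo
`p` (`I = Fin 2`): `Ω p = {x | x 0 = 0 ∧ ¬ IsSquare (-x 1)}`, `(p-1)/2` elements (half of the nonzero classes are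
nonsquares, `p` odd), `(p-1)/2 ≥ (1/(4p)) p^2` for `p ≥ 2`. `crt_box` with `L = (L1, L2)`:
at most `9 L1 L2 ∏ (1 - 1/(4p)) ≤ δ L1 L2`. (`Set` of pairs against `Fin 2 → ℤ`: `finTwoArrowEquiv`.)
-/

namespace Pool.Agent.Helper32.DZ

private theorem ns_card (p : ℕ) [Fact p.Prime] (hp : p ≠ 2) :
    2 * ((Finset.univ.filter (fun a : ZMod p => ¬ IsSquare a)).card : ℤ) + 1 = (p : ℤ) := by
  classical
  have hchar : ringChar (ZMod p) ≠ 2 := by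
    rw [ZMod.ringChar_zmod_n]
    exact hp
  have h1 := quadraticChar_sum_zero hchar
  have h2 : ∀ a : ZMod p, quadraticChar (ZMod p) a =
      1 - 2 * (if ¬ IsSquare a then (1 : ℤ) else 0) - (if a = 0 then (1 : ℤ) else 0) := by
    intro a
    by_cases h0 : a = 0
    · subst h0
      have : IsSquare (0 : ZMod p) := IsSquare.zero
      simp [this]
    · by_cases hs : IsSquare a
      · rw [(quadraticChar_one_iff_isSquare h0).2 hs]
        simp [hs, h0]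
      · rw [quadraticChar_neg_one_iff_not_isSquare.2 hs]
        simp [hs, h0]
  have h3 : ∑ a : ZMod p, (1 - 2 * (if ¬ IsSquare a then (1 : ℤ) else 0) -
      (if a = 0 then (1 : ℤ) else 0)) = 0 := by
    refine Eq.trans ?_ h1
    exact Finset.sum_congr rfl fun a _ => (h2 a).symm
  rw [Finset.sum_sub_distrib, Finset.sum_sub_distrib, ← Finset.mul_sum, Finset.sum_const,
    Finset.card_univ, ZMod.card, Finset.sum_boole, Finset.sum_ite_eq'] at h3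
  simp only [nsmul_eq_mul, mul_one, Finset.mem_univ, if_true] at h3
  linarith

theorem pair_dens (δ : ℝ) (hδ : 0 < δ) : ∃ Q : ℕ, ∀ L1 L2 : ℝ, (Q : ℝ) ≤ L1 → (Q : ℝ) ≤ L2 →
    {x : ℤ × ℤ | |(x.1 : ℝ)| < L1 ∧ |(x.2 : ℝ)| < L2 ∧
      ∀ p : ℕ, p.Prime → (p : ℤ) ∣ x.1 → IsSquare (((-x.2 : ℤ)) : ZMod p)}.Finite ∧
    (({x : ℤ × ℤ | |(x.1 : ℝ)| < L1 ∧ |(x.2 : ℝ)| < L2 ∧
      ∀ p : ℕ, p.Prime → (p : ℤ) ∣ x.1 → IsSquare (((-x.2 : ℤ)) : ZMod p)}.ncard : ℕ) : ℝ) ≤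
      δ * (L1 * L2) := by
  classical
  obtain ⟨S, hS, hprod⟩ := prime_prod (1 / 4) (by norm_num) (by norm_num) 3 (δ / 9) (by positivity)
  refine ⟨∏ p ∈ S, p, fun L1 L2 h1 h2 => ?_⟩
  set Ω : (p : ℕ) → Set (Fin 2 → ZMod p) := fun p => {x | x 0 = 0 ∧ ¬ IsSquare (-x 1)} with hΩ
  have hω : ∀ p ∈ S, 0 ≤ (1 / 4 : ℝ) / (p : ℝ) ∧
      (1 / 4 : ℝ) / (p : ℝ) * (p : ℝ) ^ (Fintype.card (Fin 2)) ≤ ((Ω p).ncard : ℝ) := by
    intro p hp
    have hpp := (hS p hp).1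
    have hp3 := (hS p hp).2
    have : Fact p.Prime := ⟨hpp⟩
    have hp0 : (0 : ℝ) < p := by exact_mod_cast hpp.pos
    refine ⟨by positivity, ?_⟩
    have hns := ns_card p (by omega)
    have hinj : Function.Injective (fun a : ZMod p => (![0, -a] : Fin 2 → ZMod p)) := by
      intro a b hab
      have := congrFun hab 1
      simpa using this
    have hsub : ((Finset.univ.filter (fun a : ZMod p => ¬ IsSquare a)).image
        (fun a : ZMod p => (![0, -a] : Fin 2 → ZMod p)) : Set (Fin 2 → ZMod p)) ⊆ Ω p := by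
      intro x hx
      rw [Finset.coe_image] at hx
      obtain ⟨a, ha, rfl⟩ := hx
      have ha' := (Finset.mem_filter.1 (Finset.mem_coe.1 ha)).2
      refine ⟨rfl, ?_⟩
      simpa using ha'
    have hcard := Set.ncard_le_ncard hsub (Set.toFinite _)
    rw [Set.ncard_coe_finset, Finset.card_image_of_injective _ hinj] at hcard
    have hcR : (((Finset.univ.filter (fun a : ZMod p => ¬ IsSquare a)).card : ℕ) : ℝ) ≤
        ((Ω p).ncard : ℝ) := by exact_mod_cast hcard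
    have hnsR : 2 * (((Finset.univ.filter (fun a : ZMod p => ¬ IsSquare a)).card : ℕ) : ℝ) + 1 =
        (p : ℝ) := by exact_mod_cast hns
    have hp3R : (3 : ℝ) ≤ p := by exact_mod_cast hp3
    rw [Fintype.card_fin]
    have e1 : (1 / 4 : ℝ) / (p : ℝ) * (p : ℝ) ^ 2 = p / 4 := by
      field_simp
    rw [e1]
    linarith
  obtain ⟨hfin, hle⟩ := crt_box S (fun p hp => (hS p hp).1) Ω (fun p => (1 / 4 : ℝ) / (p : ℝ)) hω
    (![L1, L2]) (by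
      intro i
      fin_cases i
      · exact h1
      · exact h2)
  have hmap : ∀ x ∈ {x : ℤ × ℤ | |(x.1 : ℝ)| < L1 ∧ |(x.2 : ℝ)| < L2 ∧
      ∀ p : ℕ, p.Prime → (p : ℤ) ∣ x.1 → IsSquare (((-x.2 : ℤ)) : ZMod p)},
      (![x.1, x.2] : Fin 2 → ℤ) ∈ {x : Fin 2 → ℤ | (∀ i, |(x i : ℝ)| < (![L1, L2] : Fin 2 → ℝ) i) ∧
        ∀ p ∈ S, (fun i => ((x i : ℤ) : ZMod p)) ∉ Ω p} := by
    rintro ⟨u, v⟩ ⟨hu, hv, hsq⟩
    refine ⟨?_, ?_⟩
    · intro i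
      fin_cases i
      · exact hu
      · exact hv
    · intro p hp hmem
      have hm0 : ((u : ℤ) : ZMod p) = 0 := hmem.1
      have hm1 : ¬ IsSquare (-((v : ℤ) : ZMod p)) := hmem.2
      apply hm1
      have := hsq p (hS p hp).1 ((ZMod.intCast_zmod_eq_zero_iff_dvd u p).1 hm0)
      simpa using this
  have hinj : Set.InjOn (fun x : ℤ × ℤ => (![x.1, x.2] : Fin 2 → ℤ))
      {x : ℤ × ℤ | |(x.1 : ℝ)| < L1 ∧ |(x.2 : ℝ)| < L2 ∧
      ∀ p : ℕ, p.Prime → (p : ℤ) ∣ x.1 → IsSquare (((-x.2 : ℤ)) : ZMod p)} := by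
    rintro ⟨u, v⟩ _ ⟨u', v'⟩ _ h
    have e0 := congrFun h 0
    have e1 := congrFun h 1
    simp at e0 e1
    rw [e0, e1]
  refine ⟨Set.Finite.of_injOn hmap hinj hfin, ?_⟩
  have hnc := Set.ncard_le_ncard_of_injOn _ hmap hinj hfin
  have hncR : ((Set.ncard {x : ℤ × ℤ | |(x.1 : ℝ)| < L1 ∧ |(x.2 : ℝ)| < L2 ∧
      ∀ p : ℕ, p.Prime → (p : ℤ) ∣ x.1 → IsSquare (((-x.2 : ℤ)) : ZMod p)} : ℕ) : ℝ) ≤
      ((Set.ncard {x : Fin 2 → ℤ | (∀ i, |(x i : ℝ)| < (![L1, L2] : Fin 2 → ℝ) i) ∧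
        ∀ p ∈ S, (fun i => ((x i : ℤ) : ZMod p)) ∉ Ω p} : ℕ) : ℝ) := by exact_mod_cast hnc
  refine hncR.trans (hle.trans ?_)
  have hQ1 : (0 : ℝ) ≤ ((∏ p ∈ S, p : ℕ) : ℝ) := Nat.cast_nonneg _
  have hL1 : 0 ≤ L1 := hQ1.trans h1
  have hL2 : 0 ≤ L2 := hQ1.trans h2
  rw [Fin.prod_univ_two]
  have e2 : (3 * (![L1, L2] : Fin 2 → ℝ) 0) * (3 * (![L1, L2] : Fin 2 → ℝ) 1) = 9 * (L1 * L2) := by
    simp
    ring
  rw [e2]
  have h9 : 0 ≤ 9 * (L1 * L2) := by positivity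
  calc 9 * (L1 * L2) * ∏ p ∈ S, (1 - 1 / 4 / (p : ℝ)) ≤ 9 * (L1 * L2) * (δ / 9) :=
        mul_le_mul_of_nonneg_left hprod h9
    _ = δ * (L1 * L2) := by ring

end Pool.Agent.Helper32.DZ
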