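import Mathlib

set_option autoImplicit false

/-!
DZ-42 SqfPart. Most integers have a large squarefree divisor.

PROOF. Let `η > 0` (WLOG `η ≤ 1`). `α ≠ 0`: `|α| = s^2 b` with `b` squarefree (`Nat.sq_mul_squarefree`); `b ∣ α`. If `α` is in the
set then `H > 2^t b`. Either `|α| < η H / 4`: at most `η H / 2` integers `α ≠ 0`. Or `|α| ≥ η H / 4`, and then
`s^2 = |α| / b > (η/4) 2^t ≥ S0^2` where `S0` is a natural number `≥ 8/η`, `t` large: so `s > S0` and `s^2 ∣ α`: at most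
`2 ∑_(s > S0) H / s^2 ≤ 2 H / S0 ≤ η H / 2`... (`∑_(s > S0) 1/s^2 ≤ 1/S0` by telescoping
`1/s^2 ≤ 1/(s-1) - 1/s`; `s ≤ H`, finite sum; the number of nonzero `α`, `|α| ≤ H`, divisible by `s^2` is at most `2 H / s^2`),
and `2/S0 ≤ η/4 ≤ η/2`. Total `≤ η H`.
-/

namespace Pool.Agent.Helper32.DZ

theorem sqf_part (η : ℝ) (hη : 0 < η) : ∃ t : ℕ, ∀ H : ℕ, 1 ≤ H →
    (({α : ℤ | α ≠ 0 ∧ |α| ≤ (H : ℤ) ∧
      ¬ ∃ q : ℕ, Squarefree q ∧ (q : ℤ) ∣ α ∧ (H : ℝ) ≤ 2 ^ t * q}.ncard : ℕ) : ℝ) ≤ η * H := by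
  classical
  obtain ⟨S0, hS0⟩ := exists_nat_ge (4 / η + 1)
  have h4η : 0 < 4 / η := by positivity
  have hS1 : (1 : ℝ) ≤ S0 := by linarith
  have hS1' : 1 ≤ S0 := by exact_mod_cast hS1
  have hSη : 4 / η ≤ S0 := by linarith
  obtain ⟨t, ht⟩ := pow_unbounded_of_one_lt (4 * (S0 : ℝ) ^ 2 / η) (one_lt_two (α := ℝ))
  refine ⟨t, fun H hH => ?_⟩
  have hH0 : (0 : ℝ) < H := by exact_mod_cast hH
  set B : Finset ℕ := (Finset.Ioc 0 H).filter
    (fun n => ¬ ∃ q : ℕ, Squarefree q ∧ q ∣ n ∧ (H : ℝ) ≤ 2 ^ t * q) with hB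
  have h1 : {α : ℤ | α ≠ 0 ∧ |α| ≤ (H : ℤ) ∧
      ¬ ∃ q : ℕ, Squarefree q ∧ (q : ℤ) ∣ α ∧ (H : ℝ) ≤ 2 ^ t * q} ⊆
      ((B.image (fun n : ℕ => (n : ℤ)) ∪ B.image (fun n : ℕ => -(n : ℤ)) : Finset ℤ) : Set ℤ) := by
    rintro α ⟨hα0, hαH, hα⟩
    have hmem : α.natAbs ∈ B := by
      rw [hB, Finset.mem_filter, Finset.mem_Ioc]
      refine ⟨⟨Int.natAbs_pos.2 hα0, ?_⟩, ?_⟩
      · have : (α.natAbs : ℤ) ≤ H := by rw [Int.natCast_natAbs]; exact hαH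
        exact_mod_cast this
      · rintro ⟨q, hq1, hq2, hq3⟩
        exact hα ⟨q, hq1, Int.natCast_dvd.2 hq2, hq3⟩
    rw [Finset.mem_coe, Finset.mem_union, Finset.mem_image, Finset.mem_image]
    rcases Int.natAbs_eq α with h | h
    · exact Or.inl ⟨_, hmem, h.symm⟩
    · exact Or.inr ⟨_, hmem, h.symm⟩
  have h2 : {α : ℤ | α ≠ 0 ∧ |α| ≤ (H : ℤ) ∧
      ¬ ∃ q : ℕ, Squarefree q ∧ (q : ℤ) ∣ α ∧ (H : ℝ) ≤ 2 ^ t * q}.ncard ≤ B.card + B.card := by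
    refine (Set.ncard_le_ncard h1 (Finset.finite_toSet _)).trans ?_
    rw [Set.ncard_coe_finset]
    exact (Finset.card_union_le _ _).trans
      (Nat.add_le_add Finset.card_image_le Finset.card_image_le)
  have h3 : B ⊆ (Finset.Ioc 0 ⌊η * H / 4⌋₊) ∪ (Finset.Ioc S0 H).biUnion
      (fun s => (Finset.Ioc 0 H).filter (fun n => s ^ 2 ∣ n)) := by
    intro n hn
    rw [hB, Finset.mem_filter, Finset.mem_Ioc] at hn
    obtain ⟨⟨hn0, hnH⟩, hn1⟩ := hn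
    rw [Finset.mem_union]
    by_cases hsm : (n : ℝ) ≤ η * H / 4
    · left
      rw [Finset.mem_Ioc]
      exact ⟨hn0, Nat.le_floor hsm⟩
    · right
      push Not at hsm
      obtain ⟨a, b, hab, hsq⟩ := Nat.sq_mul_squarefree n
      have ha : a ∣ n := ⟨b ^ 2, by rw [← hab]; ring⟩
      have hb : b ^ 2 ∣ n := ⟨a, hab.symm⟩
      have ha0 : 0 < a := Nat.pos_of_ne_zero hsq.ne_zero
      have hHa : 2 ^ t * (a : ℝ) < H := by
        by_contra hcon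
        push Not at hcon
        exact hn1 ⟨a, hsq, ha, hcon⟩
      have hab' : (b : ℝ) ^ 2 * a = n := by exact_mod_cast hab
      have ha0' : (0 : ℝ) < a := by exact_mod_cast ha0
      have hbS : (S0 : ℝ) ^ 2 < (b : ℝ) ^ 2 := by
        have h5 : η / 4 * (2 ^ t * (a : ℝ)) < (b : ℝ) ^ 2 * a := by
          rw [hab']
          have h6 : η / 4 * (2 ^ t * (a : ℝ)) ≤ η / 4 * H :=
            mul_le_mul_of_nonneg_left hHa.le (by positivity)
          have h7 : η / 4 * (H : ℝ) = η * H / 4 := by ring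
          linarith
        have h8 : η / 4 * 2 ^ t < (b : ℝ) ^ 2 := by
          have h9 : η / 4 * 2 ^ t * (a : ℝ) < (b : ℝ) ^ 2 * a := by
            rw [mul_assoc]
            exact h5
          exact lt_of_mul_lt_mul_right h9 ha0'.le
        have h10 : (S0 : ℝ) ^ 2 < η / 4 * 2 ^ t := by
          rw [div_lt_iff₀ hη] at ht
          linarith
        exact h10.trans h8
      have hbS' : S0 < b := by
        have := lt_of_pow_lt_pow_left₀ 2 (Nat.cast_nonneg b) hbS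
        exact_mod_cast this
      rw [Finset.mem_biUnion]
      refine ⟨b, Finset.mem_Ioc.2 ⟨hbS', ?_⟩, Finset.mem_filter.2 ⟨Finset.mem_Ioc.2 ⟨hn0, hnH⟩, hb⟩⟩
      calc b ≤ b ^ 2 := Nat.le_self_pow two_ne_zero b
        _ ≤ n := Nat.le_of_dvd hn0 hb
        _ ≤ H := hnH
  have h4 : (B.card : ℝ) ≤ η * H / 4 + η * H / 4 := by
    have h5 : B.card ≤ ⌊η * H / 4⌋₊ + ∑ s ∈ Finset.Ioc S0 H, H / s ^ 2 := by
      refine (Finset.card_le_card h3).trans ((Finset.card_union_le _ _).trans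
        (Nat.add_le_add (by simp) (Finset.card_biUnion_le.trans (le_of_eq ?_))))
      exact Finset.sum_congr rfl fun s _ => Nat.Ioc_filter_dvd_card_eq_div H (s ^ 2)
    have h6 : (B.card : ℝ) ≤ (⌊η * H / 4⌋₊ : ℝ) + ∑ s ∈ Finset.Ioc S0 H, ((H / s ^ 2 : ℕ) : ℝ) := by
      exact_mod_cast h5
    have h7 : (⌊η * H / 4⌋₊ : ℝ) ≤ η * H / 4 := Nat.floor_le (by positivity)
    have h8 : ∑ s ∈ Finset.Ioc S0 H, ((H / s ^ 2 : ℕ) : ℝ) ≤ H * (S0 : ℝ)⁻¹ := by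
      rcases le_total H S0 with hle | hle
      · rw [Finset.Ioc_eq_empty_of_le hle, Finset.sum_empty]
        positivity
      · calc ∑ s ∈ Finset.Ioc S0 H, ((H / s ^ 2 : ℕ) : ℝ)
            ≤ ∑ s ∈ Finset.Ioc S0 H, (H : ℝ) * ((s : ℝ) ^ 2)⁻¹ := by
              refine Finset.sum_le_sum fun s _ => ?_
              refine Nat.cast_div_le.trans (le_of_eq ?_)
              push_cast
              rw [div_eq_mul_inv]
          _ = (H : ℝ) * ∑ s ∈ Finset.Ioc S0 H, ((s : ℝ) ^ 2)⁻¹ := by rw [Finset.mul_sum]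
          _ ≤ (H : ℝ) * ((S0 : ℝ)⁻¹ - (H : ℝ)⁻¹) :=
              mul_le_mul_of_nonneg_left (sum_Ioc_inv_sq_le_sub (by omega) hle) hH0.le
          _ ≤ H * (S0 : ℝ)⁻¹ := by
              refine mul_le_mul_of_nonneg_left ?_ hH0.le
              have : 0 ≤ (H : ℝ)⁻¹ := inv_nonneg.2 hH0.le
              linarith
    have h9 : (H : ℝ) * (S0 : ℝ)⁻¹ ≤ η * H / 4 := by
      have hS0' : (0 : ℝ) < S0 := by linarith
      rw [← div_eq_mul_inv, div_le_iff₀ hS0']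
      rw [div_le_iff₀ hη] at hSη
      nlinarith
    linarith
  have h5 : (({α : ℤ | α ≠ 0 ∧ |α| ≤ (H : ℤ) ∧
      ¬ ∃ q : ℕ, Squarefree q ∧ (q : ℤ) ∣ α ∧ (H : ℝ) ≤ 2 ^ t * q}.ncard : ℕ) : ℝ) ≤
      (B.card : ℝ) + B.card := by exact_mod_cast h2
  linarith

end Pool.Agent.Helper32.DZ
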