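import Pool.Agent.Helper32.DZ.CellOdd
import Pool.Agent.Helper32.DZ.Constr
import Pool.Agent.Helper32.DZ.OddCell
import Pool.Agent.Helper32.DZ.OddLow
import Pool.Agent.Helper32.DZ.SqfPart
import Pool.Agent.Helper32.DZ.PairDens
import Pool.Agent.Helper32.DZ.SumCells

set_option autoImplicit false

/-!
DZ-43 OddMain. Density zero in odd degree `d = m + 1`, `m ≥ 2` even.

PROOF. `F = {a | |a_i| ≤ H, Good a, HasPt a}`, finite. `cell_odd` (`d = m + 1`, `Odd d`, `3 ≤ d`) gives `c` and, by `choose`,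
`G a`, `S a`, `κ a` for `a ∈ F`. For `a ∈ F`: `κ a` monotone, `∑ ≤ c`, `1 ≤ κ i + κ (rev i) ≤ 2c` (`constr_odd`: `det (G a) ≠ 0`
from `PG`, bounds from `U = 1 ∈ Tr κ`), so `1 ≤ ∑ κ` (`2 ∑ κ = ∑ (κ i + κ (rev i)) ≥ m + 1`).
Given `ε` (`≤ 1`).
(0) `sqf_part` with `η = ε / (4 * 3^(m+1))`: `t`. The `a ∈ F` whose last coefficient `α` has no squarefree divisor `q` with
`H ≤ 2^t q`: at most `η H (2H+1)^(m+1) ≤ (ε/4) H^(m+2)` (`2H + 1 ≤ 3H`). Let `F'` be the rest; for its `α` fix `q(α)`.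
For `κ0`, `α`: `F'_(κ0,α)`; `CellO (m+1) H κ0 α F'_(κ0,α) G S`. `I` = finite set of the `κ a`, `a ∈ F'`; for `κ0 ∈ I` some
`OT (m+1) H κ0 α` is not empty (it contains `(G a, S a)`), so `2^(-2 κ0 0) ≤ K3 H` (`odd_low`), hence
`κ0 0 ≥ - log_2 (K3 H)` and `κ0 last ≤ 2c - κ0 0`: all entries of `κ0` lie in an interval with at most
`Λ = 2 log_2(K3 H) + 2c + 3` integers, `#I ≤ Λ^(m+1)`.
`odd_cell` (constant `K`): `#F' = ∑_(κ0 ∈ I) ∑_(α) #F'_(κ0,α) ≤ A + B`,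
(A) `A = #I * (2H+1) K √(H^(2m+1)) ≤ Λ^(m+1) 3H K H^(m+1/2) ≤ (ε/4) H^(m+2)` for `H ≥ H1`.
(B) `B = ∑_(κ0 ∈ I) K H^m 2^(-2 κ0 0) (3/4)^(l(κ0)) N(κ0)`, `l(κ0) = κ0 last - κ0 0`,
`N(κ0) = ∑_(α ≠ 0, |α| ≤ H) #Ps α (2H 2^(2 κ0 0))` = number of pairs `(α, s)`.
Trivially (nonzero `s` with `|s| < L`: at most `2 L`) `N(κ0) ≤ 2H * 4H 2^(2 κ0 0) = 8 H^2 2^(2 κ0 0)`, so the term is
`≤ 8 K H^(m+2) (3/4)^(l)`. By `sum_cells_tail` (`η' = ε / (32 K (c+1))`, `M`), summed over `σ = ∑ κ ∈ {1..c}`: the cells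
with `l ≥ M` give at most `8 K c η' H^(m+2) ≤ (ε/4) H^(m+2)`.
For the cells with `l < M`: `κ0 last + κ0 0 ≥ 1` so `κ0 0 ≥ (1 - M)/2`, `2^(2 κ0 0) ≥ 2^(-M)`. Let `C3` from `sum_cells`,
`δ = ε / (32 K C3 (c+1))`, `Q` from `pair_dens`. For `H` with `2H 2^(-M) ≥ Q` and `H + 1 ≥ Q`:
`N(κ0) ≤ δ (H+1) 2H 2^(2 κ0 0) ≤ 4 δ H^2 2^(2 κ0 0)` (the pairs `(α, s)`, `|α| < H + 1`), so these cells give at most
`4 δ K H^(m+2) ∑ (3/4)^l ≤ 4 δ K c C3 H^(m+2) ≤ (ε/4) H^(m+2)`.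
-/

open Polynomial Matrix

namespace Pool.Agent.Helper32.DZ


private theorem om_one_mem {N : ℕ} (κ : Fin N → ℤ) : (1 : Matrix (Fin N) (Fin N) ℤ) ∈ Tr κ := by
  refine ⟨⟨fun i => Matrix.one_apply_eq i, fun i j h => Matrix.one_apply_ne (ne_of_gt h)⟩,
    fun i j h => ?_⟩
  rw [Matrix.one_apply_ne (ne_of_lt h)]
  exact ⟨le_refl _, by rw [Int.cast_zero]; positivity⟩

private theorem om_constr {m H c : ℕ} (κ : Fin (m + 1) → ℤ) (hκ : Monotone κ)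
    (G S : Matrix (Fin (m + 1)) (Fin (m + 1)) ℤ) (hPG : PG G S) (hs : ∑ i, κ i ≤ (c : ℤ))
    (hU : ∀ U ∈ Tr κ, ∀ i j, |(((Uᵀ * G * U) i j : ℤ) : ℝ)| < (2 : ℝ) ^ (κ i + κ j) ∧
      |(((Uᵀ * S * U) i j : ℤ) : ℝ)| < 2 * (H : ℝ) * (2 : ℝ) ^ (κ i + κ j)) :
    (∀ i : Fin (m + 1), 1 ≤ κ i + κ i.rev ∧ κ i + κ i.rev ≤ 2 * (c : ℤ)) ∧ 1 ≤ ∑ i, κ i := by
  have h1 := constr_odd κ hκ G hPG.2.2.1 (fun i j => by
    have := (hU 1 (om_one_mem κ) i j).1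
    rwa [Matrix.transpose_one, Matrix.one_mul, Matrix.mul_one] at this) (c : ℤ) hs
  refine ⟨h1, ?_⟩
  have h2 : ∑ _i : Fin (m + 1), (1 : ℤ) ≤ ∑ i, (κ i + κ i.rev) :=
    Finset.sum_le_sum fun i _ => (h1 i).1
  have hrev : ∑ i : Fin (m + 1), κ i.rev = ∑ i : Fin (m + 1), κ i :=
    Fintype.sum_equiv Fin.revPerm _ _ (fun i => rfl)
  rw [Finset.sum_add_distrib, hrev, Finset.sum_const, Finset.card_univ, Fintype.card_fin,
    nsmul_eq_mul, mul_one] at h2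
  push_cast at h2
  omega

private theorem om_mem {m H : ℕ} (G S : Matrix (Fin (m + 1)) (Fin (m + 1)) ℤ)
    (κ : Fin (m + 1) → ℤ) (α : ℤ) (hPG : PG G S) (hN : NegSq α S)
    (hU : ∀ U ∈ Tr κ, ∀ i j, |(((Uᵀ * G * U) i j : ℤ) : ℝ)| < (2 : ℝ) ^ (κ i + κ j) ∧
      |(((Uᵀ * S * U) i j : ℤ) : ℝ)| < 2 * (H : ℝ) * (2 : ℝ) ^ (κ i + κ j)) :
    (OT (m + 1) H κ α).Nonempty := by
  refine ⟨(G, S), ⟨hPG.1, fun i j => ?_⟩, ⟨hPG.2.1, fun i j => ?_⟩, hN, hPG⟩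
  · have := (hU 1 (om_one_mem κ) i j).1
    rwa [Matrix.transpose_one, Matrix.one_mul, Matrix.mul_one] at this
  · have := (hU 1 (om_one_mem κ) i j).2
    rwa [Matrix.transpose_one, Matrix.one_mul, Matrix.mul_one] at this

private theorem om_box_fin (n H : ℕ) : {a : Fin n → ℤ | ∀ i, |a i| ≤ (H : ℤ)}.Finite := by
  refine Set.Finite.subset (Fintype.piFinset fun _ : Fin n => Finset.Icc (-(H : ℤ)) H).finite_toSet ?_
  intro a ha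
  rw [Finset.mem_coe, Fintype.mem_piFinset]
  intro i
  rw [Finset.mem_Icc]
  exact abs_le.1 (ha i)

private theorem om_bad (n H : ℕ) (F : Finset (Fin (n + 1) → ℤ))
    (hF : ∀ a ∈ F, ∀ i, |a i| ≤ (H : ℤ)) (B : Finset ℤ) (hB : ∀ a ∈ F, a (Fin.last n) ∈ B) :
    F.card ≤ B.card * (2 * H + 1) ^ n := by
  classical
  have h1 : (B ×ˢ (Fintype.piFinset fun _ : Fin n => Finset.Icc (-(H : ℤ)) H)).card =
      B.card * (2 * H + 1) ^ n := by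
    rw [Finset.card_product, Fintype.card_piFinset, Finset.prod_const, Finset.card_univ,
      Fintype.card_fin, Int.card_Icc]
    congr 2
    omega
  rw [← h1]
  refine Finset.card_le_card_of_injOn (fun a => (a (Fin.last n), Fin.init a)) ?_ ?_
  · intro a ha
    rw [Finset.mem_coe, Finset.mem_product]
    refine ⟨hB a ha, ?_⟩
    rw [Fintype.mem_piFinset]
    intro i
    rw [Finset.mem_Icc]
    exact abs_le.1 (hF a ha _)
  · intro a _ b _ hab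
    have h2 : a (Fin.last n) = b (Fin.last n) := congrArg Prod.fst hab
    have h3 : Fin.init a = Fin.init b := congrArg Prod.snd hab
    rw [← Fin.snoc_init_self a, ← Fin.snoc_init_self b, h2, h3]

private theorem om_ps_sub (α : ℤ) (L : ℝ) :
    Ps α L ⊆ ((Finset.Icc (-(⌈L⌉ - 1)) (⌈L⌉ - 1)).erase 0 : Finset ℤ) := by
  intro s hs
  rw [Finset.mem_coe, Finset.mem_erase, Finset.mem_Icc, ← abs_le]
  refine ⟨hs.1, ?_⟩
  have h1 : ((|s| : ℤ) : ℝ) < L := by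
    rw [Int.cast_abs]
    exact hs.2.1
  have := Int.lt_ceil.2 h1
  omega

private theorem om_ps_fin (α : ℤ) (L : ℝ) : (Ps α L).Finite := by
  rcases le_or_gt L 0 with h | h
  · convert Set.finite_empty
    ext s
    refine ⟨fun hs => ?_, fun hs => hs.elim⟩
    have := abs_nonneg (s : ℝ)
    have := hs.2.1
    linarith
  · exact Set.Finite.subset (Finset.finite_toSet _) (om_ps_sub α L)

private theorem om_ps_card (α : ℤ) (L : ℝ) (hL : 0 < L) : (((Ps α L).ncard : ℕ) : ℝ) ≤ 2 * L := by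
  have h1 := Set.ncard_le_ncard (om_ps_sub α L) (Finset.finite_toSet _)
  rw [Set.ncard_coe_finset] at h1
  have h0 : 0 < ⌈L⌉ := Int.ceil_pos.2 hL
  have h2 : (((Finset.Icc (-(⌈L⌉ - 1)) (⌈L⌉ - 1)).erase 0).card : ℤ) = 2 * (⌈L⌉ - 1) := by
    rw [Finset.card_erase_of_mem (by rw [Finset.mem_Icc]; omega), Int.card_Icc]
    omega
  have h3 : (((Ps α L).ncard : ℕ) : ℤ) ≤ 2 * (⌈L⌉ - 1) := by
    rw [← h2]
    exact_mod_cast h1
  have h4 : ((((Ps α L).ncard : ℕ) : ℤ) : ℝ) ≤ ((2 * (⌈L⌉ - 1) : ℤ) : ℝ) := Int.cast_le.2 h3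
  have h5 := Int.ceil_lt_add_one L
  push_cast at h4
  linarith

private theorem om_pairs (H : ℕ) (L : ℝ) (A : Finset ℤ) (hA : ∀ α ∈ A, |α| ≤ (H : ℤ))
    (hfin : {x : ℤ × ℤ | |(x.1 : ℝ)| < (H : ℝ) + 1 ∧ |(x.2 : ℝ)| < L ∧
      ∀ p : ℕ, p.Prime → (p : ℤ) ∣ x.1 → IsSquare (((-x.2 : ℤ)) : ZMod p)}.Finite) :
    ∑ α ∈ A, (Ps α L).ncard ≤ {x : ℤ × ℤ | |(x.1 : ℝ)| < (H : ℝ) + 1 ∧ |(x.2 : ℝ)| < L ∧
      ∀ p : ℕ, p.Prime → (p : ℤ) ∣ x.1 → IsSquare (((-x.2 : ℤ)) : ZMod p)}.ncard := by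
  classical
  have h1 : ∀ α ∈ A, (Ps α L).ncard = (om_ps_fin α L).toFinset.card := fun α _ =>
    Set.ncard_eq_toFinset_card _ _
  rw [Finset.sum_congr rfl h1, ← Finset.card_sigma, Set.ncard_eq_toFinset_card _ hfin]
  refine Finset.card_le_card_of_injOn (fun x => (x.1, x.2)) ?_ ?_
  · intro x hx
    rw [Finset.mem_coe, Finset.mem_sigma, Set.Finite.mem_toFinset] at hx
    rw [Finset.mem_coe, Set.Finite.mem_toFinset]
    refine ⟨?_, hx.2.2.1, hx.2.2.2⟩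
    have h2 : ((|x.1| : ℤ) : ℝ) ≤ ((H : ℤ) : ℝ) := Int.cast_le.2 (hA _ hx.1)
    push_cast at h2
    show |((x.1 : ℤ) : ℝ)| < (H : ℝ) + 1
    linarith
  · rintro ⟨a, b⟩ _ ⟨a', b'⟩ _ h
    have h3 : a = a' := congrArg Prod.fst h
    have h4 : b = b' := congrArg Prod.snd h
    subst h3
    subst h4
    rfl

private theorem om_step (m H : ℕ) (hH : 1 ≤ H) (K : ℝ) (hK : 1 ≤ K)
    (F : Finset (Fin (m + 1 + 1) → ℤ)) (κ : (Fin (m + 1 + 1) → ℤ) → Fin (m + 1) → ℤ)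
    (hF : ∀ a ∈ F, ∀ i, |a i| ≤ (H : ℤ))
    (hcell : ∀ κ0 ∈ F.image κ, ∀ α ∈ F.image (fun a => a (Fin.last (m + 1))),
      ((F.filter fun a => κ a = κ0 ∧ a (Fin.last (m + 1)) = α).card : ℝ) ≤
        K * √((H : ℝ) ^ (2 * m + 1)) +
        K * (H : ℝ) ^ m * (2 : ℝ) ^ (-(2 * κ0 0)) * (3 / 4 : ℝ) ^ (κ0 (Fin.last m) - κ0 0) *
          (((Ps α (2 * (H : ℝ) * (2 : ℝ) ^ (2 * κ0 0))).ncard : ℕ) : ℝ)) :
    (F.card : ℝ) ≤ ((F.image κ).card : ℝ) * (3 * H * (K * √((H : ℝ) ^ (2 * m + 1)))) +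
      ∑ κ0 ∈ F.image κ, K * (H : ℝ) ^ m * (2 : ℝ) ^ (-(2 * κ0 0)) *
        (3 / 4 : ℝ) ^ (κ0 (Fin.last m) - κ0 0) *
          ∑ α ∈ F.image (fun a => a (Fin.last (m + 1))),
            (((Ps α (2 * (H : ℝ) * (2 : ℝ) ^ (2 * κ0 0))).ncard : ℕ) : ℝ) := by
  classical
  have h1 : F.card = ∑ κ0 ∈ F.image κ, ∑ α ∈ F.image (fun a => a (Fin.last (m + 1))),
      (F.filter fun a => κ a = κ0 ∧ a (Fin.last (m + 1)) = α).card := by
    rw [Finset.card_eq_sum_card_fiberwise (f := κ) (t := F.image κ)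
      (fun a ha => Finset.mem_image_of_mem κ ha)]
    refine Finset.sum_congr rfl fun κ0 _ => ?_
    rw [Finset.card_eq_sum_card_fiberwise (f := fun a : Fin (m + 1 + 1) → ℤ => a (Fin.last (m + 1)))
      (t := F.image (fun a => a (Fin.last (m + 1))))
      (fun a ha => Finset.mem_image_of_mem _ (Finset.mem_filter.1 ha).1)]
    refine Finset.sum_congr rfl fun α _ => ?_
    rw [Finset.filter_filter]
  have hA : ((F.image (fun a => a (Fin.last (m + 1)))).card : ℝ) ≤ 3 * H := by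
    have h2 : F.image (fun a => a (Fin.last (m + 1))) ⊆ Finset.Icc (-(H : ℤ)) H := by
      intro α hα
      obtain ⟨a, ha, rfl⟩ := Finset.mem_image.1 hα
      rw [Finset.mem_Icc]
      exact abs_le.1 (hF a ha _)
    have h3 := Finset.card_le_card h2
    rw [Int.card_Icc] at h3
    have h4 : (F.image (fun a => a (Fin.last (m + 1)))).card ≤ 3 * H := by omega
    exact_mod_cast h4
  have h2 : (F.card : ℝ) ≤ ∑ κ0 ∈ F.image κ, ∑ α ∈ F.image (fun a => a (Fin.last (m + 1))),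
      (K * √((H : ℝ) ^ (2 * m + 1)) +
        K * (H : ℝ) ^ m * (2 : ℝ) ^ (-(2 * κ0 0)) * (3 / 4 : ℝ) ^ (κ0 (Fin.last m) - κ0 0) *
          (((Ps α (2 * (H : ℝ) * (2 : ℝ) ^ (2 * κ0 0))).ncard : ℕ) : ℝ)) := by
    rw [h1]
    push_cast
    exact Finset.sum_le_sum fun κ0 h0 => Finset.sum_le_sum fun α hα => hcell κ0 h0 α hα
  refine h2.trans ?_
  rw [← nsmul_eq_mul ((F.image κ).card), ← Finset.sum_const, ← Finset.sum_add_distrib]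
  refine Finset.sum_le_sum fun κ0 _ => ?_
  rw [Finset.sum_add_distrib, Finset.sum_const, nsmul_eq_mul, Finset.mul_sum]
  have h5 : 0 ≤ K * √((H : ℝ) ^ (2 * m + 1)) := by positivity
  have := mul_le_mul_of_nonneg_right hA h5
  linarith

private theorem om_fiber {m : ℕ} (J : Finset (Fin (m + 1) → ℤ)) (c : ℕ) (X : ℝ)
    (hJ : ∀ κ ∈ J, 1 ≤ ∑ i, κ i ∧ ∑ i, κ i ≤ (c : ℤ)) (f : (Fin (m + 1) → ℤ) → ℝ)
    (hX : ∀ σ : ℤ, ∑ κ ∈ J.filter (fun κ => ∑ i, κ i = σ), f κ ≤ X) : ∑ κ ∈ J, f κ ≤ c * X := by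
  classical
  rw [← Finset.sum_fiberwise_of_maps_to (s := J) (t := Finset.Icc 1 (c : ℤ))
    (g := fun κ => ∑ i, κ i) (fun κ hκ => Finset.mem_Icc.2 (hJ κ hκ))]
  refine (Finset.sum_le_sum fun σ _ => hX σ).trans ?_
  rw [Finset.sum_const, nsmul_eq_mul, Int.card_Icc]
  have : ((((c : ℤ) + 1 - 1).toNat : ℕ) : ℝ) = c := by
    have : ((c : ℤ) + 1 - 1).toNat = c := by omega
    rw [this]
  rw [this]

private theorem om_cells {m : ℕ} (I : Finset (Fin (m + 1) → ℤ)) (c b : ℕ)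
    (hI : ∀ κ ∈ I, Monotone κ ∧ κ 0 + κ (Fin.last m) ≤ 2 * (c : ℤ) ∧ -(b : ℤ) ≤ κ 0) :
    I.card ≤ (2 * c + 2 * b + 1) ^ (m + 1) := by
  classical
  have h1 : (Fintype.piFinset fun _ : Fin (m + 1) => Finset.Icc (-(b : ℤ)) (2 * c + b)).card =
      (2 * c + 2 * b + 1) ^ (m + 1) := by
    rw [Fintype.card_piFinset, Finset.prod_const, Finset.card_univ,
      Fintype.card_fin, Int.card_Icc]
    congr 1
    omega
  rw [← h1]
  refine Finset.card_le_card fun κ hκ => ?_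
  rw [Fintype.mem_piFinset]
  intro i
  rw [Finset.mem_Icc]
  obtain ⟨h2, h3, h4⟩ := hI κ hκ
  have h5 : κ 0 ≤ κ i := h2 (Fin.zero_le i)
  have h6 : κ i ≤ κ (Fin.last m) := h2 (Fin.le_last i)
  constructor <;> linarith

private theorem om_log (k : ℕ) (D E η : ℝ) (hD : 0 ≤ D) (hE : 1 ≤ E) (hη : 0 < η) :
    ∃ H1 : ℕ, ∀ H : ℕ, H1 ≤ H → D * (1 + Real.log (E * H)) ^ k ≤ η * √(H : ℝ) := by
  have h1 : (fun x : ℝ => (Real.log x) ^ k) =o[Filter.atTop] fun x : ℝ => √x := by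
    have h2 := isLittleO_log_rpow_rpow_atTop (k : ℝ) (show (0 : ℝ) < 1 / 2 by norm_num)
    refine (h2.congr (fun x => Real.rpow_natCast _ _) fun x => ?_)
    rw [Real.sqrt_eq_rpow]
  obtain ⟨W, hW⟩ : ∃ W : ℝ, W = Real.exp 1 * E := ⟨_, rfl⟩
  have hE0 : 0 < W := by rw [hW]; positivity
  have h3 : Filter.Tendsto (fun H : ℕ => W * (H : ℝ)) Filter.atTop Filter.atTop :=
    Filter.Tendsto.const_mul_atTop hE0 tendsto_natCast_atTop_atTop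
  have h4 := h1.comp_tendsto h3
  have hc : 0 < η / ((D + 1) * √W) := by positivity
  have h5 := (Asymptotics.isLittleO_iff.1 h4 hc)
  obtain ⟨H1, hH1⟩ := Filter.eventually_atTop.1 h5
  refine ⟨max H1 1, fun H hH => ?_⟩
  have h6 := hH1 H (le_trans (le_max_left _ _) hH)
  have hHp : 1 ≤ H := le_trans (le_max_right _ _) hH
  have hHr : (1 : ℝ) ≤ H := by exact_mod_cast hHp
  have h7 : Real.log (W * H) = 1 + Real.log (E * H) := by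
    rw [hW, mul_assoc, Real.log_mul (Real.exp_pos 1).ne' (by positivity), Real.log_exp]
  have h8 : 0 ≤ Real.log (E * H) := Real.log_nonneg (by nlinarith)
  simp only [Function.comp] at h6
  rw [h7, Real.norm_of_nonneg (by positivity), Real.norm_of_nonneg (by positivity),
    Real.sqrt_mul hE0.le] at h6
  have h9 : 0 < √W := by positivity
  calc D * (1 + Real.log (E * H)) ^ k ≤
      (D + 1) * (η / ((D + 1) * √W) * (√W * √(H : ℝ))) := by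
        refine mul_le_mul (by linarith) h6 (by positivity) (by positivity)
    _ = η * √(H : ℝ) := by
        field_simp

private theorem om_card {m : ℕ} (I : Finset (Fin (m + 1) → ℤ)) (c H : ℕ) (K3 : ℝ) (hK3 : 1 ≤ K3)
    (hH : 1 ≤ H)
    (hI : ∀ κ ∈ I, Monotone κ ∧ κ 0 + κ (Fin.last m) ≤ 2 * (c : ℤ) ∧
      (2 : ℝ) ^ (-(2 * κ 0)) ≤ K3 * H) :
    (I.card : ℝ) ≤ (2 * (c : ℝ) + 4) ^ (m + 1) * (1 + Real.log (K3 * H)) ^ (m + 1) := by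
  have hHr : (1 : ℝ) ≤ H := by exact_mod_cast hH
  have hE : 1 ≤ K3 * H := by nlinarith
  have hlog : 0 ≤ Real.log (K3 * H) := Real.log_nonneg hE
  obtain ⟨b, hb⟩ : ∃ b : ℕ, b = ⌈2 * Real.log (K3 * H)⌉₊ := ⟨_, rfl⟩
  have hb1 : 2 * Real.log (K3 * H) ≤ b := by
    rw [hb]
    exact Nat.le_ceil _
  have hb2 : (b : ℝ) ≤ 2 * Real.log (K3 * H) + 1 := by
    rw [hb]
    exact (Nat.ceil_lt_add_one (by positivity)).le
  have h1 := om_cells I c b fun κ hκ => by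
    obtain ⟨h1, h2, h3⟩ := hI κ hκ
    refine ⟨h1, h2, ?_⟩
    have h4 := Real.log_le_log (by positivity) h3
    rw [Real.log_zpow] at h4
    by_contra hcon
    push Not at hcon
    have h5 : (b : ℝ) + 1 ≤ ((-(2 * κ 0) : ℤ) : ℝ) := by
      have : (b : ℤ) + 1 ≤ -(2 * κ 0) := by omega
      exact_mod_cast this
    have h6 := Real.log_two_gt_d9
    have h7 : ((b : ℝ) + 1) * Real.log 2 ≤ ((-(2 * κ 0) : ℤ) : ℝ) * Real.log 2 :=
      mul_le_mul_of_nonneg_right h5 (by linarith)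
    nlinarith
  have h2 : (I.card : ℝ) ≤ (2 * (c : ℝ) + 2 * b + 1) ^ (m + 1) := by exact_mod_cast h1
  refine h2.trans ?_
  rw [← mul_pow]
  refine pow_le_pow_left₀ (by positivity) ?_ _
  have hc0 : (0 : ℝ) ≤ c := Nat.cast_nonneg c
  nlinarith

private theorem om_sqrt (m H : ℕ) : √((H : ℝ) ^ (2 * m + 1)) = (H : ℝ) ^ m * √(H : ℝ) := by
  rw [show (H : ℝ) ^ (2 * m + 1) = ((H : ℝ) ^ m) ^ 2 * H by ring, Real.sqrt_mul (by positivity),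
    Real.sqrt_sq (by positivity)]

/-- the contribution of the main terms -/
private theorem om_main_terms (m c H : ℕ) (hH : 1 ≤ H) (K : ℝ) (hK : 1 ≤ K) (ε C3 : ℝ)
    (hε : 0 < ε) (hC3 : 0 < C3)
    (hsum : ∀ (J : Finset (Fin (m + 1) → ℤ)) (σ : ℤ),
      (∀ κ ∈ J, Monotone κ ∧ ∑ i, κ i = σ) →
      ∑ κ ∈ J, (3 / 4 : ℝ) ^ (κ (Fin.last m) - κ 0) ≤ C3)
    (M : ℕ) (hM : ∀ (J : Finset (Fin (m + 1) → ℤ)) (σ : ℤ),
      (∀ κ ∈ J, Monotone κ ∧ ∑ i, κ i = σ ∧ (M : ℤ) ≤ κ (Fin.last m) - κ 0) →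
      ∑ κ ∈ J, (3 / 4 : ℝ) ^ (κ (Fin.last m) - κ 0) ≤ ε / (48 * K * (c + 1)))
    (Q : ℕ) (hQ : ∀ L1 L2 : ℝ, (Q : ℝ) ≤ L1 → (Q : ℝ) ≤ L2 →
      {x : ℤ × ℤ | |(x.1 : ℝ)| < L1 ∧ |(x.2 : ℝ)| < L2 ∧
        ∀ p : ℕ, p.Prime → (p : ℤ) ∣ x.1 → IsSquare (((-x.2 : ℤ)) : ZMod p)}.Finite ∧
      (({x : ℤ × ℤ | |(x.1 : ℝ)| < L1 ∧ |(x.2 : ℝ)| < L2 ∧
        ∀ p : ℕ, p.Prime → (p : ℤ) ∣ x.1 → IsSquare (((-x.2 : ℤ)) : ZMod p)}.ncard : ℕ) : ℝ) ≤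
        ε / (16 * K * C3 * (c + 1)) * (L1 * L2))
    (hHQ : Q * 2 ^ M ≤ H)
    (I : Finset (Fin (m + 1) → ℤ))
    (hI : ∀ κ ∈ I, Monotone κ ∧ 1 ≤ κ 0 + κ (Fin.last m) ∧ 1 ≤ ∑ i, κ i ∧ ∑ i, κ i ≤ (c : ℤ))
    (A : Finset ℤ) (hA : ∀ α ∈ A, |α| ≤ (H : ℤ)) :
    ∑ κ0 ∈ I, K * (H : ℝ) ^ m * (2 : ℝ) ^ (-(2 * κ0 0)) *
        (3 / 4 : ℝ) ^ (κ0 (Fin.last m) - κ0 0) *
          ∑ α ∈ A, (((Ps α (2 * (H : ℝ) * (2 : ℝ) ^ (2 * κ0 0))).ncard : ℕ) : ℝ) ≤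
      ε / 2 * (H : ℝ) ^ (m + 2) := by
  classical
  have hHr : (1 : ℝ) ≤ H := by exact_mod_cast hH
  have hc0 : (0 : ℝ) ≤ c := Nat.cast_nonneg c
  have hAc : (A.card : ℝ) ≤ 3 * H := by
    have h2 : A ⊆ Finset.Icc (-(H : ℤ)) H := by
      intro α hα
      rw [Finset.mem_Icc]
      exact abs_le.1 (hA α hα)
    have h3 := Finset.card_le_card h2
    rw [Int.card_Icc] at h3
    have h4 : A.card ≤ 3 * H := by omega
    exact_mod_cast h4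
  rw [← Finset.sum_filter_add_sum_filter_not I (fun κ => (M : ℤ) ≤ κ (Fin.last m) - κ 0)]
  -- the cells with large `l`
  have hbig : ∑ κ0 ∈ I.filter (fun κ => (M : ℤ) ≤ κ (Fin.last m) - κ 0),
      K * (H : ℝ) ^ m * (2 : ℝ) ^ (-(2 * κ0 0)) * (3 / 4 : ℝ) ^ (κ0 (Fin.last m) - κ0 0) *
        ∑ α ∈ A, (((Ps α (2 * (H : ℝ) * (2 : ℝ) ^ (2 * κ0 0))).ncard : ℕ) : ℝ) ≤
      ε / 4 * (H : ℝ) ^ (m + 2) := by
    have h1 : ∀ κ0 ∈ I.filter (fun κ => (M : ℤ) ≤ κ (Fin.last m) - κ 0),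
        K * (H : ℝ) ^ m * (2 : ℝ) ^ (-(2 * κ0 0)) * (3 / 4 : ℝ) ^ (κ0 (Fin.last m) - κ0 0) *
        ∑ α ∈ A, (((Ps α (2 * (H : ℝ) * (2 : ℝ) ^ (2 * κ0 0))).ncard : ℕ) : ℝ) ≤
        12 * K * (H : ℝ) ^ (m + 2) * (3 / 4 : ℝ) ^ (κ0 (Fin.last m) - κ0 0) := by
      intro κ0 _
      have h2 : ∑ α ∈ A, (((Ps α (2 * (H : ℝ) * (2 : ℝ) ^ (2 * κ0 0))).ncard : ℕ) : ℝ) ≤
          3 * H * (2 * (2 * (H : ℝ) * (2 : ℝ) ^ (2 * κ0 0))) := by
        refine (Finset.sum_le_sum fun α _ => om_ps_card α _ (by positivity)).trans ?_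
        rw [Finset.sum_const, nsmul_eq_mul]
        exact mul_le_mul_of_nonneg_right hAc (by positivity)
      refine (mul_le_mul_of_nonneg_left h2 (by positivity)).trans (le_of_eq ?_)
      have h3 : (2 : ℝ) ^ (-(2 * κ0 0)) * (2 : ℝ) ^ (2 * κ0 0) = 1 := by
        rw [← zpow_add₀ (by norm_num)]
        simp
      calc K * (H : ℝ) ^ m * (2 : ℝ) ^ (-(2 * κ0 0)) * (3 / 4 : ℝ) ^ (κ0 (Fin.last m) - κ0 0) *
            (3 * H * (2 * (2 * (H : ℝ) * (2 : ℝ) ^ (2 * κ0 0))))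
          = 12 * K * ((H : ℝ) ^ m * H * H) * (3 / 4 : ℝ) ^ (κ0 (Fin.last m) - κ0 0) *
            ((2 : ℝ) ^ (-(2 * κ0 0)) * (2 : ℝ) ^ (2 * κ0 0)) := by ring
        _ = 12 * K * (H : ℝ) ^ (m + 2) * (3 / 4 : ℝ) ^ (κ0 (Fin.last m) - κ0 0) := by
          rw [h3]
          ring
    refine (Finset.sum_le_sum h1).trans ?_
    rw [← Finset.mul_sum]
    have h4 := om_fiber (I.filter (fun κ => (M : ℤ) ≤ κ (Fin.last m) - κ 0)) c
      (ε / (48 * K * (c + 1)))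
      (fun κ hκ => (hI κ (Finset.mem_filter.1 hκ).1).2.2)
      (fun κ => (3 / 4 : ℝ) ^ (κ (Fin.last m) - κ 0)) (fun σ => hM _ σ fun κ hκ => by
        rw [Finset.mem_filter, Finset.mem_filter] at hκ
        exact ⟨(hI κ hκ.1.1).1, hκ.2, hκ.1.2⟩)
    have h5 : (c : ℝ) * (ε / (48 * K * (c + 1))) ≤ ε / (48 * K) := by
      rw [show ε / (48 * K) = (c + 1) * (ε / (48 * K * (c + 1))) by field_simp]
      exact mul_le_mul_of_nonneg_right (by linarith) (by positivity)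
    calc 12 * K * (H : ℝ) ^ (m + 2) * ∑ κ0 ∈ I.filter (fun κ => (M : ℤ) ≤ κ (Fin.last m) - κ 0),
          (3 / 4 : ℝ) ^ (κ0 (Fin.last m) - κ0 0)
        ≤ 12 * K * (H : ℝ) ^ (m + 2) * (ε / (48 * K)) :=
          mul_le_mul_of_nonneg_left (h4.trans h5) (by positivity)
      _ = ε / 4 * (H : ℝ) ^ (m + 2) := by field_simp; ring
  -- the cells with small `l`
  have hsmall : ∑ κ0 ∈ I.filter (fun κ => ¬ (M : ℤ) ≤ κ (Fin.last m) - κ 0),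
      K * (H : ℝ) ^ m * (2 : ℝ) ^ (-(2 * κ0 0)) * (3 / 4 : ℝ) ^ (κ0 (Fin.last m) - κ0 0) *
        ∑ α ∈ A, (((Ps α (2 * (H : ℝ) * (2 : ℝ) ^ (2 * κ0 0))).ncard : ℕ) : ℝ) ≤
      ε / 4 * (H : ℝ) ^ (m + 2) := by
    obtain ⟨δ, hδ⟩ : ∃ δ : ℝ, δ = ε / (16 * K * C3 * (c + 1)) := ⟨_, rfl⟩
    have hδ0 : 0 < δ := by rw [hδ]; positivity
    have h1 : ∀ κ0 ∈ I.filter (fun κ => ¬ (M : ℤ) ≤ κ (Fin.last m) - κ 0),
        K * (H : ℝ) ^ m * (2 : ℝ) ^ (-(2 * κ0 0)) * (3 / 4 : ℝ) ^ (κ0 (Fin.last m) - κ0 0) *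
        ∑ α ∈ A, (((Ps α (2 * (H : ℝ) * (2 : ℝ) ^ (2 * κ0 0))).ncard : ℕ) : ℝ) ≤
        4 * δ * K * (H : ℝ) ^ (m + 2) * (3 / 4 : ℝ) ^ (κ0 (Fin.last m) - κ0 0) := by
      intro κ0 hκ0
      rw [Finset.mem_filter] at hκ0
      have hlow : -(M : ℤ) ≤ 2 * κ0 0 := by
        have h2 := (hI κ0 hκ0.1).2.1
        have h3 := hκ0.2
        omega
      have h4 : (2 : ℝ) ^ (-(M : ℤ)) ≤ (2 : ℝ) ^ (2 * κ0 0) :=
        zpow_le_zpow_right₀ one_le_two hlow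
      have hQH : (Q : ℝ) * 2 ^ M ≤ H := by exact_mod_cast hHQ
      have hL : (Q : ℝ) ≤ 2 * (H : ℝ) * (2 : ℝ) ^ (2 * κ0 0) := by
        rw [_root_.zpow_neg, zpow_natCast] at h4
        calc (Q : ℝ) = Q * 2 ^ M * (2 ^ M)⁻¹ := by field_simp
          _ ≤ H * (2 ^ M)⁻¹ := mul_le_mul_of_nonneg_right hQH (by positivity)
          _ ≤ H * (2 : ℝ) ^ (2 * κ0 0) := mul_le_mul_of_nonneg_left h4 (by positivity)
          _ ≤ 2 * (H : ℝ) * (2 : ℝ) ^ (2 * κ0 0) := by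
              have : 0 ≤ (H : ℝ) * (2 : ℝ) ^ (2 * κ0 0) := by positivity
              linarith
      have hQ1 : (Q : ℝ) ≤ (H : ℝ) + 1 := by
        have h5 : (1 : ℝ) ≤ 2 ^ M := one_le_pow₀ one_le_two
        have h6 : (0 : ℝ) ≤ Q := Nat.cast_nonneg Q
        nlinarith
      obtain ⟨hfin, hle⟩ := hQ ((H : ℝ) + 1) (2 * (H : ℝ) * (2 : ℝ) ^ (2 * κ0 0)) hQ1 hL
      rw [← hδ] at hle
      have h7 := om_pairs H (2 * (H : ℝ) * (2 : ℝ) ^ (2 * κ0 0)) A hA hfin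
      have h8 : ∑ α ∈ A, (((Ps α (2 * (H : ℝ) * (2 : ℝ) ^ (2 * κ0 0))).ncard : ℕ) : ℝ) ≤
          δ * (((H : ℝ) + 1) * (2 * (H : ℝ) * (2 : ℝ) ^ (2 * κ0 0))) := by
        refine le_trans ?_ hle
        exact_mod_cast h7
      have h9 : δ * (((H : ℝ) + 1) * (2 * (H : ℝ) * (2 : ℝ) ^ (2 * κ0 0))) ≤
          δ * ((2 * (H : ℝ)) * (2 * (H : ℝ) * (2 : ℝ) ^ (2 * κ0 0))) := by
        refine mul_le_mul_of_nonneg_left ?_ hδ0.le
        exact mul_le_mul_of_nonneg_right (by linarith) (by positivity)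
      refine (mul_le_mul_of_nonneg_left (h8.trans h9) (by positivity)).trans (le_of_eq ?_)
      have h3 : (2 : ℝ) ^ (-(2 * κ0 0)) * (2 : ℝ) ^ (2 * κ0 0) = 1 := by
        rw [← zpow_add₀ (by norm_num)]
        simp
      calc K * (H : ℝ) ^ m * (2 : ℝ) ^ (-(2 * κ0 0)) * (3 / 4 : ℝ) ^ (κ0 (Fin.last m) - κ0 0) *
            (δ * ((2 * (H : ℝ)) * (2 * (H : ℝ) * (2 : ℝ) ^ (2 * κ0 0))))
          = 4 * δ * K * ((H : ℝ) ^ m * H * H) * (3 / 4 : ℝ) ^ (κ0 (Fin.last m) - κ0 0) *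
            ((2 : ℝ) ^ (-(2 * κ0 0)) * (2 : ℝ) ^ (2 * κ0 0)) := by ring
        _ = 4 * δ * K * (H : ℝ) ^ (m + 2) * (3 / 4 : ℝ) ^ (κ0 (Fin.last m) - κ0 0) := by
          rw [h3]
          ring
    refine (Finset.sum_le_sum h1).trans ?_
    rw [← Finset.mul_sum]
    have h4 := om_fiber (I.filter (fun κ => ¬ (M : ℤ) ≤ κ (Fin.last m) - κ 0)) c C3
      (fun κ hκ => (hI κ (Finset.mem_filter.1 hκ).1).2.2)
      (fun κ => (3 / 4 : ℝ) ^ (κ (Fin.last m) - κ 0)) (fun σ => hsum _ σ fun κ hκ => by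
        rw [Finset.mem_filter, Finset.mem_filter] at hκ
        exact ⟨(hI κ hκ.1.1).1, hκ.2⟩)
    calc 4 * δ * K * (H : ℝ) ^ (m + 2) *
          ∑ κ0 ∈ I.filter (fun κ => ¬ (M : ℤ) ≤ κ (Fin.last m) - κ 0),
          (3 / 4 : ℝ) ^ (κ0 (Fin.last m) - κ0 0)
        ≤ 4 * δ * K * (H : ℝ) ^ (m + 2) * ((c + 1) * C3) := by
          refine mul_le_mul_of_nonneg_left (h4.trans ?_) (by positivity)
          exact mul_le_mul_of_nonneg_right (by linarith) hC3.le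
      _ = ε / 4 * (H : ℝ) ^ (m + 2) := by
          rw [hδ]
          field_simp
          ring
  linarith

theorem odd_main (m : ℕ) (hm : Even m) (h2 : 2 ≤ m) (ε : ℝ) (hε : 0 < ε) :
    ∃ H₀ : ℕ, ∀ H : ℕ, H₀ ≤ H →
    {a : Fin (m + 1 + 1) → ℤ | (∀ i, |a i| ≤ (H : ℤ)) ∧ Good a ∧ HasPt a}.Finite ∧
    (({a : Fin (m + 1 + 1) → ℤ | (∀ i, |a i| ≤ (H : ℤ)) ∧ Good a ∧ HasPt a}.ncard : ℕ) : ℝ) ≤
      ε * (H : ℝ) ^ (m + 2) := by
  classical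
  obtain ⟨c, hc⟩ := cell_odd (m + 1) hm.add_one (by omega)
  obtain ⟨t, ht⟩ := sqf_part (ε / (4 * 3 ^ (m + 1))) (by positivity)
  obtain ⟨K, hK1, hK⟩ := odd_cell m hm h2 c t
  obtain ⟨K3, hK31, hK3⟩ := odd_low m hm h2 c t
  obtain ⟨C3, hC3, hsum⟩ := sum_cells m
  obtain ⟨M, hM⟩ := sum_cells_tail m (ε / (48 * K * (c + 1))) (by positivity)
  obtain ⟨Q, hQ⟩ := pair_dens (ε / (16 * K * C3 * (c + 1))) (by positivity)
  obtain ⟨H1, hH1⟩ := om_log (m + 1) ((2 * (c : ℝ) + 4) ^ (m + 1) * (3 * K)) K3 (ε / 4)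
    (by positivity) hK31 (by positivity)
  refine ⟨max (max H1 1) (Q * 2 ^ M), fun H hH => ?_⟩
  have hHH1 : H1 ≤ H := le_trans (le_trans (le_max_left _ _) (le_max_left _ _)) hH
  have hH1' : 1 ≤ H := le_trans (le_trans (le_max_right _ _) (le_max_left _ _)) hH
  have hHQ : Q * 2 ^ M ≤ H := le_trans (le_max_right _ _) hH
  have hHr : (1 : ℝ) ≤ H := by exact_mod_cast hH1'
  have hfin : {a : Fin (m + 1 + 1) → ℤ | (∀ i, |a i| ≤ (H : ℤ)) ∧ Good a ∧ HasPt a}.Finite :=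
    (om_box_fin (m + 1 + 1) H).subset fun a ha => ha.1
  refine ⟨hfin, ?_⟩
  rw [Set.ncard_eq_toFinset_card _ hfin]
  have hmem : ∀ a, a ∈ hfin.toFinset → (∀ i, |a i| ≤ (H : ℤ)) ∧ Good a ∧ HasPt a := fun a ha => by
    rwa [Set.Finite.mem_toFinset] at ha
  have hch : ∀ a, a ∈ hfin.toFinset →
      ∃ (G S : Matrix (Fin (m + 1)) (Fin (m + 1)) ℤ) (κ : Fin (m + 1) → ℤ),
      PG G S ∧ NegSq (a (Fin.last (m + 1))) S ∧
      pen (a (Fin.last (m + 1)) • G) S =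
        C (-(-1) ^ (((m + 1) + 1) / 2) * (a (Fin.last (m + 1))) ^ ((m + 1) - 1)) * pol a ∧
      Monotone κ ∧ ∑ i, κ i ≤ (c : ℤ) ∧
      ∀ U ∈ Tr κ, ∀ i j, |(((Uᵀ * G * U) i j : ℤ) : ℝ)| < (2 : ℝ) ^ (κ i + κ j) ∧
        |(((Uᵀ * S * U) i j : ℤ) : ℝ)| < 2 * (H : ℝ) * (2 : ℝ) ^ (κ i + κ j) := fun a ha =>
    hc H hH1' a (hmem a ha).1 (hmem a ha).2.1 (hmem a ha).2.2
  choose! G S κ hPG hN hpen hmono hκs hU using hch
  -- leading coefficients without a large squarefree divisor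
  obtain ⟨sq, hsq⟩ : ∃ sq : ℤ → Prop, sq = fun α => ∃ q : ℕ, Squarefree q ∧ (q : ℤ) ∣ α ∧
    (H : ℝ) ≤ 2 ^ t * q := ⟨_, rfl⟩
  rw [← Finset.card_filter_add_card_filter_not (s := hfin.toFinset)
    (fun a => sq (a (Fin.last (m + 1))))]
  have hbfin : {α : ℤ | α ≠ 0 ∧ |α| ≤ (H : ℤ) ∧
      ¬ ∃ q : ℕ, Squarefree q ∧ (q : ℤ) ∣ α ∧ (H : ℝ) ≤ 2 ^ t * q}.Finite := by
    refine (Set.finite_Icc (-(H : ℤ)) H).subset fun α hα => abs_le.1 hα.2.1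
  have hbad : ((hfin.toFinset.filter fun a => ¬ sq (a (Fin.last (m + 1)))).card : ℝ) ≤
      ε / 4 * (H : ℝ) ^ (m + 2) := by
    have h1 := om_bad (m + 1) H (hfin.toFinset.filter fun a => ¬ sq (a (Fin.last (m + 1))))
      (fun a ha => (hmem a (Finset.mem_filter.1 ha).1).1) hbfin.toFinset (fun a ha => by
        rw [Finset.mem_filter] at ha
        rw [Set.Finite.mem_toFinset]
        have h2 := hmem a ha.1
        have h3 := ha.2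
        rw [hsq] at h3
        exact ⟨h2.2.1.1, h2.1 _, h3⟩)
    have h2 := ht H hH1'
    rw [Set.ncard_eq_toFinset_card _ hbfin] at h2
    have h3 : ((hfin.toFinset.filter fun a => ¬ sq (a (Fin.last (m + 1)))).card : ℝ) ≤
        (hbfin.toFinset.card : ℝ) * (2 * H + 1) ^ (m + 1) := by exact_mod_cast h1
    refine h3.trans ?_
    have h4 : (2 * (H : ℝ) + 1) ^ (m + 1) ≤ (3 * H) ^ (m + 1) :=
      pow_le_pow_left₀ (by positivity) (by linarith) _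
    calc (hbfin.toFinset.card : ℝ) * (2 * H + 1) ^ (m + 1)
        ≤ (ε / (4 * 3 ^ (m + 1)) * H) * (3 * H) ^ (m + 1) :=
          mul_le_mul h2 h4 (by positivity) (by positivity)
      _ = ε / 4 * (H : ℝ) ^ (m + 2) := by
          rw [mul_pow]
          field_simp
          ring
  obtain ⟨F, hF⟩ : ∃ F : Finset (Fin (m + 1 + 1) → ℤ),
    F = hfin.toFinset.filter fun a => sq (a (Fin.last (m + 1))) := ⟨_, rfl⟩
  rw [← hF]
  have hFm : ∀ a ∈ F, a ∈ hfin.toFinset := fun a ha => by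
    rw [hF] at ha
    exact (Finset.mem_filter.1 ha).1
  have hFs : ∀ a ∈ F, sq (a (Fin.last (m + 1))) := fun a ha => by
    rw [hF] at ha
    exact (Finset.mem_filter.1 ha).2
  have hcon : ∀ κ0 ∈ F.image κ, Monotone κ0 ∧
      (∀ i : Fin (m + 1), 1 ≤ κ0 i + κ0 i.rev ∧ κ0 i + κ0 i.rev ≤ 2 * (c : ℤ)) ∧
      1 ≤ ∑ i, κ0 i ∧ ∑ i, κ0 i ≤ (c : ℤ) := by
    intro κ0 hκ0
    obtain ⟨a, ha, rfl⟩ := Finset.mem_image.1 hκ0
    have h1 := hFm a ha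
    obtain ⟨h3, h4⟩ := om_constr (κ a) (hmono a h1) (G a) (S a) (hPG a h1) (hκs a h1) (hU a h1)
    exact ⟨hmono a h1, h3, h4, hκs a h1⟩
  have hstep := om_step m H hH1' K hK1 F κ (fun a ha => (hmem a (hFm a ha)).1) (by
    intro κ0 hκ0 α hα
    obtain ⟨a, ha, haα⟩ := Finset.mem_image.1 hα
    have h1 := hFs a ha
    rw [hsq] at h1
    obtain ⟨q, hq1, hq2, hq3⟩ := h1
    have haα' : a (Fin.last (m + 1)) = α := haα
    rw [haα'] at hq2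
    have hα0 : α ≠ 0 := by
      rw [← haα']
      exact (hmem a (hFm a ha)).2.1.1
    obtain ⟨h3, h4, _, h5⟩ := hcon κ0 hκ0
    have h6 := hK H hH1' q α hα0 hq1 hq2 hq3 κ0 h4 h5
      (↑(F.filter fun a => κ a = κ0 ∧ a (Fin.last (m + 1)) = α)) (Finset.finite_toSet _) G S
      ⟨h3, fun b hb => by
        rw [Finset.mem_coe, Finset.mem_filter] at hb
        have h7 := hFm b hb.1
        refine ⟨hPG b h7, ?_, ?_, ?_⟩
        · rw [← hb.2.2]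
          exact hN b h7
        · rw [← hb.2.2]
          exact hpen b h7
        · rw [← hb.2.1]
          exact hU b h7⟩
    rw [Set.ncard_coe_finset] at h6
    exact h6)
  have hIc := om_card (F.image κ) c H K3 hK31 hH1' (by
    intro κ0 hκ0
    obtain ⟨h3, h4, _, _⟩ := hcon κ0 hκ0
    refine ⟨h3, ?_, ?_⟩
    · have := (h4 0).2
      rwa [Fin.rev_zero] at this
    · obtain ⟨a, ha, haκ⟩ := Finset.mem_image.1 hκ0
      have h1 := hFs a ha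
      rw [hsq] at h1
      obtain ⟨q, hq1, hq2, hq3⟩ := h1
      have h7 := hFm a ha
      refine hK3 H hH1' q (a (Fin.last (m + 1))) hq1 hq2 hq3 κ0 h3 h4 ?_
      rw [← haκ]
      exact om_mem (G a) (S a) (κ a) _ (hPG a h7) (hN a h7) (hU a h7))
  have hA : ((F.image κ).card : ℝ) * (3 * H * (K * √((H : ℝ) ^ (2 * m + 1)))) ≤
      ε / 4 * (H : ℝ) ^ (m + 2) := by
    have h1 := hH1 H hHH1
    rw [om_sqrt]
    have h3 : ((F.image κ).card : ℝ) * (3 * K) ≤ ε / 4 * √(H : ℝ) := by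
      refine le_trans (mul_le_mul_of_nonneg_right hIc (by positivity)) (le_trans (le_of_eq ?_) h1)
      ring
    have h4 : √(H : ℝ) * √(H : ℝ) = H := Real.mul_self_sqrt (by positivity)
    calc ((F.image κ).card : ℝ) * (3 * H * (K * ((H : ℝ) ^ m * √(H : ℝ))))
        = (((F.image κ).card : ℝ) * (3 * K)) * (H ^ m * H * √(H : ℝ)) := by ring
      _ ≤ (ε / 4 * √(H : ℝ)) * (H ^ m * H * √(H : ℝ)) :=
          mul_le_mul_of_nonneg_right h3 (by positivity)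
      _ = ε / 4 * (H ^ m * H * (√(H : ℝ) * √(H : ℝ))) := by ring
      _ = ε / 4 * (H : ℝ) ^ (m + 2) := by
          rw [h4]
          ring
  have hB := om_main_terms m c H hH1' K hK1 ε C3 hε hC3 hsum M hM Q hQ hHQ (F.image κ) (by
    intro κ0 hκ0
    obtain ⟨h3, h4, h5, h6⟩ := hcon κ0 hκ0
    refine ⟨h3, ?_, h5, h6⟩
    have := (h4 0).1
    rwa [Fin.rev_zero] at this) (F.image fun a => a (Fin.last (m + 1))) (by
    intro α hα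
    obtain ⟨a, ha, rfl⟩ := Finset.mem_image.1 hα
    exact (hmem a (hFm a ha)).1 _)
  have h9 : (F.card : ℝ) ≤ ε / 4 * (H : ℝ) ^ (m + 2) + ε / 2 * (H : ℝ) ^ (m + 2) :=
    hstep.trans (add_le_add hA hB)
  push_cast
  linarith

end Pool.Agent.Helper32.DZ
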