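import Pool.Agent.Helper32.DZ.EvenMain
import Pool.Agent.Helper32.DZ.OddMain
import Pool.Agent.Helper32.DZ.NonGood

set_option autoImplicit false

/-!
DZ-44 Final. For every degree `d ≥ 2` the integer polynomials with an integral point on `y^2 = f(x)` have density zero.

PROOF. `d = m + 1`, `m` odd (`even_main`) or `m ≥ 2` even (`odd_main`) with `ε/2`: at most `(ε/2) H^(d+1)` good tuples; the tuples
which are not good: at most `d (2H+1)^d ≤ (ε/2) (2H+1)^(d+1)` for `2H + 1 ≥ 2d/ε` (`nongood_card`).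
-/

open Polynomial Matrix

namespace Pool.Agent.Helper32.DZ

private theorem dz_main (m : ℕ) (hm : 1 ≤ m) (ε : ℝ) (hε : 0 < ε) :
    ∃ H₀ : ℕ, ∀ H : ℕ, H₀ ≤ H →
    {a : Fin (m + 1 + 1) → ℤ | (∀ i, |a i| ≤ (H : ℤ)) ∧ Good a ∧ HasPt a}.Finite ∧
    (({a : Fin (m + 1 + 1) → ℤ | (∀ i, |a i| ≤ (H : ℤ)) ∧ Good a ∧ HasPt a}.ncard : ℕ) : ℝ) ≤
      ε * (H : ℝ) ^ (m + 2) := by
  rcases Nat.even_or_odd m with h | h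
  · obtain ⟨r, hr⟩ := h
    exact odd_main m ⟨r, hr⟩ (by omega) ε hε
  · exact even_main m h ε hε

theorem density_zero (d : ℕ) (hd : 2 ≤ d) (ε : ℝ) (hε : 0 < ε) : ∃ H₀ : ℕ, ∀ H : ℕ, H₀ ≤ H →
    (({a : Fin (d + 1) → ℤ | (∀ i, |a i| ≤ (H : ℤ)) ∧
      ∃ x y : ℤ, y ^ 2 = ∑ i, a i * x ^ (i : ℕ)}.ncard : ℕ) : ℝ) ≤
      ε * (2 * (H : ℝ) + 1) ^ (d + 1) := by
  obtain ⟨m, rfl⟩ : ∃ m, d = m + 1 := ⟨d - 1, by omega⟩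
  obtain ⟨H0, hH0⟩ := dz_main m (by omega) (ε / 2) (by positivity)
  obtain ⟨H1, hH1⟩ := exists_nat_ge (((m + 1 : ℕ) : ℝ) / ε)
  refine ⟨max H0 H1, fun H hH => ?_⟩
  obtain ⟨hf1, hc1⟩ := hH0 H (le_trans (le_max_left _ _) hH)
  obtain ⟨hf2, hc2⟩ := nongood_card (m + 1) H (by omega)
  have hsub : {a : Fin (m + 1 + 1) → ℤ | (∀ i, |a i| ≤ (H : ℤ)) ∧
      ∃ x y : ℤ, y ^ 2 = ∑ i, a i * x ^ (i : ℕ)} ⊆
      {a : Fin (m + 1 + 1) → ℤ | (∀ i, |a i| ≤ (H : ℤ)) ∧ Good a ∧ HasPt a} ∪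
      {a : Fin (m + 1 + 1) → ℤ | (∀ i, |a i| ≤ (H : ℤ)) ∧ ¬ Good a} := by
    intro a ha
    by_cases hg : Good a
    · exact Or.inl ⟨ha.1, hg, ha.2⟩
    · exact Or.inr ⟨ha.1, hg⟩
  have h1 := (Set.ncard_le_ncard hsub (hf1.union hf2)).trans (Set.ncard_union_le _ _)
  have h2 : (({a : Fin (m + 1 + 1) → ℤ | (∀ i, |a i| ≤ (H : ℤ)) ∧
      ∃ x y : ℤ, y ^ 2 = ∑ i, a i * x ^ (i : ℕ)}.ncard : ℕ) : ℝ) ≤
      (({a : Fin (m + 1 + 1) → ℤ | (∀ i, |a i| ≤ (H : ℤ)) ∧ Good a ∧ HasPt a}.ncard : ℕ) : ℝ) +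
      (({a : Fin (m + 1 + 1) → ℤ | (∀ i, |a i| ≤ (H : ℤ)) ∧ ¬ Good a}.ncard : ℕ) : ℝ) := by
    exact_mod_cast h1
  have h3 : (({a : Fin (m + 1 + 1) → ℤ | (∀ i, |a i| ≤ (H : ℤ)) ∧ ¬ Good a}.ncard : ℕ) : ℝ) ≤
      ((m + 1 : ℕ) : ℝ) * (2 * (H : ℝ) + 1) ^ (m + 1) := by exact_mod_cast hc2
  have h4 : ((m + 1 : ℕ) : ℝ) ≤ ε / 2 * (2 * (H : ℝ) + 1) := by
    have h5 : (H1 : ℝ) ≤ H := by exact_mod_cast le_trans (le_max_right _ _) hH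
    have h6 := (div_le_iff₀ hε).1 (hH1.trans h5)
    linarith
  have h5 : ((m + 1 : ℕ) : ℝ) * (2 * (H : ℝ) + 1) ^ (m + 1) ≤
      ε / 2 * (2 * (H : ℝ) + 1) ^ (m + 2) := by
    have h6 := mul_le_mul_of_nonneg_right h4 (show 0 ≤ (2 * (H : ℝ) + 1) ^ (m + 1) by positivity)
    refine h6.trans (le_of_eq ?_)
    ring
  have h6 : ε / 2 * (H : ℝ) ^ (m + 2) ≤ ε / 2 * (2 * (H : ℝ) + 1) ^ (m + 2) := by
    refine mul_le_mul_of_nonneg_left (pow_le_pow_left₀ (Nat.cast_nonneg H) ?_ _) (by positivity)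
    have : (0 : ℝ) ≤ H := Nat.cast_nonneg H
    linarith
  have h7 : ε * (2 * (H : ℝ) + 1) ^ (m + 1 + 1) =
      ε / 2 * (2 * (H : ℝ) + 1) ^ (m + 2) + ε / 2 * (2 * (H : ℝ) + 1) ^ (m + 2) := by ring
  rw [h7]
  linarith

end Pool.Agent.Helper32.DZ
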