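import Pool.Agent.Helper32.DZ.Props

set_option autoImplicit false

/-!
DZ-59 RatPt. Rational points give `HasE`, `HasO`; bounded denominators give integral points of a scaled polynomial.

PROOFS. `x = r/s`, `r = x.num`, `s = x.den > 0`, coprime (`Rat.isCoprime...` / `x.reduced`).
`rat_even`: `n` even: `∑ a_i r^i s^(n-i) = s^n f(x) = (y s^(n/2))^2` is an integer and the square of a rational, so the square of an
integer `c` (`Rat.sqrt`, `IsInteger..., Rat.isInt...`: an integer which is a rational square is an integer square, e.g.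
`Rat.isSquare_intCast_iff`). `s = τ w^2`.
`rat_odd`: `d` odd: `t = ∑ a_i r^i s^(d-i) = s^d f(x)` integer, `s t = (y s^((d+1)/2))^2` is an integer square (as before). `s`, `t` are
coprime: `t = a_d r^d` modulo `s`, and `s` is coprime to `a_d` and to `r`. `s > 0`, so `t ≥ 0`, `s = w^2`, `t = v^2`
(`Int.sq_of_gcd_eq_one` / `Int.sq_of_isCoprime`, signs: `s = ± w^2` with `s > 0`; if `t = -v^2` then `s t ≤ 0`, so `t = 0 = 0^2`).
`rat_den`: `x.den = δ`, `D` with `d ≤ 2 D`: `b i = k δ^(2D - i) a i`; `∑ b i r^i = k δ^(2D) f(x) = (k y δ^D)^2`, an integer square.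
-/

namespace Pool.Agent.Helper32.DZ

private theorem rp_key {n : ℕ} (N : ℕ) (hN : n ≤ N) (a : Fin (n + 1) → ℤ) (x : ℚ) :
    ((∑ i : Fin (n + 1), a i * x.num ^ (i : ℕ) * (x.den : ℤ) ^ (N - (i : ℕ)) : ℤ) : ℚ)
      = (x.den : ℚ) ^ N * ∑ i, (a i : ℚ) * x ^ (i : ℕ) := by
  push_cast
  rw [Finset.mul_sum]
  refine Finset.sum_congr rfl fun i _ => ?_
  have hi : (i : ℕ) ≤ N := le_trans (Nat.lt_succ_iff.mp i.isLt) hN
  have hd : (x.den : ℚ) ≠ 0 := by exact_mod_cast x.den_nz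
  have hx : (x.num : ℚ) = x * (x.den : ℚ) := (Rat.mul_den_eq_num x).symm
  have hs : (x.den : ℚ) ^ N = (x.den : ℚ) ^ (i : ℕ) * (x.den : ℚ) ^ (N - (i : ℕ)) := by
    rw [← pow_add, Nat.add_sub_cancel' hi]
  rw [hs, hx, mul_pow]
  ring

private theorem rp_cop (x : ℚ) : IsCoprime x.num (x.den : ℤ) := by
  rw [Int.isCoprime_iff_gcd_eq_one, Int.gcd, Int.natAbs_natCast]
  exact x.reduced

private theorem rp_sq {T : ℤ} {z : ℚ} (h : (T : ℚ) = z ^ 2) : ∃ c : ℤ, c ^ 2 = T := by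
  have h1 : IsSquare (T : ℚ) := ⟨z, by rw [h, sq]⟩
  obtain ⟨c, hc⟩ := Rat.isSquare_intCast_iff.mp h1
  exact ⟨c, by rw [hc, sq]⟩

theorem rat_even {n : ℕ} (hn : Even n) (a : Fin (n + 1) → ℤ) (x y : ℚ)
    (h : y ^ 2 = ∑ i, (a i : ℚ) * x ^ (i : ℕ)) (τ w : ℕ) (hden : x.den = τ * w ^ 2) :
    HasE (τ : ℤ) a := by
  obtain ⟨k, hk⟩ := hn
  have h1 := rp_key n le_rfl a x
  rw [← h] at h1
  have h2 : ((∑ i : Fin (n + 1), a i * x.num ^ (i : ℕ) * (x.den : ℤ) ^ (n - (i : ℕ)) : ℤ) : ℚ)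
      = ((x.den : ℚ) ^ k * y) ^ 2 := by
    rw [h1, mul_pow, ← pow_mul, hk, mul_two]
  obtain ⟨c, hc⟩ := rp_sq h2
  refine ⟨x.num, x.den, w, c, rp_cop x, by exact_mod_cast x.den_nz, ?_, hc⟩
  exact_mod_cast hden

theorem rat_odd {d : ℕ} (hd : Odd d) (a : Fin (d + 1) → ℤ) (x y : ℚ)
    (h : y ^ 2 = ∑ i, (a i : ℚ) * x ^ (i : ℕ))
    (hden : Nat.Coprime x.den (a (Fin.last d)).natAbs) : HasO a := by
  obtain ⟨k, hk⟩ := hd
  have h1 := rp_key d le_rfl a x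
  rw [← h] at h1
  set T : ℤ := ∑ i : Fin (d + 1), a i * x.num ^ (i : ℕ) * (x.den : ℤ) ^ (d - (i : ℕ)) with hT
  have hpos : (0 : ℤ) < (x.den : ℤ) := by exact_mod_cast x.den_pos
  have hsa : IsCoprime (x.den : ℤ) (a (Fin.last d)) := by
    rw [Int.isCoprime_iff_gcd_eq_one, Int.gcd, Int.natAbs_natCast]
    exact hden
  have h2 : (((x.den : ℤ) * T : ℤ) : ℚ) = ((x.den : ℚ) ^ (k + 1) * y) ^ 2 := by
    push_cast
    rw [h1, mul_pow, ← pow_mul, hk]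
    ring
  obtain ⟨c, hc⟩ := rp_sq h2
  have hTs : ∃ u : ℤ, T = a (Fin.last d) * x.num ^ d + (x.den : ℤ) * u := by
    refine ⟨∑ i : Fin d, a i.castSucc * x.num ^ (i : ℕ) * (x.den : ℤ) ^ (d - 1 - (i : ℕ)), ?_⟩
    rw [hT, Fin.sum_univ_castSucc, Finset.mul_sum, add_comm]
    congr 1
    · simp
    · refine Finset.sum_congr rfl fun i _ => ?_
      have hi : d - (i : ℕ) = (d - 1 - (i : ℕ)) + 1 := by have := i.isLt; omega
      rw [Fin.val_castSucc, hi, pow_succ]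
      ring
  have hcop : IsCoprime (x.den : ℤ) T := by
    obtain ⟨u, hu⟩ := hTs
    rw [hu]
    have h3 : IsCoprime (x.den : ℤ) (a (Fin.last d) * x.num ^ d) :=
      hsa.mul_right (rp_cop x).symm.pow_right
    exact IsCoprime.add_mul_left_right h3 u
  obtain ⟨w, hw⟩ := Int.sq_of_isCoprime hcop hc.symm
  obtain ⟨v, hv⟩ := Int.sq_of_isCoprime hcop.symm (by rw [mul_comm]; exact hc.symm)
  have hw' : (x.den : ℤ) = w ^ 2 := by
    rcases hw with hw | hw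
    · exact hw
    · nlinarith [sq_nonneg w]
  have hv' : ∃ v : ℤ, v ^ 2 = T := by
    rcases hv with hv | hv
    · exact ⟨v, hv.symm⟩
    · refine ⟨0, ?_⟩
      have h4 : T ≤ 0 := by rw [hv]; nlinarith [sq_nonneg v]
      have h5 : 0 ≤ T := by
        by_contra hlt
        push Not at hlt
        have : (x.den : ℤ) * T < 0 := mul_neg_of_pos_of_neg hpos hlt
        nlinarith [sq_nonneg c]
      have h6 : T = 0 := le_antisymm h4 h5
      rw [h6]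
      norm_num
  obtain ⟨v', hv''⟩ := hv'
  exact ⟨x.num, x.den, w, v', rp_cop x, hpos.ne', hsa, hw', hv''⟩

theorem rat_den {d : ℕ} (D : ℕ) (hD : d ≤ 2 * D) (a : Fin (d + 1) → ℤ) (k : ℤ) (x y : ℚ)
    (h : (k : ℚ) * y ^ 2 = ∑ i, (a i : ℚ) * x ^ (i : ℕ)) :
    HasPt (fun i : Fin (d + 1) => k * (x.den : ℤ) ^ (2 * D - (i : ℕ)) * a i) := by
  have h1 := rp_key (2 * D) hD a x
  rw [← h] at h1
  have h2 : ((∑ i : Fin (d + 1), k * (x.den : ℤ) ^ (2 * D - (i : ℕ)) * a i * x.num ^ (i : ℕ) : ℤ) : ℚ)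
      = ((k : ℚ) * (x.den : ℚ) ^ D * y) ^ 2 := by
    have h3 : (∑ i : Fin (d + 1), k * (x.den : ℤ) ^ (2 * D - (i : ℕ)) * a i * x.num ^ (i : ℕ) : ℤ)
        = k * ∑ i : Fin (d + 1), a i * x.num ^ (i : ℕ) * (x.den : ℤ) ^ (2 * D - (i : ℕ)) := by
      rw [Finset.mul_sum]
      exact Finset.sum_congr rfl fun i _ => by ring
    rw [h3, Int.cast_mul, h1]
    ring
  obtain ⟨c, hc⟩ := rp_sq h2
  exact ⟨x.num, c, hc⟩

end Pool.Agent.Helper32.DZ
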