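import Pool.Agent.Helper32.DZ.EvenMainS
import Pool.Agent.Helper32.DZ.OddMainS
import Pool.Agent.Helper32.DZ.NonGood
import Pool.Agent.Helper32.DZ.RatPt

set_option autoImplicit false

/-!
DZ-66 FinalS. Density zero for rational points with restricted denominators, all degrees `d ≥ 2`.

PROOF. Let `a` be in the set: `k, x, y` and (even case) `τ, w` or (odd case) `τ, s`.
EVEN `d`: `x.den = τ w^2`, `1 ≤ τ ≤ B`. The tuple `b i = k a i` satisfies `∑ b_i x^i = (k y)^2`, so `HasE τ b` (`rat_even`). The map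
`a ↦ k a` is injective (`k ≠ 0`) from the box `H` into the box `|k| H ≤ B H`.
ODD `d`: `x.den = τ s`, `s` coprime to `τ k a_d`. Let `D = d` (`d ≤ 2D`), `b i = k τ^(2D - i) a i`, `X = τ x`: `∑ b_i X^i =
k τ^(2D) f(x) = (k y τ^D)^2`, `X.den = s` (`x = r/(τ s)` in lowest terms gives `X = r/s` in lowest terms), the leading coefficient
`k τ^(2D-d) a_d` of `b` is coprime to `s`: `HasO b` (`rat_odd`). `a ↦ b` is injective (`k, τ ≠ 0`) into the box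
`B^(2d+1) H`.
For each of the finitely many `(k, τ)`, `|k| ≤ B`, `1 ≤ τ ≤ B`: with `H' = B^(2d+1) H` (both cases; `B ≥ 1`, if `B = 0` the set is empty) the
number of `b` in the box `H'` with `HasE τ b` or `HasO b` is at most `ε' (2H'+1)^(d+1)` for large `H` (`even_main_s`, `odd_main_s`
for `Good b`, and `nongood_card` for the others), and `(2H'+1)^(d+1) ≤ B^((2d+1)(d+1)) (2H+1)^(d+1)` (`B ≥ 1`:
`2 B^e H + 1 ≤ B^e (2H+1)`). Sum over the `(2B+1) B` pairs, `ε'` small.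
-/

open Polynomial Matrix

namespace Pool.Agent.Helper32.DZ

private theorem fs_core (d : ℕ) (hd : 1 ≤ d) (Q : (Fin (d + 1) → ℤ) → Prop)
    (hQ : ∀ ε : ℝ, 0 < ε → ∃ H₀ : ℕ, ∀ H : ℕ, H₀ ≤ H →
      {a : Fin (d + 1) → ℤ | (∀ i, |a i| ≤ (H : ℤ)) ∧ Good a ∧ Q a}.Finite ∧
      (({a : Fin (d + 1) → ℤ | (∀ i, |a i| ≤ (H : ℤ)) ∧ Good a ∧ Q a}.ncard : ℕ) : ℝ) ≤
        ε * (H : ℝ) ^ (d + 1))
    (E : ℕ) (hE : 1 ≤ E) (ε : ℝ) (hε : 0 < ε) :
    ∃ H₀ : ℕ, ∀ H : ℕ, H₀ ≤ H →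
      {a : Fin (d + 1) → ℤ | (∀ i, |a i| ≤ ((E * H : ℕ) : ℤ)) ∧ Q a}.Finite ∧
      (({a : Fin (d + 1) → ℤ | (∀ i, |a i| ≤ ((E * H : ℕ) : ℤ)) ∧ Q a}.ncard : ℕ) : ℝ) ≤
        ε * (2 * (H : ℝ) + 1) ^ (d + 1) := by
  have hEr : (1 : ℝ) ≤ E := by exact_mod_cast hE
  have hE0 : (0 : ℝ) < E := by linarith
  obtain ⟨H0, hH0⟩ := hQ (ε / 2 / (E : ℝ) ^ (d + 1)) (by positivity)
  obtain ⟨H1, hH1⟩ := exists_nat_ge ((d * (E : ℝ) ^ d) / ε)
  refine ⟨max H0 H1, fun H hH => ?_⟩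
  have hHH : H ≤ E * H := Nat.le_mul_of_pos_left H hE
  obtain ⟨hf1, hc1⟩ := hH0 (E * H) (le_trans (le_trans (le_max_left _ _) hH) hHH)
  obtain ⟨hf2, hc2⟩ := nongood_card d (E * H) hd
  have hsub : {a : Fin (d + 1) → ℤ | (∀ i, |a i| ≤ ((E * H : ℕ) : ℤ)) ∧ Q a} ⊆
      {a : Fin (d + 1) → ℤ | (∀ i, |a i| ≤ ((E * H : ℕ) : ℤ)) ∧ Good a ∧ Q a} ∪
      {a : Fin (d + 1) → ℤ | (∀ i, |a i| ≤ ((E * H : ℕ) : ℤ)) ∧ ¬ Good a} := by
    intro a ha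
    by_cases hg : Good a
    · exact Or.inl ⟨ha.1, hg, ha.2⟩
    · exact Or.inr ⟨ha.1, hg⟩
  refine ⟨(hf1.union hf2).subset hsub, ?_⟩
  have h1 := (Set.ncard_le_ncard hsub (hf1.union hf2)).trans (Set.ncard_union_le _ _)
  have h2 : (({a : Fin (d + 1) → ℤ | (∀ i, |a i| ≤ ((E * H : ℕ) : ℤ)) ∧ Q a}.ncard : ℕ) : ℝ) ≤
      (({a : Fin (d + 1) → ℤ | (∀ i, |a i| ≤ ((E * H : ℕ) : ℤ)) ∧ Good a ∧ Q a}.ncard : ℕ) : ℝ) +
      (({a : Fin (d + 1) → ℤ | (∀ i, |a i| ≤ ((E * H : ℕ) : ℤ)) ∧ ¬ Good a}.ncard : ℕ) : ℝ) := by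
    exact_mod_cast h1
  have hHr : (0 : ℝ) ≤ H := Nat.cast_nonneg H
  have h3 : (({a : Fin (d + 1) → ℤ | (∀ i, |a i| ≤ ((E * H : ℕ) : ℤ)) ∧ ¬ Good a}.ncard : ℕ) : ℝ) ≤
      d * (2 * ((E : ℝ) * H) + 1) ^ d := by exact_mod_cast hc2
  have h4 : (2 * ((E : ℝ) * H) + 1) ^ d ≤ (E * (2 * (H : ℝ) + 1)) ^ d := by
    refine pow_le_pow_left₀ (by positivity) ?_ _
    nlinarith
  have h5 : d * (E : ℝ) ^ d ≤ ε / 2 * (2 * (H : ℝ) + 1) := by
    have h5 : (H1 : ℝ) ≤ H := by exact_mod_cast le_trans (le_max_right _ _) hH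
    have h6 := (div_le_iff₀ hε).1 (hH1.trans h5)
    linarith
  have h6 : d * (2 * ((E : ℝ) * H) + 1) ^ d ≤ ε / 2 * (2 * (H : ℝ) + 1) ^ (d + 1) := by
    calc d * (2 * ((E : ℝ) * H) + 1) ^ d ≤ d * (E * (2 * (H : ℝ) + 1)) ^ d :=
          mul_le_mul_of_nonneg_left h4 (Nat.cast_nonneg d)
      _ = (d * (E : ℝ) ^ d) * (2 * (H : ℝ) + 1) ^ d := by rw [mul_pow]; ring
      _ ≤ (ε / 2 * (2 * (H : ℝ) + 1)) * (2 * (H : ℝ) + 1) ^ d :=
          mul_le_mul_of_nonneg_right h5 (by positivity)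
      _ = _ := by ring
  have h7 : ε / 2 / (E : ℝ) ^ (d + 1) * (((E * H : ℕ) : ℝ)) ^ (d + 1) ≤
      ε / 2 * (2 * (H : ℝ) + 1) ^ (d + 1) := by
    have h8 : ε / 2 / (E : ℝ) ^ (d + 1) * (((E * H : ℕ) : ℝ)) ^ (d + 1) =
        ε / 2 * (H : ℝ) ^ (d + 1) := by
      push_cast
      rw [mul_pow]
      field_simp
    rw [h8]
    exact mul_le_mul_of_nonneg_left (pow_le_pow_left₀ hHr (by linarith) _) (by positivity)
  calc _ ≤ _ := h2
    _ ≤ ε / 2 * (2 * (H : ℝ) + 1) ^ (d + 1) + ε / 2 * (2 * (H : ℝ) + 1) ^ (d + 1) :=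
        add_le_add (hc1.trans h7) (h3.trans h6)
    _ = _ := by ring

private theorem fs_E (d : ℕ) (hd : 2 ≤ d) (he : Even d) (τ : ℤ) (hτ : τ ≠ 0) (E : ℕ) (hE : 1 ≤ E)
    (ε : ℝ) (hε : 0 < ε) :
    ∃ H₀ : ℕ, ∀ H : ℕ, H₀ ≤ H →
      {a : Fin (d + 1) → ℤ | (∀ i, |a i| ≤ ((E * H : ℕ) : ℤ)) ∧ HasE τ a}.Finite ∧
      (({a : Fin (d + 1) → ℤ | (∀ i, |a i| ≤ ((E * H : ℕ) : ℤ)) ∧ HasE τ a}.ncard : ℕ) : ℝ) ≤
        ε * (2 * (H : ℝ) + 1) ^ (d + 1) := by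
  obtain ⟨m, rfl⟩ : ∃ m, d = m + 1 := ⟨d - 1, by omega⟩
  have hm : Odd m := by
    rcases Nat.even_or_odd m with h | h
    · obtain ⟨r, hr⟩ := h
      obtain ⟨s, hs⟩ := he
      omega
    · exact h
  exact fs_core (m + 1) (by omega) (HasE τ) (even_main_s m hm τ) E hE ε hε

private theorem fs_O (d : ℕ) (hd : 2 ≤ d) (ho : Odd d) (E : ℕ) (hE : 1 ≤ E)
    (ε : ℝ) (hε : 0 < ε) :
    ∃ H₀ : ℕ, ∀ H : ℕ, H₀ ≤ H →
      {a : Fin (d + 1) → ℤ | (∀ i, |a i| ≤ ((E * H : ℕ) : ℤ)) ∧ HasO a}.Finite ∧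
      (({a : Fin (d + 1) → ℤ | (∀ i, |a i| ≤ ((E * H : ℕ) : ℤ)) ∧ HasO a}.ncard : ℕ) : ℝ) ≤
        ε * (2 * (H : ℝ) + 1) ^ (d + 1) := by
  obtain ⟨m, rfl⟩ : ∃ m, d = m + 1 := ⟨d - 1, by omega⟩
  have hm : Even m := by
    rcases Nat.even_or_odd m with h | h
    · exact h
    · obtain ⟨r, hr⟩ := h
      obtain ⟨s, hs⟩ := ho
      omega
  have h2 : 2 ≤ m := by
    obtain ⟨r, hr⟩ := hm
    omega
  exact fs_core (m + 1) (by omega) HasO (odd_main_s m hm h2) E hE ε hε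

/-- the set of the statement for one pair `(k, τ)` -/
private def fsS (d B : ℕ) (p : ℤ × ℕ) (H : ℕ) : Set (Fin (d + 1) → ℤ) :=
  {a | (∀ i, |a i| ≤ (H : ℤ)) ∧ ∃ x y : ℚ, p.1 ≠ 0 ∧ |p.1| ≤ (B : ℤ) ∧
    (p.1 : ℚ) * y ^ 2 = ∑ i, (a i : ℚ) * x ^ (i : ℕ) ∧
    ((Even d ∧ ∃ w : ℕ, x.den = p.2 * w ^ 2) ∨
      (Odd d ∧ ∃ s : ℕ, x.den = p.2 * s ∧
        Nat.Coprime s (p.2 * (p.1 * a (Fin.last d)).natAbs)))}

private theorem fs_pair_even (d B : ℕ) (hd : 2 ≤ d) (he : Even d) (k : ℤ) (τ : ℕ) (hk : |k| ≤ (B : ℤ))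
    (hτ : 1 ≤ τ) (hτB : τ ≤ B) (ε : ℝ) (hε : 0 < ε) :
    ∃ H₀ : ℕ, ∀ H : ℕ, H₀ ≤ H → (((fsS d B (k, τ) H).ncard : ℕ) : ℝ) ≤ ε * (2 * (H : ℝ) + 1) ^ (d + 1) := by
  obtain ⟨H0, hH0⟩ := fs_E d hd he (τ : ℤ) (by exact_mod_cast (by omega : τ ≠ 0)) B (by omega) ε hε
  refine ⟨H0, fun H hH => ?_⟩
  obtain ⟨hf, hc⟩ := hH0 H hH
  by_cases hk0 : k = 0
  · have h1 : fsS d B (k, τ) H = ∅ := by
      ext a
      simp only [fsS, Set.mem_ofPred_eq, Set.mem_empty_iff_false, iff_false]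
      rintro ⟨_, x, y, h, _⟩
      exact h hk0
    rw [h1]
    simp only [Set.ncard_empty, Nat.cast_zero]
    positivity
  refine le_trans ?_ hc
  have h2 := Set.ncard_le_ncard_of_injOn (s := fsS d B (k, τ) H)
    (t := {a : Fin (d + 1) → ℤ | (∀ i, |a i| ≤ ((B * H : ℕ) : ℤ)) ∧ HasE (τ : ℤ) a})
    (fun a i => k * a i) (by
      intro a ha
      obtain ⟨h1, x, y, _, _, h4, h5⟩ := ha
      refine ⟨fun i => ?_, ?_⟩
      · show |k * a i| ≤ _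
        rw [abs_mul]
        push_cast
        exact mul_le_mul hk (h1 i) (abs_nonneg _) (by positivity)
      · rcases h5 with ⟨_, w, hw⟩ | ⟨ho, _⟩
        · refine rat_even he (fun i => k * a i) x (k * y) ?_ τ w hw
          have h6 : ((k : ℚ) * y) ^ 2 = k * ((k : ℚ) * y ^ 2) := by ring
          rw [h6, h4, Finset.mul_sum]
          refine Finset.sum_congr rfl fun i _ => ?_
          push_cast
          ring
        · exact absurd he (Nat.not_even_iff_odd.2 ho)) (by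
      intro a _ b _ hab
      funext i
      have h6 : k * a i = k * b i := congrFun hab i
      exact mul_left_cancel₀ hk0 h6) hf
  exact_mod_cast h2

private theorem fs_pair_odd (d B : ℕ) (hd : 2 ≤ d) (ho : Odd d) (k : ℤ) (τ : ℕ) (hk : |k| ≤ (B : ℤ))
    (hτ : 1 ≤ τ) (hτB : τ ≤ B) (ε : ℝ) (hε : 0 < ε) :
    ∃ H₀ : ℕ, ∀ H : ℕ, H₀ ≤ H → (((fsS d B (k, τ) H).ncard : ℕ) : ℝ) ≤ ε * (2 * (H : ℝ) + 1) ^ (d + 1) := by
  have hB : 1 ≤ B := by omega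
  obtain ⟨H0, hH0⟩ := fs_O d hd ho (B ^ (2 * d + 1)) (Nat.one_le_pow _ _ hB) ε hε
  refine ⟨H0, fun H hH => ?_⟩
  obtain ⟨hf, hc⟩ := hH0 H hH
  by_cases hk0 : k = 0
  · have h1 : fsS d B (k, τ) H = ∅ := by
      ext a
      simp only [fsS, Set.mem_ofPred_eq, Set.mem_empty_iff_false, iff_false]
      rintro ⟨_, x, y, h, _⟩
      exact h hk0
    rw [h1]
    simp only [Set.ncard_empty, Nat.cast_zero]
    positivity
  refine le_trans ?_ hc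
  have hτ0 : (τ : ℤ) ≠ 0 := by exact_mod_cast (by omega : τ ≠ 0)
  have hτq : (τ : ℚ) ≠ 0 := by exact_mod_cast (by omega : τ ≠ 0)
  have h2 := Set.ncard_le_ncard_of_injOn (s := fsS d B (k, τ) H)
    (t := {a : Fin (d + 1) → ℤ | (∀ i, |a i| ≤ ((B ^ (2 * d + 1) * H : ℕ) : ℤ)) ∧ HasO a})
    (fun a i => k * (τ : ℤ) ^ (2 * d - (i : ℕ)) * a i) (by
      intro a ha
      obtain ⟨h1, x, y, _, _, h4, h5⟩ := ha
      refine ⟨fun i => ?_, ?_⟩
      · show |k * (τ : ℤ) ^ (2 * d - (i : ℕ)) * a i| ≤ _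
        rw [abs_mul, abs_mul, abs_pow, Nat.abs_cast]
        push_cast
        refine mul_le_mul ?_ (h1 i) (abs_nonneg _) (by positivity)
        rw [pow_succ']
        refine mul_le_mul hk ?_ (by positivity) (by positivity)
        have h6 : τ ^ (2 * d - (i : ℕ)) ≤ B ^ (2 * d) :=
          (Nat.pow_le_pow_left hτB _).trans (Nat.pow_le_pow_right (by omega) (by omega))
        exact_mod_cast h6
      · rcases h5 with ⟨he, _⟩ | ⟨_, s, hs, hcop⟩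
        · exact absurd he (Nat.not_even_iff_odd.2 ho)
        · have hs0 : 0 < s := by
            have := x.den_pos
            rw [hs] at this
            exact Nat.pos_of_mul_pos_left this
          have hX : (τ : ℚ) * x = (x.num : ℚ) / ((s : ℤ) : ℚ) := by
            have h7 : x * (x.den : ℚ) = x.num := Rat.mul_den_eq_num x
            have h8 : (x.den : ℚ) = τ * s := by exact_mod_cast hs
            have hsq : (((s : ℤ) : ℚ)) ≠ 0 := by exact_mod_cast hs0.ne'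
            rw [eq_div_iff hsq, ← h7, h8]
            push_cast
            ring
          have hcx : Nat.Coprime x.num.natAbs s := by
            have := x.reduced
            rw [hs] at this
            exact Nat.Coprime.coprime_mul_left_right this
          have hden : ((τ : ℚ) * x).den = s := by
            have h8 := Rat.den_div_eq_of_coprime (a := x.num) (b := (s : ℤ)) (by exact_mod_cast hs0)
              (by rw [Int.natAbs_natCast]; exact hcx)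
            rw [← hX] at h8
            exact_mod_cast h8
          refine rat_odd ho (fun i => k * (τ : ℤ) ^ (2 * d - (i : ℕ)) * a i) (τ * x) (k * y * τ ^ d) ?_ ?_
          · have h6 : ((k : ℚ) * y * τ ^ d) ^ 2 = k * τ ^ (2 * d) * ((k : ℚ) * y ^ 2) := by ring
            rw [h6, h4, Finset.mul_sum]
            refine Finset.sum_congr rfl fun i _ => ?_
            push_cast
            have h9 : (τ : ℚ) ^ (2 * d) = τ ^ (2 * d - (i : ℕ)) * τ ^ (i : ℕ) := by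
              rw [← pow_add]
              congr 1
              have := i.2
              omega
            rw [h9, mul_pow]
            ring
          · rw [hden]
            show Nat.Coprime s (k * (τ : ℤ) ^ (2 * d - ((Fin.last d : Fin (d + 1)) : ℕ)) * a (Fin.last d)).natAbs
            have h10 : (k * (τ : ℤ) ^ (2 * d - ((Fin.last d : Fin (d + 1)) : ℕ)) * a (Fin.last d)).natAbs =
                τ ^ d * (k * a (Fin.last d)).natAbs := by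
              have h11 : 2 * d - ((Fin.last d : Fin (d + 1)) : ℕ) = d := by
                rw [Fin.val_last]
                omega
              rw [h11, Int.natAbs_mul, Int.natAbs_mul, Int.natAbs_mul, Int.natAbs_pow, Int.natAbs_natCast]
              ring
            rw [h10]
            exact Nat.Coprime.mul_right ((Nat.Coprime.coprime_mul_right_right hcop).pow_right d)
              (Nat.Coprime.coprime_mul_left_right hcop)) (by
      intro a _ b _ hab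
      funext i
      have h6 : k * (τ : ℤ) ^ (2 * d - (i : ℕ)) * a i = k * (τ : ℤ) ^ (2 * d - (i : ℕ)) * b i :=
        congrFun hab i
      exact mul_left_cancel₀ (mul_ne_zero hk0 (pow_ne_zero _ hτ0)) h6) hf
  exact_mod_cast h2

theorem density_zero_s (d : ℕ) (hd : 2 ≤ d) (B : ℕ) (ε : ℝ) (hε : 0 < ε) :
    ∃ H₀ : ℕ, ∀ H : ℕ, H₀ ≤ H →
    (({a : Fin (d + 1) → ℤ | (∀ i, |a i| ≤ (H : ℤ)) ∧
      ∃ (k : ℤ) (x y : ℚ), k ≠ 0 ∧ |k| ≤ (B : ℤ) ∧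
        (k : ℚ) * y ^ 2 = ∑ i, (a i : ℚ) * x ^ (i : ℕ) ∧
        ((Even d ∧ ∃ τ w : ℕ, 1 ≤ τ ∧ τ ≤ B ∧ x.den = τ * w ^ 2) ∨
          (Odd d ∧ ∃ τ s : ℕ, 1 ≤ τ ∧ τ ≤ B ∧ x.den = τ * s ∧
            Nat.Coprime s (τ * (k * a (Fin.last d)).natAbs)))}.ncard : ℕ) : ℝ) ≤
      ε * (2 * (H : ℝ) + 1) ^ (d + 1) := by
  classical
  obtain ⟨P, hP⟩ : ∃ P : Finset (ℤ × ℕ), P = Finset.Icc (-(B : ℤ)) B ×ˢ Finset.Icc 1 B := ⟨_, rfl⟩
  have hc0 : (0 : ℝ) < P.card + 1 := by positivity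
  have key : ∀ p : ℤ × ℕ, ∃ H₀ : ℕ, p ∈ P → ∀ H : ℕ, H₀ ≤ H →
      (((fsS d B p H).ncard : ℕ) : ℝ) ≤ ε / (P.card + 1) * (2 * (H : ℝ) + 1) ^ (d + 1) := by
    rintro ⟨k, τ⟩
    by_cases hp : (k, τ) ∈ P
    · have hp' := hp
      rw [hP, Finset.mem_product, Finset.mem_Icc, Finset.mem_Icc] at hp'
      have hk : |k| ≤ (B : ℤ) := abs_le.2 hp'.1
      rcases Nat.even_or_odd d with h | h
      · obtain ⟨H0, hH0⟩ := fs_pair_even d B hd h k τ hk hp'.2.1 hp'.2.2 (ε / (P.card + 1)) (by positivity)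
        exact ⟨H0, fun _ => hH0⟩
      · obtain ⟨H0, hH0⟩ := fs_pair_odd d B hd h k τ hk hp'.2.1 hp'.2.2 (ε / (P.card + 1)) (by positivity)
        exact ⟨H0, fun _ => hH0⟩
    · exact ⟨0, fun h => absurd h hp⟩
  choose H0 hH0 using key
  refine ⟨P.sup H0, fun H hH => ?_⟩
  have hfin : (⋃ p ∈ P, fsS d B p H).Finite := by
    have hbox : {a : Fin (d + 1) → ℤ | ∀ i, |a i| ≤ (H : ℤ)}.Finite := by
      refine (Set.Finite.pi (t := fun _ : Fin (d + 1) => Set.Icc (-(H : ℤ)) H)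
        fun _ => Set.finite_Icc _ _).subset ?_
      intro a ha i _
      exact abs_le.1 (ha i)
    refine hbox.subset ?_
    intro a ha
    simp only [Set.mem_iUnion] at ha
    obtain ⟨p, _, hp⟩ := ha
    exact hp.1
  have hsub : {a : Fin (d + 1) → ℤ | (∀ i, |a i| ≤ (H : ℤ)) ∧
      ∃ (k : ℤ) (x y : ℚ), k ≠ 0 ∧ |k| ≤ (B : ℤ) ∧
        (k : ℚ) * y ^ 2 = ∑ i, (a i : ℚ) * x ^ (i : ℕ) ∧
        ((Even d ∧ ∃ τ w : ℕ, 1 ≤ τ ∧ τ ≤ B ∧ x.den = τ * w ^ 2) ∨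
          (Odd d ∧ ∃ τ s : ℕ, 1 ≤ τ ∧ τ ≤ B ∧ x.den = τ * s ∧
            Nat.Coprime s (τ * (k * a (Fin.last d)).natAbs)))} ⊆ ⋃ p ∈ P, fsS d B p H := by
    rintro a ⟨h1, k, x, y, hk0, hk, h4, h5⟩
    simp only [Set.mem_iUnion]
    rcases h5 with ⟨he, τ, w, ht1, ht2, h6⟩ | ⟨ho, τ, s, ht1, ht2, h6, h7⟩
    · refine ⟨(k, τ), ?_, h1, x, y, hk0, hk, h4, Or.inl ⟨he, w, h6⟩⟩
      rw [hP, Finset.mem_product, Finset.mem_Icc, Finset.mem_Icc]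
      exact ⟨abs_le.1 hk, ht1, ht2⟩
    · refine ⟨(k, τ), ?_, h1, x, y, hk0, hk, h4, Or.inr ⟨ho, s, h6, h7⟩⟩
      rw [hP, Finset.mem_product, Finset.mem_Icc, Finset.mem_Icc]
      exact ⟨abs_le.1 hk, ht1, ht2⟩
  have h1 := (Set.ncard_le_ncard hsub hfin).trans (P.set_ncard_biUnion_le fun p => fsS d B p H)
  have h2 : (((∑ p ∈ P, (fsS d B p H).ncard) : ℕ) : ℝ) ≤
      P.card * (ε / (P.card + 1) * (2 * (H : ℝ) + 1) ^ (d + 1)) := by
    push_cast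
    rw [← nsmul_eq_mul]
    exact Finset.sum_le_card_nsmul _ _ _ fun p hp =>
      hH0 p hp H ((Finset.le_sup (f := H0) hp).trans hH)
  have h3 : (P.card : ℝ) * (ε / (P.card + 1) * (2 * (H : ℝ) + 1) ^ (d + 1)) ≤
      ε * (2 * (H : ℝ) + 1) ^ (d + 1) := by
    rw [← mul_assoc]
    refine mul_le_mul_of_nonneg_right ?_ (by positivity)
    rw [← mul_div_assoc, div_le_iff₀ hc0]
    nlinarith
  exact le_trans (by exact_mod_cast h1) (h2.trans h3)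

end Pool.Agent.Helper32.DZ
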