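import Pool.Agent.Helper32.DZ.RedCount

set_option autoImplicit false

/-!
Project DZ, part 4. Total count of `HasU` in odd degree, in terms of the count of `HasO` and of the integers without a large squarefree
divisor.
-/

namespace Pool.Agent.Helper32.DZ

theorem sq_dvd_bound (α : ℤ) (hα : α ≠ 0) (H t q : ℕ) (hαH : |α| ≤ (H : ℤ)) (hq : Squarefree q)
    (hqα : (q : ℤ) ∣ α) (hH : (H : ℝ) ≤ 2 ^ t * q) (j : ℕ) (hj : (j : ℤ) ^ 2 ∣ α) : j ≤ 2 ^ t := by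
  obtain ⟨m, hm⟩ := hqα
  have hq0 : 0 < q := Nat.pos_of_ne_zero hq.ne_zero
  have hm0 : m ≠ 0 := by
    rintro rfl
    rw [mul_zero] at hm
    exact hα hm
  have hj0 : j ≠ 0 := by
    rintro rfl
    rw [Nat.cast_zero, zero_pow two_ne_zero, zero_dvd_iff] at hj
    exact hα hj
  have hmle : m.natAbs ≤ 2 ^ t := by
    have h1 : (H : ℤ) ≤ 2 ^ t * q := by exact_mod_cast hH
    have h2 : (q : ℤ) * |m| ≤ 2 ^ t * q := by
      rw [hm, abs_mul, Nat.abs_cast] at hαH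
      exact hαH.trans h1
    have h3 : |m| ≤ 2 ^ t := by
      have hqZ : (0 : ℤ) < q := by exact_mod_cast hq0
      rw [mul_comm] at h2
      exact le_of_mul_le_mul_right h2 hqZ
    rw [← Int.natCast_natAbs] at h3
    exact_mod_cast h3
  have hdiv : j ^ 2 ∣ q * m.natAbs := by
    have h1 : ((j ^ 2 : ℕ) : ℤ) ∣ α := by push_cast; exact hj
    rw [hm] at h1
    have h2 := Int.natAbs_dvd_natAbs.2 h1
    rwa [Int.natAbs_mul, Int.natAbs_natCast, Int.natAbs_natCast] at h2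
  set g := Nat.gcd j q with hg
  have hg0 : 0 < g := Nat.gcd_pos_of_pos_right _ hq0
  obtain ⟨j1, hj1⟩ : g ∣ j := Nat.gcd_dvd_left _ _
  obtain ⟨q1, hq1⟩ : g ∣ q := Nat.gcd_dvd_right _ _
  have hcop : Nat.Coprime j1 q1 := by
    have h1 := Nat.coprime_div_gcd_div_gcd (m := j) (n := q) hg0
    rw [← hg] at h1
    have h2 : j / g = j1 := by rw [hj1]; exact Nat.mul_div_cancel_left _ hg0
    have h3 : q / g = q1 := by rw [hq1]; exact Nat.mul_div_cancel_left _ hg0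
    rwa [h2, h3] at h1
  have hgq : Nat.Coprime g q1 := by
    rw [hq1] at hq
    exact Nat.coprime_of_squarefree_mul hq
  have h1 : g * j1 ^ 2 ∣ q1 * m.natAbs := by
    obtain ⟨c, hc⟩ := hdiv
    refine ⟨c, ?_⟩
    have h2 : g * (q1 * m.natAbs) = g * (g * j1 ^ 2 * c) := by
      calc g * (q1 * m.natAbs) = (g * q1) * m.natAbs := by ring
        _ = q * m.natAbs := by rw [← hq1]
        _ = j ^ 2 * c := hc
        _ = (g * j1) ^ 2 * c := by rw [← hj1]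
        _ = g * (g * j1 ^ 2 * c) := by ring
    exact Nat.eq_of_mul_eq_mul_left hg0 h2
  have h2 : g * j1 ^ 2 ∣ m.natAbs := by
    have h3 : Nat.Coprime (g * j1 ^ 2) q1 :=
      Nat.Coprime.mul_left hgq (Nat.Coprime.pow_left 2 hcop)
    exact h3.dvd_of_dvd_mul_left h1
  have h3 : j ∣ m.natAbs := by
    refine dvd_trans ?_ h2
    rw [hj1]
    exact ⟨j1, by ring⟩
  exact (Nat.le_of_dvd (Int.natAbs_pos.2 hm0) h3).trans hmle

theorem last_card (n H : ℕ) (L : Set ℤ) (hL : L.Finite) :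
    {a : Fin (n + 1) → ℤ | (∀ i, |a i| ≤ (H : ℤ)) ∧ a (Fin.last n) ∈ L}.ncard ≤
      L.ncard * (2 * H + 1) ^ n := by
  classical
  have h1 : (hL.toFinset ×ˢ (Fintype.piFinset fun _ : Fin n => Finset.Icc (-(H : ℤ)) H)).card =
      L.ncard * (2 * H + 1) ^ n := by
    rw [Finset.card_product, Fintype.card_piFinset, Finset.prod_const, Finset.card_univ,
      Fintype.card_fin, Int.card_Icc, Set.ncard_eq_toFinset_card L hL]
    congr 2
    omega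
  rw [← h1, ← Set.ncard_coe_finset]
  refine Set.ncard_le_ncard_of_injOn (fun a => (a (Fin.last n), Fin.init a)) ?_ ?_
    (Finset.finite_toSet _)
  · rintro a ⟨ha1, ha2⟩
    rw [Finset.mem_coe, Finset.mem_product]
    refine ⟨hL.mem_toFinset.2 ha2, ?_⟩
    rw [Fintype.mem_piFinset]
    intro i
    rw [Finset.mem_Icc]
    exact abs_le.1 (ha1 i.castSucc)
  · intro a _ b _ hab
    have h2 : a (Fin.last n) = b (Fin.last n) := congrArg Prod.fst hab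
    have h3 : Fin.init a = Fin.init b := congrArg Prod.snd hab
    rw [← Fin.snoc_init_self a, ← Fin.snoc_init_self b, h2, h3]

/-- odd degree, total -/
theorem red_odd_total (d : ℕ) (hd : Odd d) (B t H : ℕ) (hB : 1 ≤ B) :
    {a : Fin (d + 1) → ℤ | (∀ i, |a i| ≤ (H : ℤ)) ∧ HasU B a}.ncard ≤
    (1 + {α : ℤ | α ≠ 0 ∧ |α| ≤ (H : ℤ) ∧
      ¬ ∃ q : ℕ, Squarefree q ∧ (q : ℤ) ∣ α ∧ (H : ℝ) ≤ 2 ^ t * q}.ncard) * (2 * H + 1) ^ d +
    (2 * B + 1) * B * (B ^ 2 * (2 ^ t) ^ 2) *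
      {b : Fin (d + 1) → ℤ | (∀ i, |b i| ≤ ((B ^ (3 * d + 1) * (2 ^ t) ^ (2 * d) * H : ℕ) : ℤ)) ∧
        HasO b}.ncard := by
  classical
  set L0 : Set ℤ := {α : ℤ | α ≠ 0 ∧ |α| ≤ (H : ℤ) ∧
      ¬ ∃ q : ℕ, Squarefree q ∧ (q : ℤ) ∣ α ∧ (H : ℝ) ≤ 2 ^ t * q} with hL0
  have hL0f : L0.Finite := by
    refine (Finset.finite_toSet (Finset.Icc (-(H : ℤ)) H)).subset ?_
    intro α hα
    rw [Finset.mem_coe, Finset.mem_Icc]
    exact abs_le.1 hα.2.1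
  set L : Set ℤ := insert 0 L0 with hL
  have hLf : L.Finite := hL0f.insert 0
  have hLc : L.ncard ≤ 1 + L0.ncard := by
    rw [hL, add_comm]
    exact Set.ncard_insert_le 0 L0
  set R : ℕ := 2 ^ t with hR
  have hR1 : 1 ≤ R := Nat.one_le_two_pow
  have hsub : {a : Fin (d + 1) → ℤ | (∀ i, |a i| ≤ (H : ℤ)) ∧ HasU B a} ⊆
      {a : Fin (d + 1) → ℤ | (∀ i, |a i| ≤ (H : ℤ)) ∧ a (Fin.last d) ∈ L} ∪
      {a : Fin (d + 1) → ℤ | (∀ i, |a i| ≤ (H : ℤ)) ∧ a (Fin.last d) ≠ 0 ∧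
        (∀ j : ℕ, (j : ℤ) ^ 2 ∣ a (Fin.last d) → j ≤ R) ∧ HasU B a} := by
    rintro a ⟨ha1, ha2⟩
    by_cases hal : a (Fin.last d) ∈ L
    · exact Or.inl ⟨ha1, hal⟩
    · right
      have h0 : a (Fin.last d) ≠ 0 := fun h => hal (h ▸ Set.mem_insert 0 L0)
      refine ⟨ha1, h0, ?_, ha2⟩
      have h1 : ∃ q : ℕ, Squarefree q ∧ (q : ℤ) ∣ a (Fin.last d) ∧ (H : ℝ) ≤ 2 ^ t * q := by
        by_contra hne
        exact hal (Set.mem_insert_of_mem 0 ⟨h0, ha1 _, hne⟩)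
      obtain ⟨q, hq1, hq2, hq3⟩ := h1
      intro j hj
      exact sq_dvd_bound _ h0 H t q (ha1 _) hq1 hq2 hq3 j hj
  have hfin1 : {a : Fin (d + 1) → ℤ | (∀ i, |a i| ≤ (H : ℤ)) ∧ a (Fin.last d) ∈ L}.Finite :=
    (box_fin (d + 1) H).subset fun a ha => ha.1
  have hfin2 : {a : Fin (d + 1) → ℤ | (∀ i, |a i| ≤ (H : ℤ)) ∧ a (Fin.last d) ≠ 0 ∧
        (∀ j : ℕ, (j : ℤ) ^ 2 ∣ a (Fin.last d) → j ≤ R) ∧ HasU B a}.Finite :=
    (box_fin (d + 1) H).subset fun a ha => ha.1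
  refine (Set.ncard_le_ncard hsub (hfin1.union hfin2)).trans ((Set.ncard_union_le _ _).trans ?_)
  refine Nat.add_le_add ?_ (red_odd d hd B R H hB hR1)
  exact (last_card d H L hLf).trans (Nat.mul_le_mul_right _ hLc)

end Pool.Agent.Helper32.DZ
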