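import Pool.Agent.Helper32.DZ.EvenMainS
import Pool.Agent.Helper32.DZ.OddMainS
import Pool.Agent.Helper32.DZ.NonGood
import Pool.Agent.Helper32.DZ.RedTotal

set_option autoImplicit false

/-!
Project DZ, part 4. Unified form: for `d ≥ 2` almost no `f` has a rational `x` with denominator `τ w^2`, `1 ≤ τ ≤ B`, and `f(x) = k y^2`,
`1 ≤ |k| ≤ B`. The first three lemmas are helper13's (FinalS.lean).
-/

open Polynomial Matrix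

namespace Pool.Agent.Helper32.DZ

theorem u_core (d : ℕ) (hd : 1 ≤ d) (Q : (Fin (d + 1) → ℤ) → Prop)
    (hQ : ∀ ε : ℝ, 0 < ε → ∃ H₀ : ℕ, ∀ H : ℕ, H₀ ≤ H →
      {a : Fin (d + 1) → ℤ | (∀ i, |a i| ≤ (H : ℤ)) ∧ Good a ∧ Q a}.Finite ∧
      (({a : Fin (d + 1) → ℤ | (∀ i, |a i| ≤ (H : ℤ)) ∧ Good a ∧ Q a}.ncard : ℕ) : ℝ) ≤
        ε * (H : ℝ) ^ (d + 1))
    (E : ℕ) (hE : 1 ≤ E) (ε : ℝ) (hε : 0 < ε) :
    ∃ H₀ : ℕ, ∀ H : ℕ, H₀ ≤ H →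
      {a : Fin (d + 1) → ℤ | (∀ i, |a i| ≤ ((E * H : ℕ) : ℤ)) ∧ Q a}.Finite ∧
      (({a : Fin (d + 1) → ℤ | (∀ i, |a i| ≤ ((E * H : ℕ) : ℤ)) ∧ Q a}.ncard : ℕ) : ℝ) ≤
        ε * (2 * (H : ℝ) + 1) ^ (d + 1) := by
  have hEr : (1 : ℝ) ≤ E := by exact_mod_cast hE
  have hE0 : (0 : ℝ) < E := by linarith
  obtain ⟨H0, hH0⟩ := hQ (ε / 2 / (E : ℝ) ^ (d + 1)) (by positivity)
  obtain ⟨H1, hH1⟩ := exists_nat_ge ((d * (E : ℝ) ^ d) / ε)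
  refine ⟨max H0 H1, fun H hH => ?_⟩
  have hHH : H ≤ E * H := Nat.le_mul_of_pos_left H hE
  obtain ⟨hf1, hc1⟩ := hH0 (E * H) (le_trans (le_trans (le_max_left _ _) hH) hHH)
  obtain ⟨hf2, hc2⟩ := nongood_card d (E * H) hd
  have hsub : {a : Fin (d + 1) → ℤ | (∀ i, |a i| ≤ ((E * H : ℕ) : ℤ)) ∧ Q a} ⊆
      {a : Fin (d + 1) → ℤ | (∀ i, |a i| ≤ ((E * H : ℕ) : ℤ)) ∧ Good a ∧ Q a} ∪
      {a : Fin (d + 1) → ℤ | (∀ i, |a i| ≤ ((E * H : ℕ) : ℤ)) ∧ ¬ Good a} := by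
    intro a ha
    by_cases hg : Good a
    · exact Or.inl ⟨ha.1, hg, ha.2⟩
    · exact Or.inr ⟨ha.1, hg⟩
  refine ⟨(hf1.union hf2).subset hsub, ?_⟩
  have h1 := (Set.ncard_le_ncard hsub (hf1.union hf2)).trans (Set.ncard_union_le _ _)
  have h2 : (({a : Fin (d + 1) → ℤ | (∀ i, |a i| ≤ ((E * H : ℕ) : ℤ)) ∧ Q a}.ncard : ℕ) : ℝ) ≤
      (({a : Fin (d + 1) → ℤ | (∀ i, |a i| ≤ ((E * H : ℕ) : ℤ)) ∧ Good a ∧ Q a}.ncard : ℕ) : ℝ) +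
      (({a : Fin (d + 1) → ℤ | (∀ i, |a i| ≤ ((E * H : ℕ) : ℤ)) ∧ ¬ Good a}.ncard : ℕ) : ℝ) := by
    exact_mod_cast h1
  have hHr : (0 : ℝ) ≤ H := Nat.cast_nonneg H
  have h3 : (({a : Fin (d + 1) → ℤ | (∀ i, |a i| ≤ ((E * H : ℕ) : ℤ)) ∧ ¬ Good a}.ncard : ℕ) : ℝ) ≤
      d * (2 * ((E : ℝ) * H) + 1) ^ d := by exact_mod_cast hc2
  have h4 : (2 * ((E : ℝ) * H) + 1) ^ d ≤ (E * (2 * (H : ℝ) + 1)) ^ d := by
    refine pow_le_pow_left₀ (by positivity) ?_ _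
    nlinarith
  have h5 : d * (E : ℝ) ^ d ≤ ε / 2 * (2 * (H : ℝ) + 1) := by
    have h5 : (H1 : ℝ) ≤ H := by exact_mod_cast le_trans (le_max_right _ _) hH
    have h6 := (div_le_iff₀ hε).1 (hH1.trans h5)
    linarith
  have h6 : d * (2 * ((E : ℝ) * H) + 1) ^ d ≤ ε / 2 * (2 * (H : ℝ) + 1) ^ (d + 1) := by
    calc d * (2 * ((E : ℝ) * H) + 1) ^ d ≤ d * (E * (2 * (H : ℝ) + 1)) ^ d :=
          mul_le_mul_of_nonneg_left h4 (Nat.cast_nonneg d)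
      _ = (d * (E : ℝ) ^ d) * (2 * (H : ℝ) + 1) ^ d := by rw [mul_pow]; ring
      _ ≤ (ε / 2 * (2 * (H : ℝ) + 1)) * (2 * (H : ℝ) + 1) ^ d :=
          mul_le_mul_of_nonneg_right h5 (by positivity)
      _ = _ := by ring
  have h7 : ε / 2 / (E : ℝ) ^ (d + 1) * (((E * H : ℕ) : ℝ)) ^ (d + 1) ≤
      ε / 2 * (2 * (H : ℝ) + 1) ^ (d + 1) := by
    have h8 : ε / 2 / (E : ℝ) ^ (d + 1) * (((E * H : ℕ) : ℝ)) ^ (d + 1) =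
        ε / 2 * (H : ℝ) ^ (d + 1) := by
      push_cast
      rw [mul_pow]
      field_simp
    rw [h8]
    exact mul_le_mul_of_nonneg_left (pow_le_pow_left₀ hHr (by linarith) _) (by positivity)
  calc _ ≤ _ := h2
    _ ≤ ε / 2 * (2 * (H : ℝ) + 1) ^ (d + 1) + ε / 2 * (2 * (H : ℝ) + 1) ^ (d + 1) :=
        add_le_add (hc1.trans h7) (h3.trans h6)
    _ = _ := by ring

theorem u_E (d : ℕ) (hd : 2 ≤ d) (he : Even d) (τ : ℤ) (_hτ : τ ≠ 0) (E : ℕ) (hE : 1 ≤ E)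
    (ε : ℝ) (hε : 0 < ε) :
    ∃ H₀ : ℕ, ∀ H : ℕ, H₀ ≤ H →
      {a : Fin (d + 1) → ℤ | (∀ i, |a i| ≤ ((E * H : ℕ) : ℤ)) ∧ HasE τ a}.Finite ∧
      (({a : Fin (d + 1) → ℤ | (∀ i, |a i| ≤ ((E * H : ℕ) : ℤ)) ∧ HasE τ a}.ncard : ℕ) : ℝ) ≤
        ε * (2 * (H : ℝ) + 1) ^ (d + 1) := by
  obtain ⟨m, rfl⟩ : ∃ m, d = m + 1 := ⟨d - 1, by omega⟩
  have hm : Odd m := by
    rcases Nat.even_or_odd m with h | h
    · obtain ⟨r, hr⟩ := h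
      obtain ⟨s, hs⟩ := he
      omega
    · exact h
  exact u_core (m + 1) (by omega) (HasE τ) (even_main_s m hm τ) E hE ε hε

theorem u_O (d : ℕ) (hd : 2 ≤ d) (ho : Odd d) (E : ℕ) (hE : 1 ≤ E)
    (ε : ℝ) (hε : 0 < ε) :
    ∃ H₀ : ℕ, ∀ H : ℕ, H₀ ≤ H →
      {a : Fin (d + 1) → ℤ | (∀ i, |a i| ≤ ((E * H : ℕ) : ℤ)) ∧ HasO a}.Finite ∧
      (({a : Fin (d + 1) → ℤ | (∀ i, |a i| ≤ ((E * H : ℕ) : ℤ)) ∧ HasO a}.ncard : ℕ) : ℝ) ≤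
        ε * (2 * (H : ℝ) + 1) ^ (d + 1) := by
  obtain ⟨m, rfl⟩ : ∃ m, d = m + 1 := ⟨d - 1, by omega⟩
  have hm : Even m := by
    rcases Nat.even_or_odd m with h | h
    · exact h
    · obtain ⟨r, hr⟩ := h
      obtain ⟨s, hs⟩ := ho
      omega
  have h2 : 2 ≤ m := by
    obtain ⟨r, hr⟩ := hm
    omega
  exact u_core (m + 1) (by omega) HasO (odd_main_s m hm h2) E hE ε hε


theorem density_zero_u (d : ℕ) (hd : 2 ≤ d) (B : ℕ) (ε : ℝ) (hε : 0 < ε) :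
    ∃ H₀ : ℕ, ∀ H : ℕ, H₀ ≤ H →
    (({a : Fin (d + 1) → ℤ | (∀ i, |a i| ≤ (H : ℤ)) ∧ HasU B a}.ncard : ℕ) : ℝ) ≤
      ε * (2 * (H : ℝ) + 1) ^ (d + 1) := by
  rcases Nat.eq_zero_or_pos B with hB0 | hB0
  · refine ⟨0, fun H _ => ?_⟩
    have h1 : {a : Fin (d + 1) → ℤ | (∀ i, |a i| ≤ (H : ℤ)) ∧ HasU B a} = ∅ := by
      ext a
      simp only [Set.mem_ofPred_eq, Set.mem_empty_iff_false, iff_false]
      rintro ⟨-, k, x, y, τ, w, -, -, h1, h2, -⟩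
      omega
    rw [h1]
    simp only [Set.ncard_empty, Nat.cast_zero]
    positivity
  have hBr : (1 : ℝ) ≤ B := by exact_mod_cast hB0
  rcases Nat.even_or_odd d with he | ho
  · have hc : (0 : ℝ) < (2 * B + 1) * B := by positivity
    obtain ⟨H0, hH0⟩ := u_E d hd he 1 one_ne_zero (B ^ (d + 1)) (Nat.one_le_pow _ _ hB0)
      (ε / ((2 * B + 1) * B)) (by positivity)
    refine ⟨H0, fun H hH => ?_⟩
    obtain ⟨-, h2⟩ := hH0 H hH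
    have h3 : (({a : Fin (d + 1) → ℤ | (∀ i, |a i| ≤ (H : ℤ)) ∧ HasU B a}.ncard : ℕ) : ℝ) ≤
        ((2 * B + 1) * B) * (({b : Fin (d + 1) → ℤ |
          (∀ i, |b i| ≤ ((B ^ (d + 1) * H : ℕ) : ℤ)) ∧ HasE 1 b}.ncard : ℕ) : ℝ) := by
      exact_mod_cast red_even d he B H hB0
    calc _ ≤ _ := h3
      _ ≤ ((2 * B + 1) * B) * (ε / ((2 * B + 1) * B) * (2 * (H : ℝ) + 1) ^ (d + 1)) :=
          mul_le_mul_of_nonneg_left h2 hc.le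
      _ = _ := by field_simp
  · obtain ⟨t, ht⟩ := sqf_part (ε / 4) (by positivity)
    set M : ℕ := (2 * B + 1) * B * (B ^ 2 * (2 ^ t) ^ 2) with hM
    have hM0 : (0 : ℝ) < M := by
      have : 0 < M := by rw [hM]; positivity
      exact_mod_cast this
    obtain ⟨H0, hH0⟩ := u_O d hd ho (B ^ (3 * d + 1) * (2 ^ t) ^ (2 * d))
      (Nat.one_le_iff_ne_zero.2 (by positivity)) (ε / 2 / M) (by positivity)
    obtain ⟨H1, hH1⟩ := exists_nat_ge (4 / ε)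
    refine ⟨max (max H0 H1) 1, fun H hH => ?_⟩
    have hHa : H0 ≤ H := le_trans (le_trans (le_max_left _ _) (le_max_left _ _)) hH
    have hHb : H1 ≤ H := le_trans (le_trans (le_max_right _ _) (le_max_left _ _)) hH
    have hHc : 1 ≤ H := le_trans (le_max_right _ _) hH
    obtain ⟨-, h2⟩ := hH0 H hHa
    have h1 := ht H hHc
    set n1 : ℕ := {α : ℤ | α ≠ 0 ∧ |α| ≤ (H : ℤ) ∧
      ¬ ∃ q : ℕ, Squarefree q ∧ (q : ℤ) ∣ α ∧ (H : ℝ) ≤ 2 ^ t * q}.ncard with hn1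
    set n2 : ℕ := {b : Fin (d + 1) → ℤ |
      (∀ i, |b i| ≤ ((B ^ (3 * d + 1) * (2 ^ t) ^ (2 * d) * H : ℕ) : ℤ)) ∧ HasO b}.ncard with hn2
    have h3' : {a : Fin (d + 1) → ℤ | (∀ i, |a i| ≤ (H : ℤ)) ∧ HasU B a}.ncard ≤
        (1 + n1) * (2 * H + 1) ^ d + M * n2 := red_odd_total d ho B t H hB0
    have h3 : (({a : Fin (d + 1) → ℤ | (∀ i, |a i| ≤ (H : ℤ)) ∧ HasU B a}.ncard : ℕ) : ℝ) ≤
        (1 + (n1 : ℝ)) * (2 * (H : ℝ) + 1) ^ d + M * (n2 : ℝ) := by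
      exact_mod_cast h3'
    have hHr : (0 : ℝ) ≤ H := Nat.cast_nonneg H
    have h4 : (1 : ℝ) ≤ ε / 4 * H := by
      have h5 : (H1 : ℝ) ≤ H := by exact_mod_cast hHb
      have h6 := (div_le_iff₀ hε).1 (hH1.trans h5)
      linarith
    have h5 : (1 + (n1 : ℝ)) ≤ ε / 2 * (2 * (H : ℝ) + 1) := by nlinarith
    have h6 : (M : ℝ) * (n2 : ℝ) ≤ ε / 2 * (2 * (H : ℝ) + 1) ^ (d + 1) := by
      calc (M : ℝ) * (n2 : ℝ) ≤ M * (ε / 2 / M * (2 * (H : ℝ) + 1) ^ (d + 1)) :=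
            mul_le_mul_of_nonneg_left h2 hM0.le
        _ = _ := by field_simp
    calc _ ≤ _ := h3
      _ ≤ ε / 2 * (2 * (H : ℝ) + 1) * (2 * (H : ℝ) + 1) ^ d +
          ε / 2 * (2 * (H : ℝ) + 1) ^ (d + 1) :=
          add_le_add (mul_le_mul_of_nonneg_right h5 (by positivity)) h6
      _ = _ := by ring

end Pool.Agent.Helper32.DZ
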