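import Pool.Agent.Helper32.DZ.Defs

set_option autoImplicit false

/-!
DZ-07 Herm. Hermite-reduced basis: product of the lengths at most a constant times the determinant.

PROOF. Induction on `N`, `C_N = (4/3)^(N(N-1)/2)`; `N = 0` trivial. `N = M + 1`:
(a) MINIMUM. Among all integral `g` with `det g = ± 1` choose one with `m = (g^t Φ g)_00 = ev Φ (g e_0) (g e_0)`
minimal: the minimum exists because for every bound `T` only finitely many integral vectors `v` have
`ev Φ v v ≤ T` (`Φ` positive definite: `ev Φ v v ≥ c ‖v‖^2`, `c > 0`; e.g. by compactness of the unit sphere,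
or from the smallest eigenvalue) - so the set of values is well-founded (or: take the value of `g = 1`, a finite
set of vectors below it, minimum over it).
Replace `Φ` by `Φ1 = g^t Φ g` (positive definite, same determinant). Then `φ = Φ1 0 0 > 0` and
`φ ≤ ev Φ1 (h e_j) (h e_j)` for every integral `h` with `det h = ± 1` and every column `j` (swap columns `0`, `j`).
(b) SCHUR COMPLEMENT. `Φ' i j = Φ1 i.succ j.succ - Φ1 i.succ 0 * Φ1 0 j.succ / φ` on `Fin M` is positive definite,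
`det Φ1 = φ det Φ'`, and for a vector `(k, v)` (`Fin.cons k v`):
`ev Φ1 (k,v) (k,v) = φ (k + (∑_j Φ1 0 j.succ v_j)/φ)^2 + ev Φ' v v` (direct expansion).
(Positive definite: choose real `k` killing the square. Determinant: `Matrix.det_fromBlocks₁₁` after reindexing
`Fin (M+1) ≃ Fin 1 ⊕ Fin M`, or row operations `Matrix.det_eq_of_forall_row_eq_smul_add_const`.)
(c) Induction gives `h'` on `Fin M` with `∏ (h'^t Φ' h')_ii ≤ C_M det Φ'`. Let `h` be the matrix with
`h 0 0 = 1`, `h i.succ 0 = 0`, `h i.succ j.succ = h' i j`, `h 0 j.succ = k_j` where `k_j` is the integer nearest to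
`- (∑_i Φ1 0 i.succ h' i j)/φ` (`round`), `det h = det h' = ± 1`. Then
`(h^t Φ1 h)_(j+1) = φ (≤ 1/2)^2 + y_j`, `y_j = (h'^t Φ' h')_jj`, and it is `≥ φ` by (a): `y_j ≥ 3/4 φ`,
so it is `≤ y_j + φ/4 ≤ (4/3) y_j`. The product of all is `≤ φ (4/3)^M ∏ y_j ≤ (4/3)^M C_M φ det Φ' = C_N det Φ`.
The matrix for `Φ` is `g h`.
-/

open Matrix

namespace Pool.Agent.Helper32.DZ

private theorem herm_mulVec {N : ℕ} {g : Matrix (Fin N) (Fin N) ℝ} (hg : g.det ≠ 0) :
    Function.Injective g.mulVec := by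
  rw [Matrix.mulVec_injective_iff_isUnit, Matrix.isUnit_iff_isUnit_det]
  exact isUnit_iff_ne_zero.2 hg

private theorem herm_cong {N : ℕ} {Φ g : Matrix (Fin N) (Fin N) ℝ} (h : Φ.PosDef)
    (hg : g.det ≠ 0) : (gᵀ * Φ * g).PosDef := by
  have := h.conjTranspose_mul_mul_same (herm_mulVec hg)
  rwa [Matrix.conjTranspose_eq_transpose_of_trivial] at this

private theorem herm_diag {N : ℕ} (Φ g : Matrix (Fin N) (Fin N) ℝ) (j : Fin N) :
    (gᵀ * Φ * g) j j = (fun r => g r j) ⬝ᵥ (Φ *ᵥ fun r => g r j) := by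
  rw [Matrix.mul_assoc]
  rfl

private theorem herm_symm {N : ℕ} {Φ : Matrix (Fin N) (Fin N) ℝ} (hΦ : Φ.PosDef)
    (x y : Fin N → ℝ) : x ⬝ᵥ (Φ *ᵥ y) = y ⬝ᵥ (Φ *ᵥ x) := by
  have h1 : Φᵀ = Φ := by
    have := hΦ.isHermitian.eq
    rwa [Matrix.conjTranspose_eq_transpose_of_trivial] at this
  rw [Matrix.dotProduct_mulVec, dotProduct_comm, ← Matrix.mulVec_transpose, h1]

/-- lower bound for the form on integral vectors -/
private theorem herm_low {N : ℕ} {Φ : Matrix (Fin N) (Fin N) ℝ} (hΦ : Φ.PosDef) :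
    ∃ c : ℝ, 0 < c ∧ ∀ v : Fin N → ℤ, v ≠ 0 →
      c ≤ (fun r => (v r : ℝ)) ⬝ᵥ (Φ *ᵥ fun r => (v r : ℝ)) := by
  have hinv : (Φ⁻¹).PosDef := hΦ.inv
  have hu : IsUnit Φ.det := isUnit_iff_ne_zero.2 hΦ.det_pos.ne'
  have hβ : ∀ i, 0 < Φ⁻¹ i i := fun i => hinv.diag_pos
  have hS : 0 < 1 + ∑ i, Φ⁻¹ i i := by
    have := Finset.sum_nonneg fun i (_ : i ∈ Finset.univ) => (hβ i).le
    linarith
  refine ⟨1 / (1 + ∑ i, Φ⁻¹ i i), by positivity, fun v hv => ?_⟩
  obtain ⟨i, hi⟩ := Function.ne_iff.1 hv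
  set x : Fin N → ℝ := fun r => (v r : ℝ) with hx
  set w : Fin N → ℝ := fun r => Φ⁻¹ r i with hw
  have hΦw : Φ *ᵥ w = Pi.single i 1 := by
    have h1 : w = Φ⁻¹ *ᵥ Pi.single i 1 := by
      rw [Matrix.mulVec_single_one]
      rfl
    rw [h1, Matrix.mulVec_mulVec, Matrix.mul_nonsing_inv _ hu, Matrix.one_mulVec]
  have h1 : x ⬝ᵥ (Φ *ᵥ w) = x i := by rw [hΦw, dotProduct_single, mul_one]
  have h2 : w ⬝ᵥ (Φ *ᵥ w) = Φ⁻¹ i i := by rw [hΦw, dotProduct_single, mul_one]
  have h3 := hΦ.posSemidef.dotProduct_mulVec_nonneg (x - (x i / Φ⁻¹ i i) • w)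
  rw [star_trivial, Matrix.mulVec_sub, Matrix.mulVec_smul, sub_dotProduct, dotProduct_sub,
    dotProduct_sub, smul_dotProduct, smul_dotProduct, dotProduct_smul, dotProduct_smul, h1, h2,
    herm_symm hΦ w x, h1] at h3
  simp only [smul_eq_mul] at h3
  have hb := hβ i
  have h4 : x ⬝ᵥ (Φ *ᵥ x) ≥ x i ^ 2 / Φ⁻¹ i i := by
    have h5 : x ⬝ᵥ (Φ *ᵥ x) - x i / Φ⁻¹ i i * x i -
        (x i / Φ⁻¹ i i * x i - x i / Φ⁻¹ i i * (x i / Φ⁻¹ i i * Φ⁻¹ i i)) =
        x ⬝ᵥ (Φ *ᵥ x) - x i ^ 2 / Φ⁻¹ i i := by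
      field_simp
      ring
    linarith
  have h5 : (1 : ℝ) ≤ x i ^ 2 := by
    have h6 : (1 : ℤ) ≤ v i ^ 2 := by
      have : 0 < v i ^ 2 := by
        have h7 : v i ≠ 0 := hi
        positivity
      omega
    have : ((1 : ℤ) : ℝ) ≤ ((v i ^ 2 : ℤ) : ℝ) := by exact_mod_cast h6
    simpa [hx] using this
  have h6 : Φ⁻¹ i i ≤ 1 + ∑ i, Φ⁻¹ i i := by
    have := Finset.single_le_sum (f := fun i => Φ⁻¹ i i) (fun i _ => (hβ i).le) (Finset.mem_univ i)
    linarith
  calc 1 / (1 + ∑ i, Φ⁻¹ i i) ≤ 1 / Φ⁻¹ i i := one_div_le_one_div_of_le hb h6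
    _ ≤ x i ^ 2 / Φ⁻¹ i i := by gcongr
    _ ≤ _ := h4

private theorem herm_toR_det {N : ℕ} (g : Matrix (Fin N) (Fin N) ℤ) :
    (toR g).det = (g.det : ℝ) := by
  have := (Int.castRingHom ℝ).map_det g
  simpa [RingHom.mapMatrix_apply, toR] using this.symm

private theorem herm_toR_mul {N : ℕ} (g h : Matrix (Fin N) (Fin N) ℤ) :
    toR (g * h) = toR g * toR h := by
  have := Matrix.map_mul (L := g) (M := h) (f := Int.castRingHom ℝ)
  simpa [toR] using this

/-- almost minimal first vector -/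
private theorem herm_min {M : ℕ} {Φ : Matrix (Fin (M + 1)) (Fin (M + 1)) ℝ} (hΦ : Φ.PosDef) :
    ∃ g : Matrix (Fin (M + 1)) (Fin (M + 1)) ℤ, (g.det = 1 ∨ g.det = -1) ∧
      ∀ h : Matrix (Fin (M + 1)) (Fin (M + 1)) ℤ, (h.det = 1 ∨ h.det = -1) → ∀ j,
        ((toR g)ᵀ * Φ * toR g) 0 0 ≤ 2 * ((toR h)ᵀ * Φ * toR h) j j := by
  obtain ⟨c, hc, hlow⟩ := herm_low hΦ
  let S : Set ℝ := {s | ∃ g : Matrix (Fin (M + 1)) (Fin (M + 1)) ℤ,
    (g.det = 1 ∨ g.det = -1) ∧ s = ((toR g)ᵀ * Φ * toR g) 0 0}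
  have hne : S.Nonempty := ⟨_, 1, Or.inl Matrix.det_one, rfl⟩
  have hSc : ∀ s ∈ S, c ≤ s := by
    rintro s ⟨g, hg, rfl⟩
    rw [herm_diag]
    refine hlow (fun r => g r 0) ?_
    intro h0
    have h1 : g.det = 0 := Matrix.det_eq_zero_of_column_eq_zero 0 fun r => congrFun h0 r
    rcases hg with h | h <;> omega
  have hbdd : BddBelow S := ⟨c, hSc⟩
  have hm : c ≤ sInf S := le_csInf hne hSc
  obtain ⟨s, ⟨g, hg, rfl⟩, hs⟩ := exists_lt_of_csInf_lt hne (show sInf S < 2 * sInf S by linarith)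
  refine ⟨g, hg, fun h hh j => ?_⟩
  have h1 : ((toR h)ᵀ * Φ * toR h) j j ∈ S := by
    refine ⟨h.submatrix id (Equiv.swap 0 j), ?_, ?_⟩
    · rw [Matrix.det_permute']
      rcases Int.units_eq_one_or (Equiv.Perm.sign (Equiv.swap 0 j)) with h2 | h2
      · rw [h2]; simpa using hh
      · rw [h2]
        rcases hh with h3 | h3
        · right; rw [h3]; simp
        · left; rw [h3]; simp
    · rw [herm_diag, herm_diag]
      simp [toR]
  have h2 := csInf_le hbdd h1
  linarith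

/-- determinant of a matrix with first column zero below the corner -/
private theorem herm_block {R : Type*} [CommRing R] {M : ℕ} (A : Matrix (Fin (M + 1)) (Fin (M + 1)) R)
    (h : ∀ i : Fin M, A i.succ 0 = 0) : A.det = A 0 0 * (A.submatrix Fin.succ Fin.succ).det := by
  rw [Matrix.det_succ_column_zero, Fin.sum_univ_succ]
  rw [Finset.sum_eq_zero fun i _ => by rw [h]; ring]
  simp [Fin.succAbove_zero]

theorem herm (N : ℕ) : ∃ C : ℝ, 1 ≤ C ∧ ∀ Φ : Matrix (Fin N) (Fin N) ℝ, Φ.PosDef →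
    ∃ g : Matrix (Fin N) (Fin N) ℤ, (g.det = 1 ∨ g.det = -1) ∧
      ∏ i, ((toR g)ᵀ * Φ * toR g) i i ≤ C * Φ.det := by
  induction N with
  | zero =>
    refine ⟨1, le_rfl, fun Φ _ => ⟨1, Or.inl Matrix.det_one, ?_⟩⟩
    simp
  | succ M ih =>
    obtain ⟨C, hC, ih⟩ := ih
    refine ⟨2 ^ M * C, one_le_mul_of_one_le_of_one_le (one_le_pow₀ one_le_two) hC, fun Φ hΦ => ?_⟩
    obtain ⟨g, hg, hmin⟩ := herm_min hΦ
    have hgd : (toR g).det ≠ 0 := by
      rw [herm_toR_det]
      rcases hg with h | h <;> rw [h] <;> norm_num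
    have hgd2 : (toR g).det ^ 2 = 1 := by
      rw [herm_toR_det]
      rcases hg with h | h <;> rw [h] <;> norm_num
    set Φ1 := (toR g)ᵀ * Φ * toR g with hΦ1
    have hpd1 : Φ1.PosDef := herm_cong hΦ hgd
    have hdet1 : Φ1.det = Φ.det := by
      rw [hΦ1, Matrix.det_mul, Matrix.det_mul, Matrix.det_transpose]
      linear_combination Φ.det * hgd2
    have hsym : ∀ i j, Φ1 i j = Φ1 j i := by
      intro i j
      have := hpd1.isHermitian.apply i j
      simpa using this.symm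
    set φ := Φ1 0 0 with hφ
    have hφ0 : 0 < φ := hpd1.diag_pos
    -- Schur complement
    let L : Matrix (Fin (M + 1)) (Fin (M + 1)) ℝ := Matrix.of fun i j =>
      Fin.cases (Fin.cases (1 : ℝ) (fun j' => - (Φ1 0 j'.succ / φ)) j)
        (fun i' => Fin.cases 0 (fun j' => if i' = j' then 1 else 0) j) i
    have hL00 : L 0 0 = 1 := rfl
    have hLs0 : ∀ i : Fin M, L i.succ 0 = 0 := fun i => rfl
    have hL0s : ∀ j : Fin M, L 0 j.succ = - (Φ1 0 j.succ / φ) := fun j => rfl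
    have hLss : ∀ i j : Fin M, L i.succ j.succ = if i = j then 1 else 0 := fun i j => rfl
    have hLd : L.det = 1 := by
      rw [herm_block L hLs0, hL00, one_mul]
      have : L.submatrix Fin.succ Fin.succ = 1 := by
        ext i j
        rw [Matrix.submatrix_apply, hLss, Matrix.one_apply]
      rw [this, Matrix.det_one]
    let Φ' : Matrix (Fin M) (Fin M) ℝ := Matrix.of fun i j =>
      Φ1 i.succ j.succ - Φ1 i.succ 0 * Φ1 0 j.succ / φ
    have hD : ∀ i j, (Lᵀ * Φ1 * L) i j = ∑ b, (∑ a, L a i * Φ1 a b) * L b j := by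
      intro i j
      simp only [Matrix.mul_apply, Matrix.transpose_apply]
    have hDs0 : ∀ i : Fin M, (Lᵀ * Φ1 * L) i.succ 0 = 0 := by
      intro i
      rw [hD, Fin.sum_univ_succ]
      simp only [hL00, hLs0, mul_zero, Finset.sum_const_zero, add_zero, mul_one,
        Fin.sum_univ_succ, hL0s, hLss, ite_mul, one_mul, zero_mul, Finset.sum_ite_eq',
        Finset.mem_univ, if_true]
      rw [hsym i.succ 0, ← hφ]
      field_simp
      ring
    have hD00 : (Lᵀ * Φ1 * L) 0 0 = φ := by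
      rw [hD, Fin.sum_univ_succ]
      simp only [hL00, hLs0, mul_zero, Finset.sum_const_zero, add_zero, mul_one,
        Fin.sum_univ_succ, one_mul, zero_mul]
      rfl
    have hDss : (Lᵀ * Φ1 * L).submatrix Fin.succ Fin.succ = Φ' := by
      ext i j
      rw [Matrix.submatrix_apply, hD, Fin.sum_univ_succ]
      simp only [hL0s, hLss, Fin.sum_univ_succ, ite_mul, one_mul, zero_mul, Finset.sum_ite_eq',
        Finset.mem_univ, if_true, mul_ite, mul_one, mul_zero, Φ', Matrix.of_apply]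
      rw [hsym i.succ 0, ← hφ]
      field_simp
      ring
    have hpd' : Φ'.PosDef := by
      rw [← hDss]
      exact (herm_cong hpd1 (by rw [hLd]; exact one_ne_zero)).submatrix (Fin.succ_injective M)
    have hdet' : Φ1.det = φ * Φ'.det := by
      have h1 := herm_block _ hDs0
      rw [hD00, hDss, Matrix.det_mul, Matrix.det_mul, Matrix.det_transpose, hLd] at h1
      linarith
    obtain ⟨h', hh', hprod⟩ := ih Φ' hpd'
    -- the lifted basis
    let s : Fin M → ℝ := fun j => ∑ i, Φ1 0 i.succ * (h' i j : ℝ)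
    let k : Fin M → ℤ := fun j => round (- (s j / φ))
    let h : Matrix (Fin (M + 1)) (Fin (M + 1)) ℤ := Matrix.of fun i j =>
      Fin.cases (Fin.cases (1 : ℤ) (fun j' => k j') j)
        (fun i' => Fin.cases 0 (fun j' => h' i' j') j) i
    have hh00 : h 0 0 = 1 := rfl
    have hhs0 : ∀ i : Fin M, h i.succ 0 = 0 := fun i => rfl
    have hh0s : ∀ j : Fin M, h 0 j.succ = k j := fun j => rfl
    have hhss : ∀ i j : Fin M, h i.succ j.succ = h' i j := fun i j => rfl
    have hhd : h.det = h'.det := by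
      rw [herm_block h hhs0, hh00, one_mul]
      rfl
    have hE0 : ((toR h)ᵀ * Φ1 * toR h) 0 0 = φ := by
      simp only [Matrix.mul_apply, Matrix.transpose_apply, toR, Matrix.map_apply,
        Fin.sum_univ_succ, hh00, hhs0]
      simp [hφ]
    have hEj : ∀ j : Fin M, ((toR h)ᵀ * Φ1 * toR h) j.succ j.succ =
        φ * (k j + s j / φ) ^ 2 + ((toR h')ᵀ * Φ' * toR h') j j := by
      intro j
      have e1 : ((toR h)ᵀ * Φ1 * toR h) j.succ j.succ =
          ((k j : ℝ) * φ + ∑ a : Fin M, (h' a j : ℝ) * Φ1 a.succ 0) * (k j : ℝ) +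
          ∑ b : Fin M, ((k j : ℝ) * Φ1 0 b.succ + ∑ a : Fin M, (h' a j : ℝ) * Φ1 a.succ b.succ) *
            (h' b j : ℝ) := by
        simp only [Matrix.mul_apply, Matrix.transpose_apply, toR, Matrix.map_apply,
          Fin.sum_univ_succ, hh0s, hhss]
        rfl
      have e2 : ((toR h')ᵀ * Φ' * toR h') j j =
          ∑ b : Fin M, (∑ a : Fin M, (h' a j : ℝ) * (Φ1 a.succ b.succ -
            Φ1 a.succ 0 * Φ1 0 b.succ / φ)) * (h' b j : ℝ) := by
        simp only [Matrix.mul_apply, Matrix.transpose_apply, toR, Matrix.map_apply, Φ',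
          Matrix.of_apply]
      have e3 : ∑ a : Fin M, (h' a j : ℝ) * Φ1 a.succ 0 = s j := by
        refine Finset.sum_congr rfl fun a _ => ?_
        rw [hsym a.succ 0, mul_comm]
      have e4 : ∑ b : Fin M, ((k j : ℝ) * Φ1 0 b.succ) * (h' b j : ℝ) = (k j : ℝ) * s j := by
        rw [Finset.mul_sum]
        exact Finset.sum_congr rfl fun b _ => by ring
      have e5 : ∑ b : Fin M, (∑ a : Fin M, (h' a j : ℝ) * (Φ1 a.succ 0 * Φ1 0 b.succ / φ)) *
          (h' b j : ℝ) = s j * s j / φ := by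
        have e6 : ∀ b : Fin M, (∑ a : Fin M, (h' a j : ℝ) * (Φ1 a.succ 0 * Φ1 0 b.succ / φ)) *
            (h' b j : ℝ) = (s j / φ) * (Φ1 0 b.succ * (h' b j : ℝ)) := by
          intro b
          rw [← e3, Finset.sum_div, Finset.sum_mul, Finset.sum_mul]
          exact Finset.sum_congr rfl fun a _ => by ring
        rw [Finset.sum_congr rfl fun b _ => e6 b, ← Finset.mul_sum]
        change s j / φ * s j = _
        ring
      rw [e1, e2, e3]
      simp only [add_mul, mul_sub, Finset.sum_add_distrib, Finset.sum_sub_distrib, sub_mul]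
      rw [e4, e5]
      field_simp
      ring
    refine ⟨g * h, ?_, ?_⟩
    · rw [Matrix.det_mul, hhd]
      rcases hg with h1 | h1 <;> rcases hh' with h2 | h2 <;> rw [h1, h2] <;> norm_num
    · have h1 : (toR (g * h))ᵀ * Φ * toR (g * h) = (toR h)ᵀ * Φ1 * toR h := by
        rw [herm_toR_mul, Matrix.transpose_mul, hΦ1]
        simp only [Matrix.mul_assoc]
      rw [h1, Fin.prod_univ_succ, hE0]
      have h2 : ∀ j : Fin M, ((toR h)ᵀ * Φ1 * toR h) j.succ j.succ ≤
          2 * ((toR h')ᵀ * Φ' * toR h') j j := by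
        intro j
        have h3 := hmin (g * h) (by
          rw [Matrix.det_mul, hhd]
          rcases hg with h1 | h1 <;> rcases hh' with h2 | h2 <;> rw [h1, h2] <;> norm_num) j.succ
        rw [h1, hEj j] at h3
        rw [hEj j]
        have h4 : |(k j : ℝ) + s j / φ| ≤ 1 / 2 := by
          have := abs_sub_round (- (s j / φ))
          rw [abs_sub_comm] at this
          simpa [k, sub_neg_eq_add] using this
        have h5 : ((k j : ℝ) + s j / φ) ^ 2 ≤ 1 / 4 := by
          have := sq_le_sq' (abs_le.1 h4).1 (abs_le.1 h4).2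
          linarith
        have h6 : φ * (k j + s j / φ) ^ 2 ≤ φ * (1 / 4) := by gcongr
        linarith
      have h3 : 0 ≤ ∏ j : Fin M, ((toR h')ᵀ * Φ' * toR h') j j := by
        refine Finset.prod_nonneg fun j _ => ?_
        rw [herm_diag]
        have := hpd'.posSemidef.dotProduct_mulVec_nonneg (fun r => toR h' r j)
        rwa [star_trivial] at this
      have h4 : ∀ j : Fin M, 0 ≤ ((toR h)ᵀ * Φ1 * toR h) j.succ j.succ := by
        intro j
        rw [herm_diag]
        have := hpd1.posSemidef.dotProduct_mulVec_nonneg (fun r => toR h r j.succ)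
        rwa [star_trivial] at this
      calc φ * ∏ j : Fin M, ((toR h)ᵀ * Φ1 * toR h) j.succ j.succ
          ≤ φ * ∏ j : Fin M, (2 * ((toR h')ᵀ * Φ' * toR h') j j) := by
            refine mul_le_mul_of_nonneg_left ?_ hφ0.le
            exact Finset.prod_le_prod (fun j _ => h4 j) fun j _ => h2 j
        _ = φ * (2 ^ M * ∏ j : Fin M, ((toR h')ᵀ * Φ' * toR h') j j) := by
            rw [Finset.prod_mul_distrib]
            simp
        _ ≤ φ * (2 ^ M * (C * Φ'.det)) := by gcongr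
        _ = 2 ^ M * C * Φ.det := by rw [← hdet1, hdet']; ring

end Pool.Agent.Helper32.DZ
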