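import Mathlib

set_option autoImplicit false

/-!
DZ-51 Jac. The `2 × 2` minors of the adjugate are divisible by the determinant (also when it is `0`).

PROOF. If `i = l` or `j = l` the difference is `0`. Let `i ≠ l`. FIRST for a matrix `M` over a domain with
`δ = det M ≠ 0`: `u`, `v` = columns `j`, `l` of `adj M`: `M u = δ e_j`, `M v = δ e_l`. Let `Q` be the identity matrix with
column `i` replaced by `u` and column `l` replaced by `v`: `det Q = u_i v_l - u_l v_i = adj i j * adj l l - adj l j * adj i l`
(`Matrix.updateCol`; e.g. `det (1.updateCol i u) = u i`; for two columns use `Matrix.cramer` or expand: or avoid `det Q` by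
`Matrix.det_updateCol_...`). `M Q` is `M` with columns `i`, `l` replaced by `δ e_j`, `δ e_l`, so
`δ det Q = δ^2 μ` with an element `μ` of the ring (`Matrix.det_updateCol_smul` twice). Cancel `δ`: `det Q = δ μ`.
GENERAL case: apply this over `ℤ[T]` to `M + T • 1` (its determinant is monic in `T`, so not zero: it is
`(-M).charpoly`), and evaluate the identity `adj.. - adj.. = det * μ` at `T = 0` (`Polynomial.evalRingHom 0`, `RingHom.map_adjugate`,
`RingHom.map_det`).
-/

open Matrix

namespace Pool.Agent.Helper32.DZ

private theorem adj_cr {n : ℕ} (M : Matrix (Fin n) (Fin n) ℤ) (i j : Fin n) :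
    M.adjugate i j = cramer M (Pi.single j 1) i := by
  rw [cramer_eq_adjugate_mulVec, mulVec_single_one, col_apply]

private theorem cr_swap {n : ℕ} (M : Matrix (Fin n) (Fin n) ℤ) (b : Fin n → ℤ) (i l : Fin n)
    (h : i ≠ l) : cramer (M.updateCol l b) (fun k => M k l) i = -cramer M b i := by
  rw [cramer_apply, cramer_apply]
  have h1 : (M.updateCol l b).updateCol i (fun k => M k l) =
      (M.updateCol i b).submatrix id (Equiv.swap i l) := by
    ext s t
    rw [submatrix_apply, id, updateCol_apply, updateCol_apply, updateCol_apply]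
    by_cases hti : t = i
    · subst hti
      rw [if_pos rfl, Equiv.swap_apply_left, if_neg (Ne.symm h)]
    · by_cases htl : t = l
      · subst htl
        rw [if_neg hti, if_pos rfl, Equiv.swap_apply_right, if_pos rfl]
      · rw [if_neg hti, if_neg htl, Equiv.swap_apply_of_ne_of_ne hti htl, if_neg hti]
  rw [h1, det_permute', Equiv.Perm.sign_swap h]
  simp

private theorem two_col {n : ℕ} (M : Matrix (Fin n) (Fin n) ℤ) (b c : Fin n → ℤ) (i l : Fin n)
    (h : i ≠ l) : cramer M b l * cramer M c i - cramer M c l * cramer M b i =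
      M.det * cramer (M.updateCol l b) c i := by
  set B := M.updateCol l b with hB
  set v := cramer M c with hv
  have h1 : M *ᵥ v = B *ᵥ v + v l • ((fun k => M k l) - b) := by
    ext s
    simp only [mulVec, dotProduct, Pi.add_apply, Pi.smul_apply, Pi.sub_apply, smul_eq_mul]
    rw [← sub_eq_iff_eq_add', ← Finset.sum_sub_distrib, Finset.sum_eq_single l]
    · rw [hB, updateCol_self]
      ring
    · intro k _ hk
      rw [hB, updateCol_ne hk]
      ring
    · intro hl
      exact absurd (Finset.mem_univ _) hl
  have h2 : cramer B (M *ᵥ v) i = B.det * v i + v l * (cramer B (fun k => M k l) i - cramer B b i) := by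
    rw [h1, map_add, map_smul, map_sub]
    simp only [Pi.add_apply, Pi.smul_apply, Pi.sub_apply, smul_eq_mul]
    congr 1
    rw [cramer_eq_adjugate_mulVec, mulVec_mulVec, adjugate_mul, smul_mulVec, one_mulVec]
    rfl
  have h3 : cramer B b i = 0 := by
    rw [cramer_row_self (A := B) (b := b) l (fun j => by rw [hB, updateCol_self]),
      Pi.single_eq_of_ne h]
  have h4 : cramer B (M *ᵥ v) i = M.det * cramer B c i := by
    rw [hv, mulVec_cramer, map_smul]
    rfl
  have h5 : B.det = cramer M b l := by
    rw [cramer_apply]
  rw [← h4, h2, h3, h5, hB, cr_swap M b i l h]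
  ring

theorem jac {n : ℕ} (M : Matrix (Fin n) (Fin n) ℤ) (i j l : Fin n) :
    M.det ∣ M.adjugate i j * M.adjugate l l - M.adjugate i l * M.adjugate l j := by
  by_cases h : i = l
  · subst h
    rw [mul_comm, sub_self]
    exact dvd_zero _
  · rw [adj_cr M i j, adj_cr M l l, adj_cr M i l, adj_cr M l j]
    have := two_col M (Pi.single l 1) (Pi.single j 1) i l h
    rw [mul_comm, mul_comm (cramer M (Pi.single l 1) i), this]
    exact Dvd.intro _ rfl

end Pool.Agent.Helper32.DZ
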