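import Pool.Agent.Helper32.DZ.PivotCount
import Pool.Agent.Helper32.DZ.BoxCard
import Pool.Agent.Helper32.DZ.ExpSums

set_option autoImplicit false

/-!
DZ-34 OddSets. The set of pairs `OT` of a cell (odd degree) and its size by pivots.

PROOFS. `ot_finite`: both boxes are finite (`box_card`).
`odd_fixed`: `B i j = 2 H 2^(κ i + κ j)`. The set is contained in (Box of `G`) × (set of `pivot_count`); note
`NegSq a S` and `q ∣ a` give `NegSq q S`. For `j ≥ k`: `κ k + κ j ≥ 2 κ k`, so `|s| < B k k ≤ B k j` (if the set is not empty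
`|s| = |S k k| < B k k`). `2 B i j / q + 1 ≤ 4 R 2^(κ i + κ j) + 1 ≤ 5 R 2^(max (κ i + κ j) 0)` (`H ≤ R q`, `R ≥ 1`), so the first
product is `≤ (5R)^(d^2) 2^(Xk)` (factors `≥ 1`, so adding the missing factors `i = k` only increases it);
`∏_(j>k) 3 B k j = ∏_(j>k) 6 H 2^(κ k + κ j) ≤ 6^d H^(d-1-k) 2^((d-1-k) κ k + ∑_(j>k) κ j)`. The box of `G` has at most
`3^(d^2) 2^(Xk)` elements (`box_card_two`, `c = 1`). `K = 6^d 15^(d^2)`.
`odd_inf`: the same with `pivot_inf`.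
-/

open Matrix

namespace Pool.Agent.Helper32.DZ

/-- the pairs `(G, S)` of a cell, odd degree, leading coefficient `a` -/
def OT (d H : ℕ) (κ : Fin d → ℤ) (a : ℤ) :
    Set (Matrix (Fin d) (Fin d) ℤ × Matrix (Fin d) (Fin d) ℤ) :=
  {M | M.1 ∈ Box (fun i j => (2 : ℝ) ^ (κ i + κ j)) ∧
    M.2 ∈ Box (fun i j => 2 * (H : ℝ) * (2 : ℝ) ^ (κ i + κ j)) ∧ NegSq a M.2 ∧ PG M.1 M.2}

private theorem os_zpow {ι : Type} (s : Finset ι) (g : ι → ℤ) :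
    ∏ i ∈ s, (2 : ℝ) ^ (g i) = (2 : ℝ) ^ (∑ i ∈ s, g i) := by
  classical
  induction s using Finset.induction_on with
  | empty => simp
  | insert a s ha ih =>
    rw [Finset.prod_insert ha, Finset.sum_insert ha, ih, zpow_add₀ (by norm_num)]

private theorem os_box_fin {N : ℕ} (B : Fin N → Fin N → ℝ) : (Box B).Finite := (box_card B).1

theorem ot_finite (d H : ℕ) (κ : Fin d → ℤ) (a : ℤ) : (OT d H κ a).Finite := by
  refine Set.Finite.subset ((os_box_fin (fun i j : Fin d => (2 : ℝ) ^ (κ i + κ j))).prod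
    (os_box_fin (fun i j : Fin d => 2 * (H : ℝ) * (2 : ℝ) ^ (κ i + κ j)))) ?_
  intro M hM
  exact ⟨hM.1, hM.2.1⟩

private theorem os_neg {N : ℕ} {q : ℕ} {a : ℤ} (h : (q : ℤ) ∣ a) {S : Matrix (Fin N) (Fin N) ℤ}
    (hS : NegSq a S) : NegSq (q : ℤ) S := by
  obtain ⟨u, hu⟩ := hS
  exact ⟨u, fun i j => h.trans (hu i j)⟩

private theorem os_fac {d : ℕ} {R : ℝ} (hR : 1 ≤ R) {H q : ℕ} (hq : 1 ≤ q)
    (hH : (H : ℝ) ≤ R * q) (κ : Fin d → ℤ) (c : Fin d → Fin d → Prop)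
    [∀ i j, Decidable (c i j)] (hc : ∀ i j, c i j → i ≤ j) :
    (∏ i, ∏ j, if c i j then 2 * (2 * (H : ℝ) * (2 : ℝ) ^ (κ i + κ j)) / q + 1 else 1) ≤
      (5 * R) ^ (d ^ 2) * (2 : ℝ) ^ (Xk κ) := by
  have hq0 : (0 : ℝ) < q := by exact_mod_cast hq
  have hz : ∀ m : ℤ, (0 : ℝ) < (2 : ℝ) ^ m := fun m => zpow_pos (by norm_num) m
  have hnn : ∀ i j : Fin d, (0 : ℝ) ≤
      if c i j then 2 * (2 * (H : ℝ) * (2 : ℝ) ^ (κ i + κ j)) / q + 1 else 1 := by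
    intro i j
    split_ifs
    · have := hz (κ i + κ j)
      positivity
    · exact zero_le_one
  have key : ∀ i j : Fin d,
      (if c i j then 2 * (2 * (H : ℝ) * (2 : ℝ) ^ (κ i + κ j)) / q + 1 else 1) ≤
      (5 * R) * (2 : ℝ) ^ (if i ≤ j then max (κ i + κ j) 0 else 0) := by
    intro i j
    by_cases h : c i j
    · rw [if_pos h, if_pos (hc i j h)]
      have h1 : (2 : ℝ) ^ (κ i + κ j) ≤ (2 : ℝ) ^ (max (κ i + κ j) 0) :=
        zpow_le_zpow_right₀ (by norm_num) (le_max_left _ _)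
      have h2 : (1 : ℝ) ≤ (2 : ℝ) ^ (max (κ i + κ j) 0) :=
        one_le_zpow₀ (by norm_num) (le_max_right _ _)
      have h3 : (H : ℝ) / q ≤ R := (div_le_iff₀ hq0).2 hH
      have h4 : 2 * (2 * (H : ℝ) * (2 : ℝ) ^ (κ i + κ j)) / q =
          4 * ((H : ℝ) / q) * (2 : ℝ) ^ (κ i + κ j) := by ring
      have h5 : 4 * ((H : ℝ) / q) * (2 : ℝ) ^ (κ i + κ j) ≤
          4 * R * (2 : ℝ) ^ (max (κ i + κ j) 0) := by
        refine mul_le_mul (by linarith) h1 (hz _).le (by linarith)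
      have h6 : (1 : ℝ) ≤ R * (2 : ℝ) ^ (max (κ i + κ j) 0) := one_le_mul_of_one_le_of_one_le hR h2
      rw [h4]
      linarith
    · rw [if_neg h]
      have h2 : (1 : ℝ) ≤ (2 : ℝ) ^ (if i ≤ j then max (κ i + κ j) 0 else 0) := by
        refine one_le_zpow₀ (by norm_num) ?_
        split_ifs
        · exact le_max_right _ _
        · exact le_refl _
      exact one_le_mul_of_one_le_of_one_le (by linarith) h2
  calc (∏ i, ∏ j, if c i j then 2 * (2 * (H : ℝ) * (2 : ℝ) ^ (κ i + κ j)) / q + 1 else 1)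
      ≤ ∏ i : Fin d, ∏ j : Fin d,
        (5 * R) * (2 : ℝ) ^ (if i ≤ j then max (κ i + κ j) 0 else 0) := by
        refine Finset.prod_le_prod (fun i _ => Finset.prod_nonneg fun j _ => hnn i j)
          fun i _ => ?_
        exact Finset.prod_le_prod (fun j _ => hnn i j) fun j _ => key i j
    _ = (5 * R) ^ (d ^ 2) * (2 : ℝ) ^ (Xk κ) := by
        have h1 : ∀ i : Fin d, ∏ j : Fin d,
            (5 * R) * (2 : ℝ) ^ (if i ≤ j then max (κ i + κ j) 0 else 0) =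
            (5 * R) ^ d * (2 : ℝ) ^ (∑ j, if i ≤ j then max (κ i + κ j) 0 else 0) := by
          intro i
          rw [Finset.prod_mul_distrib, Finset.prod_const, Finset.card_univ, Fintype.card_fin,
            os_zpow]
        rw [Finset.prod_congr rfl fun i _ => h1 i, Finset.prod_mul_distrib, Finset.prod_const,
          Finset.card_univ, Fintype.card_fin, os_zpow, ← pow_mul, pow_two]
        rfl

private theorem os_row {d : ℕ} (H : ℕ) (κ : Fin d → ℤ) (k : Fin d) :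
    (∏ j, if k < j then 3 * (2 * (H : ℝ) * (2 : ℝ) ^ (κ k + κ j)) else 1) =
      (6 * (H : ℝ)) ^ (d - 1 - (k : ℕ)) *
        (2 : ℝ) ^ (((d - 1 - (k : ℕ) : ℕ) : ℤ) * κ k + ∑ j, if k < j then κ j else 0) := by
  have h0 : (∏ j, if k < j then 3 * (2 * (H : ℝ) * (2 : ℝ) ^ (κ k + κ j)) else 1) =
      ∏ j ∈ Finset.Ioi k, (6 * (H : ℝ)) * (2 : ℝ) ^ (κ k + κ j) := by
    rw [← Finset.prod_filter, Finset.filter_lt_eq_Ioi]
    refine Finset.prod_congr rfl fun j _ => ?_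
    ring
  have h1 : (∑ j, if k < j then κ j else 0) = ∑ j ∈ Finset.Ioi k, κ j := by
    rw [← Finset.sum_filter, Finset.filter_lt_eq_Ioi]
  rw [h0, Finset.prod_mul_distrib, Finset.prod_const, os_zpow, Finset.sum_add_distrib,
    Finset.sum_const, Fin.card_Ioi, h1, nsmul_eq_mul]

private theorem os_boxG {d : ℕ} (κ : Fin d → ℤ) :
    ((Box fun i j : Fin d => (2 : ℝ) ^ (κ i + κ j)).ncard : ℝ) ≤
      (3 : ℝ) ^ (d ^ 2) * (2 : ℝ) ^ (Xk κ) := by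
  have h := box_card_two κ 1 le_rfl
  simpa only [one_mul, mul_one] using h

theorem odd_fixed (d : ℕ) : ∃ K : ℝ, 1 ≤ K ∧ ∀ R : ℝ, 1 ≤ R → ∀ H : ℕ, 1 ≤ H → ∀ (q : ℕ) (a : ℤ),
    Squarefree q → (q : ℤ) ∣ a → (H : ℝ) ≤ R * q → ∀ κ : Fin d → ℤ, Monotone κ →
    ∀ (k : Fin d) (s : ℤ), s ≠ 0 →
    (({M ∈ OT d H κ a | (∀ i, i < k → M.2 i i = 0) ∧ M.2 k k = s}.ncard : ℕ) : ℝ) ≤
      K * R ^ (d ^ 2) * (H : ℝ) ^ (d - 1 - (k : ℕ)) *
        (2 : ℝ) ^ (((d - 1 - (k : ℕ) : ℕ) : ℤ) * κ k + (∑ j, if k < j then κ j else 0) +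
          2 * Xk κ) := by
  refine ⟨6 ^ d * 15 ^ (d ^ 2), ?_, ?_⟩
  · exact one_le_mul_of_one_le_of_one_le (one_le_pow₀ (by norm_num)) (one_le_pow₀ (by norm_num))
  intro R hR H hH1 q a hq hqa hH κ hκ k s hs
  have hH0 : (0 : ℝ) < H := by exact_mod_cast hH1
  have hz : ∀ m : ℤ, (0 : ℝ) < (2 : ℝ) ^ m := fun m => zpow_pos (by norm_num) m
  have hq1 : 1 ≤ q := Nat.one_le_iff_ne_zero.2 hq.ne_zero
  set B : Fin d → Fin d → ℝ := fun i j => 2 * (H : ℝ) * (2 : ℝ) ^ (κ i + κ j) with hBdef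
  have hB : ∀ i j, 0 < B i j := fun i j => by
    have := hz (κ i + κ j)
    rw [hBdef]
    positivity
  set W : Set (Matrix (Fin d) (Fin d) ℤ × Matrix (Fin d) (Fin d) ℤ) :=
    {M ∈ OT d H κ a | (∀ i, i < k → M.2 i i = 0) ∧ M.2 k k = s} with hW
  rcases Set.eq_empty_or_nonempty W with hE | ⟨M₀, hM₀⟩
  · rw [hE, Set.ncard_empty, Nat.cast_zero]
    have h1 := hz (((d - 1 - (k : ℕ) : ℕ) : ℤ) * κ k + (∑ j, if k < j then κ j else 0) +
          2 * Xk κ)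
    positivity
  have hs2 : ∀ j, k ≤ j → |(s : ℝ)| < B k j := by
    intro j hj
    have h1 : |(s : ℝ)| < B k k := by
      have h2 := hM₀.1.2.1.2 k k
      rwa [hM₀.2.2] at h2
    refine h1.trans_le ?_
    rw [hBdef]
    refine mul_le_mul_of_nonneg_left ?_ (by positivity)
    exact zpow_le_zpow_right₀ (by norm_num) (by have := hκ hj; linarith)
  set P : Set (Matrix (Fin d) (Fin d) ℤ) := {S | S ∈ Box B ∧ NegSq (q : ℤ) S ∧
    (∀ i, i < k → S i i = 0) ∧ S k k = s} with hP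
  have hPf : P.Finite := (os_box_fin B).subset fun S hS => hS.1
  have hPc := pivot_count q hq k s hs B hB hs2
  set G : Set (Matrix (Fin d) (Fin d) ℤ) := Box fun i j : Fin d => (2 : ℝ) ^ (κ i + κ j) with hG
  have hGf : G.Finite := os_box_fin _
  have hsub : W ⊆ G ×ˢ P := by
    intro M hM
    exact ⟨hM.1.1, hM.1.2.1, os_neg hqa hM.1.2.2.1, hM.2.1, hM.2.2⟩
  have hle : (W.ncard : ℝ) ≤ (G.ncard : ℝ) * (P.ncard : ℝ) := by
    have h1 := Set.ncard_le_ncard hsub (hGf.prod hPf)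
    rw [Set.ncard_prod] at h1
    exact_mod_cast h1
  have h1 : (P.ncard : ℝ) ≤ ((5 * R) ^ (d ^ 2) * (2 : ℝ) ^ (Xk κ)) *
      ((6 * (H : ℝ)) ^ (d - 1 - (k : ℕ)) *
        (2 : ℝ) ^ (((d - 1 - (k : ℕ) : ℕ) : ℤ) * κ k + ∑ j, if k < j then κ j else 0)) := by
    refine hPc.trans ?_
    have h2 := os_fac (d := d) hR hq1 hH κ (fun i j => i ≤ j ∧ i ≠ k) (fun i j h => h.1)
    have h3 := os_row H κ k
    rw [← h3]
    refine mul_le_mul h2 le_rfl ?_ ?_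
    · refine Finset.prod_nonneg fun j _ => ?_
      split_ifs
      · have := hB k j
        linarith
      · exact zero_le_one
    · have := hz (Xk κ)
      positivity
  have h2 := os_boxG κ
  refine hle.trans ((mul_le_mul h2 h1 (Nat.cast_nonneg _) (by
    have := hz (Xk κ)
    positivity)).trans ?_)
  have h6 : (6 * (H : ℝ)) ^ (d - 1 - (k : ℕ)) ≤ 6 ^ d * (H : ℝ) ^ (d - 1 - (k : ℕ)) := by
    rw [mul_pow]
    refine mul_le_mul_of_nonneg_right ?_ (by positivity)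
    exact pow_le_pow_right₀ (by norm_num) (by omega)
  have h7 : (2 : ℝ) ^ (((d - 1 - (k : ℕ) : ℕ) : ℤ) * κ k + (∑ j, if k < j then κ j else 0) +
          2 * Xk κ) = (2 : ℝ) ^ (((d - 1 - (k : ℕ) : ℕ) : ℤ) * κ k + ∑ j, if k < j then κ j else 0) *
          ((2 : ℝ) ^ (Xk κ) * (2 : ℝ) ^ (Xk κ)) := by
    rw [zpow_add₀ (by norm_num : (2 : ℝ) ≠ 0) _ (2 * Xk κ), two_mul,
      zpow_add₀ (by norm_num : (2 : ℝ) ≠ 0) (Xk κ) (Xk κ)]
  rw [h7]
  set Z := (2 : ℝ) ^ (((d - 1 - (k : ℕ) : ℕ) : ℤ) * κ k + ∑ j, if k < j then κ j else 0) with hZ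
  set X := (2 : ℝ) ^ (Xk κ) with hX
  have hZ0 : 0 < Z := hz _
  have hX0 : 0 < X := hz _
  calc 3 ^ (d ^ 2) * X * ((5 * R) ^ (d ^ 2) * X * ((6 * (H : ℝ)) ^ (d - 1 - (k : ℕ)) * Z))
      ≤ 3 ^ (d ^ 2) * X * ((5 * R) ^ (d ^ 2) * X *
        ((6 ^ d * (H : ℝ) ^ (d - 1 - (k : ℕ))) * Z)) := by
        refine mul_le_mul_of_nonneg_left (mul_le_mul_of_nonneg_left
          (mul_le_mul_of_nonneg_right h6 hZ0.le) (by positivity)) (by positivity)
    _ = 6 ^ d * 15 ^ (d ^ 2) * R ^ (d ^ 2) * (H : ℝ) ^ (d - 1 - (k : ℕ)) * (Z * (X * X)) := by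
        rw [mul_pow 5 R, show (15 : ℝ) = 3 * 5 by norm_num, mul_pow 3 5]
        ring

theorem odd_inf (d : ℕ) : ∃ K : ℝ, 1 ≤ K ∧ ∀ R : ℝ, 1 ≤ R → ∀ H : ℕ, 1 ≤ H → ∀ (q : ℕ) (a : ℤ),
    Squarefree q → (q : ℤ) ∣ a → (H : ℝ) ≤ R * q → ∀ κ : Fin d → ℤ, Monotone κ →
    (({M ∈ OT d H κ a | ∀ i, M.2 i i = 0}.ncard : ℕ) : ℝ) ≤
      K * R ^ (d ^ 2) * (2 : ℝ) ^ (2 * Xk κ) := by
  refine ⟨15 ^ (d ^ 2), one_le_pow₀ (by norm_num), ?_⟩
  intro R hR H hH1 q a hq hqa hH κ hκ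
  have hH0 : (0 : ℝ) < H := by exact_mod_cast hH1
  have hz : ∀ m : ℤ, (0 : ℝ) < (2 : ℝ) ^ m := fun m => zpow_pos (by norm_num) m
  have hq1 : 1 ≤ q := Nat.one_le_iff_ne_zero.2 hq.ne_zero
  set B : Fin d → Fin d → ℝ := fun i j => 2 * (H : ℝ) * (2 : ℝ) ^ (κ i + κ j) with hBdef
  have hB : ∀ i j, 0 < B i j := fun i j => by
    have := hz (κ i + κ j)
    rw [hBdef]
    positivity
  set W : Set (Matrix (Fin d) (Fin d) ℤ × Matrix (Fin d) (Fin d) ℤ) :=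
    {M ∈ OT d H κ a | ∀ i, M.2 i i = 0} with hW
  set P : Set (Matrix (Fin d) (Fin d) ℤ) := {S | S ∈ Box B ∧ NegSq (q : ℤ) S ∧
    ∀ i, S i i = 0} with hP
  have hPf : P.Finite := (os_box_fin B).subset fun S hS => hS.1
  have hPc := pivot_inf q hq B hB
  set G : Set (Matrix (Fin d) (Fin d) ℤ) := Box fun i j : Fin d => (2 : ℝ) ^ (κ i + κ j) with hG
  have hGf : G.Finite := os_box_fin _
  have hsub : W ⊆ G ×ˢ P := by
    intro M hM
    exact ⟨hM.1.1, hM.1.2.1, os_neg hqa hM.1.2.2.1, hM.2⟩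
  have hle : (W.ncard : ℝ) ≤ (G.ncard : ℝ) * (P.ncard : ℝ) := by
    have h1 := Set.ncard_le_ncard hsub (hGf.prod hPf)
    rw [Set.ncard_prod] at h1
    exact_mod_cast h1
  have h1 : (P.ncard : ℝ) ≤ (5 * R) ^ (d ^ 2) * (2 : ℝ) ^ (Xk κ) :=
    hPc.trans (os_fac (d := d) hR hq1 hH κ (fun i j => i ≤ j) (fun i j h => h))
  have h2 := os_boxG κ
  refine hle.trans ((mul_le_mul h2 h1 (Nat.cast_nonneg _) (by
    have := hz (Xk κ)
    positivity)).trans (le_of_eq ?_))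
  rw [two_mul, zpow_add₀ (by norm_num : (2 : ℝ) ≠ 0), mul_pow 5 R,
    show (15 : ℝ) = 3 * 5 by norm_num, mul_pow 3 5]
  ring

end Pool.Agent.Helper32.DZ
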