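import Pool.Agent.Helper32.DZ.InjCount
import Pool.Agent.Helper32.DZ.OddSets
import Pool.Agent.Helper32.DZ.PenLem

set_option autoImplicit false

/-!
DZ-40 OddCount. The `f` of odd degree with given leading coefficient in one cell, counted with multiplicity.

PROOF: `inj_count` with `P = G`, `R = S`, `T = OT d H κ α` (`ot_finite`). `hinj`: `α • (U^t G U) = U^t (α • G) U`, so
`pen (α • (U^t G_a U)) (U^t S_a U) = pen (α • G_a) S_a = C c0 * pol a` (`pen_conj`, `ut_det`) with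
`c0 = -(-1)^((d+1)/2) α^(d-1) ≠ 0`; equal pairs give `C c0 * pol a = C c0 * pol b`, `pol a = pol b`, `a = b`. Membership:
symmetric, bounds from `CellO`, `negSq_conj`, `pg_conj` (`det U = 1`).
-/

open Polynomial Matrix

namespace Pool.Agent.Helper32.DZ

/-- all `a ∈ F` have leading coefficient `α` and the reduced pair `(G a, S a)` in the cell `κ` -/
def CellO (d H : ℕ) (κ : Fin d → ℤ) (α : ℤ) (F : Set (Fin (d + 1) → ℤ))
    (G S : (Fin (d + 1) → ℤ) → Matrix (Fin d) (Fin d) ℤ) : Prop :=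
  Monotone κ ∧ ∀ a ∈ F, PG (G a) (S a) ∧ NegSq α (S a) ∧
    pen (α • G a) (S a) = C (-(-1) ^ ((d + 1) / 2) * α ^ (d - 1)) * pol a ∧
    ∀ U ∈ Tr κ, ∀ i j, |(((Uᵀ * G a * U) i j : ℤ) : ℝ)| < (2 : ℝ) ^ (κ i + κ j) ∧
      |(((Uᵀ * S a * U) i j : ℤ) : ℝ)| < 2 * (H : ℝ) * (2 : ℝ) ^ (κ i + κ j)

theorem odd_count (d H : ℕ) (κ : Fin d → ℤ) (α : ℤ) (hα : α ≠ 0) (F : Set (Fin (d + 1) → ℤ))
    (hF : F.Finite) (G S : (Fin (d + 1) → ℤ) → Matrix (Fin d) (Fin d) ℤ)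
    (h : CellO d H κ α F G S) :
    (F.ncard : ℝ) * (2 : ℝ) ^ (Dk κ) ≤ (((OT d H κ α).ncard : ℕ) : ℝ) := by
  obtain ⟨hκ, h2⟩ := h
  have hC : (C (-(-1) ^ ((d + 1) / 2) * α ^ (d - 1)) : ℤ[X]) ≠ 0 := by
    rw [Ne, C_eq_zero]
    exact mul_ne_zero (neg_ne_zero.2 (pow_ne_zero _ (by norm_num))) (pow_ne_zero _ hα)
  have hpen : ∀ a, ∀ U ∈ Tr κ, pen (α • (Uᵀ * G a * U)) (Uᵀ * S a * U) = pen (α • G a) (S a) := by
    intro a U hU
    have e1 : α • (Uᵀ * G a * U) = Uᵀ * (α • G a) * U := by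
      rw [Matrix.mul_smul, Matrix.smul_mul]
    rw [e1, pen_conj, ut_det U hU.1, one_pow, C_1, one_mul]
  exact inj_count F hF κ hκ G S (fun a ha => (h2 a ha).1)
    (fun a ha b hb U hU V hV e1 e2 => by
      have h4 := hpen a U hU
      rw [e1, e2, hpen b V hV, (h2 a ha).2.2.1, (h2 b hb).2.2.1] at h4
      exact (pol_inj _ _ (mul_left_cancel₀ hC h4)).symm)
    (OT d H κ α) (ot_finite d H κ α)
    (fun a ha U hU => by
      have h4 := pg_conj (G a) (S a) U (h2 a ha).1 (Or.inl (ut_det U hU.1))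
      have h5 := (h2 a ha).2.2.2 U hU
      exact ⟨⟨h4.1, fun i j => (h5 i j).1⟩, ⟨h4.2.1, fun i j => (h5 i j).2⟩,
        negSq_conj _ _ _ (h2 a ha).2.1, h4⟩)

end Pool.Agent.Helper32.DZ
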