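import Pool.Agent.Helper32.DZ.Tri
import Pool.Agent.Helper32.DZ.PenLem

set_option autoImplicit false

/-!
DZ-16 PencilEven. An integral point on `y^2 = f(x)`, `deg f = n` even, gives a symmetric integral pencil whose
leading matrix `A` has adjugate `± u u^t` modulo `det A`.

PROOF. `n = 2 m`, `m ≥ 1`; `x₀`, `y₀` the point, `b k` the coefficients of `g(X) = f(X + x₀) = ∑_(k ≤ n) b k X^k`
(`b k = 0` for `k > n`; e.g. `b k = ((pol a).comp (X + C x₀)).coeff k`), `b 0 = f(x₀) = y₀^2`, `b n = a_n`. Put `c = y₀`,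
`A = tri (dA b) oA n`, `B1 = tri (dB b) (oB c) n` (integral, symmetric). By `tri_pencil` over `S = ℤ[X]`, `x = X`:
`det (X A + B1) = (-1)^m g(X)`. Apply the ring endomorphism `X ↦ X - x₀` (`Polynomial.compRingHom`, or `aeval`):
`det ((X - x₀) A + B1) = (-1)^m f(X)`, and `(X - x₀) A + B1 = X A - B` with `B = x₀ A - B1`.
`det A = (-1)^m a_n` by `tri_A`. ADJUGATE: `u = e_last` (`Pi.single`); let `M = adj A`, `t = det A`. The last row and
column of `A` are zero except the corner `-b n = -a_n` (`oA (n-2) = 0`, `n` even; for `n = 2`: `oA 0 = 0`).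
From `A * M = t` (`Matrix.mul_adjugate`), last row: `-a_n M last j = t δ`: so `M last j = (-1)^(m-1) δ` (`a_n ≠ 0`,
`t = (-1)^m a_n`). For the rows `i < last`: `∑_(k<last) A i k M k j = t δ_ij`, and the block `A''` of the indices
`< last` is `tri (dA b) oA (n-1)` with determinant `± 1` (`tri_A'`), so multiplying by its adjugate
`M k j` is divisible by `t` for `k < last`. So `t ∣ M i j - (-1)^(m-1) u_i u_j` for all `i, j`
(for `i < last`, `u_i = 0`; for `i = last`, equality). `n / 2 = m`, `n / 2 - 1 = m - 1`.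
-/

open Polynomial Matrix

namespace Pool.Agent.Helper32.DZ

private theorem adjSq_block {r : ℕ} (A : Matrix (Fin (r + 1)) (Fin (r + 1)) ℤ) (δ α : ℤ)
    (h1 : ∀ k : Fin r, A (Fin.last r) k.castSucc = 0)
    (h2 : ∀ k : Fin r, A k.castSucc (Fin.last r) = 0)
    (h3 : A (Fin.last r) (Fin.last r) = α) (hα : α ≠ 0) (hδ : δ * δ = 1)
    (hd : (A.submatrix Fin.castSucc Fin.castSucc).det = δ) (hdet : A.det = δ * α) :
    AdjSq δ A := by
  have hM : A * A.adjugate = A.det • (1 : Matrix _ _ ℤ) := Matrix.mul_adjugate A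
  have hrow : ∀ i j, ∑ k, A i k * A.adjugate k j = if i = j then A.det else 0 := by
    intro i j
    have h4 := congrFun (congrFun hM i) j
    rw [Matrix.mul_apply] at h4
    rw [h4, Matrix.smul_apply, Matrix.one_apply]
    split_ifs <;> simp
  have hlast : ∀ j, A.adjugate (Fin.last r) j = if Fin.last r = j then δ else 0 := by
    intro j
    have h4 := hrow (Fin.last r) j
    rw [Fin.sum_univ_castSucc, Finset.sum_eq_zero, zero_add, h3, hdet] at h4
    · split_ifs at h4 ⊢ with hj
      · apply mul_left_cancel₀ hα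
        rw [h4]
        ring
      · exact (mul_eq_zero.1 h4).resolve_left hα
    · intro k _
      rw [h1, zero_mul]
  refine ⟨Pi.single (Fin.last r) 1, ?_⟩
  intro i j
  refine Fin.lastCases ?_ ?_ i
  · rw [hlast j, Pi.single_eq_same, one_mul]
    by_cases hj : Fin.last r = j
    · subst hj
      simp
    · rw [if_neg hj, Pi.single_eq_of_ne (Ne.symm hj)]
      simp
  · intro i'
    have hz : (Pi.single (Fin.last r) (1 : ℤ) : Fin (r + 1) → ℤ) i'.castSucc = 0 :=
      Pi.single_eq_of_ne (Fin.castSucc_lt_last i').ne 1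
    rw [hz, zero_mul, mul_zero, sub_zero]
    let A2 : Matrix (Fin r) (Fin r) ℤ := A.submatrix Fin.castSucc Fin.castSucc
    let v : Fin r → ℤ := fun k => A.adjugate k.castSucc j
    let w : Fin r → ℤ := fun k => if k.castSucc = j then A.det else 0
    have hw : A2.mulVec v = w := by
      funext k
      have h4 := hrow k.castSucc j
      rw [Fin.sum_univ_castSucc, h2, zero_mul, add_zero] at h4
      simp only [Matrix.mulVec, dotProduct, A2, v, w, Matrix.submatrix_apply]
      exact h4
    have hv : δ * v i' = ∑ k, A2.adjugate i' k * w k := by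
      have h4 : A2.adjugate.mulVec (A2.mulVec v) = δ • v := by
        rw [Matrix.mulVec_mulVec, Matrix.adjugate_mul, Matrix.smul_mulVec, Matrix.one_mulVec]
        congr 1
      rw [hw] at h4
      have h5 := congrFun h4 i'
      rw [Pi.smul_apply, smul_eq_mul] at h5
      rw [← h5]
      rfl
    have hdv : A.det ∣ δ * v i' := by
      rw [hv]
      refine Finset.dvd_sum ?_
      intro k _
      refine Dvd.dvd.mul_left ?_ _
      simp only [w]
      split_ifs
      · exact dvd_rfl
      · exact dvd_zero _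
    have h6 : A.adjugate i'.castSucc j = δ * (δ * v i') := by
      rw [← mul_assoc, hδ, one_mul]
    rw [h6]
    exact Dvd.dvd.mul_left hdv _

private theorem tri_symm {S : Type} [Zero S] (d o : ℕ → S) (n : ℕ) : (tri d o n).IsSymm := by
  ext i j
  rw [Matrix.transpose_apply]
  simp only [tri, Matrix.of_apply]
  split_ifs <;> first | rfl | (exfalso; omega) | (congr 1)

private theorem tri_sub {S : Type} [Zero S] (d o : ℕ → S) (r : ℕ) :
    (tri d o (r + 1)).submatrix Fin.castSucc Fin.castSucc = tri d o r := by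
  ext i j
  simp only [tri, Matrix.of_apply, Matrix.submatrix_apply, Fin.val_castSucc]

private theorem tri_C (b : ℕ → ℤ) (c : ℤ) (n : ℕ) :
    tri (fun k => (X : ℤ[X]) * dA (fun k => C (b k)) k + dB (fun k => C (b k)) k)
      (fun k => (X : ℤ[X]) * oA k + oB (C c) k) n =
      (X : ℤ[X]) • (tri (dA b) (oA (S := ℤ)) n).map (C : ℤ → ℤ[X]) +
        (tri (dB b) (oB c) n).map (C : ℤ → ℤ[X]) := by
  have h1 : ∀ k, dA (fun k => (C (b k) : ℤ[X])) k = C (dA b k) := by
    intro k
    unfold dA
    split_ifs <;> simp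
  have h2 : ∀ k, dB (fun k => (C (b k) : ℤ[X])) k = C (dB b k) := by
    intro k
    unfold dB
    split_ifs <;> simp
  have h3 : ∀ k, (oA k : ℤ[X]) = C (oA k) := by
    intro k
    unfold oA
    split_ifs <;> simp
  have h4 : ∀ k, oB (C c : ℤ[X]) k = C (oB c k) := by
    intro k
    unfold oB
    split_ifs <;> simp
  ext1 i j
  rw [Matrix.add_apply, Matrix.smul_apply, Matrix.map_apply, Matrix.map_apply]
  simp only [tri, Matrix.of_apply, smul_eq_mul]
  split_ifs
  · rw [h1, h2]
  · rw [h3, h4]
  · rw [h3, h4]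
  · simp

theorem pencil_even (n : ℕ) (hn : Even n) (h0 : 0 < n) (a : Fin (n + 1) → ℤ)
    (hl : a (Fin.last n) ≠ 0) (h : HasPt a) :
    ∃ A B : Matrix (Fin n) (Fin n) ℤ, A.IsSymm ∧ B.IsSymm ∧
      pen A B = C ((-1) ^ (n / 2)) * pol a ∧ A.det = (-1) ^ (n / 2) * a (Fin.last n) ∧
      AdjSq ((-1) ^ (n / 2 - 1)) A := by
  obtain ⟨r, rfl⟩ : ∃ r, n = r + 1 := ⟨n - 1, by omega⟩
  obtain ⟨m, hm'⟩ := hn
  have hm : 2 * m = r + 1 := by omega
  have hm1 : 1 ≤ m := by omega
  have hm2 : (r + 1) / 2 = m := by omega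
  rw [hm2]
  obtain ⟨x₀, y₀, hxy⟩ := h
  have hlast : (pol a).coeff (r + 1) = a (Fin.last (r + 1)) := by
    unfold pol
    rw [Polynomial.finsetSum_coeff, Finset.sum_eq_single (Fin.last (r + 1))]
    · rw [Polynomial.coeff_C_mul_X_pow, if_pos (by simp)]
    · intro i _ hi
      rw [Polynomial.coeff_C_mul_X_pow, if_neg]
      intro h1
      exact hi (Fin.ext (by simpa using h1.symm))
    · intro h1
      exact absurd (Finset.mem_univ _) h1
  have hdeg_le : (pol a).natDegree ≤ r + 1 := by
    unfold pol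
    refine Polynomial.natDegree_sum_le_of_forall_le _ _ ?_
    intro i _
    exact (Polynomial.natDegree_C_mul_X_pow_le _ _).trans (by have := i.isLt; omega)
  have hdeg : (pol a).natDegree = r + 1 := by
    refine le_antisymm hdeg_le ?_
    refine Polynomial.le_natDegree_of_ne_zero ?_
    rw [hlast]
    exact hl
  set g : ℤ[X] := (pol a).comp (X + C x₀) with hg
  have hgdeg : g.natDegree = r + 1 := by
    rw [hg, Polynomial.natDegree_comp, Polynomial.natDegree_X_add_C, mul_one, hdeg]
  have hglead : g.coeff (r + 1) = a (Fin.last (r + 1)) := by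
    have h1 : g.leadingCoeff = (pol a).leadingCoeff := by
      rw [hg, Polynomial.leadingCoeff_comp (by rw [Polynomial.natDegree_X_add_C]; norm_num),
        Polynomial.leadingCoeff_X_add_C, one_pow, mul_one]
    unfold Polynomial.leadingCoeff at h1
    rw [hgdeg, hdeg, hlast] at h1
    exact h1
  have hg0 : g.coeff 0 = y₀ ^ 2 := by
    rw [Polynomial.coeff_zero_eq_eval_zero, hg, Polynomial.eval_comp, hxy]
    unfold pol
    simp [Polynomial.eval_finsetSum]
  have hgsum : (C y₀ : ℤ[X]) ^ 2 + ∑ i ∈ Finset.range (r + 1), C (g.coeff (i + 1)) * X ^ (i + 1) = g := by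
    have h1 := g.as_sum_range_C_mul_X_pow' (n := r + 2) (by omega)
    rw [Finset.sum_range_succ'] at h1
    conv_rhs => rw [h1]
    rw [add_comm, hg0]
    simp
  let b : ℕ → ℤ := fun k => g.coeff k
  have hpen := tri_pencil (fun k => (C (b k) : ℤ[X])) (C y₀) X m hm1
  have hA := tri_A b m hm1
  have hA' := tri_A' b m hm1
  have hm3 : 2 * m - 1 = r := by omega
  rw [hm3] at hA'
  rw [hm] at hpen hA
  rw [tri_C, hgsum] at hpen
  set A : Matrix (Fin (r + 1)) (Fin (r + 1)) ℤ := tri (dA b) (oA (S := ℤ)) (r + 1) with hAdef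
  set B1 : Matrix (Fin (r + 1)) (Fin (r + 1)) ℤ := tri (dB b) (oB y₀) (r + 1) with hB1def
  have hbl : b (r + 1) = a (Fin.last (r + 1)) := hglead
  have hAs : A.IsSymm := tri_symm _ _ _
  have hBs : B1.IsSymm := tri_symm _ _ _
  refine ⟨A, x₀ • A - B1, hAs, (hAs.smul x₀).sub hBs, ?_, ?_, ?_⟩
  · let ψ : ℤ[X] →+* ℤ[X] := Polynomial.compRingHom (X - C x₀)
    have hψX : ψ X = X - C x₀ := by
      simp [ψ]
    have hψC : ∀ z : ℤ, ψ (C z) = C z := by
      intro z
      simp [ψ]
    have hψg : ψ g = pol a := by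
      simp only [ψ, Polynomial.coe_compRingHom_apply, hg]
      rw [Polynomial.comp_assoc]
      simp
    have h1 := congrArg ψ hpen
    rw [RingHom.map_det, map_mul, map_pow, map_neg, map_one, hψg] at h1
    rw [map_pow, map_neg, map_one, ← h1]
    unfold pen
    congr 1
    ext1 i j
    rw [RingHom.mapMatrix_apply, Matrix.map_apply, Matrix.add_apply, Matrix.smul_apply,
      Matrix.map_apply, Matrix.map_apply, Matrix.sub_apply, Matrix.smul_apply, Matrix.map_apply,
      Matrix.map_apply, Matrix.sub_apply, Matrix.smul_apply]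
    simp only [smul_eq_mul, map_add, map_mul, hψX, hψC, map_sub]
    ring
  · rw [hA, hbl]
  · have hr1 : r % 2 = 1 := by omega
    have hk : ∀ k : ℕ, k + 1 = r → (oA k : ℤ) = 0 := by
      intro k hk1
      unfold oA
      rw [if_neg (by omega)]
    refine adjSq_block A _ (-(a (Fin.last (r + 1)))) ?_ ?_ ?_ (neg_ne_zero.2 hl) ?_ ?_ ?_
    · intro k
      have hkr := k.isLt
      simp only [hAdef, tri, Matrix.of_apply, Fin.val_last, Fin.val_castSucc]
      rw [if_neg (by omega), if_neg (by omega)]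
      split_ifs with h5
      · exact hk _ h5
      · rfl
    · intro k
      have hkr := k.isLt
      simp only [hAdef, tri, Matrix.of_apply, Fin.val_last, Fin.val_castSucc]
      rw [if_neg (by omega)]
      split_ifs with h5 h6
      · exact hk _ h5
      · omega
      · rfl
    · simp only [hAdef, tri, Matrix.of_apply, Fin.val_last, if_true]
      unfold dA
      rw [if_neg (by omega), if_pos hr1, hbl]
    · rw [← mul_pow]
      norm_num
    · rw [hAdef, tri_sub]
      exact hA'
    · rw [hA, hbl]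
      obtain ⟨k, rfl⟩ : ∃ k, m = k + 1 := ⟨m - 1, by omega⟩
      rw [Nat.add_sub_cancel, pow_succ]
      ring

end Pool.Agent.Helper32.DZ
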