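import Pool.Agent.Helper32.DZ.Tri
import Pool.Agent.Helper32.DZ.PenLem

set_option autoImplicit false

/-!
DZ-17 PencilOdd. An integral point on `y^2 = f(x)`, `deg f = d` odd, gives a unimodular symmetric `G` and a symmetric
`S = - u u^t` modulo the leading coefficient, with `det (a_d X G - S) = ± a_d^(d-1) f(X)`.

PROOF. `d + 1 = 2 m`, `m ≥ 2`; `x₀`, `y₀`, `b k` as in DZ-16 (`b k` the coefficients of `f(X + x₀)`, `b d = a_d =: t`,
`b (d+1) = 0`), `c = y₀`. `tri_pencil` (size `2m = d + 1`, over `ℤ[X]`, `x = X`):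
`det M = (-1)^m f(X + x₀)` where `M = X A + B1` has size `d + 1`. The last diagonal entry of `M` is
`-(b (d+1) X + b d) = -t`; the last off-diagonal entry (index `d - 1`, even, `≥ 2`) is `1`. So
`M = [[N, v],[v^t, -t]]` with `v = e_(d-1)` the last unit vector of `Fin d`, `N = X G + B2`,
`G = tri (dA b) oA d`, `B2 = tri (dB b) (oB c) d`. `det G = (-1)^(m-1)` by `tri_A'` (`2m - 1 = d`),
`m - 1 = (d-1)/2`. Row operations (row `i` times `t` plus `v_i` times the last row) or
`Matrix.det_fromBlocks₂₂`-type Schur complement multiplied out: `t^d det M = - t det (t N + v v^t)`; since `t ≠ 0`: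
`det (t N + v v^t) = - t^(d-1) det M = -(-1)^m t^(d-1) f(X + x₀)`.
Put `S1 = -(t B2 + v v^t)`: `t X G - S1 = t N + v v^t`. Substitute `X - x₀` for `X`: with `S = S1 + t x₀ G`:
`det (X (t G) - S) = -(-1)^m t^(d-1) f(X)`, `m = (d+1)/2`. `S + v v^t = t (x₀ G - B2)`: `NegSq t S` with `u = v`.
(`Fin (d+1)` versus `Fin d ⊕ Fin 1`: `finSumFinEquiv`, `Matrix.det_reindex_self`; or prove the identity
`t^d det M = - t det (...)` by `Matrix.det_mul` with the block triangular matrix.)
-/

open Polynomial Matrix

namespace Pool.Agent.Helper32.DZ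

private lemma block_det {R : Type} [CommRing R] (n : ℕ) (M : Matrix (Fin (n + 1)) (Fin (n + 1)) R)
    (N : Matrix (Fin n) (Fin n) R) (v : Fin n → R) (t : R)
    (hN : ∀ i j : Fin n, M i.castSucc j.castSucc = N i j)
    (hv : ∀ i : Fin n, M i.castSucc (Fin.last n) = v i)
    (hv' : ∀ j : Fin n, M (Fin.last n) j.castSucc = v j)
    (hl : M (Fin.last n) (Fin.last n) = -t) :
    t ^ n * M.det = -t * (Matrix.of fun i j => t * N i j + v i * v j).det := by
  classical
  set col : Matrix (Fin n) (Fin 1) R := Matrix.of fun i _ => v i with hcol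
  set row : Matrix (Fin 1) (Fin n) R := Matrix.of fun _ j => v j with hrow
  set cor : Matrix (Fin 1) (Fin 1) R := Matrix.of fun _ _ => -t with hcor
  have h1 : M.submatrix (finSumFinEquiv : Fin n ⊕ Fin 1 ≃ Fin (n + 1))
      (finSumFinEquiv : Fin n ⊕ Fin 1 ≃ Fin (n + 1)) = fromBlocks N col row cor := by
    ext i j
    rcases i with i | i <;> rcases j with j | j
    · exact hN i j
    · have : (finSumFinEquiv (Sum.inr j : Fin n ⊕ Fin 1) : Fin (n + 1)) = Fin.last n := by
        apply Fin.ext
        simp [Fin.last]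
      simp only [submatrix_apply, this, fromBlocks_apply₁₂]
      exact hv i
    · have : (finSumFinEquiv (Sum.inr i : Fin n ⊕ Fin 1) : Fin (n + 1)) = Fin.last n := by
        apply Fin.ext
        simp [Fin.last]
      simp only [submatrix_apply, this, fromBlocks_apply₂₁]
      exact hv' j
    · have h1 : (finSumFinEquiv (Sum.inr i : Fin n ⊕ Fin 1) : Fin (n + 1)) = Fin.last n := by
        apply Fin.ext
        simp [Fin.last]
      have h2 : (finSumFinEquiv (Sum.inr j : Fin n ⊕ Fin 1) : Fin (n + 1)) = Fin.last n := by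
        apply Fin.ext
        simp [Fin.last]
      simp only [submatrix_apply, h1, h2, fromBlocks_apply₂₂]
      exact hl
  have h2 : M.det = (fromBlocks N col row cor).det := by
    rw [← h1, Matrix.det_submatrix_equiv_self]
  have h3 : (fromBlocks (t • (1 : Matrix (Fin n) (Fin n) R)) col 0 (1 : Matrix (Fin 1) (Fin 1) R)).det
      = t ^ n := by
    rw [Matrix.det_fromBlocks_zero₂₁]
    simp
  have h4 : fromBlocks (t • (1 : Matrix (Fin n) (Fin n) R)) col 0 (1 : Matrix (Fin 1) (Fin 1) R) *
      fromBlocks N col row cor =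
      fromBlocks (Matrix.of fun i j => t * N i j + v i * v j) 0 row cor := by
    rw [fromBlocks_multiply]
    congr 1
    · ext i j
      simp [Matrix.mul_apply, hcol, hrow]
    · ext i j
      simp [Matrix.mul_apply, hcol, hcor]
      ring
    · simp
    · simp
  have h5 := congrArg Matrix.det h4
  rw [Matrix.det_mul, h3, ← h2, Matrix.det_fromBlocks_zero₁₂] at h5
  rw [h5]
  have : cor.det = -t := by simp [hcor]
  rw [this]
  ring

private lemma tri_symm (d o : ℕ → ℤ) (n : ℕ) : (tri d o n).IsSymm := by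
  ext i j
  simp only [tri, Matrix.transpose_apply, Matrix.of_apply]
  by_cases h1 : (i : ℕ) = j
  · have : i = j := Fin.ext h1
    subst this
    simp
  · have h1' : ¬ (j : ℕ) = i := fun h => h1 h.symm
    rw [if_neg h1, if_neg h1']
    by_cases h2 : (i : ℕ) + 1 = j
    · have h2' : ¬ (j : ℕ) + 1 = i := by omega
      rw [if_pos h2, if_neg h2', if_pos h2]
    · by_cases h3 : (j : ℕ) + 1 = i
      · simp [h2, h3]
      · simp [h2, h3]

theorem pencil_odd (d : ℕ) (hd : Odd d) (h3 : 3 ≤ d) (a : Fin (d + 1) → ℤ)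
    (hl : a (Fin.last d) ≠ 0) (h : HasPt a) :
    ∃ G S : Matrix (Fin d) (Fin d) ℤ, G.IsSymm ∧ S.IsSymm ∧ G.det = (-1) ^ ((d - 1) / 2) ∧
      NegSq (a (Fin.last d)) S ∧
      pen (a (Fin.last d) • G) S =
        C (-(-1) ^ ((d + 1) / 2) * (a (Fin.last d)) ^ (d - 1)) * pol a := by
  classical
  obtain ⟨k, rfl⟩ := hd
  obtain ⟨x0, y0, hxy⟩ := h
  have hk : 1 ≤ k := by omega
  set t := a (Fin.last (2 * k + 1)) with ht
  set f : ℤ[X] := (pol a).comp (X + C x0) with hf
  set b : ℕ → ℤ := fun i => f.coeff i with hb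
  -- degree facts
  have hdeg : (pol a).natDegree ≤ 2 * k + 1 := by
    unfold pol
    apply natDegree_sum_le_of_forall_le
    intro i _
    exact (natDegree_C_mul_X_pow_le _ _).trans (by have := i.2; omega)
  have hcoef : (pol a).coeff (2 * k + 1) = t := by
    unfold pol
    rw [finsetSum_coeff, Finset.sum_eq_single (Fin.last (2 * k + 1))]
    · simp [ht]
    · intro i _ hi
      rw [coeff_C_mul_X_pow, if_neg]
      intro h
      apply hi
      apply Fin.ext
      simpa using h.symm
    · simp
  have hnd : (pol a).natDegree = 2 * k + 1 :=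
    natDegree_eq_of_le_of_coeff_ne_zero hdeg (by rw [hcoef]; exact hl)
  have hXd : (X + C x0 : ℤ[X]).natDegree = 1 := natDegree_X_add_C x0
  have hfd : f.natDegree = 2 * k + 1 := by
    rw [hf, natDegree_comp, hXd, hnd, mul_one]
  have hbt : b (2 * k + 1) = t := by
    have h1 : f.leadingCoeff = t := by
      rw [hf, leadingCoeff_comp (by rw [hXd]; norm_num)]
      rw [leadingCoeff_X_add_C, one_pow, mul_one, leadingCoeff, hnd, hcoef]
    rw [← h1, leadingCoeff, hfd]
  have hb0 : b 0 = y0 ^ 2 := by
    show f.coeff 0 = _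
    rw [coeff_zero_eq_eval_zero, hf, eval_comp]
    simp only [eval_add, eval_X, eval_C, zero_add]
    rw [hxy]
    unfold pol
    rw [eval_finsetSum]
    simp
  have hbbig : b (2 * k + 2) = 0 := by
    apply coeff_eq_zero_of_natDegree_lt
    rw [hfd]; omega
  set G : Matrix (Fin (2 * k + 1)) (Fin (2 * k + 1)) ℤ := tri (dA b) oA (2 * k + 1) with hG
  set B2 : Matrix (Fin (2 * k + 1)) (Fin (2 * k + 1)) ℤ := tri (dB b) (oB y0) (2 * k + 1) with hB2
  set v : Fin (2 * k + 1) → ℤ := fun i => if (i : ℕ) = 2 * k then 1 else 0 with hv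
  have hGs : G.IsSymm := tri_symm _ _ _
  have hBs : B2.IsSymm := tri_symm _ _ _
  have hGd : G.det = (-1) ^ k := by
    have h1 := tri_A' (S := ℤ) b (k + 1) (by omega)
    have e : 2 * (k + 1) - 1 = 2 * k + 1 := by omega
    rw [e] at h1
    simpa using h1
  set S : Matrix (Fin (2 * k + 1)) (Fin (2 * k + 1)) ℤ :=
    Matrix.of fun i j => t * x0 * G i j - t * B2 i j - v i * v j with hS
  have hSs : S.IsSymm := by
    ext i j
    simp only [hS, Matrix.transpose_apply, Matrix.of_apply]
    rw [hGs.apply, hBs.apply]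
    ring
  refine ⟨G, S, hGs, hSs, ?_, ⟨v, ?_⟩, ?_⟩
  · rw [hGd]
    congr 1
    omega
  · intro i j
    refine ⟨x0 * G i j - B2 i j, ?_⟩
    simp only [hS, Matrix.of_apply]
    ring
  -- the determinant
  set b' : ℕ → ℤ[X] := fun i => C (b i) with hb'
  set M : Matrix (Fin (2 * k + 1 + 1)) (Fin (2 * k + 1 + 1)) ℤ[X] :=
    tri (fun i => X * dA b' i + dB b' i) (fun i => X * oA i + oB (C y0) i) (2 * k + 1 + 1) with hM
  have hdet : M.det = (-1) ^ (k + 1) * f := by
    have h1 := tri_pencil (S := ℤ[X]) b' (C y0) X (k + 1) (by omega)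
    have h2 : (C y0 : ℤ[X]) ^ 2 + ∑ i ∈ Finset.range (2 * (k + 1)), b' (i + 1) * X ^ (i + 1) = f := by
      have h3 : f = ∑ i ∈ Finset.range (2 * (k + 1) + 1), C (f.coeff i) * X ^ i := by
        conv_lhs => rw [f.as_sum_range' (2 * (k + 1) + 1) (by rw [hfd]; omega)]
        apply Finset.sum_congr rfl
        intro i _
        rw [C_mul_X_pow_eq_monomial]
      rw [h3, Finset.sum_range_succ']
      simp only [pow_zero, mul_one]
      rw [add_comm]
      congr 1
      rw [← C_pow, ← hb0]
    rw [h2] at h1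
    exact h1
  set N : Matrix (Fin (2 * k + 1)) (Fin (2 * k + 1)) ℤ[X] :=
    tri (fun i => X * dA b' i + dB b' i) (fun i => X * oA i + oB (C y0) i) (2 * k + 1) with hN
  have hdA : ∀ i, dA b' i = C (dA b i) := by
    intro i; unfold dA; split_ifs <;> simp [hb']
  have hdB : ∀ i, dB b' i = C (dB b i) := by
    intro i; unfold dB; split_ifs <;> simp [hb']
  have hoA : ∀ i, (oA i : ℤ[X]) = C (oA i) := by
    intro i; unfold oA; split_ifs <;> simp
  have hoB : ∀ i, oB (C y0 : ℤ[X]) i = C (oB y0 i) := by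
    intro i; unfold oB; split_ifs <;> simp
  have hNij : ∀ i j, N i j = X * C (G i j) + C (B2 i j) := by
    intro i j
    simp only [hN, hG, hB2, tri, Matrix.of_apply, hdA, hdB, hoA, hoB]
    split_ifs <;> simp
  have hblock := block_det (2 * k + 1) M N (fun i => C (v i)) (C t) ?_ ?_ ?_ ?_
  · -- conclude
    have htC : (C t : ℤ[X]) ≠ 0 := by
      rw [Ne, C_eq_zero]; exact hl
    have hQ : (Matrix.of fun i j => C t * N i j + C (v i) * C (v j)).det =
        -(C t) ^ (2 * k) * M.det := by
      have h1 : C t * ((Matrix.of fun i j => C t * N i j + C (v i) * C (v j)).det +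
          (C t) ^ (2 * k) * M.det) = 0 := by
        have h2 : (C t : ℤ[X]) ^ (2 * k + 1) = C t * C t ^ (2 * k) := by ring
        rw [h2] at hblock
        linear_combination hblock
      rcases mul_eq_zero.mp h1 with h2 | h2
      · exact absurd h2 htC
      · linear_combination h2
    set φ : ℤ[X] →+* ℤ[X] := compRingHom (X - C x0) with hφ
    have hpen : pen (t • G) S =
        φ ((Matrix.of fun i j => C t * N i j + C (v i) * C (v j)).det) := by
      rw [RingHom.map_det]
      unfold pen
      congr 1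
      ext1 i j
      simp only [Matrix.sub_apply, Matrix.smul_apply, Matrix.map_apply, RingHom.mapMatrix_apply,
        Matrix.of_apply, hNij, hS, smul_eq_mul, hφ, coe_compRingHom_apply]
      simp only [mul_comp, add_comp, C_comp, X_comp, C_mul, C_sub, C_add]
      ring
    rw [hpen, hQ, hdet, hφ, coe_compRingHom_apply]
    have hfc : f.comp (X - C x0) = pol a := by
      rw [hf, comp_assoc]
      simp
    simp only [mul_comp, neg_comp, pow_comp, C_comp, one_comp, hfc]
    have e1 : (2 * k + 1 + 1) / 2 = k + 1 := by omega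
    have e2 : 2 * k + 1 - 1 = 2 * k := by omega
    rw [e1, e2]
    simp only [C_mul, C_neg, C_pow, C_1]
    ring
  · intro i j
    simp [hM, hN, tri]
  · intro i
    have hi := i.2
    simp only [hM, tri, Matrix.of_apply, hv, Fin.val_castSucc, Fin.val_last]
    rw [if_neg (by omega)]
    by_cases h1 : (i : ℕ) = 2 * k
    · rw [if_pos (by omega), if_pos h1, h1]
      have e1 : (2 * k) % 2 = 0 := by omega
      have e2 : ¬ (2 * k = 0) := by omega
      simp [oA, oB, e1, e2]
    · rw [if_neg (by omega), if_neg (by omega), if_neg h1]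
      simp
  · intro j
    have hj := j.2
    simp only [hM, tri, Matrix.of_apply, hv, Fin.val_castSucc, Fin.val_last]
    rw [if_neg (by omega), if_neg (by omega)]
    by_cases h1 : (j : ℕ) = 2 * k
    · rw [if_pos (by omega), if_pos h1, h1]
      have e1 : (2 * k) % 2 = 0 := by omega
      have e2 : ¬ (2 * k = 0) := by omega
      simp [oA, oB, e1, e2]
    · rw [if_neg (by omega), if_neg h1]
      simp
  · simp only [hM, tri, Matrix.of_apply, Fin.val_last, if_true]
    have e1 : (2 * k + 1) % 2 = 1 := by omega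
    have e2 : ¬ (2 * k + 1 = 0) := by omega
    simp only [dA, dB, e1, e2, if_false, if_true, hb']
    rw [hbt]
    have e3 : 2 * k + 1 + 1 = 2 * k + 2 := rfl
    rw [e3, hbbig]
    simp

end Pool.Agent.Helper32.DZ
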