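import Mathlib

set_option autoImplicit false

/-!
DZ-55 UniCompl. A vector whose first and last entries are coprime is the last column of a matrix with determinant 1.

PROOF. `x v_0 + y v_last = 1`. `g`: column `0` is `(y, 0, ..., 0, -x)`, columns `0 < j < last` are unit vectors `e_j`, the last column
is `v` (size `n + 2`, so `0 ≠ last`). Determinant: for every middle index `i` subtract `v_i` times column `i` from the last column
(`Matrix.det_updateCol_add_smul_self` / or multiply on the right by the unitriangular matrix) to get the last column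
`(v_0, 0, ..., 0, v_last)`; expanding, the determinant is `y v_last + x v_0 = 1`. (Alternatively prove it by writing `g` as a product of
a unitriangular matrix and a matrix acting on the coordinates `0`, `last`; or by exhibiting an explicit inverse
and noting that `det g` is `± 1`, which is enough: only `det g = 1 ∨ det g = -1` is claimed.)
-/

open Matrix

namespace Pool.Agent.Helper32.DZ

theorem uni_compl {n : ℕ} (v : Fin (n + 2) → ℤ) (h : IsCoprime (v 0) (v (Fin.last (n + 1)))) :
    ∃ g : Matrix (Fin (n + 2)) (Fin (n + 2)) ℤ, (g.det = 1 ∨ g.det = -1) ∧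
      ∀ i, g i (Fin.last (n + 1)) = v i := by
  obtain ⟨x, y, hxy⟩ := h
  have hne : (0 : Fin (n + 2)) ≠ Fin.last (n + 1) := by
    intro h0
    have := congrArg Fin.val h0
    simp at this
  let U : Matrix (Fin (n + 2)) (Fin 2) ℤ := Matrix.of fun i j =>
    if j = 0 then (if i = 0 then y - 1 else if i = Fin.last (n + 1) then -x else 0)
    else v i - (if i = Fin.last (n + 1) then 1 else 0)
  let V : Matrix (Fin 2) (Fin (n + 2)) ℤ := Matrix.of fun j i =>
    if j = 0 then (if i = 0 then 1 else 0) else (if i = Fin.last (n + 1) then 1 else 0)
  have hV0 : ∀ b, (V * U) 0 b = U 0 b := by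
    intro b
    rw [Matrix.mul_apply, Finset.sum_eq_single (0 : Fin (n + 2))]
    · simp [V]
    · intro j _ hj
      simp [V, hj]
    · intro hj
      exact absurd (Finset.mem_univ _) hj
  have hV1 : ∀ b, (V * U) 1 b = U (Fin.last (n + 1)) b := by
    intro b
    rw [Matrix.mul_apply, Finset.sum_eq_single (Fin.last (n + 1))]
    · simp [V]
    · intro j _ hj
      simp [V, hj]
    · intro hj
      exact absurd (Finset.mem_univ _) hj
  refine ⟨1 + U * V, Or.inl ?_, ?_⟩
  · rw [Matrix.det_one_add_mul_comm, Matrix.det_fin_two]
    have h00 : (V * U) 0 0 = y - 1 := by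
      rw [hV0]
      simp [U]
    have h01 : (V * U) 0 1 = v 0 := by
      rw [hV0]
      simp [U, hne]
    have h10 : (V * U) 1 0 = -x := by
      rw [hV1]
      simp [U, hne.symm]
    have h11 : (V * U) 1 1 = v (Fin.last (n + 1)) - 1 := by
      rw [hV1]
      simp [U]
    simp only [Matrix.add_apply, h00, h01, h10, h11, Matrix.one_apply]
    simp
    linear_combination hxy
  · intro i
    rw [Matrix.add_apply, Matrix.mul_apply, Fin.sum_univ_two, Matrix.one_apply]
    simp [U, V, hne.symm]

end Pool.Agent.Helper32.DZ
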