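import Pool.Agent.Helper32.DZ.PencilS
import Pool.Agent.Helper32.DZ.Jac
import Pool.Agent.Helper32.DZ.UniCompl
import Pool.Agent.Helper32.DZ.Props

set_option autoImplicit false

/-!
DZ-56 PencilOddS. A rational point whose denominator is prime to the leading coefficient, odd degree `d`: the same pair
`(G, S)`, `G` unimodular, as for an integral point.

PROOF. `r, s, w, v` from `HasO`; `a'` = `a` followed by `0` (`Fin.snoc a 0`, degree `k + 1 = d + 1`), `c = w v`:
`∑ a'_i r^i s^(d+1-i) = s v^2 = c^2`. `pencil_s` with `k = d`: `A0, B0, σ, ρ`; write `l = Fin.last d`, `ε' = (-1)^((d+1)/2 - 1)`,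
`ε = (-1)^((d+1)/2) = -ε'`. `det A0 = 0`, `adj ll = ε' s^d = ε' w^(2d)`, `s adj 00 = ε' c^2 σ^(d+1)`, so
`adj 00 = ε' v^2 σ^(d+1)` (`s = w^2 ≠ 0`). By `jac` with `det = 0`: `adj i j * adj l l = adj i l * adj l j`, and `adj` is
symmetric. So `w^(2d) ∣ (adj i l)^2`, `w^d ∣ adj i l` (`Int.pow_dvd_pow_iff`, `(w^d)^2 ∣ x^2`); `ν i = adj i l / w^d`;
`adj i j = ε' ν i ν j`; `ν l = ε' w^d`; `ν 0 ^2 = v^2 σ^(d+1)`.
`ν 0`, `ν l` are coprime: a prime `p` dividing both divides `w`, hence `s`, and `v` or `σ`; not `σ` (`r σ - s ρ = 1`); not `v`: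
`v^2 = ∑ a_i r^i s^(d-i) = a_d r^d` modulo `s`, `p ∤ a_d` (`IsCoprime s a_d`), `p ∤ r`.
`uni_compl` (size `d + 1 ≥ 2`): `g` with last column `ν`, `det g = ± 1`. `A0 ν = 0` (`A0 * adj A0 = 0`, divide by `w^d`), so
`A = g^t A0 g` has last row and column `0`; `B = g^t B0 g`. `adj A l l = ε' ((adj g ν)_l)^2 = ε'` because
`adj g ν = adj g (g e_l) = det g e_l`. So with `G` = the block of `A` of the indices `< l` (size `d`): `det G = ε'`.
Write `B = [[B1, β],[β^t, b]]`. `pen A B = ε pol a` (`pen_conj`; `pol a' = pol a`), i.e. for the matrix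
`M = [[X G - B1, -β],[-β^t, -b]]`: `det M = ε f(X)`. Coefficient of `X^d`: `-b det G = ε a_d`, so `b = a_d` (the terms containing
entries of `β` have degree `≤ d - 1` in `X`). Row operations: `b^d det M = - b det (b (X G - B1) + β β^t)` (row `i` times `b` minus `β_i`
times the last row), so with `S = a_d B1 - β β^t`: `det (a_d X G - S) = - a_d^(d-1) ε f(X)` (`a_d ≠ 0`). `S + β β^t = a_d B1`:
`NegSq`. `G`, `S` symmetric. `(-1)^((d-1)/2) = ε'`.
(To get `b = a_d` without looking at coefficients: from `b^d det M = - b det(b(XG - B1) + β β^t)`; or reduce modulo: leading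
coefficients with `Matrix.det_eq_...`, `natDegree` estimates. If `b = 0` then the formula `det M = ...` has degree `< d`,
impossible.) Checked by computer for `d = 3, 5`.
-/

open Polynomial Matrix

namespace Pool.Agent.Helper32.DZ

private lemma po_block {R : Type} [CommRing R] (n : ℕ) (M : Matrix (Fin (n + 1)) (Fin (n + 1)) R)
    (N : Matrix (Fin n) (Fin n) R) (v : Fin n → R) (t : R)
    (hN : ∀ i j : Fin n, M i.castSucc j.castSucc = N i j)
    (hv : ∀ i : Fin n, M i.castSucc (Fin.last n) = v i)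
    (hv' : ∀ j : Fin n, M (Fin.last n) j.castSucc = v j)
    (hl : M (Fin.last n) (Fin.last n) = -t) :
    t ^ n * M.det = -t * (Matrix.of fun i j => t * N i j + v i * v j).det := by
  classical
  set col : Matrix (Fin n) (Fin 1) R := Matrix.of fun i _ => v i with hcol
  set row : Matrix (Fin 1) (Fin n) R := Matrix.of fun _ j => v j with hrow
  set cor : Matrix (Fin 1) (Fin 1) R := Matrix.of fun _ _ => -t with hcor
  have h1 : M.submatrix (finSumFinEquiv : Fin n ⊕ Fin 1 ≃ Fin (n + 1))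
      (finSumFinEquiv : Fin n ⊕ Fin 1 ≃ Fin (n + 1)) = fromBlocks N col row cor := by
    ext i j
    rcases i with i | i <;> rcases j with j | j
    · exact hN i j
    · have : (finSumFinEquiv (Sum.inr j : Fin n ⊕ Fin 1) : Fin (n + 1)) = Fin.last n := by
        apply Fin.ext
        simp [Fin.last]
      simp only [submatrix_apply, this, fromBlocks_apply₁₂]
      exact hv i
    · have : (finSumFinEquiv (Sum.inr i : Fin n ⊕ Fin 1) : Fin (n + 1)) = Fin.last n := by
        apply Fin.ext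
        simp [Fin.last]
      simp only [submatrix_apply, this, fromBlocks_apply₂₁]
      exact hv' j
    · have h1 : (finSumFinEquiv (Sum.inr i : Fin n ⊕ Fin 1) : Fin (n + 1)) = Fin.last n := by
        apply Fin.ext
        simp [Fin.last]
      have h2 : (finSumFinEquiv (Sum.inr j : Fin n ⊕ Fin 1) : Fin (n + 1)) = Fin.last n := by
        apply Fin.ext
        simp [Fin.last]
      simp only [submatrix_apply, h1, h2, fromBlocks_apply₂₂]
      exact hl
  have h2 : M.det = (fromBlocks N col row cor).det := by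
    rw [← h1, Matrix.det_submatrix_equiv_self]
  have h3 : (fromBlocks (t • (1 : Matrix (Fin n) (Fin n) R)) col 0 (1 : Matrix (Fin 1) (Fin 1) R)).det
      = t ^ n := by
    rw [Matrix.det_fromBlocks_zero₂₁]
    simp
  have h4 : fromBlocks (t • (1 : Matrix (Fin n) (Fin n) R)) col 0 (1 : Matrix (Fin 1) (Fin 1) R) *
      fromBlocks N col row cor =
      fromBlocks (Matrix.of fun i j => t * N i j + v i * v j) 0 row cor := by
    rw [fromBlocks_multiply]
    congr 1
    · ext i j
      simp [Matrix.mul_apply, hcol, hrow]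
    · ext i j
      simp [Matrix.mul_apply, hcol, hcor]
      ring
    · simp
    · simp
  have h5 := congrArg Matrix.det h4
  rw [Matrix.det_mul, h3, ← h2, Matrix.det_fromBlocks_zero₁₂] at h5
  rw [h5]
  have : cor.det = -t := by simp [hcor]
  rw [this]
  ring

/-- changing the last diagonal entry -/
private lemma po_lin {R : Type} [CommRing R] (n : ℕ) (M M' : Matrix (Fin (n + 1)) (Fin (n + 1)) R)
    (N : Matrix (Fin n) (Fin n) R)
    (hN : ∀ i j : Fin n, M i.castSucc j.castSucc = N i j)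
    (h : ∀ i j, ¬ (i = Fin.last n ∧ j = Fin.last n) → M i j = M' i j) :
    M.det - M'.det = (M (Fin.last n) (Fin.last n) - M' (Fin.last n) (Fin.last n)) * N.det := by
  rw [Matrix.det_succ_row M (Fin.last n), Matrix.det_succ_row M' (Fin.last n),
    ← Finset.sum_sub_distrib, Finset.sum_eq_single (Fin.last n)]
  · have h1 : M'.submatrix (Fin.last n).succAbove (Fin.last n).succAbove =
        M.submatrix (Fin.last n).succAbove (Fin.last n).succAbove := by
      ext i j
      rw [Matrix.submatrix_apply, Matrix.submatrix_apply]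
      exact (h _ _ (fun hc => Fin.succAbove_ne _ _ hc.1)).symm
    have h2 : M.submatrix (Fin.last n).succAbove (Fin.last n).succAbove = N := by
      ext i j
      rw [Matrix.submatrix_apply, Fin.succAbove_last, hN]
    have h3 : (-1 : R) ^ ((Fin.last n : ℕ) + (Fin.last n : ℕ)) = 1 := by
      rw [← two_mul, pow_mul, neg_one_sq, one_pow]
    rw [h1, h2, h3]
    ring
  · intro j _ hj
    have h1 : M'.submatrix (Fin.last n).succAbove j.succAbove =
        M.submatrix (Fin.last n).succAbove j.succAbove := by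
      ext i j'
      rw [Matrix.submatrix_apply, Matrix.submatrix_apply]
      exact (h _ _ (fun hc => Fin.succAbove_ne _ _ hc.1)).symm
    rw [h1, h (Fin.last n) j (fun hc => hj hc.2), sub_self]
  · intro hn
    exact absurd (Finset.mem_univ _) hn

/-- the leading coefficient of a pencil -/
private lemma po_coeff {n : ℕ} (P R : Matrix (Fin n) (Fin n) ℤ) :
    ((X : ℤ[X]) • P.map (C : ℤ → ℤ[X]) - R.map (C : ℤ → ℤ[X])).det.coeff n = P.det := by
  have h := Polynomial.coeff_det_X_add_C_card P (-R)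
  rw [Fintype.card_fin] at h
  rw [← h]
  congr 2
  ext1 i j
  simp [Matrix.map_apply, sub_eq_add_neg]

private lemma po_polc {n : ℕ} (a : Fin (n + 1) → ℤ) (i : Fin (n + 1)) :
    (pol a).coeff (i : ℕ) = a i := by
  unfold pol
  rw [Polynomial.finsetSum_coeff, Finset.sum_eq_single i]
  · rw [coeff_C_mul_X_pow, if_pos rfl]
  · intro k _ hk
    rw [coeff_C_mul_X_pow, if_neg]
    exact fun h => hk (Fin.ext h.symm)
  · intro h
    exact absurd (Finset.mem_univ i) h

private lemma po_snoc {n : ℕ} (a : Fin (n + 1) → ℤ) :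
    pol (Fin.snoc a 0 : Fin (n + 1 + 1) → ℤ) = pol a := by
  unfold pol
  rw [Fin.sum_univ_castSucc]
  have h1 : (Fin.snoc a 0 : Fin (n + 1 + 1) → ℤ) (Fin.last (n + 1)) = 0 :=
    Fin.snoc_last (α := fun _ => ℤ) 0 a
  rw [h1, C_0, zero_mul, add_zero]
  refine Finset.sum_congr rfl fun i _ => ?_
  have h2 : (Fin.snoc a 0 : Fin (n + 1 + 1) → ℤ) i.castSucc = a i :=
    Fin.snoc_castSucc (α := fun _ => ℤ) 0 a i
  rw [h2]
  rfl

private lemma po_eps (m : ℕ) : ((-1 : ℤ) ^ m) * (-1) ^ m = 1 := by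
  rw [← mul_pow, neg_one_mul, neg_neg, one_pow]

private lemma po_cop {n : ℕ} (a : Fin (n + 1) → ℤ) (r s w v σ ρ : ℤ) (hrs : IsCoprime r s)
    (hsa : IsCoprime s (a (Fin.last n))) (hsw : s = w ^ 2)
    (hv : v ^ 2 = ∑ i : Fin (n + 1), a i * r ^ (i : ℕ) * s ^ (n - (i : ℕ)))
    (hσ : r * σ - s * ρ = 1) (e : ℕ) : IsCoprime (v ^ 2 * σ ^ e) w := by
  have h1 : IsCoprime σ s := ⟨r, -ρ, by linear_combination hσ⟩
  have h2 : IsCoprime (v ^ 2) s := by
    rw [Fin.sum_univ_castSucc] at hv
    have h3 : s ∣ ∑ i : Fin n, a i.castSucc * r ^ ((i.castSucc : Fin (n + 1)) : ℕ) *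
        s ^ (n - ((i.castSucc : Fin (n + 1)) : ℕ)) := by
      refine Finset.dvd_sum fun i _ => Dvd.dvd.mul_left ?_ _
      refine dvd_pow_self s ?_
      have := i.2
      simp only [Fin.val_castSucc]
      omega
    obtain ⟨q, hq⟩ := h3
    rw [hq] at hv
    have h4 : IsCoprime (a (Fin.last n) * r ^ n) s :=
      IsCoprime.mul_left hsa.symm (hrs.pow_left)
    rw [Fin.val_last, Nat.sub_self, pow_zero, mul_one] at hv
    rw [hv, add_comm]
    exact h4.add_mul_left_left q
  have h5 : IsCoprime (v ^ 2 * σ ^ e) s := IsCoprime.mul_left h2 h1.pow_left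
  rw [hsw] at h5
  exact (IsCoprime.pow_right_iff (by norm_num)).1 h5

theorem pencil_odd_s (d : ℕ) (hd : Odd d) (a : Fin (d + 1) → ℤ) (hl : a (Fin.last d) ≠ 0)
    (h : HasO a) :
    ∃ G S : Matrix (Fin d) (Fin d) ℤ, G.IsSymm ∧ S.IsSymm ∧ G.det = (-1) ^ ((d - 1) / 2) ∧
      NegSq (a (Fin.last d)) S ∧
      pen (a (Fin.last d) • G) S =
        C (-(-1) ^ ((d + 1) / 2) * (a (Fin.last d)) ^ (d - 1)) * pol a := by
  classical
  obtain ⟨m, rfl⟩ := hd
  obtain ⟨r, s, w, v, hrs, hs0, hsa, hsw, hv⟩ := h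
  have hw0 : w ≠ 0 := by
    rintro rfl
    rw [hsw] at hs0
    exact hs0 (by norm_num)
  set a' : Fin (2 * m + 1 + 1 + 1) → ℤ := Fin.snoc a 0 with ha'
  have ha'l : a' (Fin.last (2 * m + 1 + 1)) = 0 := Fin.snoc_last (α := fun _ => ℤ) 0 a
  have ha'c : ∀ i : Fin (2 * m + 1 + 1), a' i.castSucc = a i := fun i =>
    Fin.snoc_castSucc (α := fun _ => ℤ) 0 a i
  have hc : (w * v) ^ 2 = ∑ i : Fin (2 * m + 1 + 1 + 1),
      a' i * r ^ (i : ℕ) * s ^ (2 * m + 1 + 1 - (i : ℕ)) := by
    rw [Fin.sum_univ_castSucc, ha'l, zero_mul, zero_mul, add_zero]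
    have h1 : ∀ i : Fin (2 * m + 1 + 1), a' i.castSucc * r ^ ((i.castSucc : Fin _) : ℕ) *
        s ^ (2 * m + 1 + 1 - ((i.castSucc : Fin _) : ℕ)) =
        s * (a i * r ^ (i : ℕ) * s ^ (2 * m + 1 - (i : ℕ))) := by
      intro i
      have h2 : 2 * m + 1 + 1 - (i : ℕ) = 2 * m + 1 - (i : ℕ) + 1 := by
        have := i.2
        omega
      rw [ha'c, Fin.val_castSucc, h2, pow_succ]
      ring
    rw [Finset.sum_congr rfl fun i _ => h1 i, ← Finset.mul_sum, ← hv, hsw]
    ring
  obtain ⟨A0, B0, σ, ρ, hσ, hA0, hB0, hpen, hdet, hll, h00⟩ :=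
    pencil_s (2 * m + 1) ⟨m, rfl⟩ a' r s (w * v) hrs hc
  have e1 : (2 * m + 1 + 1) / 2 = m + 1 := by omega
  have e2 : (2 * m + 1 + 1) / 2 - 1 = m := by omega
  have e3 : (2 * m + 1 - 1) / 2 = m := by omega
  have e4 : 2 * m + 1 - 1 = 2 * m := by omega
  rw [ha'l, mul_zero] at hdet
  rw [e2] at hll h00
  rw [e1] at hpen
  rw [hdet, zero_add] at h00
  rw [ha', po_snoc] at hpen
  set ε' : ℤ := (-1) ^ m with hε'
  have hεε : ε' * ε' = 1 := po_eps m
  set l : Fin (2 * m + 1 + 1) := Fin.last (2 * m + 1) with hldef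
  set W : ℤ := w ^ (2 * m + 1) with hW
  have hW0 : W ≠ 0 := pow_ne_zero _ hw0
  have hsW : s ^ (2 * m + 1) = W ^ 2 := by
    rw [hsw, hW, ← pow_mul, ← pow_mul, mul_comm]
  rw [hsW] at hll
  have hadjs : ∀ i j, A0.adjugate i j = A0.adjugate j i := by
    intro i j
    have h1 : A0.adjugateᵀ = A0.adjugate := by
      rw [Matrix.adjugate_transpose, hA0.eq]
    rw [← h1, Matrix.transpose_apply, h1]
  have hjac : ∀ i j, A0.adjugate i j * A0.adjugate l l = A0.adjugate i l * A0.adjugate j l := by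
    intro i j
    have h1 := jac A0 i j l
    rw [hdet, zero_dvd_iff, hadjs l j] at h1
    linarith
  have hdvd : ∀ i, ∃ x : ℤ, A0.adjugate i l = W * x := by
    intro i
    have h1 : W ^ 2 ∣ A0.adjugate i l ^ 2 := by
      refine ⟨A0.adjugate i i * ε', ?_⟩
      rw [pow_two (A0.adjugate i l), ← hjac i i, hll]
      ring
    exact (Int.pow_dvd_pow_iff (by norm_num)).1 h1
  choose ν hν using hdvd
  have hνl : ν l = ε' * W := by
    have h1 := hν l
    rw [hll] at h1
    have h2 : W * (ν l - ε' * W) = 0 := by linear_combination -h1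
    rcases mul_eq_zero.1 h2 with h3 | h3
    · exact absurd h3 hW0
    · linarith
  have hadj : ∀ i j, A0.adjugate i j = ε' * (ν i * ν j) := by
    intro i j
    have h1 := hjac i j
    rw [hll, hν i, hν j] at h1
    have h2 : W ^ 2 * (A0.adjugate i j - ε' * (ν i * ν j)) = 0 := by
      linear_combination ε' * h1 - A0.adjugate i j * W ^ 2 * hεε
    rcases mul_eq_zero.1 h2 with h3 | h3
    · exact absurd h3 (pow_ne_zero _ hW0)
    · linarith
  have hν0 : ν 0 ^ 2 = v ^ 2 * σ ^ (2 * m + 1 + 1) := by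
    rw [hadj 0 0] at h00
    have h2 : w ^ 2 * (ν 0 ^ 2 - v ^ 2 * σ ^ (2 * m + 1 + 1)) = 0 := by
      rw [hsw] at h00
      linear_combination ε' * h00 - w ^ 2 * (ν 0 ^ 2 - v ^ 2 * σ ^ (2 * m + 1 + 1)) * hεε
    rcases mul_eq_zero.1 h2 with h3 | h3
    · exact absurd h3 (pow_ne_zero _ hw0)
    · linarith
  have hcop : IsCoprime (ν 0) (ν l) := by
    have h1 := po_cop a r s w v σ ρ hrs hsa hsw hv hσ (2 * m + 1 + 1)
    rw [← hν0] at h1
    have h2 : IsCoprime (ν 0) w := (IsCoprime.pow_left_iff (by norm_num)).1 h1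
    have h3 : IsCoprime (ν 0) W := h2.pow_right
    rw [hνl]
    refine IsCoprime.mul_right ?_ h3
    exact ⟨0, ε', by rw [zero_mul, zero_add, hεε]⟩
  obtain ⟨g, hg, hgν⟩ := uni_compl (n := 2 * m) ν hcop
  have hg2 : g.det ^ 2 = 1 := by
    rcases hg with h1 | h1 <;> rw [h1] <;> norm_num
  set A : Matrix (Fin (2 * m + 1 + 1)) (Fin (2 * m + 1 + 1)) ℤ := gᵀ * A0 * g with hA
  set B : Matrix (Fin (2 * m + 1 + 1)) (Fin (2 * m + 1 + 1)) ℤ := gᵀ * B0 * g with hB
  have hsy : ∀ M : Matrix (Fin (2 * m + 1 + 1)) (Fin (2 * m + 1 + 1)) ℤ, M.IsSymm →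
      (gᵀ * M * g).IsSymm := by
    intro M hM
    unfold Matrix.IsSymm
    rw [Matrix.transpose_mul, Matrix.transpose_mul, Matrix.transpose_transpose, hM.eq,
      Matrix.mul_assoc]
  have hAs : A.IsSymm := hsy A0 hA0
  have hBs : B.IsSymm := hsy B0 hB0
  have hpenAB : pen A B = C ((-1) ^ (m + 1)) * pol a := by
    rw [hA, hB, pen_conj, hg2, C_1, one_mul, hpen]
  -- the last column of `A` is zero
  have hA0ν : ∀ i, ∑ j, A0 i j * ν j = 0 := by
    intro i
    have h1 : (A0 * A0.adjugate) i l = 0 := by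
      rw [Matrix.mul_adjugate, hdet, zero_smul]
      rfl
    rw [Matrix.mul_apply] at h1
    have h2 : W * ∑ j, A0 i j * ν j = 0 := by
      rw [Finset.mul_sum, ← h1]
      refine Finset.sum_congr rfl fun j _ => ?_
      rw [hν j]
      ring
    rcases mul_eq_zero.1 h2 with h3 | h3
    · exact absurd h3 hW0
    · exact h3
  have hAl : ∀ i, A i l = 0 := by
    intro i
    rw [hA, Matrix.mul_assoc, Matrix.mul_apply]
    refine Finset.sum_eq_zero fun k _ => ?_
    have h1 : (A0 * g) k l = 0 := by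
      rw [Matrix.mul_apply, ← hA0ν k]
      exact Finset.sum_congr rfl fun j _ => by rw [hgν j]
    rw [h1, mul_zero]
  have hAl' : ∀ i, A l i = 0 := by
    intro i
    rw [← hAs.apply l i]
    exact hAl i
  set G : Matrix (Fin (2 * m + 1)) (Fin (2 * m + 1)) ℤ := A.submatrix Fin.castSucc Fin.castSucc
    with hG
  set B1 : Matrix (Fin (2 * m + 1)) (Fin (2 * m + 1)) ℤ := B.submatrix Fin.castSucc Fin.castSucc
    with hB1
  set β : Fin (2 * m + 1) → ℤ := fun i => B i.castSucc l with hβ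
  have hGs : G.IsSymm := by
    ext i j
    exact hAs.apply _ _
  have hB1s : B1.IsSymm := by
    ext i j
    exact hBs.apply _ _
  have hGdet : G.det = ε' := by
    have h1 := Matrix.adjugate_fin_succ_eq_det_submatrix A l l
    rw [hldef, Fin.succAbove_last, ← hldef] at h1
    have h3 : (-1 : ℤ) ^ ((l : ℕ) + (l : ℕ)) = 1 := by
      rw [← two_mul, pow_mul, neg_one_sq, one_pow]
    rw [h3, one_mul] at h1
    rw [hG, ← h1]
    have h2 : A.adjugate = g.adjugate * A0.adjugate * (g.adjugate)ᵀ := by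
      rw [hA, Matrix.adjugate_mul_distrib, Matrix.adjugate_mul_distrib,
        Matrix.adjugate_transpose, Matrix.mul_assoc]
    have h4 : A0.adjugate = ε' • Matrix.vecMulVec ν ν := by
      ext i j
      rw [hadj i j, Matrix.smul_apply, Matrix.vecMulVec_apply, smul_eq_mul]
    have h5 : (g.adjugate *ᵥ ν) l = g.det := by
      have h6 : (g.adjugate * g) l l = g.det := by
        rw [Matrix.adjugate_mul, Matrix.smul_apply, Matrix.one_apply_eq, smul_eq_mul, mul_one]
      rw [← h6, Matrix.mul_apply, Matrix.mulVec, dotProduct]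
      exact Finset.sum_congr rfl fun j _ => by rw [hgν j]
    rw [h2, h4, Matrix.mul_smul, Matrix.smul_mul, Matrix.mul_vecMulVec, Matrix.vecMulVec_mul,
      Matrix.vecMul_transpose, Matrix.smul_apply, Matrix.vecMulVec_apply, h5, smul_eq_mul,
      ← pow_two, hg2, mul_one]
  -- the bordered pencil
  set M : Matrix (Fin (2 * m + 1 + 1)) (Fin (2 * m + 1 + 1)) ℤ[X] :=
    (X : ℤ[X]) • A.map (C : ℤ → ℤ[X]) - B.map (C : ℤ → ℤ[X]) with hM
  have hMdet : M.det = C ((-1) ^ (m + 1)) * pol a := hpenAB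
  set N : Matrix (Fin (2 * m + 1)) (Fin (2 * m + 1)) ℤ[X] :=
    (X : ℤ[X]) • G.map (C : ℤ → ℤ[X]) - B1.map (C : ℤ → ℤ[X]) with hN
  have hMN : ∀ i j : Fin (2 * m + 1), M i.castSucc j.castSucc = N i j := fun i j => rfl
  have hMc : ∀ i : Fin (2 * m + 1), M i.castSucc (Fin.last (2 * m + 1)) = -C (β i) := by
    intro i
    rw [hM, Matrix.sub_apply, Matrix.smul_apply, Matrix.map_apply, Matrix.map_apply, ← hldef,
      hAl, C_0, smul_zero, zero_sub]
  have hMr : ∀ j : Fin (2 * m + 1), M (Fin.last (2 * m + 1)) j.castSucc = -C (β j) := by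
    intro j
    rw [hM, Matrix.sub_apply, Matrix.smul_apply, Matrix.map_apply, Matrix.map_apply, ← hldef,
      hAl', C_0, smul_zero, zero_sub, ← hBs.apply l j.castSucc]
  have hMl : M (Fin.last (2 * m + 1)) (Fin.last (2 * m + 1)) = -C (B l l) := by
    rw [hM, Matrix.sub_apply, Matrix.smul_apply, Matrix.map_apply, Matrix.map_apply, ← hldef,
      hAl, C_0, smul_zero, zero_sub]
  -- the last entry of `B` is the leading coefficient
  have hBll : B l l = a (Fin.last (2 * m + 1)) := by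
    set M1 : Matrix (Fin (2 * m + 1 + 1)) (Fin (2 * m + 1 + 1)) ℤ[X] :=
      Matrix.of fun i j => if i = Fin.last (2 * m + 1) ∧ j = Fin.last (2 * m + 1) then -1
        else M i j with hM1
    have hM1e : ∀ i j, ¬ (i = Fin.last (2 * m + 1) ∧ j = Fin.last (2 * m + 1)) →
        M i j = M1 i j := by
      intro i j hij
      rw [hM1, Matrix.of_apply, if_neg hij]
    have hM1l : M1 (Fin.last (2 * m + 1)) (Fin.last (2 * m + 1)) = -1 := by
      rw [hM1, Matrix.of_apply, if_pos ⟨rfl, rfl⟩]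
    have hne : ∀ i : Fin (2 * m + 1), i.castSucc ≠ Fin.last (2 * m + 1) := fun i =>
      Fin.castSucc_ne_last i
    have h1 := po_block (2 * m + 1) M1 N (fun i => -C (β i)) 1
      (fun i j => by rw [← hM1e _ _ (fun hh => hne i hh.1), hMN])
      (fun i => by rw [← hM1e _ _ (fun hh => hne i hh.1), hMc])
      (fun j => by rw [← hM1e _ _ (fun hh => hne j hh.2), hMr]) hM1l
    have h2 := po_lin (2 * m + 1) M M1 N hMN hM1e
    rw [hMl, hM1l] at h2
    have h3 : (Matrix.of fun i j => (1 : ℤ[X]) * N i j + -C (β i) * -C (β j)).det.coeff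
        (2 * m + 1) = G.det := by
      rw [← po_coeff G (B1 - Matrix.vecMulVec β β)]
      congr 2
      ext1 i j
      rw [Matrix.of_apply, hN, Matrix.sub_apply, Matrix.sub_apply, Matrix.map_apply (M := B1),
        Matrix.map_apply (M := B1 - Matrix.vecMulVec β β), Matrix.sub_apply,
        Matrix.vecMulVec_apply, C_sub, C_mul]
      ring
    have h4 : N.det.coeff (2 * m + 1) = G.det := po_coeff G B1
    rw [one_pow, one_mul] at h1
    have h5 : M.det.coeff (2 * m + 1) = -(B l l) * G.det := by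
      have h6 : M.det = -1 * (Matrix.of fun i j => (1 : ℤ[X]) * N i j +
          -C (β i) * -C (β j)).det + (N.det - C (B l l) * N.det) := by
        linear_combination h2 + h1
      rw [h6, coeff_add, coeff_sub, coeff_C_mul, neg_one_mul, coeff_neg, h3, h4]
      ring
    rw [hMdet, coeff_C_mul, hGdet] at h5
    have h7 : (pol a).coeff (2 * m + 1) = a (Fin.last (2 * m + 1)) :=
      po_polc a (Fin.last (2 * m + 1))
    rw [h7, pow_succ, ← hε'] at h5
    linear_combination ε' * h5 - (B l l - a (Fin.last (2 * m + 1))) * hεε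
  set t : ℤ := a (Fin.last (2 * m + 1)) with ht
  rw [hBll] at hMl
  have hbl := po_block (2 * m + 1) M N (fun i => -C (β i)) (C t) hMN hMc hMr hMl
  set S : Matrix (Fin (2 * m + 1)) (Fin (2 * m + 1)) ℤ :=
    Matrix.of fun i j => t * B1 i j - β i * β j with hS
  have hSs : S.IsSymm := by
    ext i j
    rw [Matrix.transpose_apply, hS, Matrix.of_apply, Matrix.of_apply, hB1s.apply i j]
    ring
  refine ⟨G, S, hGs, hSs, ?_, ⟨β, fun i j => ⟨B1 i j, ?_⟩⟩, ?_⟩
  · rw [hGdet, e3]
  · rw [hS, Matrix.of_apply]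
    ring
  · have hpenS : pen (t • G) S = (Matrix.of fun i j => C t * N i j + -C (β i) * -C (β j)).det := by
      unfold pen
      congr 1
      ext1 i j
      rw [Matrix.of_apply, hN, Matrix.sub_apply, Matrix.sub_apply, Matrix.smul_apply,
        Matrix.smul_apply, Matrix.map_apply, Matrix.map_apply, Matrix.map_apply,
        Matrix.map_apply, Matrix.smul_apply, hS, Matrix.of_apply, smul_eq_mul, smul_eq_mul,
        smul_eq_mul, C_sub, C_mul, C_mul, C_mul]
      ring
    have htC : (C t : ℤ[X]) ≠ 0 := by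
      rw [Ne, C_eq_zero]
      exact hl
    have hfin : (Matrix.of fun i j => C t * N i j + -C (β i) * -C (β j)).det =
        -(C t) ^ (2 * m) * M.det := by
      have h1 : C t * ((Matrix.of fun i j => C t * N i j + -C (β i) * -C (β j)).det +
          (C t) ^ (2 * m) * M.det) = 0 := by
        have h2 : (C t : ℤ[X]) ^ (2 * m + 1) = C t * C t ^ (2 * m) := by ring
        rw [h2] at hbl
        linear_combination hbl
      rcases mul_eq_zero.mp h1 with h2 | h2
      · exact absurd h2 htC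
      · linear_combination h2
    rw [hpenS, hfin, hMdet, e1, e4]
    simp only [C_mul, C_neg, C_pow]
    ring

end Pool.Agent.Helper32.DZ
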