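import Pool.Agent.Helper32.DZ.TriHom
import Pool.Agent.Helper32.DZ.PenLem

set_option autoImplicit false

/-!
DZ-53 PencilS. The pencil of a primitive point `(r, s)` with `F(r, s) = c^2`, even degree `n = k + 1`.

PROOF. `n = k + 1 = 2m`. `IsCoprime r s` gives `σ`, `ρ` with `r σ - s ρ = 1`. Let `b i` be the coefficient of `X^i Z^(n-i)` of
`F(ρ X + r Z, σ X + s Z)`, `F(x,z) = ∑ a_i x^i z^(n-i)`; i.e. `b i = (∑_j a_j (ρ X + r)^j (σ X + s)^(n-j)).coeff i`, and for all
`X, Z` in a commutative ring `∑_(i ≤ n) b i X^i Z^(n-i) = ∑_j a_j (ρ X + r Z)^j (σ X + s Z)^(n-j)` (homogenisation: for one product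
`(ρ X + r Z)^j (σ X + s Z)^(n-j)` expand both powers by the binomial theorem, or: multiplicativity of
`g ↦ ∑_(i ≤ N) (g.coeff i) X^i Z^(N-i)` for `natDegree g ≤ N`). `b 0 = F(r, s) = c^2`.
`A' = tri (dA b) oA n`, `B' = tri (dB b) (oB c) n`, `M(X,Z) = X A' + Z B'`, `det M(X,Z) = (-1)^m F(ρ X + r Z, σ X + s Z)`
(`tri_hom`, for `X, Z` in any commutative ring, e.g. `ℤ[X]`). Put `A = s A' - σ B'`, `B = r A' - ρ B'`. For an indeterminate `x`:
`x A - B = (s x - r) A' + (ρ - σ x) B' = - M(r - s x, σ x - ρ)`, and with `X = r - s x`, `Z = σ x - ρ`: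
`ρ X + r Z = x (r σ - s ρ) = x`, `σ X + s Z = r σ - s ρ = 1`. So `det (x A - B) = det M(X,Z) = (-1)^m F(x, 1)` (`n` even).
`A = M(s, -σ)`: `det A = (-1)^m F(ρ s - r σ, 0) = (-1)^m a_n (-1)^n = (-1)^m a_n`. `A.adjugate last last` = determinant of the
block without the last row and column = `(-1)^(m-1) s^(n-1)` by `tri_corner` (`X = s`, `Z = -σ`); `A.adjugate 0 0` = determinant without
the first row and column: `tri_first`: `s * adj 0 0 = det A + (-1)^(m-1) c^2 σ^n` (`(-σ)^n = σ^n`).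
(`Matrix.adjugate_fin_succ_eq_det_submatrix`.) Checked by computer for `n = 2, 4, 6`.
-/

open Polynomial Matrix

namespace Pool.Agent.Helper32.DZ

/-- homogenisation -/
private noncomputable def hm {S : Type} [CommRing S] (x z : S) (N : ℕ) (g : ℤ[X]) : S :=
  ∑ i ∈ Finset.range (N + 1), ((g.coeff i : ℤ) : S) * x ^ i * z ^ (N - i)

private theorem hm_add {S : Type} [CommRing S] (x z : S) (N : ℕ) (g h : ℤ[X]) :
    hm x z N (g + h) = hm x z N g + hm x z N h := by
  unfold hm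
  rw [← Finset.sum_add_distrib]
  refine Finset.sum_congr rfl fun i _ => ?_
  rw [coeff_add]; push_cast; ring

private theorem hm_C {S : Type} [CommRing S] (x z : S) (N : ℕ) (α : ℤ) (g : ℤ[X]) :
    hm x z N (C α * g) = (α : S) * hm x z N g := by
  unfold hm
  rw [Finset.mul_sum]
  refine Finset.sum_congr rfl fun i _ => ?_
  rw [coeff_C_mul]; push_cast; ring

private theorem hm_zero {S : Type} [CommRing S] (x z : S) (N : ℕ) : hm x z N 0 = 0 := by
  unfold hm
  exact Finset.sum_eq_zero fun i _ => by simp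

private theorem hm_sum {S : Type} [CommRing S] (x z : S) (N n : ℕ) (g : Fin n → ℤ[X]) :
    hm x z N (∑ j, g j) = ∑ j, hm x z N (g j) := by
  induction n with
  | zero => simp [hm_zero]
  | succ n ih => rw [Fin.sum_univ_succ, Fin.sum_univ_succ, hm_add, ih]

private theorem hm_lin {S : Type} [CommRing S] (x z : S) (N : ℕ) (g : ℤ[X]) (hg : g.natDegree ≤ N)
    (α β : ℤ) : hm x z (N + 1) (g * (C α * X + C β)) =
      hm x z N g * ((α : S) * x + (β : S) * z) := by
  have h0 : g * (C α * X + C β) = C α * (g * X) + C β * g := by ring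
  have h1 : hm x z (N + 1) (g * X) = hm x z N g * x := by
    unfold hm
    rw [Finset.sum_range_succ' _ (N + 1), coeff_mul_X_zero, Finset.sum_mul]
    rw [Int.cast_zero, zero_mul, zero_mul, add_zero]
    refine Finset.sum_congr rfl fun i _ => ?_
    rw [coeff_mul_X, Nat.add_sub_add_right, pow_succ]; ring
  have h2 : hm x z (N + 1) g = hm x z N g * z := by
    unfold hm
    rw [Finset.sum_range_succ, coeff_eq_zero_of_natDegree_lt (Nat.lt_succ_of_le hg),
      Int.cast_zero, zero_mul, zero_mul, add_zero, Finset.sum_mul]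
    refine Finset.sum_congr rfl fun i hi => ?_
    have hi' := Finset.mem_range.1 hi
    have h3 : N + 1 - i = N - i + 1 := by omega
    rw [h3, pow_succ]; ring
  rw [h0, hm_add, hm_C, hm_C, h1, h2]; ring

private theorem deg_lin (α β : ℤ) : (C α * X + C β : ℤ[X]).natDegree ≤ 1 := natDegree_linear_le

private theorem deg_prod (α β γ δ : ℤ) (j l : ℕ) :
    ((C α * X + C β) ^ j * (C γ * X + C δ) ^ l : ℤ[X]).natDegree ≤ j + l := by
  refine le_trans natDegree_mul_le (Nat.add_le_add ?_ ?_)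
  · refine le_trans natDegree_pow_le ?_
    calc j * (C α * X + C β : ℤ[X]).natDegree ≤ j * 1 := Nat.mul_le_mul_left _ (deg_lin α β)
      _ = j := Nat.mul_one j
  · refine le_trans natDegree_pow_le ?_
    calc l * (C γ * X + C δ : ℤ[X]).natDegree ≤ l * 1 := Nat.mul_le_mul_left _ (deg_lin γ δ)
      _ = l := Nat.mul_one l

private theorem hm_prod {S : Type} [CommRing S] (x z : S) (α β γ δ : ℤ) (j l : ℕ) :
    hm x z (j + l) ((C α * X + C β) ^ j * (C γ * X + C δ) ^ l) =
      ((α : S) * x + (β : S) * z) ^ j * ((γ : S) * x + (δ : S) * z) ^ l := by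
  induction l with
  | zero =>
    induction j with
    | zero => simp [hm]
    | succ j ih =>
      have h1 := hm_lin x z j ((C α * X + C β) ^ j) (by
        have := deg_prod α β γ δ j 0
        simpa using this) α β
      rw [pow_zero, mul_one, add_zero] at ih ⊢
      rw [pow_succ, h1, ih]; ring
  | succ l ih =>
    have h1 := hm_lin x z (j + l) ((C α * X + C β) ^ j * (C γ * X + C δ) ^ l)
      (deg_prod α β γ δ j l) γ δ
    rw [pow_succ, ← mul_assoc, ← add_assoc, h1, ih]; ring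

private theorem tri_symm {S : Type} [Zero S] (d o : ℕ → S) (n : ℕ) : (tri d o n).IsSymm := by
  ext i j
  simp only [Matrix.transpose_apply, tri, Matrix.of_apply]
  by_cases h1 : (i : ℕ) = j
  · rw [if_pos h1.symm, if_pos h1, h1]
  · rw [if_neg (fun h => h1 h.symm), if_neg h1]
    by_cases h2 : (i : ℕ) + 1 = j
    · rw [if_pos h2, if_neg (by omega), if_pos h2]
    · rw [if_neg h2, if_neg h2]

/-- the matrix `M(x, z)` -/
private def mat {S : Type} [CommRing S] (b : ℕ → S) (c x z : S) (n : ℕ) : Matrix (Fin n) (Fin n) S :=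
  tri (fun k => x * dA b k + z * dB b k) (fun k => x * oA k + z * oB c k) n

private theorem mat_det {S : Type} [CommRing S] (b : ℕ → S) (c x z : S) (m n : ℕ) (hm : 1 ≤ m)
    (hn : n = 2 * m) (hb : b 0 = c ^ 2) :
    (mat b c x z n).det = (-1) ^ m * ∑ i ∈ Finset.range (n + 1), b i * x ^ i * z ^ (n - i) := by
  subst hn
  unfold mat
  rw [tri_hom b c x z m hm, Finset.sum_range_succ', hb]
  have h1 : ∀ i ∈ Finset.range (2 * m), b (i + 1) * x ^ (i + 1) * z ^ (2 * m - (i + 1)) =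
      b (i + 1) * x ^ (i + 1) * z ^ (2 * m - 1 - i) := by
    intro i hi
    have h2 : 2 * m - (i + 1) = 2 * m - 1 - i := by omega
    rw [h2]
  rw [Finset.sum_congr rfl h1, Nat.sub_zero, pow_zero, mul_one, add_comm (c ^ 2 * z ^ (2 * m))]

private theorem mat_corner {S : Type} [CommRing S] (b : ℕ → S) (c x z : S) (m k : ℕ) (hm : 1 ≤ m)
    (hk : k + 1 = 2 * m) :
    ((mat b c x z (k + 1)).submatrix (Fin.last k).succAbove (Fin.last k).succAbove).det =
      (-1) ^ (m - 1) * x ^ k := by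
  have h1 : (mat b c x z (k + 1)).submatrix (Fin.last k).succAbove (Fin.last k).succAbove =
      tri (fun k => x * dA b k + z * dB b k) (fun k => x * oA k + z * oB c k) k := by
    ext i j
    simp only [mat, tri, Matrix.submatrix_apply, Matrix.of_apply, Fin.succAbove_last,
      Fin.val_castSucc]
  have h2 : k = 2 * m - 1 := by omega
  rw [h1]
  subst h2
  exact tri_corner b c x z m hm

private theorem mat_first {S : Type} [CommRing S] (b : ℕ → S) (c x z : S) (m k : ℕ) (hm : 1 ≤ m)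
    (hk : k + 1 = 2 * m) :
    x * ((mat b c x z (k + 1)).submatrix (Fin.succAbove 0) (Fin.succAbove 0)).det =
      (mat b c x z (k + 1)).det + (-1) ^ (m - 1) * c ^ 2 * z ^ (k + 1) := by
  have h1 : (mat b c x z (k + 1)).submatrix (Fin.succAbove 0) (Fin.succAbove 0) =
      tri (fun k => x * dA b (k + 1) + z * dB b (k + 1))
        (fun k => x * oA (k + 1) + z * oB c (k + 1)) k := by
    ext i j
    simp only [mat, tri, Matrix.submatrix_apply, Matrix.of_apply, Fin.zero_succAbove,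
      Fin.val_succ, Nat.add_right_cancel_iff]
  rw [h1]
  obtain ⟨q, rfl⟩ : ∃ q, m = q + 1 := ⟨m - 1, by omega⟩
  have h2 : k = 2 * q + 1 := by omega
  subst h2
  exact tri_first b c x z (q + 1) hm

private theorem dA_map {S : Type} [CommRing S] (f : ℤ →+* S) (b : ℕ → ℤ) (k : ℕ) :
    f (dA b k) = dA (fun i => f (b i)) k := by
  unfold dA
  split_ifs <;> simp

private theorem dB_map {S : Type} [CommRing S] (f : ℤ →+* S) (b : ℕ → ℤ) (k : ℕ) :
    f (dB b k) = dB (fun i => f (b i)) k := by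
  unfold dB
  split_ifs <;> simp

private theorem oA_map {S : Type} [CommRing S] (f : ℤ →+* S) (k : ℕ) :
    f (oA k) = oA k := by
  unfold oA
  split_ifs <;> simp

private theorem oB_map {S : Type} [CommRing S] (f : ℤ →+* S) (c : ℤ) (k : ℕ) :
    f (oB c k) = oB (f c) k := by
  unfold oB
  split_ifs <;> simp

private theorem pen_mat (b : ℕ → ℤ) (c s σ r ρ : ℤ) (n : ℕ) :
    pen (mat b c s (-σ) n) (mat b c r (-ρ) n) =
      (mat (fun i => C (b i)) (C c) (C s * X - C r) (C ρ - C σ * X) n).det := by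
  unfold pen
  congr 1
  ext i j : 2
  simp only [Matrix.sub_apply, Matrix.smul_apply, Matrix.map_apply, smul_eq_mul, mat, tri,
    Matrix.of_apply]
  have e1 : ∀ k, C (dA b k) = dA (fun i => C (b i)) k := dA_map (C : ℤ →+* ℤ[X]) b
  have e2 : ∀ k, C (dB b k) = dB (fun i => C (b i)) k := dB_map (C : ℤ →+* ℤ[X]) b
  have e3 : ∀ k, C (oA (S := ℤ) k) = oA (S := ℤ[X]) k := oA_map (C : ℤ →+* ℤ[X])
  have e4 : ∀ k, C (oB c k) = oB (C c) k := oB_map (C : ℤ →+* ℤ[X]) c
  split_ifs with h1 h2 h3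
  · rw [← e1, ← e2]
    simp only [map_add, map_mul, map_neg]
    ring_nf
  · rw [← e3, ← e4]
    simp only [map_add, map_mul, map_neg]
    ring_nf
  · rw [← e3, ← e4]
    simp only [map_add, map_mul, map_neg]
    ring_nf
  · simp

theorem pencil_s (k : ℕ) (hk : Odd k) (a : Fin (k + 1 + 1) → ℤ) (r s c : ℤ) (h : IsCoprime r s)
    (hc : c ^ 2 = ∑ i : Fin (k + 1 + 1), a i * r ^ (i : ℕ) * s ^ (k + 1 - (i : ℕ))) :
    ∃ (A B : Matrix (Fin (k + 1)) (Fin (k + 1)) ℤ) (σ ρ : ℤ), r * σ - s * ρ = 1 ∧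
      A.IsSymm ∧ B.IsSymm ∧ pen A B = C ((-1) ^ ((k + 1) / 2)) * pol a ∧
      A.det = (-1) ^ ((k + 1) / 2) * a (Fin.last (k + 1)) ∧
      A.adjugate (Fin.last k) (Fin.last k) = (-1) ^ ((k + 1) / 2 - 1) * s ^ k ∧
      s * A.adjugate 0 0 = A.det + (-1) ^ ((k + 1) / 2 - 1) * c ^ 2 * σ ^ (k + 1) := by
  obtain ⟨q, hq⟩ := hk
  have hm1 : k + 1 = 2 * (q + 1) := by omega
  have hm2 : (k + 1) / 2 = q + 1 := by omega
  obtain ⟨σ, u, hu⟩ := h
  obtain ⟨ρ, hρ⟩ : ∃ ρ : ℤ, ρ = -u := ⟨-u, rfl⟩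
  have hdet : r * σ - s * ρ = 1 := by rw [hρ]; linarith
  let P : ℤ[X] := ∑ j : Fin (k + 1 + 1), C (a j) * ((C ρ * X + C r) ^ (j : ℕ) *
    (C σ * X + C s) ^ (k + 1 - (j : ℕ)))
  let b : ℕ → ℤ := fun i => P.coeff i
  have hH : ∀ {S : Type} [CommRing S] (x z : S),
      ∑ i ∈ Finset.range (k + 1 + 1), ((b i : ℤ) : S) * x ^ i * z ^ (k + 1 - i) =
        ∑ j : Fin (k + 1 + 1), ((a j : ℤ) : S) * (((ρ : S) * x + (r : S) * z) ^ (j : ℕ) *
          ((σ : S) * x + (s : S) * z) ^ (k + 1 - (j : ℕ))) := by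
    intro S _ x z
    have h1 : hm x z (k + 1) P = ∑ j : Fin (k + 1 + 1), ((a j : ℤ) : S) *
        (((ρ : S) * x + (r : S) * z) ^ (j : ℕ) *
          ((σ : S) * x + (s : S) * z) ^ (k + 1 - (j : ℕ))) := by
      rw [hm_sum]
      refine Finset.sum_congr rfl fun j _ => ?_
      have hj := j.isLt
      have h2 := hm_prod x z ρ r σ s (j : ℕ) (k + 1 - (j : ℕ))
      rw [Nat.add_sub_cancel' (Nat.lt_succ_iff.1 hj)] at h2
      rw [hm_C, h2]
    exact h1
  have hb0 : b 0 = c ^ 2 := by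
    have h1 := hH (0 : ℤ) (1 : ℤ)
    rw [Finset.sum_range_succ', Finset.sum_eq_zero (fun i _ => by simp)] at h1
    simp only [mul_zero, mul_one, zero_add, one_pow, pow_zero, Int.cast_id] at h1
    rw [h1, hc]
    refine Finset.sum_congr rfl fun j _ => ?_
    ring
  have hbS : (fun i => C (b i)) 0 = (C c : ℤ[X]) ^ 2 := by
    simp only [hb0, map_pow]
  have hdetA : (mat b c s (-σ) (k + 1)).det = (-1) ^ (q + 1) * a (Fin.last (k + 1)) := by
    rw [mat_det b c s (-σ) (q + 1) (k + 1) (by omega) hm1 hb0]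
    congr 1
    have h1 := hH s (-σ)
    simp only [Int.cast_id] at h1
    rw [h1, Finset.sum_eq_single (Fin.last (k + 1))]
    · have h2 : ρ * s + r * (-σ) = -1 := by linarith
      rw [Fin.val_last, Nat.sub_self, pow_zero, mul_one, h2, Even.neg_one_pow ⟨q + 1, by omega⟩,
        mul_one]
    · intro j _ hj
      have h3 : (j : ℕ) < k + 1 := by
        have h4 := j.isLt
        have h5 : (j : ℕ) ≠ k + 1 := fun h => hj (Fin.ext (by rw [Fin.val_last]; exact h))
        omega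
      have h2 : σ * s + s * (-σ) = 0 := by ring
      rw [h2, zero_pow (by omega), mul_zero, mul_zero]
    · intro h
      exact absurd (Finset.mem_univ _) h
  refine ⟨mat b c s (-σ) (k + 1), mat b c r (-ρ) (k + 1), σ, ρ, hdet, tri_symm _ _ _,
    tri_symm _ _ _, ?_, ?_, ?_, ?_⟩
  · rw [pen_mat, mat_det _ _ _ _ (q + 1) (k + 1) (by omega) hm1 hbS, hm2]
    have h1 := hH (C s * X - C r : ℤ[X]) (C ρ - C σ * X)
    have h0 : ∀ i : ℤ, ((i : ℤ) : ℤ[X]) = C i := fun i => (map_intCast (C : ℤ →+* ℤ[X]) i).symm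
    simp only [h0] at h1
    rw [h1]
    have hC : C r * C σ - C s * C ρ = (1 : ℤ[X]) := by
      rw [← map_mul, ← map_mul, ← map_sub, hdet, map_one]
    have h2 : (C ρ * (C s * X - C r) + C r * (C ρ - C σ * X) : ℤ[X]) = -X := by
      linear_combination (-X) * hC
    have h3 : (C σ * (C s * X - C r) + C s * (C ρ - C σ * X) : ℤ[X]) = -1 := by
      linear_combination (-1) * hC
    rw [h2, h3, map_pow, map_neg, map_one]
    congr 1
    unfold pol
    refine Finset.sum_congr rfl fun j _ => ?_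
    have hj := j.isLt
    rw [neg_pow (X : ℤ[X]), mul_assoc ((-1 : ℤ[X]) ^ (j : ℕ)), mul_comm ((X : ℤ[X]) ^ (j : ℕ)),
      ← mul_assoc ((-1 : ℤ[X]) ^ (j : ℕ)), ← pow_add,
      Nat.add_sub_cancel' (Nat.lt_succ_iff.1 hj), Even.neg_one_pow ⟨q + 1, by omega⟩, one_mul]
  · rw [hm2]; exact hdetA
  · rw [Matrix.adjugate_fin_succ_eq_det_submatrix, hm2, ← two_mul, pow_mul]
    rw [mat_corner b c s (-σ) (q + 1) k (by omega) hm1]
    norm_num
  · rw [Matrix.adjugate_fin_succ_eq_det_submatrix, hm2]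
    have h1 := mat_first b c s (-σ) (q + 1) k (by omega) hm1
    have h2 : (-σ) ^ (k + 1) = σ ^ (k + 1) := Even.neg_pow ⟨q + 1, by omega⟩ σ
    rw [h2] at h1
    simp only [Fin.val_zero, add_zero, pow_zero, one_mul]
    exact h1

end Pool.Agent.Helper32.DZ
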