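import Pool.Agent.Helper32.DZ.ZeroBlock
import Pool.Agent.Helper32.DZ.OddSets

set_option autoImplicit false

/-!
DZ-36 PivotConstr. If the first `k` diagonal entries of `S` vanish the cell is constrained.

`d = 2 g + 1`. `(G, S) ∈ OT`, `q ∣ a` squarefree, `H ≤ 2^t q`, `S i i = 0` for `i < k`. Then for every `i < min (k, g)`:
`κ (i+1) < κ i + 2c + t + 1`.

PROOF. As in DZ-33 (a) the rows `< k` of `S` are divisible by `q` (`u_i^2 = 0` modulo the squarefree `q`). Let `i < k`, `i < g`,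
`j = rev (i + 1)` (value `d - 2 - i`), `i ≤ j`, `(i+1) + (j+1) = d`. Suppose `κ i + κ j ≤ -(t+1)`. For `i' ≤ i`, `j' ≤ j`:
`κ i' + κ j' ≤ -(t+1)`, so `|G i' j'| < 2^(-(t+1)) ≤ 1`: zero; `|S i' j'| < 2 H 2^(-(t+1)) = H/2^t ≤ q` and `q ∣ S i' j'`:
zero. `zero_block` (block `(i+1) × (j+1)`) gives a contradiction. So `κ i + κ j ≥ -t`, and `κ j = κ (rev (i+1)) ≤ 2c - κ (i+1)`:
`κ (i+1) ≤ 2c - κ j ≤ 2c + κ i + t`.
-/

open Matrix

namespace Pool.Agent.Helper32.DZ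

theorem pivot_constr {d g : ℕ} (hd : d = 2 * g + 1) (κ : Fin d → ℤ) (hκ : Monotone κ) (c : ℤ)
    (hc : ∀ i : Fin d, 1 ≤ κ i + κ i.rev ∧ κ i + κ i.rev ≤ 2 * c) (H q t : ℕ) (a : ℤ)
    (hq : Squarefree q) (hqa : (q : ℤ) ∣ a) (hH : (H : ℝ) ≤ 2 ^ t * q)
    (M : Matrix (Fin d) (Fin d) ℤ × Matrix (Fin d) (Fin d) ℤ) (hM : M ∈ OT d H κ a) (k : ℕ)
    (hk : ∀ i : Fin d, (i : ℕ) < k → M.2 i i = 0) :
    ∀ i j : Fin d, (i : ℕ) < k → (i : ℕ) < g → (j : ℕ) = i + 1 → κ j < κ i + 2 * c + t + 1 := by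
  intro i j hik hig hij
  by_contra hcon
  obtain ⟨⟨_, hG⟩, ⟨_, hS⟩, ⟨u, hu⟩, hPG⟩ := hM
  have hi := i.isLt
  have hj := j.isLt
  have hcj := hc j
  have hir : κ i + κ j.rev ≤ -((t : ℤ) + 1) := by omega
  have hrow : ∀ k' l' : Fin d, (k' : ℕ) < k → (q : ℤ) ∣ M.2 k' l' := by
    intro k' l' hk'
    have h1 : (q : ℤ) ∣ M.2 k' k' + u k' * u k' := hqa.trans (hu k' k')
    rw [hk k' hk', zero_add, ← sq] at h1
    have h2 : (q : ℤ) ∣ u k' :=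
      ((Int.squarefree_natCast.2 hq).dvd_pow_iff_dvd two_ne_zero).1 h1
    have h3 : (q : ℤ) ∣ M.2 k' l' + u k' * u l' := hqa.trans (hu k' l')
    exact (dvd_add_left (h2.mul_right (u l'))).1 h3
  have hrev : ((j.rev : Fin d) : ℕ) = d - 2 - (i : ℕ) := by
    rw [Fin.val_rev, hij]
    omega
  refine zero_block M.1 M.2 hPG ((i : ℕ) + 1) ((j.rev : ℕ) + 1) (by omega) (by omega) (by omega) ?_
  intro k' l' hk' hl'
  have h1 : κ k' ≤ κ i := hκ (by rw [Fin.le_def]; omega)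
  have h2 : κ l' ≤ κ j.rev := hκ (by rw [Fin.le_def]; omega)
  have h3 : κ k' + κ l' ≤ -((t : ℤ) + 1) := by linarith
  have h4 : (2 : ℝ) ^ (κ k' + κ l') ≤ (2 : ℝ) ^ (-((t : ℤ) + 1)) :=
    zpow_le_zpow_right₀ (by norm_num) h3
  have h5 : (2 : ℝ) ^ (-((t : ℤ) + 1)) = ((2 : ℝ) ^ t)⁻¹ * (1 / 2) := by
    rw [_root_.zpow_neg, zpow_add₀ (by norm_num), _root_.zpow_natCast, _root_.zpow_one, mul_inv]
    norm_num
  have hpos : (0 : ℝ) < (2 : ℝ) ^ t := by positivity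
  constructor
  · have h6 := hG k' l'
    have h7 : (2 : ℝ) ^ (-((t : ℤ) + 1)) ≤ 1 := by
      calc (2 : ℝ) ^ (-((t : ℤ) + 1)) ≤ (2 : ℝ) ^ (0 : ℤ) :=
            zpow_le_zpow_right₀ (by norm_num) (by omega)
        _ = 1 := _root_.zpow_zero _
    have h8 : |((M.1 k' l' : ℤ) : ℝ)| < 1 := lt_of_lt_of_le h6 (h4.trans h7)
    have h9 : |M.1 k' l'| < 1 := by exact_mod_cast h8
    exact Int.abs_lt_one_iff.mp h9
  · have h6 := hS k' l'
    have hdvd := hrow k' l' (by omega)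
    refine Int.eq_zero_of_abs_lt_dvd hdvd ?_
    have h7 : |((M.2 k' l' : ℤ) : ℝ)| < (q : ℝ) := by
      refine lt_of_lt_of_le h6 ?_
      have h8 : 2 * (H : ℝ) * (2 : ℝ) ^ (κ k' + κ l') ≤ 2 * (H : ℝ) * (((2 : ℝ) ^ t)⁻¹ * (1 / 2)) := by
        rw [← h5]
        exact mul_le_mul_of_nonneg_left h4 (by positivity)
      refine h8.trans ?_
      have h9 : 2 * (H : ℝ) * (((2 : ℝ) ^ t)⁻¹ * (1 / 2)) = (H : ℝ) / 2 ^ t := by
        rw [div_eq_mul_inv]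
        ring
      rw [h9, div_le_iff₀ hpos]
      linarith
    exact_mod_cast h7

end Pool.Agent.Helper32.DZ
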