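import Pool.Agent.Helper32.DZ.Defs

set_option autoImplicit false

/-!
DZ-33 PivotCount. Symmetric integral matrices in a box with `S = - u u^t` modulo a squarefree `q`, with the pivot at `k`.

PROOF of `pivot_count`. `q ≥ 1` squarefree, `D = gcd (|s|, q)`, `q = D q'`, `D`, `q'` coprime, `s` invertible modulo `q'`
(`q` squarefree), `1 ≤ D ≤ |s| < B k j` for `j ≥ k`. Let `S` be in the set, `u` as in `NegSq q S`.
(a) `i < k`: `u_i^2 = - S i i = 0` modulo `q`, `q` squarefree, so `q ∣ u_i` (`Squarefree.dvd_pow_iff_dvd` or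
`UniqueFactorizationMonoid.dvd_pow_iff...`), so `q ∣ S i j` for all `j`.
(b) `D ∣ q`, `D ∣ s = S k k`, so `D ∣ u_k^2`, `D` squarefree, `D ∣ u_k`, so `D ∣ S k j` for all `j`.
(c) For `i, j > k`: modulo `D`: `S i j = - u_i u_j`; modulo `q`: `s S i j = (-u_k^2)(-u_i u_j) = S k i S k j`,
so `S i j` modulo `q'` is determined by row `k`. So `S i j` modulo `q = D q'` is determined by row `k` and the residues
`u_j mod D`, `j > k` (`D^(d-1-k)` possibilities).
COUNT. The entries `S i j` with `i ≤ j` determine `S` (symmetric). Entries with `i < k`, `i ≤ j`: multiples of `q` in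
`(-B, B)`: at most `2 B i j / q + 1`. Entry `(k,k)`: `s`. Entries `(k, j)`, `j > k`: multiples of `D` in `(-B, B)`: at most
`2 B k j / D + 1 ≤ 3 B k j / D` (`D ≤ |s| < B k j`). Entries `k < i ≤ j`, for given row `k` and given `(u_j mod D)`: one class
modulo `q`: at most `2 B i j / q + 1` each. Together `≤ ∏_(i≤j, i≠k) (2 B i j/q + 1) * ∏_(j>k) (3 B k j/D) * D^(d-1-k)`, and the
powers of `D` cancel.
FORMALISATION HINT: injection of the set into the product of three finite sets: (rows `< k` as multiples of `q`), (row `k` as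
multiples of `D`), (residues `u_j mod D`), and for the rest a fibre estimate: two elements with the same data have
`q ∣ S i j - S' i j` for all `i, j > k`; so map `S i j` to its quotient `S i j / q` (floor), which takes at most `2B/q + 1`...
values once the residue is fixed. A clean way: a general lemma: if `X` is a finite set of tuples `x : J → ℤ`, `|x j| < B j`, any two
of which are congruent modulo `n j` in each coordinate, then `X` has at most `∏ (2 B j / n j + 1)` elements; and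
card of a set ≤ (number of values of the data) × (maximal fibre).
`pivot_inf`: all diagonal entries zero: all `q ∣ u_i`, all entries are multiples of `q`.
-/

open Matrix

namespace Pool.Agent.Helper32.DZ

private lemma pc_one (Y : Finset ℤ) (n : ℕ) (hn : 0 < n) (B : ℝ) (hB : 0 < B)
    (h1 : ∀ y ∈ Y, |(y : ℝ)| < B) (h2 : ∀ y ∈ Y, ∀ y' ∈ Y, (n : ℤ) ∣ y - y') :
    (Y.card : ℝ) ≤ 2 * B / n + 1 := by
  rcases Y.eq_empty_or_nonempty with rfl | hY
  · rw [Finset.card_empty, Nat.cast_zero]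
    positivity
  have hmem : Y.min' hY ∈ Y := Y.min'_mem hY
  have hle : ∀ y ∈ Y, Y.min' hY ≤ y := fun y hy => Y.min'_le y hy
  generalize Y.min' hY = y0 at hmem hle
  have hn' : (0 : ℝ) < n := by exact_mod_cast hn
  have hnz : (0 : ℤ) < n := by exact_mod_cast hn
  have key : ∀ y ∈ Y, ∃ c : ℕ, y - y0 = n * c ∧ (y - y0) / n = c ∧ c < ⌊2 * B / n⌋₊ + 1 := by
    intro y hy
    obtain ⟨c, hc⟩ := h2 y hy y0 hmem
    have hc0 : 0 ≤ c := by
      have h3 : 0 ≤ (n : ℤ) * c := by rw [← hc]; linarith [hle y hy]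
      exact nonneg_of_mul_nonneg_right h3 hnz
    obtain ⟨c, rfl⟩ := Int.eq_ofNat_of_zero_le hc0
    refine ⟨c, hc, ?_, ?_⟩
    · rw [hc]
      exact Int.mul_ediv_cancel_left _ hnz.ne'
    · rw [Nat.lt_succ_iff, Nat.le_floor_iff (by positivity), le_div_iff₀ hn']
      have h4 := abs_lt.1 (h1 y hy)
      have h5 := abs_lt.1 (h1 y0 hmem)
      have h6 : (y : ℝ) - y0 = n * c := by exact_mod_cast hc
      nlinarith
  have hc : Y.card ≤ (Finset.range (⌊2 * B / n⌋₊ + 1)).card := by
    refine Finset.card_le_card_of_injOn (fun y => ((y - y0) / n).toNat) ?_ ?_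
    · intro y hy
      obtain ⟨c, -, h4, h5⟩ := key y hy
      have : ((y - y0) / n).toNat = c := by rw [h4]; exact Int.toNat_natCast c
      simp only [Finset.coe_range, Set.mem_Iio]
      rw [this]
      exact h5
    · intro y hy y' hy' h
      obtain ⟨c, h3, h4, -⟩ := key y hy
      obtain ⟨c', h3', h4', -⟩ := key y' hy'
      have h5 : ((y - y0) / (n : ℤ)).toNat = ((y' - y0) / (n : ℤ)).toNat := h
      rw [h4, h4', Int.toNat_natCast, Int.toNat_natCast] at h5
      subst h5
      linarith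
  rw [Finset.card_range] at hc
  calc (Y.card : ℝ) ≤ ((⌊2 * B / n⌋₊ + 1 : ℕ) : ℝ) := by exact_mod_cast hc
    _ = (⌊2 * B / n⌋₊ : ℝ) + 1 := by push_cast; rfl
    _ ≤ 2 * B / n + 1 := by
      have := Nat.floor_le (show 0 ≤ 2 * B / n by positivity)
      linarith

private lemma pc_tuple {J : Type} [Fintype J] [DecidableEq J] (X : Finset (J → ℤ)) (n : ℕ)
    (hn : 0 < n) (B : J → ℝ) (hB : ∀ j, 0 < B j) (h1 : ∀ x ∈ X, ∀ j, |(x j : ℝ)| < B j)
    (h2 : ∀ x ∈ X, ∀ y ∈ X, ∀ j, (n : ℤ) ∣ x j - y j) :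
    (X.card : ℝ) ≤ ∏ j, (2 * B j / n + 1) := by
  have hsub : X ⊆ Fintype.piFinset (fun j => X.image (fun x => x j)) := by
    intro x hx
    rw [Fintype.mem_piFinset]
    intro j
    exact Finset.mem_image_of_mem _ hx
  have hc := Finset.card_le_card hsub
  rw [Fintype.card_piFinset] at hc
  calc (X.card : ℝ) ≤ ((∏ j, (X.image (fun x => x j)).card : ℕ) : ℝ) := by exact_mod_cast hc
    _ = ∏ j, ((X.image (fun x => x j)).card : ℝ) := by push_cast; rfl
    _ ≤ ∏ j, (2 * B j / n + 1) := by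
      refine Finset.prod_le_prod (fun j _ => Nat.cast_nonneg _) fun j _ => ?_
      refine pc_one _ n hn (B j) (hB j) ?_ ?_
      · intro y hy
        obtain ⟨x, hx, rfl⟩ := Finset.mem_image.1 hy
        exact h1 x hx j
      · intro y hy y' hy'
        obtain ⟨x, hx, rfl⟩ := Finset.mem_image.1 hy
        obtain ⟨x', hx', rfl⟩ := Finset.mem_image.1 hy'
        exact h2 x hx x' hx' j

/-- card at most number of data times fibre -/
private lemma pc_fib {α β : Type} [DecidableEq β] (X : Finset α) (T : Finset β) (f : α → β)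
    (hf : ∀ x ∈ X, f x ∈ T) (M : ℝ)
    (hM : ∀ b ∈ T, ((X.filter (fun x => f x = b)).card : ℝ) ≤ M) : (X.card : ℝ) ≤ M * T.card := by
  rw [Finset.card_eq_sum_card_fiberwise hf, Nat.cast_sum]
  calc ∑ b ∈ T, ((X.filter (fun x => f x = b)).card : ℝ) ≤ ∑ _b ∈ T, M := Finset.sum_le_sum hM
    _ = M * T.card := by rw [Finset.sum_const, nsmul_eq_mul, mul_comm]

private lemma pc_sq {q : ℤ} (hq : Squarefree q) {x : ℤ} (h : q ∣ x * x) : q ∣ x := by
  rw [← pow_two] at h
  exact (hq.dvd_pow_iff_dvd two_ne_zero).1 h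

private lemma pc_prod2 {d : ℕ} (P : Fin d → Fin d → Prop) [∀ i j, Decidable (P i j)]
    (g : Fin d → Fin d → ℝ) :
    ∏ p : {p : Fin d × Fin d // P p.1 p.2}, g p.1.1 p.1.2 =
      ∏ i, ∏ j, if P i j then g i j else 1 := by
  rw [← Fintype.prod_prod_type' (fun i j => if P i j then g i j else 1), ← Finset.prod_filter]
  exact (Finset.prod_subtype (Finset.univ.filter fun p : Fin d × Fin d => P p.1 p.2)
    (fun p => by rw [Finset.mem_filter]; exact ⟨fun h => h.2, fun h => ⟨Finset.mem_univ _, h⟩⟩)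
    (fun p => g p.1 p.2)).symm

private lemma pc_prod1 {d : ℕ} (P : Fin d → Prop) [∀ i, Decidable (P i)] (g : Fin d → ℝ) :
    ∏ j : {j : Fin d // P j}, g j.1 = ∏ j, if P j then g j else 1 := by
  rw [← Finset.prod_filter]
  exact (Finset.prod_subtype (Finset.univ.filter fun j : Fin d => P j)
    (fun p => by rw [Finset.mem_filter]; exact ⟨fun h => h.2, fun h => ⟨Finset.mem_univ _, h⟩⟩)
    (fun j => g j)).symm

/-- the congruence (c) -/
private lemma pc_cong {q : ℕ} (hq : Squarefree q) {s Δ : ℤ} (hs : s ≠ 0)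
    (h1 : (q : ℤ) ∣ s * Δ) (h2 : (Int.gcd s q : ℤ) ∣ Δ) : (q : ℤ) ∣ Δ := by
  have hg : 0 < Int.gcd s q := Int.gcd_pos_of_ne_zero_left _ hs
  obtain ⟨q', hq'⟩ : Int.gcd s q ∣ q := by
    have := Int.gcd_dvd_right s (q : ℤ)
    exact_mod_cast this
  obtain ⟨s', hs'⟩ := Int.gcd_dvd_left s (q : ℤ)
  have hcop : IsCoprime s' (q' : ℤ) := by
    have h3 := Int.gcd_ediv_gcd_ediv_gcd (i := s) (j := (q : ℤ)) hg
    have hgz : ((Int.gcd s q : ℕ) : ℤ) ≠ 0 := by exact_mod_cast hg.ne'
    have e1 : s / (Int.gcd s q : ℤ) = s' := Int.ediv_eq_of_eq_mul_right hgz hs'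
    have e2 : (q : ℤ) / (Int.gcd s q : ℤ) = q' :=
      Int.ediv_eq_of_eq_mul_right hgz (by exact_mod_cast hq')
    rw [e1, e2] at h3
    exact Int.isCoprime_iff_gcd_eq_one.2 h3
  generalize hD : Int.gcd s q = D at *
  have hDz : (D : ℤ) ≠ 0 := by exact_mod_cast hg.ne'
  have h3 : (q' : ℤ) ∣ Δ := by
    have h4 : (D : ℤ) * q' ∣ D * (s' * Δ) := by
      rw [← mul_assoc, ← hs']
      have e3 : (q : ℤ) = (D : ℤ) * q' := by exact_mod_cast hq'
      rwa [← e3]
    have h5 := (mul_dvd_mul_iff_left hDz).1 h4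
    exact hcop.symm.dvd_of_dvd_mul_left h5
  have hcop2 : IsCoprime (D : ℤ) (q' : ℤ) := by
    rw [hq'] at hq
    have := (Nat.squarefree_mul_iff.1 hq).1
    exact Nat.isCoprime_iff_coprime.2 this
  have h6 := hcop2.mul_dvd h2 h3
  have e3 : (q : ℤ) = (D : ℤ) * q' := by exact_mod_cast hq'
  rwa [e3]

theorem pivot_count {d : ℕ} (q : ℕ) (hq : Squarefree q) (k : Fin d) (s : ℤ) (hs : s ≠ 0)
    (B : Fin d → Fin d → ℝ) (hB : ∀ i j, 0 < B i j) (hs2 : ∀ j, k ≤ j → |(s : ℝ)| < B k j) :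
    (({S : Matrix (Fin d) (Fin d) ℤ | S ∈ Box B ∧ NegSq (q : ℤ) S ∧ (∀ i, i < k → S i i = 0) ∧
      S k k = s}.ncard : ℕ) : ℝ) ≤
      (∏ i, ∏ j, if i ≤ j ∧ i ≠ k then 2 * B i j / q + 1 else 1) *
        ∏ j, if k < j then 3 * B k j else 1 := by
  classical
  have hq0 : 0 < q := Nat.pos_of_ne_zero hq.ne_zero
  have hq1 : (0 : ℝ) < q := by exact_mod_cast hq0
  have hM : 0 ≤ ∏ i, ∏ j, (if i ≤ j ∧ i ≠ k then 2 * B i j / q + 1 else 1) := by
    refine Finset.prod_nonneg fun i _ => Finset.prod_nonneg fun j _ => ?_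
    split_ifs
    · have := hB i j
      positivity
    · norm_num
  have hR : 0 ≤ ∏ j, (if k < j then 3 * B k j else 1) := by
    refine Finset.prod_nonneg fun j _ => ?_
    split_ifs
    · have := hB k j
      positivity
    · norm_num
  set X : Set (Matrix (Fin d) (Fin d) ℤ) := {S : Matrix (Fin d) (Fin d) ℤ | S ∈ Box B ∧
    NegSq (q : ℤ) S ∧ (∀ i, i < k → S i i = 0) ∧ S k k = s} with hX
  by_cases hfin : X.Finite
  swap
  · rw [Set.Infinite.ncard hfin, Nat.cast_zero]
    exact mul_nonneg hM hR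
  rw [Set.ncard_eq_toFinset_card X hfin]
  set XF := hfin.toFinset with hXF
  have hmem : ∀ S ∈ XF, S ∈ X := fun S hS => (Set.Finite.mem_toFinset hfin).1 hS
  have hqz : Squarefree (q : ℤ) := Int.squarefree_natCast.2 hq
  -- the choice of `u`
  obtain ⟨u, hu⟩ : ∃ u : Matrix (Fin d) (Fin d) ℤ → Fin d → ℤ, ∀ S ∈ XF, ∀ i j,
      (q : ℤ) ∣ S i j + u S i * u S j := by
    refine ⟨fun S => if h : NegSq (q : ℤ) S then h.choose else 0, fun S hS i j => ?_⟩
    have h := (hmem S hS).2.1
    simp only [dif_pos h]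
    exact h.choose_spec i j
  -- the gcd
  obtain ⟨D, hD⟩ : ∃ D : ℕ, D = Int.gcd s q := ⟨_, rfl⟩
  have hD0 : 0 < D := by rw [hD]; exact Int.gcd_pos_of_ne_zero_left _ hs
  have hDs : (D : ℤ) ∣ s := by rw [hD]; exact Int.gcd_dvd_left s (q : ℤ)
  have hDq : (D : ℤ) ∣ (q : ℤ) := by rw [hD]; exact Int.gcd_dvd_right s (q : ℤ)
  have hDsq : Squarefree (D : ℤ) := hqz.squarefree_of_dvd hDq
  have hDle : (D : ℝ) ≤ |(s : ℝ)| := by
    have h3 := Int.le_of_dvd (abs_pos.2 hs) ((dvd_abs _ _).2 hDs)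
    exact_mod_cast h3
  -- (a)
  have ha : ∀ S ∈ XF, ∀ i, i < k → ∀ j, (q : ℤ) ∣ S i j := by
    intro S hS i hi j
    have h3 := hu S hS i i
    rw [(hmem S hS).2.2.1 i hi, zero_add] at h3
    have h4 := pc_sq hqz h3
    exact (dvd_add_left (dvd_mul_of_dvd_left h4 _)).1 (hu S hS i j)
  -- (b)
  have hb : ∀ S ∈ XF, ∀ j, (D : ℤ) ∣ S k j := by
    intro S hS j
    have h3 := hDq.trans (hu S hS k k)
    rw [(hmem S hS).2.2.2] at h3
    have h4 := pc_sq hDsq ((dvd_add_right hDs).1 h3)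
    exact (dvd_add_left (dvd_mul_of_dvd_left h4 _)).1 (hDq.trans (hu S hS k j))
  -- the data
  set r : Matrix (Fin d) (Fin d) ℤ → ({j : Fin d // k < j} → ℤ) := fun S j => S k j.1 with hr
  set v : Matrix (Fin d) (Fin d) ℤ → ({j : Fin d // k < j} → ℤ) := fun S j => u S j.1 % D with hv
  set T : Finset (({j : Fin d // k < j} → ℤ) × ({j : Fin d // k < j} → ℤ)) :=
    (XF.image r) ×ˢ (Fintype.piFinset fun _ => Finset.Ico (0 : ℤ) D) with hT
  have hfT : ∀ S ∈ XF, (r S, v S) ∈ T := by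
    intro S hS
    rw [hT, Finset.mem_product]
    refine ⟨Finset.mem_image_of_mem _ hS, ?_⟩
    rw [Fintype.mem_piFinset]
    intro j
    rw [Finset.mem_Ico]
    have hDz : (0 : ℤ) < D := by exact_mod_cast hD0
    exact ⟨Int.emod_nonneg _ hDz.ne', Int.emod_lt_of_pos _ hDz⟩
  have hTc : (T.card : ℝ) ≤ ∏ j, (if k < j then 3 * B k j else 1) := by
    rw [hT, Finset.card_product, Fintype.card_piFinset, Finset.prod_const]
    have h3 : ((XF.image r).card : ℝ) ≤ ∏ j : {j : Fin d // k < j}, (2 * B k j.1 / D + 1) := by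
      refine pc_tuple (XF.image r) D hD0 (fun j => B k j.1) (fun j => hB _ _) ?_ ?_
      · intro x hx j
        obtain ⟨S, hS, rfl⟩ := Finset.mem_image.1 hx
        exact (hmem S hS).1.2 k j.1
      · intro x hx y hy j
        obtain ⟨S, hS, rfl⟩ := Finset.mem_image.1 hx
        obtain ⟨S', hS', rfl⟩ := Finset.mem_image.1 hy
        exact dvd_sub (hb S hS j.1) (hb S' hS' j.1)
    have h4 : (Finset.Ico (0 : ℤ) D).card = D := by
      rw [Int.card_Ico, sub_zero, Int.toNat_natCast]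
    rw [h4, ← pc_prod1 (fun j => k < j) (fun j => 3 * B k j)]
    push_cast
    have hDr : (0 : ℝ) < D := by exact_mod_cast hD0
    calc ((XF.image r).card : ℝ) * (D : ℝ) ^ (Finset.univ : Finset {j : Fin d // k < j}).card
        ≤ (∏ j : {j : Fin d // k < j}, (2 * B k j.1 / D + 1)) *
            (D : ℝ) ^ (Finset.univ : Finset {j : Fin d // k < j}).card :=
          mul_le_mul_of_nonneg_right h3 (by positivity)
      _ = ∏ j : {j : Fin d // k < j}, ((2 * B k j.1 / D + 1) * D) := by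
          rw [Finset.prod_mul_distrib, Finset.prod_const]
      _ ≤ ∏ j : {j : Fin d // k < j}, (3 * B k j.1) := by
          refine Finset.prod_le_prod (fun j _ => ?_) fun j _ => ?_
          · have := hB k j.1
            positivity
          · have h5 := hs2 j.1 j.2.le
            have h6 : (2 * B k j.1 / D + 1) * D = 2 * B k j.1 + D := by
              field_simp
            rw [h6]
            linarith
  have hfib : ∀ b ∈ T, ((XF.filter (fun S => (r S, v S) = b)).card : ℝ) ≤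
      ∏ i, ∏ j, (if i ≤ j ∧ i ≠ k then 2 * B i j / q + 1 else 1) := by
    intro b _
    set F := XF.filter (fun S => (r S, v S) = b) with hF
    have hF1 : ∀ S ∈ F, S ∈ XF := fun S hS => (Finset.mem_filter.1 hS).1
    have hF2 : ∀ S ∈ F, ∀ S' ∈ F, ∀ j, k < j → S k j = S' k j ∧ u S j % D = u S' j % D := by
      intro S hS S' hS' j hj
      have h3 : (r S, v S) = (r S', v S') :=
        ((Finset.mem_filter.1 hS).2).trans ((Finset.mem_filter.1 hS').2).symm
      have h4 := congrArg Prod.fst h3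
      have h5 := congrArg Prod.snd h3
      exact ⟨congrFun h4 ⟨j, hj⟩, congrFun h5 ⟨j, hj⟩⟩
    have hF3 : ∀ S ∈ F, ∀ S' ∈ F, ∀ i j, i ≤ j → i ≠ k → (q : ℤ) ∣ S i j - S' i j := by
      intro S hS S' hS' i j hij hik
      rcases lt_or_gt_of_ne hik with hi | hi
      · exact dvd_sub (ha S (hF1 S hS) i hi j) (ha S' (hF1 S' hS') i hi j)
      · have hj : k < j := lt_of_lt_of_le hi hij
        have hmain : ∀ S ∈ F, (q : ℤ) ∣ s * S i j - S k i * S k j := by
          intro S hS
          have g1 := hu S (hF1 S hS) k k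
          have g2 := hu S (hF1 S hS) k i
          have g3 := hu S (hF1 S hS) k j
          have g4 := hu S (hF1 S hS) i j
          rw [(hmem S (hF1 S hS)).2.2.2] at g1
          have e : s * S i j - S k i * S k j = (s + u S k * u S k) * S i j
              - (u S k * u S k) * (S i j + u S i * u S j)
              + (u S k * u S i) * (S k j + u S k * u S j)
              - S k j * (S k i + u S k * u S i) := by ring
          rw [e]
          exact dvd_sub (dvd_add (dvd_sub (dvd_mul_of_dvd_left g1 _) (dvd_mul_of_dvd_right g4 _))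
            (dvd_mul_of_dvd_right g3 _)) (dvd_mul_of_dvd_right g2 _)
        refine pc_cong hq hs ?_ ?_
        · have g1 := dvd_sub (hmain S hS) (hmain S' hS')
          rw [(hF2 S hS S' hS' i hi).1, (hF2 S hS S' hS' j hj).1] at g1
          have e : s * S i j - S' k i * S' k j - (s * S' i j - S' k i * S' k j) =
              s * (S i j - S' i j) := by ring
          rwa [e] at g1
        · rw [← hD]
          have g1 := hDq.trans (hu S (hF1 S hS) i j)
          have g2 := hDq.trans (hu S' (hF1 S' hS') i j)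
          have g3 : (D : ℤ) ∣ u S i - u S' i := Int.ModEq.dvd (hF2 S' hS' S hS i hi).2
          have g4 : (D : ℤ) ∣ u S j - u S' j := Int.ModEq.dvd (hF2 S' hS' S hS j hj).2
          have e : S i j - S' i j = (S i j + u S i * u S j) - (S' i j + u S' i * u S' j)
              - (u S i - u S' i) * u S j - u S' i * (u S j - u S' j) := by ring
          rw [e]
          exact dvd_sub (dvd_sub (dvd_sub g1 g2) (dvd_mul_of_dvd_left g3 _))
            (dvd_mul_of_dvd_right g4 _)
    set g : Matrix (Fin d) (Fin d) ℤ → ({p : Fin d × Fin d // p.1 ≤ p.2 ∧ p.1 ≠ k} → ℤ) :=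
      fun S p => S p.1.1 p.1.2 with hg
    have hinj : Set.InjOn g F := by
      intro S hS S' hS' h
      have hs1 : S.IsSymm := (hmem S (hF1 S hS)).1.1
      have hs1' : S'.IsSymm := (hmem S' (hF1 S' hS')).1.1
      have hle : ∀ i j, i ≤ j → S i j = S' i j := by
        intro i j hij
        by_cases hik : i = k
        · subst hik
          rcases hij.lt_or_eq with hlt | rfl
          · exact (hF2 S hS S' hS' j hlt).1
          · rw [(hmem S (hF1 S hS)).2.2.2, (hmem S' (hF1 S' hS')).2.2.2]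
        · exact congrFun h ⟨(i, j), hij, hik⟩
      ext i j
      rcases le_total i j with hij | hij
      · exact hle i j hij
      · rw [← hs1.apply i j, ← hs1'.apply i j]
        exact hle j i hij
    rw [← Finset.card_image_of_injOn hinj,
      ← pc_prod2 (fun i j => i ≤ j ∧ i ≠ k) (fun i j => 2 * B i j / q + 1)]
    refine pc_tuple (F.image g) q hq0 (fun p => B p.1.1 p.1.2) (fun p => hB _ _) ?_ ?_
    · intro x hx p
      obtain ⟨S, hS, rfl⟩ := Finset.mem_image.1 hx
      exact (hmem S (hF1 S hS)).1.2 p.1.1 p.1.2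
    · intro x hx y hy p
      obtain ⟨S, hS, rfl⟩ := Finset.mem_image.1 hx
      obtain ⟨S', hS', rfl⟩ := Finset.mem_image.1 hy
      exact hF3 S hS S' hS' p.1.1 p.1.2 p.2.1 p.2.2
  refine (pc_fib XF T (fun S => (r S, v S)) hfT _ hfib).trans ?_
  exact mul_le_mul_of_nonneg_left hTc hM

theorem pivot_inf {d : ℕ} (q : ℕ) (hq : Squarefree q) (B : Fin d → Fin d → ℝ)
    (hB : ∀ i j, 0 < B i j) :
    (({S : Matrix (Fin d) (Fin d) ℤ | S ∈ Box B ∧ NegSq (q : ℤ) S ∧
      ∀ i, S i i = 0}.ncard : ℕ) : ℝ) ≤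
      ∏ i, ∏ j, if i ≤ j then 2 * B i j / q + 1 else 1 := by
  classical
  have hq0 : 0 < q := Nat.pos_of_ne_zero hq.ne_zero
  have hq1 : (0 : ℝ) < q := by exact_mod_cast hq0
  have hM : 0 ≤ ∏ i, ∏ j, (if i ≤ j then 2 * B i j / q + 1 else 1) := by
    refine Finset.prod_nonneg fun i _ => Finset.prod_nonneg fun j _ => ?_
    split_ifs
    · have := hB i j
      positivity
    · norm_num
  set X : Set (Matrix (Fin d) (Fin d) ℤ) := {S : Matrix (Fin d) (Fin d) ℤ | S ∈ Box B ∧
    NegSq (q : ℤ) S ∧ ∀ i, S i i = 0} with hX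
  by_cases hfin : X.Finite
  swap
  · rw [Set.Infinite.ncard hfin, Nat.cast_zero]
    exact hM
  rw [Set.ncard_eq_toFinset_card X hfin]
  set XF := hfin.toFinset with hXF
  have hmem : ∀ S ∈ XF, S ∈ X := fun S hS => (Set.Finite.mem_toFinset hfin).1 hS
  have hqz : Squarefree (q : ℤ) := Int.squarefree_natCast.2 hq
  have ha : ∀ S ∈ XF, ∀ i j, (q : ℤ) ∣ S i j := by
    intro S hS i j
    obtain ⟨u, hu⟩ := (hmem S hS).2.1
    have h3 := hu i i
    rw [(hmem S hS).2.2 i, zero_add] at h3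
    have h4 := pc_sq hqz h3
    exact (dvd_add_left (dvd_mul_of_dvd_left h4 _)).1 (hu i j)
  set g : Matrix (Fin d) (Fin d) ℤ → ({p : Fin d × Fin d // p.1 ≤ p.2} → ℤ) :=
    fun S p => S p.1.1 p.1.2 with hg
  have hinj : Set.InjOn g XF := by
    intro S hS S' hS' h
    have hs1 : S.IsSymm := (hmem S hS).1.1
    have hs1' : S'.IsSymm := (hmem S' hS').1.1
    ext i j
    rcases le_total i j with hij | hij
    · exact congrFun h ⟨(i, j), hij⟩
    · rw [← hs1.apply i j, ← hs1'.apply i j]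
      exact congrFun h ⟨(j, i), hij⟩
  rw [← Finset.card_image_of_injOn hinj,
    ← pc_prod2 (fun i j => i ≤ j) (fun i j => 2 * B i j / q + 1)]
  refine pc_tuple (XF.image g) q hq0 (fun p => B p.1.1 p.1.2) (fun p => hB _ _) ?_ ?_
  · intro x hx p
    obtain ⟨S, hS, rfl⟩ := Finset.mem_image.1 hx
    exact (hmem S hS).1.2 p.1.1 p.1.2
  · intro x hx y hy p
    obtain ⟨S, hS, rfl⟩ := Finset.mem_image.1 hx
    obtain ⟨S', hS', rfl⟩ := Finset.mem_image.1 hy
    exact dvd_sub (ha S hS _ _) (ha S' hS' _ _)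

end Pool.Agent.Helper32.DZ
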