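import Pool.Agent.Helper32.DZ.TotR
import Pool.Agent.Helper38.DZR.SqfPartR

set_option autoImplicit false

/-!
Project DZ, part 5. Final theorem with the rate, uniform in `B`: for `d ≥ 2` at most `C B^K (2H+1)^(d+1) (log H)^(-c)` of the `f` in the
box have a rational `x` with denominator `τ w^2`, `1 ≤ τ ≤ B`, and `f(x) = k y^2`, `1 ≤ |k| ≤ B`.
-/

namespace Pool.Agent.Helper32.DZ

theorem rate_even (d : ℕ) (hd : 2 ≤ d) (he : Even d) :
    ∃ (C c : ℝ) (K : ℕ), 0 < C ∧ 0 < c ∧ ∀ B H : ℕ, 1 ≤ B → 2 ≤ H →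
      (({a : Fin (d + 1) → ℤ | (∀ i, |a i| ≤ (H : ℤ)) ∧ HasU B a}.ncard : ℕ) : ℝ) ≤
        C * (B : ℝ) ^ K * (2 * (H : ℝ) + 1) ^ (d + 1) * (Real.log H) ^ (-c) := by
  obtain ⟨C0, c0, hC0, hc0, hc01, htot⟩ := tot_E d hd he
  refine ⟨3 * C0, c0, 2 + (d + 1) * (d + 1), by positivity, hc0, fun B H hB hH => ?_⟩
  have hBr : (1 : ℝ) ≤ B := by exact_mod_cast hB
  have hHr : (2 : ℝ) ≤ H := by exact_mod_cast hH
  have hE1 : 1 ≤ B ^ (d + 1) := Nat.one_le_pow _ _ hB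
  have hEr : (1 : ℝ) ≤ (B : ℝ) ^ (d + 1) := one_le_pow₀ hBr
  have hEH : H ≤ B ^ (d + 1) * H := Nat.le_mul_of_pos_left H hE1
  have h1 := htot (B ^ (d + 1) * H) (hH.trans hEH)
  have h2 : (({a : Fin (d + 1) → ℤ | (∀ i, |a i| ≤ (H : ℤ)) ∧ HasU B a}.ncard : ℕ) : ℝ) ≤
      ((2 * B + 1) * B) * (({b : Fin (d + 1) → ℤ |
        (∀ i, |b i| ≤ ((B ^ (d + 1) * H : ℕ) : ℤ)) ∧ HasE 1 b}.ncard : ℕ) : ℝ) := by
    exact_mod_cast red_even d he B H hB
  have hlog2 : 0 < Real.log H := Real.log_pos (by linarith)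
  have hlog : (Real.log ((B ^ (d + 1) * H : ℕ) : ℝ)) ^ (-c0) ≤ (Real.log H) ^ (-c0) := by
    refine Real.rpow_le_rpow_of_nonpos hlog2 ?_ (by linarith)
    exact Real.log_le_log (by linarith) (by exact_mod_cast hEH)
  have hbox : (2 * (((B ^ (d + 1) * H : ℕ) : ℝ)) + 1) ^ (d + 1) ≤
      (B : ℝ) ^ ((d + 1) * (d + 1)) * (2 * (H : ℝ) + 1) ^ (d + 1) := by
    rw [pow_mul, ← mul_pow]
    refine pow_le_pow_left₀ (by positivity) ?_ _
    push_cast
    nlinarith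
  calc _ ≤ _ := h2
    _ ≤ (3 * (B : ℝ) ^ 2) * (C0 * ((B : ℝ) ^ ((d + 1) * (d + 1)) * (2 * (H : ℝ) + 1) ^ (d + 1)) *
          (Real.log H) ^ (-c0)) := by
        refine mul_le_mul (by nlinarith) (h1.trans ?_) (Nat.cast_nonneg _) (by positivity)
        refine mul_le_mul (mul_le_mul_of_nonneg_left hbox (by linarith)) hlog ?_ (by positivity)
        exact Real.rpow_nonneg (Real.log_nonneg (by
          have : (1 : ℕ) ≤ B ^ (d + 1) * H := le_trans (by omega) hEH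
          exact_mod_cast this)) _
    _ = _ := by rw [pow_add]; ring

theorem rate_odd (d : ℕ) (hd : 2 ≤ d) (ho : Odd d) :
    ∃ (C c : ℝ) (K : ℕ), 0 < C ∧ 0 < c ∧ ∀ B H : ℕ, 1 ≤ B → 2 ≤ H →
      (({a : Fin (d + 1) → ℤ | (∀ i, |a i| ≤ (H : ℤ)) ∧ HasU B a}.ncard : ℕ) : ℝ) ≤
        C * (B : ℝ) ^ K * (2 * (H : ℝ) + 1) ^ (d + 1) * (Real.log H) ^ (-c) := by
  obtain ⟨C0, c0, hC0, hc0, hc01, htot⟩ := tot_O d hd ho
  set K : ℕ := 4 + (3 * d + 1) * (d + 1) with hK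
  set K2 : ℕ := 8 + 8 * d * (d + 1) with hK2
  have hK21 : (1 : ℝ) ≤ K2 := by
    have : 1 ≤ K2 := by rw [hK2]; omega
    exact_mod_cast this
  set e : ℝ := c0 / (2 * K2) with he
  have he0 : 0 < e := by rw [he]; positivity
  have heK : e * K2 = c0 / 2 := by rw [he]; field_simp
  have hec : e ≤ c0 / 2 := by nlinarith
  have he1 : e ≤ 1 := by linarith
  have hl2 : 0 < Real.log 2 := Real.log_pos (by norm_num)
  refine ⟨20 * C0, e, K, by positivity, he0, fun B H hB hH => ?_⟩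
  have hBr : (1 : ℝ) ≤ B := by exact_mod_cast hB
  have hHr : (2 : ℝ) ≤ H := by exact_mod_cast hH
  have hBK : (1 : ℝ) ≤ (B : ℝ) ^ K := one_le_pow₀ hBr
  have hlog2 : 0 < Real.log H := Real.log_pos (by linarith)
  have hL2 : Real.log 2 ≤ Real.log H := Real.log_le_log (by norm_num) hHr
  have hLH : Real.log H ≤ 2 * (H : ℝ) + 1 := by
    have := Real.log_le_sub_one_of_pos (show (0 : ℝ) < (H : ℝ) by linarith)
    linarith
  set P : ℝ := (2 * (H : ℝ) + 1) ^ (d + 1) with hP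
  have hP0 : 0 < P := by rw [hP]; positivity
  -- the bound for every u
  have key : ∀ u : ℕ, (({a : Fin (d + 1) → ℤ | (∀ i, |a i| ≤ (H : ℤ)) ∧ HasU B a}.ncard : ℕ) : ℝ) ≤
      (1 / (2 * (H : ℝ) + 1) + 8 / 2 ^ u +
        3 * C0 * (B : ℝ) ^ K * (((2 : ℝ) ^ u) ^ K2 * (Real.log H) ^ (-c0))) * P := by
    intro u
    have h1 := Pool.Agent.Helper38.DZR.sqf_part_r u H (by omega)
    set n1 : ℕ := {α : ℤ | α ≠ 0 ∧ |α| ≤ (H : ℤ) ∧
      ¬ ∃ q : ℕ, Squarefree q ∧ (q : ℤ) ∣ α ∧ (H : ℝ) ≤ 2 ^ (4 * u) * q}.ncard with hn1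
    set E : ℕ := B ^ (3 * d + 1) * (2 ^ (4 * u)) ^ (2 * d) with hE
    set n2 : ℕ := {b : Fin (d + 1) → ℤ | (∀ i, |b i| ≤ ((E * H : ℕ) : ℤ)) ∧ HasO b}.ncard with hn2
    have h3' : {a : Fin (d + 1) → ℤ | (∀ i, |a i| ≤ (H : ℤ)) ∧ HasU B a}.ncard ≤
        (1 + n1) * (2 * H + 1) ^ d + (2 * B + 1) * B * (B ^ 2 * (2 ^ (4 * u)) ^ 2) * n2 :=
      red_odd_total d ho B (4 * u) H hB
    have h3 : (({a : Fin (d + 1) → ℤ | (∀ i, |a i| ≤ (H : ℤ)) ∧ HasU B a}.ncard : ℕ) : ℝ) ≤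
        (1 + (n1 : ℝ)) * (2 * (H : ℝ) + 1) ^ d +
          ((2 * B + 1) * B * ((B : ℝ) ^ 2 * ((2 : ℝ) ^ (4 * u)) ^ 2)) * (n2 : ℝ) := by
      exact_mod_cast h3'
    have hE1 : 1 ≤ E := by
      rw [hE]
      exact Nat.one_le_iff_ne_zero.2 (by positivity)
    have hE1r : (1 : ℝ) ≤ E := by exact_mod_cast hE1
    have hEH : H ≤ E * H := Nat.le_mul_of_pos_left H hE1
    have hEHr : (H : ℝ) ≤ ((E * H : ℕ) : ℝ) := by exact_mod_cast hEH
    have h4 : (n2 : ℝ) ≤ C0 * (2 * ((E * H : ℕ) : ℝ) + 1) ^ (d + 1) *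
        (Real.log ((E * H : ℕ) : ℝ)) ^ (-c0) := htot (E * H) (hH.trans hEH)
    have hlog : (Real.log ((E * H : ℕ) : ℝ)) ^ (-c0) ≤ (Real.log H) ^ (-c0) := by
      refine Real.rpow_le_rpow_of_nonpos hlog2 ?_ (by linarith)
      exact Real.log_le_log (by linarith) hEHr
    have hbox : (2 * ((E * H : ℕ) : ℝ) + 1) ^ (d + 1) ≤ (E : ℝ) ^ (d + 1) * P := by
      rw [hP, ← mul_pow]
      refine pow_le_pow_left₀ (by positivity) ?_ _
      push_cast
      nlinarith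
    have hLc0 : 0 ≤ (Real.log H) ^ (-c0) := Real.rpow_nonneg hlog2.le _
    have h5 : (n2 : ℝ) ≤ C0 * ((E : ℝ) ^ (d + 1) * P) * (Real.log H) ^ (-c0) := by
      refine h4.trans (mul_le_mul (mul_le_mul_of_nonneg_left hbox (by linarith)) hlog ?_
        (by positivity))
      exact Real.rpow_nonneg (Real.log_nonneg (by linarith)) _
    have h6 : ((2 * (B : ℝ) + 1) * B * ((B : ℝ) ^ 2 * ((2 : ℝ) ^ (4 * u)) ^ 2)) * (n2 : ℝ) ≤
        3 * C0 * (B : ℝ) ^ K * (((2 : ℝ) ^ u) ^ K2 * (Real.log H) ^ (-c0)) * P := by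
      calc ((2 * (B : ℝ) + 1) * B * ((B : ℝ) ^ 2 * ((2 : ℝ) ^ (4 * u)) ^ 2)) * (n2 : ℝ)
          ≤ (3 * (B : ℝ) ^ 2 * ((B : ℝ) ^ 2 * ((2 : ℝ) ^ (4 * u)) ^ 2)) *
            (C0 * ((E : ℝ) ^ (d + 1) * P) * (Real.log H) ^ (-c0)) := by
            refine mul_le_mul ?_ h5 (Nat.cast_nonneg _) (by positivity)
            refine mul_le_mul_of_nonneg_right ?_ (by positivity)
            nlinarith
        _ = _ := by
            have hEe : (E : ℝ) = (B : ℝ) ^ (3 * d + 1) * ((2 : ℝ) ^ (4 * u)) ^ (2 * d) := by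
              rw [hE]; push_cast; ring
            have h8 : ((2 : ℝ) ^ (4 * u)) = ((2 : ℝ) ^ u) ^ 4 := by rw [← pow_mul]; congr 1; ring
            have h9 : (E : ℝ) ^ (d + 1) = (B : ℝ) ^ ((3 * d + 1) * (d + 1)) *
                ((2 : ℝ) ^ u) ^ (8 * d * (d + 1)) := by
              rw [hEe, h8, mul_pow, ← pow_mul, ← pow_mul, ← pow_mul]
              congr 2
              ring
            rw [h9, h8, hK, hK2, pow_add (B : ℝ), pow_add ((2 : ℝ) ^ u)]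
            ring
    have h7 : (1 + (n1 : ℝ)) * (2 * (H : ℝ) + 1) ^ d ≤
        (1 / (2 * (H : ℝ) + 1) + 8 / 2 ^ u) * P := by
      have h8 : P = (2 * (H : ℝ) + 1) * (2 * (H : ℝ) + 1) ^ d := by rw [hP]; ring
      have h9 : (1 + (n1 : ℝ)) ≤ (1 / (2 * (H : ℝ) + 1) + 8 / 2 ^ u) * (2 * (H : ℝ) + 1) := by
        have h10 : (1 / (2 * (H : ℝ) + 1) + 8 / 2 ^ u) * (2 * (H : ℝ) + 1) =
            1 + 8 * (2 * (H : ℝ) + 1) / 2 ^ u := by
          have : (2 * (H : ℝ) + 1) ≠ 0 := by positivity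
          field_simp
        rw [h10]
        have h11 : 8 * (H : ℝ) / 2 ^ u ≤ 8 * (2 * (H : ℝ) + 1) / 2 ^ u := by
          refine div_le_div_of_nonneg_right ?_ (by positivity)
          linarith
        linarith
      rw [h8, ← mul_assoc]
      exact mul_le_mul_of_nonneg_right h9 (by positivity)
    calc _ ≤ _ := h3
      _ ≤ (1 / (2 * (H : ℝ) + 1) + 8 / 2 ^ u) * P +
          3 * C0 * (B : ℝ) ^ K * (((2 : ℝ) ^ u) ^ K2 * (Real.log H) ^ (-c0)) * P :=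
          add_le_add h7 h6
      _ = _ := by ring
  set X : ℝ := C0 * (B : ℝ) ^ K with hX
  have hX1 : 1 ≤ X := by rw [hX]; nlinarith
  rcases le_total (Real.log H) 1 with hle | hge
  · have h0 := key 0
    have e1 : (Real.log H) ^ (-c0) ≤ 2 := by
      have e2 : (Real.log H) ^ (-c0) ≤ (Real.log 2) ^ (-c0) :=
        Real.rpow_le_rpow_of_nonpos hl2 hL2 (by linarith)
      have e3 : (Real.log 2) ^ (-c0) ≤ (Real.log 2) ^ (-1 : ℝ) :=
        Real.rpow_le_rpow_of_exponent_ge hl2 (by linarith) (by linarith)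
      have e4 : (Real.log 2) ^ (-1 : ℝ) ≤ 2 := by
        rw [Real.rpow_neg_one, inv_le_comm₀ hl2 (by norm_num)]
        have := Real.log_two_gt_d9
        norm_num at this ⊢
        linarith
      linarith
    have e5 : 1 ≤ (Real.log H) ^ (-e) :=
      Real.one_le_rpow_of_pos_of_le_one_of_nonpos hlog2 hle (by linarith)
    have e6 : 1 / (2 * (H : ℝ) + 1) ≤ 1 := by
      rw [div_le_one (by positivity)]
      linarith
    refine h0.trans ?_
    have e7 : 1 / (2 * (H : ℝ) + 1) + 8 / 2 ^ 0 +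
        3 * C0 * (B : ℝ) ^ K * (((2 : ℝ) ^ 0) ^ K2 * (Real.log H) ^ (-c0)) ≤ 20 * X := by
      rw [pow_zero, one_pow, div_one, one_mul]
      have e8 : 3 * C0 * (B : ℝ) ^ K * (Real.log H) ^ (-c0) ≤ 3 * X * 2 := by
        have : 3 * C0 * (B : ℝ) ^ K = 3 * X := by rw [hX]; ring
        rw [this]
        exact mul_le_mul_of_nonneg_left e1 (by positivity)
      linarith
    calc _ ≤ 20 * X * P := mul_le_mul_of_nonneg_right e7 hP0.le
      _ = 20 * X * P * 1 := by ring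
      _ ≤ 20 * X * P * (Real.log H) ^ (-e) := mul_le_mul_of_nonneg_left e5 (by positivity)
      _ = _ := by rw [hX]; ring
  · have hz1 : 1 ≤ (Real.log H) ^ e := Real.one_le_rpow hge he0.le
    obtain ⟨u, hu1, hu2⟩ := exists_nat_pow_near hz1 (one_lt_two (α := ℝ))
    have hz0 : 0 < (Real.log H) ^ e := by linarith
    have h2u : (0 : ℝ) < 2 ^ u := by positivity
    have f1 : 8 / (2 : ℝ) ^ u ≤ 16 * (Real.log H) ^ (-e) := by
      rw [Real.rpow_neg hlog2.le, ← div_eq_mul_inv, div_le_div_iff₀ h2u hz0]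
      rw [pow_succ] at hu2
      linarith
    have f2 : ((2 : ℝ) ^ u) ^ K2 * (Real.log H) ^ (-c0) ≤ (Real.log H) ^ (-e) := by
      have g1 : ((2 : ℝ) ^ u) ^ K2 ≤ (Real.log H) ^ (c0 / 2) := by
        calc ((2 : ℝ) ^ u) ^ K2 ≤ ((Real.log H) ^ e) ^ K2 := pow_le_pow_left₀ h2u.le hu1 _
          _ = (Real.log H) ^ (c0 / 2) := by
              rw [← Real.rpow_natCast, ← Real.rpow_mul hlog2.le, heK]
      calc ((2 : ℝ) ^ u) ^ K2 * (Real.log H) ^ (-c0)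
          ≤ (Real.log H) ^ (c0 / 2) * (Real.log H) ^ (-c0) :=
            mul_le_mul_of_nonneg_right g1 (Real.rpow_nonneg hlog2.le _)
        _ = (Real.log H) ^ (c0 / 2 + -c0) := (Real.rpow_add hlog2 _ _).symm
        _ ≤ (Real.log H) ^ (-e) := Real.rpow_le_rpow_of_exponent_le hge (by linarith)
    have f3 : 1 / (2 * (H : ℝ) + 1) ≤ (Real.log H) ^ (-e) := by
      rw [Real.rpow_neg hlog2.le, ← one_div]
      refine one_div_le_one_div_of_le hz0 ?_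
      have := Real.rpow_le_rpow_of_exponent_le hge he1
      rw [Real.rpow_one] at this
      linarith
    refine (key u).trans ?_
    have hLe : 0 < (Real.log H) ^ (-e) := Real.rpow_pos_of_pos hlog2 _
    have f4 : 1 / (2 * (H : ℝ) + 1) + 8 / 2 ^ u +
        3 * C0 * (B : ℝ) ^ K * (((2 : ℝ) ^ u) ^ K2 * (Real.log H) ^ (-c0)) ≤
        20 * X * (Real.log H) ^ (-e) := by
      have g2 : 3 * C0 * (B : ℝ) ^ K * (((2 : ℝ) ^ u) ^ K2 * (Real.log H) ^ (-c0)) ≤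
          3 * X * (Real.log H) ^ (-e) := by
        have : 3 * C0 * (B : ℝ) ^ K = 3 * X := by rw [hX]; ring
        rw [this]
        exact mul_le_mul_of_nonneg_left f2 (by positivity)
      nlinarith
    calc _ ≤ 20 * X * (Real.log H) ^ (-e) * P := mul_le_mul_of_nonneg_right f4 hP0.le
      _ = _ := by rw [hX]; ring

theorem density_rate_u (d : ℕ) (hd : 2 ≤ d) :
    ∃ (C c : ℝ) (K : ℕ), 0 < C ∧ 0 < c ∧ ∀ B H : ℕ, 2 ≤ H →
      (({a : Fin (d + 1) → ℤ | (∀ i, |a i| ≤ (H : ℤ)) ∧ HasU B a}.ncard : ℕ) : ℝ) ≤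
        C * (B : ℝ) ^ K * (2 * (H : ℝ) + 1) ^ (d + 1) * (Real.log H) ^ (-c) := by
  have h : ∃ (C c : ℝ) (K : ℕ), 0 < C ∧ 0 < c ∧ ∀ B H : ℕ, 1 ≤ B → 2 ≤ H →
      (({a : Fin (d + 1) → ℤ | (∀ i, |a i| ≤ (H : ℤ)) ∧ HasU B a}.ncard : ℕ) : ℝ) ≤
        C * (B : ℝ) ^ K * (2 * (H : ℝ) + 1) ^ (d + 1) * (Real.log H) ^ (-c) := by
    rcases Nat.even_or_odd d with he | ho
    · exact rate_even d hd he
    · exact rate_odd d hd ho
  obtain ⟨C, c, K, hC, hc, h1⟩ := h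
  refine ⟨C, c, K, hC, hc, fun B H hH => ?_⟩
  rcases Nat.eq_zero_or_pos B with hB0 | hB0
  · have h2 : {a : Fin (d + 1) → ℤ | (∀ i, |a i| ≤ (H : ℤ)) ∧ HasU B a} = ∅ := by
      ext a
      simp only [Set.mem_ofPred_eq, Set.mem_empty_iff_false, iff_false]
      rintro ⟨-, k, x, y, τ, w, -, -, h1, h2, -⟩
      omega
    rw [h2]
    simp only [Set.ncard_empty, Nat.cast_zero]
    have : 0 < Real.log H := Real.log_pos (by
      have : (2 : ℝ) ≤ H := by exact_mod_cast hH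
      linarith)
    positivity
  · exact h1 B H hB0 hH

end Pool.Agent.Helper32.DZ
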