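import Pool.Agent.Helper32.DZ.RedPt

set_option autoImplicit false

/-!
Project DZ, part 4. Counting form of the reduction to `HasE 1`, `HasO`.

`HasU B a`: some rational `x` with denominator `τ w^2`, `1 ≤ τ ≤ B`, has `f(x)` equal to `k y^2`, `1 ≤ |k| ≤ B`, `y` rational.
-/

namespace Pool.Agent.Helper32.DZ

/-- `f(x) = k y^2`, `1 ≤ |k| ≤ B`, `x.den = τ w^2`, `1 ≤ τ ≤ B` -/
def HasU {d : ℕ} (B : ℕ) (a : Fin (d + 1) → ℤ) : Prop :=
  ∃ (k : ℤ) (x y : ℚ) (τ w : ℕ), k ≠ 0 ∧ |k| ≤ (B : ℤ) ∧ 1 ≤ τ ∧ τ ≤ B ∧ x.den = τ * w ^ 2 ∧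
    (k : ℚ) * y ^ 2 = ∑ i, (a i : ℚ) * x ^ (i : ℕ)

theorem box_fin (n H : ℕ) : {a : Fin n → ℤ | ∀ i, |a i| ≤ (H : ℤ)}.Finite := by
  refine Set.Finite.subset (Fintype.piFinset fun _ : Fin n => Finset.Icc (-(H : ℤ)) H).finite_toSet ?_
  intro a ha
  rw [Finset.mem_coe, Fintype.mem_piFinset]
  intro i
  rw [Finset.mem_Icc]
  exact abs_le.1 (ha i)

theorem g_bound (g E w0 τ w B R : ℕ) (α : ℤ) (hg : 1 ≤ g) (hE : 1 ≤ E) (hw0 : 1 ≤ w0) (hτ : 1 ≤ τ)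
    (hEB : E ≤ B) (hτB : τ ≤ B)
    (hgα : (g : ℤ) ∣ α) (hR : ∀ j : ℕ, (j : ℤ) ^ 2 ∣ α → j ≤ R)
    (h : g * (E * w0 ^ 2) = τ * w ^ 2) : g ≤ B ^ 2 * R ^ 2 := by
  obtain ⟨g0, j, hgj, hg0⟩ := Nat.sq_mul_squarefree g
  have hj : j ≤ R := by
    refine hR j (dvd_trans ?_ hgα)
    rw [← hgj]
    push_cast
    exact Dvd.intro _ rfl
  have hj0 : j ≠ 0 := by
    rintro rfl
    rw [zero_pow two_ne_zero, zero_mul] at hgj
    omega
  have h1 : (j * w0) ^ 2 * (g0 * E * τ) = (τ * w) ^ 2 := by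
    have : (j * w0) ^ 2 * (g0 * E * τ) = τ * ((j ^ 2 * g0) * (E * w0 ^ 2)) := by ring
    rw [this, hgj, h]
    ring
  have h2 : j * w0 ∣ τ * w := by
    have : (j * w0) ^ 2 ∣ (τ * w) ^ 2 := Dvd.intro _ h1
    exact (Nat.pow_dvd_pow_iff two_ne_zero).1 this
  obtain ⟨m, hm⟩ := h2
  have h3 : g0 * E * τ = m ^ 2 := by
    have h4 : (j * w0) ^ 2 * (g0 * E * τ) = (j * w0) ^ 2 * m ^ 2 := by rw [h1, hm]; ring
    have h5 : 0 < (j * w0) ^ 2 := by positivity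
    exact Nat.eq_of_mul_eq_mul_left h5 h4
  have h4 : g0 ∣ m := by
    have : g0 ∣ m ^ 2 := by rw [← h3]; exact ⟨E * τ, by ring⟩
    exact (hg0.dvd_pow_iff_dvd two_ne_zero).1 this
  have h5 : g0 ∣ E * τ := by
    obtain ⟨m', hm'⟩ := h4
    have h6 : g0 * (E * τ) = g0 * (g0 * m' ^ 2) := by
      rw [← mul_assoc, h3, hm']; ring
    have h7 := Nat.eq_of_mul_eq_mul_left (Nat.pos_of_ne_zero hg0.ne_zero) h6
    exact ⟨m' ^ 2, h7⟩
  have h6 : g0 ≤ B * B := by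
    have h7 := Nat.le_of_dvd (by positivity) h5
    exact h7.trans (Nat.mul_le_mul hEB hτB)
  rw [← hgj]
  calc j ^ 2 * g0 ≤ R ^ 2 * (B * B) := Nat.mul_le_mul (Nat.pow_le_pow_left hj 2) h6
    _ = B ^ 2 * R ^ 2 := by ring

theorem sqf_reduce {d : ℕ} (B : ℕ) (a : Fin (d + 1) → ℤ) (h : HasU B a) :
    ∃ (k : ℤ) (x y : ℚ) (τ w : ℕ), Squarefree k ∧ |k| ≤ (B : ℤ) ∧ 1 ≤ τ ∧ τ ≤ B ∧
    x.den = τ * w ^ 2 ∧ (k : ℚ) * y ^ 2 = ∑ i, (a i : ℚ) * x ^ (i : ℕ) := by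
  obtain ⟨k, x, y, τ, w, hk, hkB, hτ, hτB, hx, hy⟩ := h
  obtain ⟨c, b, hcb, hc⟩ := Nat.sq_mul_squarefree k.natAbs
  have hb : b ≠ 0 := by
    rintro rfl
    rw [zero_pow two_ne_zero, zero_mul] at hcb
    exact hk (Int.natAbs_eq_zero.1 hcb.symm)
  have hcB : (c : ℤ) ≤ B := by
    have h1 : c ≤ k.natAbs := by
      rw [← hcb]
      exact Nat.le_mul_of_pos_left _ (by positivity)
    have h2 : (k.natAbs : ℤ) ≤ B := by rw [Int.natCast_natAbs]; exact hkB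
    exact le_trans (by exact_mod_cast h1) h2
  rcases Int.natAbs_eq k with h0 | h0
  · refine ⟨(c : ℤ), x, b * y, τ, w, Int.squarefree_natCast.2 hc, ?_, hτ, hτB, hx, ?_⟩
    · rw [abs_of_nonneg (by positivity)]; exact hcB
    · rw [← hy, h0, ← hcb]
      push_cast
      ring
  · refine ⟨-(c : ℤ), x, b * y, τ, w, ?_, ?_, hτ, hτB, hx, ?_⟩
    · rw [← Int.squarefree_natAbs, Int.natAbs_neg, Int.natAbs_natCast]
      exact hc
    · rw [abs_neg, abs_of_nonneg (by positivity)]; exact hcB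
    · rw [← hy, h0, ← hcb]
      push_cast
      ring

/-- odd degree -/
theorem red_odd (d : ℕ) (hd : Odd d) (B R H : ℕ) (hB : 1 ≤ B) (hR : 1 ≤ R) :
    {a : Fin (d + 1) → ℤ | (∀ i, |a i| ≤ (H : ℤ)) ∧ a (Fin.last d) ≠ 0 ∧
      (∀ j : ℕ, (j : ℤ) ^ 2 ∣ a (Fin.last d) → j ≤ R) ∧ HasU B a}.ncard ≤
    (2 * B + 1) * B * (B ^ 2 * R ^ 2) *
      {b : Fin (d + 1) → ℤ | (∀ i, |b i| ≤ ((B ^ (3 * d + 1) * R ^ (2 * d) * H : ℕ) : ℤ)) ∧
        HasO b}.ncard := by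
  classical
  set G : ℕ := B ^ 2 * R ^ 2 with hG
  have hG1 : 1 ≤ G := Nat.one_le_iff_ne_zero.2 (by positivity)
  set H' : ℕ := B ^ (3 * d + 1) * R ^ (2 * d) * H with hH'
  set T : Finset (ℤ × ℕ × ℕ) :=
    (Finset.Icc (-(B : ℤ)) B) ×ˢ (Finset.Icc 1 B) ×ˢ (Finset.Icc 1 G) with hT
  have hTc : T.card = (2 * B + 1) * B * G := by
    rw [hT, Finset.card_product, Finset.card_product, Int.card_Icc, Nat.card_Icc, Nat.card_Icc]
    have h1 : ((B : ℤ) + 1 - -(B : ℤ)).toNat = 2 * B + 1 := by omega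
    rw [h1]
    simp only [Nat.add_sub_cancel]
    ring
  set S : ℤ × ℕ × ℕ → Set (Fin (d + 1) → ℤ) := fun t =>
    {a | (∀ i, |a i| ≤ (H : ℤ)) ∧ t.1 ≠ 0 ∧ (t.2.2 : ℤ) ∣ a (Fin.last d) ∧
      HasO (scl t.2.2 t.2.1 t.1 a)} with hS
  have hsub : {a : Fin (d + 1) → ℤ | (∀ i, |a i| ≤ (H : ℤ)) ∧ a (Fin.last d) ≠ 0 ∧
      (∀ j : ℕ, (j : ℤ) ^ 2 ∣ a (Fin.last d) → j ≤ R) ∧ HasU B a} ⊆ ⋃ t ∈ T, S t := by
    rintro a ⟨ha1, ha2, ha3, ha4⟩
    obtain ⟨k, x, y, τ, w, hk, hkB, hτ, hτB, hx, hy⟩ := sqf_reduce B a ha4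
    obtain ⟨g, E, w0, k1, hg, hE, hw0, hga, hkE, hxd, hO⟩ := red_point hd a ha2 k hk x y hy
    have hk0 : k ≠ 0 := hk.ne_zero
    have hk10 : k1 ≠ 0 := by
      rintro rfl
      rw [mul_zero] at hkE
      exact hk0 hkE
    have hEZ : (0 : ℤ) < E := by exact_mod_cast hE
    have hkabs : |k| = E * |k1| := by
      rw [hkE, abs_mul, abs_of_pos hEZ]
    have hk1pos : 1 ≤ |k1| := Int.one_le_abs hk10
    have hEB : (E : ℤ) ≤ B := by nlinarith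
    have hk1B : |k1| ≤ (B : ℤ) := by nlinarith
    have hEB' : E ≤ B := by exact_mod_cast hEB
    have hgG : g ≤ G := g_bound g E w0 τ w B R (a (Fin.last d)) hg hE hw0 hτ hEB' hτB hga ha3
      (by rw [← hxd, hx])
    rw [Set.mem_iUnion₂]
    refine ⟨(k1, E, g), ?_, ?_⟩
    · rw [hT, Finset.mem_product, Finset.mem_product, Finset.mem_Icc, Finset.mem_Icc, Finset.mem_Icc]
      exact ⟨abs_le.1 hk1B, ⟨hE, hEB'⟩, ⟨hg, hgG⟩⟩
    · exact ⟨ha1, hk10, hga, hO⟩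
  have hfin : ∀ t ∈ T, (S t).Finite := fun t _ => (box_fin (d + 1) H).subset fun a ha => ha.1
  have hSt : ∀ t ∈ T, (S t).ncard ≤
      {b : Fin (d + 1) → ℤ | (∀ i, |b i| ≤ (H' : ℤ)) ∧ HasO b}.ncard := by
    rintro ⟨k1, E, g⟩ ht
    rw [hT, Finset.mem_product, Finset.mem_product, Finset.mem_Icc, Finset.mem_Icc,
      Finset.mem_Icc] at ht
    obtain ⟨hk1, hE, hg⟩ := ht
    dsimp only at hk1 hE hg
    have hgZ : (g : ℤ) ≠ 0 := by exact_mod_cast (Nat.one_le_iff_ne_zero.1 hg.1)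
    have hEZ : (E : ℤ) ≠ 0 := by exact_mod_cast (Nat.one_le_iff_ne_zero.1 hE.1)
    refine Set.ncard_le_ncard_of_injOn (scl g E k1) ?_ ?_
      ((box_fin (d + 1) H').subset fun a ha => ha.1)
    · rintro a ⟨ha1, ha2, ha3, ha4⟩
      refine ⟨fun i => ?_, ha4⟩
      have hi1 : |a i| ≤ (H : ℤ) := ha1 i
      have hkk : |k1| ≤ (B : ℤ) := abs_le.2 hk1
      have hB1 : (1 : ℤ) ≤ B := by exact_mod_cast hB
      have hR1 : (1 : ℤ) ≤ R := by exact_mod_cast hR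
      have hH0 : (0 : ℤ) ≤ H := by positivity
      have hP1 : (1 : ℤ) ≤ (B : ℤ) ^ (3 * d) * (R : ℤ) ^ (2 * d) := by
        have h1 : (1 : ℤ) ≤ (B : ℤ) ^ (3 * d) := one_le_pow₀ hB1
        have h2 : (1 : ℤ) ≤ (R : ℤ) ^ (2 * d) := one_le_pow₀ hR1
        nlinarith
      have hH'Z : (H' : ℤ) = (B : ℤ) * ((B : ℤ) ^ (3 * d) * (R : ℤ) ^ (2 * d)) * H := by
        rw [hH']; push_cast; ring
      rw [hH'Z]
      by_cases hi : i = Fin.last d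
      · rw [scl, if_pos hi, abs_mul]
        have h1 : |a i / (g : ℤ)| ≤ |a i| := by
          obtain ⟨c, hc⟩ := ha3
          rw [hi, hc, Int.mul_ediv_cancel_left _ hgZ, abs_mul]
          have h2 : (1 : ℤ) ≤ |(g : ℤ)| := Int.one_le_abs hgZ
          nlinarith [abs_nonneg c]
        calc |k1| * |a i / (g : ℤ)| ≤ B * H :=
              mul_le_mul hkk (h1.trans hi1) (abs_nonneg _) (by positivity)
          _ = B * 1 * H := by ring
          _ ≤ B * ((B : ℤ) ^ (3 * d) * (R : ℤ) ^ (2 * d)) * H := by gcongr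
      · rw [scl, if_neg hi, abs_mul, abs_mul, abs_mul, abs_pow, abs_pow, Nat.abs_cast, Nat.abs_cast]
        have hgG : (g : ℤ) ≤ (B : ℤ) ^ 2 * (R : ℤ) ^ 2 := by
          have := hg.2
          rw [hG] at this
          exact_mod_cast this
        have hEB : (E : ℤ) ≤ B := by exact_mod_cast hE.2
        have hG1Z : (1 : ℤ) ≤ (B : ℤ) ^ 2 * (R : ℤ) ^ 2 := by
          have h1 : (1 : ℤ) ≤ (B : ℤ) ^ 2 := one_le_pow₀ hB1
          have h2 : (1 : ℤ) ≤ (R : ℤ) ^ 2 := one_le_pow₀ hR1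
          nlinarith
        have h1 : (g : ℤ) ^ (d - 1 - (i : ℕ)) ≤ ((B : ℤ) ^ 2 * (R : ℤ) ^ 2) ^ d :=
          (pow_le_pow_left₀ (by positivity) hgG _).trans
            (pow_le_pow_right₀ hG1Z (by omega))
        have h2 : (E : ℤ) ^ (d - (i : ℕ)) ≤ (B : ℤ) ^ d :=
          (pow_le_pow_left₀ (by positivity) hEB _).trans (pow_le_pow_right₀ hB1 (by omega))
        calc |k1| * (g : ℤ) ^ (d - 1 - (i : ℕ)) * (E : ℤ) ^ (d - (i : ℕ)) * |a i|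
            ≤ B * ((B : ℤ) ^ 2 * (R : ℤ) ^ 2) ^ d * (B : ℤ) ^ d * H := by gcongr
          _ = B * ((B : ℤ) ^ (3 * d) * (R : ℤ) ^ (2 * d)) * H := by
              rw [mul_pow, ← pow_mul, ← pow_mul]
              have : (B : ℤ) ^ (3 * d) = (B : ℤ) ^ (2 * d) * (B : ℤ) ^ d := by
                rw [← pow_add]; congr 1; ring
              rw [this]
              ring
    · rintro a ⟨ha1, ha2, ha3, ha4⟩ a' ⟨ha1', ha2', ha3', ha4'⟩ heq
      dsimp only at ha2 ha3 ha3'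
      funext i
      have h1 := congrFun heq i
      by_cases hi : i = Fin.last d
      · rw [scl, scl, if_pos hi, if_pos hi] at h1
        have h2 := mul_left_cancel₀ ha2 h1
        rw [hi] at h2 ⊢
        rw [← Int.mul_ediv_cancel' ha3, ← Int.mul_ediv_cancel' ha3', h2]
      · rw [scl, scl, if_neg hi, if_neg hi] at h1
        exact mul_left_cancel₀ (mul_ne_zero (mul_ne_zero ha2 (pow_ne_zero _ hgZ))
          (pow_ne_zero _ hEZ)) h1
  calc _ ≤ (⋃ t ∈ T, S t).ncard :=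
        Set.ncard_le_ncard hsub (Set.Finite.biUnion T.finite_toSet fun t ht => hfin t ht)
    _ ≤ ∑ t ∈ T, (S t).ncard := Finset.set_ncard_biUnion_le T S
    _ ≤ ∑ _t ∈ T, {b : Fin (d + 1) → ℤ | (∀ i, |b i| ≤ (H' : ℤ)) ∧ HasO b}.ncard :=
        Finset.sum_le_sum hSt
    _ = _ := by rw [Finset.sum_const, hTc, smul_eq_mul]

/-- even degree -/
theorem red_even (d : ℕ) (hd : Even d) (B H : ℕ) (hB : 1 ≤ B) :
    {a : Fin (d + 1) → ℤ | (∀ i, |a i| ≤ (H : ℤ)) ∧ HasU B a}.ncard ≤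
    (2 * B + 1) * B *
      {b : Fin (d + 1) → ℤ | (∀ i, |b i| ≤ ((B ^ (d + 1) * H : ℕ) : ℤ)) ∧ HasE 1 b}.ncard := by
  classical
  set H' : ℕ := B ^ (d + 1) * H with hH'
  set T : Finset (ℤ × ℕ) := (Finset.Icc (-(B : ℤ)) B) ×ˢ (Finset.Icc 1 B) with hT
  have hTc : T.card = (2 * B + 1) * B := by
    rw [hT, Finset.card_product, Int.card_Icc, Nat.card_Icc]
    have h1 : ((B : ℤ) + 1 - -(B : ℤ)).toNat = 2 * B + 1 := by omega
    rw [h1]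
    simp only [Nat.add_sub_cancel]
  set S : ℤ × ℕ → Set (Fin (d + 1) → ℤ) := fun t =>
    {a | (∀ i, |a i| ≤ (H : ℤ)) ∧ t.1 ≠ 0 ∧
      HasE 1 (fun i : Fin (d + 1) => t.1 * (t.2 : ℤ) ^ (d - (i : ℕ)) * a i)} with hS
  have hsub : {a : Fin (d + 1) → ℤ | (∀ i, |a i| ≤ (H : ℤ)) ∧ HasU B a} ⊆ ⋃ t ∈ T, S t := by
    rintro a ⟨ha1, k, x, y, τ, w, hk, hkB, hτ, hτB, hx, hy⟩
    rw [Set.mem_iUnion₂]
    refine ⟨(k, τ), ?_, ha1, hk, ?_⟩
    · rw [hT, Finset.mem_product, Finset.mem_Icc, Finset.mem_Icc]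
      exact ⟨abs_le.1 hkB, hτ, hτB⟩
    · obtain ⟨D, hD⟩ := hd
      have hτ0 : τ ≠ 0 := Nat.one_le_iff_ne_zero.1 hτ
      have hτQ : (τ : ℚ) ≠ 0 := by exact_mod_cast hτ0
      have hτZ : (τ : ℤ) ≠ 0 := by exact_mod_cast hτ0
      have hw : w ≠ 0 := by
        rintro rfl
        rw [zero_pow two_ne_zero, mul_zero] at hx
        exact x.den_nz hx
      have hwQ : (w : ℚ) ≠ 0 := by exact_mod_cast hw
      have hw2pos : 0 < w ^ 2 := by positivity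
      have hX : (τ : ℚ) * x = (x.num : ℚ) / ((w ^ 2 : ℕ) : ℚ) := by
        have h1 : x = (x.num : ℚ) / ((x.den : ℕ) : ℚ) := (Rat.num_div_den x).symm
        rw [hx] at h1
        push_cast at h1 ⊢
        rw [eq_div_iff (by positivity)] at h1 ⊢
        linear_combination h1
      have hcop : Nat.Coprime x.num.natAbs (w ^ 2) := by
        have h1 := x.reduced
        rw [hx] at h1
        exact Nat.Coprime.coprime_dvd_right ⟨τ, by ring⟩ h1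
      have hXden : ((τ : ℚ) * x).den = 1 * w ^ 2 := by
        rw [hX, one_mul]
        have h1 := Rat.den_div_eq_of_coprime (a := x.num) (b := ((w ^ 2 : ℕ) : ℤ))
          (by exact_mod_cast hw2pos) (by rw [Int.natAbs_natCast]; exact hcop)
        rw [Int.cast_natCast] at h1
        exact_mod_cast h1
      have h2 := rat_even (n := d) ⟨D, hD⟩ (fun i : Fin (d + 1) => k * (τ : ℤ) ^ (d - (i : ℕ)) * a i)
        ((τ : ℚ) * x) ((k : ℚ) * τ ^ D * y) ?_ 1 w hXden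
      · rw [Nat.cast_one] at h2
        exact h2
      · have h3 : ∀ i : Fin (d + 1), (((k * (τ : ℤ) ^ (d - (i : ℕ)) * a i : ℤ)) : ℚ) *
            ((τ : ℚ) * x) ^ (i : ℕ) = ((k : ℚ) * (τ : ℚ) ^ d) * ((a i : ℚ) * x ^ (i : ℕ)) := by
          intro i
          have h4 : (τ : ℚ) ^ d = (τ : ℚ) ^ (d - (i : ℕ)) * (τ : ℚ) ^ (i : ℕ) := by
            rw [← pow_add]
            congr 1
            have := i.2
            omega
          rw [h4]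
          push_cast
          ring
        rw [Finset.sum_congr rfl fun i _ => h3 i, ← Finset.mul_sum, ← hy, hD]
        ring
  have hfin : ∀ t ∈ T, (S t).Finite := fun t _ => (box_fin (d + 1) H).subset fun a ha => ha.1
  have hSt : ∀ t ∈ T, (S t).ncard ≤
      {b : Fin (d + 1) → ℤ | (∀ i, |b i| ≤ (H' : ℤ)) ∧ HasE 1 b}.ncard := by
    rintro ⟨k, τ⟩ ht
    rw [hT, Finset.mem_product, Finset.mem_Icc, Finset.mem_Icc] at ht
    obtain ⟨hk, hτ⟩ := ht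
    dsimp only at hk hτ
    have hτZ : (τ : ℤ) ≠ 0 := by exact_mod_cast (Nat.one_le_iff_ne_zero.1 hτ.1)
    refine Set.ncard_le_ncard_of_injOn
      (fun a : Fin (d + 1) → ℤ => fun i : Fin (d + 1) => k * (τ : ℤ) ^ (d - (i : ℕ)) * a i) ?_ ?_
      ((box_fin (d + 1) H').subset fun a ha => ha.1)
    · rintro a ⟨ha1, ha2, ha4⟩
      refine ⟨fun i => ?_, ha4⟩
      have hi1 : |a i| ≤ (H : ℤ) := ha1 i
      have hkk : |k| ≤ (B : ℤ) := abs_le.2 hk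
      have hB1 : (1 : ℤ) ≤ B := by exact_mod_cast hB
      have hτB : (τ : ℤ) ≤ B := by exact_mod_cast hτ.2
      have h2 : (τ : ℤ) ^ (d - (i : ℕ)) ≤ (B : ℤ) ^ d :=
        (pow_le_pow_left₀ (by positivity) hτB _).trans (pow_le_pow_right₀ hB1 (by omega))
      rw [abs_mul, abs_mul, abs_pow, Nat.abs_cast, hH']
      calc |k| * (τ : ℤ) ^ (d - (i : ℕ)) * |a i| ≤ B * (B : ℤ) ^ d * H := by gcongr
        _ = ((B ^ (d + 1) * H : ℕ) : ℤ) := by push_cast; ring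
    · rintro a ⟨ha1, ha2, ha4⟩ a' ⟨ha1', ha2', ha4'⟩ heq
      dsimp only at ha2
      funext i
      have h1 : k * (τ : ℤ) ^ (d - (i : ℕ)) * a i = k * (τ : ℤ) ^ (d - (i : ℕ)) * a' i :=
        congrFun heq i
      exact mul_left_cancel₀ (mul_ne_zero ha2 (pow_ne_zero _ hτZ)) h1
  calc _ ≤ (⋃ t ∈ T, S t).ncard :=
        Set.ncard_le_ncard hsub (Set.Finite.biUnion T.finite_toSet fun t ht => hfin t ht)
    _ ≤ ∑ t ∈ T, (S t).ncard := Finset.set_ncard_biUnion_le T S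
    _ ≤ ∑ _t ∈ T, {b : Fin (d + 1) → ℤ | (∀ i, |b i| ≤ (H' : ℤ)) ∧ HasE 1 b}.ncard :=
        Finset.sum_le_sum hSt
    _ = _ := by rw [Finset.sum_const, hTc, smul_eq_mul]

end Pool.Agent.Helper32.DZ
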