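import Pool.Agent.Helper32.DZ.RatPt

set_option autoImplicit false

/-!
Project DZ, part 4. Reduction of rational points with denominator `τ w^2` to `HasE 1`, `HasO`.

`d` odd, `k` squarefree, `k y^2 = f(x)`, `q = x.den`, `g = gcd (q, a_d)`, `q / g = E w0^2` with `E` squarefree. Then `E ∣ k`, `k = E k1`
and the polynomial with the coefficients `k1 g^(d-1-i) E^(d-i) a_i` (`k1 a_d / g` for `i = d`) takes at `g E x = x.num / w0^2` the
value of a rational square, and `w0` is coprime to its leading coefficient.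
-/

namespace Pool.Agent.Helper32.DZ

/-- the scaled polynomial -/
def scl {d : ℕ} (g E : ℕ) (k1 : ℤ) (a : Fin (d + 1) → ℤ) : Fin (d + 1) → ℤ := fun i =>
  if i = Fin.last d then k1 * (a i / g) else k1 * (g : ℤ) ^ (d - 1 - (i : ℕ)) * (E : ℤ) ^ (d - (i : ℕ)) * a i

theorem scl_cast {d g E : ℕ} (k1 : ℤ) (a : Fin (d + 1) → ℤ) (hg : 1 ≤ g)
    (hga : (g : ℤ) ∣ a (Fin.last d)) (i : Fin (d + 1)) :
    ((scl g E k1 a i : ℤ) : ℚ) = (k1 : ℚ) * ((g : ℚ) * E) ^ (d - (i : ℕ)) * (a i : ℚ) / g := by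
  have hg0 : (g : ℚ) ≠ 0 := by exact_mod_cast (Nat.one_le_iff_ne_zero.1 hg)
  by_cases hi : i = Fin.last d
  · subst hi
    obtain ⟨a', ha'⟩ := hga
    have h1 : a (Fin.last d) / (g : ℤ) = a' := by
      rw [ha']
      exact Int.mul_ediv_cancel_left _ (by exact_mod_cast (Nat.one_le_iff_ne_zero.1 hg))
    rw [scl, if_pos rfl, h1, Fin.val_last, Nat.sub_self, pow_zero, mul_one, ha']
    push_cast
    field_simp
  · have hlt : (i : ℕ) < d := by
      have h1 := i.2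
      have h2 : (i : ℕ) ≠ d := fun h => hi (Fin.ext (by rw [Fin.val_last]; exact h))
      omega
    rw [scl, if_neg hi]
    obtain ⟨e, he⟩ : ∃ e, d - (i : ℕ) = e + 1 := ⟨d - 1 - i, by omega⟩
    have he2 : d - 1 - (i : ℕ) = e := by omega
    rw [he, he2]
    push_cast
    field_simp
    ring

theorem red_point {d : ℕ} (hd : Odd d) (a : Fin (d + 1) → ℤ) (ha : a (Fin.last d) ≠ 0) (k : ℤ)
    (hk : Squarefree k) (x y : ℚ) (h : (k : ℚ) * y ^ 2 = ∑ i, (a i : ℚ) * x ^ (i : ℕ)) :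
    ∃ (g E w0 : ℕ) (k1 : ℤ), 1 ≤ g ∧ 1 ≤ E ∧ 1 ≤ w0 ∧ (g : ℤ) ∣ a (Fin.last d) ∧ k = E * k1 ∧
      x.den = g * (E * w0 ^ 2) ∧ HasO (scl g E k1 a) := by
  have hk0 : k ≠ 0 := hk.ne_zero
  obtain ⟨D, hD⟩ := hd
  set q : ℕ := x.den with hq
  set r : ℤ := x.num with hr
  have hq0 : 0 < q := x.den_pos
  set g : ℕ := Nat.gcd q (a (Fin.last d)).natAbs with hgdef
  have hg0 : 0 < g := Nat.gcd_pos_of_pos_left _ hq0
  obtain ⟨s0, hs0⟩ : g ∣ q := Nat.gcd_dvd_left _ _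
  have hga : (g : ℤ) ∣ a (Fin.last d) := Int.natCast_dvd.2 (Nat.gcd_dvd_right _ _)
  obtain ⟨a', ha'⟩ := hga
  have hgZ : (g : ℤ) ≠ 0 := by exact_mod_cast hg0.ne'
  have hgQ : (g : ℚ) ≠ 0 := by exact_mod_cast hg0.ne'
  have hs00 : 0 < s0 := by
    rcases Nat.eq_zero_or_pos s0 with h0 | h0
    · rw [h0, mul_zero] at hs0; omega
    · exact h0
  -- coprimality
  have hcop : Nat.Coprime s0 a'.natAbs := by
    have h1 := Nat.coprime_div_gcd_div_gcd (m := q) (n := (a (Fin.last d)).natAbs) hg0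
    rw [← hgdef, ha', Int.natAbs_mul, Int.natAbs_natCast] at h1
    have h2 : q / g = s0 := by rw [hs0]; exact Nat.mul_div_cancel_left _ hg0
    have h3 : g * a'.natAbs / g = a'.natAbs := Nat.mul_div_cancel_left _ hg0
    rw [h2, h3] at h1
    exact h1
  have hcopZ : IsCoprime (s0 : ℤ) a' := by
    rw [Int.isCoprime_iff_gcd_eq_one, Int.gcd, Int.natAbs_natCast]
    exact hcop
  have hrq : IsCoprime (q : ℤ) r := by
    rw [Int.isCoprime_iff_gcd_eq_one, Int.gcd, Int.natAbs_natCast]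
    exact (x.reduced).symm
  have hrs : IsCoprime (s0 : ℤ) r := by
    have h1 : ((s0 : ℕ) : ℤ) ∣ (q : ℤ) := by
      rw [hs0]; push_cast; exact Dvd.intro_left _ rfl
    exact IsCoprime.of_isCoprime_of_dvd_left hrq h1
  -- F1
  set T : ℤ := ∑ i : Fin d, a i.castSucc * r ^ (i : ℕ) * (q : ℤ) ^ (d - 1 - (i : ℕ)) with hT
  set F1 : ℤ := a' * r ^ d + (s0 : ℤ) * T with hF1
  have hcF : IsCoprime (s0 : ℤ) F1 := by
    rw [hF1]
    refine IsCoprime.add_mul_left_right ?_ T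
    exact IsCoprime.mul_right hcopZ (IsCoprime.pow_right hrs)
  have hqQ : (q : ℚ) ≠ 0 := by exact_mod_cast hq0.ne'
  have hx : x = (r : ℚ) / (q : ℚ) := (Rat.num_div_den x).symm
  have hF : ((g * F1 : ℤ) : ℚ) = (q : ℚ) ^ d * ∑ i, (a i : ℚ) * x ^ (i : ℕ) := by
    have h1 : ((g * F1 : ℤ) : ℚ) = (a (Fin.last d) : ℚ) * r ^ d + (q : ℚ) * T := by
      rw [hF1, ha', hs0]; push_cast; ring
    rw [h1, Fin.sum_univ_castSucc, mul_add, add_comm, hT]
    push_cast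
    congr 1
    · rw [Finset.mul_sum, Finset.mul_sum]
      refine Finset.sum_congr rfl fun i _ => ?_
      have hi := i.2
      obtain ⟨e, he⟩ : ∃ e, d = (i : ℕ) + e + 1 := ⟨d - 1 - i, by omega⟩
      have he1 : d - 1 - (i : ℕ) = e := by omega
      rw [he1, hx]
      rw [Fin.val_castSucc]
      rw [div_pow]
      have : (q : ℚ) ^ d = (q : ℚ) ^ (i : ℕ) * (q : ℚ) ^ e * q := by
        rw [← pow_add, ← pow_succ]
        congr 1
      rw [this]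
      field_simp
    · rw [hx, div_pow]
      field_simp
  have hsq : IsSquare (k * q * (g * F1)) := by
    rw [← Rat.isSquare_intCast_iff]
    refine ⟨(k : ℚ) * q ^ (D + 1) * y, ?_⟩
    have h2 : ((k * q * (g * F1) : ℤ) : ℚ) = (k : ℚ) * q * ((g * F1 : ℤ) : ℚ) := by push_cast; ring
    rw [h2, hF, ← h, hD]
    ring
  obtain ⟨v, hv⟩ := hsq
  have hgv : (g : ℤ) ∣ v := by
    have h1 : (g : ℤ) ^ 2 ∣ v ^ 2 := by
      rw [pow_two v, ← hv, hs0]
      exact ⟨k * s0 * F1, by push_cast; ring⟩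
    exact (Int.pow_dvd_pow_iff two_ne_zero).1 h1
  obtain ⟨v1, hv1⟩ := hgv
  have hv1' : k * s0 * F1 = v1 ^ 2 := by
    have h1 : (g : ℤ) ^ 2 * (k * s0 * F1) = (g : ℤ) ^ 2 * v1 ^ 2 := by
      have h2 : k * (q : ℤ) * (g * F1) = (g * v1) * (g * v1) := by rw [← hv1, hv]
      rw [hs0] at h2
      push_cast at h2
      linarith [h2, sq_nonneg v1, (by ring : (g : ℤ) ^ 2 * (k * s0 * F1) = k * (g * s0) * (g * F1)),
        (by ring : (g : ℤ) ^ 2 * v1 ^ 2 = (g * v1) * (g * v1))]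
    exact mul_left_cancel₀ (pow_ne_zero 2 hgZ) h1
  obtain ⟨E, w0, hEw, hEsq⟩ := Nat.sq_mul_squarefree s0
  have hE0 : E ≠ 0 := hEsq.ne_zero
  have hw0 : w0 ≠ 0 := by
    rintro rfl
    rw [zero_pow two_ne_zero, zero_mul] at hEw
    omega
  have hEZ : (E : ℤ) ≠ 0 := by exact_mod_cast hE0
  have hwZ : (w0 : ℤ) ≠ 0 := by exact_mod_cast hw0
  have hs0Z : (s0 : ℤ) = (w0 : ℤ) ^ 2 * E := by rw [← hEw]; push_cast; ring
  have hwv : (w0 : ℤ) ∣ v1 := by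
    have h1 : (w0 : ℤ) ^ 2 ∣ v1 ^ 2 := by
      rw [← hv1', hs0Z]
      exact ⟨k * E * F1, by ring⟩
    exact (Int.pow_dvd_pow_iff two_ne_zero).1 h1
  obtain ⟨v2, hv2⟩ := hwv
  have hv2' : E * (k * F1) = v2 ^ 2 := by
    have h1 : (w0 : ℤ) ^ 2 * (E * (k * F1)) = (w0 : ℤ) ^ 2 * v2 ^ 2 := by
      rw [hs0Z, hv2] at hv1'
      linear_combination hv1'
    exact mul_left_cancel₀ (pow_ne_zero 2 hwZ) h1
  have hEv : (E : ℤ) ∣ v2 := by
    have h1 : (E : ℤ) ∣ v2 ^ 2 := ⟨k * F1, hv2'.symm⟩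
    exact ((Int.squarefree_natCast.2 hEsq).dvd_pow_iff_dvd two_ne_zero).1 h1
  obtain ⟨v3, hv3⟩ := hEv
  have hv3' : k * F1 = E * v3 ^ 2 := by
    have h1 : (E : ℤ) * (k * F1) = (E : ℤ) * (E * v3 ^ 2) := by
      rw [hv2', hv3]; ring
    exact mul_left_cancel₀ hEZ h1
  have hEF : IsCoprime (E : ℤ) F1 :=
    IsCoprime.of_isCoprime_of_dvd_left hcF ⟨(w0 : ℤ) ^ 2, by rw [hs0Z]; ring⟩
  have hwF : IsCoprime (w0 : ℤ) F1 :=
    IsCoprime.of_isCoprime_of_dvd_left hcF ⟨(w0 : ℤ) * E, by rw [hs0Z]; ring⟩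
  have hEk : (E : ℤ) ∣ k := hEF.dvd_of_dvd_mul_right ⟨v3 ^ 2, hv3'⟩
  obtain ⟨k1, hk1⟩ := hEk
  have hk1' : k1 * F1 = v3 ^ 2 := by
    have h1 : (E : ℤ) * (k1 * F1) = (E : ℤ) * v3 ^ 2 := by
      rw [← hv3', hk1]; ring
    exact mul_left_cancel₀ hEZ h1
  have hk1sq : Squarefree k1 := hk.squarefree_of_dvd ⟨(E : ℤ), by rw [hk1]; ring⟩
  -- coprimality of w0 and k1
  have hwk : IsCoprime (w0 : ℤ) k1 := by
    rw [Int.isCoprime_iff_gcd_eq_one, Int.gcd, Int.natAbs_natCast]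
    by_contra hne
    obtain ⟨p, hp, hp1, hp2⟩ := Nat.Prime.not_coprime_iff_dvd.1 hne
    have hpZ : Prime (p : ℤ) := Nat.prime_iff_prime_int.1 hp
    have h1 : (p : ℤ) ∣ k1 := Int.natCast_dvd.2 hp2
    have h2 : (p : ℤ) ∣ (w0 : ℤ) := by exact_mod_cast hp1
    have h3 : (p : ℤ) ∣ v3 := by
      refine hpZ.dvd_of_dvd_pow (n := 2) ?_
      rw [← hk1']
      exact Dvd.dvd.mul_right h1 _
    have h4 : (p : ℤ) ^ 2 ∣ k1 * F1 := by
      rw [hk1']
      exact pow_dvd_pow_of_dvd h3 2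
    have h5 : IsCoprime ((p : ℤ) ^ 2) F1 :=
      IsCoprime.pow_left (IsCoprime.of_isCoprime_of_dvd_left hwF h2)
    have h6 : (p : ℤ) ^ 2 ∣ k1 := h5.dvd_of_dvd_mul_right h4
    have h7 := hk1sq (p : ℤ) (by rw [← pow_two]; exact h6)
    exact hpZ.not_isUnit h7
  have hwa : IsCoprime (w0 : ℤ) a' :=
    IsCoprime.of_isCoprime_of_dvd_left hcopZ ⟨(w0 : ℤ) * E, by rw [hs0Z]; ring⟩
  have hwr : IsCoprime (w0 : ℤ) r :=
    IsCoprime.of_isCoprime_of_dvd_left hrs ⟨(w0 : ℤ) * E, by rw [hs0Z]; ring⟩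
  -- the point
  have hxden : q = g * (E * w0 ^ 2) := by rw [hs0, ← hEw]; ring
  have hw2pos : 0 < w0 ^ 2 := by positivity
  have hX : ((g : ℚ) * E) * x = (r : ℚ) / ((w0 ^ 2 : ℕ) : ℚ) := by
    have hwQ : (w0 : ℚ) ≠ 0 := by exact_mod_cast hw0
    have hEQ : (E : ℚ) ≠ 0 := by exact_mod_cast hE0
    rw [hx, hxden]
    push_cast
    field_simp
  have hXden : (((g : ℚ) * E) * x).den = w0 ^ 2 := by
    rw [hX]
    have h1 := Rat.den_div_eq_of_coprime (a := r) (b := ((w0 ^ 2 : ℕ) : ℤ)) (by exact_mod_cast hw2pos)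
      (by
        rw [Int.natAbs_natCast]
        have h2 : IsCoprime r ((w0 ^ 2 : ℕ) : ℤ) := by
          push_cast
          exact (IsCoprime.pow_left hwr).symm
        rw [Int.isCoprime_iff_gcd_eq_one, Int.gcd, Int.natAbs_natCast] at h2
        exact h2)
    rw [Int.cast_natCast] at h1
    exact_mod_cast h1
  refine ⟨g, E, w0, k1, hg0, Nat.one_le_iff_ne_zero.2 hE0, Nat.one_le_iff_ne_zero.2 hw0,
    ⟨a', ha'⟩, hk1, hxden, ?_⟩
  refine rat_odd ⟨D, hD⟩ (scl g E k1 a) (((g : ℚ) * E) * x) ((k1 : ℚ) * g ^ D * E ^ (D + 1) * y) ?_ ?_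
  · have h1 : ∀ i : Fin (d + 1), ((scl g E k1 a i : ℤ) : ℚ) * (((g : ℚ) * E) * x) ^ (i : ℕ) =
        ((k1 : ℚ) * ((g : ℚ) * E) ^ d / g) * ((a i : ℚ) * x ^ (i : ℕ)) := by
      intro i
      rw [scl_cast k1 a hg0 ⟨a', ha'⟩ i, mul_pow _ x]
      have h2 : ((g : ℚ) * E) ^ d = ((g : ℚ) * E) ^ (d - (i : ℕ)) * ((g : ℚ) * E) ^ (i : ℕ) := by
        rw [← pow_add]
        congr 1
        have := i.2
        omega
      rw [h2]
      ring
    rw [Finset.sum_congr rfl fun i _ => h1 i, ← Finset.mul_sum, ← h, hk1, hD]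
    push_cast
    field_simp
    ring
  · rw [hXden]
    have h1 : scl g E k1 a (Fin.last d) = k1 * a' := by
      rw [scl, if_pos rfl, ha', Int.mul_ediv_cancel_left _ hgZ]
    rw [h1]
    have h2 : IsCoprime (((w0 ^ 2 : ℕ)) : ℤ) (k1 * a') := by
      push_cast
      exact IsCoprime.pow_left (IsCoprime.mul_right hwk hwa)
    rw [Int.isCoprime_iff_gcd_eq_one, Int.gcd, Int.natAbs_natCast] at h2
    exact h2

end Pool.Agent.Helper32.DZ
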