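import Pool.Agent.Helper32.DZ.NonGood
import Pool.Agent.Helper32.DZ.RedTotal
import Pool.Agent.Helper38.DZR.EvenMainR
import Pool.Agent.Helper38.DZR.OddMainR

set_option autoImplicit false

/-!
Project DZ, part 5. Total counts (all tuples) from the counts of good tuples, with the rate. The first lemma is adapted from helper91's
proof of `density_rate` (Helper38/DZR/FinalR.lean).
-/

namespace Pool.Agent.Helper32.DZ

theorem tot_of_good (d : ℕ) (hd : 1 ≤ d) (Q : (Fin (d + 1) → ℤ) → Prop) (C0 c0 : ℝ) (hC0 : 1 ≤ C0)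
    (hc0 : 0 < c0)
    (hmain : ∀ H : ℕ, 2 ≤ H →
      {a : Fin (d + 1) → ℤ | (∀ i, |a i| ≤ (H : ℤ)) ∧ Good a ∧ Q a}.Finite ∧
      (({a : Fin (d + 1) → ℤ | (∀ i, |a i| ≤ (H : ℤ)) ∧ Good a ∧ Q a}.ncard : ℕ) : ℝ) ≤
        C0 * (H : ℝ) ^ (d + 1) * (Real.log H) ^ (-c0)) :
    ∃ C c : ℝ, 1 ≤ C ∧ 0 < c ∧ c ≤ 1 ∧ ∀ H : ℕ, 2 ≤ H →
      (({a : Fin (d + 1) → ℤ | (∀ i, |a i| ≤ (H : ℤ)) ∧ Q a}.ncard : ℕ) : ℝ) ≤
        C * (2 * (H : ℝ) + 1) ^ (d + 1) * (Real.log H) ^ (-c) := by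
  have hl2 : 0 < Real.log 2 := Real.log_pos (by norm_num)
  have hl21 : Real.log 2 ≤ 1 := by
    have := Real.log_le_sub_one_of_pos (show (0 : ℝ) < 2 by norm_num)
    linarith
  have hK1 : 1 ≤ (Real.log 2) ^ (-c0) := Real.one_le_rpow_of_pos_of_le_one_of_nonpos hl2 hl21
    (by linarith)
  refine ⟨C0 * (Real.log 2) ^ (-c0) + (d : ℝ), min c0 1, ?_, by positivity, min_le_right _ _,
    fun H hH => ?_⟩
  · have h1 : 1 ≤ C0 * (Real.log 2) ^ (-c0) := by nlinarith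
    have h2 : (0 : ℝ) ≤ (d : ℝ) := Nat.cast_nonneg d
    linarith
  obtain ⟨hf1, hc1⟩ := hmain H hH
  obtain ⟨hf2, hc2⟩ := nongood_card d H hd
  have hH2 : (2 : ℝ) ≤ (H : ℝ) := by exact_mod_cast hH
  have hL2 : Real.log 2 ≤ Real.log H := Real.log_le_log (by norm_num) hH2
  have hL0 : 0 < Real.log H := lt_of_lt_of_le hl2 hL2
  have hLH : Real.log H ≤ 2 * (H : ℝ) + 1 := by
    have := Real.log_le_sub_one_of_pos (show (0 : ℝ) < (H : ℝ) by linarith)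
    linarith
  have hsub : {a : Fin (d + 1) → ℤ | (∀ i, |a i| ≤ (H : ℤ)) ∧ Q a} ⊆
      {a : Fin (d + 1) → ℤ | (∀ i, |a i| ≤ (H : ℤ)) ∧ Good a ∧ Q a} ∪
      {a : Fin (d + 1) → ℤ | (∀ i, |a i| ≤ (H : ℤ)) ∧ ¬ Good a} := by
    intro a ha
    by_cases hg : Good a
    · exact Or.inl ⟨ha.1, hg, ha.2⟩
    · exact Or.inr ⟨ha.1, hg⟩
  have h1 := (Set.ncard_le_ncard hsub (hf1.union hf2)).trans (Set.ncard_union_le _ _)
  have h2 : (({a : Fin (d + 1) → ℤ | (∀ i, |a i| ≤ (H : ℤ)) ∧ Q a}.ncard : ℕ) : ℝ) ≤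
      (({a : Fin (d + 1) → ℤ | (∀ i, |a i| ≤ (H : ℤ)) ∧ Good a ∧ Q a}.ncard : ℕ) : ℝ) +
      (({a : Fin (d + 1) → ℤ | (∀ i, |a i| ≤ (H : ℤ)) ∧ ¬ Good a}.ncard : ℕ) : ℝ) := by
    exact_mod_cast h1
  have h3 : (({a : Fin (d + 1) → ℤ | (∀ i, |a i| ≤ (H : ℤ)) ∧ ¬ Good a}.ncard : ℕ) : ℝ) ≤
      (d : ℝ) * (2 * (H : ℝ) + 1) ^ d := by exact_mod_cast hc2
  have hcmp : (Real.log H) ^ (-c0) ≤ (Real.log 2) ^ (-c0) * (Real.log H) ^ (-(min c0 1)) := by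
    rcases le_total (Real.log H) 1 with hle | hge
    · have e1 : (Real.log H) ^ (-c0) ≤ (Real.log 2) ^ (-c0) :=
        Real.rpow_le_rpow_of_nonpos hl2 hL2 (by linarith)
      have e2 : 1 ≤ (Real.log H) ^ (-(min c0 1)) :=
        Real.one_le_rpow_of_pos_of_le_one_of_nonpos hL0 hle
          (by have : 0 < min c0 1 := by positivity
              linarith)
      calc (Real.log H) ^ (-c0) ≤ (Real.log 2) ^ (-c0) * 1 := by linarith
        _ ≤ _ := mul_le_mul_of_nonneg_left e2 (by positivity)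
    · have e1 : (Real.log H) ^ (-c0) ≤ (Real.log H) ^ (-(min c0 1)) :=
        Real.rpow_le_rpow_of_exponent_le hge (neg_le_neg (min_le_left _ _))
      calc (Real.log H) ^ (-c0) ≤ 1 * (Real.log H) ^ (-(min c0 1)) := by linarith
        _ ≤ _ := mul_le_mul_of_nonneg_right hK1 (by positivity)
  have hng : 1 ≤ (2 * (H : ℝ) + 1) * (Real.log H) ^ (-(min c0 1)) := by
    have e1 : (Real.log H) ^ (min c0 1) ≤ 2 * (H : ℝ) + 1 := by
      rcases le_total (Real.log H) 1 with hle | hge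
      · have := Real.rpow_le_one hL0.le hle (show 0 ≤ min c0 1 by positivity)
        linarith
      · have := Real.rpow_le_rpow_of_exponent_le hge (min_le_right c0 1)
        rw [Real.rpow_one] at this
        linarith
    rw [Real.rpow_neg hL0.le, ← div_eq_mul_inv, one_le_div (by positivity)]
    exact e1
  have hE0 : 0 ≤ (Real.log H) ^ (-(min c0 1)) := by positivity
  have h5 : (H : ℝ) ^ (d + 1) ≤ (2 * (H : ℝ) + 1) ^ (d + 1) :=
    pow_le_pow_left₀ (by linarith) (by linarith) _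
  have h6 : C0 * (H : ℝ) ^ (d + 1) * (Real.log H) ^ (-c0) ≤
      C0 * (2 * (H : ℝ) + 1) ^ (d + 1) *
        ((Real.log 2) ^ (-c0) * (Real.log H) ^ (-(min c0 1))) := by
    refine mul_le_mul (mul_le_mul_of_nonneg_left h5 (by linarith)) hcmp (by positivity)
      (by positivity)
  have h7 : (d : ℝ) * (2 * (H : ℝ) + 1) ^ d ≤
      (d : ℝ) * (2 * (H : ℝ) + 1) ^ (d + 1) * (Real.log H) ^ (-(min c0 1)) := by
    have e1 := mul_le_mul_of_nonneg_left hng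
      (show 0 ≤ (d : ℝ) * (2 * (H : ℝ) + 1) ^ d by positivity)
    rw [mul_one] at e1
    refine e1.trans (le_of_eq ?_)
    ring
  have h8 : (C0 * (Real.log 2) ^ (-c0) + (d : ℝ)) * (2 * (H : ℝ) + 1) ^ (d + 1) *
      (Real.log H) ^ (-(min c0 1)) =
      C0 * (2 * (H : ℝ) + 1) ^ (d + 1) *
        ((Real.log 2) ^ (-c0) * (Real.log H) ^ (-(min c0 1))) +
      (d : ℝ) * (2 * (H : ℝ) + 1) ^ (d + 1) * (Real.log H) ^ (-(min c0 1)) := by ring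
  rw [h8]
  linarith

theorem tot_E (d : ℕ) (hd : 2 ≤ d) (he : Even d) :
    ∃ C c : ℝ, 1 ≤ C ∧ 0 < c ∧ c ≤ 1 ∧ ∀ H : ℕ, 2 ≤ H →
      (({a : Fin (d + 1) → ℤ | (∀ i, |a i| ≤ (H : ℤ)) ∧ HasE 1 a}.ncard : ℕ) : ℝ) ≤
        C * (2 * (H : ℝ) + 1) ^ (d + 1) * (Real.log H) ^ (-c) := by
  obtain ⟨m, rfl⟩ : ∃ m, d = m + 1 := ⟨d - 1, by omega⟩
  have hm : Odd m := by
    rcases Nat.even_or_odd m with h | h
    · obtain ⟨r, hr⟩ := h
      obtain ⟨s, hs⟩ := he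
      omega
    · exact h
  obtain ⟨C, hC, hmain⟩ := Pool.Agent.Helper38.DZR.even_main_r m hm 1 one_ne_zero
  exact tot_of_good (m + 1) (by omega) (HasE 1) C (1 / 64) hC (by norm_num) hmain

theorem tot_O (d : ℕ) (hd : 2 ≤ d) (ho : Odd d) :
    ∃ C c : ℝ, 1 ≤ C ∧ 0 < c ∧ c ≤ 1 ∧ ∀ H : ℕ, 2 ≤ H →
      (({a : Fin (d + 1) → ℤ | (∀ i, |a i| ≤ (H : ℤ)) ∧ HasO a}.ncard : ℕ) : ℝ) ≤
        C * (2 * (H : ℝ) + 1) ^ (d + 1) * (Real.log H) ^ (-c) := by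
  obtain ⟨m, rfl⟩ : ∃ m, d = m + 1 := ⟨d - 1, by omega⟩
  have hm : Even m := by
    rcases Nat.even_or_odd m with h | h
    · exact h
    · obtain ⟨r, hr⟩ := h
      obtain ⟨s, hs⟩ := ho
      omega
  have h2 : 2 ≤ m := by
    obtain ⟨r, hr⟩ := hm
    omega
  obtain ⟨C, c, hC, hc, hmain⟩ := Pool.Agent.Helper38.DZR.odd_main_r m hm h2
  exact tot_of_good (m + 1) (by omega) HasO C c hC hc hmain

end Pool.Agent.Helper32.DZ
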