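import Pool.Agent.Helper32.DZ.Defs

set_option autoImplicit false

/-!
DZ-15 Tri. Tridiagonal matrices and the explicit pencil.

`tri d o n`: symmetric tridiagonal `n × n`, diagonal `d 0, d 1, ...`, off-diagonal `o 0, o 1, ...`.

PROOFS. `tri_det`: expand along the first row (`Matrix.det_succ_row_zero`, only the entries `0`, `1` are not zero),
then the minor of the entry `(0,1)` along its first column (only the entry `o 0` is not zero there); deleting the
first row and column of `tri d o` gives `tri` of the shifted sequences (`Fin.succ`).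
The sequences (`b` coefficients, `c` with `c^2 = b 0`): diagonal of `x A + B'`:
`k = 0`: `x`; `k` odd: `-(b (k+1) x + b k)`; `k ≥ 2` even: `0`. Off-diagonal: `k = 0`: `c`; `k` odd: `x`; `k ≥ 2`
even: `1`. Let `T_k` be the determinant of the lower right block starting at index `k` (size `2m - k`).
For odd `k`, `k = 2j + 1`: `T_k = (-1)^(m-j) ∑_(i = k)^(2m) b i x^(i-k)`, and for even `k = 2j ≥ 2`: `T_k = (-1)^(m-j)`
(down from `T_(2m) = 1` (empty), `T_(2m-1) = -(b(2m) x + b(2m-1))`;
even `k ≥ 2`: `T_k = 0 * T_(k+1) - 1 * T_(k+2)`; odd `k`: `T_k = -(b (k+1) x + b k) T_(k+1) - x^2 T_(k+2)`).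
Finally `T_0 = x T_1 - c^2 T_2 = (-1)^m (c^2 + ∑_(i=1)^(2m) b i x^i)`.
It is convenient to prove by induction on `r` the statement for arbitrary shift:
`det (tri (fun k => d (k + s)) (fun k => o (k + s)) r)` for `s + r = 2m`, `s ≥ 1`.
`tri_A`, `tri_A'`: `A` has diagonal `1, -b 2, 0, -b 4, 0, ..., -b (2m)` and off-diagonal `0, 1, 0, 1, ...`:
same recursion: `det (tri dA oA (2m)) = (-1)^m b (2m)`, `det (tri dA oA (2m-1)) = (-1)^(m-1)`.
-/

open Matrix

namespace Pool.Agent.Helper32.DZ

/-- symmetric tridiagonal matrix -/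
def tri {S : Type} [Zero S] (d o : ℕ → S) (n : ℕ) : Matrix (Fin n) (Fin n) S :=
  Matrix.of fun i j => if (i : ℕ) = j then d i else if (i : ℕ) + 1 = j then o i
    else if (j : ℕ) + 1 = i then o j else 0

/-- diagonal of `A` -/
def dA {S : Type} [Ring S] (b : ℕ → S) (k : ℕ) : S :=
  if k = 0 then 1 else if k % 2 = 1 then -b (k + 1) else 0

/-- off-diagonal of `A` -/
def oA {S : Type} [Ring S] (k : ℕ) : S := if k % 2 = 1 then 1 else 0

/-- diagonal of `B'` -/
def dB {S : Type} [Ring S] (b : ℕ → S) (k : ℕ) : S :=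
  if k = 0 then 0 else if k % 2 = 1 then -b k else 0

/-- off-diagonal of `B'` -/
def oB {S : Type} [Ring S] (c : S) (k : ℕ) : S :=
  if k = 0 then c else if k % 2 = 1 then 0 else 1

private theorem tri_shift {S : Type} [Zero S] (d o : ℕ → S) (s n : ℕ) :
    (tri d o (n + s)).submatrix (fun i : Fin n => (⟨i + s, by omega⟩ : Fin (n + s)))
      (fun i : Fin n => (⟨i + s, by omega⟩ : Fin (n + s))) =
      tri (fun k => d (k + s)) (fun k => o (k + s)) n := by
  ext i j
  simp only [tri, Matrix.submatrix_apply, Matrix.of_apply]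
  have h1 : ((i : ℕ) + s = (j : ℕ) + s) ↔ ((i : ℕ) = j) := by omega
  have h2 : ((i : ℕ) + s + 1 = (j : ℕ) + s) ↔ ((i : ℕ) + 1 = j) := by omega
  have h3 : ((j : ℕ) + s + 1 = (i : ℕ) + s) ↔ ((j : ℕ) + 1 = i) := by omega
  simp only [h1, h2, h3]

theorem tri_det {S : Type} [CommRing S] (d o : ℕ → S) (n : ℕ) :
    (tri d o (n + 2)).det =
      d 0 * (tri (fun k => d (k + 1)) (fun k => o (k + 1)) (n + 1)).det -
        (o 0) ^ 2 * (tri (fun k => d (k + 2)) (fun k => o (k + 2)) n).det := by
  rw [Matrix.det_succ_row_zero, Fin.sum_univ_succ, Fin.sum_univ_succ]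
  have hz : ∑ i : Fin n, (-1 : S) ^ (((i.succ).succ : Fin (n + 2)) : ℕ) *
      (tri d o (n + 2)) 0 i.succ.succ *
      ((tri d o (n + 2)).submatrix Fin.succ (i.succ.succ).succAbove).det = 0 := by
    refine Finset.sum_eq_zero fun i _ => ?_
    have h0 : (tri d o (n + 2)) 0 i.succ.succ = 0 := by
      simp [tri]
    rw [h0]; ring
  rw [hz]
  have h00 : (tri d o (n + 2)) 0 0 = d 0 := by simp [tri]
  have h01 : (tri d o (n + 2)) 0 (Fin.succ 0) = o 0 := by simp [tri]
  have hs1 : (tri d o (n + 2)).submatrix Fin.succ (Fin.succAbove 0) =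
      tri (fun k => d (k + 1)) (fun k => o (k + 1)) (n + 1) := by
    rw [← tri_shift d o 1 (n + 1)]
    ext i j
    simp only [Matrix.submatrix_apply, Fin.zero_succAbove]
    rfl
  have hs2 : ((tri d o (n + 2)).submatrix Fin.succ (Fin.succAbove (Fin.succ 0))).det =
      o 0 * (tri (fun k => d (k + 2)) (fun k => o (k + 2)) n).det := by
    rw [Matrix.det_succ_column_zero, Fin.sum_univ_succ]
    have hz2 : ∑ i : Fin n, (-1 : S) ^ ((i.succ : Fin (n + 1)) : ℕ) *
        ((tri d o (n + 2)).submatrix Fin.succ (Fin.succAbove (Fin.succ 0))) i.succ 0 *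
        (((tri d o (n + 2)).submatrix Fin.succ (Fin.succAbove (Fin.succ 0))).submatrix
          (i.succ).succAbove Fin.succ).det = 0 := by
      refine Finset.sum_eq_zero fun i _ => ?_
      have h0 : ((tri d o (n + 2)).submatrix Fin.succ (Fin.succAbove (Fin.succ 0))) i.succ 0 = 0 := by
        simp [tri, Matrix.submatrix_apply]
      rw [h0]; ring
    rw [hz2]
    have h10 : ((tri d o (n + 2)).submatrix Fin.succ (Fin.succAbove (Fin.succ 0))) 0 0 = o 0 := by
      simp [tri, Matrix.submatrix_apply]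
    have hm : (((tri d o (n + 2)).submatrix Fin.succ (Fin.succAbove (Fin.succ 0))).submatrix
          (Fin.succAbove 0) Fin.succ) = tri (fun k => d (k + 2)) (fun k => o (k + 2)) n := by
      rw [← tri_shift d o 2 n]
      ext i j
      simp only [Matrix.submatrix_apply, Fin.zero_succAbove]
      congr 1
    rw [h10, hm]
    simp
  rw [h00, h01, hs1, hs2]
  simp
  ring

/-- determinant of the block of size `r` starting at the index `s` -/
private def blk {S : Type} [CommRing S] (d o : ℕ → S) (s r : ℕ) : S :=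
  (tri (fun k => d (k + s)) (fun k => o (k + s)) r).det

private theorem blk_zero {S : Type} [CommRing S] (d o : ℕ → S) (s : ℕ) : blk d o s 0 = 1 := by
  simp [blk]

private theorem blk_one {S : Type} [CommRing S] (d o : ℕ → S) (s : ℕ) : blk d o s 1 = d s := by
  simp [blk, tri]

private theorem blk_step {S : Type} [CommRing S] (d o : ℕ → S) (s r : ℕ) :
    blk d o s (r + 2) = d s * blk d o (s + 1) (r + 1) - (o s) ^ 2 * blk d o (s + 2) r := by
  have h := tri_det (fun k => d (k + s)) (fun k => o (k + s)) r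
  simp only [zero_add] at h
  rw [blk, h, blk, blk]
  have e1 : (fun k => d (k + 1 + s)) = (fun k => d (k + (s + 1))) := by
    funext k; congr 1; omega
  have e2 : (fun k => o (k + 1 + s)) = (fun k => o (k + (s + 1))) := by
    funext k; congr 1; omega
  have e3 : (fun k => d (k + 2 + s)) = (fun k => d (k + (s + 2))) := by
    funext k; congr 1; omega
  have e4 : (fun k => o (k + 2 + s)) = (fun k => o (k + (s + 2))) := by
    funext k; congr 1; omega
  rw [e1, e2, e3, e4]

private theorem blk_start {S : Type} [CommRing S] (d o : ℕ → S) (r : ℕ) :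
    (tri d o r).det = blk d o 0 r := by
  rfl

private theorem pencil_aux {S : Type} [CommRing S] (b : ℕ → S) (c x : S) (q : ℕ) :
    ∀ j : ℕ, blk (fun k => x * dA b k + dB b k) (fun k => x * oA k + oB c k) (2 * j + 2) (2 * q) =
        (-1) ^ q ∧
      blk (fun k => x * dA b k + dB b k) (fun k => x * oA k + oB c k) (2 * j + 1) (2 * q + 1) =
        (-1) ^ (q + 1) * ∑ i ∈ Finset.range (2 * q + 2), b (2 * j + 1 + i) * x ^ i := by
  induction q with
  | zero =>
    intro j
    constructor
    · rw [Nat.mul_zero, blk_zero, pow_zero]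
    · rw [Nat.mul_zero, zero_add, blk_one]
      have h1 : (2 * j + 1) % 2 = 1 := by omega
      simp only [dA, dB, h1, if_true, Nat.add_eq_zero_iff, one_ne_zero, and_false, if_false]
      simp [Finset.sum_range_succ]
      ring
  | succ q ih =>
    intro j
    have d0 : x * dA b (2 * j + 2) + dB b (2 * j + 2) = 0 := by
      have h1 : ¬ (2 * j + 2) % 2 = 1 := by omega
      have h2 : ¬ (2 * j + 2) = 0 := by omega
      simp only [dA, dB, h1, h2, if_false]; ring
    have o0 : x * oA (2 * j + 2) + oB c (2 * j + 2) = 1 := by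
      have h1 : ¬ (2 * j + 2) % 2 = 1 := by omega
      have h2 : ¬ (2 * j + 2) = 0 := by omega
      simp only [oA, oB, h1, h2, if_false]; ring
    have d1 : x * dA b (2 * j + 1) + dB b (2 * j + 1) = -(x * b (2 * j + 2) + b (2 * j + 1)) := by
      have h1 : (2 * j + 1) % 2 = 1 := by omega
      have h2 : ¬ (2 * j + 1) = 0 := by omega
      simp only [dA, dB, h1, h2, if_true, if_false]; ring
    have o1 : x * oA (2 * j + 1) + oB c (2 * j + 1) = x := by
      have h1 : (2 * j + 1) % 2 = 1 := by omega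
      have h2 : ¬ (2 * j + 1) = 0 := by omega
      simp only [oA, oB, h1, h2, if_true, if_false]; ring
    have e1 : blk (fun k => x * dA b k + dB b k) (fun k => x * oA k + oB c k) (2 * j + 2)
        (2 * (q + 1)) = (-1) ^ (q + 1) := by
      have h := blk_step (fun k => x * dA b k + dB b k) (fun k => x * oA k + oB c k) (2 * j + 2) (2 * q)
      rw [d0, o0] at h
      have hh : 2 * (q + 1) = 2 * q + 2 := by ring
      have hj : 2 * j + 2 + 2 = 2 * (j + 1) + 2 := by ring
      rw [hh, h, hj, (ih (j + 1)).1]; ring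
    refine ⟨e1, ?_⟩
    have h := blk_step (fun k => x * dA b k + dB b k) (fun k => x * oA k + oB c k) (2 * j + 1)
      (2 * q + 1)
    rw [d1, o1] at h
    have hh : 2 * (q + 1) + 1 = 2 * q + 1 + 2 := by ring
    have hj : 2 * j + 1 + 2 = 2 * (j + 1) + 1 := by ring
    have hk : 2 * q + 1 + 1 = 2 * (q + 1) := by ring
    have hl : 2 * j + 1 + 1 = 2 * j + 2 := by ring
    rw [hj, (ih (j + 1)).2, hk, hl, e1] at h
    rw [hh, h]
    have hs : 2 * (q + 1) + 2 = (2 * q + 2) + 1 + 1 := by ring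
    rw [hs, Finset.sum_range_succ', Finset.sum_range_succ']
    have hsum : ∑ k ∈ Finset.range (2 * q + 2), b (2 * j + 1 + (k + 1 + 1)) * x ^ (k + 1 + 1) =
        x ^ 2 * ∑ k ∈ Finset.range (2 * q + 2), b (2 * (j + 1) + 1 + k) * x ^ k := by
      rw [Finset.mul_sum]
      refine Finset.sum_congr rfl fun k _ => ?_
      have : 2 * j + 1 + (k + 1 + 1) = 2 * (j + 1) + 1 + k := by ring
      rw [this]; ring
    rw [hsum]
    simp only [zero_add, add_zero, pow_zero, pow_succ]
    ring_nf

theorem tri_pencil {S : Type} [CommRing S] (b : ℕ → S) (c x : S) (m : ℕ) (hm : 1 ≤ m) :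
    (tri (fun k => x * dA b k + dB b k) (fun k => x * oA k + oB c k) (2 * m)).det =
      (-1) ^ m * (c ^ 2 + ∑ i ∈ Finset.range (2 * m), b (i + 1) * x ^ (i + 1)) := by
  obtain ⟨q, rfl⟩ : ∃ q, m = q + 1 := ⟨m - 1, by omega⟩
  rw [blk_start]
  have h := blk_step (fun k => x * dA b k + dB b k) (fun k => x * oA k + oB c k) 0 (2 * q)
  have d0 : x * dA b 0 + dB b 0 = x := by
    simp [dA, dB]
  have o0 : x * oA 0 + oB c 0 = c := by
    simp [oA, oB]
  have a1 := (pencil_aux b c x q 0).2
  have a2 := (pencil_aux b c x q 0).1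
  simp only [mul_zero, zero_add] at a1 a2
  have hh : 2 * (q + 1) = 2 * q + 2 := by ring
  rw [d0, o0, zero_add, zero_add, a1, a2] at h
  rw [hh, h]
  have hsum : ∑ i ∈ Finset.range (2 * q + 2), b (i + 1) * x ^ (i + 1) =
      x * ∑ i ∈ Finset.range (2 * q + 2), b (1 + i) * x ^ i := by
    rw [Finset.mul_sum]
    refine Finset.sum_congr rfl fun k _ => ?_
    rw [add_comm 1 k]; ring
  rw [hsum]
  ring

private theorem dA_even {S : Type} [Ring S] (b : ℕ → S) (j : ℕ) : dA b (2 * j + 2) = 0 := by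
  have h1 : ¬ (2 * j + 2) % 2 = 1 := by omega
  have h2 : ¬ (2 * j + 2) = 0 := by omega
  simp only [dA, h1, h2, if_false]

private theorem oA_even {S : Type} [Ring S] (j : ℕ) : oA (S := S) (2 * j + 2) = 0 := by
  have h1 : ¬ (2 * j + 2) % 2 = 1 := by omega
  simp only [oA, h1, if_false]

private theorem dA_odd {S : Type} [Ring S] (b : ℕ → S) (j : ℕ) :
    dA b (2 * j + 1) = -b (2 * j + 2) := by
  have h1 : (2 * j + 1) % 2 = 1 := by omega
  have h2 : ¬ (2 * j + 1) = 0 := by omega
  simp only [dA, h1, h2, if_true, if_false]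

private theorem oA_odd {S : Type} [Ring S] (j : ℕ) : oA (S := S) (2 * j + 1) = 1 := by
  have h1 : (2 * j + 1) % 2 = 1 := by omega
  simp only [oA, h1, if_true]

private theorem blkA_even {S : Type} [CommRing S] (b : ℕ → S) (j r : ℕ) :
    blk (dA b) (oA (S := S)) (2 * j + 2) (r + 1) = 0 := by
  rcases r with _ | r
  · rw [zero_add, blk_one, dA_even]
  · have h := blk_step (dA b) (oA (S := S)) (2 * j + 2) r
    rw [dA_even, oA_even] at h
    rw [h]; ring

private theorem blkA_odd {S : Type} [CommRing S] (b : ℕ → S) (q : ℕ) :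
    ∀ j, blk (dA b) (oA (S := S)) (2 * j + 1) (2 * q + 1) = (-1) ^ (q + 1) * b (2 * (j + q) + 2) := by
  induction q with
  | zero =>
    intro j
    rw [Nat.mul_zero, zero_add, blk_one, dA_odd]; simp
  | succ q ih =>
    intro j
    have h := blk_step (dA b) (oA (S := S)) (2 * j + 1) (2 * q + 1)
    have hj : 2 * j + 1 + 2 = 2 * (j + 1) + 1 := by ring
    have hk : 2 * q + 1 + 1 = (2 * q + 1) + 1 := by ring
    have hl : 2 * j + 1 + 1 = 2 * j + 2 := by ring
    rw [hj, ih (j + 1), hl, blkA_even, oA_odd] at h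
    have hh : 2 * (q + 1) + 1 = 2 * q + 1 + 2 := by ring
    have hi : 2 * (j + (q + 1)) + 2 = 2 * (j + 1 + q) + 2 := by ring
    rw [hh, h, hi]; ring

private theorem blkA_odd' {S : Type} [CommRing S] (b : ℕ → S) (q : ℕ) :
    ∀ j, blk (dA b) (oA (S := S)) (2 * j + 1) (2 * q) = (-1) ^ q := by
  induction q with
  | zero =>
    intro j
    rw [Nat.mul_zero, blk_zero, pow_zero]
  | succ q ih =>
    intro j
    have h := blk_step (dA b) (oA (S := S)) (2 * j + 1) (2 * q)
    have hj : 2 * j + 1 + 2 = 2 * (j + 1) + 1 := by ring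
    have hl : 2 * j + 1 + 1 = 2 * j + 2 := by ring
    rw [hj, ih (j + 1), hl, blkA_even, oA_odd] at h
    have hh : 2 * (q + 1) = 2 * q + 2 := by ring
    rw [hh, h]; ring

theorem tri_A {S : Type} [CommRing S] (b : ℕ → S) (m : ℕ) (hm : 1 ≤ m) :
    (tri (dA b) (oA (S := S)) (2 * m)).det = (-1) ^ m * b (2 * m) := by
  obtain ⟨q, rfl⟩ : ∃ q, m = q + 1 := ⟨m - 1, by omega⟩
  rw [blk_start]
  have h := blk_step (dA b) (oA (S := S)) 0 (2 * q)
  have d0 : dA b 0 = 1 := by simp [dA]
  have o0 : oA (S := S) 0 = 0 := by simp [oA]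
  have a1 := blkA_odd b q 0
  simp only [mul_zero, zero_add] at a1
  have hh : 2 * (q + 1) = 2 * q + 2 := by ring
  rw [d0, o0, zero_add, a1] at h
  rw [hh, h]; ring

theorem tri_A' {S : Type} [CommRing S] (b : ℕ → S) (m : ℕ) (hm : 1 ≤ m) :
    (tri (dA b) (oA (S := S)) (2 * m - 1)).det = (-1) ^ (m - 1) := by
  obtain ⟨q, rfl⟩ : ∃ q, m = q + 1 := ⟨m - 1, by omega⟩
  rw [blk_start]
  have d0 : dA b 0 = 1 := by simp [dA]
  have o0 : oA (S := S) 0 = 0 := by simp [oA]
  rcases q with _ | q
  · have : 2 * (0 + 1) - 1 = 1 := rfl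
    rw [this, blk_one, d0]; simp
  · have h := blk_step (dA b) (oA (S := S)) 0 (2 * q + 1)
    have a1 := blkA_odd' b (q + 1) 0
    simp only [mul_zero, zero_add] at a1
    have hh : 2 * (q + 1 + 1) - 1 = 2 * q + 1 + 2 := by omega
    have hk : 2 * q + 1 + 1 = 2 * (q + 1) := by ring
    rw [d0, o0, zero_add, hk, a1] at h
    rw [hh, h]
    simp

end Pool.Agent.Helper32.DZ
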