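import Pool.Agent.Helper32.DZ.Tri

set_option autoImplicit false

/-!
DZ-52 TriHom. The tridiagonal pencil in homogeneous form.

`M(X,Z)`: diagonal `k = 0`: `X`; `k` odd: `-(b (k+1) X + b k Z)`; `k ≥ 2` even: `0`. Off-diagonal `k = 0`: `c Z`; `k` odd: `X`;
`k ≥ 2` even: `Z`.
PROOFS by `tri_det` as in DZ-15, from the bottom. Let `T_k` be the determinant of the lower right block starting at `k`. For
even `k = 2j ≥ 2`: `T_k = (-1)^(m-j) Z^(2m-2j)`. For odd `k = 2j+1`: `T_k = (-1)^(m-j) ∑_(i=k)^(2m) b i X^(i-k) Z^(2m-i)`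
(`T_k = -(b(k+1) X + b k Z) T_(k+1) - X^2 T_(k+2)`). `T_0 = X T_1 - (c Z)^2 T_2`: `tri_hom`, and `tri_first` is the same
formula solved for `X T_1` (for `m = 1` `T_2` is the empty determinant `1`).
`tri_corner` (size `2m - 1`, the last row and column deleted): let `T'_k` be the lower right blocks of this smaller matrix. The last
index is `2m - 2` (even; for `m = 1` it is `0`: determinant `X`). For even `k = 2j ≥ 2`: `T'_k = 0` if ... precisely
`T'_(2m-2) = 0`, and by the recursion `T'_(2j) = 0 * T'_(2j+1) - Z^2 T'_(2j+2) = 0` for `1 ≤ j ≤ m - 1`;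
`T'_(2j+1) = -(..) T'_(2j+2) - X^2 T'_(2j+3)` so `T'_(2m-3) = -X^2 T'_(2m-1)` with `T'_(2m-1) = 1` (empty), hence
`T'_(2j+1) = (-1)^(m-1-j) X^(2(m-1-j))`; `T'_0 = X T'_1 - c^2 Z^2 T'_2 = X T'_1 = (-1)^(m-1) X^(2m-1)`.
Checked by computer.
-/

open Matrix

namespace Pool.Agent.Helper32.DZ

/-- determinant of the block of size `r` starting at the index `s` -/
private def blkH {S : Type} [CommRing S] (d o : ℕ → S) (s r : ℕ) : S :=
  (tri (fun k => d (k + s)) (fun k => o (k + s)) r).det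

private theorem blkH_zero {S : Type} [CommRing S] (d o : ℕ → S) (s : ℕ) : blkH d o s 0 = 1 := by
  simp [blkH]

private theorem blkH_one {S : Type} [CommRing S] (d o : ℕ → S) (s : ℕ) : blkH d o s 1 = d s := by
  simp [blkH, tri]

private theorem blkH_step {S : Type} [CommRing S] (d o : ℕ → S) (s r : ℕ) :
    blkH d o s (r + 2) = d s * blkH d o (s + 1) (r + 1) - (o s) ^ 2 * blkH d o (s + 2) r := by
  have h := tri_det (fun k => d (k + s)) (fun k => o (k + s)) r
  simp only [zero_add] at h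
  rw [blkH, h, blkH, blkH]
  have e1 : (fun k => d (k + 1 + s)) = (fun k => d (k + (s + 1))) := by
    funext k; congr 1; omega
  have e2 : (fun k => o (k + 1 + s)) = (fun k => o (k + (s + 1))) := by
    funext k; congr 1; omega
  have e3 : (fun k => d (k + 2 + s)) = (fun k => d (k + (s + 2))) := by
    funext k; congr 1; omega
  have e4 : (fun k => o (k + 2 + s)) = (fun k => o (k + (s + 2))) := by
    funext k; congr 1; omega
  rw [e1, e2, e3, e4]

private theorem blkH_start {S : Type} [CommRing S] (d o : ℕ → S) (r : ℕ) :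
    (tri d o r).det = blkH d o 0 r := by
  rfl

private theorem hd0 {S : Type} [CommRing S] (b : ℕ → S) (X Z : S) : X * dA b 0 + Z * dB b 0 = X := by
  simp [dA, dB]

private theorem ho0 {S : Type} [CommRing S] (c X Z : S) : X * oA 0 + Z * oB c 0 = c * Z := by
  simp [oA, oB, mul_comm]

private theorem hdev {S : Type} [CommRing S] (b : ℕ → S) (X Z : S) (j : ℕ) :
    X * dA b (2 * j + 2) + Z * dB b (2 * j + 2) = 0 := by
  have h1 : ¬ (2 * j + 2) % 2 = 1 := by omega
  have h2 : ¬ (2 * j + 2) = 0 := by omega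
  simp only [dA, dB, h1, h2, if_false]; ring

private theorem hoev {S : Type} [CommRing S] (c X Z : S) (j : ℕ) :
    X * oA (2 * j + 2) + Z * oB c (2 * j + 2) = Z := by
  have h1 : ¬ (2 * j + 2) % 2 = 1 := by omega
  have h2 : ¬ (2 * j + 2) = 0 := by omega
  simp only [oA, oB, h1, h2, if_false]; ring

private theorem hdod {S : Type} [CommRing S] (b : ℕ → S) (X Z : S) (j : ℕ) :
    X * dA b (2 * j + 1) + Z * dB b (2 * j + 1) = -(X * b (2 * j + 2) + Z * b (2 * j + 1)) := by
  have h1 : (2 * j + 1) % 2 = 1 := by omega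
  have h2 : ¬ (2 * j + 1) = 0 := by omega
  simp only [dA, dB, h1, h2, if_true, if_false]; ring

private theorem hood {S : Type} [CommRing S] (c X Z : S) (j : ℕ) :
    X * oA (2 * j + 1) + Z * oB c (2 * j + 1) = X := by
  have h1 : (2 * j + 1) % 2 = 1 := by omega
  have h2 : ¬ (2 * j + 1) = 0 := by omega
  simp only [oA, oB, h1, h2, if_true, if_false]; ring

private theorem hom_aux {S : Type} [CommRing S] (b : ℕ → S) (c X Z : S) (q : ℕ) :
    ∀ j : ℕ, blkH (fun k => X * dA b k + Z * dB b k) (fun k => X * oA k + Z * oB c k) (2 * j + 2) (2 * q) =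
        (-1) ^ q * Z ^ (2 * q) ∧
      blkH (fun k => X * dA b k + Z * dB b k) (fun k => X * oA k + Z * oB c k) (2 * j + 1) (2 * q + 1) =
        (-1) ^ (q + 1) * ∑ i ∈ Finset.range (2 * q + 2), b (2 * j + 1 + i) * X ^ i * Z ^ (2 * q + 1 - i) := by
  induction q with
  | zero =>
    intro j
    constructor
    · rw [Nat.mul_zero, blkH_zero, pow_zero, pow_zero, mul_one]
    · rw [Nat.mul_zero, zero_add, blkH_one, hdod]
      simp [Finset.sum_range_succ]
      ring
  | succ q ih =>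
    intro j
    have e1 : blkH (fun k => X * dA b k + Z * dB b k) (fun k => X * oA k + Z * oB c k) (2 * j + 2)
        (2 * (q + 1)) = (-1) ^ (q + 1) * Z ^ (2 * (q + 1)) := by
      have h := blkH_step (fun k => X * dA b k + Z * dB b k) (fun k => X * oA k + Z * oB c k) (2 * j + 2) (2 * q)
      rw [hdev, hoev] at h
      have hh : 2 * (q + 1) = 2 * q + 2 := by ring
      have hj : 2 * j + 2 + 2 = 2 * (j + 1) + 2 := by ring
      rw [hh, h, hj, (ih (j + 1)).1]; ring
    refine ⟨e1, ?_⟩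
    have h := blkH_step (fun k => X * dA b k + Z * dB b k) (fun k => X * oA k + Z * oB c k) (2 * j + 1)
      (2 * q + 1)
    rw [hdod, hood] at h
    have hh : 2 * (q + 1) + 1 = 2 * q + 1 + 2 := by ring
    have hj : 2 * j + 1 + 2 = 2 * (j + 1) + 1 := by ring
    have hk : 2 * q + 1 + 1 = 2 * (q + 1) := by ring
    have hl : 2 * j + 1 + 1 = 2 * j + 2 := by ring
    rw [hj, (ih (j + 1)).2, hk, hl, e1] at h
    rw [hh, h]
    have hs : 2 * (q + 1) + 2 = (2 * q + 2) + 1 + 1 := by ring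
    rw [hs, Finset.sum_range_succ', Finset.sum_range_succ']
    have hsum : ∑ k ∈ Finset.range (2 * q + 2),
        b (2 * j + 1 + (k + 1 + 1)) * X ^ (k + 1 + 1) * Z ^ (2 * q + 1 + 2 - (k + 1 + 1)) =
        X ^ 2 * ∑ k ∈ Finset.range (2 * q + 2), b (2 * (j + 1) + 1 + k) * X ^ k * Z ^ (2 * q + 1 - k) := by
      rw [Finset.mul_sum]
      refine Finset.sum_congr rfl fun k _ => ?_
      have h1 : 2 * j + 1 + (k + 1 + 1) = 2 * (j + 1) + 1 + k := by ring
      have h2 : 2 * q + 1 + 2 - (k + 1 + 1) = 2 * q + 1 - k := by omega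
      rw [h1, h2]; ring
    rw [hsum]
    have h3 : 2 * q + 1 + 2 - (0 + 1) = 2 * q + 2 := by omega
    have h4 : 2 * q + 1 + 2 - 0 = 2 * q + 3 := by omega
    rw [h3, h4]
    simp only [zero_add, add_zero, pow_zero, pow_succ]
    ring_nf

theorem tri_hom {S : Type} [CommRing S] (b : ℕ → S) (c X Z : S) (m : ℕ) (hm : 1 ≤ m) :
    (tri (fun k => X * dA b k + Z * dB b k) (fun k => X * oA k + Z * oB c k) (2 * m)).det =
      (-1) ^ m * (c ^ 2 * Z ^ (2 * m) +
        ∑ i ∈ Finset.range (2 * m), b (i + 1) * X ^ (i + 1) * Z ^ (2 * m - 1 - i)) := by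
  obtain ⟨q, rfl⟩ : ∃ q, m = q + 1 := ⟨m - 1, by omega⟩
  rw [blkH_start]
  have h := blkH_step (fun k => X * dA b k + Z * dB b k) (fun k => X * oA k + Z * oB c k) 0 (2 * q)
  have a1 := (hom_aux b c X Z q 0).2
  have a2 := (hom_aux b c X Z q 0).1
  simp only [mul_zero, zero_add] at a1 a2
  have hh : 2 * (q + 1) = 2 * q + 2 := by ring
  rw [hd0, ho0, zero_add, zero_add, a1, a2] at h
  rw [hh, h]
  have hsum : ∑ i ∈ Finset.range (2 * q + 2), b (i + 1) * X ^ (i + 1) * Z ^ (2 * q + 2 - 1 - i) =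
      X * ∑ i ∈ Finset.range (2 * q + 2), b (1 + i) * X ^ i * Z ^ (2 * q + 1 - i) := by
    rw [Finset.mul_sum]
    refine Finset.sum_congr rfl fun k _ => ?_
    have h1 : 2 * q + 2 - 1 - k = 2 * q + 1 - k := by omega
    rw [add_comm 1 k, h1]; ring
  rw [hsum]
  ring

private theorem corner_even {S : Type} [CommRing S] (b : ℕ → S) (c X Z : S) (q : ℕ) :
    ∀ j : ℕ, blkH (fun k => X * dA b k + Z * dB b k) (fun k => X * oA k + Z * oB c k) (2 * j + 2)
      (2 * q + 1) = 0 := by
  induction q with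
  | zero =>
    intro j
    rw [Nat.mul_zero, zero_add, blkH_one, hdev]
  | succ q ih =>
    intro j
    have h := blkH_step (fun k => X * dA b k + Z * dB b k) (fun k => X * oA k + Z * oB c k) (2 * j + 2)
      (2 * q + 1)
    have hj : 2 * j + 2 + 2 = 2 * (j + 1) + 2 := by ring
    rw [hdev, hoev, hj, ih (j + 1)] at h
    have hh : 2 * (q + 1) + 1 = 2 * q + 1 + 2 := by ring
    rw [hh, h]; ring

private theorem corner_odd {S : Type} [CommRing S] (b : ℕ → S) (c X Z : S) (q : ℕ) :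
    ∀ j : ℕ, blkH (fun k => X * dA b k + Z * dB b k) (fun k => X * oA k + Z * oB c k) (2 * j + 1)
      (2 * q) = (-1) ^ q * X ^ (2 * q) := by
  induction q with
  | zero =>
    intro j
    rw [Nat.mul_zero, blkH_zero, pow_zero, pow_zero, mul_one]
  | succ q ih =>
    intro j
    have h := blkH_step (fun k => X * dA b k + Z * dB b k) (fun k => X * oA k + Z * oB c k) (2 * j + 1)
      (2 * q)
    have hj : 2 * j + 1 + 2 = 2 * (j + 1) + 1 := by ring
    have hl : 2 * j + 1 + 1 = 2 * j + 2 := by ring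
    rw [hood, hj, ih (j + 1), hl, corner_even] at h
    have hh : 2 * (q + 1) = 2 * q + 2 := by ring
    rw [hh, h]; ring

theorem tri_corner {S : Type} [CommRing S] (b : ℕ → S) (c X Z : S) (m : ℕ) (hm : 1 ≤ m) :
    (tri (fun k => X * dA b k + Z * dB b k) (fun k => X * oA k + Z * oB c k) (2 * m - 1)).det =
      (-1) ^ (m - 1) * X ^ (2 * m - 1) := by
  obtain ⟨q, rfl⟩ : ∃ q, m = q + 1 := ⟨m - 1, by omega⟩
  rw [blkH_start]
  rcases q with _ | q
  · have h1 : 2 * (0 + 1) - 1 = 1 := rfl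
    rw [h1, blkH_one, hd0]; simp
  · have h := blkH_step (fun k => X * dA b k + Z * dB b k) (fun k => X * oA k + Z * oB c k) 0 (2 * q + 1)
    have a1 := corner_odd b c X Z (q + 1) 0
    have a2 := corner_even b c X Z q 0
    simp only [mul_zero, zero_add] at a1 a2
    have hh : 2 * (q + 1 + 1) - 1 = 2 * q + 1 + 2 := by omega
    have hk : 2 * q + 1 + 1 = 2 * (q + 1) := by ring
    rw [hd0, ho0, zero_add, zero_add, hk, a1, a2] at h
    rw [hh, h]
    have h5 : q + 1 + 1 - 1 = q + 1 := by omega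
    rw [h5]
    ring

theorem tri_first {S : Type} [CommRing S] (b : ℕ → S) (c X Z : S) (m : ℕ) (hm : 1 ≤ m) :
    X * (tri (fun k => X * dA b (k + 1) + Z * dB b (k + 1))
        (fun k => X * oA (k + 1) + Z * oB c (k + 1)) (2 * m - 1)).det =
      (tri (fun k => X * dA b k + Z * dB b k) (fun k => X * oA k + Z * oB c k) (2 * m)).det +
        (-1) ^ (m - 1) * c ^ 2 * Z ^ (2 * m) := by
  obtain ⟨q, rfl⟩ : ∃ q, m = q + 1 := ⟨m - 1, by omega⟩
  have hs : (tri (fun k => X * dA b (k + 1) + Z * dB b (k + 1))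
        (fun k => X * oA (k + 1) + Z * oB c (k + 1)) (2 * (q + 1) - 1)).det =
      blkH (fun k => X * dA b k + Z * dB b k) (fun k => X * oA k + Z * oB c k) 1 (2 * q + 1) := by
    have h1 : 2 * (q + 1) - 1 = 2 * q + 1 := by omega
    rw [h1]; rfl
  rw [hs, blkH_start]
  have h := blkH_step (fun k => X * dA b k + Z * dB b k) (fun k => X * oA k + Z * oB c k) 0 (2 * q)
  have a2 := (hom_aux b c X Z q 0).1
  simp only [mul_zero, zero_add] at a2
  have hh : 2 * (q + 1) = 2 * q + 2 := by ring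
  rw [hd0, ho0, zero_add, zero_add, a2] at h
  have h5 : q + 1 - 1 = q := by omega
  rw [hh, h, h5]
  ring

end Pool.Agent.Helper32.DZ
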