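import Pool.Agent.Helper32.DZ.PenLem
import Pool.Agent.Helper32.DZ.Eig

set_option autoImplicit false

/-!
DZ-09 UtInj. The unitriangular translates of a good pair are pairwise different.

PROOF. `W = V U⁻¹` (integral, `det U = 1`; or work over `ℂ`): from `U^t P U = V^t P V`: `W^t P W = P`, same for `R`.
Over `ℂ` let `E`, `α` be from `eig` (columns `x_i` of `E`). `W` is upper unitriangular, so `(W - 1)^N = 0`.
`W⁻¹ = P⁻¹ W^t P`, so `P⁻¹ R W = P⁻¹ W^{-t} R = W P⁻¹ R` (`R W = W^{-t} R`, `P⁻¹ W^{-t} = W P⁻¹`): `W` commutes with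
`T = P⁻¹ R`. `T E = E diagonal(e)`. So `K = E⁻¹ W E` commutes with `diagonal e`, `e` injective: `K` is diagonal,
and `(K - 1)^N = E⁻¹ (W - 1)^N E = 0`, so `K = 1`, `W = 1`, `U = V`.
(Nilpotency: `W - 1` strictly upper triangular; or: the diagonal entries of `K` are eigenvalues of `W`, roots of
`charpoly W = (X - 1)^N` by `Matrix.charpoly_of_upperTriangular` / `det_of_upperTriangular`.)
-/

open Matrix

namespace Pool.Agent.Helper32.DZ

private theorem ui_inv {N : ℕ} (A : Matrix (Fin N) (Fin N) ℂ) (h : A.det ≠ 0) :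
    ∃ B : Matrix (Fin N) (Fin N) ℂ, A * B = 1 ∧ B * A = 1 :=
  ⟨A⁻¹, Matrix.mul_nonsing_inv A (isUnit_iff_ne_zero.2 h),
    Matrix.nonsing_inv_mul A (isUnit_iff_ne_zero.2 h)⟩

private theorem ui_key {N : ℕ} (P R U V : Matrix (Fin N) (Fin N) ℂ) (hP : P.IsSymm)
    (hR : R.IsSymm) (hd : P.det ≠ 0) (e : Fin N → ℂ) (he : Function.Injective e)
    (hr : ∀ i, (e i • P - R).det = 0) (hU : U.det ≠ 0) (hV : V.det ≠ 0)
    (h1 : Uᵀ * P * U = Vᵀ * P * V) (h2 : Uᵀ * R * U = Vᵀ * R * V)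
    (hdet : ∀ k : ℂ, (k • U - V).det = (k - 1) ^ N) : U = V := by
  obtain ⟨E, α, hE, _, hE1, hE2⟩ := eig P R hP hR hd e he hr
  obtain ⟨P', hP1, hP2⟩ := ui_inv P hd
  obtain ⟨U', hU1, hU2⟩ := ui_inv U hU
  obtain ⟨V', hV1, hV2⟩ := ui_inv V hV
  obtain ⟨E', hE3, hE4⟩ := ui_inv E hE
  obtain ⟨W, hW⟩ : ∃ W, W = V * U' := ⟨_, rfl⟩
  obtain ⟨T, hT⟩ : ∃ T, T = P' * R := ⟨_, rfl⟩
  have hVt : V'ᵀ * Vᵀ = 1 := by rw [← Matrix.transpose_mul, hV1, Matrix.transpose_one]
  have hEt : E'ᵀ * Eᵀ = 1 := by rw [← Matrix.transpose_mul, hE3, Matrix.transpose_one]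
  have hWU : W * U = V := by rw [hW, mul_assoc, hU2, mul_one]
  have hPT : P * T = R := by rw [hT, ← mul_assoc, hP1, one_mul]
  have ha : Vᵀ * P * W = Uᵀ * P := by
    calc Vᵀ * P * W = (Vᵀ * P * V) * U' := by rw [hW]; simp only [mul_assoc]
      _ = (Uᵀ * P * U) * U' := by rw [h1]
      _ = Uᵀ * P * (U * U') := by simp only [mul_assoc]
      _ = Uᵀ * P := by rw [hU1, mul_one]
  have hb : Vᵀ * R * W = Uᵀ * R := by
    calc Vᵀ * R * W = (Vᵀ * R * V) * U' := by rw [hW]; simp only [mul_assoc]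
      _ = (Uᵀ * R * U) * U' := by rw [h2]
      _ = Uᵀ * R * (U * U') := by simp only [mul_assoc]
      _ = Uᵀ * R := by rw [hU1, mul_one]
  have hc : P * W * T = R * W := by
    calc P * W * T = (V'ᵀ * Vᵀ) * (P * W * T) := by rw [hVt, one_mul]
      _ = V'ᵀ * ((Vᵀ * P * W) * T) := by simp only [mul_assoc]
      _ = V'ᵀ * (Uᵀ * (P * T)) := by rw [ha]; simp only [mul_assoc]
      _ = V'ᵀ * (Vᵀ * R * W) := by rw [hPT, hb]
      _ = (V'ᵀ * Vᵀ) * (R * W) := by simp only [mul_assoc]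
      _ = R * W := by rw [hVt, one_mul]
  have hWT : W * T = T * W := by
    calc W * T = (P' * P) * (W * T) := by rw [hP2, one_mul]
      _ = P' * (P * W * T) := by simp only [mul_assoc]
      _ = T * W := by rw [hc, hT, mul_assoc]
  have hTE : T * E = E * Matrix.diagonal e := by
    have h3 : R * E = P * E * Matrix.diagonal e := by
      calc R * E = (E'ᵀ * Eᵀ) * (R * E) := by rw [hEt, one_mul]
        _ = E'ᵀ * (Eᵀ * R * E) := by simp only [mul_assoc]
        _ = E'ᵀ * (Matrix.diagonal α * Matrix.diagonal e) := by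
          rw [hE2, Matrix.diagonal_mul_diagonal]
        _ = E'ᵀ * ((Eᵀ * P * E) * Matrix.diagonal e) := by rw [hE1]
        _ = (E'ᵀ * Eᵀ) * (P * E * Matrix.diagonal e) := by simp only [mul_assoc]
        _ = P * E * Matrix.diagonal e := by rw [hEt, one_mul]
    calc T * E = P' * (R * E) := by rw [hT, mul_assoc]
      _ = (P' * P) * (E * Matrix.diagonal e) := by rw [h3]; simp only [mul_assoc]
      _ = E * Matrix.diagonal e := by rw [hP2, one_mul]
  have hET : E' * T = Matrix.diagonal e * E' := by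
    calc E' * T = E' * (T * E) * E' := by
          rw [mul_assoc, mul_assoc, hE3, mul_one]
      _ = (E' * E) * (Matrix.diagonal e * E') := by rw [hTE]; simp only [mul_assoc]
      _ = Matrix.diagonal e * E' := by rw [hE4, one_mul]
  obtain ⟨K, hK⟩ : ∃ K, K = E' * W * E := ⟨_, rfl⟩
  have hKe : K * Matrix.diagonal e = Matrix.diagonal e * K := by
    calc K * Matrix.diagonal e = E' * W * (E * Matrix.diagonal e) := by
          rw [hK, mul_assoc]
      _ = E' * (W * T) * E := by rw [← hTE]; simp only [mul_assoc]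
      _ = (E' * T) * (W * E) := by rw [hWT]; simp only [mul_assoc]
      _ = Matrix.diagonal e * K := by rw [hET, hK]; simp only [mul_assoc]
  have hKd : K = Matrix.diagonal (fun i => K i i) := by
    ext i j
    by_cases hij : i = j
    · rw [hij, Matrix.diagonal_apply_eq]
    · rw [Matrix.diagonal_apply_ne _ hij]
      have h3 := congrFun (congrFun hKe i) j
      rw [Matrix.mul_diagonal, Matrix.diagonal_mul] at h3
      have h4 : K i j * (e j - e i) = 0 := by linear_combination h3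
      rcases mul_eq_zero.1 h4 with h5 | h5
      · exact h5
      · exact absurd (he (sub_eq_zero.1 h5)).symm hij
  have hWK : W = E * K * E' := by
    calc W = (E * E') * W * (E * E') := by rw [hE3, one_mul, mul_one]
      _ = E * K * E' := by rw [hK]; simp only [mul_assoc]
  have hk : ∀ i, K i i = 1 := by
    intro i
    have h3 : (K i i) • U - V = (E * Matrix.diagonal (fun j => K i i - K j j) * E') * U := by
      have h4 : Matrix.diagonal (fun j => K i i - K j j) = (K i i) • (1 : Matrix _ _ ℂ) - K := by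
        conv_rhs => rw [hKd]
        rw [← Matrix.diagonal_one, ← Matrix.diagonal_smul, Matrix.diagonal_sub]
        congr 1
        ext j
        simp
      rw [h4, mul_sub, sub_mul, ← hWK, sub_mul, hWU, mul_smul_comm, mul_one, smul_mul_assoc, hE3,
        smul_mul_assoc, one_mul]
    have h5 := hdet (K i i)
    rw [h3, Matrix.det_mul, Matrix.det_mul, Matrix.det_mul, Matrix.det_diagonal,
      Finset.prod_eq_zero (Finset.mem_univ i) (sub_self _), mul_zero, zero_mul, zero_mul] at h5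
    have h6 := (pow_eq_zero_iff (Fin.pos i).ne').1 h5.symm
    exact sub_eq_zero.1 h6
  have hK1 : K = 1 := by
    rw [hKd, ← Matrix.diagonal_one]
    congr 1
    ext i
    exact hk i
  rw [← hWU, hWK, hK1, mul_one, hE3, one_mul]

private theorem ui_det {N : ℕ} (U V : Matrix (Fin N) (Fin N) ℤ) (hU : UT U) (hV : UT V) (k : ℂ) :
    (k • U.map (Int.cast : ℤ → ℂ) - V.map (Int.cast : ℤ → ℂ)).det = (k - 1) ^ N := by
  rw [Matrix.det_of_isUpperTriangular]
  · simp [hU.1, hV.1]
  · intro i j hij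
    simp only [id_eq] at hij
    simp [hU.2 i j hij, hV.2 i j hij]

theorem ut_inj {N : ℕ} (P R : Matrix (Fin N) (Fin N) ℤ) (h : PG P R)
    (U V : Matrix (Fin N) (Fin N) ℤ) (hU : UT U) (hV : UT V)
    (h1 : Uᵀ * P * U = Vᵀ * P * V) (h2 : Uᵀ * R * U = Vᵀ * R * V) : U = V := by
  obtain ⟨hP, hR, hd, e, he, hr⟩ := h
  have hmul : ∀ A B : Matrix (Fin N) (Fin N) ℤ,
      (A * B).map (Int.cast : ℤ → ℂ) = A.map (Int.cast : ℤ → ℂ) * B.map (Int.cast : ℤ → ℂ) := by
    intro A B
    exact Matrix.map_mul (f := Int.castRingHom ℂ)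
  have hdet : ∀ A : Matrix (Fin N) (Fin N) ℤ,
      (A.map (Int.cast : ℤ → ℂ)).det = ((A.det : ℤ) : ℂ) := by
    intro A
    exact (RingHom.map_det (Int.castRingHom ℂ) A).symm
  have hc : ∀ A B : Matrix (Fin N) (Fin N) ℤ,
      (A.map (Int.cast : ℤ → ℂ))ᵀ * B.map (Int.cast : ℤ → ℂ) * A.map (Int.cast : ℤ → ℂ) =
        (Aᵀ * B * A).map (Int.cast : ℤ → ℂ) := by
    intro A B
    rw [hmul, hmul, Matrix.transpose_map]
  have hkey := ui_key (P.map (Int.cast : ℤ → ℂ)) (R.map (Int.cast : ℤ → ℂ))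
    (U.map (Int.cast : ℤ → ℂ)) (V.map (Int.cast : ℤ → ℂ)) (hP.map _) (hR.map _)
    (by rw [hdet]; exact_mod_cast hd) e he hr
    (by rw [hdet, ut_det U hU]; simp) (by rw [hdet, ut_det V hV]; simp)
    (by rw [hc U P, hc V P, h1]) (by rw [hc U R, hc V R, h2])
    (ui_det U V hU hV)
  ext i j
  have h3 := congrFun (congrFun hkey i) j
  simp only [Matrix.map_apply] at h3
  exact_mod_cast h3

end Pool.Agent.Helper32.DZ
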