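import Pool.Agent.Helper32.DZ.Defs
import Pool.Agent.Helper32.DZ.Eig

set_option autoImplicit false

/-!
DZ-10 ZeroBlock. A good pair has no common zero block `i × j` with `i + j = N`, `1 ≤ i ≤ j`; a nonsingular
matrix has no zero block `i × j` with `i + j > N`.

PROOF of `zero_det`: the first `i` rows live in the `N - j < i` last coordinates, so they are linearly
dependent (or: Leibniz formula, every permutation `σ` has some row `k < i` with `σ k < j` by counting:
`i` values cannot fit in the `N - j` last columns; Mathlib `Matrix.det_apply`, `Finset.prod_eq_zero`).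
PROOF of `zero_block`: over `ℂ`, `P`, `R` cast. `W` = vectors supported on the first `i` coordinates (dimension `i`),
`W'` = supported on the first `j` (dimension `j`). For `x ∈ W`: `P x` and `R x` vanish on the first `j` coordinates,
i.e. lie in `Z` = vectors supported on the last `N - j = i` coordinates (dimension `i`). `P` is injective, so
`P W = Z` by dimension, so `R W ≤ P W`, i.e. `T = P⁻¹ R` maps `W` into `W`. As `i ≥ 1`, `T` has an eigenvector
`x ∈ W`, `x ≠ 0` (`Module.End.exists_eigenvalue` for the restriction), `R x = μ P x`. By `eig`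
(`V`, `α`): `x = V c`, `diagonal(α_k (e_k - μ)) c = V^t (R - μ P) V c = 0`, so `c` is supported where `e_k = μ`,
one index `k` (`e` injective), `x = c_k v_k`, and `x^t P x = c_k^2 α_k ≠ 0`. But `x ∈ W ≤ W'` (`i ≤ j`) and `P x ∈ Z`
give `x^t P x = 0`. Contradiction.
-/

open Matrix

namespace Pool.Agent.Helper32.DZ

theorem zero_det {N : ℕ} (G : Matrix (Fin N) (Fin N) ℤ) (i j : ℕ) (hi : i ≤ N) (hj : j ≤ N)
    (h : N < i + j) (hz : ∀ k l : Fin N, (k : ℕ) < i → (l : ℕ) < j → G k l = 0) : G.det = 0 := by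
  rw [Matrix.det_apply]
  refine Finset.sum_eq_zero fun σ _ => ?_
  have hex : ∃ l : Fin N, (l : ℕ) < j ∧ ((σ l : Fin N) : ℕ) < i := by
    by_contra hcon
    push Not at hcon
    have hinj : Function.Injective
        (fun l : Fin j => (⟨((σ ⟨l, lt_of_lt_of_le l.2 hj⟩ : Fin N) : ℕ) - i, by
          have h1 := hcon ⟨l, lt_of_lt_of_le l.2 hj⟩ l.2
          have h2 := (σ ⟨l, lt_of_lt_of_le l.2 hj⟩ : Fin N).2
          omega⟩ : Fin (N - i))) := by
      intro a b hab
      have h1 := hcon ⟨a, lt_of_lt_of_le a.2 hj⟩ a.2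
      have h2 := hcon ⟨b, lt_of_lt_of_le b.2 hj⟩ b.2
      have h3 := congrArg Fin.val hab
      simp only at h3
      have h4 : (σ ⟨a, lt_of_lt_of_le a.2 hj⟩ : Fin N) = σ ⟨b, lt_of_lt_of_le b.2 hj⟩ :=
        Fin.ext (by omega)
      have h5 := σ.injective h4
      exact Fin.ext (by simpa using congrArg Fin.val h5)
    have h6 := Fintype.card_le_of_injective _ hinj
    simp only [Fintype.card_fin] at h6
    omega
  obtain ⟨l, hl, hσ⟩ := hex
  have h1 : ∏ x, G (σ x) x = 0 := Finset.prod_eq_zero (Finset.mem_univ l) (hz _ _ hσ hl)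
  rw [h1, smul_zero]

private theorem zb_main {N : ℕ} (P R : Matrix (Fin N) (Fin N) ℂ) (hP : P.IsSymm) (hR : R.IsSymm)
    (hd : P.det ≠ 0) (e : Fin N → ℂ) (he : Function.Injective e)
    (hr : ∀ i, (e i • P - R).det = 0) (i j : ℕ) (hi : 1 ≤ i) (hij : i ≤ j) (hN : i + j = N)
    (hz : ∀ k l : Fin N, (k : ℕ) < i → (l : ℕ) < j → P k l = 0 ∧ R k l = 0) : False := by
  classical
  obtain ⟨V, α, hV, hα, hVP, hVR⟩ := eig P R hP hR hd e he hr
  have hsymmP : ∀ k l, P k l = P l k := fun k l => by rw [← hP.apply]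
  have hsymmR : ∀ k l, R k l = R l k := fun k l => by rw [← hR.apply]
  -- the embedding of the first `i` coordinates and the last `i` coordinates
  let a : Fin i → Fin N := fun k => ⟨k, by omega⟩
  let b : Fin i → Fin N := fun k => ⟨j + k, by omega⟩
  let ex : (Fin i → ℂ) → (Fin N → ℂ) := fun c l => if h : (l : ℕ) < i then c ⟨l, h⟩ else 0
  have hexa : ∀ c k, ex c (a k) = c k := by
    intro c k
    simp only [ex, a]
    rw [dif_pos k.2]
  have hex0 : ∀ (c : Fin i → ℂ) (l : Fin N), ¬ (l : ℕ) < i → ex c l = 0 := by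
    intro c l hl
    simp only [ex]
    rw [dif_neg hl]
  have hmul : ∀ (M : Matrix (Fin N) (Fin N) ℂ) c r, (M *ᵥ ex c) r = ∑ k, M r (a k) * c k := by
    intro M c r
    rw [Matrix.mulVec, dotProduct]
    have hainj : Function.Injective a := fun x y hxy => Fin.ext (by simpa [a] using hxy)
    rw [← Finset.sum_subset (Finset.subset_univ (Finset.univ.image a))]
    · rw [Finset.sum_image (fun x _ y _ hxy => hainj hxy)]
      exact Finset.sum_congr rfl fun k _ => by rw [hexa]
    · intro l _ hl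
      have : ¬ (l : ℕ) < i := by
        intro hli
        exact hl (Finset.mem_image.2 ⟨⟨l, hli⟩, Finset.mem_univ _, Fin.ext rfl⟩)
      rw [hex0 c l this, mul_zero]
  have hlow : ∀ (M : Matrix (Fin N) (Fin N) ℂ),
      (∀ k l : Fin N, (k : ℕ) < i → (l : ℕ) < j → M k l = 0) → (∀ k l, M k l = M l k) →
      ∀ c (r : Fin N), (r : ℕ) < j → (M *ᵥ ex c) r = 0 := by
    intro M hM hs c r hr'
    rw [hmul]
    refine Finset.sum_eq_zero fun k _ => ?_
    rw [hs, hM (a k) r k.2 hr', zero_mul]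
  have hPlow := hlow P (fun k l hk hl => (hz k l hk hl).1) hsymmP
  have hRlow := hlow R (fun k l hk hl => (hz k l hk hl).2) hsymmR
  let BP : Matrix (Fin i) (Fin i) ℂ := P.submatrix b a
  let BR : Matrix (Fin i) (Fin i) ℂ := R.submatrix b a
  have hbP : ∀ c k, (BP *ᵥ c) k = (P *ᵥ ex c) (b k) := by
    intro c k
    rw [hmul]
    rfl
  have hbR : ∀ c k, (BR *ᵥ c) k = (R *ᵥ ex c) (b k) := by
    intro c k
    rw [hmul]
    rfl
  have hcase : ∀ r : Fin N, (r : ℕ) < j ∨ ∃ k, r = b k := by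
    intro r
    by_cases hrj : (r : ℕ) < j
    · exact Or.inl hrj
    · refine Or.inr ⟨⟨r - j, by omega⟩, Fin.ext ?_⟩
      simp only [b]
      omega
  have hPu : IsUnit P.det := isUnit_iff_ne_zero.2 hd
  have hBd : BP.det ≠ 0 := by
    intro h0
    obtain ⟨c, hc0, hc⟩ := Matrix.exists_mulVec_eq_zero_iff.2 h0
    have h1 : P *ᵥ ex c = 0 := by
      ext r
      rcases hcase r with h2 | ⟨k, rfl⟩
      · rw [hPlow c r h2]; rfl
      · rw [← hbP, hc]; rfl
    have h2 : ex c = 0 := by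
      by_contra hne
      exact hd (Matrix.exists_mulVec_eq_zero_iff.1 ⟨ex c, hne, h1⟩)
    apply hc0
    ext k
    rw [← hexa c k, h2]; rfl
  have hBu : IsUnit BP.det := isUnit_iff_ne_zero.2 hBd
  have : Nonempty (Fin i) := ⟨⟨0, by omega⟩⟩
  obtain ⟨μ, hμ⟩ := Module.End.exists_eigenvalue (Matrix.toLin' (BP⁻¹ * BR))
  obtain ⟨c, hc⟩ := hμ.exists_hasEigenvector
  have hc1 : (BP⁻¹ * BR) *ᵥ c = μ • c := by
    have := hc.apply_eq_smul
    rwa [Matrix.toLin'_apply] at this
  have hc2 : BR *ᵥ c = μ • (BP *ᵥ c) := by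
    have h1 : BP *ᵥ ((BP⁻¹ * BR) *ᵥ c) = BR *ᵥ c := by
      rw [Matrix.mulVec_mulVec, ← Matrix.mul_assoc, Matrix.mul_nonsing_inv _ hBu, Matrix.one_mul]
    rw [← h1, hc1, Matrix.mulVec_smul]
  have hc0 : c ≠ 0 := hc.2
  set x := ex c with hx
  have hRx : R *ᵥ x = μ • (P *ᵥ x) := by
    ext r
    rcases hcase r with h2 | ⟨k, rfl⟩
    · rw [hRlow c r h2, Pi.smul_apply, hPlow c r h2, smul_zero]
    · rw [← hbR, Pi.smul_apply, ← hbP, hc2]; rfl
  have hxPx : x ⬝ᵥ (P *ᵥ x) = 0 := by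
    rw [dotProduct]
    refine Finset.sum_eq_zero fun r _ => ?_
    by_cases hr1 : (r : ℕ) < i
    · rw [hPlow c r (lt_of_lt_of_le hr1 hij), mul_zero]
    · rw [hx, hex0 c r hr1, zero_mul]
  have hVu : IsUnit V.det := isUnit_iff_ne_zero.2 hV
  set w := V⁻¹ *ᵥ x with hw
  have hVw : V *ᵥ w = x := by
    rw [hw, Matrix.mulVec_mulVec, Matrix.mul_nonsing_inv _ hVu, Matrix.one_mulVec]
  have h1 : ∀ k, α k * e k * w k = μ * (α k * w k) := by
    intro k
    have h2 : (Vᵀ * R * V) *ᵥ w = μ • ((Vᵀ * P * V) *ᵥ w) := by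
      rw [← Matrix.mulVec_mulVec, ← Matrix.mulVec_mulVec, ← Matrix.mulVec_mulVec,
        ← Matrix.mulVec_mulVec, hVw, hRx, Matrix.mulVec_smul]
    rw [hVP, hVR] at h2
    have h3 := congrFun h2 k
    rw [Pi.smul_apply, Matrix.mulVec_diagonal, Matrix.mulVec_diagonal, smul_eq_mul] at h3
    exact h3
  have h2 : ∑ k, α k * w k ^ 2 = 0 := by
    have h3 : w ⬝ᵥ ((Vᵀ * P * V) *ᵥ w) = 0 := by
      rw [← Matrix.mulVec_mulVec, ← Matrix.mulVec_mulVec, hVw, Matrix.dotProduct_mulVec,
        Matrix.vecMul_transpose, hVw, hxPx]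
    rw [hVP, dotProduct] at h3
    rw [← h3]
    refine Finset.sum_congr rfl fun k _ => ?_
    rw [Matrix.mulVec_diagonal]
    ring
  have hw0 : w ≠ 0 := by
    intro h3
    rw [h3, Matrix.mulVec_zero] at hVw
    apply hc0
    ext k
    rw [← hexa c k]
    exact congrFun hVw.symm _
  obtain ⟨k, hk⟩ := Function.ne_iff.1 hw0
  have hek : e k = μ := by
    have h3 : α k * w k * (e k - μ) = 0 := by linear_combination h1 k
    rcases mul_eq_zero.1 h3 with h4 | h4
    · exact absurd h4 (mul_ne_zero (hα k) hk)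
    · exact sub_eq_zero.1 h4
  have hoth : ∀ l, l ≠ k → w l = 0 := by
    intro l hl
    have h3 : α l * (e l - μ) * w l = 0 := by linear_combination h1 l
    rcases mul_eq_zero.1 h3 with h4 | h4
    · exfalso
      rcases mul_eq_zero.1 h4 with h5 | h5
      · exact hα l h5
      · exact hl (he ((sub_eq_zero.1 h5).trans hek.symm))
    · exact h4
  rw [Finset.sum_eq_single k] at h2
  · exact mul_ne_zero (hα k) (pow_ne_zero 2 hk) h2
  · intro l _ hl
    rw [hoth l hl]
    ring
  · intro h3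
    exact absurd (Finset.mem_univ k) h3

theorem zero_block {N : ℕ} (P R : Matrix (Fin N) (Fin N) ℤ) (h : PG P R) (i j : ℕ) (hi : 1 ≤ i)
    (hij : i ≤ j) (hN : i + j = N)
    (hz : ∀ k l : Fin N, (k : ℕ) < i → (l : ℕ) < j → P k l = 0 ∧ R k l = 0) : False := by
  obtain ⟨hP, hR, hd, e, he, hr⟩ := h
  refine zb_main (P.map (Int.cast : ℤ → ℂ)) (R.map (Int.cast : ℤ → ℂ)) ?_ ?_ ?_ e he hr i j hi hij hN ?_
  · exact hP.map _
  · exact hR.map _
  · have h1 : (P.map (Int.cast : ℤ → ℂ)).det = ((P.det : ℤ) : ℂ) := by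
      have := (Int.castRingHom ℂ).map_det P
      simpa [RingHom.mapMatrix_apply] using this.symm
    rw [h1]
    exact_mod_cast hd
  · intro k l hk hl
    obtain ⟨h1, h2⟩ := hz k l hk hl
    rw [Matrix.map_apply, Matrix.map_apply, h1, h2]
    simp

end Pool.Agent.Helper32.DZ
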